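import Pool.Agent.MCA.ACH
import Pool.Agent.MSQ.EvA
/-!
ACA (120 lines). Polynomial bounds for the surds of the chart, denominator `10^8`.

PROOF. Squares: `posG` of the integer polynomials (grids `nx ny` in brackets)
`3 aNh² - 10^16 (3+y²)` [1 2], `10^16 (3+y²) - 3 aNl²` [1 5], `2 awh² - 10^16 (2+x²)` [6 1], `10^16 (2+x²) - 2 awl²` [3 1],
sliver `[0,1] × [31/31, 38/31]`: the same with `asNh` [1 2], `asNl` [1 2];
`36000 aSh² - 10^16 (3+y²)(2+x²)(8430 + 1000 (2+x²) y²)` [3 3] (`asSh` on `[0,1] × [1, 38/31]` [3 3]),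
`36 aTh² - 10^16 (3+y²)(2+x²)(6 + (2+x²) y²)` [3 3]; and positivity of `aNh, awh, aSh, ...` themselves (for `abs_le_of_sq_le`).
Write the polynomials with `pAdd, pSm, pMul` and use `ev_pAdd, ev_pSm, ev_pMul` (or whatever they are called in MSQ/MTR);
the checks by `decide +kernel`.
-/
set_option autoImplicit false

namespace Pool.Agent.MCA
open Pool.Agent.MSQ Pool.Agent.MTR

def aNh : P := [[100000010, 1909, 16642099, 124889, -1701427, 402618]]
def aNl : P := [[99999940, 1909, 16642099, 124889, -1701427, 402618]]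
def awh : P := [[100000099], [1073], [24978684], [168895], [-3736912], [1062856]]
def awl : P := [[99999871], [1073], [24978684], [168895], [-3736912], [1062856]]
def asNh : P := [[100015577, -563210, 18621637, -2603944]]
def asNl : P := [[100015555, -563210, 18621637, -2603944]]
def aSh : P := [[118532905, 60, 33815130, 8936, -168610, 54311], [1272, -17, -846, -641, -371, 462], [29607908, -69, 15497578, -17420, 384479, -122688], [200207, -759, -32796, -27955, -30717, 26566], [-4429485, 1587, 736027, 62240, -68897, -21073], [1259843, -806, 11711, -24922, -126809, 66235]]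
def aTh : P := [[100000220, 1, 33333344, 28, -16, -1], [1073, -48, -757, -2032, 1138, 80], [24978676, 550, 16675296, 23155, -11759, -1505], [168927, -2254, -34900, -94053, 37063, 11344], [-3736966, 3875, 1101042, 176203, -440393, 104101], [1062898, -3010, -34808, -118623, -55130, 62698]]
def asSh : P := [[118472225, 168520, 33720464, -118476], [683, 2558, -4760, 1378], [29737522, -354502, 15677979, 288803], [163735, 147262, -240788, 64320], [-4362807, -312595, 1273313, -317484], [1156662, 362525, -409712, 75755]]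

/-- `N w √(1 + ξ²/2 + m y²/3)` for `ξ = 9/10` -/
noncomputable def S9 (x y : ℝ) : ℝ := Nf y * wf x * √(1 + (9 / 10) ^ 2 / 2 + mf x * y ^ 2 / 3)
/-- `N w √(1 + m y²/3)` -/
noncomputable def T9 (x y : ℝ) : ℝ := Nf y * wf x * √(1 + mf x * y ^ 2 / 3)

private theorem ACA_q3 (x y : ℝ) : ev x y [[3, 0, 1]] = 3 + y ^ 2 := by
  simp only [ev, evL]; push_cast; ring

private theorem ACA_q2 (x y : ℝ) : ev x y [[2], [], [1]] = 2 + x ^ 2 := by
  simp only [ev, evL]; push_cast; ring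

private theorem ACA_y2 (x y : ℝ) : ev x y [[0, 0, 1]] = y ^ 2 := by
  simp only [ev, evL]; push_cast; ring

private theorem ACA_c (x y : ℝ) (c : Int) : ev x y [[c]] = c := by
  simp only [ev, evL]; ring

private theorem ACA_Nsq (y : ℝ) : Nf y ^ 2 = 1 + y ^ 2 / 3 := Real.sq_sqrt (by positivity)

private theorem ACA_wsq (x : ℝ) : wf x ^ 2 = 1 + x ^ 2 / 2 := by
  unfold wf mf
  exact Real.sq_sqrt (by positivity)

private theorem ACA_N0 (y : ℝ) : 0 ≤ Nf y := Real.sqrt_nonneg _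

private theorem ACA_w0 (x : ℝ) : 0 ≤ wf x := Real.sqrt_nonneg _

/-- positivity on the unit square -/
private theorem ACA_sq {p : P} {nx ny : Nat} (h : posG p nx ny 0 1 1 0 1 1 = true) (hnx : 0 < nx) (hny : 0 < ny)
    {x y : ℝ} (hx : 0 ≤ x) (hx1 : x ≤ 1) (hy : 0 ≤ y) (hy1 : y ≤ 1) : 0 ≤ ev x y p :=
  posG_sound p nx ny 0 1 1 0 1 1 h hnx hny one_pos one_pos x y (by simpa using hx) (by simpa using hx1)
    (by simpa using hy) (by simpa using hy1)

/-- positivity on the sliver rectangle -/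
private theorem ACA_sl {p : P} {nx ny : Nat} (h : posG p nx ny 0 1 1 31 38 31 = true) (hnx : 0 < nx) (hny : 0 < ny)
    {x y : ℝ} (hx : 0 ≤ x) (hx1 : x ≤ 1) (hy : 1 ≤ y) (hy1 : y ≤ 38 / 31) : 0 ≤ ev x y p :=
  posG_sound p nx ny 0 1 1 31 38 31 h hnx hny one_pos (by norm_num) x y (by simpa using hx) (by simpa using hx1)
    (by push_cast; linarith) (by push_cast; linarith)

private theorem ACA_up {a b : ℝ} (h : a ^ 2 ≤ b ^ 2) (hb : 0 ≤ b) : a ≤ b :=
  (le_abs_self a).trans (abs_le_of_sq_le_sq h hb)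

private theorem ACA_k1 : posG (pAdd (pSm 3 (pMul aNh aNh)) (pSm (-10000000000000000) [[3, 0, 1]])) 1 2 0 1 1 0 1 1 = true := by
  decide +kernel
private theorem ACA_k1p : posG aNh 1 1 0 1 1 0 1 1 = true := by
  decide +kernel
private theorem ACA_k2 : posG (pAdd (pSm 10000000000000000 [[3, 0, 1]]) (pSm (-3) (pMul aNl aNl))) 1 5 0 1 1 0 1 1 = true := by
  decide +kernel
private theorem ACA_k3 : posG (pAdd (pSm 2 (pMul awh awh)) (pSm (-10000000000000000) [[2], [], [1]])) 6 1 0 1 1 0 1 1 = true := by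
  decide +kernel
private theorem ACA_k3p : posG awh 1 1 0 1 1 0 1 1 = true := by
  decide +kernel
private theorem ACA_k4 : posG (pAdd (pSm 10000000000000000 [[2], [], [1]]) (pSm (-2) (pMul awl awl))) 3 1 0 1 1 0 1 1 = true := by
  decide +kernel
private theorem ACA_k5 : posG (pAdd (pSm 3 (pMul asNh asNh)) (pSm (-10000000000000000) [[3, 0, 1]])) 1 2 0 1 1 31 38 31 = true := by
  decide +kernel
private theorem ACA_k5p : posG asNh 1 1 0 1 1 31 38 31 = true := by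
  decide +kernel
private theorem ACA_k6 : posG (pAdd (pSm 10000000000000000 [[3, 0, 1]]) (pSm (-3) (pMul asNl asNl))) 1 2 0 1 1 31 38 31 = true := by
  decide +kernel

/-- `(3 + y²)(2 + x²)(c + e (2 + x²) y²)` -/
private def ACA_R (c e : Int) : P :=
  pMul [[3, 0, 1]] (pMul [[2], [], [1]] (pAdd [[c]] (pSm e (pMul [[2], [], [1]] [[0, 0, 1]]))))

private theorem ACA_Rev (x y : ℝ) (c e : Int) :
    ev x y (ACA_R c e) = (3 + y ^ 2) * ((2 + x ^ 2) * (c + e * ((2 + x ^ 2) * y ^ 2))) := by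
  unfold ACA_R
  rw [ev_pMul, ev_pMul, ev_pAdd, ev_pSm, ev_pMul, ACA_q3, ACA_q2, ACA_y2, ACA_c]

private theorem ACA_k7 : posG (pAdd (pSm 36000 (pMul aSh aSh)) (pSm (-10000000000000000) (ACA_R 8430 1000))) 3 3 0 1 1 0 1 1 = true := by
  decide +kernel
private theorem ACA_k7p : posG aSh 1 1 0 1 1 0 1 1 = true := by
  decide +kernel
private theorem ACA_k8 : posG (pAdd (pSm 36 (pMul aTh aTh)) (pSm (-10000000000000000) (ACA_R 6 1))) 3 3 0 1 1 0 1 1 = true := by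
  decide +kernel
private theorem ACA_k8p : posG aTh 1 1 0 1 1 0 1 1 = true := by
  decide +kernel
private theorem ACA_k9 : posG (pAdd (pSm 36000 (pMul asSh asSh)) (pSm (-10000000000000000) (ACA_R 8430 1000))) 3 3 0 1 1 31 38 31 = true := by
  decide +kernel
private theorem ACA_k9p : posG asSh 1 1 0 1 1 31 38 31 = true := by
  decide +kernel

private theorem ACA_S9 (x y : ℝ) :
    S9 x y ^ 2 = (3 + y ^ 2) * ((2 + x ^ 2) * (8430 + 1000 * ((2 + x ^ 2) * y ^ 2))) / 36000 := by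
  unfold S9
  rw [mul_pow, mul_pow, ACA_Nsq, ACA_wsq, Real.sq_sqrt (by unfold mf; positivity)]
  unfold mf
  ring

private theorem ACA_T9 (x y : ℝ) :
    T9 x y ^ 2 = (3 + y ^ 2) * ((2 + x ^ 2) * (6 + 1 * ((2 + x ^ 2) * y ^ 2))) / 36 := by
  unfold T9
  rw [mul_pow, mul_pow, ACA_Nsq, ACA_wsq, Real.sq_sqrt (by unfold mf; positivity)]
  unfold mf
  ring

theorem aN_le (x y : ℝ) (hy : 0 ≤ y) (hy1 : y ≤ 1) : 10 ^ 8 * Nf y ≤ ev x y aNh := by
  have e : ev x y aNh = ev 0 y aNh := by simp only [aNh, ev]; ring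
  rw [e]
  have h1 := ACA_sq ACA_k1 (by norm_num) (by norm_num) le_rfl zero_le_one hy hy1
  have h2 := ACA_sq ACA_k1p (by norm_num) (by norm_num) le_rfl zero_le_one hy hy1
  rw [ev_pAdd, ev_pSm, ev_pSm, ev_pMul, ACA_q3] at h1
  push_cast at h1
  refine ACA_up ?_ h2
  rw [mul_pow, ACA_Nsq]
  nlinarith
theorem aN_ge (x y : ℝ) (hy : 0 ≤ y) (hy1 : y ≤ 1) : ev x y aNl ≤ 10 ^ 8 * Nf y := by
  have e : ev x y aNl = ev 0 y aNl := by simp only [aNl, ev]; ring
  rw [e]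
  have h1 := ACA_sq ACA_k2 (by norm_num) (by norm_num) le_rfl zero_le_one hy hy1
  rw [ev_pAdd, ev_pSm, ev_pSm, ev_pMul, ACA_q3] at h1
  push_cast at h1
  refine ACA_up ?_ (mul_nonneg (by norm_num) (ACA_N0 y))
  rw [mul_pow, ACA_Nsq]
  nlinarith
theorem aw_le (x y : ℝ) (hx : 0 ≤ x) (hx1 : x ≤ 1) : 10 ^ 8 * wf x ≤ ev x y awh := by
  have e : ev x y awh = ev x 0 awh := by simp only [awh, ev, evL]; ring
  rw [e]
  have h1 := ACA_sq ACA_k3 (by norm_num) (by norm_num) hx hx1 le_rfl zero_le_one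
  have h2 := ACA_sq ACA_k3p (by norm_num) (by norm_num) hx hx1 le_rfl zero_le_one
  rw [ev_pAdd, ev_pSm, ev_pSm, ev_pMul, ACA_q2] at h1
  push_cast at h1
  refine ACA_up ?_ h2
  rw [mul_pow, ACA_wsq]
  nlinarith
theorem aw_ge (x y : ℝ) (hx : 0 ≤ x) (hx1 : x ≤ 1) : ev x y awl ≤ 10 ^ 8 * wf x := by
  have e : ev x y awl = ev x 0 awl := by simp only [awl, ev, evL]; ring
  rw [e]
  have h1 := ACA_sq ACA_k4 (by norm_num) (by norm_num) hx hx1 le_rfl zero_le_one
  rw [ev_pAdd, ev_pSm, ev_pSm, ev_pMul, ACA_q2] at h1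
  push_cast at h1
  refine ACA_up ?_ (mul_nonneg (by norm_num) (ACA_w0 x))
  rw [mul_pow, ACA_wsq]
  nlinarith
theorem asN_le (x y : ℝ) (hy : 1 ≤ y) (hy1 : y ≤ 38 / 31) : 10 ^ 8 * Nf y ≤ ev x y asNh := by
  have e : ev x y asNh = ev 0 y asNh := by simp only [asNh, ev]; ring
  rw [e]
  have h1 := ACA_sl ACA_k5 (by norm_num) (by norm_num) le_rfl zero_le_one hy hy1
  have h2 := ACA_sl ACA_k5p (by norm_num) (by norm_num) le_rfl zero_le_one hy hy1
  rw [ev_pAdd, ev_pSm, ev_pSm, ev_pMul, ACA_q3] at h1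
  push_cast at h1
  refine ACA_up ?_ h2
  rw [mul_pow, ACA_Nsq]
  nlinarith
theorem asN_ge (x y : ℝ) (hy : 1 ≤ y) (hy1 : y ≤ 38 / 31) : ev x y asNl ≤ 10 ^ 8 * Nf y := by
  have e : ev x y asNl = ev 0 y asNl := by simp only [asNl, ev]; ring
  rw [e]
  have h1 := ACA_sl ACA_k6 (by norm_num) (by norm_num) le_rfl zero_le_one hy hy1
  rw [ev_pAdd, ev_pSm, ev_pSm, ev_pMul, ACA_q3] at h1
  push_cast at h1
  refine ACA_up ?_ (mul_nonneg (by norm_num) (ACA_N0 y))
  rw [mul_pow, ACA_Nsq]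
  nlinarith
theorem aS_le (x y : ℝ) (hx : 0 ≤ x) (hx1 : x ≤ 1) (hy : 0 ≤ y) (hy1 : y ≤ 1) : 10 ^ 8 * S9 x y ≤ ev x y aSh := by
  have h1 := ACA_sq ACA_k7 (by norm_num) (by norm_num) hx hx1 hy hy1
  have h2 := ACA_sq ACA_k7p (by norm_num) (by norm_num) hx hx1 hy hy1
  rw [ev_pAdd, ev_pSm, ev_pSm, ev_pMul, ACA_Rev] at h1
  push_cast at h1
  refine ACA_up ?_ h2
  rw [mul_pow, ACA_S9]
  linarith
theorem aT_le (x y : ℝ) (hx : 0 ≤ x) (hx1 : x ≤ 1) (hy : 0 ≤ y) (hy1 : y ≤ 1) : 10 ^ 8 * T9 x y ≤ ev x y aTh := by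
  have h1 := ACA_sq ACA_k8 (by norm_num) (by norm_num) hx hx1 hy hy1
  have h2 := ACA_sq ACA_k8p (by norm_num) (by norm_num) hx hx1 hy hy1
  rw [ev_pAdd, ev_pSm, ev_pSm, ev_pMul, ACA_Rev] at h1
  push_cast at h1
  refine ACA_up ?_ h2
  rw [mul_pow, ACA_T9]
  linarith
theorem asS_le (x y : ℝ) (hx : 0 ≤ x) (hx1 : x ≤ 1) (hy : 1 ≤ y) (hy1 : y ≤ 38 / 31) :
    10 ^ 8 * S9 x y ≤ ev x y asSh := by
  have h1 := ACA_sl ACA_k9 (by norm_num) (by norm_num) hx hx1 hy hy1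
  have h2 := ACA_sl ACA_k9p (by norm_num) (by norm_num) hx hx1 hy hy1
  rw [ev_pAdd, ev_pSm, ev_pSm, ev_pMul, ACA_Rev] at h1
  push_cast at h1
  refine ACA_up ?_ h2
  rw [mul_pow, ACA_S9]
  linarith

/-- a point of the sliver has `y ≤ 38/31` -/
theorem sl_top (x y : ℝ) (hx : 0 ≤ x) (hy : 1 ≤ y) (hc : (2 + x ^ 2) * y ^ 2 ≤ 3) : y ≤ 38 / 31 := by
  by_contra hcon
  push Not at hcon
  have h1 : (38 / 31 : ℝ) ^ 2 < y ^ 2 := pow_lt_pow_left₀ hcon (by norm_num) (by norm_num)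
  have h2 : 0 ≤ x ^ 2 * y ^ 2 := by positivity
  nlinarith

end Pool.Agent.MCA
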