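import Pool.Agent.MCA.ADf
import Pool.Agent.MSQ.ChkS
/-!
ACH (80 lines). Positivity of a polynomial on a rectangle and on the sliver, by grids of boxes.

PROOF. `posG_sound`: `x` lies in one of the `nx` intervals (`i = ⌊nx (qa x - a0)/(a1 - a0)⌋`, or `nx - 1` at the right
end; induction on the number of intervals also works), same for `y`; `chkM_sound` with `n = 1`, `s = [1]`.
`posSl_sound`: `x` lies in a column `i/7 ≤ x ≤ (i+1)/7`, and `y ≤ a/b` for the `i`-th entry `(a, b)` of `slT`, since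
`(2 + x²) y² ≤ 3 ≤ (2 + (i/7)²) (a/b)²` (checked: `3 (7 b)² ≤ (98 + i²) a²`).
-/
set_option autoImplicit false

namespace Pool.Agent.MCA
open Pool.Agent.MSQ Pool.Agent.MTR

/-- positivity on `[a0/qa, a1/qa] × [b0/qb, b1/qb]` by `nx × ny` boxes -/
def posG (p : P) (nx ny : Nat) (a0 a1 qa b0 b1 qb : Int) : Bool :=
  (List.range nx).all fun i => (List.range ny).all fun j =>
    chkM 1 [p] (a0 * nx + (a1 - a0) * i) (a0 * nx + (a1 - a0) * (i + 1)) (qa * nx)
      (b0 * ny + (b1 - b0) * j) (b0 * ny + (b1 - b0) * (j + 1)) (qb * ny)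

private theorem ACH_grid (a c t : ℝ) (m : ℕ) (hm : 0 < m) (h0 : a ≤ t) (h1 : t ≤ a + c * m) :
    ∃ i : ℕ, i < m ∧ a + c * i ≤ t ∧ t ≤ a + c * (i + 1) := by
  induction m with
  | zero => exact absurd hm (lt_irrefl 0)
  | succ m ih =>
    by_cases h : t ≤ a + c * m
    · rcases Nat.eq_zero_or_pos m with rfl | hm'
      · refine ⟨0, Nat.one_pos, ?_, ?_⟩
        · simpa using h0
        · simpa using h1
      · obtain ⟨i, hi, h2, h3⟩ := ih hm' h
        exact ⟨i, Nat.lt_succ_of_lt hi, h2, h3⟩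
    · refine ⟨m, Nat.lt_succ_self m, (not_le.1 h).le, ?_⟩
      push_cast at h1
      exact h1

theorem posG_sound (p : P) (nx ny : Nat) (a0 a1 qa b0 b1 qb : Int) (h : posG p nx ny a0 a1 qa b0 b1 qb = true)
    (hnx : 0 < nx) (hny : 0 < ny) (hqa : 0 < qa) (hqb : 0 < qb) (x y : ℝ) (hx0 : (a0 : ℝ) ≤ qa * x)
    (hx1 : (qa : ℝ) * x ≤ a1) (hy0 : (b0 : ℝ) ≤ qb * y) (hy1 : (qb : ℝ) * y ≤ b1) : 0 ≤ ev x y p := by
  have hnx' : (0 : ℝ) < nx := by exact_mod_cast hnx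
  have hny' : (0 : ℝ) < ny := by exact_mod_cast hny
  obtain ⟨i, hi, hi1, hi2⟩ := ACH_grid ((a0 : ℝ) * nx) ((a1 : ℝ) - a0) (qa * nx * x) nx hnx
    (by nlinarith) (by nlinarith)
  obtain ⟨j, hj, hj1, hj2⟩ := ACH_grid ((b0 : ℝ) * ny) ((b1 : ℝ) - b0) (qb * ny * y) ny hny
    (by nlinarith) (by nlinarith)
  unfold posG at h
  rw [List.all_eq_true] at h
  have h1 := h i (List.mem_range.2 hi)
  rw [List.all_eq_true] at h1
  have h2 := h1 j (List.mem_range.2 hj)
  have h3 := chkM_sound 1 [p] _ _ _ _ _ _ h2 x y (by push_cast; linarith) (by push_cast; linarith)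
    (by push_cast; linarith) (by push_cast; linarith) [1] rfl
  simpa [qf, evE, dotL] using h3

/-- tops of the seven columns of the sliver -/
def slT : List (Int × Int) := [(38, 31), (11, 9), (23, 19), (27, 23), (33, 29), (23, 21), (22, 21)]

/-- positivity on the sliver, `nx × ny` boxes per column -/
def posSl (p : P) (nx ny : Nat) : Bool :=
  (List.range 7).all fun i => posG p nx ny i (i + 1) 7 (slT.getD i (1, 1)).2 (slT.getD i (1, 1)).1 (slT.getD i (1, 1)).2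

theorem posSl_sound (p : P) (nx ny : Nat) (h : posSl p nx ny = true) (hnx : 0 < nx) (hny : 0 < ny) (x y : ℝ)
    (hx : 0 ≤ x) (hx1 : x ≤ 1) (hy : 1 ≤ y) (hc : (2 + x ^ 2) * y ^ 2 ≤ 3) : 0 ≤ ev x y p := by
  obtain ⟨i, hi, hi1, hi2⟩ := ACH_grid 0 1 (7 * x) 7 (by norm_num) (by linarith) (by push_cast; linarith)
  unfold posSl at h
  rw [List.all_eq_true] at h
  have h1 := h i (List.mem_range.2 hi)
  have hb : 0 < (slT.getD i (1, 1)).2 := by
    have h2 : ∀ k < 7, 0 < (slT.getD k (1, 1)).2 := by decide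
    exact h2 i hi
  have ha : 0 < (slT.getD i (1, 1)).1 := by
    have h2 : ∀ k < 7, 0 < (slT.getD k (1, 1)).1 := by decide
    exact h2 i hi
  have hab : 147 * (slT.getD i (1, 1)).2 ^ 2 ≤ (98 + (i : ℤ) ^ 2) * (slT.getD i (1, 1)).1 ^ 2 := by
    have h2 : ∀ k < 7, 147 * (slT.getD k (1, 1)).2 ^ 2 ≤ (98 + (k : ℤ) ^ 2) * (slT.getD k (1, 1)).1 ^ 2 := by
      decide
    exact h2 i hi
  generalize (slT.getD i (1, 1)).2 = b at h1 hb hab
  generalize (slT.getD i (1, 1)).1 = a at h1 ha hab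
  have hb' : (0 : ℝ) < b := by exact_mod_cast hb
  have ha' : (0 : ℝ) < a := by exact_mod_cast ha
  have hab' : (147 : ℝ) * (b : ℝ) ^ 2 ≤ (98 + (i : ℝ) ^ 2) * (a : ℝ) ^ 2 := by exact_mod_cast hab
  have hi0 : (0 : ℝ) ≤ i := Nat.cast_nonneg i
  have hix : (i : ℝ) ≤ 7 * x := by linarith
  have h5 : (98 + (i : ℝ) ^ 2) * y ^ 2 ≤ 147 := by
    have h6 : (i : ℝ) ^ 2 ≤ 49 * x ^ 2 := by nlinarith
    nlinarith [mul_le_mul_of_nonneg_right h6 (sq_nonneg y)]
  have h7 : (b : ℝ) * y ≤ a := by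
    by_contra hcon
    push Not at hcon
    have h8 : (a : ℝ) ^ 2 < ((b : ℝ) * y) ^ 2 := by
      apply pow_lt_pow_left₀ hcon ha'.le (by norm_num)
    have h9 : (0 : ℝ) < 98 + (i : ℝ) ^ 2 := by positivity
    have h10 := mul_lt_mul_of_pos_left h8 h9
    have h11 := mul_le_mul_of_nonneg_right h5 (sq_nonneg (b : ℝ))
    nlinarith
  refine posG_sound p nx ny i (i + 1) 7 b a b h1 hnx hny (by norm_num) hb x y ?_ ?_ ?_ h7
  · push_cast
    exact hix
  · push_cast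
    linarith
  · nlinarith

end Pool.Agent.MCA
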