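import Pool.Agent.MCA.VCO5
/-!
VCO: the linear inequalities at a point of the core, with exact constants. The parts are
VCO2 (`V_mu`, `V_MH`, `V_ML`, loads), VCO3 (`V_br`, `kbr`), VCO4 (`V_Bp`, `V_Bm`, `kB`, `kBm`),
VCO5 (`V_ap`, `V_am`).
-/
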