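import Pool.Agent.MCA.ACA
import Pool.Agent.MCA.VCO
/-!
ACN (250 lines, may be split). The constants of cell A in the core (`DL = 4782969`, `b = 3/1000`).

PROOF. Multiply by `N³ = N² N`, `N² = (3+y²)/3`, `m = w² = (2+x²)/2`; with `W = w N`:
`N³ kB = N² (S9 - (29/20) cc W - m N² + s3 N (1 + 9x/20) - x (9/10 - x)/2)`,
`N³ kBm = N² (S9 - (29/20) cc W - m N² + s3 N (1 - 9x/20) + x (9/10 + x)/2)`,
`N³ kbr = N² (T9 - (1+cc)/2 W - m N² + x²/2 + N (s3 + m y ((√3-1-cc)/2 + b cc)))`  (note `-s3 + (√3-1-cc)/2 = -(1+cc)/2`),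
`m N³ cc (1+x)/w = N² cc (1+x) W`, `m N³ (cc/w + y/√3) = N² (cc W + m y N √3/3)`.
Bounds: `W ≤ awh aNh/10^16`, `W ≥ awl aNl/10^16`, `N ≤ aNh/10^8`, `S9 ≤ aSh/10^8`, `T9 ≤ aTh/10^8`,
`70710678/10^8 ≤ cc ≤ 70710679/10^8`, `173205080/10^8 ≤ √3 ≤ 173205081/10^8`; insert (all coefficients have a constant sign)
and check the final integer polynomial with `posG` on `[0,1]²`; the grids `nx ny` that suffice: Bp [2 2], Bm [4 4], br [2 2],
oa [1 1], oc [2 2] (multiplied by `m`, `m > 0`), C2 [1 2], Thi: `Thi² ≥ DL² (3+y²)` [1 3], `(Thi-5)² ≤ DL² (3+y²)` [1 2],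
`Thi - 5 ≥ 0` [1 1]. C1r: `N² - s3 N³ = N² (1-y)(1+y)/(4 (1 + s3 N))` (as `(s3 N)² = (3+y²)/4`), so it suffices that
`4 (1 + s3 N) C1r ≥ DL N² (1+y)`: `C1r ≥ 0` [1 1], `N ≥ aNl/10^8`, [1 1].
Write the integer polynomials with `pAdd, pSm, pMul` (no literals) so that `ev` of the check is the inequality by the
`ev_` lemmas and `linarith`/`nlinarith` is not needed for large expressions. All these checks were run in exact arithmetic.
-/
set_option autoImplicit false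

namespace Pool.Agent.MCA
open Pool.Agent.MSQ Pool.Agent.MTR

/-! constants -/
private theorem acn_s3 : (173205080 / 10 ^ 8 : ℝ) ≤ √3 ∧ √3 ≤ 173205081 / 10 ^ 8 := by
  constructor
  · exact Real.le_sqrt_of_sq_le (by norm_num)
  · rw [Real.sqrt_le_left (by norm_num)]
    norm_num
private theorem acn_cc : (70710678 / 10 ^ 8 : ℝ) ≤ cc ∧ cc ≤ 70710679 / 10 ^ 8 := by
  have h0 : 0 < cc := by unfold cc; positivity
  have h2 : cc ^ 2 = 1 / 2 := by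
    unfold cc
    rw [div_pow, Real.sq_sqrt (by norm_num), one_pow]
  constructor
  · rw [← pow_le_pow_iff_left₀ (by norm_num) h0.le two_ne_zero, h2]
    norm_num
  · rw [← pow_le_pow_iff_left₀ h0.le (by norm_num) two_ne_zero, h2]
    norm_num
private theorem acn_N0 (y : ℝ) : 0 < Nf y := Real.sqrt_pos.mpr (by positivity)
private theorem acn_N2 (y : ℝ) : Nf y ^ 2 = (3 + y ^ 2) / 3 := by
  unfold Nf
  rw [Real.sq_sqrt (by positivity)]
  ring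
private theorem acn_m0 (x : ℝ) : 0 < mf x := by unfold mf; positivity
private theorem acn_w0 (x : ℝ) : 0 < wf x := Real.sqrt_pos.mpr (acn_m0 x)
private theorem acn_w2 (x : ℝ) : wf x ^ 2 = mf x := Real.sq_sqrt (acn_m0 x).le
private theorem acn_m (x : ℝ) : mf x = (2 + x ^ 2) / 2 := by unfold mf; ring

private theorem acn_pos (p : P) (nx ny : Nat) (h : posG p nx ny 0 1 1 0 1 1 = true) (hnx : 0 < nx) (hny : 0 < ny)
    (x y : ℝ) (hx : 0 ≤ x) (hx1 : x ≤ 1) (hy : 0 ≤ y) (hy1 : y ≤ 1) : 0 ≤ ev x y p :=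
  posG_sound p nx ny 0 1 1 0 1 1 h hnx hny one_pos one_pos x y (by simpa using hx) (by simpa using hx1)
    (by simpa using hy) (by simpa using hy1)

private theorem acn_Nl (x y : ℝ) (hx : 0 ≤ x) (hx1 : x ≤ 1) (hy : 0 ≤ y) (hy1 : y ≤ 1) : 0 ≤ ev x y aNl :=
  acn_pos aNl 1 1 (by decide +kernel) one_pos one_pos x y hx hx1 hy hy1
private theorem acn_wl (x y : ℝ) (hx : 0 ≤ x) (hx1 : x ≤ 1) (hy : 0 ≤ y) (hy1 : y ≤ 1) : 0 ≤ ev x y awl :=
  acn_pos awl 1 1 (by decide +kernel) one_pos one_pos x y hx hx1 hy hy1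

/-- `10^16 W` between the products -/
private theorem acn_W (x y : ℝ) (hx : 0 ≤ x) (hx1 : x ≤ 1) (hy : 0 ≤ y) (hy1 : y ≤ 1) :
    ev x y awl * ev x y aNl ≤ 10 ^ 16 * (wf x * Nf y) ∧ 10 ^ 16 * (wf x * Nf y) ≤ ev x y awh * ev x y aNh := by
  have a1 := aw_ge x y hx hx1
  have a2 := aw_le x y hx hx1
  have b1 := aN_ge x y hy hy1
  have b2 := aN_le x y hy hy1
  have c1 := acn_Nl x y hx hx1 hy hy1
  have c2 := acn_wl x y hx hx1 hy hy1
  have d1 := acn_w0 x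
  have d2 := acn_N0 y
  have e1 : (10 : ℝ) ^ 16 * (wf x * Nf y) = (10 ^ 8 * wf x) * (10 ^ 8 * Nf y) := by ring
  rw [e1]
  constructor
  · exact mul_le_mul a1 b1 c1 (by positivity)
  · exact mul_le_mul a2 b2 (by positivity) (le_trans (by positivity) a2)

private theorem acn_ind (x y : ℝ) (r : List Int) : ev x y [r] = ev 0 y [r] := by
  simp [ev]

/-! check polynomials -/
private def qBp : P := pAdd (pSm (60 * 10 ^ 24) aBp) (pSm (-1594323) (N3 (pAdd (pSm (60 * 10 ^ 16) aSh)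
  (pAdd (pSm (-(87 * 70710678)) (pMul awl aNl)) (pAdd (pSm (-(10 ^ 25)) (M2 (N3 (cP 1))))
    (pAdd (pSm (15 * 10 ^ 7 * 173205081) (pMul (pAdd (cP 20) (pX (cP 9))) aNh))
      (pSm (-(3 * 10 ^ 24)) (pX (pAdd (cP 9) (pX (cP (-10)))))))))))) 
private def qBm : P := pAdd (pSm (60 * 10 ^ 24) aBm) (pSm (-1594323) (N3 (pAdd (pSm (60 * 10 ^ 16) aSh)
  (pAdd (pSm (-(87 * 70710678)) (pMul awl aNl)) (pAdd (pSm (-(10 ^ 25)) (M2 (N3 (cP 1))))
    (pAdd (pSm (15 * 10 ^ 7 * 173205081) (pMul (pAdd (cP 20) (pX (cP (-9)))) aNh))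
      (pSm (3 * 10 ^ 24) (pX (pAdd (cP 9) (pX (cP 10)))))))))))
private def qbr : P := pAdd (pSm (6 * 10 ^ 24) abr) (pSm (-1594323) (N3 (pAdd (pSm (6 * 10 ^ 16) aTh)
  (pAdd (pSm (-(3 * 170710678)) (pMul awl aNl)) (pAdd (pSm (-(10 ^ 24)) (M2 (N3 (cP 1))))
    (pAdd (pSm (3 * 10 ^ 24) (pX (pX (cP 1)))) (pAdd (pSm (3 * 10 ^ 8 * 173205081) aNh)
      (pSm (3 * 10 ^ 5 * 1459333534) (M2 (pY aNh))))))))))
private def qoa : P := pAdd (pSm (10 ^ 27) (M2 aoa)) (pSm (-(6 * 1594323 * 70710679))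
  (N3 (pMul (pAdd (cP 1) (pX (cP 1))) (pMul awh aNh))))
private def qoc : P := pAdd (pSm (10 ^ 27) (M2 aoc)) (pSm (-1594323)
  (N3 (pAdd (pSm (6 * 70710679) (pMul awh aNh)) (pSm (3 * 10 ^ 8 * 57735027) (M2 (pY aNh))))))
private def qC1 : P := pAdd (pMul (pAdd (cP (4 * 10 ^ 16)) (pSm (2 * 173205080) aNl)) aC1r)
  (pSm (-(10 ^ 16 * 1594323)) (N3 (pAdd (cP 1) (pY (cP 1)))))
private def qC2 : P := pAdd (pSm (2 * 10 ^ 16) aC2) (pSm (-(1594323 * 173205081)) (N3 aNh))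
private def qT1 : P := pAdd (pMul aThi aThi) (pSm (-(4782969 ^ 2)) (N3 (cP 1)))
private def qT2 : P := pAdd (pSm (4782969 ^ 2) (N3 (cP 1)))
  (pSm (-1) (pMul (pAdd aThi (cP (-5))) (pAdd aThi (cP (-5)))))

theorem aBp_ok (x y : ℝ) (hx : 0 ≤ x) (hx1 : x ≤ 1) (hy : 0 ≤ y) (hy1 : y ≤ 1) :
    4782969 * Nf y ^ 3 * kB x y (9 / 10) ≤ ev x y aBp := by
  have hc := acn_pos qBp 2 2 (by decide +kernel) two_pos two_pos x y hx hx1 hy hy1
  unfold qBp at hc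
  simp only [ev_pAdd, ev_pSm, ev_pMul, ev_N3, ev_M2, ev_cP, ev_pX] at hc
  push_cast at hc
  obtain ⟨W1, W2⟩ := acn_W x y hx hx1 hy hy1
  obtain ⟨c1, c2⟩ := acn_cc
  obtain ⟨r1, r2⟩ := acn_s3
  have hN0 := acn_N0 y
  have hw0 := acn_w0 x
  have hN2 := acn_N2 y
  have hm := acn_m x
  have hS := aS_le x y hx hx1 hy hy1
  have hN := aN_le x y hy hy1
  have e1 : Nf y ^ 3 * kB x y (9 / 10) = Nf y ^ 2 * (S9 x y - 29 / 20 * cc * (wf x * Nf y) - mf x * Nf y ^ 2 +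
      s3 * Nf y * (1 + 9 * x / 20) - x * (9 / 10 - x) / 2) := by
    unfold kB S9 mf
    field_simp
    ring
  have h1 : ev x y awl * ev x y aNl * 70710678 ≤ 10 ^ 24 * (cc * (wf x * Nf y)) := by
    have h2 : (0 : ℝ) ≤ 10 ^ 16 * (wf x * Nf y) := by positivity
    have h3 := mul_le_mul W1 c1 (by norm_num) h2
    linarith
  have h2 : 2 * 10 ^ 16 * (s3 * Nf y) ≤ 173205081 * ev x y aNh := by
    unfold s3
    have h3 : (0 : ℝ) ≤ 10 ^ 8 * Nf y := by positivity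
    have h4 := mul_le_mul hN r2 (by positivity) (h3.trans hN)
    linarith
  have h3 := mul_le_mul_of_nonneg_right h2 (show (0 : ℝ) ≤ 20 + 9 * x by positivity)
  have h4 : 60 * 10 ^ 24 * (S9 x y - 29 / 20 * cc * (wf x * Nf y) - mf x * Nf y ^ 2 +
      s3 * Nf y * (1 + 9 * x / 20) - x * (9 / 10 - x) / 2) ≤
      60 * 10 ^ 16 * ev x y aSh + (-(87 * 70710678) * (ev x y awl * ev x y aNl) + (-(10 ^ 25) * ((2 + x ^ 2) * ((3 + y ^ 2) * 1)) +
      (15 * 10 ^ 7 * 173205081 * ((20 + x * 9) * ev x y aNh) + -(3 * 10 ^ 24) * (x * (9 + x * -10))))) := by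
    rw [hm, hN2]
    linarith
  have h5 := mul_le_mul_of_nonneg_left h4 (show (0 : ℝ) ≤ 1594323 * (3 + y ^ 2) by positivity)
  have e2 : 4782969 * Nf y ^ 3 * kB x y (9 / 10) = 4782969 * (Nf y ^ 3 * kB x y (9 / 10)) := by ring
  rw [e2, e1, hN2]
  rw [hN2] at h5
  linarith
theorem aBm_ok (x y : ℝ) (hx : 0 ≤ x) (hx1 : x ≤ 1) (hy : 0 ≤ y) (hy1 : y ≤ 1) :
    4782969 * Nf y ^ 3 * kBm x y (9 / 10) ≤ ev x y aBm := by
  have hc := acn_pos qBm 4 4 (by decide +kernel) four_pos four_pos x y hx hx1 hy hy1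
  unfold qBm at hc
  simp only [ev_pAdd, ev_pSm, ev_pMul, ev_N3, ev_M2, ev_cP, ev_pX] at hc
  push_cast at hc
  obtain ⟨W1, W2⟩ := acn_W x y hx hx1 hy hy1
  obtain ⟨c1, c2⟩ := acn_cc
  obtain ⟨r1, r2⟩ := acn_s3
  have hN0 := acn_N0 y
  have hw0 := acn_w0 x
  have hN2 := acn_N2 y
  have hm := acn_m x
  have hS := aS_le x y hx hx1 hy hy1
  have hN := aN_le x y hy hy1
  have e1 : Nf y ^ 3 * kBm x y (9 / 10) = Nf y ^ 2 * (S9 x y - 29 / 20 * cc * (wf x * Nf y) - mf x * Nf y ^ 2 +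
      s3 * Nf y * (1 - 9 * x / 20) + x * (9 / 10 + x) / 2) := by
    unfold kBm S9 mf
    field_simp
    ring
  have h1 : ev x y awl * ev x y aNl * 70710678 ≤ 10 ^ 24 * (cc * (wf x * Nf y)) := by
    have h2 : (0 : ℝ) ≤ 10 ^ 16 * (wf x * Nf y) := by positivity
    have h3 := mul_le_mul W1 c1 (by norm_num) h2
    linarith
  have h2 : 2 * 10 ^ 16 * (s3 * Nf y) ≤ 173205081 * ev x y aNh := by
    unfold s3
    have h3 : (0 : ℝ) ≤ 10 ^ 8 * Nf y := by positivity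
    have h4 := mul_le_mul hN r2 (by positivity) (h3.trans hN)
    linarith
  have h3 := mul_le_mul_of_nonneg_right h2 (show (0 : ℝ) ≤ 20 - 9 * x by linarith)
  have h4 : 60 * 10 ^ 24 * (S9 x y - 29 / 20 * cc * (wf x * Nf y) - mf x * Nf y ^ 2 +
      s3 * Nf y * (1 - 9 * x / 20) + x * (9 / 10 + x) / 2) ≤
      60 * 10 ^ 16 * ev x y aSh + (-(87 * 70710678) * (ev x y awl * ev x y aNl) + (-(10 ^ 25) * ((2 + x ^ 2) * ((3 + y ^ 2) * 1)) +
      (15 * 10 ^ 7 * 173205081 * ((20 + x * -9) * ev x y aNh) + 3 * 10 ^ 24 * (x * (9 + x * 10))))) := by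
    rw [hm, hN2]
    linarith
  have h5 := mul_le_mul_of_nonneg_left h4 (show (0 : ℝ) ≤ 1594323 * (3 + y ^ 2) by positivity)
  have e2 : 4782969 * Nf y ^ 3 * kBm x y (9 / 10) = 4782969 * (Nf y ^ 3 * kBm x y (9 / 10)) := by ring
  rw [e2, e1, hN2]
  rw [hN2] at h5
  linarith
theorem abr_ok (x y : ℝ) (hx : 0 ≤ x) (hx1 : x ≤ 1) (hy : 0 ≤ y) (hy1 : y ≤ 1) :
    4782969 * Nf y ^ 3 * kbr x y (3 / 1000) ≤ ev x y abr := by
  have hc := acn_pos qbr 2 2 (by decide +kernel) two_pos two_pos x y hx hx1 hy hy1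
  unfold qbr at hc
  simp only [ev_pAdd, ev_pSm, ev_pMul, ev_N3, ev_M2, ev_cP, ev_pX, ev_pY] at hc
  push_cast at hc
  obtain ⟨W1, W2⟩ := acn_W x y hx hx1 hy hy1
  obtain ⟨c1, c2⟩ := acn_cc
  obtain ⟨r1, r2⟩ := acn_s3
  have hN0 := acn_N0 y
  have hw0 := acn_w0 x
  have hN2 := acn_N2 y
  have hm := acn_m x
  have hT := aT_le x y hx hx1 hy hy1
  have hN := aN_le x y hy hy1
  have e1 : Nf y ^ 3 * kbr x y (3 / 1000) = Nf y ^ 2 * (T9 x y - (1 + cc) / 2 * (wf x * Nf y) - mf x * Nf y ^ 2 +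
      x ^ 2 / 2 + √3 * Nf y / 2 + mf x * y * (((√3 - 1) / 2 - 497 / 1000 * cc) * Nf y)) := by
    unfold kbr T9 s3
    field_simp
    ring
  have h1 : ev x y awl * ev x y aNl * 170710678 ≤ 10 ^ 24 * ((1 + cc) * (wf x * Nf y)) := by
    have h2 : (0 : ℝ) ≤ 10 ^ 16 * (wf x * Nf y) := by positivity
    have h3 := mul_le_mul W1 (show (170710678 / 10 ^ 8 : ℝ) ≤ 1 + cc by linarith) (by norm_num) h2
    linarith
  have h2 : 10 ^ 16 * (√3 * Nf y) ≤ 173205081 * ev x y aNh := by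
    have h3 : (0 : ℝ) ≤ 10 ^ 8 * Nf y := by positivity
    have h4 := mul_le_mul hN r2 (by positivity) (h3.trans hN)
    linarith
  have h6 : 10 ^ 19 * (((√3 - 1) / 2 - 497 / 1000 * cc) * Nf y) ≤ 1459333534 * ev x y aNh := by
    have h3 : (0 : ℝ) ≤ 10 ^ 8 * Nf y := by positivity
    have h7 : (√3 - 1) / 2 - 497 / 1000 * cc ≤ 1459333534 / 10 ^ 11 := by linarith
    have h8 : 0 ≤ (√3 - 1) / 2 - 497 / 1000 * cc := by linarith
    have h4 := mul_le_mul hN h7 h8 (h3.trans hN)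
    linarith
  have h3 := mul_le_mul_of_nonneg_left h6 (show (0 : ℝ) ≤ (2 + x ^ 2) * y by positivity)
  have h4 : 6 * 10 ^ 24 * (T9 x y - (1 + cc) / 2 * (wf x * Nf y) - mf x * Nf y ^ 2 +
      x ^ 2 / 2 + √3 * Nf y / 2 + mf x * y * (((√3 - 1) / 2 - 497 / 1000 * cc) * Nf y)) ≤
      6 * 10 ^ 16 * ev x y aTh + (-(3 * 170710678) * (ev x y awl * ev x y aNl) + (-(10 ^ 24) * ((2 + x ^ 2) * ((3 + y ^ 2) * 1)) +
      (3 * 10 ^ 24 * (x * (x * 1)) + (3 * 10 ^ 8 * 173205081 * ev x y aNh +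
        3 * 10 ^ 5 * 1459333534 * ((2 + x ^ 2) * (y * ev x y aNh)))))) := by
    rw [hm, hN2]
    linarith
  have h5 := mul_le_mul_of_nonneg_left h4 (show (0 : ℝ) ≤ 1594323 * (3 + y ^ 2) by positivity)
  have e2 : 4782969 * Nf y ^ 3 * kbr x y (3 / 1000) = 4782969 * (Nf y ^ 3 * kbr x y (3 / 1000)) := by ring
  rw [e2, e1, hN2]
  rw [hN2] at h5
  linarith
theorem aoa_ok (x y : ℝ) (hx : 0 ≤ x) (hx1 : x ≤ 1) (hy : 0 ≤ y) (hy1 : y ≤ 1) :
    4782969 * Nf y ^ 3 * (3 / 1000 * cc * (1 + x) / wf x) ≤ ev x y aoa := by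
  have hc := acn_pos qoa 1 1 (by decide +kernel) one_pos one_pos x y hx hx1 hy hy1
  unfold qoa at hc
  simp only [ev_pAdd, ev_pSm, ev_pMul, ev_N3, ev_M2, ev_cP, ev_pX] at hc
  push_cast at hc
  obtain ⟨W1, W2⟩ := acn_W x y hx hx1 hy hy1
  obtain ⟨c1, c2⟩ := acn_cc
  have hN0 := acn_N0 y
  have hw0 := acn_w0 x
  have hN2 := acn_N2 y
  have hm := acn_m x
  have hm0 := acn_m0 x
  have hw2 := acn_w2 x
  have h1 : 10 ^ 24 * (cc * (wf x * Nf y)) ≤ 70710679 * (ev x y awh * ev x y aNh) := by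
    have h2 : (0 : ℝ) ≤ 10 ^ 16 * (wf x * Nf y) := by positivity
    have h3 := mul_le_mul W2 c2 (by linarith) (h2.trans W2)
    linarith
  have e1 : mf x * (4782969 * Nf y ^ 3 * (3 / 1000 * cc * (1 + x) / wf x)) =
      4782969 * 3 / 1000 * Nf y ^ 2 * ((1 + x) * (cc * (wf x * Nf y))) := by
    rw [← hw2]
    field_simp
  have h3 := mul_le_mul_of_nonneg_left h1 (show (0 : ℝ) ≤ 6 * 1594323 * (3 + y ^ 2) * (1 + x) by positivity)
  have h5 : mf x * (4782969 * Nf y ^ 3 * (3 / 1000 * cc * (1 + x) / wf x)) ≤ mf x * ev x y aoa := by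
    rw [e1, hN2, hm]
    linarith
  exact le_of_mul_le_mul_left h5 hm0
theorem aoc_ok (x y : ℝ) (hx : 0 ≤ x) (hx1 : x ≤ 1) (hy : 0 ≤ y) (hy1 : y ≤ 1) :
    4782969 * Nf y ^ 3 * (3 / 1000 * (cc / wf x + y / √3)) ≤ ev x y aoc := by
  have hc := acn_pos qoc 2 2 (by decide +kernel) two_pos two_pos x y hx hx1 hy hy1
  unfold qoc at hc
  simp only [ev_pAdd, ev_pSm, ev_pMul, ev_N3, ev_M2, ev_pY] at hc
  push_cast at hc
  obtain ⟨W1, W2⟩ := acn_W x y hx hx1 hy hy1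
  obtain ⟨c1, c2⟩ := acn_cc
  obtain ⟨r1, r2⟩ := acn_s3
  have hN0 := acn_N0 y
  have hw0 := acn_w0 x
  have hN2 := acn_N2 y
  have hN := aN_le x y hy hy1
  have hm := acn_m x
  have hm0 := acn_m0 x
  have hw2 := acn_w2 x
  have h33 : (√3 : ℝ) ^ 2 = 3 := Real.sq_sqrt (by norm_num)
  have h30 : (0 : ℝ) < √3 := Real.sqrt_pos.mpr (by norm_num)
  have h1 : 10 ^ 24 * (cc * (wf x * Nf y)) ≤ 70710679 * (ev x y awh * ev x y aNh) := by
    have h2 : (0 : ℝ) ≤ 10 ^ 16 * (wf x * Nf y) := by positivity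
    have h3 := mul_le_mul W2 c2 (by linarith) (h2.trans W2)
    linarith
  have h2 : 10 ^ 16 * (√3 * Nf y) ≤ 173205081 * ev x y aNh := by
    have h3 : (0 : ℝ) ≤ 10 ^ 8 * Nf y := by positivity
    have h4 := mul_le_mul hN r2 (by positivity) (h3.trans hN)
    linarith
  have e1 : mf x * (4782969 * Nf y ^ 3 * (3 / 1000 * (cc / wf x + y / √3))) =
      4782969 * 3 / 1000 * Nf y ^ 2 * (cc * (wf x * Nf y) + mf x * y * (√3 * Nf y) / 3) := by
    have h4 : y / √3 = y * √3 / 3 := by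
      rw [div_eq_div_iff h30.ne' (by norm_num)]
      have h5 : y * √3 * √3 = y * √3 ^ 2 := by ring
      rw [h5, h33]
    rw [h4, ← hw2]
    field_simp
  have h3 := mul_le_mul_of_nonneg_left h1 (show (0 : ℝ) ≤ 6 * 1594323 * (3 + y ^ 2) by positivity)
  have h4 := mul_le_mul_of_nonneg_left h2 (show (0 : ℝ) ≤ 10 ^ 8 * 1594323 * (3 + y ^ 2) * ((2 + x ^ 2) * y) by positivity)
  have h5 : mf x * (4782969 * Nf y ^ 3 * (3 / 1000 * (cc / wf x + y / √3))) ≤ mf x * ev x y aoc := by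
    rw [e1, hN2, hm]
    linarith
  exact le_of_mul_le_mul_left h5 hm0
theorem aC1r_ok (x y : ℝ) (hy : 0 ≤ y) (hy1 : y ≤ 1) :
    4782969 * Nf y ^ 3 * (1 / Nf y - s3) ≤ (1 - y) * ev x y aC1r := by
  have hx : ev x y aC1r = ev 0 y aC1r := acn_ind x y _
  rw [hx]
  have hc := acn_pos qC1 1 1 (by decide +kernel) one_pos one_pos 0 y le_rfl zero_le_one hy hy1
  have hp := acn_pos aC1r 1 1 (by decide +kernel) one_pos one_pos 0 y le_rfl zero_le_one hy hy1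
  unfold qC1 at hc
  simp only [ev_pAdd, ev_pSm, ev_pMul, ev_N3, ev_cP, ev_pY] at hc
  push_cast at hc
  obtain ⟨r1, r2⟩ := acn_s3
  have hN0 := acn_N0 y
  have hN2 := acn_N2 y
  have hN := aN_ge 0 y hy hy1
  have hl := acn_Nl 0 y le_rfl zero_le_one hy hy1
  have h33 : (√3 : ℝ) ^ 2 = 3 := Real.sq_sqrt (by norm_num)
  have h30 : (0 : ℝ) < √3 := Real.sqrt_pos.mpr (by norm_num)
  have h1 : 173205080 * ev 0 y aNl ≤ 10 ^ 16 * (√3 * Nf y) := by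
    have h2 : (0 : ℝ) ≤ 10 ^ 8 * Nf y := by positivity
    have h3 := mul_le_mul hN r1 (by norm_num) h2
    linarith
  have h2 := mul_le_mul_of_nonneg_right h1 hp
  have h3 : 1594323 * (3 + y ^ 2) * (1 + y) ≤ 4 * (1 + s3 * Nf y) * ev 0 y aC1r := by
    unfold s3
    linarith
  have hs0 : 0 < 1 + s3 * Nf y := by unfold s3; positivity
  have e1 : 4 * (1 + s3 * Nf y) * (4782969 * Nf y ^ 3 * (1 / Nf y - s3)) =
      (1 - y) * (1594323 * (3 + y ^ 2) * (1 + y)) := by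
    have e2 : 4 * (1 + s3 * Nf y) * (4782969 * Nf y ^ 3 * (1 / Nf y - s3)) =
        4 * 4782969 * Nf y ^ 2 * (1 - s3 ^ 2 * Nf y ^ 2) := by
      field_simp
      ring
    have e3 : s3 ^ 2 = 3 / 4 := by
      unfold s3
      rw [div_pow, h33]
      norm_num
    rw [e2, e3, hN2]
    ring
  have h4 := mul_le_mul_of_nonneg_left h3 (sub_nonneg.2 hy1)
  rw [← e1] at h4
  have h5 : 4 * (1 + s3 * Nf y) * (4782969 * Nf y ^ 3 * (1 / Nf y - s3)) ≤
      4 * (1 + s3 * Nf y) * ((1 - y) * ev 0 y aC1r) := by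
    refine h4.trans (le_of_eq ?_)
    ring
  exact le_of_mul_le_mul_left h5 (by positivity)
theorem aC2_ok (x y : ℝ) (hy : 0 ≤ y) (hy1 : y ≤ 1) : 4782969 * Nf y ^ 3 * s3 ≤ ev x y aC2 := by
  have hx : ev x y aC2 = ev 0 y aC2 := acn_ind x y _
  rw [hx]
  have hc := acn_pos qC2 1 2 (by decide +kernel) one_pos two_pos 0 y le_rfl zero_le_one hy hy1
  unfold qC2 at hc
  simp only [ev_pAdd, ev_pSm, ev_N3] at hc
  push_cast at hc
  obtain ⟨r1, r2⟩ := acn_s3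
  have hN0 := acn_N0 y
  have hN2 := acn_N2 y
  have hN := aN_le 0 y hy hy1
  have h2 : 10 ^ 16 * (√3 * Nf y) ≤ 173205081 * ev 0 y aNh := by
    have h3 : (0 : ℝ) ≤ 10 ^ 8 * Nf y := by positivity
    have h4 := mul_le_mul hN r2 (by positivity) (h3.trans hN)
    linarith
  have h3 := mul_le_mul_of_nonneg_left h2 (show (0 : ℝ) ≤ 1594323 * (3 + y ^ 2) by positivity)
  have e1 : 4782969 * Nf y ^ 3 * s3 = 4782969 * Nf y ^ 2 * (√3 * Nf y) / 2 := by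
    unfold s3
    ring
  rw [e1, hN2]
  linarith
theorem aThi_ok (x y : ℝ) (hy : 0 ≤ y) (hy1 : y ≤ 1) :
    0 ≤ ev x y aThi - 4782969 * (√3 * Nf y) ∧ ev x y aThi - 4782969 * (√3 * Nf y) ≤ 5 := by
  have hx : ev x y aThi = ev 0 y aThi := acn_ind x y _
  rw [hx]
  have h1 := acn_pos qT1 1 3 (by decide +kernel) one_pos three_pos 0 y le_rfl zero_le_one hy hy1
  have h2 := acn_pos qT2 1 2 (by decide +kernel) one_pos two_pos 0 y le_rfl zero_le_one hy hy1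
  have h3 := acn_pos (pAdd aThi (cP (-5))) 1 1 (by decide +kernel) one_pos one_pos 0 y le_rfl zero_le_one hy hy1
  unfold qT1 at h1
  unfold qT2 at h2
  simp only [ev_pAdd, ev_pSm, ev_pMul, ev_N3, ev_cP] at h1 h2 h3
  push_cast at h1 h2 h3
  have hN0 := acn_N0 y
  have hN2 := acn_N2 y
  have h33 : (√3 : ℝ) ^ 2 = 3 := Real.sq_sqrt (by norm_num)
  have h30 : (0 : ℝ) < √3 := Real.sqrt_pos.mpr (by norm_num)
  have e1 : (4782969 * (√3 * Nf y)) ^ 2 = 4782969 ^ 2 * (3 + y ^ 2) := by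
    rw [mul_pow, mul_pow, h33, hN2]
    ring
  have h0 : 0 ≤ 4782969 * (√3 * Nf y) := by positivity
  have h4 : 4782969 * (√3 * Nf y) ≤ ev 0 y aThi := by
    rw [← pow_le_pow_iff_left₀ h0 (by linarith) two_ne_zero, e1]
    linarith
  have h5 : ev 0 y aThi - 5 ≤ 4782969 * (√3 * Nf y) := by
    rw [← pow_le_pow_iff_left₀ (by linarith) h0 two_ne_zero, e1]
    linarith
  constructor <;> linarith

end Pool.Agent.MCA
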