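import Pool.Agent.MCA.VCO2
import Pool.Agent.MSQ.JGood
/-!
VSL (200 lines, may be split). The linear inequalities at a point of the sliver and of the curve, with exact constants.

Point `0 ≤ x ≤ 1 ≤ y`, `(2+x²) y² ≤ 3`; `X = cc x`, `Y = wf x y/√3`, `g(X) ≤ Y ≤ cc`, `A = lf - Y/2 - cc/2 - J.f` (`AS`, `starS`).

PROOF. `A` is convex in `Y` (`A_YY = lYY - J_YY ≥ 0`), `A_Y ≤ 0` (`slY`), `A(X,cc) = -etp`: `V_f1`: `A ≥ A(X,cc)`;
`V_f2`: `A(X,cc) ≥ A + (cc - Y) A_Y`, `(cc - Y)/w·√3 = yt x - y`, and `A_Y ≤ 0`, `yt x ≤ η`.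
`V_sBp`, `V_sBm`: as in VCO (`V_Bp`) with `H* = lf - Y/2 - cc/2`: `H* - lf = -(Y+cc)/2`, `H*_X - lf_X = 0`.
`V_KA`: Hessian of `l - J`; `V_sMH`: Hessian of `J`, `κ_J = 1/N - κ_A`, `μ_J = 1/(3N³) - μ_A`.
Curve (`y = yt x`): `etp` as a function of `X ∈ [-cc, cc]` is `cc - L(X,cc)`, `L = lf - J.f` convex in `X`, `etp(±cc) = 0` (`cor`),
so it is concave and its tangents at `X` are `≥ 0` at `±cc`: `etp + (±cc - X) etp' ≥ 0`. With `A(X,cc) = -etp`, `etp' = -A_X`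
and `p - (x y/2) q = cc (w A_X - cc x A/w)`, i.e. in states (`u = -a`): `V_Tp`, `V_Tm` (multiplied by `w`).
-/
set_option autoImplicit false

open MeasureTheory Set Pool.Agent.MSQ Pool.Agent.MTR Pool.Agent.MGF

namespace Pool.Agent.MCA

noncomputable section

/-- `w` times the constant of form `B` in the sliver -/
def kS (x y ξ : ℝ) : ℝ :=
  wf x * √(1 + ξ ^ 2 / 2 + mf x * y ^ 2 / 3) - (ξ / 2 + 1) * cc * wf x - mf x * y / (2 * √3)

private theorem VS_cc2 : cc ^ 2 = 1 / 2 := by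
  unfold cc
  rw [div_pow, Real.sq_sqrt (by norm_num), one_pow]

private theorem VS_c0 : (0 : ℝ) < cc := by
  unfold cc
  positivity

private theorem VS_s2 : (√3 : ℝ) ^ 2 = 3 := Real.sq_sqrt (by norm_num)

private theorem VS_s0 : (0 : ℝ) < √3 := Real.sqrt_pos.mpr (by norm_num)

private theorem VS_m0 (x : ℝ) : 0 < mf x := by unfold mf; positivity

private theorem VS_w0 (x : ℝ) : 0 < wf x := Real.sqrt_pos.mpr (VS_m0 x)

private theorem VS_w2 (x : ℝ) : wf x ^ 2 = 1 + x ^ 2 / 2 := by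
  unfold wf
  rw [Real.sq_sqrt (VS_m0 x).le, mf]

private theorem VS_mw (x : ℝ) : mf x = wf x ^ 2 := by
  rw [VS_w2, mf]

private theorem VS_N0 (y : ℝ) : 0 < Nf y := Real.sqrt_pos.mpr (by positivity)

private theorem VS_N2 (y : ℝ) : Nf y ^ 2 = 1 + y ^ 2 / 3 := by
  unfold Nf
  rw [Real.sq_sqrt (by positivity)]

private theorem VS_one {f g k : ℝ → ℝ} (h1 : ∀ x, HasDerivAt f (g x) x)
    (h2 : ∀ x, HasDerivAt g (k x) x) (h3 : ∀ x, 0 ≤ k x) :
    ∀ x y, f x + g x * (y - x) ≤ f y := by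
  have hm : Monotone g := monotone_of_deriv_nonneg (fun x => (h2 x).differentiableAt)
    (fun x => by rw [(h2 x).deriv]; exact h3 x)
  have hd : deriv f = g := funext fun x => (h1 x).deriv
  have hc : ConvexOn ℝ Set.univ f :=
    Monotone.convexOn_univ_of_deriv (fun x => (h1 x).differentiableAt) (by rw [hd]; exact hm)
  intro x y
  rcases lt_trichotomy x y with h | h | h
  · have h4 := hc.le_slope_of_hasDerivAt (Set.mem_univ x) (Set.mem_univ y) h (h1 x)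
    rw [slope_def_field, le_div_iff₀ (by linarith)] at h4
    linarith
  · rw [h]
    linarith
  · have h4 := hc.slope_le_of_hasDerivAt (Set.mem_univ y) (Set.mem_univ x) h (h1 x)
    rw [slope_def_field, div_le_iff₀ (by linarith)] at h4
    linarith

private theorem VS_x {G GX GY : ℝ × ℝ → ℝ} (h : D1 G GX GY) (Y x : ℝ) :
    HasDerivAt (fun t => G (t, Y)) (GX (x, Y)) x := by
  have h1 : HasDerivAt (fun t : ℝ => (t, Y)) ((1 : ℝ), (0 : ℝ)) x :=
    (hasDerivAt_id' x).prodMk (hasDerivAt_const x Y)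
  have h2 := (h (x, Y)).comp_hasDerivAt x h1
  refine h2.congr_deriv ?_
  simp

private theorem VS_y {G GX GY : ℝ × ℝ → ℝ} (h : D1 G GX GY) (X y : ℝ) :
    HasDerivAt (fun t => G (X, t)) (GY (X, y)) y := by
  have h1 : HasDerivAt (fun t : ℝ => (X, t)) ((0 : ℝ), (1 : ℝ)) y :=
    (hasDerivAt_const y X).prodMk (hasDerivAt_id' y)
  have h2 := (h (X, y)).comp_hasDerivAt y h1
  refine h2.congr_deriv ?_
  simp

variable {J : Jet} {b : ℝ}

/-- convexity of `L = lf - J.f` in `X` -/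
private theorem VS_LX (h : SqHyp J b) (Y X X' : ℝ) :
    lf (X, Y) - J.f (X, Y) + (lJ.fX (X, Y) - J.fX (X, Y)) * (X' - X) ≤ lf (X', Y) - J.f (X', Y) :=
  VS_one (f := fun t => lf (t, Y) - J.f (t, Y)) (g := fun t => lJ.fX (t, Y) - J.fX (t, Y))
    (k := fun t => lJ.fXX (t, Y) - J.fXX (t, Y))
    (fun t => (VS_x good_lJ.d Y t).sub (VS_x h.good.d Y t))
    (fun t => (VS_x good_lJ.dX Y t).sub (VS_x h.good.dX Y t))
    (fun t => sub_nonneg.mpr (h.lXX (t, Y))) X X'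

/-- convexity of `L = lf - J.f` in `Y` -/
private theorem VS_LY (h : SqHyp J b) (X Y Y' : ℝ) :
    lf (X, Y) - J.f (X, Y) + (lJ.fY (X, Y) - J.fY (X, Y)) * (Y' - Y) ≤ lf (X, Y') - J.f (X, Y') :=
  VS_one (f := fun t => lf (X, t) - J.f (X, t)) (g := fun t => lJ.fY (X, t) - J.fY (X, t))
    (k := fun t => lJ.fYY (X, t) - J.fYY (X, t))
    (fun t => (VS_y good_lJ.d X t).sub (VS_y h.good.d X t))
    (fun t => (VS_y good_lJ.dY X t).sub (VS_y h.good.dY X t))
    (fun t => sub_nonneg.mpr (h.lYY (X, t))) Y Y'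

/-- `L - Y/2` is nonincreasing in `Y` -/
private theorem VS_AY (h : SqHyp J b) (X Y Y' : ℝ) (hY : Y ≤ Y') :
    lf (X, Y') - J.f (X, Y') - Y' / 2 ≤ lf (X, Y) - J.f (X, Y) - Y / 2 := by
  have h1 : Antitone fun t => lf (X, t) - J.f (X, t) - t / 2 := by
    refine antitone_of_hasDerivAt_nonpos (f' := fun t => lJ.fY (X, t) - J.fY (X, t) - 1 / 2) (fun t => ?_) ?_
    · exact ((VS_y good_lJ.d X t).sub (VS_y h.good.d X t)).sub ((hasDerivAt_id' t).div_const 2)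
    · intro t
      have := (abs_le.mp (h.slY (X, t))).2
      simp only [Pi.zero_apply]
      linarith
  exact h1 hY

/-- `J.f - X/2` is nonincreasing in `X` -/
private theorem VS_JX (h : SqHyp J b) (Y X X' : ℝ) (hX : X ≤ X') :
    J.f (X', Y) - X' / 2 ≤ J.f (X, Y) - X / 2 := by
  have h1 : Antitone fun t => J.f (t, Y) - t / 2 := by
    refine antitone_of_hasDerivAt_nonpos (f' := fun t => J.fX (t, Y) - 1 / 2) (fun t => ?_) ?_
    · exact (VS_x h.good.d Y t).sub ((hasDerivAt_id' t).div_const 2)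
    · intro t
      have := (abs_le.mp (h.slX (t, Y))).2
      simp only [Pi.zero_apply]
      linarith
  exact h1 hX

/-- `J.f + X/2` is nondecreasing in `X` -/
private theorem VS_JX' (h : SqHyp J b) (Y X X' : ℝ) (hX : X ≤ X') :
    J.f (X, Y) + X / 2 ≤ J.f (X', Y) + X' / 2 := by
  have h1 : Monotone fun t => J.f (t, Y) + t / 2 := by
    refine monotone_of_hasDerivAt_nonneg (f' := fun t => J.fX (t, Y) + 1 / 2) (fun t => ?_) ?_
    · exact (VS_x h.good.d Y t).add ((hasDerivAt_id' t).div_const 2)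
    · intro t
      have := (abs_le.mp (h.slX (t, Y))).1
      simp only [Pi.zero_apply]
      linarith
  exact h1 hX

private theorem VS_u (x y : ℝ) : (AS J x y).u * wf x =
    lf (cc * x, wf x * y / √3) - J.f (cc * x, wf x * y / √3) - wf x * y / √3 / 2 - cc / 2 := by
  have hw := VS_w0 x
  have hs := VS_s0
  rw [lf_chart]
  have e : (AS J x y).u = Nf y - y / (2 * √3) - cc / (2 * wf x) - J.f (cc * x, wf x * y / √3) / wf x := rfl
  rw [e]
  field_simp
  ring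

private theorem VS_q (x y : ℝ) : (AS J x y).q * √3 =
    lJ.fY (cc * x, wf x * y / √3) - J.fY (cc * x, wf x * y / √3) - 1 / 2 := by
  have hw := VS_w0 x
  have hs := VS_s0
  have hN := VS_N0 y
  have e : (AS J x y).q = y / (3 * Nf y) - 1 / (2 * √3) - J.fY (cc * x, wf x * y / √3) / √3 := rfl
  have e2 : lJ.fY (cc * x, wf x * y / √3) = wf x * y / √3 / lf (cc * x, wf x * y / √3) := rfl
  rw [e, e2, lf_chart]
  have e3 : y / (3 * Nf y) = y / (√3 ^ 2 * Nf y) := by rw [VS_s2]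
  rw [e3]
  field_simp
  ring

private theorem VS_p (x y : ℝ) : (AS J x y).p - x * y / 2 * (AS J x y).q + x / 2 * (AS J x y).u =
    cc * wf x * (lJ.fX (cc * x, wf x * y / √3) - J.fX (cc * x, wf x * y / √3)) := by
  have hw := VS_w0 x
  have hs := VS_s0
  have hN := VS_N0 y
  have eu : (AS J x y).u = Nf y - y / (2 * √3) - cc / (2 * wf x) - J.f (cc * x, wf x * y / √3) / wf x := rfl
  have eq : (AS J x y).q = y / (3 * Nf y) - 1 / (2 * √3) - J.fY (cc * x, wf x * y / √3) / √3 := rfl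
  have ep : (AS J x y).p = cc * x / (4 * wf x) - cc * (wf x * J.fX (cc * x, wf x * y / √3) +
    cc * x * y * J.fY (cc * x, wf x * y / √3) / √3 - cc * x * J.f (cc * x, wf x * y / √3) / wf x) := rfl
  have e2 : lJ.fX (cc * x, wf x * y / √3) = cc * x / lf (cc * x, wf x * y / √3) := rfl
  rw [eu, eq, ep, e2, lf_chart]
  generalize J.f (cc * x, wf x * y / √3) = f0
  generalize J.fX (cc * x, wf x * y / √3) = f1
  generalize J.fY (cc * x, wf x * y / √3) = f2
  have h2 := VS_cc2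
  have hN2 := VS_N2 y
  have e3 : cc * wf x * (cc * x / (wf x * Nf y) - f1) = cc ^ 2 * x / Nf y - cc * wf x * f1 := by
    field_simp
  have e4 : cc * x / (4 * wf x) - cc * (wf x * f1 + cc * x * y * f2 / √3 - cc * x * f0 / wf x) =
      cc * x / (4 * wf x) - cc * wf x * f1 - cc ^ 2 * x * y * f2 / √3 + cc ^ 2 * x * f0 / wf x := by
    ring
  rw [e3, e4, h2]
  have e5 : x / 2 * Nf y = x / 2 * (Nf y ^ 2 / Nf y) := by
    field_simp
  have e6 : x / 2 * (Nf y - y / (2 * √3) - cc / (2 * wf x) - f0 / wf x) =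
      x / 2 * Nf y - x / 2 * (y / (2 * √3) + cc / (2 * wf x) + f0 / wf x) := by ring
  rw [e6, e5, hN2]
  field_simp
  ring

private theorem VS_Y (x y : ℝ) (hy : 1 ≤ y) (hc : (2 + x ^ 2) * y ^ 2 ≤ 3) : wf x * y / √3 ≤ cc := by
  have hw := VS_w0 x
  have hs := VS_s0
  have h1 : (wf x * y / √3) ^ 2 ≤ cc ^ 2 := by
    rw [div_pow, mul_pow, VS_w2, VS_s2, VS_cc2]
    linarith
  exact (abs_le_of_sq_le_sq' h1 VS_c0.le).2

private theorem VS_yt (x : ℝ) : wf x * yt x / √3 = cc := by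
  have hw := VS_w0 x
  have hs := VS_s0
  have h0 : 0 ≤ yt x := Real.sqrt_nonneg _
  have h1 : (wf x * yt x / √3) ^ 2 = cc ^ 2 := by
    unfold yt
    rw [div_pow, mul_pow, VS_w2, VS_s2, VS_cc2, Real.sq_sqrt (by positivity)]
    have : (2 + x ^ 2) ≠ 0 := by positivity
    field_simp
    try ring
  have h2 : 0 ≤ wf x * yt x / √3 := by positivity
  exact (sq_eq_sq₀ h2 VS_c0.le).mp h1

theorem V_f1 (h : SqHyp J b) (x y : ℝ) (hx : 0 ≤ x) (hx1 : x ≤ 1) (hy : 1 ≤ y) (hc : (2 + x ^ 2) * y ^ 2 ≤ 3) :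
    0 ≤ (AS J x y).u + (FdS J).a x := by
  have hw := VS_w0 x
  have h1 := VS_AY h (cc * x) _ _ (VS_Y x y hy hc)
  have h2 := VS_u (J := J) x y
  have h3 : (FdS J).a x * wf x = cc - (lf (cc * x, cc) - J.f (cc * x, cc)) := by
    have e : (FdS J).a x = etp J (cc * x) / wf x := rfl
    rw [e, div_mul_cancel₀ _ hw.ne']
    rfl
  have h4 : 0 ≤ ((AS J x y).u + (FdS J).a x) * wf x := by
    rw [add_mul, h2, h3]
    linarith
  exact nonneg_of_mul_nonneg_left h4 hw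
theorem V_nq (h : SqHyp J b) (x y : ℝ) : (AS J x y).q ≤ 0 := by
  have hs := VS_s0
  have h2 := VS_q (J := J) x y
  have h3 := (abs_le.mp (h.slY (cc * x, wf x * y / √3))).2
  have h4 : (AS J x y).q * √3 ≤ 0 := by
    rw [h2]
    linarith
  by_contra h5
  push Not at h5
  have := mul_pos h5 hs
  linarith
theorem V_f2 (h : SqHyp J b) (x y η : ℝ) (hx : 0 ≤ x) (hx1 : x ≤ 1) (hy : 1 ≤ y) (hc : (2 + x ^ 2) * y ^ 2 ≤ 3)
    (hη : yt x ≤ η) : 0 ≤ -(AS J x y).u - (η - y) * (AS J x y).q - (FdS J).a x := by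
  have hw := VS_w0 x
  have hs := VS_s0
  have h1 := VS_LY h (cc * x) (wf x * y / √3) cc
  have h2 := VS_u (J := J) x y
  have hq := VS_q (J := J) x y
  have h3 : (FdS J).a x * wf x = cc - (lf (cc * x, cc) - J.f (cc * x, cc)) := by
    have e : (FdS J).a x = etp J (cc * x) / wf x := rfl
    rw [e, div_mul_cancel₀ _ hw.ne']
    rfl
  have hn := V_nq h x y
  have h5 : (yt x - y) * (AS J x y).q * wf x = (cc - wf x * y / √3) *
      (lJ.fY (cc * x, wf x * y / √3) - J.fY (cc * x, wf x * y / √3) - 1 / 2) := by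
    rw [← hq]
    have e : cc - wf x * y / √3 = wf x * (yt x - y) / √3 := by
      rw [← VS_yt x]
      ring
    rw [e]
    field_simp
  have h6 : (η - y) * (AS J x y).q ≤ (yt x - y) * (AS J x y).q := by nlinarith
  have h7 : (η - y) * (AS J x y).q * wf x ≤ (yt x - y) * (AS J x y).q * wf x :=
    mul_le_mul_of_nonneg_right h6 hw.le
  have h4 : 0 ≤ (-(AS J x y).u - (η - y) * (AS J x y).q - (FdS J).a x) * wf x := by
    have e : (-(AS J x y).u - (η - y) * (AS J x y).q - (FdS J).a x) * wf x =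
      -((AS J x y).u * wf x) - (η - y) * (AS J x y).q * wf x - (FdS J).a x * wf x := by ring
    rw [e, h2, h3]
    rw [h5] at h7
    nlinarith
  exact nonneg_of_mul_nonneg_left h4 hw

private theorem VS_B (h : SqHyp J b) (x y ξ : ℝ) :
    (1 + x * ξ / 2) * (AS J x y).u + (ξ - x) * (AS J x y).p - (ξ - x) * (x * y / 2) * (AS J x y).q ≤
      wf x * (lf (cc * ξ, wf x * y / √3) - J.f (cc * ξ, wf x * y / √3) - wf x * y / √3 / 2 - cc / 2) := by
  have hw := VS_w0 x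
  have hw2 := VS_w2 x
  have hu := VS_u (J := J) x y
  have hp := VS_p (J := J) x y
  have h1 := VS_LX h (wf x * y / √3) (cc * x) (cc * ξ)
  have h2 := mul_le_mul_of_nonneg_left h1 hw.le
  have e : (1 + x * ξ / 2) * (AS J x y).u + (ξ - x) * (AS J x y).p - (ξ - x) * (x * y / 2) * (AS J x y).q =
      wf x * ((AS J x y).u * wf x) + (ξ - x) * ((AS J x y).p - x * y / 2 * (AS J x y).q + x / 2 * (AS J x y).u) := by
    have : wf x * ((AS J x y).u * wf x) = wf x ^ 2 * (AS J x y).u := by ring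
    rw [this, hw2]
    ring
  rw [e, hp, hu]
  linarith

private theorem VS_k (x y ξ : ℝ) : kS x y ξ = wf x * (lf (cc * ξ, wf x * y / √3) - (ξ / 2 + 1) * cc -
    wf x * y / √3 / 2) := by
  have hw := VS_w0 x
  have hs := VS_s0
  have e : lf (cc * ξ, wf x * y / √3) = √(1 + ξ ^ 2 / 2 + mf x * y ^ 2 / 3) := by
    unfold lf
    congr 1
    simp only
    rw [mul_pow, div_pow, mul_pow, VS_cc2, VS_s2, VS_mw]
    ring
  rw [e, kS, VS_mw x]
  generalize √(1 + ξ ^ 2 / 2 + wf x ^ 2 * y ^ 2 / 3) = r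
  field_simp

theorem V_sBp (h : SqHyp J b) (x y ξ : ℝ) (hx : 0 ≤ x) (hx1 : x ≤ 1) (hy : 1 ≤ y) (hc : (2 + x ^ 2) * y ^ 2 ≤ 3)
    (h0 : -1 ≤ ξ) (h1 : ξ ≤ 1) : 0 ≤ kS x y ξ - (1 + x * ξ / 2) * (AS J x y).u - (ξ - x) * (AS J x y).p +
      (ξ - x) * (x * y / 2) * (AS J x y).q + mf x * (FdS J).c x y := by
  have hw := VS_w0 x
  have hB := VS_B h x y ξ
  have hc0 := VS_c0
  have hm : mf x * (FdS J).c x y = wf x * (cc - J.f (cc, wf x * y / √3)) := by
    have e : (FdS J).c x y = (cc - J.f (cc, wf x * y / √3)) / wf x := rfl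
    rw [e, VS_mw]
    field_simp
  have hJ := VS_JX h (wf x * y / √3) (cc * ξ) cc (by nlinarith)
  have h2 := mul_le_mul_of_nonneg_left hJ hw.le
  rw [VS_k, hm]
  linarith
theorem V_sBm (h : SqHyp J b) (x y ξ : ℝ) (hx : 0 ≤ x) (hx1 : x ≤ 1) (hy : 1 ≤ y) (hc : (2 + x ^ 2) * y ^ 2 ≤ 3)
    (h0 : -1 ≤ ξ) (h1 : ξ ≤ 1) : 0 ≤ kS x y ξ - (1 - x * ξ / 2) * (AS J x y).u + (ξ + x) * (AS J x y).p -
      (ξ + x) * (x * y / 2) * (AS J x y).q + mf x * (FdS J).d x y := by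
  have hw := VS_w0 x
  have hB := VS_B h x y (-ξ)
  have hc0 := VS_c0
  have hm : mf x * (FdS J).d x y = wf x * (cc - J.f (-cc, wf x * y / √3)) := by
    have e : (FdS J).d x y = (cc - J.f (-cc, wf x * y / √3)) / wf x := rfl
    rw [e, VS_mw]
    field_simp
  have hJ := VS_JX' h (wf x * y / √3) (-cc) (cc * -ξ) (by nlinarith)
  have h2 := mul_le_mul_of_nonneg_left hJ hw.le
  have hl : lf (cc * ξ, wf x * y / √3) = lf (cc * -ξ, wf x * y / √3) := by
    unfold lf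
    simp
  rw [VS_k, hm, hl]
  linarith
theorem V_KA (h : SqHyp J b) (x y : ℝ) : 0 ≤ (AS J x y).mu ∧ 0 ≤ (AS J x y).ka ∧
    (2 * (AS J x y).nu) ^ 2 ≤ 2 * (AS J x y).mu * (AS J x y).ka := by
  obtain ⟨-, -, -, h4, h5, h6⟩ := kh_sq h x y
  have e1 : (AS J x y).mu = 1 / (3 * Nf y ^ 3) - (ch J x y).mu := rfl
  have e2 : (AS J x y).nu = 0 - (ch J x y).nu := rfl
  have e3 : (AS J x y).ka = 1 / Nf y - (ch J x y).ka := rfl
  rw [e1, e2, e3]
  refine ⟨by linarith, by linarith, ?_⟩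
  have e5 : (2 * (0 - (ch J x y).nu)) ^ 2 = 2 * (2 * (ch J x y).nu ^ 2) := by ring
  rw [e5]
  linarith
theorem V_sMH (h : SqHyp J b) (x y : ℝ) : 0 ≤ 2 / (3 * Nf y ^ 3) - 2 * (AS J x y).mu ∧
    0 ≤ 1 / Nf y - (AS J x y).ka ∧
    (-2 * (AS J x y).nu) ^ 2 ≤ (2 / (3 * Nf y ^ 3) - 2 * (AS J x y).mu) * (1 / Nf y - (AS J x y).ka) := by
  obtain ⟨h1, h2, h3, -⟩ := kh_sq h x y
  have e1 : (AS J x y).mu = 1 / (3 * Nf y ^ 3) - (ch J x y).mu := rfl
  have e2 : (AS J x y).nu = 0 - (ch J x y).nu := rfl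
  have e3 : (AS J x y).ka = 1 / Nf y - (ch J x y).ka := rfl
  have e4 : 2 / (3 * Nf y ^ 3) = 2 * (1 / (3 * Nf y ^ 3)) := by ring
  rw [e1, e2, e3, e4]
  refine ⟨by linarith, by linarith, ?_⟩
  have e5 : (-2 * (0 - (ch J x y).nu)) ^ 2 = 2 * (2 * (ch J x y).nu ^ 2) := by ring
  rw [e5]
  linarith

/-! curve -/

private theorem VS_cor (h : SqHyp J b) (s : ℝ) (hs : s = cc ∨ s = -cc) : lf (s, cc) - J.f (s, cc) = cc := by
  have hc0 := VS_c0
  have h2 := VS_cc2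
  have hsq : s ^ 2 = 1 / 2 := by
    rcases hs with rfl | rfl
    · exact h2
    · rw [neg_sq]; exact h2
  have habs : |s| = cc := by
    rcases hs with rfl | rfl
    · exact abs_of_pos hc0
    · rw [abs_neg]; exact abs_of_pos hc0
  have h3 := h.cor s cc habs (abs_of_pos hc0)
  have h4 : lf (s, cc) = 2 * cc := by
    unfold lf
    simp only
    rw [hsq, h2]
    rw [Real.sqrt_eq_iff_mul_self_eq_of_pos (by positivity)]
    nlinarith
  rw [h3, h4]
  ring

private theorem VS_T (x : ℝ) : (AS J x (yt x)).p - x * yt x / 2 * (AS J x (yt x)).q =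
    cc * wf x * (lJ.fX (cc * x, cc) - J.fX (cc * x, cc)) + x / 2 * (FdS J).a x := by
  have hw := VS_w0 x
  have hp := VS_p (J := J) x (yt x)
  have hu := VS_u (J := J) x (yt x)
  rw [VS_yt] at hp hu
  have h3 : (FdS J).a x * wf x = cc - (lf (cc * x, cc) - J.f (cc * x, cc)) := by
    have e : (FdS J).a x = etp J (cc * x) / wf x := rfl
    rw [e, div_mul_cancel₀ _ hw.ne']
    rfl
  have h4 : (AS J x (yt x)).u = -(FdS J).a x := by
    apply mul_right_cancel₀ hw.ne'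
    rw [hu, neg_mul, h3]
    ring
  rw [h4] at hp
  linarith

theorem V_Tp (h : SqHyp J b) (x : ℝ) (hx : 0 ≤ x) (hx1 : x ≤ 1) :
    0 ≤ (1 + x / 2) * (FdS J).a x - (1 - x) * ((AS J x (yt x)).p - x * yt x / 2 * (AS J x (yt x)).q) := by
  have hw := VS_w0 x
  have hw2 := VS_w2 x
  have h1 := VS_LX h cc (cc * x) cc
  rw [VS_cor h cc (Or.inl rfl)] at h1
  have h3 : (FdS J).a x * wf x = cc - (lf (cc * x, cc) - J.f (cc * x, cc)) := by
    have e : (FdS J).a x = etp J (cc * x) / wf x := rfl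
    rw [e, div_mul_cancel₀ _ hw.ne']
    rfl
  rw [VS_T]
  have e : (1 + x / 2) * (FdS J).a x - (1 - x) * (cc * wf x * (lJ.fX (cc * x, cc) - J.fX (cc * x, cc)) +
      x / 2 * (FdS J).a x) = wf x * ((FdS J).a x * wf x - (cc - cc * x) * (lJ.fX (cc * x, cc) - J.fX (cc * x, cc))) := by
    have : wf x * ((FdS J).a x * wf x - (cc - cc * x) * (lJ.fX (cc * x, cc) - J.fX (cc * x, cc))) =
      wf x ^ 2 * (FdS J).a x - wf x * ((cc - cc * x) * (lJ.fX (cc * x, cc) - J.fX (cc * x, cc))) := by ring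
    rw [this, hw2]
    ring
  rw [e, h3]
  refine mul_nonneg hw.le ?_
  linarith
theorem V_Tm (h : SqHyp J b) (x : ℝ) (hx : 0 ≤ x) (hx1 : x ≤ 1) :
    0 ≤ (1 - x / 2) * (FdS J).a x + (1 + x) * ((AS J x (yt x)).p - x * yt x / 2 * (AS J x (yt x)).q) := by
  have hw := VS_w0 x
  have hw2 := VS_w2 x
  have h1 := VS_LX h cc (cc * x) (-cc)
  rw [VS_cor h (-cc) (Or.inr rfl)] at h1
  have h3 : (FdS J).a x * wf x = cc - (lf (cc * x, cc) - J.f (cc * x, cc)) := by
    have e : (FdS J).a x = etp J (cc * x) / wf x := rfl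
    rw [e, div_mul_cancel₀ _ hw.ne']
    rfl
  rw [VS_T]
  have e : (1 - x / 2) * (FdS J).a x + (1 + x) * (cc * wf x * (lJ.fX (cc * x, cc) - J.fX (cc * x, cc)) +
      x / 2 * (FdS J).a x) = wf x * ((FdS J).a x * wf x + (cc + cc * x) * (lJ.fX (cc * x, cc) - J.fX (cc * x, cc))) := by
    have : wf x * ((FdS J).a x * wf x + (cc + cc * x) * (lJ.fX (cc * x, cc) - J.fX (cc * x, cc))) =
      wf x ^ 2 * (FdS J).a x + wf x * ((cc + cc * x) * (lJ.fX (cc * x, cc) - J.fX (cc * x, cc))) := by ring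
    rw [this, hw2]
    ring
  rw [e, h3]
  refine mul_nonneg hw.le ?_
  linarith

end

end Pool.Agent.MCA
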