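import Pool.Agent.MCA.ACA
import Pool.Agent.MCA.VSL
/-!
ACS (120 lines). The constants of cell A in the sliver.

PROOF. As in ACN: `N³ kS = N² (S9 - (29/20) cc W - m y N √3/6)`, `W ≥ awl asNl/10^16`, `N ≥ asNl/10^8`, `S9 ≤ asSh/10^8`
(`y ≤ 38/31` by `sl_top`); final checks with `posSl` [1 1] for sB, soa, soc; `ayh`: `(2+x²) ayh² ≥ 3 DL²` [2 1], `ayh ≥ 0`
on `[0,1]`. All checks were run in exact arithmetic.
-/
set_option autoImplicit false

namespace Pool.Agent.MCA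
open Pool.Agent.MSQ Pool.Agent.MTR

/-! constants -/
private theorem acs_s3 : (173205080 / 10 ^ 8 : ℝ) ≤ √3 ∧ √3 ≤ 173205081 / 10 ^ 8 := by
  constructor
  · exact Real.le_sqrt_of_sq_le (by norm_num)
  · rw [Real.sqrt_le_left (by norm_num)]
    norm_num
private theorem acs_cc : (70710678 / 10 ^ 8 : ℝ) ≤ cc ∧ cc ≤ 70710679 / 10 ^ 8 := by
  have h0 : 0 < cc := by unfold cc; positivity
  have h2 : cc ^ 2 = 1 / 2 := by
    unfold cc
    rw [div_pow, Real.sq_sqrt (by norm_num), one_pow]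
  constructor
  · rw [← pow_le_pow_iff_left₀ (by norm_num) h0.le two_ne_zero, h2]
    norm_num
  · rw [← pow_le_pow_iff_left₀ h0.le (by norm_num) two_ne_zero, h2]
    norm_num
private theorem acs_N0 (y : ℝ) : 0 < Nf y := Real.sqrt_pos.mpr (by positivity)
private theorem acs_N2 (y : ℝ) : Nf y ^ 2 = (3 + y ^ 2) / 3 := by
  unfold Nf
  rw [Real.sq_sqrt (by positivity)]
  ring
private theorem acs_m0 (x : ℝ) : 0 < mf x := by unfold mf; positivity
private theorem acs_w0 (x : ℝ) : 0 < wf x := Real.sqrt_pos.mpr (acs_m0 x)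
private theorem acs_w2 (x : ℝ) : wf x ^ 2 = mf x := Real.sq_sqrt (acs_m0 x).le
private theorem acs_m (x : ℝ) : mf x = (2 + x ^ 2) / 2 := by unfold mf; ring
private theorem acs_33 : (√3 : ℝ) ^ 2 = 3 := Real.sq_sqrt (by norm_num)
private theorem acs_30 : (0 : ℝ) < √3 := Real.sqrt_pos.mpr (by norm_num)

private theorem acs_pos (p : P) (nx ny : Nat) (h : posSl p nx ny = true) (hnx : 0 < nx) (hny : 0 < ny)
    (x y : ℝ) (hx : 0 ≤ x) (hx1 : x ≤ 1) (hy : 1 ≤ y) (hc : (2 + x ^ 2) * y ^ 2 ≤ 3) : 0 ≤ ev x y p :=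
  posSl_sound p nx ny h hnx hny x y hx hx1 hy hc

/-- `10^16 W` between the products -/
private theorem acs_W (x y : ℝ) (hx : 0 ≤ x) (hx1 : x ≤ 1) (hy : 1 ≤ y) (hc : (2 + x ^ 2) * y ^ 2 ≤ 3) :
    ev x y awl * ev x y asNl ≤ 10 ^ 16 * (wf x * Nf y) ∧ 10 ^ 16 * (wf x * Nf y) ≤ ev x y awh * ev x y asNh := by
  have ht := sl_top x y hx hy hc
  have a1 := aw_ge x y hx hx1
  have a2 := aw_le x y hx hx1
  have b1 := asN_ge x y hy ht
  have b2 := asN_le x y hy ht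
  have c1 := acs_pos asNl 1 1 (by decide +kernel) one_pos one_pos x y hx hx1 hy hc
  have d1 := acs_w0 x
  have d2 := acs_N0 y
  have e1 : (10 : ℝ) ^ 16 * (wf x * Nf y) = (10 ^ 8 * wf x) * (10 ^ 8 * Nf y) := by ring
  rw [e1]
  constructor
  · exact mul_le_mul a1 b1 c1 (by positivity)
  · exact mul_le_mul a2 b2 (by positivity) (le_trans (by positivity) a2)

/-! check polynomials -/
private def acs_qB : P := pAdd (pSm (60 * 10 ^ 24) asB) (pSm (-1594323) (N3 (pAdd (pSm (60 * 10 ^ 16) asSh)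
  (pAdd (pSm (-(87 * 70710678)) (pMul awl asNl)) (pSm (-(5 * 10 ^ 8 * 173205080)) (M2 (pY asNl)))))))
private def acs_qa : P := pAdd (pSm (10 ^ 27) (M2 asoa)) (pSm (-(6 * 1594323 * 70710679))
  (N3 (pMul (pAdd (cP 1) (pX (cP 1))) (pMul awh asNh))))
private def acs_qc : P := pAdd (pSm (10 ^ 27) (M2 asoc)) (pSm (-1594323)
  (N3 (pAdd (pSm (6 * 70710679) (pMul awh asNh)) (pSm (3 * 10 ^ 8 * 57735027) (M2 (pY asNh))))))
private def acs_qy : P := pAdd (M2 (pMul ayh ayh)) (cP (-(3 * 4782969 ^ 2)))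

theorem asB_ok (x y : ℝ) (hx : 0 ≤ x) (hx1 : x ≤ 1) (hy : 1 ≤ y) (hc : (2 + x ^ 2) * y ^ 2 ≤ 3) :
    4782969 * Nf y ^ 3 * kS x y (9 / 10) ≤ ev x y asB := by
  have hp := acs_pos acs_qB 1 1 (by decide +kernel) one_pos one_pos x y hx hx1 hy hc
  unfold acs_qB at hp
  simp only [ev_pAdd, ev_pSm, ev_pMul, ev_N3, ev_M2, ev_pY] at hp
  push_cast at hp
  obtain ⟨W1, W2⟩ := acs_W x y hx hx1 hy hc
  obtain ⟨c1, c2⟩ := acs_cc
  obtain ⟨r1, r2⟩ := acs_s3
  have ht := sl_top x y hx hy hc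
  have hN0 := acs_N0 y
  have hw0 := acs_w0 x
  have hN2 := acs_N2 y
  have hm := acs_m x
  have hS := asS_le x y hx hx1 hy ht
  have hN := asN_ge x y hy ht
  have hy0 : 0 ≤ y := by linarith
  have e1 : Nf y ^ 3 * kS x y (9 / 10) = Nf y ^ 2 * (S9 x y - 29 / 20 * cc * (wf x * Nf y) -
      mf x * y * (√3 * Nf y) / 6) := by
    have h4 : mf x * y / (2 * √3) = mf x * y * √3 / 6 := by
      have h30 := acs_30
      rw [div_eq_div_iff (by positivity) (by norm_num)]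
      have h5 : mf x * y * √3 * (2 * √3) = 2 * (mf x * y) * √3 ^ 2 := by ring
      rw [h5, acs_33]
      ring
    unfold kS S9
    rw [h4]
    ring
  have h1 : ev x y awl * ev x y asNl * 70710678 ≤ 10 ^ 24 * (cc * (wf x * Nf y)) := by
    have h2 : (0 : ℝ) ≤ 10 ^ 16 * (wf x * Nf y) := by positivity
    have h3 := mul_le_mul W1 c1 (by norm_num) h2
    linarith
  have h2 : 173205080 * ev x y asNl ≤ 10 ^ 16 * (√3 * Nf y) := by
    have h3 : (0 : ℝ) ≤ 10 ^ 8 * Nf y := by positivity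
    have h4 := mul_le_mul hN r1 (by norm_num) h3
    linarith
  have h3 := mul_le_mul_of_nonneg_left h2 (show (0 : ℝ) ≤ 5 * 10 ^ 8 * ((2 + x ^ 2) * y) by positivity)
  have h4 : 60 * 10 ^ 24 * (S9 x y - 29 / 20 * cc * (wf x * Nf y) - mf x * y * (√3 * Nf y) / 6) ≤
      60 * 10 ^ 16 * ev x y asSh + (-(87 * 70710678) * (ev x y awl * ev x y asNl) +
        -(5 * 10 ^ 8 * 173205080) * ((2 + x ^ 2) * (y * ev x y asNl))) := by
    rw [hm]
    linarith
  have h5 := mul_le_mul_of_nonneg_left h4 (show (0 : ℝ) ≤ 1594323 * (3 + y ^ 2) by positivity)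
  have e2 : 4782969 * Nf y ^ 3 * kS x y (9 / 10) = 4782969 * (Nf y ^ 3 * kS x y (9 / 10)) := by ring
  rw [e2, e1, hN2]
  linarith
theorem asoa_ok (x y : ℝ) (hx : 0 ≤ x) (hx1 : x ≤ 1) (hy : 1 ≤ y) (hc : (2 + x ^ 2) * y ^ 2 ≤ 3) :
    4782969 * Nf y ^ 3 * (3 / 1000 * cc * (1 + x) / wf x) ≤ ev x y asoa := by
  have hp := acs_pos acs_qa 1 1 (by decide +kernel) one_pos one_pos x y hx hx1 hy hc
  unfold acs_qa at hp
  simp only [ev_pAdd, ev_pSm, ev_pMul, ev_N3, ev_M2, ev_cP, ev_pX] at hp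
  push_cast at hp
  obtain ⟨W1, W2⟩ := acs_W x y hx hx1 hy hc
  obtain ⟨c1, c2⟩ := acs_cc
  have hN0 := acs_N0 y
  have hw0 := acs_w0 x
  have hN2 := acs_N2 y
  have hm := acs_m x
  have hm0 := acs_m0 x
  have hw2 := acs_w2 x
  have h1 : 10 ^ 24 * (cc * (wf x * Nf y)) ≤ 70710679 * (ev x y awh * ev x y asNh) := by
    have h2 : (0 : ℝ) ≤ 10 ^ 16 * (wf x * Nf y) := by positivity
    have h3 := mul_le_mul W2 c2 (by linarith) (h2.trans W2)
    linarith
  have e1 : mf x * (4782969 * Nf y ^ 3 * (3 / 1000 * cc * (1 + x) / wf x)) =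
      4782969 * 3 / 1000 * Nf y ^ 2 * ((1 + x) * (cc * (wf x * Nf y))) := by
    rw [← hw2]
    field_simp
  have h3 := mul_le_mul_of_nonneg_left h1 (show (0 : ℝ) ≤ 6 * 1594323 * (3 + y ^ 2) * (1 + x) by positivity)
  have h5 : mf x * (4782969 * Nf y ^ 3 * (3 / 1000 * cc * (1 + x) / wf x)) ≤ mf x * ev x y asoa := by
    rw [e1, hN2, hm]
    linarith
  exact le_of_mul_le_mul_left h5 hm0
theorem asoc_ok (x y : ℝ) (hx : 0 ≤ x) (hx1 : x ≤ 1) (hy : 1 ≤ y) (hc : (2 + x ^ 2) * y ^ 2 ≤ 3) :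
    4782969 * Nf y ^ 3 * (3 / 1000 * (cc / wf x + y / √3)) ≤ ev x y asoc := by
  have hp := acs_pos acs_qc 1 1 (by decide +kernel) one_pos one_pos x y hx hx1 hy hc
  unfold acs_qc at hp
  simp only [ev_pAdd, ev_pSm, ev_pMul, ev_N3, ev_M2, ev_pY] at hp
  push_cast at hp
  obtain ⟨W1, W2⟩ := acs_W x y hx hx1 hy hc
  obtain ⟨c1, c2⟩ := acs_cc
  obtain ⟨r1, r2⟩ := acs_s3
  have ht := sl_top x y hx hy hc
  have hN0 := acs_N0 y
  have hw0 := acs_w0 x
  have hN2 := acs_N2 y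
  have hN := asN_le x y hy ht
  have hm := acs_m x
  have hm0 := acs_m0 x
  have hw2 := acs_w2 x
  have h33 := acs_33
  have h30 := acs_30
  have hy0 : 0 ≤ y := by linarith
  have h1 : 10 ^ 24 * (cc * (wf x * Nf y)) ≤ 70710679 * (ev x y awh * ev x y asNh) := by
    have h2 : (0 : ℝ) ≤ 10 ^ 16 * (wf x * Nf y) := by positivity
    have h3 := mul_le_mul W2 c2 (by linarith) (h2.trans W2)
    linarith
  have h2 : 10 ^ 16 * (√3 * Nf y) ≤ 173205081 * ev x y asNh := by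
    have h3 : (0 : ℝ) ≤ 10 ^ 8 * Nf y := by positivity
    have h4 := mul_le_mul hN r2 (by positivity) (h3.trans hN)
    linarith
  have e1 : mf x * (4782969 * Nf y ^ 3 * (3 / 1000 * (cc / wf x + y / √3))) =
      4782969 * 3 / 1000 * Nf y ^ 2 * (cc * (wf x * Nf y) + mf x * y * (√3 * Nf y) / 3) := by
    have h4 : y / √3 = y * √3 / 3 := by
      rw [div_eq_div_iff h30.ne' (by norm_num)]
      have h5 : y * √3 * √3 = y * √3 ^ 2 := by ring
      rw [h5, h33]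
    rw [h4, ← hw2]
    field_simp
  have h3 := mul_le_mul_of_nonneg_left h1 (show (0 : ℝ) ≤ 6 * 1594323 * (3 + y ^ 2) by positivity)
  have h4 := mul_le_mul_of_nonneg_left h2 (show (0 : ℝ) ≤ 10 ^ 8 * 1594323 * (3 + y ^ 2) * ((2 + x ^ 2) * y) by positivity)
  have h5 : mf x * (4782969 * Nf y ^ 3 * (3 / 1000 * (cc / wf x + y / √3))) ≤ mf x * ev x y asoc := by
    rw [e1, hN2, hm]
    linarith
  exact le_of_mul_le_mul_left h5 hm0
theorem ayh_ok (x y : ℝ) (hx : 0 ≤ x) (hx1 : x ≤ 1) : 4782969 * yt x ≤ ev x y ayh := by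
  have hxy : ev x y ayh = ev x 0 ayh := by
    simp [ev, evL, ayh]
  rw [hxy]
  have hp := posG_sound acs_qy 2 1 0 1 1 0 1 1 (by decide +kernel) two_pos one_pos one_pos one_pos x 0
    (by simpa using hx) (by simpa using hx1) (by simp) (by simp)
  have h0 := posG_sound ayh 1 1 0 1 1 0 1 1 (by decide +kernel) one_pos one_pos one_pos one_pos x 0
    (by simpa using hx) (by simpa using hx1) (by simp) (by simp)
  unfold acs_qy at hp
  simp only [ev_pAdd, ev_pMul, ev_M2, ev_cP] at hp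
  push_cast at hp
  have hm : (0 : ℝ) < 2 + x ^ 2 := by positivity
  have h1 : 0 ≤ yt x := Real.sqrt_nonneg _
  have h2 : (2 + x ^ 2) * yt x ^ 2 = 3 := by
    unfold yt
    rw [Real.sq_sqrt (by positivity)]
    field_simp
  rw [← pow_le_pow_iff_left₀ (by positivity) h0 two_ne_zero]
  refine le_of_mul_le_mul_left ?_ hm
  have h3 : (2 + x ^ 2) * (4782969 * yt x) ^ 2 = 4782969 ^ 2 * ((2 + x ^ 2) * yt x ^ 2) := by ring
  rw [h3, h2]
  linarith

end Pool.Agent.MCA
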