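import Pool.Agent.MCA.CUR
/-!
Cell A (central defects at most `3/1000`) of MP_f10237: constants and facts.
All constants are multiplied by `DL = 3^14`.
-/
set_option autoImplicit false

namespace Pool.Agent.MCA
open Pool.Agent.MSQ Pool.Agent.MTR

def aDL : Int := 4782969
/-- `≥ DL N³ kB x y (9/10)` -/
def aBp : P := [[125405, -6782, -28268, -56952], [-292027, 17060, 139084, 144263], [209016, -12616, -190158, -108319], [-33605, 2341, 83042, 21048]]
/-- `≥ DL N³ kBm x y (9/10)` -/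
def aBm : P := [[126232, -6782, -28268, -56952], [285744, -16767, -117895, -141791], [209016, -12616, -190158, -108319], [-33605, 2341, 83042, 21048]]
/-- `≥ DL N³ kbr x y (3/1000)` -/
def abr : P := [[60303, 71660, 20570, 47012], [-2871, -5, 14135, -1368], [191198, 26166, -138606, -52459], [-30715, 808, 114421, 516]]
/-- `≥ DL N³ (3/1000) cc (1+x)/w` -/
def aoa : P := [[10277, -324, 5743], [10471, -334, 5924], [-4042, 129, -2287]]
/-- `≥ DL N³ (3/1000) (cc/w + y/√3)` -/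
def aoc : P := [[10639, 5333, 12547], [-517, 16, -292], [-1410, 45, -798]]
/-- `(1-y) C1r ≥ DL N³ (1/N - √3/2)` -/
def aC1r : P := [[640845, 641134, 161135, 173330, -22064]]
/-- `≥ DL N³ √3/2` -/
def aC2 : P := [[4142276, 1810, 2057085, 36069, 140234]]
/-- `DL √3 N + [0, 5]` -/
def aThi : P := [[8284347, 76, 1379503, 7314, -135759, 29199, 1260]]
/-- sliver: `≥ DL N³ kS x y (9/10)` -/
def asB : P := [[973332, -1628651, 689021], [-531, -6364, 15735], [479015, -1221934, 640634], [5827, -98208, 165272]]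
/-- sliver: `≥ DL N³ (3/1000) cc (1+x)/w` -/
def asoa : P := [[2304, 13403], [2216, 13827], [-855, -5338]]
/-- sliver: `≥ DL N³ (3/1000) (cc/w + y/√3)` -/
def asoc : P := [[-11080, 39598], [-109, -682], [-298, -1862]]
/-- `≥ DL yt x` -/
def ayh : P := [[5857965], [41599], [-1723894], [609030]]

/-- linear form from its 11 coefficients `t u q p a b c d μ ν κ` -/
def lF (t u q p a b c d mu nu ka : P) : LF := [t, u, q, p, a, b, c, d, mu, nu, ka]

/-! core -/
def aap : LF := lF [] [[1]] [[1, -1]] [] [[1]] [] [] [] [] [] []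
def aam : LF := lF [] [[1]] [[-1, -1]] [] [] [[1]] [] [] [] [] []
def afBp : LF := lF (pSm 20 aBp) [[-20], [-9]] [[], [0, 9], [0, -10]] [[-18], [20]] [] [] [[20], [], [10]] [] [] [] []
def afBm : LF := lF (pSm 20 aBm) [[-20], [9]] [[], [0, -9], [0, -10]] [[18], [20]] [] [] [] [[20], [], [10]] [] [] []
def afbr : LF := lF (pSm 2 abr) [[-2]] [[], [], [0, -1]] [[], [2]] [] [] [] [] [] [] []
def afs0 : LF := lF [[1]] [] [] [] [] [] [] [] [] [] []
def ala : LF := lF [] [] [] [] [[1]] [] [] [] [] [] []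
def alb : LF := lF [] [] [] [] [] [[1]] [] [] [] [] []
def alc : LF := lF [] [] [] [] [] [] [[1]] [] [] [] []
def ald : LF := lF [] [] [] [] [] [] [] [[1]] [] [] []
def afoa : LF := lF aoa [] [] [] [[-1]] [] [] [] [] [] []
def afob : LF := lF aoa [] [] [] [] [[-1]] [] [] [] [] []
def afoc : LF := lF aoc [] [] [] [] [] [[-1]] [] [] [] []
def afod : LF := lF aoc [] [] [] [] [] [] [[-1]] [] [] []
def afal : LF := lF [] [] [] [] [] [] [] [] [[-1]] [] []
def afhk : LF := lF aC2 [] [] [] [] [] [] [] [] [] [[-1]]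
def aMH : MF := ⟨lF [] [] [] [] [] [] [] [] [[-2]] [] [], lF [] [] [] [] [] [] [] [] [] [[-2]] [], afhk⟩
def aML : MF := ⟨lF [[3188646]] [] [] [] [] [] [] [] [[2]] [] [], lF [] [] [] [] [] [] [] [] [] [[2]] [],
  lF (pMul [[1, -1]] aC1r) [] [] [] [] [] [] [] [] [] [[1]]⟩

/-! sliver -/
def asf1 : LF := lF [] [[1]] [] [] [[1]] [] [] [] [] [] []
def asf2 : LF := lF [] [[-4782969]] (pAdd [[0, 4782969]] (pSm (-1) ayh)) [] [[-4782969]] [] [] [] [] [] []
def asnq : LF := lF [] [] [[-1]] [] [] [] [] [] [] [] []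
def asBp : LF := lF (pSm 20 asB) [[-20], [-9]] [[], [0, 9], [0, -10]] [[-18], [20]] [] [] [[20], [], [10]] [] [] [] []
def asBm : LF := lF (pSm 20 asB) [[-20], [9]] [[], [0, -9], [0, -10]] [[18], [20]] [] [] [] [[20], [], [10]] [] [] []
def asoA : LF := lF asoa [] [] [] [[-1]] [] [] [] [] [] []
def asoB : LF := lF asoa [] [] [] [] [[-1]] [] [] [] [] []
def asoC : LF := lF asoc [] [] [] [] [] [[-1]] [] [] [] []
def asoD : LF := lF asoc [] [] [] [] [] [] [[-1]] [] [] []
def aKA : MF := ⟨lF [] [] [] [] [] [] [] [] [[2]] [] [], lF [] [] [] [] [] [] [] [] [] [[2]] [],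
  lF [] [] [] [] [] [] [] [] [] [] [[1]]⟩
def asMH : MF := ⟨lF [[3188646]] [] [] [] [] [] [] [] [[-2]] [] [], lF [] [] [] [] [] [] [] [] [] [[-2]] [],
  lF [[4782969, 0, 1594323]] [] [] [] [] [] [] [] [] [] [[-1]]⟩

/-! curve: tangents, times 2 -/
def aTp : LF := lF [] [] [[], [0, 1], [0, -1]] [[-2], [2]] [[2], [1]] [] [] [] [] [] []
def aTm : LF := lF [] [] [[], [0, -1], [0, -1]] [[2], [2]] [[2], [-1]] [] [] [] [] [] []
def curF (k : Nat) : LF := eS k curP

/-! regions -/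
def aRC : Rgn := ⟨[aap, aam, afBp, afBm, afbr, ala, alb, alc, ald, afoa, afob, afoc, afod, afal, afhk, afs0],
  [aMH, aML], [], []⟩
def aRS : Rgn := ⟨[asf1, asf2, asnq, asBp, asBm, ala, alb, alc, ald, asoA, asoB, asoC, asoD, afs0],
  [aKA, asMH], [], []⟩
/-- on the edges the forms are evaluated at `y = 0`, `y = 1`, `x = 1` -/
def aRA : Rgn := ⟨[aap, aam, afbr, ala, alb, afs0].map fun l => l.map at0, [], [], []⟩
def aRG : Rgn := ⟨[asf1, asf2, asnq, aam, ala, alb, afoa, afob, afs0].map fun l => l.map at1, [], [], []⟩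
def aRX : Rgn := ⟨[aap, aam, alc, ald, afoc, afod, afs0].map fun l => l.map atx1, [],
  [lF [] [[1]] [] [] [] [] [[-1]] [] [] [] [], ala, alb], []⟩
def aRY : Rgn := ⟨[aTp, aTm, asnq, ala, alb, asoA, asoB, afs0], [],
  [lF [] [[1]] [] [] [[1]] [] [] [] [] [] [], alc, ald, curF 0, curF 2, curF 3, curF 4, curF 5], []⟩

/-! base densities -/
def alC : LF := lF [] (pMul [[3, 0, 1]] (pAdd [[4132485216000000]] (pSm (-432000000) aThi))) [] []
  (pSm (-1080000000) (pMul [[3, 0, 1]] [[1, 1]])) (pSm (-1080000000) (pMul [[3, 0, 1]] [[1, -1]])) [] [] [] [] []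
def alS : LF := lF [] (pSm (-4132485216000000) [[3, 0, 1]]) [] [] [] [] [] [] [] [] []

end Pool.Agent.MCA
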