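import Pool.Agent.MCA.Sem
/-!
BXO. What a certificate of a box proves.
-/
set_option autoImplicit false

open Pool.Agent.MSQ Pool.Agent.MTR

namespace Pool.Agent.MCA

/-- what a certificate of a box proves -/
def BoxOK (rg : Rgn) (R : List P) (b : Itm) : Prop :=
  ∀ x y : ℝ, inI b x y → ∀ s : List ℝ, s.length = 11 → ROK rg x y s → 0 ≤ qf (evE x y R) s

end Pool.Agent.MCA
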