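import Pool.Agent.MCA.Edg
/-!
CUR. The polynomial that vanishes on the curve.
-/
namespace Pool.Agent.MCA
open Pool.Agent.MSQ Pool.Agent.MTR

/-- `3 - (2 + x²) y²` -/
def curP : P := [[3, 0, -2], [], [0, 0, -1]]

end Pool.Agent.MCA
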