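import Pool.Agent.MCA.EDV
import Pool.Agent.MCA.BXO
import Pool.Agent.MCA.CUR
import Pool.Agent.MSQ.EvA
/-!
QUD. Data of a certificate of a square, its checks and the validity of its facts.
-/
set_option autoImplicit false

open MeasureTheory Set Pool.Agent.MSQ Pool.Agent.MTR Pool.Agent.MGF

namespace Pool.Agent.MCA

/-- data; index `false`: right half (`X > 0`), `true`: left half. `F1` side functional on `X = c`, `F2` on the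
other three sides. `w..`, `v..` null terms. `D = kf DF`. -/
structure Sqd where
  DL : Int
  DF : Int
  kf : Int
  gC : Bool → Ga
  gS : Bool → Ga
  lC : Bool → LF
  lS : Bool → LF
  F1 : List (List Int)
  F2 : List (List Int)
  rC : Bool → Rgn
  rS : Bool → Rgn
  rA : Bool → Rgn
  rG : Bool → Rgn
  rX : Bool → Rgn
  rY : Bool → Rgn
  wA : Bool → P
  wG : Bool → P
  wX : Bool → P
  vX : Bool → P
  wY : Bool → P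
  vY : Bool → P
  kC : Bool → Int
  kS : Bool → Int

/-- a covering by certified boxes -/
def Cov (cov : List (List Itm) → Bool) (rg : Rgn) (R : List P) : Prop :=
  ∃ L, cov L = true ∧ ∀ c ∈ L, ∀ b ∈ c, BoxOK rg R b

/-- all checks -/
structure Sqd.Ok (c : Sqd) : Prop where
  pDL : 0 < c.DL
  pDF : 0 < c.DF
  pkf : 0 < c.kf
  wC : ∀ σ, wfG (c.gC σ) = true
  wS : ∀ σ, wfG (c.gS σ) = true
  lenC : ∀ σ, (c.lC σ).length = 11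
  lenS : ∀ σ, (c.lS σ).length = 11
  pkC : ∀ σ, 0 ≤ c.kC σ
  pkS : ∀ σ, 0 ≤ c.kS σ
  core : ∀ σ, Cov (covR 0 1 0 1) (c.rC σ) (MCA.rA (c.kf * c.DF) c.DL (c.gC σ) (c.lC σ))
  sliv : ∀ σ, Cov (covS 0 1) (c.rS σ) (MCA.rA (c.kf * c.DF) c.DL (c.gS σ) (c.lS σ))
  axis : ∀ σ, Cov (covR 0 1 0 1) (c.rA σ) (eAY c.DL (c.gC σ) (c.gC σ) (c.wA σ))
  gam : ∀ σ, Cov (covR 0 1 0 1) (c.rG σ) (eGA c.DL (c.gC σ) (c.gS σ) (c.wG σ))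
  side : ∀ σ, Cov (covR 0 1 0 1) (c.rX σ) (eX c.DL c.kf (c.gC σ) (if σ then c.F2 else c.F1) (c.wX σ) (c.vX σ))
  curv : ∀ σ, Cov (covC 0 1) (c.rY σ) ((eC c.DL c.kf (c.gS σ) c.F2 (c.wY σ) (c.vY σ)).map M2)
  tieC : (eAX c.DL (c.gC false) (c.gC true)).all isZ = true
  tieS : (eAX c.DL (c.gS false) (c.gS true)).all isZ = true
  /-- conditions on the K gauges -/
  K1 : ∀ σ, isZ (atx1 (c.gC σ).K) = true
  K2 : ∀ σ, ∃ k : P, eqP (c.gS σ).K (pMul curP k) = true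
  K3 : ∀ σ, eqP (at1 (c.gC σ).K) (at1 (c.gS σ).K) = true
  K4 : eqP (atx0 (c.gC false).K) (atx0 (c.gC true).K) = true
  K5 : eqP (atx0 (c.gS false).K) (atx0 (c.gS true).K) = true
  /-- conditions on the null terms -/
  nA : ∀ σ, at0 (c.wA σ) = c.wA σ ∧ isZ (atx0 (c.wA σ)) = true ∧ isZ (atx1 (c.wA σ)) = true
  nG : ∀ σ, at0 (c.wG σ) = c.wG σ ∧ isZ (atx0 (c.wG σ)) = true
  nX : ∀ σ, atx0 (c.wX σ) = c.wX σ ∧ isZ (at0 (c.wX σ)) = true ∧ atx0 (c.vX σ) = c.vX σ ∧ isZ (at0 (c.vX σ)) = true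
  nY : ∀ σ, at0 (c.wY σ) = c.wY σ ∧ isZ (atx0 (c.wY σ)) = true ∧ at0 (c.vY σ) = c.vY σ ∧ isZ (atx0 (c.vY σ)) = true

/-- validity of the facts for the jet `J` in the quadrant `X, Y > 0` with the data `σ` -/
structure Sqd.Val (c : Sqd) (σ : Bool) (J : Jet) : Prop where
  C : ∀ x y : ℝ, 0 ≤ x → x ≤ 1 → 0 ≤ y → y ≤ 1 → ROK (c.rC σ) x y (sv c.DL (FdC J) x y)
  S : ∀ x y : ℝ, 0 ≤ x → x ≤ 1 → 1 ≤ y → (2 + x ^ 2) * y ^ 2 ≤ 3 → ROK (c.rS σ) x y (sv c.DL (FdS J) x y)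
  A : ∀ x : ℝ, 0 ≤ x → x ≤ 1 → ROK (c.rA σ) x 0 (sv c.DL (FdC J) x 0)
  G : ∀ x : ℝ, 0 ≤ x → x ≤ 1 → ROK (c.rG σ) x 1 (sv c.DL (FdC J) x 1)
  X : ∀ y : ℝ, 0 ≤ y → y ≤ 1 → ROK (c.rX σ) 1 y (sv c.DL (FdC J) 1 y)
  Y : ∀ x : ℝ, 0 ≤ x → x ≤ 1 → ROK (c.rY σ) x (yt x) (sv c.DL (FdS J) x (yt x))
  lC : ∀ x y : ℝ, 0 ≤ x → x ≤ 1 → 0 ≤ y → y ≤ 1 →
    1 / (c.DL * Nf y ^ 3) * lv x y (c.lC σ) (sv c.DL (FdC J) x y) ≤
      108 * (c.kf * c.DF) * ((2 - √3 * Nf y) * (AC J x y).u / Nf y) + c.kC σ * Nf y ^ 3 * mf x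
  lS : ∀ x y : ℝ, 0 ≤ x → x ≤ 1 → 1 ≤ y → (2 + x ^ 2) * y ^ 2 ≤ 3 →
    1 / (c.DL * Nf y ^ 3) * lv x y (c.lS σ) (sv c.DL (FdS J) x y) ≤
      108 * (c.kf * c.DF) * (-2 * (AS J x y).u / Nf y) + c.kS σ * Nf y ^ 3 * mf x

end Pool.Agent.MCA
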