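import Pool.Agent.MCA.ADc
import Pool.Agent.MCA.QUD
/-!
Cell A: the definitions are in ADc.lean.
-/
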