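import Pool.Agent.MCA.VCO
import Pool.Agent.MCA.VSL
/-!
VEX (200 lines). Further linear inequalities at a point of the core and of the sliver.

Notation `P = p - (x y/2) q + (x/2) u`; `cc (w A_X) = P` for `A = w u`, i.e. `w cc J_X = w cc H*_X - P`, `w J = w H* - m u`.
Core `H* = s3 w - cc/2`, `w cc H*_X = s3 x/2`. Sliver `H* = w N - w y/(2√3) - cc/2`, `w cc H*_X = x/(2N)`.

PROOF. `conX_state`: convexity of `J` in `X` (`SqHyp`, `J.fXX ≥ 0`): `J(cc η, Y) ≥ J + cc (η - x) J_X`, times `w`; the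
identity for `w J + w cc (η - x) J_X` is the one used in `VCO4.tanX_state` (`VSL`: `VS_B`). `V_21p`, `V_21m`: `η = ±1`,
`J.f(cc, Y) = cc - w c`, `J.f(-cc, Y) = cc - w d`. `V_31p`, `V_31m`: `|J_X| ≤ 1/2` (`slX`), times `w cc`.
`V_C5p`, `V_C5m`: `V_Bp` with `ξ = x`, `V_Bm` with `ξ = -x` (`√(1 + x²/2 + m y²/3) = w N`), divided by `m`.
`V_sum`: `w a ≤ b3 (cc + X)`, `w b ≤ b4 (cc + X)`, `w d ≤ b2 (cc + Y)`, `X = cc x`, `Y = w y/√3`, `Y/cc = √(2/3) w y`, so
`(cc + Y)(a + b) + cc (1 + x) d ≤ (b2 + b3 + b4) cc (1 + x) (cc + Y)/w`; divide by `cc`.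
-/
set_option autoImplicit false

open MeasureTheory Set Pool.Agent.MSQ Pool.Agent.MTR Pool.Agent.MGF

namespace Pool.Agent.MCA

variable {J : Jet} {b : ℝ}

private theorem VE_cc2 : cc ^ 2 = 1 / 2 := by
  unfold cc
  rw [div_pow, Real.sq_sqrt (by norm_num), one_pow]
private theorem VE_cc0 : 0 < cc := by unfold cc; positivity
private theorem VE_s2 : (√3 : ℝ) ^ 2 = 3 := Real.sq_sqrt (by norm_num)
private theorem VE_s0 : (0 : ℝ) < √3 := Real.sqrt_pos.mpr (by norm_num)
private theorem VE_m0 (x : ℝ) : 0 < mf x := by unfold mf; positivity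
private theorem VE_w0 (x : ℝ) : 0 < wf x := Real.sqrt_pos.mpr (VE_m0 x)
private theorem VE_w2 (x : ℝ) : wf x ^ 2 = 1 + x ^ 2 / 2 := by
  unfold wf
  rw [Real.sq_sqrt (VE_m0 x).le, mf]
private theorem VE_N0 (y : ℝ) : 0 < Nf y := Real.sqrt_pos.mpr (by positivity)
private theorem VE_N2 (y : ℝ) : Nf y ^ 2 = 1 + y ^ 2 / 3 := by
  unfold Nf
  rw [Real.sq_sqrt (by positivity)]

/-- the states of `J` -/
private theorem VE_ch (J : Jet) (x y η : ℝ) :
    (1 + x * η / 2) * (ch J x y).u + (η - x) * (ch J x y).p - (η - x) * (x * y / 2) * (ch J x y).q =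
      wf x * (J.f (cc * x, wf x * y / √3) + J.fX (cc * x, wf x * y / √3) * (cc * η - cc * x)) := by
  have c2 := VE_cc2
  have hw := VE_w0 x
  have hw2 := VE_w2 x
  simp only [ch]
  generalize J.f (cc * x, wf x * y / √3) = a0
  generalize J.fX (cc * x, wf x * y / √3) = a1
  generalize J.fY (cc * x, wf x * y / √3) = a2
  have k1 : (η - x) * (cc * (wf x * a1 + cc * x * y * a2 / √3 - cc * x * a0 / wf x)) =
      (η - x) * cc * wf x * a1 + cc ^ 2 * ((η - x) * x * y * (a2 / √3)) -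
        cc ^ 2 * ((η - x) * x * (a0 / wf x)) := by ring
  have k2 : wf x * a0 = wf x ^ 2 * (a0 / wf x) := by field_simp
  rw [k1, c2, mul_add, k2, hw2]
  ring

/-- the states of the reference function of the core -/
private theorem VE_stC (x y η : ℝ) :
    (1 + x * η / 2) * (starC x y).u + (η - x) * (starC x y).p - (η - x) * (x * y / 2) * (starC x y).q =
      s3 * (1 + x * η / 2) - cc * wf x / 2 := by
  have hw := VE_w0 x
  have hw2 := VE_w2 x
  simp only [starC]
  have k1 : cc * wf x / 2 = wf x ^ 2 * (cc / (2 * wf x)) := by field_simp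
  have k2 : cc * x / (4 * wf x) = x / 2 * (cc / (2 * wf x)) := by field_simp; norm_num
  rw [k1, k2, hw2]
  ring

/-- the states of the reference function of the sliver -/
private theorem VE_stS (x y η : ℝ) :
    (1 + x * η / 2) * (starS x y).u + (η - x) * (starS x y).p - (η - x) * (x * y / 2) * (starS x y).q =
      mf x * Nf y - mf x * y / (2 * √3) + (η - x) * x / (2 * Nf y) - cc * wf x / 2 := by
  have hw := VE_w0 x
  have hw2 := VE_w2 x
  have hN := VE_N0 y
  have hN2 := VE_N2 y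
  have hs := VE_s0
  simp only [starS]
  have k1 : cc * wf x / 2 = wf x ^ 2 * (cc / (2 * wf x)) := by field_simp
  have k2 : cc * x / (4 * wf x) = x / 2 * (cc / (2 * wf x)) := by field_simp; norm_num
  have k3 : (η - x) * (x * y / 2) * (y / (3 * Nf y) - 1 / (2 * √3)) =
      (η - x) * x / 2 * ((y ^ 2 / 3) / Nf y) - (η - x) * x / 2 * (y / (2 * √3)) := by
    field_simp
  have k4 : (y ^ 2 / 3) / Nf y = Nf y - 1 / Nf y := by
    have : y ^ 2 / 3 = Nf y ^ 2 - 1 := by rw [hN2]; ring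
    rw [this]
    field_simp
  have k5 : (η - x) * x / (2 * Nf y) = (η - x) * x / 2 * (1 / Nf y) := by field_simp
  have k6 : mf x * y / (2 * √3) = mf x * (y / (2 * √3)) := by ring
  rw [k1, k2, k3, k4, k5, k6, hw2, mf]
  ring

private theorem VE_con {J : Jet} {b : ℝ} (h : SqHyp J b) (x y η B : ℝ)
    (hB : J.f (cc * η, wf x * y / √3) ≤ B) :
    wf x * (J.f (cc * x, wf x * y / √3) + J.fX (cc * x, wf x * y / √3) * (cc * η - cc * x)) ≤ wf x * B :=
  mul_le_mul_of_nonneg_left (((cvX_sq h (wf x * y / √3)).1 (cc * x) (cc * η)).trans hB) (VE_w0 x).le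

private theorem VE_PC (J : Jet) (x y : ℝ) : (AC J x y).p - x * y / 2 * (AC J x y).q + x / 2 * (AC J x y).u =
    s3 * x / 2 - cc * wf x * J.fX (cc * x, wf x * y / √3) := by
  have f1 : (AC J x y).u = (starC x y).u - (ch J x y).u := rfl
  have f2 : (AC J x y).q = (starC x y).q - (ch J x y).q := rfl
  have f3 : (AC J x y).p = (starC x y).p - (ch J x y).p := rfl
  have g1 := VE_ch J x y (x + 1)
  have g2 := VE_stC x y (x + 1)
  have g3 := VE_ch J x y x
  have g4 := VE_stC x y x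
  rw [f1, f2, f3]
  linarith

private theorem VE_PS (J : Jet) (x y : ℝ) : (AS J x y).p - x * y / 2 * (AS J x y).q + x / 2 * (AS J x y).u =
    x / (2 * Nf y) - cc * wf x * J.fX (cc * x, wf x * y / √3) := by
  have f1 : (AS J x y).u = (starS x y).u - (ch J x y).u := rfl
  have f2 : (AS J x y).q = (starS x y).q - (ch J x y).q := rfl
  have f3 : (AS J x y).p = (starS x y).p - (ch J x y).p := rfl
  have g1 := VE_ch J x y (x + 1)
  have g2 := VE_stS x y (x + 1)
  have g3 := VE_ch J x y x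
  have g4 := VE_stS x y x
  have e1 : (x + 1 - x) * x / (2 * Nf y) = x / (2 * Nf y) := by ring
  have e2 : (x - x) * x / (2 * Nf y) = 0 := by ring
  rw [e1] at g2
  rw [e2] at g4
  rw [f1, f2, f3]
  linarith

private theorem VE_root (x y : ℝ) : wf x * √(1 + x ^ 2 / 2 + mf x * y ^ 2 / 3) = mf x * Nf y := by
  have hw := VE_w0 x
  have hm : mf x = wf x ^ 2 := by rw [VE_w2, mf]
  have e : √(1 + x ^ 2 / 2 + mf x * y ^ 2 / 3) = wf x * Nf y := by
    have : 1 + x ^ 2 / 2 + mf x * y ^ 2 / 3 = mf x * (1 + y ^ 2 / 3) := by rw [mf]; ring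
    rw [this, Real.sqrt_mul (VE_m0 x).le]
    rfl
  rw [e]
  rw [hm]
  ring

theorem conX_state (h : SqHyp J b) (x y η B : ℝ) (hB : J.f (cc * η, wf x * y / √3) ≤ B) :
    0 ≤ wf x * B + cc * wf x / 2 - s3 * (1 + x * η / 2) + (1 + x * η / 2) * (AC J x y).u +
      (η - x) * ((AC J x y).p - x * y / 2 * (AC J x y).q) := by
  have t1 := VE_con h x y η B hB
  have g1 := VE_ch J x y η
  have g2 := VE_stC x y η
  have f1 : (AC J x y).u = (starC x y).u - (ch J x y).u := rfl
  have f2 : (AC J x y).q = (starC x y).q - (ch J x y).q := rfl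
  have f3 : (AC J x y).p = (starC x y).p - (ch J x y).p := rfl
  rw [f1, f2, f3]
  linarith

theorem conX_stateS (h : SqHyp J b) (x y η B : ℝ) (hB : J.f (cc * η, wf x * y / √3) ≤ B) :
    0 ≤ wf x * B + cc * wf x / 2 - mf x * Nf y + mf x * y / (2 * √3) - (η - x) * x / (2 * Nf y) +
      (1 + x * η / 2) * (AS J x y).u + (η - x) * ((AS J x y).p - x * y / 2 * (AS J x y).q) := by
  have t1 := VE_con h x y η B hB
  have g1 := VE_ch J x y η
  have g2 := VE_stS x y η
  have f1 : (AS J x y).u = (starS x y).u - (ch J x y).u := rfl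
  have f2 : (AS J x y).q = (starS x y).q - (ch J x y).q := rfl
  have f3 : (AS J x y).p = (starS x y).p - (ch J x y).p := rfl
  rw [f1, f2, f3]
  linarith

theorem V_21p (h : SqHyp J b) (x y : ℝ) : 0 ≤ 3 / 2 * cc * wf x - s3 * (1 + x / 2) + mf x * (AC J x y).u +
    (1 - x) * ((AC J x y).p - x * y / 2 * (AC J x y).q + x / 2 * (AC J x y).u) - mf x * (FdC J).c x y := by
  have key := conX_state h x y 1 (J.f (cc, wf x * y / √3)) (by rw [mul_one])
  have hw := VE_w0 x
  have hm : mf x = wf x ^ 2 := by rw [VE_w2, mf]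
  have e : mf x * (FdC J).c x y = wf x * (cc - J.f (cc, wf x * y / √3)) := by
    have : (FdC J).c x y = (cc - J.f (cc, wf x * y / √3)) / wf x := rfl
    rw [this, hm]
    field_simp
  rw [e, mf]
  linarith

theorem V_21m (h : SqHyp J b) (x y : ℝ) : 0 ≤ 3 / 2 * cc * wf x - s3 * (1 - x / 2) + mf x * (AC J x y).u -
    (1 + x) * ((AC J x y).p - x * y / 2 * (AC J x y).q + x / 2 * (AC J x y).u) - mf x * (FdC J).d x y := by
  have key := conX_state h x y (-1) (J.f (-cc, wf x * y / √3)) (by rw [mul_neg_one])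
  have hw := VE_w0 x
  have hm : mf x = wf x ^ 2 := by rw [VE_w2, mf]
  have e : mf x * (FdC J).d x y = wf x * (cc - J.f (-cc, wf x * y / √3)) := by
    have : (FdC J).d x y = (cc - J.f (-cc, wf x * y / √3)) / wf x := rfl
    rw [this, hm]
    field_simp
  rw [e, mf]
  linarith

theorem V_31p (h : SqHyp J b) (x y : ℝ) :
    0 ≤ cc * wf x / 2 - s3 * x / 2 + ((AC J x y).p - x * y / 2 * (AC J x y).q + x / 2 * (AC J x y).u) := by
  rw [VE_PC]
  have h1 := (abs_le.1 (h.slX (cc * x, wf x * y / √3))).2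
  have h2 := mul_le_mul_of_nonneg_left h1 (mul_pos VE_cc0 (VE_w0 x)).le
  linarith

theorem V_31m (h : SqHyp J b) (x y : ℝ) :
    0 ≤ cc * wf x / 2 + s3 * x / 2 - ((AC J x y).p - x * y / 2 * (AC J x y).q + x / 2 * (AC J x y).u) := by
  rw [VE_PC]
  have h1 := (abs_le.1 (h.slX (cc * x, wf x * y / √3))).1
  have h2 := mul_le_mul_of_nonneg_left h1 (mul_pos VE_cc0 (VE_w0 x)).le
  linarith

theorem V_C5p (h : SqHyp J b) (x y : ℝ) (hx : 0 ≤ x) (hx1 : x ≤ 1) (hy : 0 ≤ y) (hy1 : y ≤ 1) :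
    0 ≤ s3 - (1 + x / 2) * cc / wf x - (AC J x y).u + (FdC J).c x y := by
  have key := V_Bp h x y x hx hx1 hy hy1 (by linarith) hx1
  unfold kB at key
  rw [VE_root] at key
  refine nonneg_of_mul_nonneg_right (a := mf x) ?_ (VE_m0 x)
  have hw := VE_w0 x
  have hm : mf x = wf x ^ 2 := by rw [VE_w2, mf]
  have e1 : mf x * ((1 + x / 2) * cc / wf x) = (1 + x / 2) * cc * wf x := by
    rw [hm]
    field_simp
  have e2 : mf x * (s3 - (1 + x / 2) * cc / wf x - (AC J x y).u + (FdC J).c x y) =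
      mf x * s3 - mf x * ((1 + x / 2) * cc / wf x) - mf x * (AC J x y).u + mf x * (FdC J).c x y := by ring
  rw [e2, e1]
  have e3 : (1 + x * x / 2) * (AC J x y).u = mf x * (AC J x y).u := by rw [mf]; ring
  rw [e3] at key
  linarith

theorem V_C5m (h : SqHyp J b) (x y : ℝ) (hx : 0 ≤ x) (hx1 : x ≤ 1) (hy : 0 ≤ y) (hy1 : y ≤ 1) :
    0 ≤ s3 - (1 - x / 2) * cc / wf x - (AC J x y).u + (FdC J).d x y := by
  have key := V_Bm h x y (-x) hx hx1 hy hy1 (by linarith) (by linarith)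
  unfold kBm at key
  rw [neg_sq, VE_root] at key
  refine nonneg_of_mul_nonneg_right (a := mf x) ?_ (VE_m0 x)
  have hw := VE_w0 x
  have hm : mf x = wf x ^ 2 := by rw [VE_w2, mf]
  have e1 : mf x * ((1 - x / 2) * cc / wf x) = (1 - x / 2) * cc * wf x := by
    rw [hm]
    field_simp
  have e2 : mf x * (s3 - (1 - x / 2) * cc / wf x - (AC J x y).u + (FdC J).d x y) =
      mf x * s3 - mf x * ((1 - x / 2) * cc / wf x) - mf x * (AC J x y).u + mf x * (FdC J).d x y := by ring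
  rw [e2, e1]
  have e3 : (1 - x * -x / 2) * (AC J x y).u = mf x * (AC J x y).u := by rw [mf]; ring
  rw [e3] at key
  linarith

theorem V_s21p (h : SqHyp J b) (x y : ℝ) : 0 ≤ 3 / 2 * cc * wf x - mf x * Nf y + mf x * y / (2 * √3) -
    (1 - x) * x / (2 * Nf y) + mf x * (AS J x y).u +
    (1 - x) * ((AS J x y).p - x * y / 2 * (AS J x y).q + x / 2 * (AS J x y).u) - mf x * (FdS J).c x y := by
  have key := conX_stateS h x y 1 (J.f (cc, wf x * y / √3)) (by rw [mul_one])
  have hw := VE_w0 x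
  have hm : mf x = wf x ^ 2 := by rw [VE_w2, mf]
  have e : mf x * (FdS J).c x y = wf x * (cc - J.f (cc, wf x * y / √3)) := by
    have : (FdS J).c x y = (cc - J.f (cc, wf x * y / √3)) / wf x := rfl
    rw [this, hm]
    field_simp
  have e2 : mf x * (AS J x y).u = (1 + x ^ 2 / 2) * (AS J x y).u := by rw [mf]
  rw [e, e2]
  linarith

theorem V_s21m (h : SqHyp J b) (x y : ℝ) : 0 ≤ 3 / 2 * cc * wf x - mf x * Nf y + mf x * y / (2 * √3) +
    (1 + x) * x / (2 * Nf y) + mf x * (AS J x y).u -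
    (1 + x) * ((AS J x y).p - x * y / 2 * (AS J x y).q + x / 2 * (AS J x y).u) - mf x * (FdS J).d x y := by
  have key := conX_stateS h x y (-1) (J.f (-cc, wf x * y / √3)) (by rw [mul_neg_one])
  have hw := VE_w0 x
  have hm : mf x = wf x ^ 2 := by rw [VE_w2, mf]
  have e : mf x * (FdS J).d x y = wf x * (cc - J.f (-cc, wf x * y / √3)) := by
    have : (FdS J).d x y = (cc - J.f (-cc, wf x * y / √3)) / wf x := rfl
    rw [this, hm]
    field_simp
  have e2 : mf x * (AS J x y).u = (1 + x ^ 2 / 2) * (AS J x y).u := by rw [mf]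
  have e3 : (-1 - x) * x / (2 * Nf y) = -((1 + x) * x / (2 * Nf y)) := by ring
  rw [e3] at key
  rw [e, e2]
  linarith

theorem V_s31p (h : SqHyp J b) (x y : ℝ) :
    0 ≤ cc * wf x / 2 - x / (2 * Nf y) + ((AS J x y).p - x * y / 2 * (AS J x y).q + x / 2 * (AS J x y).u) := by
  rw [VE_PS]
  have h1 := (abs_le.1 (h.slX (cc * x, wf x * y / √3))).2
  have h2 := mul_le_mul_of_nonneg_left h1 (mul_pos VE_cc0 (VE_w0 x)).le
  linarith

theorem V_s31m (h : SqHyp J b) (x y : ℝ) :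
    0 ≤ cc * wf x / 2 + x / (2 * Nf y) - ((AS J x y).p - x * y / 2 * (AS J x y).q + x / 2 * (AS J x y).u) := by
  rw [VE_PS]
  have h1 := (abs_le.1 (h.slX (cc * x, wf x * y / √3))).1
  have h2 := mul_le_mul_of_nonneg_left h1 (mul_pos VE_cc0 (VE_w0 x)).le
  linarith

theorem V_sC5p (h : SqHyp J b) (x y : ℝ) (hx : 0 ≤ x) (hx1 : x ≤ 1) (hy : 1 ≤ y) (hc : (2 + x ^ 2) * y ^ 2 ≤ 3) :
    0 ≤ Nf y - y / (2 * √3) - (1 + x / 2) * cc / wf x - (AS J x y).u + (FdS J).c x y := by
  have key := V_sBp h x y x hx hx1 hy hc (by linarith) hx1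
  unfold kS at key
  rw [VE_root] at key
  refine nonneg_of_mul_nonneg_right (a := mf x) ?_ (VE_m0 x)
  have hw := VE_w0 x
  have hm : mf x = wf x ^ 2 := by rw [VE_w2, mf]
  have e1 : mf x * ((1 + x / 2) * cc / wf x) = (1 + x / 2) * cc * wf x := by
    rw [hm]
    field_simp
  have e2 : mf x * (Nf y - y / (2 * √3) - (1 + x / 2) * cc / wf x - (AS J x y).u + (FdS J).c x y) =
      mf x * Nf y - mf x * y / (2 * √3) - mf x * ((1 + x / 2) * cc / wf x) - mf x * (AS J x y).u +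
        mf x * (FdS J).c x y := by ring
  rw [e2, e1]
  have e3 : (1 + x * x / 2) * (AS J x y).u = mf x * (AS J x y).u := by rw [mf]; ring
  rw [e3] at key
  linarith

theorem V_sC5m (h : SqHyp J b) (x y : ℝ) (hx : 0 ≤ x) (hx1 : x ≤ 1) (hy : 1 ≤ y) (hc : (2 + x ^ 2) * y ^ 2 ≤ 3) :
    0 ≤ Nf y - y / (2 * √3) - (1 - x / 2) * cc / wf x - (AS J x y).u + (FdS J).d x y := by
  have key := V_sBm h x y (-x) hx hx1 hy hc (by linarith) (by linarith)
  unfold kS at key
  rw [neg_sq, VE_root] at key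
  refine nonneg_of_mul_nonneg_right (a := mf x) ?_ (VE_m0 x)
  have hw := VE_w0 x
  have hm : mf x = wf x ^ 2 := by rw [VE_w2, mf]
  have e1 : mf x * ((1 - x / 2) * cc / wf x) = (1 - x / 2) * cc * wf x := by
    rw [hm]
    field_simp
  have e2 : mf x * (Nf y - y / (2 * √3) - (1 - x / 2) * cc / wf x - (AS J x y).u + (FdS J).d x y) =
      mf x * Nf y - mf x * y / (2 * √3) - mf x * ((1 - x / 2) * cc / wf x) - mf x * (AS J x y).u +
        mf x * (FdS J).d x y := by ring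
  rw [e2, e1]
  have e3 : (1 - x * -x / 2) * (AS J x y).u = mf x * (AS J x y).u := by rw [mf]; ring
  rw [e3] at key
  linarith

theorem V_sum (J : Jet) (b2 b3 b4 s x y : ℝ) (hx : 0 ≤ x) (hy : 0 ≤ y) (hs : b2 + b3 + b4 ≤ s)
    (ha : etp J (cc * x) ≤ b3 * (cc + |cc * x|)) (hb : etm J (cc * x) ≤ b4 * (cc + |cc * x|))
    (hd : zem J (wf x * y / √3) ≤ b2 * (cc + |wf x * y / √3|)) :
    0 ≤ s * (1 + x) * (cc + wf x * y / √3) / wf x - (1 + √(2 / 3) * wf x * y) * ((FdC J).a x + (FdC J).b x) -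
      (1 + x) * (FdC J).d x y := by
  have c0 := VE_cc0
  have hw := VE_w0 x
  have hs3 := VE_s0
  have hY : 0 ≤ wf x * y / √3 := by positivity
  rw [abs_of_nonneg (by positivity : (0 : ℝ) ≤ cc * x)] at ha hb
  rw [abs_of_nonneg hY] at hd
  have e0 : √(2 / 3) * wf x * y = wf x * y / √3 / cc := by
    have h1 : √(2 / 3 : ℝ) = √2 / √3 := by
      rw [Real.sqrt_div (by norm_num)]
    have h2 : (0 : ℝ) < √2 := Real.sqrt_pos.mpr (by norm_num)
    rw [h1]
    unfold cc
    field_simp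
  have e1 : (FdC J).a x = etp J (cc * x) / wf x := rfl
  have e2 : (FdC J).b x = etm J (cc * x) / wf x := rfl
  have e3 : (FdC J).d x y = zem J (wf x * y / √3) / wf x := rfl
  rw [e0, e1, e2, e3]
  set Y := wf x * y / √3 with hYd
  have key : (1 + Y / cc) * (etp J (cc * x) + etm J (cc * x)) + (1 + x) * zem J Y ≤ s * (1 + x) * (cc + Y) := by
    have k1 : (1 + Y / cc) * (etp J (cc * x) + etm J (cc * x)) ≤
        (1 + Y / cc) * (b3 * (cc + cc * x) + b4 * (cc + cc * x)) :=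
      mul_le_mul_of_nonneg_left (by linarith) (by positivity)
    have k2 : (1 + Y / cc) * (b3 * (cc + cc * x) + b4 * (cc + cc * x)) = (b3 + b4) * (1 + x) * (cc + Y) := by
      field_simp
    have k3 : (1 + x) * zem J Y ≤ (1 + x) * (b2 * (cc + Y)) := mul_le_mul_of_nonneg_left hd (by linarith)
    have k4 : (b2 + b3 + b4) * ((1 + x) * (cc + Y)) ≤ s * ((1 + x) * (cc + Y)) :=
      mul_le_mul_of_nonneg_right hs (by positivity)
    rw [k2] at k1
    linarith
  have e4 : s * (1 + x) * (cc + Y) / wf x - (1 + Y / cc) * (etp J (cc * x) / wf x + etm J (cc * x) / wf x) -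
      (1 + x) * (zem J Y / wf x) = (s * (1 + x) * (cc + Y) - ((1 + Y / cc) * (etp J (cc * x) + etm J (cc * x)) +
        (1 + x) * zem J Y)) / wf x := by
    ring
  rw [e4]
  exact div_nonneg (by linarith) hw.le

end Pool.Agent.MCA
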