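import Pool.Agent.MCA.ACN
import Pool.Agent.MCA.ACS
import Pool.Agent.MCA.VEX
import Pool.Agent.MSQ.EvA
/-!
AVL (250 lines, may be split). Validity of the facts of cell A.

PROOF. `s = sv aDL F x y = [1/(DL N³), u, q, p, a, b, c, d, μ, ν, κ]`; `lv` of a form `lF ..` is the sum of `ev` of the
coefficient times the state (`simp [lv, lF, evE, dotL, sv]`). `ROK.f`: one lemma per form: core `V_ap, V_am` (VCO5),
`20 V_Bp, 20 V_Bm` (`ξ = 9/10`) with `kB ≤ aBp/(DL N³)` (`aBp_ok`), `2 V_br` (`b = 3/1000`, `abr_ok`), loads `V_l0`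
(`wf x * y / √3 ≤ cc` for `x, y ∈ [0,1]`), upper bounds `V_la .. V_ld` with `b' = 3/1000` (hypotheses of `V_la` from
`SqHyp.ldX, ldY`), `V_mu`, `V_MH`; matrices `V_MH` (multiplied by `2`, `aC2_ok` enlarges `m22`), `V_ML` (`2/(3N³) = (2DL/3) s0`,
`aC1r_ok` enlarges `m22`). When `m22` is enlarged: `m12² ≤ m11 m22` stays true as `m11 ≥ 0`.
Sliver: `V_f1`, `DL V_f2` with `η = ayh/DL` (`ayh_ok`), `V_q` (`q ≤ 0`), `V_sBp, V_sBm`, loads, `V_KA`, `V_sMH`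
(`2/(3N³) = (2DL/3) s0`, `1/N = (DL/3)(3+y²) s0`). Edges: `y = 0`, `x = 1` are core points; at `x = 1`: `u = c`, `a = b = 0`
(`H* = J` comparison, `cor`); at `y = 1` the core fields are the sliver fields in `u, q, p` (`MSQ.EvA`/`FdC_G` of the framework);
curve: `u + a = 0`, `c = d = 0` (`cor`), `(2 + x²) yt² = 3`, so `curF k` vanishes; tangents `2 V_Tp, 2 V_Tm`.
`alC`: with `θ = Thi - DL √3 N ∈ [0,5]`: right side minus left side `= 108 D/(DL N) (θ u + (5/2)((1+y) a + (1-y) b))`, `D = 12·10⁶`, and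
`2u + (1+y) a + (1-y) b = (1+y) ap + (1-y) am ≥ 0`, `a, b ≥ 0`. `alS`: equality.
-/
set_option autoImplicit false

namespace Pool.Agent.MCA
open Pool.Agent.MSQ Pool.Agent.MTR Pool.Agent.MGF

variable {J : Jet}

section

/-! ### values of the forms -/

private theorem avl_lF (x y : ℝ) (t u q p a b c d mu nu ka : P) (F : Fd) :
    lv x y (lF t u q p a b c d mu nu ka) (sv aDL F x y) =
      ev x y t * (1 / (4782969 * Nf y ^ 3)) + ev x y u * (F.S x y).u + ev x y q * (F.S x y).q + ev x y p * (F.S x y).p +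
      ev x y a * F.a x + ev x y b * F.b x + ev x y c * F.c x y + ev x y d * F.d x y + ev x y mu * (F.S x y).mu +
      ev x y nu * (F.S x y).nu + ev x y ka * (F.S x y).ka := by
  have h : ((aDL : Int) : ℝ) = 4782969 := by norm_num [aDL]
  simp only [lv, lF, evE, sv, dotL, List.map_cons, List.map_nil, h]
  ring

private theorem avl_up {N E k : ℝ} (hN : 0 < N) (h : 4782969 * N ^ 3 * k ≤ E) : k ≤ E * (1 / (4782969 * N ^ 3)) := by
  rw [mul_one_div, le_div_iff₀ (by positivity)]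
  linarith

private theorem avl_N0 (y : ℝ) : 0 < Nf y := Real.sqrt_pos.mpr (by positivity)
private theorem avl_N2 (y : ℝ) : Nf y ^ 2 = 1 + y ^ 2 / 3 := by
  unfold Nf
  exact Real.sq_sqrt (by positivity)
private theorem avl_m0 (x : ℝ) : 0 < mf x := by unfold mf; positivity
private theorem avl_w0 (x : ℝ) : 0 < wf x := Real.sqrt_pos.mpr (avl_m0 x)
private theorem avl_w2 (x : ℝ) : wf x ^ 2 = 1 + x ^ 2 / 2 := by
  unfold wf
  exact Real.sq_sqrt (avl_m0 x).le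
private theorem avl_30 : (0 : ℝ) < √3 := Real.sqrt_pos.mpr (by norm_num)
private theorem avl_32 : (√3 : ℝ) ^ 2 = 3 := Real.sq_sqrt (by norm_num)
private theorem avl_c0 : 0 < cc := by unfold cc; positivity
private theorem avl_c2 : cc ^ 2 = 1 / 2 := by
  unfold cc
  rw [div_pow, Real.sq_sqrt (by norm_num)]
  norm_num

variable (x y : ℝ) (F : Fd)

private theorem avl_ap : lv x y aap (sv aDL F x y) = (F.S x y).u + (1 - y) * (F.S x y).q + F.a x := by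
  unfold aap
  rw [avl_lF]
  simp only [ev, evL]
  push_cast
  ring
private theorem avl_am : lv x y aam (sv aDL F x y) = (F.S x y).u - (1 + y) * (F.S x y).q + F.b x := by
  unfold aam
  rw [avl_lF]
  simp only [ev, evL]
  push_cast
  ring
private theorem avl_fBp : lv x y afBp (sv aDL F x y) = 20 * (ev x y aBp * (1 / (4782969 * Nf y ^ 3))) - (20 + 9 * x) * (F.S x y).u +
    x * y * (9 - 10 * x) * (F.S x y).q - (18 - 20 * x) * (F.S x y).p + (20 + 10 * x ^ 2) * F.c x y := by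
  unfold afBp
  rw [avl_lF, ev_pSm]
  simp [ev, evL]
  ring
private theorem avl_fBm : lv x y afBm (sv aDL F x y) = 20 * (ev x y aBm * (1 / (4782969 * Nf y ^ 3))) - (20 - 9 * x) * (F.S x y).u -
    x * y * (9 + 10 * x) * (F.S x y).q + (18 + 20 * x) * (F.S x y).p + (20 + 10 * x ^ 2) * F.d x y := by
  unfold afBm
  rw [avl_lF, ev_pSm]
  simp [ev, evL]
  ring
private theorem avl_fbr : lv x y afbr (sv aDL F x y) = 2 * (ev x y abr * (1 / (4782969 * Nf y ^ 3))) - 2 * (F.S x y).u -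
    x ^ 2 * y * (F.S x y).q + 2 * x * (F.S x y).p := by
  unfold afbr
  rw [avl_lF, ev_pSm]
  simp [ev, evL]
  ring
private theorem avl_fs0 : lv x y afs0 (sv aDL F x y) = 1 / (4782969 * Nf y ^ 3) := by
  unfold afs0
  rw [avl_lF]
  simp [ev, evL]
private theorem avl_la : lv x y ala (sv aDL F x y) = F.a x := by
  unfold ala
  rw [avl_lF]
  simp [ev, evL]
private theorem avl_lb : lv x y alb (sv aDL F x y) = F.b x := by
  unfold alb
  rw [avl_lF]
  simp [ev, evL]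
private theorem avl_lc : lv x y alc (sv aDL F x y) = F.c x y := by
  unfold alc
  rw [avl_lF]
  simp [ev, evL]
private theorem avl_ld : lv x y ald (sv aDL F x y) = F.d x y := by
  unfold ald
  rw [avl_lF]
  simp [ev, evL]
private theorem avl_foa : lv x y afoa (sv aDL F x y) = ev x y aoa * (1 / (4782969 * Nf y ^ 3)) - F.a x := by
  unfold afoa
  rw [avl_lF]
  simp [ev, evL]
  ring
private theorem avl_fob : lv x y afob (sv aDL F x y) = ev x y aoa * (1 / (4782969 * Nf y ^ 3)) - F.b x := by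
  unfold afob
  rw [avl_lF]
  simp [ev, evL]
  ring
private theorem avl_foc : lv x y afoc (sv aDL F x y) = ev x y aoc * (1 / (4782969 * Nf y ^ 3)) - F.c x y := by
  unfold afoc
  rw [avl_lF]
  simp [ev, evL]
  ring
private theorem avl_fod : lv x y afod (sv aDL F x y) = ev x y aoc * (1 / (4782969 * Nf y ^ 3)) - F.d x y := by
  unfold afod
  rw [avl_lF]
  simp [ev, evL]
  ring
private theorem avl_fal : lv x y afal (sv aDL F x y) = -(F.S x y).mu := by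
  unfold afal
  rw [avl_lF]
  simp [ev, evL]
private theorem avl_fhk : lv x y afhk (sv aDL F x y) = ev x y aC2 * (1 / (4782969 * Nf y ^ 3)) - (F.S x y).ka := by
  unfold afhk
  rw [avl_lF]
  simp [ev, evL]
  ring
private theorem avl_MH1 : lv x y aMH.m11 (sv aDL F x y) = -2 * (F.S x y).mu := by
  unfold aMH
  rw [avl_lF]
  simp [ev, evL]
private theorem avl_MH2 : lv x y aMH.m12 (sv aDL F x y) = -2 * (F.S x y).nu := by
  unfold aMH
  rw [avl_lF]
  simp [ev, evL]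
private theorem avl_ML1 : lv x y aML.m11 (sv aDL F x y) = 2 * (F.S x y).mu + 2 / (3 * Nf y ^ 3) := by
  have hN := avl_N0 y
  unfold aML
  rw [avl_lF]
  simp [ev, evL]
  field_simp
  ring
private theorem avl_ML2 : lv x y aML.m12 (sv aDL F x y) = 2 * (F.S x y).nu := by
  unfold aML
  rw [avl_lF]
  simp [ev, evL]
private theorem avl_ML3 : lv x y aML.m22 (sv aDL F x y) =
    (1 - y) * ev x y aC1r * (1 / (4782969 * Nf y ^ 3)) + (F.S x y).ka := by
  unfold aML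
  rw [avl_lF, ev_pMul]
  simp only [ev, evL]
  push_cast
  ring
private theorem avl_sf1 : lv x y asf1 (sv aDL F x y) = (F.S x y).u + F.a x := by
  unfold asf1
  rw [avl_lF]
  simp [ev, evL]
private theorem avl_sf2 : lv x y asf2 (sv aDL F x y) = -4782969 * (F.S x y).u + (4782969 * y - ev x y ayh) * (F.S x y).q -
    4782969 * F.a x := by
  unfold asf2
  rw [avl_lF, ev_pAdd, ev_pSm]
  simp [ev, evL]
  ring
private theorem avl_snq : lv x y asnq (sv aDL F x y) = -(F.S x y).q := by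
  unfold asnq
  rw [avl_lF]
  simp [ev, evL]
private theorem avl_sBp : lv x y asBp (sv aDL F x y) = 20 * (ev x y asB * (1 / (4782969 * Nf y ^ 3))) - (20 + 9 * x) * (F.S x y).u +
    x * y * (9 - 10 * x) * (F.S x y).q - (18 - 20 * x) * (F.S x y).p + (20 + 10 * x ^ 2) * F.c x y := by
  unfold asBp
  rw [avl_lF, ev_pSm]
  simp [ev, evL]
  ring
private theorem avl_sBm : lv x y asBm (sv aDL F x y) = 20 * (ev x y asB * (1 / (4782969 * Nf y ^ 3))) - (20 - 9 * x) * (F.S x y).u -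
    x * y * (9 + 10 * x) * (F.S x y).q + (18 + 20 * x) * (F.S x y).p + (20 + 10 * x ^ 2) * F.d x y := by
  unfold asBm
  rw [avl_lF, ev_pSm]
  simp [ev, evL]
  ring
private theorem avl_soA : lv x y asoA (sv aDL F x y) = ev x y asoa * (1 / (4782969 * Nf y ^ 3)) - F.a x := by
  unfold asoA
  rw [avl_lF]
  simp [ev, evL]
  ring
private theorem avl_soB : lv x y asoB (sv aDL F x y) = ev x y asoa * (1 / (4782969 * Nf y ^ 3)) - F.b x := by
  unfold asoB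
  rw [avl_lF]
  simp [ev, evL]
  ring
private theorem avl_soC : lv x y asoC (sv aDL F x y) = ev x y asoc * (1 / (4782969 * Nf y ^ 3)) - F.c x y := by
  unfold asoC
  rw [avl_lF]
  simp [ev, evL]
  ring
private theorem avl_soD : lv x y asoD (sv aDL F x y) = ev x y asoc * (1 / (4782969 * Nf y ^ 3)) - F.d x y := by
  unfold asoD
  rw [avl_lF]
  simp [ev, evL]
  ring
private theorem avl_KA1 : lv x y aKA.m11 (sv aDL F x y) = 2 * (F.S x y).mu := by
  unfold aKA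
  rw [avl_lF]
  simp [ev, evL]
private theorem avl_KA2 : lv x y aKA.m12 (sv aDL F x y) = 2 * (F.S x y).nu := by
  unfold aKA
  rw [avl_lF]
  simp [ev, evL]
private theorem avl_KA3 : lv x y aKA.m22 (sv aDL F x y) = (F.S x y).ka := by
  unfold aKA
  rw [avl_lF]
  simp [ev, evL]
private theorem avl_sMH1 : lv x y asMH.m11 (sv aDL F x y) = 2 / (3 * Nf y ^ 3) - 2 * (F.S x y).mu := by
  have hN := avl_N0 y
  unfold asMH
  rw [avl_lF]
  simp [ev, evL]
  field_simp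
  ring
private theorem avl_sMH2 : lv x y asMH.m12 (sv aDL F x y) = -2 * (F.S x y).nu := by
  unfold asMH
  rw [avl_lF]
  simp [ev, evL]
private theorem avl_sMH3 : lv x y asMH.m22 (sv aDL F x y) = 1 / Nf y - (F.S x y).ka := by
  have hN := avl_N0 y
  have hN2 := avl_N2 y
  unfold asMH
  rw [avl_lF]
  have e : ev x y [[4782969, 0, 1594323]] * (1 / (4782969 * Nf y ^ 3)) = 1 / Nf y := by
    have e1 : ev x y [[4782969, 0, 1594323]] = 4782969 * Nf y ^ 2 := by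
      rw [hN2]
      simp [ev, evL]
      ring
    rw [e1]
    field_simp
  rw [e]
  simp [ev, evL]
  ring
private theorem avl_Tp : lv x y aTp (sv aDL F x y) = 2 * ((1 + x / 2) * F.a x - (1 - x) * ((F.S x y).p - x * y / 2 * (F.S x y).q)) := by
  unfold aTp
  rw [avl_lF]
  simp [ev, evL]
  ring
private theorem avl_Tm : lv x y aTm (sv aDL F x y) = 2 * ((1 - x / 2) * F.a x + (1 + x) * ((F.S x y).p - x * y / 2 * (F.S x y).q)) := by
  unfold aTm
  rw [avl_lF]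
  simp [ev, evL]
  ring

/-! ### loads -/

variable {x y F}

private theorem avl_ax (hx : 0 ≤ x) (hx1 : x ≤ 1) : |cc * x| ≤ cc := by
  rw [abs_of_nonneg (mul_nonneg avl_c0.le hx)]
  nlinarith [avl_c0]
private theorem avl_Yc (hx : 0 ≤ x) (hy : 0 ≤ y) (hc : (2 + x ^ 2) * y ^ 2 ≤ 3) : wf x * y / √3 ≤ cc := by
  have h1 := avl_w2 x
  have h2 := avl_32
  have h3 := avl_30
  have h4 := avl_w0 x
  have h0 : 0 ≤ wf x * y / √3 := by positivity
  rw [← pow_le_pow_iff_left₀ h0 avl_c0.le two_ne_zero, div_pow, mul_pow, h1, h2, avl_c2, div_le_iff₀ (by norm_num)]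
  nlinarith
private theorem avl_hc (hx : 0 ≤ x) (hx1 : x ≤ 1) (hy : 0 ≤ y) (hy1 : y ≤ 1) : (2 + x ^ 2) * y ^ 2 ≤ 3 := by
  have h1 : x ^ 2 ≤ 1 := by nlinarith
  have h2 : y ^ 2 ≤ 1 := by nlinarith
  nlinarith [sq_nonneg x, sq_nonneg y]
private theorem avl_loads (h : SqHyp J (3 / 1000)) (hx : 0 ≤ x) (hx1 : x ≤ 1) (hy : 0 ≤ y) (hc : (2 + x ^ 2) * y ^ 2 ≤ 3) :
    ((FdC J).a x ≤ 3 / 1000 * cc * (1 + x) / wf x ∧ (FdC J).b x ≤ 3 / 1000 * cc * (1 + x) / wf x) ∧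
    ((FdC J).c x y ≤ 3 / 1000 * (cc / wf x + y / √3) ∧ (FdC J).d x y ≤ 3 / 1000 * (cc / wf x + y / √3)) := by
  have h1 := avl_ax hx hx1
  have h2 := avl_Yc hx hy hc
  have h3 : |wf x * y / √3| ≤ cc := by
    have h4 : 0 ≤ wf x * y / √3 := by
      have := avl_w0 x
      have := avl_30
      positivity
    rw [abs_of_nonneg h4]
    exact h2
  have e1 : |cc| = cc := abs_of_pos avl_c0
  have e2 : |-cc| = cc := by rw [abs_neg, e1]
  refine ⟨⟨?_, ?_⟩, ?_, ?_⟩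
  · exact V_la (3 / 1000) x hx (h.ldY (cc * x) cc h1 e1)
  · exact V_lb (3 / 1000) x hx (h.ldY (cc * x) (-cc) h1 e2)
  · exact V_lc (3 / 1000) x y hy (h.ldX cc (wf x * y / √3) e1 h3)
  · exact V_ld (3 / 1000) x y hy (h.ldX (-cc) (wf x * y / √3) e2 h3)
private theorem avl_l0 (h : SqHyp J (3 / 1000)) (hx : 0 ≤ x) (hx1 : x ≤ 1) (hy : 0 ≤ y) (hc : (2 + x ^ 2) * y ^ 2 ≤ 3) :
    0 ≤ (FdC J).a x ∧ 0 ≤ (FdC J).b x ∧ 0 ≤ (FdC J).c x y ∧ 0 ≤ (FdC J).d x y :=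
  V_l0 h x y hx hx1 hy (avl_Yc hx hy hc)
private theorem avl_s0 (y : ℝ) : 0 ≤ 1 / (4782969 * Nf y ^ 3) := by
  have := avl_N0 y
  positivity

/-! ### facts of the core -/

private theorem avl_C_ap (h : SqHyp J (3 / 1000)) (hx : 0 ≤ x) (hx1 : x ≤ 1) (hy : 0 ≤ y) (hy1 : y ≤ 1) :
    0 ≤ lv x y aap (sv aDL (FdC J) x y) := by
  rw [avl_ap]
  exact V_ap h x y hx hx1 hy hy1
private theorem avl_C_am (h : SqHyp J (3 / 1000)) (hx : 0 ≤ x) (hx1 : x ≤ 1) (hy : 0 ≤ y) (hy1 : y ≤ 1) :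
    0 ≤ lv x y aam (sv aDL (FdC J) x y) := by
  rw [avl_am]
  exact V_am h x y hx hx1 hy hy1
private theorem avl_C_Bp (h : SqHyp J (3 / 1000)) (hx : 0 ≤ x) (hx1 : x ≤ 1) (hy : 0 ≤ y) (hy1 : y ≤ 1) :
    0 ≤ lv x y afBp (sv aDL (FdC J) x y) := by
  rw [avl_fBp]
  have h1 := V_Bp h x y (9 / 10) hx hx1 hy hy1 (by norm_num) (by norm_num)
  have h2 := avl_up (avl_N0 y) (aBp_ok x y hx hx1 hy hy1)
  have h3 : mf x = 1 + x ^ 2 / 2 := rfl
  have h4 : (FdC J).S x y = AC J x y := rfl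
  rw [h3] at h1
  rw [h4]
  linarith
private theorem avl_C_Bm (h : SqHyp J (3 / 1000)) (hx : 0 ≤ x) (hx1 : x ≤ 1) (hy : 0 ≤ y) (hy1 : y ≤ 1) :
    0 ≤ lv x y afBm (sv aDL (FdC J) x y) := by
  rw [avl_fBm]
  have h1 := V_Bm h x y (9 / 10) hx hx1 hy hy1 (by norm_num) (by norm_num)
  have h2 := avl_up (avl_N0 y) (aBm_ok x y hx hx1 hy hy1)
  have h3 : mf x = 1 + x ^ 2 / 2 := rfl
  have h4 : (FdC J).S x y = AC J x y := rfl
  rw [h3] at h1
  rw [h4]
  linarith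
private theorem avl_C_br (h : SqHyp J (3 / 1000)) (hc : 1 / 2 ≤ J.f (0, 0)) (hx : 0 ≤ x) (hx1 : x ≤ 1) (hy : 0 ≤ y) (hy1 : y ≤ 1) :
    0 ≤ lv x y afbr (sv aDL (FdC J) x y) := by
  rw [avl_fbr]
  have h1 := V_br h hc x y hx hx1 hy hy1
  have h2 := avl_up (avl_N0 y) (abr_ok x y hx hx1 hy hy1)
  have h4 : (FdC J).S x y = AC J x y := rfl
  rw [h4]
  linarith
private theorem avl_C_la (h : SqHyp J (3 / 1000)) (hx : 0 ≤ x) (hx1 : x ≤ 1) (y : ℝ) : 0 ≤ lv x y ala (sv aDL (FdC J) x y) := by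
  rw [avl_la]
  exact (avl_l0 (y := 0) h hx hx1 le_rfl (by norm_num)).1
private theorem avl_C_lb (h : SqHyp J (3 / 1000)) (hx : 0 ≤ x) (hx1 : x ≤ 1) (y : ℝ) : 0 ≤ lv x y alb (sv aDL (FdC J) x y) := by
  rw [avl_lb]
  exact (avl_l0 (y := 0) h hx hx1 le_rfl (by norm_num)).2.1
private theorem avl_C_lc (h : SqHyp J (3 / 1000)) (hx : 0 ≤ x) (hx1 : x ≤ 1) (hy : 0 ≤ y) (hc : (2 + x ^ 2) * y ^ 2 ≤ 3) :
    0 ≤ lv x y alc (sv aDL (FdC J) x y) := by
  rw [avl_lc]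
  exact (avl_l0 h hx hx1 hy hc).2.2.1
private theorem avl_C_ld (h : SqHyp J (3 / 1000)) (hx : 0 ≤ x) (hx1 : x ≤ 1) (hy : 0 ≤ y) (hc : (2 + x ^ 2) * y ^ 2 ≤ 3) :
    0 ≤ lv x y ald (sv aDL (FdC J) x y) := by
  rw [avl_ld]
  exact (avl_l0 h hx hx1 hy hc).2.2.2
private theorem avl_C_oa (h : SqHyp J (3 / 1000)) (hx : 0 ≤ x) (hx1 : x ≤ 1) (hy : 0 ≤ y) (hy1 : y ≤ 1) :
    0 ≤ lv x y afoa (sv aDL (FdC J) x y) := by
  rw [avl_foa]
  have h1 := (avl_loads h hx hx1 hy (avl_hc hx hx1 hy hy1)).1.1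
  have h2 := avl_up (avl_N0 y) (aoa_ok x y hx hx1 hy hy1)
  linarith
private theorem avl_C_ob (h : SqHyp J (3 / 1000)) (hx : 0 ≤ x) (hx1 : x ≤ 1) (hy : 0 ≤ y) (hy1 : y ≤ 1) :
    0 ≤ lv x y afob (sv aDL (FdC J) x y) := by
  rw [avl_fob]
  have h1 := (avl_loads h hx hx1 hy (avl_hc hx hx1 hy hy1)).1.2
  have h2 := avl_up (avl_N0 y) (aoa_ok x y hx hx1 hy hy1)
  linarith
private theorem avl_C_oc (h : SqHyp J (3 / 1000)) (hx : 0 ≤ x) (hx1 : x ≤ 1) (hy : 0 ≤ y) (hy1 : y ≤ 1) :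
    0 ≤ lv x y afoc (sv aDL (FdC J) x y) := by
  rw [avl_foc]
  have h1 := (avl_loads h hx hx1 hy (avl_hc hx hx1 hy hy1)).2.1
  have h2 := avl_up (avl_N0 y) (aoc_ok x y hx hx1 hy hy1)
  linarith
private theorem avl_C_od (h : SqHyp J (3 / 1000)) (hx : 0 ≤ x) (hx1 : x ≤ 1) (hy : 0 ≤ y) (hy1 : y ≤ 1) :
    0 ≤ lv x y afod (sv aDL (FdC J) x y) := by
  rw [avl_fod]
  have h1 := (avl_loads h hx hx1 hy (avl_hc hx hx1 hy hy1)).2.2
  have h2 := avl_up (avl_N0 y) (aoc_ok x y hx hx1 hy hy1)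
  linarith
private theorem avl_C_al (h : SqHyp J (3 / 1000)) (x y : ℝ) : 0 ≤ lv x y afal (sv aDL (FdC J) x y) := by
  rw [avl_fal]
  exact neg_nonneg.2 (V_mu h x y)
private theorem avl_C_hk (h : SqHyp J (3 / 1000)) (x : ℝ) (hy : 0 ≤ y) (hy1 : y ≤ 1) :
    s3 - (AC J x y).ka ≤ lv x y afhk (sv aDL (FdC J) x y) := by
  rw [avl_fhk]
  have h2 := avl_up (avl_N0 y) (aC2_ok x y hy hy1)
  have h4 : (FdC J).S x y = AC J x y := rfl
  rw [h4]
  linarith
private theorem avl_C_hk0 (h : SqHyp J (3 / 1000)) (x : ℝ) (hy : 0 ≤ y) (hy1 : y ≤ 1) :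
    0 ≤ lv x y afhk (sv aDL (FdC J) x y) :=
  (V_MH h x y).1.trans (avl_C_hk h x hy hy1)
private theorem avl_C_ML3 (h : SqHyp J (3 / 1000)) (x : ℝ) (hy : 0 ≤ y) (hy1 : y ≤ 1) :
    (AC J x y).ka + (1 / Nf y - s3) ≤ lv x y aML.m22 (sv aDL (FdC J) x y) := by
  rw [avl_ML3]
  have h2 := avl_up (avl_N0 y) (aC1r_ok x y hy hy1)
  have h4 : (FdC J).S x y = AC J x y := rfl
  rw [h4]
  linarith
private theorem avl_s (x y : ℝ) (F : Fd) : 0 ≤ lv x y afs0 (sv aDL F x y) := by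
  rw [avl_fs0]
  exact avl_s0 y

/-! ### facts of the sliver -/

private theorem avl_S_1 (h : SqHyp J (3 / 1000)) (hx : 0 ≤ x) (hx1 : x ≤ 1) (hy : 1 ≤ y) (hc : (2 + x ^ 2) * y ^ 2 ≤ 3) :
    0 ≤ lv x y asf1 (sv aDL (FdS J) x y) := by
  rw [avl_sf1]
  exact V_f1 h x y hx hx1 hy hc
private theorem avl_S_2 (h : SqHyp J (3 / 1000)) (hx : 0 ≤ x) (hx1 : x ≤ 1) (hy : 1 ≤ y) (hc : (2 + x ^ 2) * y ^ 2 ≤ 3) :
    0 ≤ lv x y asf2 (sv aDL (FdS J) x y) := by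
  rw [avl_sf2]
  have h1 := ayh_ok x y hx hx1
  have h2 := V_f2 h x y (ev x y ayh / 4782969) hx hx1 hy hc (by rw [le_div_iff₀ (by norm_num)]; linarith)
  have h4 : (FdS J).S x y = AS J x y := rfl
  rw [h4]
  have e : -4782969 * (AS J x y).u + (4782969 * y - ev x y ayh) * (AS J x y).q - 4782969 * (FdS J).a x =
      4782969 * (-(AS J x y).u - (ev x y ayh / 4782969 - y) * (AS J x y).q - (FdS J).a x) := by ring
  rw [e]
  exact mul_nonneg (by norm_num) h2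
private theorem avl_S_nq (h : SqHyp J (3 / 1000)) (x y : ℝ) : 0 ≤ lv x y asnq (sv aDL (FdS J) x y) := by
  rw [avl_snq]
  exact neg_nonneg.2 (V_nq h x y)
private theorem avl_S_Bp (h : SqHyp J (3 / 1000)) (hx : 0 ≤ x) (hx1 : x ≤ 1) (hy : 1 ≤ y) (hc : (2 + x ^ 2) * y ^ 2 ≤ 3) :
    0 ≤ lv x y asBp (sv aDL (FdS J) x y) := by
  rw [avl_sBp]
  have h1 := V_sBp h x y (9 / 10) hx hx1 hy hc (by norm_num) (by norm_num)
  have h2 := avl_up (avl_N0 y) (asB_ok x y hx hx1 hy hc)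
  have h3 : mf x = 1 + x ^ 2 / 2 := rfl
  have h4 : (FdS J).S x y = AS J x y := rfl
  rw [h3] at h1
  rw [h4]
  linarith
private theorem avl_S_Bm (h : SqHyp J (3 / 1000)) (hx : 0 ≤ x) (hx1 : x ≤ 1) (hy : 1 ≤ y) (hc : (2 + x ^ 2) * y ^ 2 ≤ 3) :
    0 ≤ lv x y asBm (sv aDL (FdS J) x y) := by
  rw [avl_sBm]
  have h1 := V_sBm h x y (9 / 10) hx hx1 hy hc (by norm_num) (by norm_num)
  have h2 := avl_up (avl_N0 y) (asB_ok x y hx hx1 hy hc)
  have h3 : mf x = 1 + x ^ 2 / 2 := rfl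
  have h4 : (FdS J).S x y = AS J x y := rfl
  rw [h3] at h1
  rw [h4]
  linarith
private theorem avl_S_la (h : SqHyp J (3 / 1000)) (hx : 0 ≤ x) (hx1 : x ≤ 1) (y : ℝ) : 0 ≤ lv x y ala (sv aDL (FdS J) x y) := by
  rw [avl_la]
  exact (avl_l0 (y := 0) h hx hx1 le_rfl (by norm_num)).1
private theorem avl_S_lb (h : SqHyp J (3 / 1000)) (hx : 0 ≤ x) (hx1 : x ≤ 1) (y : ℝ) : 0 ≤ lv x y alb (sv aDL (FdS J) x y) := by
  rw [avl_lb]
  exact (avl_l0 (y := 0) h hx hx1 le_rfl (by norm_num)).2.1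
private theorem avl_S_lc (h : SqHyp J (3 / 1000)) (hx : 0 ≤ x) (hx1 : x ≤ 1) (hy : 0 ≤ y) (hc : (2 + x ^ 2) * y ^ 2 ≤ 3) :
    0 ≤ lv x y alc (sv aDL (FdS J) x y) := by
  rw [avl_lc]
  exact (avl_l0 h hx hx1 hy hc).2.2.1
private theorem avl_S_ld (h : SqHyp J (3 / 1000)) (hx : 0 ≤ x) (hx1 : x ≤ 1) (hy : 0 ≤ y) (hc : (2 + x ^ 2) * y ^ 2 ≤ 3) :
    0 ≤ lv x y ald (sv aDL (FdS J) x y) := by
  rw [avl_ld]
  exact (avl_l0 h hx hx1 hy hc).2.2.2
private theorem avl_S_oA (h : SqHyp J (3 / 1000)) (hx : 0 ≤ x) (hx1 : x ≤ 1) (hy : 1 ≤ y) (hc : (2 + x ^ 2) * y ^ 2 ≤ 3) :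
    0 ≤ lv x y asoA (sv aDL (FdS J) x y) := by
  rw [avl_soA]
  have h1 : (FdS J).a x ≤ 3 / 1000 * cc * (1 + x) / wf x := (avl_loads h hx hx1 (by linarith) hc).1.1
  have h2 := avl_up (avl_N0 y) (asoa_ok x y hx hx1 hy hc)
  linarith
private theorem avl_S_oB (h : SqHyp J (3 / 1000)) (hx : 0 ≤ x) (hx1 : x ≤ 1) (hy : 1 ≤ y) (hc : (2 + x ^ 2) * y ^ 2 ≤ 3) :
    0 ≤ lv x y asoB (sv aDL (FdS J) x y) := by
  rw [avl_soB]
  have h1 : (FdS J).b x ≤ 3 / 1000 * cc * (1 + x) / wf x := (avl_loads h hx hx1 (by linarith) hc).1.2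
  have h2 := avl_up (avl_N0 y) (asoa_ok x y hx hx1 hy hc)
  linarith
private theorem avl_S_oC (h : SqHyp J (3 / 1000)) (hx : 0 ≤ x) (hx1 : x ≤ 1) (hy : 1 ≤ y) (hc : (2 + x ^ 2) * y ^ 2 ≤ 3) :
    0 ≤ lv x y asoC (sv aDL (FdS J) x y) := by
  rw [avl_soC]
  have h1 : (FdS J).c x y ≤ 3 / 1000 * (cc / wf x + y / √3) := (avl_loads h hx hx1 (by linarith) hc).2.1
  have h2 := avl_up (avl_N0 y) (asoc_ok x y hx hx1 hy hc)
  linarith
private theorem avl_S_oD (h : SqHyp J (3 / 1000)) (hx : 0 ≤ x) (hx1 : x ≤ 1) (hy : 1 ≤ y) (hc : (2 + x ^ 2) * y ^ 2 ≤ 3) :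
    0 ≤ lv x y asoD (sv aDL (FdS J) x y) := by
  rw [avl_soD]
  have h1 : (FdS J).d x y ≤ 3 / 1000 * (cc / wf x + y / √3) := (avl_loads h hx hx1 (by linarith) hc).2.2
  have h2 := avl_up (avl_N0 y) (asoc_ok x y hx hx1 hy hc)
  linarith

/-! ### edges -/

/-- the core fields at `y = 1` are the sliver fields in `u, q` -/
private theorem avl_G (J : Jet) (x : ℝ) : (AC J x 1).u = (AS J x 1).u ∧ (AC J x 1).q = (AS J x 1).q := by
  have h1 : Nf 1 = 2 / √3 := by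
    unfold Nf
    rw [show (1 : ℝ) + 1 ^ 2 / 3 = (2 / √3) ^ 2 by rw [div_pow, avl_32]; norm_num]
    exact Real.sqrt_sq (by positivity)
  have h3 := avl_30
  have h4 := avl_32
  constructor
  · simp only [AC, AS, starC, starS, St.sub, h1, s3]
    have : √3 / 2 = 2 / √3 - 1 / (2 * √3) := by
      field_simp
      nlinarith
    rw [this]
  · simp only [AC, AS, starC, starS, St.sub, h1]
    have : (0 : ℝ) = 1 / (3 * (2 / √3)) - 1 / (2 * √3) := by
      field_simp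
      nlinarith
    rw [← this]

private theorem avl_G1 (h : SqHyp J (3 / 1000)) (hx : 0 ≤ x) (hx1 : x ≤ 1) : 0 ≤ lv x 1 asf1 (sv aDL (FdC J) x 1) := by
  have h1 := avl_S_1 (y := 1) h hx hx1 le_rfl (avl_hc hx hx1 zero_le_one le_rfl)
  rw [avl_sf1] at h1 ⊢
  have h2 : ((FdC J).S x 1).u = ((FdS J).S x 1).u := (avl_G J x).1
  rw [h2]
  exact h1
private theorem avl_G2 (h : SqHyp J (3 / 1000)) (hx : 0 ≤ x) (hx1 : x ≤ 1) : 0 ≤ lv x 1 asf2 (sv aDL (FdC J) x 1) := by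
  have h1 := avl_S_2 (y := 1) h hx hx1 le_rfl (avl_hc hx hx1 zero_le_one le_rfl)
  rw [avl_sf2] at h1 ⊢
  have h2 : ((FdC J).S x 1).u = ((FdS J).S x 1).u := (avl_G J x).1
  have h3 : ((FdC J).S x 1).q = ((FdS J).S x 1).q := (avl_G J x).2
  rw [h2, h3]
  exact h1
private theorem avl_G3 (h : SqHyp J (3 / 1000)) (x : ℝ) : 0 ≤ lv x 1 asnq (sv aDL (FdC J) x 1) := by
  have h1 := avl_S_nq h x 1
  rw [avl_snq] at h1 ⊢
  have h3 : ((FdC J).S x 1).q = ((FdS J).S x 1).q := (avl_G J x).2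
  rw [h3]
  exact h1

private theorem avl_w1 : wf 1 = √3 * cc := by
  have h0 : 0 ≤ √3 * cc := mul_nonneg avl_30.le avl_c0.le
  unfold wf mf
  rw [show (1 : ℝ) + 1 ^ 2 / 2 = (√3 * cc) ^ 2 by rw [mul_pow, avl_32, avl_c2]; norm_num]
  exact Real.sqrt_sq h0

private theorem avl_lcc (s : ℝ) (hs : s ^ 2 = 1 / 2) (t : ℝ) (ht : t ^ 2 = 1 / 2) : lf (s, t) = 2 * cc := by
  unfold lf
  rw [show (1 : ℝ) + (s, t).1 ^ 2 + (s, t).2 ^ 2 = (2 * cc) ^ 2 by
    simp only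
    rw [hs, ht, mul_pow, avl_c2]
    norm_num]
  exact Real.sqrt_sq (by have := avl_c0; positivity)

private theorem avl_X (h : SqHyp J (3 / 1000)) (y : ℝ) : (AC J 1 y).u - (FdC J).c 1 y = 0 ∧ (FdC J).a 1 = 0 ∧ (FdC J).b 1 = 0 := by
  have h3 := avl_30
  have h4 := avl_32
  have hc0 := avl_c0
  have hc2 := avl_c2
  have e1 : |cc| = cc := abs_of_pos avl_c0
  have e2 : |-cc| = cc := by rw [abs_neg, e1]
  refine ⟨?_, ?_, ?_⟩
  · simp only [AC, starC, St.sub, ch, FdC, zep, mul_one, avl_w1, s3]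
    field_simp
    nlinarith
  · simp only [FdC, etp, mul_one]
    rw [avl_lcc cc hc2 cc hc2, h.cor cc cc e1 e1]
    rw [show cc - (2 * cc - cc) = 0 by ring, zero_div]
  · simp only [FdC, etm, mul_one]
    rw [avl_lcc cc hc2 (-cc) (by rw [neg_sq, hc2]), h.cor cc (-cc) e1 e2]
    rw [show cc - (2 * cc - cc) = 0 by ring, zero_div]

private theorem avl_yt (x : ℝ) : wf x * yt x / √3 = cc := by
  have hw := avl_w0 x
  have h3 := avl_30
  have hy : 0 ≤ yt x := Real.sqrt_nonneg _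
  have hy2 : yt x ^ 2 = 3 / (2 + x ^ 2) := by
    unfold yt
    exact Real.sq_sqrt (by positivity)
  have h0 : 0 ≤ wf x * yt x / √3 := by positivity
  rw [← pow_left_inj₀ h0 avl_c0.le two_ne_zero, div_pow, mul_pow, avl_w2, hy2, avl_32, avl_c2]
  have : (2 : ℝ) + x ^ 2 ≠ 0 := by positivity
  field_simp

private theorem avl_yt1 (hx : 0 ≤ x) (hx1 : x ≤ 1) : 1 ≤ yt x ∧ (2 + x ^ 2) * yt x ^ 2 = 3 := by
  have h2 : (0 : ℝ) < 2 + x ^ 2 := by positivity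
  constructor
  · unfold yt
    rw [Real.one_le_sqrt, le_div_iff₀ h2]
    nlinarith
  · unfold yt
    rw [Real.sq_sqrt (by positivity)]
    field_simp

private theorem avl_Y (h : SqHyp J (3 / 1000)) (x : ℝ) : (AS J x (yt x)).u + (FdS J).a x = 0 ∧ (FdS J).c x (yt x) = 0 ∧
    (FdS J).d x (yt x) = 0 := by
  have e1 : |cc| = cc := abs_of_pos avl_c0
  have e2 : |-cc| = cc := by rw [abs_neg, e1]
  have hw := avl_w0 x
  have hw2 := avl_w2 x
  have h3 := avl_30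
  have h32 := avl_32
  have hyt := avl_yt x
  have hc2 := avl_c2
  refine ⟨?_, ?_, ?_⟩
  · have hN := avl_N0 (yt x)
    have hN2 := avl_N2 (yt x)
    have hl : lf (cc * x, cc) = wf x * Nf (yt x) := by
      have h0 : 0 ≤ wf x * Nf (yt x) := by positivity
      unfold lf
      rw [show (1 : ℝ) + (cc * x, cc).1 ^ 2 + (cc * x, cc).2 ^ 2 = (wf x * Nf (yt x)) ^ 2 by
        have h5 : (wf x * Nf (yt x)) ^ 2 = wf x ^ 2 + (wf x * yt x / √3) ^ 2 := by
          rw [mul_pow, hN2, div_pow, mul_pow, h32]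
          ring
        rw [h5, hyt, hw2]
        simp only
        rw [mul_pow, hc2]
        ring]
      exact Real.sqrt_sq h0
    have h6 : yt x / (2 * √3) = cc / (2 * wf x) := by
      rw [← hyt]
      field_simp
    simp only [AS, starS, St.sub, ch, FdS, etp, hyt, h6, hl]
    field_simp
    ring
  · simp only [FdS, zep, hyt]
    rw [h.cor cc cc e1 e1, sub_self, zero_div]
  · simp only [FdS, zem, hyt]
    rw [h.cor (-cc) cc e2 e1, sub_self, zero_div]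

private theorem avl_cur (k : Nat) (hk : k ≤ 10) (x : ℝ) (hx : 0 ≤ x) (hx1 : x ≤ 1) (s : List ℝ) : lv x (yt x) (curF k) s = 0 := by
  have h1 : ev x (yt x) curP = 0 := by
    have h2 := (avl_yt1 hx hx1).2
    simp [curP, ev, evL]
    linarith
  have h3 : ∀ (n : Nat) (l s : List ℝ), dotL (List.replicate n 0 ++ l) s = dotL l (s.drop n) := by
    intro n
    induction n with
    | zero => intro l s; simp
    | succ n ih =>
      intro l s
      cases s with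
      | nil =>
        simp [List.replicate_succ, dotL]
        cases l <;> simp [dotL]
      | cons a s => simp [List.replicate_succ, dotL, ih]
  have h4 : ∀ (n : Nat) (s : List ℝ), dotL (List.replicate n 0) s = 0 := by
    intro n s
    have h5 := h3 n [] s
    rw [List.append_nil] at h5
    rw [h5]
    cases s.drop n <;> simp [dotL]
  unfold lv curF eS evE
  rw [List.map_append, List.map_cons, List.map_replicate, List.map_replicate, ev_nil, h1, h3]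
  cases s.drop k with
  | nil => simp [dotL]
  | cons a s => simp [dotL, h4]


private theorem avl_at0 (x : ℝ) (l : LF) (s : List ℝ) : lv x 0 (l.map at0) s = lv x 0 l s := by
  have h : evE x 0 (l.map at0) = evE x 0 l := by
    unfold evE
    rw [List.map_map]
    apply List.map_congr_left
    intro p _
    exact ev_at0 x 0 p
  unfold lv
  rw [h]
private theorem avl_at1 (x : ℝ) (l : LF) (s : List ℝ) : lv x 1 (l.map at1) s = lv x 1 l s := by
  have h : evE x 1 (l.map at1) = evE x 1 l := by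
    unfold evE
    rw [List.map_map]
    apply List.map_congr_left
    intro p _
    exact ev_at1 x 1 p
  unfold lv
  rw [h]
private theorem avl_evx1 (x y : ℝ) (p : P) : ev x y (atx1 p) = ev 1 y p := by
  simp only [atx1, ev, mul_zero, add_zero]
  induction p with
  | nil => simp [ev, evL]
  | cons r l ih => simp only [List.foldr_cons, evL_addV, ih, ev, one_mul]
private theorem avl_atx1 (y : ℝ) (l : LF) (s : List ℝ) : lv 1 y (l.map atx1) s = lv 1 y l s := by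
  have h : evE 1 y (l.map atx1) = evE 1 y l := by
    unfold evE
    rw [List.map_map]
    apply List.map_congr_left
    intro p _
    exact avl_evx1 1 y p
  unfold lv
  rw [h]
private theorem avl_Y_Tp (h : SqHyp J (3 / 1000)) (hx : 0 ≤ x) (hx1 : x ≤ 1) : 0 ≤ lv x (yt x) aTp (sv aDL (FdS J) x (yt x)) := by
  rw [avl_Tp]
  exact mul_nonneg (by norm_num) (V_Tp h x hx hx1)
private theorem avl_Y_Tm (h : SqHyp J (3 / 1000)) (hx : 0 ≤ x) (hx1 : x ≤ 1) : 0 ≤ lv x (yt x) aTm (sv aDL (FdS J) x (yt x)) := by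
  rw [avl_Tm]
  exact mul_nonneg (by norm_num) (V_Tm h x hx hx1)

end

theorem aV_C (h : SqHyp J (3 / 1000)) (hc : 1 / 2 ≤ J.f (0, 0)) (x y : ℝ) (hx : 0 ≤ x) (hx1 : x ≤ 1) (hy : 0 ≤ y)
    (hy1 : y ≤ 1) : ROK aRC x y (sv aDL (FdC J) x y) := by
  refine ⟨?_, ?_, ?_, ?_, List.forall_mem_nil _, List.forall_mem_nil _⟩
  · exact List.forall_mem_cons.2 ⟨avl_C_ap h hx hx1 hy hy1, List.forall_mem_cons.2 ⟨avl_C_am h hx hx1 hy hy1, List.forall_mem_cons.2 ⟨avl_C_Bp h hx hx1 hy hy1, List.forall_mem_cons.2 ⟨avl_C_Bm h hx hx1 hy hy1, List.forall_mem_cons.2 ⟨avl_C_br h hc hx hx1 hy hy1, List.forall_mem_cons.2 ⟨avl_C_la h hx hx1 y, List.forall_mem_cons.2 ⟨avl_C_lb h hx hx1 y, List.forall_mem_cons.2 ⟨avl_C_lc h hx hx1 hy (avl_hc hx hx1 hy hy1), List.forall_mem_cons.2 ⟨avl_C_ld h hx hx1 hy (avl_hc hx hx1 hy hy1), List.forall_mem_cons.2 ⟨avl_C_oa h hx hx1 hy hy1, List.forall_mem_cons.2 ⟨avl_C_ob h hx hx1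 hy hy1, List.forall_mem_cons.2 ⟨avl_C_oc h hx hx1 hy hy1, List.forall_mem_cons.2 ⟨avl_C_od h hx hx1 hy hy1, List.forall_mem_cons.2 ⟨avl_C_al h x y, List.forall_mem_cons.2 ⟨avl_C_hk0 h x hy hy1, List.forall_mem_cons.2 ⟨avl_s x y _, List.forall_mem_nil _⟩⟩⟩⟩⟩⟩⟩⟩⟩⟩⟩⟩⟩⟩⟩⟩
  · refine List.forall_mem_cons.2 ⟨?_, List.forall_mem_cons.2 ⟨?_, List.forall_mem_nil _⟩⟩
    · rw [avl_MH1]
      have h1 := V_mu h x y
      have h4 : (FdC J).S x y = AC J x y := rfl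
      rw [h4]
      linarith
    · rw [avl_ML1]
      exact (V_ML h x y).1
  · refine List.forall_mem_cons.2 ⟨?_, List.forall_mem_cons.2 ⟨?_, List.forall_mem_nil _⟩⟩
    · exact avl_C_hk0 h x hy hy1
    · exact (V_ML h x y).2.1.trans (avl_C_ML3 h x hy hy1)
  · refine List.forall_mem_cons.2 ⟨?_, List.forall_mem_cons.2 ⟨?_, List.forall_mem_nil _⟩⟩
    · rw [avl_MH1, avl_MH2]
      have h1 := V_mu h x y
      have h4 : (FdC J).S x y = AC J x y := rfl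
      rw [h4]
      refine (V_MH h x y).2.trans ?_
      exact mul_le_mul_of_nonneg_left (avl_C_hk h x hy hy1) (by linarith)
    · rw [avl_ML1, avl_ML2]
      refine (V_ML h x y).2.2.trans ?_
      exact mul_le_mul_of_nonneg_left (avl_C_ML3 h x hy hy1) (V_ML h x y).1
theorem aV_S (h : SqHyp J (3 / 1000)) (x y : ℝ) (hx : 0 ≤ x) (hx1 : x ≤ 1) (hy : 1 ≤ y)
    (hc : (2 + x ^ 2) * y ^ 2 ≤ 3) : ROK aRS x y (sv aDL (FdS J) x y) := by
  refine ⟨?_, ?_, ?_, ?_, List.forall_mem_nil _, List.forall_mem_nil _⟩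
  · exact List.forall_mem_cons.2 ⟨avl_S_1 h hx hx1 hy hc, List.forall_mem_cons.2 ⟨avl_S_2 h hx hx1 hy hc, List.forall_mem_cons.2 ⟨avl_S_nq h x y, List.forall_mem_cons.2 ⟨avl_S_Bp h hx hx1 hy hc, List.forall_mem_cons.2 ⟨avl_S_Bm h hx hx1 hy hc, List.forall_mem_cons.2 ⟨avl_S_la h hx hx1 y, List.forall_mem_cons.2 ⟨avl_S_lb h hx hx1 y, List.forall_mem_cons.2 ⟨avl_S_lc h hx hx1 (by linarith) hc, List.forall_mem_cons.2 ⟨avl_S_ld h hx hx1 (by linarith) hc, List.forall_mem_cons.2 ⟨avl_S_oA h hx hx1 hy hc, List.forall_mem_cons.2 ⟨avl_S_oB h hx hx1 hy hc, List.forall_mem_cons.2 ⟨avl_S_oC h hx hx1 hy hc, List.forall_mem_cons.2 ⟨avl_S_oD h hx hx1 hy hc, List.forall_mem_cons.2 ⟨avl_s x y _, List.forall_mem_nil _⟩⟩⟩⟩⟩⟩⟩⟩⟩⟩⟩⟩⟩⟩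
  · refine List.forall_mem_cons.2 ⟨?_, List.forall_mem_cons.2 ⟨?_, List.forall_mem_nil _⟩⟩
    · rw [avl_KA1]
      exact mul_nonneg (by norm_num) (V_KA h x y).1
    · rw [avl_sMH1]
      exact (V_sMH h x y).1
  · refine List.forall_mem_cons.2 ⟨?_, List.forall_mem_cons.2 ⟨?_, List.forall_mem_nil _⟩⟩
    · rw [avl_KA3]
      exact (V_KA h x y).2.1
    · rw [avl_sMH3]
      exact (V_sMH h x y).2.1
  · refine List.forall_mem_cons.2 ⟨?_, List.forall_mem_cons.2 ⟨?_, List.forall_mem_nil _⟩⟩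
    · rw [avl_KA1, avl_KA2, avl_KA3]
      exact (V_KA h x y).2.2
    · rw [avl_sMH1, avl_sMH2, avl_sMH3]
      exact (V_sMH h x y).2.2
theorem aV_A (h : SqHyp J (3 / 1000)) (hc : 1 / 2 ≤ J.f (0, 0)) (x : ℝ) (hx : 0 ≤ x) (hx1 : x ≤ 1) :
    ROK aRA x 0 (sv aDL (FdC J) x 0) := by
  refine ⟨?_, List.forall_mem_nil _, List.forall_mem_nil _, List.forall_mem_nil _, List.forall_mem_nil _, List.forall_mem_nil _⟩
  refine List.forall_mem_map.2 fun l hl => ?_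
  rw [avl_at0]
  revert l
  exact List.forall_mem_cons.2 ⟨avl_C_ap h hx hx1 le_rfl zero_le_one, List.forall_mem_cons.2 ⟨avl_C_am h hx hx1 le_rfl zero_le_one, List.forall_mem_cons.2 ⟨avl_C_br h hc hx hx1 le_rfl zero_le_one, List.forall_mem_cons.2 ⟨avl_C_la h hx hx1 0, List.forall_mem_cons.2 ⟨avl_C_lb h hx hx1 0, List.forall_mem_cons.2 ⟨avl_s x 0 _, List.forall_mem_nil _⟩⟩⟩⟩⟩⟩
theorem aV_G (h : SqHyp J (3 / 1000)) (x : ℝ) (hx : 0 ≤ x) (hx1 : x ≤ 1) : ROK aRG x 1 (sv aDL (FdC J) x 1) := by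
  refine ⟨?_, List.forall_mem_nil _, List.forall_mem_nil _, List.forall_mem_nil _, List.forall_mem_nil _, List.forall_mem_nil _⟩
  refine List.forall_mem_map.2 fun l hl => ?_
  rw [avl_at1]
  revert l
  exact List.forall_mem_cons.2 ⟨avl_G1 h hx hx1, List.forall_mem_cons.2 ⟨avl_G2 h hx hx1, List.forall_mem_cons.2 ⟨avl_G3 h x, List.forall_mem_cons.2 ⟨avl_C_am h hx hx1 zero_le_one le_rfl, List.forall_mem_cons.2 ⟨avl_C_la h hx hx1 1, List.forall_mem_cons.2 ⟨avl_C_lb h hx hx1 1, List.forall_mem_cons.2 ⟨avl_C_oa h hx hx1 zero_le_one le_rfl, List.forall_mem_cons.2 ⟨avl_C_ob h hx hx1 zero_le_one le_rfl, List.forall_mem_cons.2 ⟨avl_s x 1 _, List.forall_mem_nil _⟩⟩⟩⟩⟩⟩⟩⟩⟩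
theorem aV_X (h : SqHyp J (3 / 1000)) (y : ℝ) (hy : 0 ≤ y) (hy1 : y ≤ 1) : ROK aRX 1 y (sv aDL (FdC J) 1 y) := by
  refine ⟨?_, List.forall_mem_nil _, List.forall_mem_nil _, List.forall_mem_nil _, ?_, List.forall_mem_nil _⟩
  · refine List.forall_mem_map.2 fun l hl => ?_
    rw [avl_atx1]
    revert l
    exact List.forall_mem_cons.2 ⟨avl_C_ap h zero_le_one le_rfl hy hy1, List.forall_mem_cons.2 ⟨avl_C_am h zero_le_one le_rfl hy hy1, List.forall_mem_cons.2 ⟨avl_C_lc h zero_le_one le_rfl hy (avl_hc zero_le_one le_rfl hy hy1), List.forall_mem_cons.2 ⟨avl_C_ld h zero_le_one le_rfl hy (avl_hc zero_le_one le_rfl hy hy1), List.forall_mem_cons.2 ⟨avl_C_oc h zero_le_one le_rfl hy hy1, List.forall_mem_cons.2 ⟨avl_C_od h zero_le_one le_rfl hy hy1, List.forall_mem_cons.2 ⟨avl_s 1 y _, List.forall_mem_nil _⟩⟩⟩⟩⟩⟩⟩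
  · refine List.forall_mem_cons.2 ⟨?_, List.forall_mem_cons.2 ⟨?_, List.forall_mem_cons.2 ⟨?_, List.forall_mem_nil _⟩⟩⟩
    · rw [avl_lF]
      have h1 := (avl_X h y).1
      have h4 : (FdC J).S 1 y = AC J 1 y := rfl
      rw [h4]
      simp [ev, evL]
      linarith
    · rw [avl_la]
      exact (avl_X h y).2.1
    · rw [avl_lb]
      exact (avl_X h y).2.2
theorem aV_Y (h : SqHyp J (3 / 1000)) (x : ℝ) (hx : 0 ≤ x) (hx1 : x ≤ 1) :
    ROK aRY x (yt x) (sv aDL (FdS J) x (yt x)) := by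
  obtain ⟨hy1, hc1⟩ := avl_yt1 hx hx1
  refine ⟨?_, List.forall_mem_nil _, List.forall_mem_nil _, List.forall_mem_nil _, ?_, List.forall_mem_nil _⟩
  · exact List.forall_mem_cons.2 ⟨avl_Y_Tp h hx hx1, List.forall_mem_cons.2 ⟨avl_Y_Tm h hx hx1, List.forall_mem_cons.2 ⟨avl_S_nq h x (yt x), List.forall_mem_cons.2 ⟨avl_S_la h hx hx1 (yt x), List.forall_mem_cons.2 ⟨avl_S_lb h hx hx1 (yt x), List.forall_mem_cons.2 ⟨avl_S_oA h hx hx1 hy1 hc1.le, List.forall_mem_cons.2 ⟨avl_S_oB h hx hx1 hy1 hc1.le, List.forall_mem_cons.2 ⟨avl_s x (yt x) _, List.forall_mem_nil _⟩⟩⟩⟩⟩⟩⟩⟩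
  · refine List.forall_mem_cons.2 ⟨?_, List.forall_mem_cons.2 ⟨?_, List.forall_mem_cons.2 ⟨?_, List.forall_mem_cons.2 ⟨avl_cur 0 (by norm_num) x hx hx1 _, List.forall_mem_cons.2 ⟨avl_cur 2 (by norm_num) x hx hx1 _, List.forall_mem_cons.2 ⟨avl_cur 3 (by norm_num) x hx hx1 _, List.forall_mem_cons.2 ⟨avl_cur 4 (by norm_num) x hx hx1 _, List.forall_mem_cons.2 ⟨avl_cur 5 (by norm_num) x hx hx1 _, List.forall_mem_nil _⟩⟩⟩⟩⟩⟩⟩⟩
    · rw [avl_lF]
      have h1 := (avl_Y h x).1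
      have h4 : (FdS J).S x (yt x) = AS J x (yt x) := rfl
      rw [h4]
      simp [ev, evL]
      linarith
    · rw [avl_lc]
      exact (avl_Y h x).2.1
    · rw [avl_ld]
      exact (avl_Y h x).2.2
theorem aV_lC (h : SqHyp J (3 / 1000)) (x y : ℝ) (hx : 0 ≤ x) (hx1 : x ≤ 1) (hy : 0 ≤ y) (hy1 : y ≤ 1) :
    1 / (aDL * Nf y ^ 3) * lv x y alC (sv aDL (FdC J) x y) ≤
      108 * ((12 : Int) * (1000000 : Int)) * ((2 - √3 * Nf y) * (AC J x y).u / Nf y) + (0 : Int) * Nf y ^ 3 * mf x := by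
  have hN := avl_N0 y
  have hN2 := avl_N2 y
  have hDL : ((aDL : Int) : ℝ) = 4782969 := by norm_num [aDL]
  have e : lv x y alC (sv aDL (FdC J) x y) = (3 * Nf y ^ 2) * ((4132485216000000 - 432000000 * ev x y aThi) * (AC J x y).u -
      1080000000 * ((1 + y) * (FdC J).a x + (1 - y) * (FdC J).b x)) := by
    unfold alC
    rw [avl_lF, ev_pMul, ev_pAdd, ev_pSm, ev_pSm, ev_pMul, ev_pSm, ev_pMul, hN2]
    have h4 : (FdC J).S x y = AC J x y := rfl
    rw [h4]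
    simp [ev, evL]
    ring
  have hl := avl_l0 h hx hx1 hy (avl_hc hx hx1 hy hy1)
  have hap := V_ap h x y hx hx1 hy hy1
  have ham := V_am h x y hx hx1 hy hy1
  obtain ⟨t0, t5⟩ := aThi_ok x y hy hy1
  rw [e, hDL]
  obtain ⟨W, hW⟩ : ∃ W : ℝ, W = (1 + y) * (FdC J).a x + (1 - y) * (FdC J).b x := ⟨_, rfl⟩
  obtain ⟨θ, hθ⟩ : ∃ θ : ℝ, θ = ev x y aThi - 4782969 * (√3 * Nf y) := ⟨_, rfl⟩
  rw [← hW]
  rw [← hθ] at t0 t5
  have hW0 : 0 ≤ W := by
    rw [hW]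
    exact add_nonneg (mul_nonneg (by linarith) hl.1) (mul_nonneg (by linarith) hl.2.1)
  have h2u : 0 ≤ 2 * (AC J x y).u + W := by
    have h1 := mul_nonneg (show (0 : ℝ) ≤ 1 + y by linarith) hap
    have h2 := mul_nonneg (show (0 : ℝ) ≤ 1 - y by linarith) ham
    rw [hW]
    linarith
  have hkey : 0 ≤ θ * (AC J x y).u + 5 / 2 * W := by
    have h1 := mul_nonneg t0 h2u
    have h2 := mul_nonneg (show (0 : ℝ) ≤ 5 - θ by linarith) hW0
    linarith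
  have e2 : ev x y aThi = θ + 4782969 * (√3 * Nf y) := by rw [hθ]; ring
  rw [e2]
  have e3 : 108 * (((12 : Int) : ℝ) * ((1000000 : Int) : ℝ)) * ((2 - √3 * Nf y) * (AC J x y).u / Nf y) + ((0 : Int) : ℝ) * Nf y ^ 3 * mf x -
      1 / (4782969 * Nf y ^ 3) * (3 * Nf y ^ 2 * ((4132485216000000 - 432000000 * (θ + 4782969 * (√3 * Nf y))) * (AC J x y).u -
        1080000000 * W)) = 1296000000 / (4782969 * Nf y) * (θ * (AC J x y).u + 5 / 2 * W) := by
    push_cast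
    field_simp
    ring
  have h5 : 0 ≤ 1296000000 / (4782969 * Nf y) * (θ * (AC J x y).u + 5 / 2 * W) := mul_nonneg (by positivity) hkey
  rw [← e3] at h5
  linarith
theorem aV_lS (x y : ℝ) : 1 / (aDL * Nf y ^ 3) * lv x y alS (sv aDL (FdS J) x y) ≤
    108 * ((12 : Int) * (1000000 : Int)) * (-2 * (AS J x y).u / Nf y) + (0 : Int) * Nf y ^ 3 * mf x := by
  have hN := avl_N0 y
  have hN2 := avl_N2 y
  have hDL : ((aDL : Int) : ℝ) = 4782969 := by norm_num [aDL]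
  have e : lv x y alS (sv aDL (FdS J) x y) = (3 * Nf y ^ 2) * (-4132485216000000 * (AS J x y).u) := by
    unfold alS
    rw [avl_lF, ev_pSm, hN2]
    have h4 : (FdS J).S x y = AS J x y := rfl
    rw [h4]
    simp [ev, evL]
    ring
  rw [e, hDL]
  apply le_of_eq
  push_cast
  field_simp
  ring

end Pool.Agent.MCA
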