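import Pool.Agent.MTR.Comp
/-!
MCA: computable part of the cell certificates of MP_f10237_gt (square side).

State vector (11 real numbers): `s = (N⁻³/DL, u, q, p, a, b, c, d, μ, ν, κ)`,
index        0        1  2  3  4  5  6  7  8  9 10.
A linear form is the list of its 11 coefficients (polynomials in `x, y`), a quadratic form the list of
its 66 coefficients of `s_i s_j`, `i ≤ j`, row by row.
-/
namespace Pool.Agent.MCA
open Pool.Agent.MSQ Pool.Agent.MTR

/-- linear forms: 11 coefficients -/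
abbrev LF := List P
/-- terms `f s_m s_n` -/
abbrev Trm := Nat × Nat × P

/-- `l s_k` -/
def eS (k : Nat) (l : P) : LF := List.replicate k [] ++ (l :: List.replicate (10 - k) [])
def zL : LF := List.replicate 11 []
def oneP : P := [[1]]
def negP (l : P) : P := pSm (-1) l
/-- `f s_m s_n` -/
def sS (m n : Nat) (f : P) : List P := qMul (eS m f) (eS n oneP)

/-- a 2x2 matrix of linear forms -/
structure MF where
  m11 : LF
  m12 : LF
  m22 : LF

/-- what is known at a point: nonnegative linear forms, psd matrices, zero forms, nonnegative polynomials -/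
structure Rgn where
  fs : List LF
  ms : List MF
  zs : List LF
  gs : List P

/-- multipliers on a box -/
structure Itm where
  x0 : Int
  x1 : Int
  qx : Int
  y0 : Int
  y1 : Int
  qy : Int
  /-- `P f_i f_j` -/
  sc : List (Nat × Nat × P)
  /-- `f_i tr (L M_j)` -/
  m2 : List (Nat × Nat × P × P × P)
  /-- `P det M_i` -/
  dt : List (Nat × P)
  /-- Kronecker product of `M_i` and `M_j` -/
  w4 : List (Nat × Nat × List P)
  /-- zero form times an arbitrary linear form -/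
  zr : List (Nat × LF)
  /-- `g_i` times a psd matrix (66 entries) -/
  gz : List (Nat × List P)

def fS (rg : Rgn) (i : Nat) : LF := rg.fs.getD i zL
def mS (rg : Rgn) (i : Nat) : MF := rg.ms.getD i ⟨zL, zL, zL⟩
def zS (rg : Rgn) (i : Nat) : LF := rg.zs.getD i zL
def gS (rg : Rgn) (i : Nat) : P := rg.gs.getD i []

/-- `tr (L M)`, `L = (l11, l12; l12, l22)` -/
def trM (l11 l12 l22 : P) (M : MF) : LF :=
  qAdd (qPm l11 M.m11) (qAdd (qPm (pSm 2 l12) M.m12) (qPm l22 M.m22))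

/-- `tr (W (A ⊗ B))`; `w` lists the upper triangle of `W`, rows `(i,k)`, `i` index of `A`, `k` index of `B`,
in the order `11, 12, 21, 22` -/
def krM (w : List P) (A B : MF) : List P :=
  let g (k : Nat) : P := w.getD k []
  sumQ [qMul (qPm (g 0) A.m11) B.m11, qMul (qPm (pSm 2 (g 1)) A.m11) B.m12,
    qMul (qPm (pSm 2 (g 2)) A.m12) B.m11, qMul (qPm (pSm 2 (g 3)) A.m12) B.m12,
    qMul (qPm (g 4) A.m11) B.m22, qMul (qPm (pSm 2 (g 5)) A.m12) B.m12,
    qMul (qPm (pSm 2 (g 6)) A.m12) B.m22, qMul (qPm (g 7) A.m22) B.m11,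
    qMul (qPm (pSm 2 (g 8)) A.m22) B.m12, qMul (qPm (g 9) A.m22) B.m22]

/-- sum of all products -/
def sumI (rg : Rgn) (b : Itm) : List P :=
  sumQ [sumQ (b.sc.map fun t => qMul (qPm t.2.2 (fS rg t.1)) (fS rg t.2.1)),
    sumQ (b.m2.map fun t => qMul (fS rg t.1) (trM t.2.2.1 t.2.2.2.1 t.2.2.2.2 (mS rg t.2.1))),
    sumQ (b.dt.map fun t => qAdd (qMul (qPm t.2 (mS rg t.1).m11) (mS rg t.1).m22)
      (qMul (qPm (negP t.2) (mS rg t.1).m12) (mS rg t.1).m12)),
    sumQ (b.w4.map fun t => krM t.2.2 (mS rg t.1) (mS rg t.2.1)),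
    sumQ (b.zr.map fun t => qMul (zS rg t.1) t.2),
    sumQ (b.gz.map fun t => qPm (gS rg t.1) t.2)]

/-- positivity of the multipliers -/
def posI (b : Itm) : Bool :=
  let c n E := chkM n E b.x0 b.x1 b.qx b.y0 b.y1 b.qy
  b.sc.all (fun t => c 1 [t.2.2]) &&
    b.m2.all (fun t => c 2 [t.2.2.1, pSm 2 t.2.2.2.1, t.2.2.2.2]) &&
    b.dt.all (fun t => c 1 [t.2]) &&
    b.w4.all (fun t => let g (k : Nat) : P := t.2.2.getD k []
      c 4 [g 0, pSm 2 (g 1), pSm 2 (g 2), pSm 2 (g 3), g 4, pSm 2 (g 5), pSm 2 (g 6), g 7, pSm 2 (g 8),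
        g 9]) &&
    b.zr.all (fun t => t.2.length == 11) && b.gz.all (fun t => c 11 t.2)

/-- all linear forms have 11 entries -/
def wfR (rg : Rgn) : Bool :=
  rg.fs.all (fun l => l.length == 11) && rg.zs.all (fun l => l.length == 11) &&
    rg.ms.all (fun M => M.m11.length == 11 && M.m12.length == 11 && M.m22.length == 11)

/-- the certificate: on the box, `R` minus the sum of the products is positive semidefinite -/
def chkI (rg : Rgn) (R : List P) (b : Itm) : Bool :=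
  wfR rg && posI b &&
    chkM 11 (qAdd R (qSm (-1) (sumI rg b))) b.x0 b.x1 b.qx b.y0 b.y1 b.qy

/-! ### coverings -/

/-- consecutive boxes of a column, from `y = a/b` on; returns the end -/
def covY : Int → Int → List Itm → Int × Int
  | a, b, [] => (a, b)
  | a, b, t :: l => if decide (t.y0 * b ≤ a * t.qy) && decide (0 < t.qy) then covY t.y1 t.qy l else (0, 0)

/-- columns covering `0 ≤ x ≤ 1`, `y0 ≤ y ≤ y1`: each column is a list of boxes with the same `x` interval -/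
def covR (y0 y1 : Int) : Int → Int → List (List Itm) → Bool
  | a, b, [] => decide (b ≤ a)
  | _, _, [] :: _ => false
  | a, b, (t :: c) :: l =>
    decide (0 < t.qx) && decide (t.x0 * b ≤ a * t.qx) &&
      (t :: c).all (fun u => decide (0 < u.qx) && decide (u.x0 * t.qx = t.x0 * u.qx) &&
        decide (u.x1 * t.qx = t.x1 * u.qx)) &&
      (let e := covY y0 1 (t :: c)
       decide (0 < e.2) && decide (y1 * e.2 ≤ e.1)) && covR y0 y1 t.x1 t.qx l

/-- the same for the sliver `1 ≤ y`, `(2+x²) y² ≤ 3` -/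
def covS : Int → Int → List (List Itm) → Bool
  | a, b, [] => decide (b ≤ a)
  | _, _, [] :: _ => false
  | a, b, (t :: c) :: l =>
    decide (0 < t.qx) && decide (0 ≤ t.x0) && decide (t.x0 * b ≤ a * t.qx) &&
      (t :: c).all (fun u => decide (0 < u.qx) && decide (u.x0 * t.qx = t.x0 * u.qx) &&
        decide (u.x1 * t.qx = t.x1 * u.qx)) &&
      (let e := covY 1 1 (t :: c)
       decide (0 < e.2) && decide (0 < e.1) &&
        decide (3 * (t.qx * e.2) ^ 2 ≤ (2 * t.qx ^ 2 + t.x0 ^ 2) * e.1 ^ 2)) && covS t.x1 t.qx l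

/-! ### gauges -/

/-- gauge on one quadrant of one region. Terms `(m, n, f)` stand for `f s_m s_n`.
`G` : `V_y = N⁻¹ ∑` (`m, n ≤ 5`), `H` : `V_x = N⁻³ ∑` (`m, n ≤ 3`),
`Z` : `(V_x, V_y) = N⁻¹ ∑ (1, -x y/2)` (`m, n ≤ 3` or `6, 7`), `K` the K gauge
`(V_x, V_y) = N⁻¹ K (-2 q ν, q (κ - u + y q))`.
Linear part: `V_y = f0 u + f1 q + f2 p + fa a + fb b - (x y/2) (fc c + fd d)`,
`V_x = - f2_y u + h2 p - m h2_x u + fc c + fd d`. -/
structure Ga where
  G : List Trm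
  H : List Trm
  Z : List Trm
  K : P
  f0 : P
  f1 : P
  f2 : P
  h2 : P
  fa : P
  fb : P
  fc : P
  fd : P

/-- admissible indices -/
def wfG (g : Ga) : Bool :=
  let i5 (k : Nat) : Bool := decide (k ≤ 5)
  let i3 (k : Nat) : Bool := decide (k ≤ 3)
  let i7 (k : Nat) : Bool := decide (k ≤ 3) || k == 6 || k == 7
  g.G.all (fun t => i5 t.1 && i5 t.2.1) && g.H.all (fun t => i3 t.1 && i3 t.2.1) &&
    g.Z.all (fun t => i7 t.1 && i7 t.2.1)

def NN (k : Nat) (p : P) : P := Nat.rec p (fun _ q => N3 q) k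

/-- `l (κ - u + y q)` -/
def psS (l : P) : LF := qAdd (eS 10 l) (qAdd (eS 1 (negP l)) (eS 2 (pY l)))
/-- `3 N² f ∂_y s_k` -/
def dy3 (k : Nat) (f : P) : LF :=
  match k with
  | 0 => eS 0 (pSm (-3) (pY f))
  | 1 => eS 2 (N3 f)
  | 2 => eS 8 (N3 f)
  | 3 => eS 9 (N3 f)
  | _ => zL
/-- `2 m f ∂_x s_k` -/
def dx2 (k : Nat) (f : P) : LF :=
  match k with
  | 1 => eS 3 (pSm 2 f)
  | 2 => eS 9 (pSm 2 f)
  | 3 => psS f
  | _ => zL
/-- `6 N² f (m ∂_x - (x y/2) ∂_y) s_k` -/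
def dl6 (k : Nat) (f : P) : LF :=
  if k = 6 || k = 7 then eS k (negP (pX (N3 f)))
  else qAdd (dx2 k (N3 f)) (dy3 k (negP (pX (pY f))))

/-- `2 m f_x - x y f_y` -/
def Lf (f : P) : P := pAdd (M2 (pDX f)) (negP (pX (pY (pDY f))))

/-- `-108 N³ ∂_y (N⁻¹ f s_m s_n)` -/
def rG (t : Trm) : List P :=
  sumQ [sS t.1 t.2.1 (pSm (-36) (AG t.2.2)), qMul (dy3 t.1 (pSm (-36) t.2.2)) (eS t.2.1 oneP),
    qMul (eS t.1 oneP) (dy3 t.2.1 (pSm (-36) t.2.2))]
/-- `-108 N³ m ∂_x (N⁻³ f s_m s_n)` -/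
def rH (t : Trm) : List P :=
  sumQ [sS t.1 t.2.1 (pSm (-54) (M2 (pDX t.2.2))), qMul (dx2 t.1 (pSm (-54) t.2.2)) (eS t.2.1 oneP),
    qMul (eS t.1 oneP) (dx2 t.2.1 (pSm (-54) t.2.2))]
/-- `-108 N³` times the divergence of `N⁻¹ f s_m s_n (1, -x y/2)` -/
def rZ (t : Trm) : List P :=
  sumQ [sS t.1 t.2.1 (sumP [pSm (-18) (N3 (Lf t.2.2)), pSm (-18) (pX (pY (pY t.2.2))),
      pSm 18 (N3 (pX t.2.2))]),
    qMul (dl6 t.1 (pSm (-18) t.2.2)) (eS t.2.1 oneP), qMul (eS t.1 oneP) (dl6 t.2.1 (pSm (-18) t.2.2))]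
/-- the K gauge -/
def rK (K : P) : List P :=
  sumQ [qMul (qAdd (eS 2 (pSm (-36) (AG K))) (eS 8 (pSm (-36) (N3 K)))) (psS oneP),
    sS 2 9 (pSm 36 (N3 (M2 (pDX K)))), sS 9 9 (pSm 72 (N3 K))]

/-- linear part -/
def rL (DL : Int) (g : Ga) : List P :=
  qMul (eS 0 (cP DL)) (sumQ
    [eS 2 (pSm (-4) (NN 3 (pDY g.f1))), eS 8 (pSm (-4) (NN 3 g.f1)),
      eS 1 (pSm (-4) (NN 3 (pDY g.f0))), eS 2 (pSm (-4) (NN 3 g.f0)),
      eS 9 (pSm (-4) (NN 3 g.f2)), eS 1 (pSm 2 (NN 3 (M2 (pDX (pDY g.f2))))),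
      eS 10 (pSm (-2) (NN 3 g.h2)), eS 2 (pSm (-2) (NN 3 (pY g.h2))),
      eS 1 (NN 3 (sumP [pSm 2 g.h2, pSm 2 (M2 (pX (pDX g.h2))), M2 (M2 (pDX (pDX g.h2)))])),
      eS 4 (pSm (-4) (NN 3 (pDY g.fa))), eS 5 (pSm (-4) (NN 3 (pDY g.fb))),
      eS 6 (pSm (-2) (NN 3 (pAdd (Lf g.fc) (pSm (-2) (pX g.fc))))),
      eS 7 (pSm (-2) (NN 3 (pAdd (Lf g.fd) (pSm (-2) (pX g.fd)))))])

/-- `108 D` times `u κ + 3 N² u μ` -/
def rB (D : Int) : List P :=
  qAdd (sS 1 10 (cP (108 * D))) (sS 1 8 (pSm (108 * D) (N3 oneP)))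

/-- `108 N³ D` times the residual; `l` replaces the linear part of the base density (a linear form
multiplying the first state) -/
def rA (D DL : Int) (g : Ga) (l : LF) : List P :=
  sumQ [rB D, qMul (eS 0 oneP) l, rL DL g, rK g.K, sumQ (g.G.map rG), sumQ (g.H.map rH),
    sumQ (g.Z.map rZ)]

end Pool.Agent.MCA
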