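import Pool.Agent.MCA.CDf
import Pool.Agent.MCA.ACA
/-!
CCA (120 lines). Polynomial bounds for the surds of the chart, denominator `10^10`.

PROOF. As in ACA.lean. `posG` (grids `nx ny`) of `3 cNh² - 10^20 (3+y²)` [1 3], `10^20 (3+y²) - 3 cNl²` [1 2],
`2 cwh² - 10^20 (2+x²)` [4 1], `10^20 (2+x²) - 2 cwl²` [3 1], on `[0,1] × [31/31, 38/31]`: `sNh` [1 1], `sNl` [1 1];
`36000 cSh² - 10^20 (3+y²)(2+x²)(8430 + 1000 (2+x²) y²)` [4 4],
`360000 sSh² - 10^20 (3+y²)(2+x²)(88227 + 10000 (2+x²) y²)` on `[0,1] × [1, 38/31]` [4 4]; and positivity of the bounds.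
-/
set_option autoImplicit false

namespace Pool.Agent.MCA
open Pool.Agent.MSQ Pool.Agent.MTR

/-- `N w √(1 + ξ²/2 + m y²/3)` for `ξ = 97/100` -/
noncomputable def S97 (x y : ℝ) : ℝ := Nf y * wf x * √(1 + (97 / 100) ^ 2 / 2 + mf x * y ^ 2 / 3)

private theorem CCA_q3 (x y : ℝ) : ev x y [[3, 0, 1]] = 3 + y ^ 2 := by
  simp only [ev, evL]; push_cast; ring

private theorem CCA_q2 (x y : ℝ) : ev x y [[2], [], [1]] = 2 + x ^ 2 := by
  simp only [ev, evL]; push_cast; ring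

private theorem CCA_y2 (x y : ℝ) : ev x y [[0, 0, 1]] = y ^ 2 := by
  simp only [ev, evL]; push_cast; ring

private theorem CCA_c (x y : ℝ) (c : Int) : ev x y [[c]] = c := by
  simp only [ev, evL]; ring

private theorem CCA_Nsq (y : ℝ) : Nf y ^ 2 = 1 + y ^ 2 / 3 := Real.sq_sqrt (by positivity)

private theorem CCA_wsq (x : ℝ) : wf x ^ 2 = 1 + x ^ 2 / 2 := by
  unfold wf mf
  exact Real.sq_sqrt (by positivity)

private theorem CCA_N0 (y : ℝ) : 0 ≤ Nf y := Real.sqrt_nonneg _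

private theorem CCA_w0 (x : ℝ) : 0 ≤ wf x := Real.sqrt_nonneg _

/-- positivity on the unit square -/
private theorem CCA_sq {p : P} {nx ny : Nat} (h : posG p nx ny 0 1 1 0 1 1 = true) (hnx : 0 < nx) (hny : 0 < ny)
    {x y : ℝ} (hx : 0 ≤ x) (hx1 : x ≤ 1) (hy : 0 ≤ y) (hy1 : y ≤ 1) : 0 ≤ ev x y p :=
  posG_sound p nx ny 0 1 1 0 1 1 h hnx hny one_pos one_pos x y (by simpa using hx) (by simpa using hx1)
    (by simpa using hy) (by simpa using hy1)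

/-- positivity on the sliver rectangle -/
private theorem CCA_sl {p : P} {nx ny : Nat} (h : posG p nx ny 0 1 1 31 38 31 = true) (hnx : 0 < nx) (hny : 0 < ny)
    {x y : ℝ} (hx : 0 ≤ x) (hx1 : x ≤ 1) (hy : 1 ≤ y) (hy1 : y ≤ 38 / 31) : 0 ≤ ev x y p :=
  posG_sound p nx ny 0 1 1 31 38 31 h hnx hny one_pos (by norm_num) x y (by simpa using hx) (by simpa using hx1)
    (by push_cast; linarith) (by push_cast; linarith)

private theorem CCA_up {a b : ℝ} (h : a ^ 2 ≤ b ^ 2) (hb : 0 ≤ b) : a ≤ b :=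
  (le_abs_self a).trans (abs_le_of_sq_le_sq h hb)

private theorem CCA_k1 : posG (pAdd (pSm 3 (pMul cNh cNh)) (pSm (-100000000000000000000) [[3, 0, 1]])) 1 3 0 1 1 0 1 1 = true := by
  decide +kernel
private theorem CCA_k1p : posG cNh 1 1 0 1 1 0 1 1 = true := by
  decide +kernel
private theorem CCA_k2 : posG (pAdd (pSm 100000000000000000000 [[3, 0, 1]]) (pSm (-3) (pMul cNl cNl))) 1 2 0 1 1 0 1 1 = true := by
  decide +kernel
private theorem CCA_k3 : posG (pAdd (pSm 2 (pMul cwh cwh)) (pSm (-100000000000000000000) [[2], [], [1]])) 4 1 0 1 1 0 1 1 = true := by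
  decide +kernel
private theorem CCA_k3p : posG cwh 1 1 0 1 1 0 1 1 = true := by
  decide +kernel
private theorem CCA_k4 : posG (pAdd (pSm 100000000000000000000 [[2], [], [1]]) (pSm (-2) (pMul cwl cwl))) 3 1 0 1 1 0 1 1 = true := by
  decide +kernel
private theorem CCA_k5 : posG (pAdd (pSm 3 (pMul sNh sNh)) (pSm (-100000000000000000000) [[3, 0, 1]])) 1 1 0 1 1 31 38 31 = true := by
  decide +kernel
private theorem CCA_k5p : posG sNh 1 1 0 1 1 31 38 31 = true := by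
  decide +kernel
private theorem CCA_k6 : posG (pAdd (pSm 100000000000000000000 [[3, 0, 1]]) (pSm (-3) (pMul sNl sNl))) 1 1 0 1 1 31 38 31 = true := by
  decide +kernel

/-- `(3 + y²)(2 + x²)(c + e (2 + x²) y²)` -/
private def CCA_R (c e : Int) : P :=
  pMul [[3, 0, 1]] (pMul [[2], [], [1]] (pAdd [[c]] (pSm e (pMul [[2], [], [1]] [[0, 0, 1]]))))

private theorem CCA_Rev (x y : ℝ) (c e : Int) :
    ev x y (CCA_R c e) = (3 + y ^ 2) * ((2 + x ^ 2) * (c + e * ((2 + x ^ 2) * y ^ 2))) := by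
  unfold CCA_R
  rw [ev_pMul, ev_pMul, ev_pAdd, ev_pSm, ev_pMul, CCA_q3, CCA_q2, CCA_y2, CCA_c]

private theorem CCA_k7 : posG (pAdd (pSm 36000 (pMul cSh cSh)) (pSm (-100000000000000000000) (CCA_R 8430 1000))) 4 4 0 1 1 0 1 1 = true := by
  decide +kernel
private theorem CCA_k7p : posG cSh 1 1 0 1 1 0 1 1 = true := by
  decide +kernel
private theorem CCA_k9 : posG (pAdd (pSm 360000 (pMul sSh sSh)) (pSm (-100000000000000000000) (CCA_R 88227 10000))) 4 4 0 1 1 31 38 31 = true := by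
  decide +kernel
private theorem CCA_k9p : posG sSh 1 1 0 1 1 31 38 31 = true := by
  decide +kernel

private theorem CCA_S9 (x y : ℝ) :
    S9 x y ^ 2 = (3 + y ^ 2) * ((2 + x ^ 2) * (8430 + 1000 * ((2 + x ^ 2) * y ^ 2))) / 36000 := by
  unfold S9
  rw [mul_pow, mul_pow, CCA_Nsq, CCA_wsq, Real.sq_sqrt (by unfold mf; positivity)]
  unfold mf
  ring

private theorem CCA_S97 (x y : ℝ) :
    S97 x y ^ 2 = (3 + y ^ 2) * ((2 + x ^ 2) * (88227 + 10000 * ((2 + x ^ 2) * y ^ 2))) / 360000 := by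
  unfold S97
  rw [mul_pow, mul_pow, CCA_Nsq, CCA_wsq, Real.sq_sqrt (by unfold mf; positivity)]
  unfold mf
  ring

theorem cN_le (x y : ℝ) (hy : 0 ≤ y) (hy1 : y ≤ 1) : 10 ^ 10 * Nf y ≤ ev x y cNh := by
  have e : ev x y cNh = ev 0 y cNh := by simp only [cNh, ev]; ring
  rw [e]
  have h1 := CCA_sq CCA_k1 (by norm_num) (by norm_num) le_rfl zero_le_one hy hy1
  have h2 := CCA_sq CCA_k1p (by norm_num) (by norm_num) le_rfl zero_le_one hy hy1
  rw [ev_pAdd, ev_pSm, ev_pSm, ev_pMul, CCA_q3] at h1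
  push_cast at h1
  refine CCA_up ?_ h2
  rw [mul_pow, CCA_Nsq]
  nlinarith
theorem cN_ge (x y : ℝ) (hy : 0 ≤ y) (hy1 : y ≤ 1) : ev x y cNl ≤ 10 ^ 10 * Nf y := by
  have e : ev x y cNl = ev 0 y cNl := by simp only [cNl, ev]; ring
  rw [e]
  have h1 := CCA_sq CCA_k2 (by norm_num) (by norm_num) le_rfl zero_le_one hy hy1
  rw [ev_pAdd, ev_pSm, ev_pSm, ev_pMul, CCA_q3] at h1
  push_cast at h1
  refine CCA_up ?_ (mul_nonneg (by norm_num) (CCA_N0 y))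
  rw [mul_pow, CCA_Nsq]
  nlinarith
theorem cw_le (x y : ℝ) (hx : 0 ≤ x) (hx1 : x ≤ 1) : 10 ^ 10 * wf x ≤ ev x y cwh := by
  have e : ev x y cwh = ev x 0 cwh := by simp only [cwh, ev, evL]; ring
  rw [e]
  have h1 := CCA_sq CCA_k3 (by norm_num) (by norm_num) hx hx1 le_rfl zero_le_one
  have h2 := CCA_sq CCA_k3p (by norm_num) (by norm_num) hx hx1 le_rfl zero_le_one
  rw [ev_pAdd, ev_pSm, ev_pSm, ev_pMul, CCA_q2] at h1
  push_cast at h1
  refine CCA_up ?_ h2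
  rw [mul_pow, CCA_wsq]
  nlinarith
theorem cw_ge (x y : ℝ) (hx : 0 ≤ x) (hx1 : x ≤ 1) : ev x y cwl ≤ 10 ^ 10 * wf x := by
  have e : ev x y cwl = ev x 0 cwl := by simp only [cwl, ev, evL]; ring
  rw [e]
  have h1 := CCA_sq CCA_k4 (by norm_num) (by norm_num) hx hx1 le_rfl zero_le_one
  rw [ev_pAdd, ev_pSm, ev_pSm, ev_pMul, CCA_q2] at h1
  push_cast at h1
  refine CCA_up ?_ (mul_nonneg (by norm_num) (CCA_w0 x))
  rw [mul_pow, CCA_wsq]
  nlinarith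
theorem csN_le (x y : ℝ) (hy : 1 ≤ y) (hy1 : y ≤ 38 / 31) : 10 ^ 10 * Nf y ≤ ev x y sNh := by
  have e : ev x y sNh = ev 0 y sNh := by simp only [sNh, ev]; ring
  rw [e]
  have h1 := CCA_sl CCA_k5 (by norm_num) (by norm_num) le_rfl zero_le_one hy hy1
  have h2 := CCA_sl CCA_k5p (by norm_num) (by norm_num) le_rfl zero_le_one hy hy1
  rw [ev_pAdd, ev_pSm, ev_pSm, ev_pMul, CCA_q3] at h1
  push_cast at h1
  refine CCA_up ?_ h2
  rw [mul_pow, CCA_Nsq]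
  nlinarith
theorem csN_ge (x y : ℝ) (hy : 1 ≤ y) (hy1 : y ≤ 38 / 31) : ev x y sNl ≤ 10 ^ 10 * Nf y := by
  have e : ev x y sNl = ev 0 y sNl := by simp only [sNl, ev]; ring
  rw [e]
  have h1 := CCA_sl CCA_k6 (by norm_num) (by norm_num) le_rfl zero_le_one hy hy1
  rw [ev_pAdd, ev_pSm, ev_pSm, ev_pMul, CCA_q3] at h1
  push_cast at h1
  refine CCA_up ?_ (mul_nonneg (by norm_num) (CCA_N0 y))
  rw [mul_pow, CCA_Nsq]
  nlinarith
theorem cS_le (x y : ℝ) (hx : 0 ≤ x) (hx1 : x ≤ 1) (hy : 0 ≤ y) (hy1 : y ≤ 1) : 10 ^ 10 * S9 x y ≤ ev x y cSh := by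
  have h1 := CCA_sq CCA_k7 (by norm_num) (by norm_num) hx hx1 hy hy1
  have h2 := CCA_sq CCA_k7p (by norm_num) (by norm_num) hx hx1 hy hy1
  rw [ev_pAdd, ev_pSm, ev_pSm, ev_pMul, CCA_Rev] at h1
  push_cast at h1
  refine CCA_up ?_ h2
  rw [mul_pow, CCA_S9]
  linarith
theorem csS_le (x y : ℝ) (hx : 0 ≤ x) (hx1 : x ≤ 1) (hy : 1 ≤ y) (hy1 : y ≤ 38 / 31) :
    10 ^ 10 * S97 x y ≤ ev x y sSh := by
  have h1 := CCA_sl CCA_k9 (by norm_num) (by norm_num) hx hx1 hy hy1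
  have h2 := CCA_sl CCA_k9p (by norm_num) (by norm_num) hx hx1 hy hy1
  rw [ev_pAdd, ev_pSm, ev_pSm, ev_pMul, CCA_Rev] at h1
  push_cast at h1
  refine CCA_up ?_ h2
  rw [mul_pow, CCA_S97]
  linarith

end Pool.Agent.MCA
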