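import Pool.Agent.MCA.CCA
import Pool.Agent.MCA.VCO
/-!
CCN1 (150 lines). Constants of the C cells in the core, part 1.

PROOF. As in ACN.lean (same structure and same private lemmas), with the bounds of CCA.lean:
`7071067811/10^10 ≤ cc ≤ 7071067812/10^10`, `17320508075/10^10 ≤ √3 ≤ 17320508076/10^10`, `W = w N`.
Check polynomials (all were verified in exact arithmetic with these bounds, `posG` on `[0,1]²`, grids in brackets):
`cC3`, `cC4`: exactly as for `aBp`, `aBm` [3 3], [4 4];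
`cC5`: `cC5 - DL N² (m (√3/2) N - (1 + x/2) cc W)` [6 6] (`N ≤ cNh`, `W ≥ cwl cNl`).
-/
set_option autoImplicit false

namespace Pool.Agent.MCA
open Pool.Agent.MSQ Pool.Agent.MTR

/-! constants -/
private theorem ccn_s3 : (17320508075 / 10 ^ 10 : ℝ) ≤ √3 ∧ √3 ≤ 17320508076 / 10 ^ 10 := by
  constructor
  · exact Real.le_sqrt_of_sq_le (by norm_num)
  · rw [Real.sqrt_le_left (by norm_num)]
    norm_num
private theorem ccn_cc : (7071067811 / 10 ^ 10 : ℝ) ≤ cc ∧ cc ≤ 7071067812 / 10 ^ 10 := by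
  have h0 : 0 < cc := by unfold cc; positivity
  have h2 : cc ^ 2 = 1 / 2 := by
    unfold cc
    rw [div_pow, Real.sq_sqrt (by norm_num), one_pow]
  constructor
  · rw [← pow_le_pow_iff_left₀ (by norm_num) h0.le two_ne_zero, h2]
    norm_num
  · rw [← pow_le_pow_iff_left₀ h0.le (by norm_num) two_ne_zero, h2]
    norm_num
private theorem ccn_N0 (y : ℝ) : 0 < Nf y := Real.sqrt_pos.mpr (by positivity)
private theorem ccn_N2 (y : ℝ) : Nf y ^ 2 = (3 + y ^ 2) / 3 := by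
  unfold Nf
  rw [Real.sq_sqrt (by positivity)]
  ring
private theorem ccn_m0 (x : ℝ) : 0 < mf x := by unfold mf; positivity
private theorem ccn_w0 (x : ℝ) : 0 < wf x := Real.sqrt_pos.mpr (ccn_m0 x)
private theorem ccn_w2 (x : ℝ) : wf x ^ 2 = mf x := Real.sq_sqrt (ccn_m0 x).le
private theorem ccn_m (x : ℝ) : mf x = (2 + x ^ 2) / 2 := by unfold mf; ring

private theorem ccn_pos (p : P) (nx ny : Nat) (h : posG p nx ny 0 1 1 0 1 1 = true) (hnx : 0 < nx) (hny : 0 < ny)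
    (x y : ℝ) (hx : 0 ≤ x) (hx1 : x ≤ 1) (hy : 0 ≤ y) (hy1 : y ≤ 1) : 0 ≤ ev x y p :=
  posG_sound p nx ny 0 1 1 0 1 1 h hnx hny one_pos one_pos x y (by simpa using hx) (by simpa using hx1)
    (by simpa using hy) (by simpa using hy1)

private theorem ccn_Nl (x y : ℝ) (hx : 0 ≤ x) (hx1 : x ≤ 1) (hy : 0 ≤ y) (hy1 : y ≤ 1) : 0 ≤ ev x y cNl :=
  ccn_pos cNl 1 1 (by decide +kernel) one_pos one_pos x y hx hx1 hy hy1
private theorem ccn_wl (x y : ℝ) (hx : 0 ≤ x) (hx1 : x ≤ 1) (hy : 0 ≤ y) (hy1 : y ≤ 1) : 0 ≤ ev x y cwl :=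
  ccn_pos cwl 1 1 (by decide +kernel) one_pos one_pos x y hx hx1 hy hy1

/-- `10^20 W` between the products -/
private theorem ccn_W (x y : ℝ) (hx : 0 ≤ x) (hx1 : x ≤ 1) (hy : 0 ≤ y) (hy1 : y ≤ 1) :
    ev x y cwl * ev x y cNl ≤ 10 ^ 20 * (wf x * Nf y) ∧ 10 ^ 20 * (wf x * Nf y) ≤ ev x y cwh * ev x y cNh := by
  have a1 := cw_ge x y hx hx1
  have a2 := cw_le x y hx hx1
  have b1 := cN_ge x y hy hy1
  have b2 := cN_le x y hy hy1
  have c1 := ccn_Nl x y hx hx1 hy hy1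
  have c2 := ccn_wl x y hx hx1 hy hy1
  have d1 := ccn_w0 x
  have d2 := ccn_N0 y
  have e1 : (10 : ℝ) ^ 20 * (wf x * Nf y) = (10 ^ 10 * wf x) * (10 ^ 10 * Nf y) := by ring
  rw [e1]
  constructor
  · exact mul_le_mul a1 b1 c1 (by positivity)
  · exact mul_le_mul a2 b2 (by positivity) (le_trans (by positivity) a2)

/-! check polynomials -/
private def qBp : P := pAdd (pSm (60 * 10 ^ 30) cC3) (pSm (-1594323) (N3 (pAdd (pSm (60 * 10 ^ 20) cSh)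
  (pAdd (pSm (-(87 * 7071067811)) (pMul cwl cNl)) (pAdd (pSm (-(10 ^ 31)) (M2 (N3 (cP 1))))
    (pAdd (pSm (15 * 10 ^ 9 * 17320508076) (pMul (pAdd (cP 20) (pX (cP 9))) cNh))
      (pSm (-(3 * 10 ^ 30)) (pX (pAdd (cP 9) (pX (cP (-10)))))))))))) 
private def qBm : P := pAdd (pSm (60 * 10 ^ 30) cC4) (pSm (-1594323) (N3 (pAdd (pSm (60 * 10 ^ 20) cSh)
  (pAdd (pSm (-(87 * 7071067811)) (pMul cwl cNl)) (pAdd (pSm (-(10 ^ 31)) (M2 (N3 (cP 1))))
    (pAdd (pSm (15 * 10 ^ 9 * 17320508076) (pMul (pAdd (cP 20) (pX (cP (-9)))) cNh))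
      (pSm (3 * 10 ^ 30) (pX (pAdd (cP 9) (pX (cP 10)))))))))))
private def qC5 : P := pAdd (pSm (4 * 10 ^ 30) cC5) (pSm (-1594323) (N3 (pAdd (pSm (10 ^ 10 * 17320508076) (M2 cNh))
  (pSm (-(2 * 7071067811)) (pMul (pAdd (cP 2) (pX (cP 1))) (pMul cwl cNl))))))

theorem cC3_ok (x y : ℝ) (hx : 0 ≤ x) (hx1 : x ≤ 1) (hy : 0 ≤ y) (hy1 : y ≤ 1) :
    4782969 * Nf y ^ 3 * kB x y (9 / 10) ≤ ev x y cC3 := by
  have hc := ccn_pos qBp 3 3 (by decide +kernel) three_pos three_pos x y hx hx1 hy hy1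
  unfold qBp at hc
  simp only [ev_pAdd, ev_pSm, ev_pMul, ev_N3, ev_M2, ev_cP, ev_pX] at hc
  push_cast at hc
  obtain ⟨W1, W2⟩ := ccn_W x y hx hx1 hy hy1
  obtain ⟨c1, c2⟩ := ccn_cc
  obtain ⟨r1, r2⟩ := ccn_s3
  have hN0 := ccn_N0 y
  have hw0 := ccn_w0 x
  have hN2 := ccn_N2 y
  have hm := ccn_m x
  have hS := cS_le x y hx hx1 hy hy1
  have hN := cN_le x y hy hy1
  have e1 : Nf y ^ 3 * kB x y (9 / 10) = Nf y ^ 2 * (S9 x y - 29 / 20 * cc * (wf x * Nf y) - mf x * Nf y ^ 2 +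
      s3 * Nf y * (1 + 9 * x / 20) - x * (9 / 10 - x) / 2) := by
    unfold kB S9 mf
    field_simp
    ring
  have h1 : ev x y cwl * ev x y cNl * 7071067811 ≤ 10 ^ 30 * (cc * (wf x * Nf y)) := by
    have h2 : (0 : ℝ) ≤ 10 ^ 20 * (wf x * Nf y) := by positivity
    have h3 := mul_le_mul W1 c1 (by norm_num) h2
    linarith
  have h2 : 2 * 10 ^ 20 * (s3 * Nf y) ≤ 17320508076 * ev x y cNh := by
    unfold s3
    have h3 : (0 : ℝ) ≤ 10 ^ 10 * Nf y := by positivity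
    have h4 := mul_le_mul hN r2 (by positivity) (h3.trans hN)
    linarith
  have h3 := mul_le_mul_of_nonneg_right h2 (show (0 : ℝ) ≤ 20 + 9 * x by positivity)
  have h4 : 60 * 10 ^ 30 * (S9 x y - 29 / 20 * cc * (wf x * Nf y) - mf x * Nf y ^ 2 +
      s3 * Nf y * (1 + 9 * x / 20) - x * (9 / 10 - x) / 2) ≤
      60 * 10 ^ 20 * ev x y cSh + (-(87 * 7071067811) * (ev x y cwl * ev x y cNl) + (-(10 ^ 31) * ((2 + x ^ 2) * ((3 + y ^ 2) * 1)) +
      (15 * 10 ^ 9 * 17320508076 * ((20 + x * 9) * ev x y cNh) + -(3 * 10 ^ 30) * (x * (9 + x * -10))))) := by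
    rw [hm, hN2]
    linarith
  have h5 := mul_le_mul_of_nonneg_left h4 (show (0 : ℝ) ≤ 1594323 * (3 + y ^ 2) by positivity)
  have e2 : 4782969 * Nf y ^ 3 * kB x y (9 / 10) = 4782969 * (Nf y ^ 3 * kB x y (9 / 10)) := by ring
  rw [e2, e1, hN2]
  rw [hN2] at h5
  linarith
theorem cC4_ok (x y : ℝ) (hx : 0 ≤ x) (hx1 : x ≤ 1) (hy : 0 ≤ y) (hy1 : y ≤ 1) :
    4782969 * Nf y ^ 3 * kBm x y (9 / 10) ≤ ev x y cC4 := by
  have hc := ccn_pos qBm 4 4 (by decide +kernel) four_pos four_pos x y hx hx1 hy hy1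
  unfold qBm at hc
  simp only [ev_pAdd, ev_pSm, ev_pMul, ev_N3, ev_M2, ev_cP, ev_pX] at hc
  push_cast at hc
  obtain ⟨W1, W2⟩ := ccn_W x y hx hx1 hy hy1
  obtain ⟨c1, c2⟩ := ccn_cc
  obtain ⟨r1, r2⟩ := ccn_s3
  have hN0 := ccn_N0 y
  have hw0 := ccn_w0 x
  have hN2 := ccn_N2 y
  have hm := ccn_m x
  have hS := cS_le x y hx hx1 hy hy1
  have hN := cN_le x y hy hy1
  have e1 : Nf y ^ 3 * kBm x y (9 / 10) = Nf y ^ 2 * (S9 x y - 29 / 20 * cc * (wf x * Nf y) - mf x * Nf y ^ 2 +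
      s3 * Nf y * (1 - 9 * x / 20) + x * (9 / 10 + x) / 2) := by
    unfold kBm S9 mf
    field_simp
    ring
  have h1 : ev x y cwl * ev x y cNl * 7071067811 ≤ 10 ^ 30 * (cc * (wf x * Nf y)) := by
    have h2 : (0 : ℝ) ≤ 10 ^ 20 * (wf x * Nf y) := by positivity
    have h3 := mul_le_mul W1 c1 (by norm_num) h2
    linarith
  have h2 : 2 * 10 ^ 20 * (s3 * Nf y) ≤ 17320508076 * ev x y cNh := by
    unfold s3
    have h3 : (0 : ℝ) ≤ 10 ^ 10 * Nf y := by positivity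
    have h4 := mul_le_mul hN r2 (by positivity) (h3.trans hN)
    linarith
  have h3 := mul_le_mul_of_nonneg_right h2 (show (0 : ℝ) ≤ 20 - 9 * x by linarith)
  have h4 : 60 * 10 ^ 30 * (S9 x y - 29 / 20 * cc * (wf x * Nf y) - mf x * Nf y ^ 2 +
      s3 * Nf y * (1 - 9 * x / 20) + x * (9 / 10 + x) / 2) ≤
      60 * 10 ^ 20 * ev x y cSh + (-(87 * 7071067811) * (ev x y cwl * ev x y cNl) + (-(10 ^ 31) * ((2 + x ^ 2) * ((3 + y ^ 2) * 1)) +
      (15 * 10 ^ 9 * 17320508076 * ((20 + x * -9) * ev x y cNh) + 3 * 10 ^ 30 * (x * (9 + x * 10))))) := by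
    rw [hm, hN2]
    linarith
  have h5 := mul_le_mul_of_nonneg_left h4 (show (0 : ℝ) ≤ 1594323 * (3 + y ^ 2) by positivity)
  have e2 : 4782969 * Nf y ^ 3 * kBm x y (9 / 10) = 4782969 * (Nf y ^ 3 * kBm x y (9 / 10)) := by ring
  rw [e2, e1, hN2]
  rw [hN2] at h5
  linarith
theorem cC5_ok (x y : ℝ) (hx : 0 ≤ x) (hx1 : x ≤ 1) (hy : 0 ≤ y) (hy1 : y ≤ 1) :
    4782969 * Nf y ^ 3 * (mf x * (s3 - (1 + x / 2) * cc / wf x)) ≤ ev x y cC5 := by
  have hc := ccn_pos qC5 6 6 (by decide +kernel) (by norm_num) (by norm_num) x y hx hx1 hy hy1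
  unfold qC5 at hc
  simp only [ev_pAdd, ev_pSm, ev_pMul, ev_N3, ev_M2, ev_cP, ev_pX] at hc
  push_cast at hc
  obtain ⟨W1, W2⟩ := ccn_W x y hx hx1 hy hy1
  obtain ⟨c1, c2⟩ := ccn_cc
  obtain ⟨r1, r2⟩ := ccn_s3
  have hN0 := ccn_N0 y
  have hw0 := ccn_w0 x
  have hN2 := ccn_N2 y
  have hm := ccn_m x
  have hw2 := ccn_w2 x
  have hN := cN_le x y hy hy1
  have e1 : Nf y ^ 3 * (mf x * (s3 - (1 + x / 2) * cc / wf x)) =
      Nf y ^ 2 * (mf x * (s3 * Nf y) - (1 + x / 2) * (cc * (wf x * Nf y))) := by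
    rw [← hw2]
    field_simp
  have h1 : ev x y cwl * ev x y cNl * 7071067811 ≤ 10 ^ 30 * (cc * (wf x * Nf y)) := by
    have h2 : (0 : ℝ) ≤ 10 ^ 20 * (wf x * Nf y) := by positivity
    have h3 := mul_le_mul W1 c1 (by norm_num) h2
    linarith
  have h2 : 2 * 10 ^ 20 * (s3 * Nf y) ≤ 17320508076 * ev x y cNh := by
    unfold s3
    have h3 : (0 : ℝ) ≤ 10 ^ 10 * Nf y := by positivity
    have h4 := mul_le_mul hN r2 (by positivity) (h3.trans hN)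
    linarith
  have h3 := mul_le_mul_of_nonneg_right h2 (show (0 : ℝ) ≤ 10 ^ 10 * (2 + x ^ 2) by positivity)
  have h6 := mul_le_mul_of_nonneg_right h1 (show (0 : ℝ) ≤ 2 * (2 + x) by positivity)
  have h4 : 4 * 10 ^ 30 * (mf x * (s3 * Nf y) - (1 + x / 2) * (cc * (wf x * Nf y))) ≤
      10 ^ 10 * 17320508076 * ((2 + x ^ 2) * ev x y cNh) +
        -(2 * 7071067811) * ((2 + x * 1) * (ev x y cwl * ev x y cNl)) := by
    rw [hm]
    linarith
  have h5 := mul_le_mul_of_nonneg_left h4 (show (0 : ℝ) ≤ 1594323 * (3 + y ^ 2) by positivity)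
  have e2 : 4782969 * Nf y ^ 3 * (mf x * (s3 - (1 + x / 2) * cc / wf x)) =
      4782969 * (Nf y ^ 3 * (mf x * (s3 - (1 + x / 2) * cc / wf x))) := by ring
  rw [e2, e1, hN2]
  linarith

end Pool.Agent.MCA
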