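import Pool.Agent.MCA.CCA
import Pool.Agent.MCA.VCO
/-!
CCN2 (180 lines). Constants of the C cells in the core, part 2.

PROOF. As in ACN.lean (same structure and same private lemmas), with the bounds of CCA.lean:
`7071067811/10^10 ≤ cc ≤ 7071067812/10^10`, `17320508075/10^10 ≤ √3 ≤ 17320508076/10^10`, `W = w N`.
Check polynomials (all were verified in exact arithmetic with these bounds, `posG` on `[0,1]²`, grids in brackets):
`cC21 - DL N² ((3/2) cc W - (√3/2)(1 + x/2) N)` [8 8] (`W ≤ cwh cNh`, `N ≥ cNl`), `cC31 - DL N² (cc W/2 - (√3/4) x N)` [6 6],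
`cKh - DL N² (√3/2) N` [1 5], `DL N² (√3/2) N - cKl` [1 4] (`N ≥ cNl`), `m cUE - DL N² cc (1+x) W` [10 10],
`m cUZ - DL N² (cc W + m y (√3/3) N)` [9 9].
-/
set_option autoImplicit false

namespace Pool.Agent.MCA
open Pool.Agent.MSQ Pool.Agent.MTR

/-! constants -/
private theorem ccn2_s3 : (17320508075 / 10 ^ 10 : ℝ) ≤ √3 ∧ √3 ≤ 17320508076 / 10 ^ 10 := by
  constructor
  · exact Real.le_sqrt_of_sq_le (by norm_num)
  · rw [Real.sqrt_le_left (by norm_num)]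
    norm_num
private theorem ccn2_cc : (7071067811 / 10 ^ 10 : ℝ) ≤ cc ∧ cc ≤ 7071067812 / 10 ^ 10 := by
  have h0 : 0 < cc := by unfold cc; positivity
  have h2 : cc ^ 2 = 1 / 2 := by
    unfold cc
    rw [div_pow, Real.sq_sqrt (by norm_num), one_pow]
  constructor
  · rw [← pow_le_pow_iff_left₀ (by norm_num) h0.le two_ne_zero, h2]
    norm_num
  · rw [← pow_le_pow_iff_left₀ h0.le (by norm_num) two_ne_zero, h2]
    norm_num
private theorem ccn2_N0 (y : ℝ) : 0 < Nf y := Real.sqrt_pos.mpr (by positivity)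
private theorem ccn2_N2 (y : ℝ) : Nf y ^ 2 = (3 + y ^ 2) / 3 := by
  unfold Nf
  rw [Real.sq_sqrt (by positivity)]
  ring
private theorem ccn2_m0 (x : ℝ) : 0 < mf x := by unfold mf; positivity
private theorem ccn2_w0 (x : ℝ) : 0 < wf x := Real.sqrt_pos.mpr (ccn2_m0 x)
private theorem ccn2_w2 (x : ℝ) : wf x ^ 2 = mf x := Real.sq_sqrt (ccn2_m0 x).le
private theorem ccn2_m (x : ℝ) : mf x = (2 + x ^ 2) / 2 := by unfold mf; ring

private theorem ccn2_pos (p : P) (nx ny : Nat) (h : posG p nx ny 0 1 1 0 1 1 = true) (hnx : 0 < nx) (hny : 0 < ny)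
    (x y : ℝ) (hx : 0 ≤ x) (hx1 : x ≤ 1) (hy : 0 ≤ y) (hy1 : y ≤ 1) : 0 ≤ ev x y p :=
  posG_sound p nx ny 0 1 1 0 1 1 h hnx hny one_pos one_pos x y (by simpa using hx) (by simpa using hx1)
    (by simpa using hy) (by simpa using hy1)

private theorem ccn2_Nl (x y : ℝ) (hx : 0 ≤ x) (hx1 : x ≤ 1) (hy : 0 ≤ y) (hy1 : y ≤ 1) : 0 ≤ ev x y cNl :=
  ccn2_pos cNl 1 1 (by decide +kernel) one_pos one_pos x y hx hx1 hy hy1

private theorem ccn2_W (x y : ℝ) (hx : 0 ≤ x) (hx1 : x ≤ 1) (hy : 0 ≤ y) (hy1 : y ≤ 1) :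
    10 ^ 20 * (wf x * Nf y) ≤ ev x y cwh * ev x y cNh := by
  have a2 := cw_le x y hx hx1
  have b2 := cN_le x y hy hy1
  have d1 := ccn2_w0 x
  have d2 := ccn2_N0 y
  have e1 : (10 : ℝ) ^ 20 * (wf x * Nf y) = (10 ^ 10 * wf x) * (10 ^ 10 * Nf y) := by ring
  rw [e1]
  exact mul_le_mul a2 b2 (by positivity) (le_trans (by positivity) a2)
private theorem ccn2_cW (x y : ℝ) (hx : 0 ≤ x) (hx1 : x ≤ 1) (hy : 0 ≤ y) (hy1 : y ≤ 1) :
    10 ^ 30 * (cc * (wf x * Nf y)) ≤ 7071067812 * (ev x y cwh * ev x y cNh) := by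
  have W2 := ccn2_W x y hx hx1 hy hy1
  obtain ⟨c1, c2⟩ := ccn2_cc
  have hN0 := ccn2_N0 y
  have hw0 := ccn2_w0 x
  have h2 : (0 : ℝ) ≤ 10 ^ 20 * (wf x * Nf y) := by positivity
  have h3 := mul_le_mul W2 c2 (by linarith) (h2.trans W2)
  linarith
private theorem ccn2_rN (x y : ℝ) (hy : 0 ≤ y) (hy1 : y ≤ 1) :
    10 ^ 20 * (√3 * Nf y) ≤ 17320508076 * ev x y cNh := by
  obtain ⟨r1, r2⟩ := ccn2_s3
  have hN := cN_le x y hy hy1
  have hN0 := ccn2_N0 y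
  have h3 : (0 : ℝ) ≤ 10 ^ 10 * Nf y := by positivity
  have h4 := mul_le_mul hN r2 (by positivity) (h3.trans hN)
  linarith
private theorem ccn2_rl (x y : ℝ) (hx : 0 ≤ x) (hx1 : x ≤ 1) (hy : 0 ≤ y) (hy1 : y ≤ 1) :
    17320508075 * ev x y cNl ≤ 10 ^ 20 * (√3 * Nf y) := by
  obtain ⟨r1, r2⟩ := ccn2_s3
  have hN := cN_ge x y hy hy1
  have hN0 := ccn2_N0 y
  have hl := ccn2_Nl x y hx hx1 hy hy1
  have h2 : (0 : ℝ) ≤ 10 ^ 10 * Nf y := by positivity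
  have h3 := mul_le_mul hN r1 (by norm_num) h2
  linarith

private theorem ccn2_ind (x y : ℝ) (r : List Int) : ev x y [r] = ev 0 y [r] := by
  simp [ev]

/-! check polynomials -/
private def ccn2q21 : P := pAdd (pSm (4 * 10 ^ 30) cC21) (pSm (-1594323) (N3 (pAdd (pSm (6 * 7071067812) (pMul cwh cNh))
  (pSm (-(10 ^ 10 * 17320508075)) (pMul (pAdd (cP 2) (pX (cP 1))) cNl)))))
private def ccn2q31 : P := pAdd (pSm (4 * 10 ^ 30) cC31) (pSm (-1594323) (N3 (pAdd (pSm (2 * 7071067812) (pMul cwh cNh))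
  (pSm (-(10 ^ 10 * 17320508075)) (pX cNl)))))
private def ccn2qKh : P := pAdd (pSm (2 * 10 ^ 20) cKh) (pSm (-(1594323 * 17320508076)) (N3 cNh))
private def ccn2qKl : P := pAdd (pSm (1594323 * 17320508075) (N3 cNl)) (pSm (-(2 * 10 ^ 20)) cKl)
private def ccn2qUE : P := pAdd (pSm (10 ^ 30) (M2 cUE)) (pSm (-(2 * 1594323 * 7071067812))
  (N3 (pMul (pAdd (cP 1) (pX (cP 1))) (pMul cwh cNh))))
private def ccn2qUZ : P := pAdd (pSm (3 * 10 ^ 30) (M2 cUZ)) (pSm (-1594323)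
  (N3 (pAdd (pSm (6 * 7071067812) (pMul cwh cNh)) (pSm (10 ^ 10 * 17320508076) (M2 (pY cNh))))))


theorem cC21_ok (x y : ℝ) (hx : 0 ≤ x) (hx1 : x ≤ 1) (hy : 0 ≤ y) (hy1 : y ≤ 1) :
    4782969 * Nf y ^ 3 * (3 / 2 * cc * wf x - s3 * (1 + x / 2)) ≤ ev x y cC21 := by
  have hc := ccn2_pos ccn2q21 8 8 (by decide +kernel) (by norm_num) (by norm_num) x y hx hx1 hy hy1
  unfold ccn2q21 at hc
  simp only [ev_pAdd, ev_pSm, ev_pMul, ev_N3, ev_cP, ev_pX] at hc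
  push_cast at hc
  have hN0 := ccn2_N0 y
  have hN2 := ccn2_N2 y
  have h1 := ccn2_cW x y hx hx1 hy hy1
  have h2 := ccn2_rl x y hx hx1 hy hy1
  have e1 : 4782969 * Nf y ^ 3 * (3 / 2 * cc * wf x - s3 * (1 + x / 2)) =
      4782969 * Nf y ^ 2 * (3 / 2 * (cc * (wf x * Nf y)) - √3 * Nf y * (2 + x) / 4) := by
    unfold s3
    ring
  have h3 := mul_le_mul_of_nonneg_right h2 (show (0 : ℝ) ≤ 2 + x by positivity)
  have h4 : 4 * 10 ^ 30 * (3 / 2 * (cc * (wf x * Nf y)) - √3 * Nf y * (2 + x) / 4) ≤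
      6 * 7071067812 * (ev x y cwh * ev x y cNh) + -(10 ^ 10 * 17320508075) * ((2 + x * 1) * ev x y cNl) := by
    linarith
  have h5 := mul_le_mul_of_nonneg_left h4 (show (0 : ℝ) ≤ 1594323 * (3 + y ^ 2) by positivity)
  rw [e1, hN2]
  linarith
theorem cC31_ok (x y : ℝ) (hx : 0 ≤ x) (hx1 : x ≤ 1) (hy : 0 ≤ y) (hy1 : y ≤ 1) :
    4782969 * Nf y ^ 3 * (cc * wf x / 2 - s3 * x / 2) ≤ ev x y cC31 := by
  have hc := ccn2_pos ccn2q31 6 6 (by decide +kernel) (by norm_num) (by norm_num) x y hx hx1 hy hy1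
  unfold ccn2q31 at hc
  simp only [ev_pAdd, ev_pSm, ev_pMul, ev_N3, ev_pX] at hc
  push_cast at hc
  have hN0 := ccn2_N0 y
  have hN2 := ccn2_N2 y
  have h1 := ccn2_cW x y hx hx1 hy hy1
  have h2 := ccn2_rl x y hx hx1 hy hy1
  have e1 : 4782969 * Nf y ^ 3 * (cc * wf x / 2 - s3 * x / 2) =
      4782969 * Nf y ^ 2 * (cc * (wf x * Nf y) / 2 - √3 * Nf y * x / 4) := by
    unfold s3
    ring
  have h3 := mul_le_mul_of_nonneg_right h2 hx
  have h4 : 4 * 10 ^ 30 * (cc * (wf x * Nf y) / 2 - √3 * Nf y * x / 4) ≤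
      2 * 7071067812 * (ev x y cwh * ev x y cNh) + -(10 ^ 10 * 17320508075) * (x * ev x y cNl) := by
    linarith
  have h5 := mul_le_mul_of_nonneg_left h4 (show (0 : ℝ) ≤ 1594323 * (3 + y ^ 2) by positivity)
  rw [e1, hN2]
  linarith
theorem cKh_ok (x y : ℝ) (hy : 0 ≤ y) (hy1 : y ≤ 1) : 4782969 * Nf y ^ 3 * s3 ≤ ev x y cKh := by
  have hx : ev x y cKh = ev 0 y cKh := ccn2_ind x y _
  rw [hx]
  have hc := ccn2_pos ccn2qKh 1 5 (by decide +kernel) (by norm_num) (by norm_num) 0 y le_rfl zero_le_one hy hy1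
  unfold ccn2qKh at hc
  simp only [ev_pAdd, ev_pSm, ev_N3] at hc
  push_cast at hc
  have hN2 := ccn2_N2 y
  have h2 := ccn2_rN 0 y hy hy1
  have h3 := mul_le_mul_of_nonneg_left h2 (show (0 : ℝ) ≤ 1594323 * (3 + y ^ 2) by positivity)
  have e1 : 4782969 * Nf y ^ 3 * s3 = 4782969 * Nf y ^ 2 * (√3 * Nf y) / 2 := by
    unfold s3
    ring
  rw [e1, hN2]
  linarith
theorem cKl_ok (x y : ℝ) (hy : 0 ≤ y) (hy1 : y ≤ 1) : ev x y cKl ≤ 4782969 * Nf y ^ 3 * s3 := by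
  have hx : ev x y cKl = ev 0 y cKl := ccn2_ind x y _
  rw [hx]
  have hc := ccn2_pos ccn2qKl 1 4 (by decide +kernel) (by norm_num) (by norm_num) 0 y le_rfl zero_le_one hy hy1
  unfold ccn2qKl at hc
  simp only [ev_pAdd, ev_pSm, ev_N3] at hc
  push_cast at hc
  have hN2 := ccn2_N2 y
  have h2 := ccn2_rl 0 y le_rfl zero_le_one hy hy1
  have h3 := mul_le_mul_of_nonneg_left h2 (show (0 : ℝ) ≤ 1594323 * (3 + y ^ 2) by positivity)
  have e1 : 4782969 * Nf y ^ 3 * s3 = 4782969 * Nf y ^ 2 * (√3 * Nf y) / 2 := by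
    unfold s3
    ring
  rw [e1, hN2]
  linarith
theorem cUE_ok (x y : ℝ) (hx : 0 ≤ x) (hx1 : x ≤ 1) (hy : 0 ≤ y) (hy1 : y ≤ 1) :
    4782969 * Nf y ^ 3 * (cc * (1 + x) / wf x) ≤ ev x y cUE := by
  have hc := ccn2_pos ccn2qUE 10 10 (by decide +kernel) (by norm_num) (by norm_num) x y hx hx1 hy hy1
  unfold ccn2qUE at hc
  simp only [ev_pAdd, ev_pSm, ev_pMul, ev_N3, ev_M2, ev_cP, ev_pX] at hc
  push_cast at hc
  have hN0 := ccn2_N0 y
  have hw0 := ccn2_w0 x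
  have hN2 := ccn2_N2 y
  have hm := ccn2_m x
  have hm0 := ccn2_m0 x
  have hw2 := ccn2_w2 x
  have h1 := ccn2_cW x y hx hx1 hy hy1
  have e1 : mf x * (4782969 * Nf y ^ 3 * (cc * (1 + x) / wf x)) =
      4782969 * Nf y ^ 2 * ((1 + x) * (cc * (wf x * Nf y))) := by
    rw [← hw2]
    field_simp
  have h3 := mul_le_mul_of_nonneg_left h1 (show (0 : ℝ) ≤ 2 * 1594323 * (3 + y ^ 2) * (1 + x) by positivity)
  have h5 : mf x * (4782969 * Nf y ^ 3 * (cc * (1 + x) / wf x)) ≤ mf x * ev x y cUE := by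
    rw [e1, hN2, hm]
    linarith
  exact le_of_mul_le_mul_left h5 hm0
theorem cUZ_ok (x y : ℝ) (hx : 0 ≤ x) (hx1 : x ≤ 1) (hy : 0 ≤ y) (hy1 : y ≤ 1) :
    4782969 * Nf y ^ 3 * (cc / wf x + y / √3) ≤ ev x y cUZ := by
  have hc := ccn2_pos ccn2qUZ 9 9 (by decide +kernel) (by norm_num) (by norm_num) x y hx hx1 hy hy1
  unfold ccn2qUZ at hc
  simp only [ev_pAdd, ev_pSm, ev_pMul, ev_N3, ev_M2, ev_pY] at hc
  push_cast at hc
  have hN0 := ccn2_N0 y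
  have hw0 := ccn2_w0 x
  have hN2 := ccn2_N2 y
  have hm := ccn2_m x
  have hm0 := ccn2_m0 x
  have hw2 := ccn2_w2 x
  have h33 : (√3 : ℝ) ^ 2 = 3 := Real.sq_sqrt (by norm_num)
  have h30 : (0 : ℝ) < √3 := Real.sqrt_pos.mpr (by norm_num)
  have h1 := ccn2_cW x y hx hx1 hy hy1
  have h2 := ccn2_rN x y hy hy1
  have e1 : mf x * (4782969 * Nf y ^ 3 * (cc / wf x + y / √3)) =
      4782969 * Nf y ^ 2 * (cc * (wf x * Nf y) + mf x * y * (√3 * Nf y) / 3) := by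
    have h4 : y / √3 = y * √3 / 3 := by
      rw [div_eq_div_iff h30.ne' (by norm_num)]
      have h5 : y * √3 * √3 = y * √3 ^ 2 := by ring
      rw [h5, h33]
    rw [h4, ← hw2]
    field_simp
  have h3 := mul_le_mul_of_nonneg_left h1 (show (0 : ℝ) ≤ 6 * 1594323 * (3 + y ^ 2) by positivity)
  have h4 := mul_le_mul_of_nonneg_left h2 (show (0 : ℝ) ≤ 10 ^ 10 * 1594323 * (3 + y ^ 2) * ((2 + x ^ 2) * y) by positivity)
  have h5 : mf x * (4782969 * Nf y ^ 3 * (cc / wf x + y / √3)) ≤ mf x * ev x y cUZ := by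
    rw [e1, hN2, hm]
    linarith
  exact le_of_mul_le_mul_left h5 hm0

end Pool.Agent.MCA
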