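import Pool.Agent.MCA.CCA
import Pool.Agent.MCA.VSL
/-!
CCS (220 lines, may be split). Constants of the C cells in the sliver.

PROOF. As in ACS.lean (same structure and same private lemmas), with the bounds of CCA.lean:
`7071067811/10^10 ≤ cc ≤ 7071067812/10^10`, `17320508075/10^10 ≤ √3 ≤ 17320508076/10^10`, `W = w N`.
Check polynomials (all were verified in exact arithmetic with these bounds, `posSl`, grids `nx ny` per column in brackets):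
`sC3, sC4 - DL N² (sSh - (1485/1000) cc W - m y (√3/6) N)` [1 1] (`W ≥ cwl sNl`, `N ≥ sNl`),
`sC5 - DL N² (m N² - m y (√3/6) N - (1 + x/2) cc W)` [1 1], `sC21 - DL N² ((3/2) cc W - m N² + m y (√3/6) N - (1-x) x/2)`
[2 3], `sC31 - DL N² (cc W/2 - x/2)` [1 1], `m sUE - DL N² cc (1+x) W` [2 3], `m sUZ - DL N² (cc W + m y (√3/3) N)` [1 1].
`cyt`: `(2+x²) cyt² ≥ 3 999²` and `cyt ≥ 0`, `posG` [1 1] on the unit square.
`cWb`: all coefficients of `cWb` are at most those of `DL² (1000 + 1500 y² + 875 y⁴ + 243 y⁶)(2 + x²)/2000` and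
`(1000 + 1500 y² + 875 y⁴ + 243 y⁶)² 3^9 ≤ 10^6 (3 + y²)^9`: `posG` [1 1] on `[0,1] × [0, 5/4]`; `N^18 = ((3+y²)/3)^9`.
-/
set_option autoImplicit false

namespace Pool.Agent.MCA
open Pool.Agent.MSQ Pool.Agent.MTR

/-! constants -/
private theorem ccs_s3 : (17320508075 / 10 ^ 10 : ℝ) ≤ √3 ∧ √3 ≤ 17320508076 / 10 ^ 10 := by
  constructor
  · exact Real.le_sqrt_of_sq_le (by norm_num)
  · rw [Real.sqrt_le_left (by norm_num)]
    norm_num
private theorem ccs_cc : (7071067811 / 10 ^ 10 : ℝ) ≤ cc ∧ cc ≤ 7071067812 / 10 ^ 10 := by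
  have h0 : 0 < cc := by unfold cc; positivity
  have h2 : cc ^ 2 = 1 / 2 := by
    unfold cc
    rw [div_pow, Real.sq_sqrt (by norm_num), one_pow]
  constructor
  · rw [← pow_le_pow_iff_left₀ (by norm_num) h0.le two_ne_zero, h2]
    norm_num
  · rw [← pow_le_pow_iff_left₀ h0.le (by norm_num) two_ne_zero, h2]
    norm_num
private theorem ccs_N0 (y : ℝ) : 0 < Nf y := Real.sqrt_pos.mpr (by positivity)
private theorem ccs_N2 (y : ℝ) : Nf y ^ 2 = (3 + y ^ 2) / 3 := by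
  unfold Nf
  rw [Real.sq_sqrt (by positivity)]
  ring
private theorem ccs_m0 (x : ℝ) : 0 < mf x := by unfold mf; positivity
private theorem ccs_w0 (x : ℝ) : 0 < wf x := Real.sqrt_pos.mpr (ccs_m0 x)
private theorem ccs_w2 (x : ℝ) : wf x ^ 2 = mf x := Real.sq_sqrt (ccs_m0 x).le
private theorem ccs_m (x : ℝ) : mf x = (2 + x ^ 2) / 2 := by unfold mf; ring
private theorem ccs_33 : (√3 : ℝ) ^ 2 = 3 := Real.sq_sqrt (by norm_num)
private theorem ccs_30 : (0 : ℝ) < √3 := Real.sqrt_pos.mpr (by norm_num)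

private theorem ccs_pos (p : P) (nx ny : Nat) (h : posSl p nx ny = true) (hnx : 0 < nx) (hny : 0 < ny)
    (x y : ℝ) (hx : 0 ≤ x) (hx1 : x ≤ 1) (hy : 1 ≤ y) (hc : (2 + x ^ 2) * y ^ 2 ≤ 3) : 0 ≤ ev x y p :=
  posSl_sound p nx ny h hnx hny x y hx hx1 hy hc

/-- bounds of `cc W` and `√3 N` -/
private theorem ccs_W (x y : ℝ) (hx : 0 ≤ x) (hx1 : x ≤ 1) (hy : 1 ≤ y) (hc : (2 + x ^ 2) * y ^ 2 ≤ 3) :
    7071067811 * (ev x y cwl * ev x y sNl) ≤ 10 ^ 30 * (cc * (wf x * Nf y)) ∧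
    10 ^ 30 * (cc * (wf x * Nf y)) ≤ 7071067812 * (ev x y cwh * ev x y sNh) ∧
    17320508075 * ev x y sNl ≤ 10 ^ 20 * (√3 * Nf y) ∧ 10 ^ 20 * (√3 * Nf y) ≤ 17320508076 * ev x y sNh := by
  have ht := sl_top x y hx hy hc
  have a1 := cw_ge x y hx hx1
  have a2 := cw_le x y hx hx1
  have b1 := csN_ge x y hy ht
  have b2 := csN_le x y hy ht
  have p1 := ccs_pos sNl 1 1 (by decide +kernel) one_pos one_pos x y hx hx1 hy hc
  have d1 := ccs_w0 x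
  have d2 := ccs_N0 y
  obtain ⟨c1, c2⟩ := ccs_cc
  obtain ⟨r1, r2⟩ := ccs_s3
  have W1 : ev x y cwl * ev x y sNl ≤ 10 ^ 20 * (wf x * Nf y) := by
    have h := mul_le_mul a1 b1 p1 (by positivity)
    linarith
  have W2 : 10 ^ 20 * (wf x * Nf y) ≤ ev x y cwh * ev x y sNh := by
    have h := mul_le_mul a2 b2 (by positivity) (le_trans (by positivity) a2)
    linarith
  have h0 : (0 : ℝ) ≤ 10 ^ 20 * (wf x * Nf y) := by positivity
  have hN : (0 : ℝ) ≤ 10 ^ 10 * Nf y := by positivity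
  refine ⟨?_, ?_, ?_, ?_⟩
  · have h3 := mul_le_mul W1 c1 (by norm_num) h0
    linarith
  · have h3 := mul_le_mul W2 c2 (by linarith) (h0.trans W2)
    linarith
  · have h3 := mul_le_mul b1 r1 (by norm_num) hN
    linarith
  · have h3 := mul_le_mul b2 r2 (by positivity) (hN.trans b2)
    linarith

private theorem ccs_r3 (t : ℝ) : t / (2 * √3) = t * √3 / 6 := by
  have h30 := ccs_30
  rw [div_eq_div_iff (by positivity) (by norm_num)]
  have h5 : t * √3 * (2 * √3) = 2 * t * √3 ^ 2 := by ring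
  rw [h5, ccs_33]
  ring

/-! check polynomials -/
private def ccs_q3 (p : P) : P := pAdd (pSm (1200 * 10 ^ 30) p) (pSm (-1594323) (N3 (pAdd (pSm (1200 * 10 ^ 20) sSh)
  (pAdd (pSm (-(1782 * 7071067811)) (pMul cwl sNl)) (pSm (-(100 * 10 ^ 10 * 17320508075)) (M2 (pY sNl)))))))
private def ccs_q5 : P := pAdd (pSm (60 * 10 ^ 30) sC5) (pSm (-1594323) (N3 (pAdd (pSm (10 * 10 ^ 30) (M2 (N3 (cP 1))))
  (pAdd (pSm (-(5 * 10 ^ 10 * 17320508075)) (M2 (pY sNl)))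
    (pSm (-(30 * 7071067811)) (pMul (pAdd (cP 2) (pX (cP 1))) (pMul cwl sNl)))))))
private def ccs_q21 : P := pAdd (pSm (60 * 10 ^ 30) sC21) (pSm (-1594323) (N3 (pAdd (pSm (-(10 * 10 ^ 30)) (M2 (N3 (cP 1))))
  (pAdd (pSm (5 * 10 ^ 10 * 17320508076) (M2 (pY sNh)))
    (pAdd (pSm (90 * 7071067812) (pMul cwh sNh)) (pSm (-(30 * 10 ^ 30)) (pAdd (pX (cP 1)) (pX (pX (cP (-1)))))))))))
private def ccs_q31 : P := pAdd (pSm (60 * 10 ^ 30) sC31) (pSm (-1594323) (N3 (pAdd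
  (pSm (30 * 7071067812) (pMul cwh sNh)) (pSm (-(30 * 10 ^ 30)) (pX (cP 1))))))
private def ccs_qE : P := pAdd (pSm (10 ^ 30) (M2 sUE)) (pSm (-(2 * 1594323 * 7071067812))
  (N3 (pMul (pAdd (cP 1) (pX (cP 1))) (pMul cwh sNh))))
private def ccs_qZ : P := pAdd (pSm (3 * 10 ^ 30) (M2 sUZ)) (pSm (-1594323)
  (N3 (pAdd (pSm (6 * 7071067812) (pMul cwh sNh)) (pSm (10 ^ 10 * 17320508076) (M2 (pY sNh))))))
private def ccs_qy : P := pAdd (M2 (pMul cyt cyt)) (cP (-(3 * 999 ^ 2)))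

private theorem ccs_C3 (p : P) (hq : posSl (ccs_q3 p) 1 1 = true) (x y : ℝ) (hx : 0 ≤ x) (hx1 : x ≤ 1) (hy : 1 ≤ y)
    (hc : (2 + x ^ 2) * y ^ 2 ≤ 3) : 4782969 * Nf y ^ 3 * kS x y (97 / 100) ≤ ev x y p := by
  have hp := ccs_pos _ 1 1 hq one_pos one_pos x y hx hx1 hy hc
  unfold ccs_q3 at hp
  simp only [ev_pAdd, ev_pSm, ev_pMul, ev_N3, ev_M2, ev_pY] at hp
  push_cast at hp
  obtain ⟨W1, -, T1, -⟩ := ccs_W x y hx hx1 hy hc
  have ht := sl_top x y hx hy hc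
  have hN2 := ccs_N2 y
  have hm := ccs_m x
  have hS := csS_le x y hx hx1 hy ht
  have hy0 : 0 ≤ y := by linarith
  have e1 : Nf y ^ 3 * kS x y (97 / 100) = Nf y ^ 2 * (S97 x y - 297 / 200 * (cc * (wf x * Nf y)) -
      mf x * y * (√3 * Nf y) / 6) := by
    unfold kS S97
    rw [ccs_r3]
    ring
  have h3 := mul_le_mul_of_nonneg_left T1 (show (0 : ℝ) ≤ 100 * 10 ^ 10 * ((2 + x ^ 2) * y) by positivity)
  have h4 : 1200 * 10 ^ 30 * (S97 x y - 297 / 200 * (cc * (wf x * Nf y)) - mf x * y * (√3 * Nf y) / 6) ≤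
      1200 * 10 ^ 20 * ev x y sSh + (-(1782 * 7071067811) * (ev x y cwl * ev x y sNl) +
        -(100 * 10 ^ 10 * 17320508075) * ((2 + x ^ 2) * (y * ev x y sNl))) := by
    rw [hm]
    linarith
  have h5 := mul_le_mul_of_nonneg_left h4 (show (0 : ℝ) ≤ 1594323 * (3 + y ^ 2) by positivity)
  have e2 : 4782969 * Nf y ^ 3 * kS x y (97 / 100) = 4782969 * (Nf y ^ 3 * kS x y (97 / 100)) := by ring
  rw [e2, e1, hN2]
  linarith

theorem sC3_ok (x y : ℝ) (hx : 0 ≤ x) (hx1 : x ≤ 1) (hy : 1 ≤ y) (hc : (2 + x ^ 2) * y ^ 2 ≤ 3) :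
    4782969 * Nf y ^ 3 * kS x y (97 / 100) ≤ ev x y sC3 :=
  ccs_C3 sC3 (by decide +kernel) x y hx hx1 hy hc
theorem sC4_ok (x y : ℝ) (hx : 0 ≤ x) (hx1 : x ≤ 1) (hy : 1 ≤ y) (hc : (2 + x ^ 2) * y ^ 2 ≤ 3) :
    4782969 * Nf y ^ 3 * kS x y (97 / 100) ≤ ev x y sC4 :=
  ccs_C3 sC4 (by decide +kernel) x y hx hx1 hy hc
theorem sC5_ok (x y : ℝ) (hx : 0 ≤ x) (hx1 : x ≤ 1) (hy : 1 ≤ y) (hc : (2 + x ^ 2) * y ^ 2 ≤ 3) :
    4782969 * Nf y ^ 3 * (mf x * (Nf y - y / (2 * √3) - (1 + x / 2) * cc / wf x)) ≤ ev x y sC5 := by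
  have hp := ccs_pos ccs_q5 1 1 (by decide +kernel) one_pos one_pos x y hx hx1 hy hc
  unfold ccs_q5 at hp
  simp only [ev_pAdd, ev_pSm, ev_pMul, ev_N3, ev_M2, ev_pY, ev_cP, ev_pX] at hp
  push_cast at hp
  obtain ⟨W1, -, T1, -⟩ := ccs_W x y hx hx1 hy hc
  have hN2 := ccs_N2 y
  have hm := ccs_m x
  have hw0 := ccs_w0 x
  have hw2 := ccs_w2 x
  have hy0 : 0 ≤ y := by linarith
  have e1 : 4782969 * Nf y ^ 3 * (mf x * (Nf y - y / (2 * √3) - (1 + x / 2) * cc / wf x)) =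
      4782969 * Nf y ^ 2 * (mf x * Nf y ^ 2 - mf x * y * (√3 * Nf y) / 6 - (1 + x / 2) * (cc * (wf x * Nf y))) := by
    have e0 : mf x * ((1 + x / 2) * cc / wf x) = (1 + x / 2) * cc * wf x := by
      rw [← hw2]
      field_simp
    rw [ccs_r3]
    linear_combination -4782969 * Nf y ^ 3 * e0
  have h1 := mul_le_mul_of_nonneg_left W1 (show (0 : ℝ) ≤ 30 * (2 + x) by positivity)
  have h3 := mul_le_mul_of_nonneg_left T1 (show (0 : ℝ) ≤ 5 * 10 ^ 10 * ((2 + x ^ 2) * y) by positivity)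
  have h4 : 60 * 10 ^ 30 * (mf x * Nf y ^ 2 - mf x * y * (√3 * Nf y) / 6 - (1 + x / 2) * (cc * (wf x * Nf y))) ≤
      10 * 10 ^ 30 * ((2 + x ^ 2) * ((3 + y ^ 2) * 1)) + (-(5 * 10 ^ 10 * 17320508075) * ((2 + x ^ 2) * (y * ev x y sNl)) +
        -(30 * 7071067811) * ((2 + x * 1) * (ev x y cwl * ev x y sNl))) := by
    rw [hm, hN2]
    linarith
  have h5 := mul_le_mul_of_nonneg_left h4 (show (0 : ℝ) ≤ 1594323 * (3 + y ^ 2) by positivity)
  rw [e1]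
  generalize mf x * Nf y ^ 2 - mf x * y * (√3 * Nf y) / 6 - (1 + x / 2) * (cc * (wf x * Nf y)) = A at h5 ⊢
  rw [hN2]
  linarith
theorem sC21_ok (x y : ℝ) (hx : 0 ≤ x) (hx1 : x ≤ 1) (hy : 1 ≤ y) (hc : (2 + x ^ 2) * y ^ 2 ≤ 3) :
    4782969 * Nf y ^ 3 * (3 / 2 * cc * wf x - mf x * Nf y + mf x * y / (2 * √3) - (1 - x) * x / (2 * Nf y)) ≤
      ev x y sC21 := by
  have hp := ccs_pos ccs_q21 2 3 (by decide +kernel) (by norm_num) (by norm_num) x y hx hx1 hy hc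
  unfold ccs_q21 at hp
  simp only [ev_pAdd, ev_pSm, ev_pMul, ev_N3, ev_M2, ev_pY, ev_cP, ev_pX] at hp
  push_cast at hp
  obtain ⟨-, W2, -, T2⟩ := ccs_W x y hx hx1 hy hc
  have hN0 := ccs_N0 y
  have hN2 := ccs_N2 y
  have hm := ccs_m x
  have hy0 : 0 ≤ y := by linarith
  have e1 : 4782969 * Nf y ^ 3 * (3 / 2 * cc * wf x - mf x * Nf y + mf x * y / (2 * √3) - (1 - x) * x / (2 * Nf y)) =
      4782969 * Nf y ^ 2 * (3 / 2 * (cc * (wf x * Nf y)) - mf x * Nf y ^ 2 + mf x * y * (√3 * Nf y) / 6 -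
        (1 - x) * x / 2) := by
    have e0 : Nf y * ((1 - x) * x / (2 * Nf y)) = (1 - x) * x / 2 := by
      field_simp
    rw [ccs_r3]
    linear_combination -4782969 * Nf y ^ 2 * e0
  have h3 := mul_le_mul_of_nonneg_left T2 (show (0 : ℝ) ≤ 5 * 10 ^ 10 * ((2 + x ^ 2) * y) by positivity)
  have h4 : 60 * 10 ^ 30 * (3 / 2 * (cc * (wf x * Nf y)) - mf x * Nf y ^ 2 + mf x * y * (√3 * Nf y) / 6 -
        (1 - x) * x / 2) ≤
      -(10 * 10 ^ 30) * ((2 + x ^ 2) * ((3 + y ^ 2) * 1)) + (5 * 10 ^ 10 * 17320508076 * ((2 + x ^ 2) * (y * ev x y sNh)) +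
        (90 * 7071067812 * (ev x y cwh * ev x y sNh) + -(30 * 10 ^ 30) * (x * 1 + x * (x * -1)))) := by
    rw [hm, hN2]
    linarith
  have h5 := mul_le_mul_of_nonneg_left h4 (show (0 : ℝ) ≤ 1594323 * (3 + y ^ 2) by positivity)
  rw [e1]
  generalize 3 / 2 * (cc * (wf x * Nf y)) - mf x * Nf y ^ 2 + mf x * y * (√3 * Nf y) / 6 -
        (1 - x) * x / 2 = A at h5 ⊢
  rw [hN2]
  linarith
theorem sC31_ok (x y : ℝ) (hx : 0 ≤ x) (hx1 : x ≤ 1) (hy : 1 ≤ y) (hc : (2 + x ^ 2) * y ^ 2 ≤ 3) :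
    4782969 * Nf y ^ 3 * (cc * wf x / 2 - x / (2 * Nf y)) ≤ ev x y sC31 := by
  have hp := ccs_pos ccs_q31 1 1 (by decide +kernel) one_pos one_pos x y hx hx1 hy hc
  unfold ccs_q31 at hp
  simp only [ev_pAdd, ev_pSm, ev_pMul, ev_N3, ev_cP, ev_pX] at hp
  push_cast at hp
  obtain ⟨-, W2, -, -⟩ := ccs_W x y hx hx1 hy hc
  have hN0 := ccs_N0 y
  have hN2 := ccs_N2 y
  have e1 : 4782969 * Nf y ^ 3 * (cc * wf x / 2 - x / (2 * Nf y)) =
      4782969 * Nf y ^ 2 * ((cc * (wf x * Nf y)) / 2 - x / 2) := by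
    have e0 : Nf y * (x / (2 * Nf y)) = x / 2 := by
      field_simp
    linear_combination -4782969 * Nf y ^ 2 * e0
  have h4 : 60 * 10 ^ 30 * ((cc * (wf x * Nf y)) / 2 - x / 2) ≤
      30 * 7071067812 * (ev x y cwh * ev x y sNh) + -(30 * 10 ^ 30) * (x * 1) := by
    linarith
  have h5 := mul_le_mul_of_nonneg_left h4 (show (0 : ℝ) ≤ 1594323 * (3 + y ^ 2) by positivity)
  rw [e1]
  generalize (cc * (wf x * Nf y)) / 2 - x / 2 = A at h5 ⊢
  rw [hN2]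
  linarith
theorem sUE_ok (x y : ℝ) (hx : 0 ≤ x) (hx1 : x ≤ 1) (hy : 1 ≤ y) (hc : (2 + x ^ 2) * y ^ 2 ≤ 3) :
    4782969 * Nf y ^ 3 * (cc * (1 + x) / wf x) ≤ ev x y sUE := by
  have hp := ccs_pos ccs_qE 2 3 (by decide +kernel) (by norm_num) (by norm_num) x y hx hx1 hy hc
  unfold ccs_qE at hp
  simp only [ev_pAdd, ev_pSm, ev_pMul, ev_N3, ev_M2, ev_cP, ev_pX] at hp
  push_cast at hp
  obtain ⟨-, W2, -, -⟩ := ccs_W x y hx hx1 hy hc
  have hw0 := ccs_w0 x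
  have hN2 := ccs_N2 y
  have hm := ccs_m x
  have hm0 := ccs_m0 x
  have hw2 := ccs_w2 x
  have e1 : mf x * (4782969 * Nf y ^ 3 * (cc * (1 + x) / wf x)) =
      4782969 * Nf y ^ 2 * ((1 + x) * (cc * (wf x * Nf y))) := by
    rw [← hw2]
    field_simp
  have h3 := mul_le_mul_of_nonneg_left W2 (show (0 : ℝ) ≤ 2 * 1594323 * (3 + y ^ 2) * (1 + x) by positivity)
  have h5 : mf x * (4782969 * Nf y ^ 3 * (cc * (1 + x) / wf x)) ≤ mf x * ev x y sUE := by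
    rw [e1, hN2, hm]
    linarith
  exact le_of_mul_le_mul_left h5 hm0
theorem sUZ_ok (x y : ℝ) (hx : 0 ≤ x) (hx1 : x ≤ 1) (hy : 1 ≤ y) (hc : (2 + x ^ 2) * y ^ 2 ≤ 3) :
    4782969 * Nf y ^ 3 * (cc / wf x + y / √3) ≤ ev x y sUZ := by
  have hp := ccs_pos ccs_qZ 1 1 (by decide +kernel) one_pos one_pos x y hx hx1 hy hc
  unfold ccs_qZ at hp
  simp only [ev_pAdd, ev_pSm, ev_pMul, ev_N3, ev_M2, ev_pY] at hp
  push_cast at hp
  obtain ⟨-, W2, -, T2⟩ := ccs_W x y hx hx1 hy hc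
  have hw0 := ccs_w0 x
  have hN2 := ccs_N2 y
  have hm := ccs_m x
  have hm0 := ccs_m0 x
  have hw2 := ccs_w2 x
  have h33 := ccs_33
  have h30 := ccs_30
  have hy0 : 0 ≤ y := by linarith
  have e1 : mf x * (4782969 * Nf y ^ 3 * (cc / wf x + y / √3)) =
      4782969 * Nf y ^ 2 * (cc * (wf x * Nf y) + mf x * y * (√3 * Nf y) / 3) := by
    have h4 : y / √3 = y * √3 / 3 := by
      rw [div_eq_div_iff h30.ne' (by norm_num)]
      have h5 : y * √3 * √3 = y * √3 ^ 2 := by ring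
      rw [h5, h33]
    rw [h4, ← hw2]
    field_simp
  have h3 := mul_le_mul_of_nonneg_left W2 (show (0 : ℝ) ≤ 6 * 1594323 * (3 + y ^ 2) by positivity)
  have h4 := mul_le_mul_of_nonneg_left T2 (show (0 : ℝ) ≤ 10 ^ 10 * 1594323 * (3 + y ^ 2) * ((2 + x ^ 2) * y) by positivity)
  have h5 : mf x * (4782969 * Nf y ^ 3 * (cc / wf x + y / √3)) ≤ mf x * ev x y sUZ := by
    rw [e1, hN2, hm]
    linarith
  exact le_of_mul_le_mul_left h5 hm0
theorem cyt_ok (x y : ℝ) (hx : 0 ≤ x) (hx1 : x ≤ 1) : 999 * yt x ≤ ev x y cyt := by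
  have hxy : ev x y cyt = ev x 0 cyt := by
    simp [ev, evL, cyt]
  rw [hxy]
  have hp := posG_sound ccs_qy 1 1 0 1 1 0 1 1 (by decide +kernel) one_pos one_pos one_pos one_pos x 0
    (by simpa using hx) (by simpa using hx1) (by simp) (by simp)
  have h0 := posG_sound cyt 1 1 0 1 1 0 1 1 (by decide +kernel) one_pos one_pos one_pos one_pos x 0
    (by simpa using hx) (by simpa using hx1) (by simp) (by simp)
  unfold ccs_qy at hp
  simp only [ev_pAdd, ev_pMul, ev_M2, ev_cP] at hp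
  push_cast at hp
  have hm : (0 : ℝ) < 2 + x ^ 2 := by positivity
  have h1 : 0 ≤ yt x := Real.sqrt_nonneg _
  have h2 : (2 + x ^ 2) * yt x ^ 2 = 3 := by
    unfold yt
    rw [Real.sq_sqrt (by positivity)]
    field_simp
  rw [← pow_le_pow_iff_left₀ (by positivity) h0 two_ne_zero]
  refine le_of_mul_le_mul_left ?_ hm
  have h3 : (2 + x ^ 2) * (999 * yt x) ^ 2 = 999 ^ 2 * ((2 + x ^ 2) * yt x ^ 2) := by ring
  rw [h3, h2]
  linarith

private def ccs_B : P := [[1000, 0, 1500, 0, 875, 0, 243]]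
private def ccs_qW : P := pAdd (pSm (10 ^ 6) (N3 (N3 (N3 (N3 (N3 (N3 (N3 (N3 (N3 (cP 1))))))))))) (pSm (-(3 ^ 9))
  (pMul ccs_B ccs_B))
theorem cWb_ok (x y : ℝ) (hx : 0 ≤ x) (hx1 : x ≤ 1) (hy : 0 ≤ y) (hy1 : y ≤ 5 / 4) :
    ev x y cWb ≤ 4782969 ^ 2 * Nf y ^ 9 * mf x := by
  have hp := posG_sound ccs_qW 1 1 0 1 1 0 5 4 (by decide +kernel) one_pos one_pos one_pos (by norm_num) x y
    (by simpa using hx) (by simpa using hx1) (by simpa using hy) (by push_cast; linarith)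
  unfold ccs_qW at hp
  simp only [ev_pAdd, ev_pSm, ev_pMul, ev_N3, ev_cP] at hp
  push_cast at hp
  have hN0 := ccs_N0 y
  have hN2 := ccs_N2 y
  have hB : ev x y ccs_B = 1000 + 1500 * y ^ 2 + 875 * y ^ 4 + 243 * y ^ 6 := by
    simp only [ev, evL, ccs_B]
    push_cast
    ring
  have h1 : ev x y ccs_B ≤ 1000 * Nf y ^ 9 := by
    refine (le_abs_self _).trans (abs_le_of_sq_le_sq ?_ (by positivity))
    have e : (1000 * Nf y ^ 9) ^ 2 = 10 ^ 6 * (Nf y ^ 2) ^ 9 := by ring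
    rw [e, hN2, div_pow]
    have h3 : (0 : ℝ) < 3 ^ 9 := by norm_num
    rw [← mul_div_assoc, le_div_iff₀ h3]
    nlinarith
  have h2 : ev x y cWb ≤ 4782969 ^ 2 * (ev x y ccs_B * (2 + x ^ 2) / 2000) := by
    rw [hB]
    simp only [ev, evL, cWb]
    push_cast
    have a2 : 0 ≤ y ^ 2 := by positivity
    have a4 : 0 ≤ y ^ 4 := by positivity
    have a6 : 0 ≤ y ^ 6 := by positivity
    have b0 : 0 ≤ x ^ 2 := by positivity
    have b2 : 0 ≤ x ^ 2 * y ^ 2 := by positivity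
    have b4 : 0 ≤ x ^ 2 * y ^ 4 := by positivity
    have b6 : 0 ≤ x ^ 2 * y ^ 6 := by positivity
    nlinarith
  have hm := ccs_m x
  rw [hm]
  have h3 := mul_le_mul_of_nonneg_left h1 (show (0 : ℝ) ≤ 4782969 ^ 2 * (2 + x ^ 2) / 2000 by positivity)
  linarith

end Pool.Agent.MCA
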