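import Pool.Agent.MCA.ADc
/-!
Cells C (largest central defect at least `6/1000`) of MP_f10237: constants and facts (computable part).
`DL = aDL = 3^14`. The central defects and the sum are integers divided by `10^5`.
-/
set_option autoImplicit false

namespace Pool.Agent.MCA
open Pool.Agent.MSQ Pool.Agent.MTR

/-- `≥ DL N³ kB x y (9/10)` -/
def cC3 : P := [[124627, -91, -61305, -3728, -26512], [-289120, 355, 211743, 13423, 63716], [197407, -458, -198866, -18836, -38213], [-16293, 200, 11675, 13314, -5112], [-8368, -6, 40784, -4207, 6171]]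
/-- `≥ DL N³ kBm x y (9/10)` -/
def cC4 : P := [[124668, -146, -61032, -3907, -26592], [286951, 192, -212647, -10136, -63377], [200676, -4824, -174309, -45502, -39358], [-21403, 5718, -19557, 46820, -1144], [-5852, -2664, 55558, -20483, 4620]]
/-- `≥ DL N³ m (s3 - (1+x/2) cc/w)` -/
def cC5 : P := [[760120, 1921, 370910, 15381, 21933], [-1689600, -9768, -803230, -56346, -41220], [1215554, 27731, 495518, 126260, 461], [-405491, -36202, -56102, -155983, 38654], [119574, 16380, -7346, 70987, -19927]]
/-- `≥ DL N³ (3/2 cc w - s3 (1+x/2))` -/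
def cC21 : P := [[931071, 2410, 454655, 18499, 26959], [-2074613, 2241, -1045556, -6014, -72623], [1301717, -34563, 799789, -153184, 101498], [-97445, 56841, -298983, 273051, -100909], [-60695, -27040, 90602, -132999, 45305]]
/-- `≥ DL N³ (cc w/2 - s3 x/2)` -/
def cC31 : P := [[1691087, 1353, 836646, 19856, 54694], [-2072301, -1534, -1025491, -25091, -66854], [433834, 1540, 208837, 18590, 8878], [-32126, -3022, -2699, -27799, 9952], [-20482, 1668, -17318, 14486, -6690]]
/-- `≥ DL N³ s3` -/
def cKh : P := [[4142183, 1928, 2056508, 36976, 139787]]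
/-- `≤ DL N³ s3` -/
def cKl : P := [[4142082, 1928, 2056508, 36976, 139787]]
/-- `≥ DL N³ cc (1+x)/w` -/
def cUE : P := [[3382096, 4127, 1666852, 48742, 105232], [3397219, 316, 1691026, 19802, 119906], [-942199, 16417, -540012, 120281, -94477], [-677417, -26670, -222668, -208750, 76184], [363799, 12673, 126694, 100004, -35126]]
/-- `≥ DL N³ (cc/w + y/√3)` -/
def cUZ : P := [[3382466, 2752324, 1761603, 1183113, 379076], [12790, -86, 6822, -349, 439], [-949878, -471, -471112, -11082, -29495], [290061, 923, 139401, 12720, 2788], [26903, -666, 17103, -7015, 5451]]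
/-- sliver: `≥ DL N³ kS x y (97/100)` -/
def sC3 : P := [[620376, -828532, 297722, -190687, 132961], [364413, -1265385, 1640838, -942735, 203255], [494186, -1583630, 1578919, -796165, 238234], [-261425, 571332, -408201, 77499, 24667], [-314015, 1231998, -1760340, 1142584, -266723]]
/-- sliver: the same -/
def sC4 : P := [[774044, -1361339, 988798, -588182, 218524], [109147, -354883, 429234, -229393, 46385], [-10650, -42910, -168571, 75179, 77498], [25901, -16005, -134483, 179703, -49271], [65310, -309552, 508965, -306063, 73753]]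
/-- sliver: `≥ DL N³ m (N - y/(2√3) - (1+x/2) cc/w)` -/
def sC5 : P := [[1389470, -1317749, 1350875, -502891, 250576], [-1676994, -56768, -737310, -97657, -31440], [1537184, -690241, 1117572, -250091, 151117], [-423193, 80719, -299881, 51067, -23856], [128430, -40735, 110453, -28432, 9960]]
/-- sliver: `≥ DL N³ (3/2 cc w - m N + m y/(2√3) - (1-x) x/(2N))` -/
def sC21 : P := [[285374, 1391171, -634623, 613667, -221963], [-2433976, 130668, -970895, 99465, -21831], [1497376, 15972, 780780, -251147, -27703], [-385158, 966387, -1318869, 733327, -163168], [81790, -479600, 602124, -367468, 78344]]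
/-- sliver: `≥ DL N³ (cc w/2 - x/(2N))` -/
def sC31 : P := [[1689299, 22058, 783425, 71772, 37094], [-2881187, 1705414, -3030057, 1296673, -282196], [2814759, -8308816, 11085061, -6304378, 1385456], [-3805350, 13173342, -17260597, 10017246, -2180977], [1852846, -6540517, 8552514, -4974888, 1082028]]
/-- sliver: `≥ DL N³ cc (1+x)/w` -/
def sUE : P := [[3348692, 148890, 1429484, 223256, 56825], [3369262, 123866, 1469532, 204076, 61503], [-958983, 76253, -551435, 30343, -36053], [-629217, -215258, -45000, -190469, 20470], [339344, 108514, 33319, 96712, -9779]]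
/-- sliver: `≥ DL N³ (cc/w + y/√3)` -/
def sUZ : P := [[3444235, 2468084, 2269908, 768505, 507925], [-14083, 93786, -116692, 71779, -15228], [-827046, -436704, 115762, -363219, 49468], [125556, 575285, -614427, 447342, -88371], [101506, -259263, 352677, -196512, 43637]]
/-- `≥ 999 yt x` -/
def cyt : P := [[1224], [7], [-355], [124]]
/-- `≤ DL² N⁹ m` -/
def cWb : P := [[22876792454961, 0, 34315188682441, 0, 20017193398090, 0, 5559060566555], [], [11438396227480, 0, 17157594341220, 0, 10008596699045, 0, 2779530283277]]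

/-- coefficientwise upper bound of `n / d` times `c` -/
def ceC (c : P) (n d : Int) : P := c.map fun r => r.map fun z => -(-(z * n) / d)

/-- bounds of the loads `a, b, c, d` (divided by `10^5`), `hs`: the sum form is used, `s` its bound, `zc`: it contains `c`
instead of `d` -/
structure Cq where
  a : Int
  b : Int
  c : Int
  d : Int
  hs : Bool
  s : Int
  zc : Bool

/-! core -/
def cfB3 : LF := lF (pSm 20 cC3) [[-20], [-9]] [[], [0, 9], [0, -10]] [[-18], [20]] [] [] [[20], [], [10]] [] [] [] []
def cfB4 : LF := lF (pSm 20 cC4) [[-20], [9]] [[], [0, -9], [0, -10]] [[18], [20]] [] [] [] [[20], [], [10]] [] [] []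
def cfB5 : LF := lF (pSm 2 cC5) [[-2], [], [-1]] [] [] [] [] [[2], [], [1]] [] [] [] []
def cfB21 : LF := lF (pSm 2 cC21) [[2], [1]] [[], [0, -1], [0, 1]] [[2], [-2]] [] [] [[-2], [], [-1]] [] [] [] []
def cfB31 : LF := lF (pSm 2 cC31) [[], [1]] [[], [0, -1]] [[2]] [] [] [] [] [] [] []
/-- `b U - s_k` -/
def cfU (k : Nat) (U : P) (b : Int) : LF := qAdd (eS 0 (ceC U b 100000)) (eS k [[-1]])
/-- the sum form; `U` bounds `DL N³ (cc/w + y/√3)` -/
def cfS (U : P) (s : Int) (zc : Bool) : LF :=
  let o := pSm 49 (pMul [[1], [1]] (ceC U s 100000))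
  match zc with
  | true => lF o [] [] [] [[-49, -40], [], [0, -9]] [[-49, -40], [], [0, -9]] [[-49], [-49]] [] [] [] []
  | false => lF o [] [] [] [[-49, -40], [], [0, -9]] [[-49, -40], [], [0, -9]] [] [[-49], [-49]] [] [] []
def cfSl (U : P) (q : Cq) : List LF := if q.hs then [cfS U q.s q.zc] else []
def cMH : MF := ⟨lF [] [] [] [] [] [] [] [] [[-2]] [] [], lF [] [] [] [] [] [] [] [] [] [[-2]] [],
  lF cKh [] [] [] [] [] [] [] [] [] [[-1]]⟩
def cML : MF := ⟨lF [[3188646]] [] [] [] [] [] [] [] [[2]] [] [], lF [] [] [] [] [] [] [] [] [] [[2]] [],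
  lF (pAdd [[4782969, 0, 1594323]] (pSm (-1) cKl)) [] [] [] [] [] [] [] [] [] [[1]]⟩

/-! sliver -/
def csA20 : LF := lF [] [[-999]] (pAdd [[0, 999]] (pSm (-1) cyt)) [] [[-999]] [] [] [] [] [] []
def csB3 : LF := lF (pSm 200 sC3) [[-200], [-97]] [[], [0, 97], [0, -100]] [[-194], [200]] [] [] [[200], [], [100]] [] [] [] []
def csB4 : LF := lF (pSm 200 sC4) [[-200], [97]] [[], [0, -97], [0, -100]] [[194], [200]] [] [] [] [[200], [], [100]] [] [] []
def csB5 : LF := lF (pSm 2 sC5) [[-2], [], [-1]] [] [] [] [] [[2], [], [1]] [] [] [] []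
def csB21 : LF := lF (pSm 2 sC21) [[2], [1]] [[], [0, -1], [0, 1]] [[2], [-2]] [] [] [[-2], [], [-1]] [] [] [] []
def csB31 : LF := lF (pSm 2 sC31) [[], [1]] [[], [0, -1]] [[2]] [] [] [] [] [] [] []

/-! elimination of states on the edges -/
/-- state `k` is zero -/
def rdZ (k : Nat) (l : LF) : LF := l.set k []
/-- state `k` is `c` times state `j` -/
def rdE (k j : Nat) (c : Int) (l : LF) : LF := (l.set j (pAdd (l.getD j []) (pSm c (l.getD k [])))).set k []
def rdX (l : LF) : LF := rdE 6 1 1 (rdZ 5 (rdZ 4 l))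
def rdY (l : LF) : LF := rdE 1 4 (-1) (rdZ 7 (rdZ 6 l))

/-! regions -/
def crC (q : Cq) : Rgn := ⟨[aap, aam, cfB3, cfB4, cfB5, cfB21, cfB31, ala, alb, alc, ald, cfU 4 cUE q.a, cfU 5 cUE q.b,
  cfU 6 cUZ q.c, cfU 7 cUZ q.d] ++ cfSl cUZ q, [cMH, cML], [], []⟩
def crS (q : Cq) : Rgn := ⟨[asf1, asnq, csA20, csB3, csB4, csB5, csB21, csB31, ala, alb, alc, ald, cfU 4 sUE q.a,
  cfU 5 sUE q.b, cfU 6 sUZ q.c, cfU 7 sUZ q.d] ++ cfSl sUZ q, [aKA, asMH], [], [curP]⟩
def crA : Rgn := ⟨[], [], [], []⟩
def crG (q : Cq) : Rgn := ⟨([afs0, aap, aam, asnq, csA20, cfB3, cfB4, cfB5, cfB21, cfB31, csB3, csB4, ala, alb, alc, ald,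
  cfU 4 cUE q.a, cfU 5 cUE q.b, cfU 6 cUZ q.c, cfU 7 cUZ q.d] ++ cfSl cUZ q).map fun l => l.map at1, [], [], []⟩
/-- slope on the side `x = 1` -/
def cfDn : LF := lF [] [[1]] [[0, -1]] [[2]] [] [] [] [] [] [] []
def crX (q : Cq) : Rgn := ⟨([afs0, alc, ald, cfDn, aap, aam, cfB4, cfU 6 cUZ q.c, cfU 7 cUZ q.d] ++ cfSl cUZ q).map
  fun l => (rdX l).map atx1, [], [lF [] [[1]] [] [] [] [] [[-1]] [] [] [] [], ala, alb], []⟩
def crY (q : Cq) : Rgn := ⟨([afs0, ala, alb, asnq, aTp, aTm, cfU 4 sUE q.a, cfU 5 sUE q.b, csB31, csB21] ++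
  cfSl sUZ q).map rdY, [], [lF [] [[1]] [] [] [[1]] [] [] [] [] [] [], alc, ald], [curP, pSm (-1) curP]⟩

/-! base densities -/
/-- `2 (DL N² - cKh)`, `2 (cKh - cKl)` -/
def cGl : P := pSm 2 (pAdd [[4782969, 0, 1594323]] (pSm (-1) cKh))
def cdf : P := pSm 2 (pAdd cKh (pSm (-1) cKl))
def clC (D k : Int) : LF := lF (pSm k cWb) (pSm (108 * D) cGl) [] [] (pSm (-54 * D) (pMul [[1, 1]] cdf))
  (pSm (-54 * D) (pMul [[1, -1]] cdf)) [] [] [] [] []
def clS (D k : Int) : LF := lF (pSm k cWb) (pSm (-216 * D) [[4782969, 0, 1594323]]) [] [] [] [] [] [] [] [] []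

/-! approximations of the surds, denominator `10^10` -/
def cNh : P := [[10000000051, -1662, 1666711389, -466558, -136433049, -7308881, 35958664, -12889827, 1435292]]
def cNl : P := [[9999999969, -1662, 1666711389, -466558, -136433049, -7308881, 35958664, -12889827, 1435292]]
def cwh : P := [[10000000104], [-6074], [2500165946], [-1779934], [-302739340], [-30709619], [135993424], [-63846532], [10370799]]
def cwl : P := [[9999999969], [-6074], [2500165946], [-1779934], [-302739340], [-30709619], [135993424], [-63846532], [10370799]]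
def sNh : P := [[10017428087, -91339000, 1859065580, -197852547, -55000157, 14703453]]
def sNl : P := [[10017428024, -91339000, 1859065580, -197852547, -55000157, 14703453]]
def cSh : P := [[11853269920, 1302, 3381600541, 190498, -14300656, 859887, 3890449, -1261990], [37648, 2, 4990, 388, -2169, 3330, -2916, 826], [2962553490, -2056, 1548385188, -293196, 31286431, -1109687, -8364358, 2580562], [5684503, 375, 779772, 65313, -342827, 555129, -481095, 133916], [-389789222, -2111, 67312455, -365370, -10295333, -3099694, 4565710, -1104614], [30149346, 3175, 4858713, 547057, -2296930, 4529069, -3812439, 1006978], [82041999, -2795, 1201460, -499698, -4923622, -4534750, 6731630, -1933436], [-26716309, 2267, -1470640, 379001, -129155, 2928212, -2265925, 482959]]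
def sSh : P := [[12129610295, -18735299, 3437520428, -47369681, 7180292], [40249, -6519, 13904, -4491, -4], [3022836976, 41449952, 1447893944, 93861999, -13401790], [6074696, -956810, 2044925, -583030, -28732], [-394851870, -18910405, 99129593, -33686770, 3743653], [32234726, -4644631, 9800080, -718469, -887518], [83689612, -2550646, 14714842, -20566761, 5370453], [-28110039, 4293278, -10711773, 8864641, -1942907]]

end Pool.Agent.MCA
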