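import Pool.Agent.MCA.Sem
/-!
CHK (150 lines). Soundness of the interior certificate.

PROOF. Tools: `MTR.QML` (`qf_qMul`, `qf_qAdd`, `qf_qPm`, `qf_qSm`, `qf_sumQ`, `dotL_qAdd`, `dotL_qPm`, `dotL_sumQ`, the
private proof of `dotL_un` for `lv_eS`), `MTR.PRD` (`tr2`, `tr4`), `MSQ.ChkS.chkM_sound`, `MSQ.EvA`.
`sumI_nn`: every item of the six lists is nonnegative: `sc`: chkM 1 with the vector `[1]` gives `0 ≤ ev x y P`, product of
three nonnegative numbers; `m2`: `0 ≤ l11 p² + 2 l12 p q + l22 q²` for all `p, q` (chkM 2 with `[p, q]`), `tr2`;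
`dt`: `m12² ≤ m11 m22`; `w4`: chkM 4 with `[p, q, u, v]`, `tr4` (psd of the matrix of values from `m11, m22, m12`);
`zr`: the value is `0`; `gz`: chkM 11. Indices out of range give the forms `zL` (value 0). Lengths: `wfR`.
-/
set_option autoImplicit false

open Pool.Agent.MSQ Pool.Agent.MTR Pool.Agent.MGF

namespace Pool.Agent.MCA

theorem eS_length (k : Nat) (hk : k ≤ 10) (l : P) : (eS k l).length = 11 := by
  simp only [eS, List.length_append, List.length_replicate, List.length_cons]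
  omega

private theorem addL_length {α : Type} (f : α → α → α) (A B : List α) (n : Nat) (hA : A.length = n)
    (hB : B.length = n) : (addL f A B).length = n := by
  induction A generalizing B n with
  | nil => simpa [addL] using hB
  | cons a s ih =>
    cases B with
    | nil => simpa [addL] using hA
    | cons b t =>
      cases n with
      | zero => simp at hA
      | succ n =>
        simp only [List.length_cons, Nat.add_right_cancel_iff] at hA hB
        simp [addL, ih t n hA hB]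

theorem qAdd_length (A B : List P) (n : Nat) (hA : A.length = n) (hB : B.length = n) : (qAdd A B).length = n :=
  addL_length _ A B n hA hB

private theorem dotL_rep (x y : ℝ) (n : ℕ) (s : List ℝ) :
    dotL (evE x y (List.replicate n [])) s = 0 := by
  induction n generalizing s with
  | zero => simp [evE, dotL]
  | succ n ih =>
    cases s with
    | nil => simp [evE, dotL, List.replicate_succ]
    | cons a s =>
      have h := ih s
      simp only [evE] at h
      simp only [evE, List.replicate_succ, List.map_cons, dotL, h, ev_nil]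
      ring

private theorem dotL_un_aux (x y : ℝ) (k n : ℕ) (p : P) (s : List ℝ) :
    dotL (evE x y (List.replicate k [] ++ (p :: List.replicate n []))) s
      = ev x y p * s.getD k 0 := by
  induction k generalizing s with
  | zero =>
    cases s with
    | nil => simp [evE, dotL]
    | cons a s =>
      have h := dotL_rep x y n s
      simp only [evE] at h
      simp only [evE, List.replicate_zero, List.nil_append, List.map_cons, dotL, h,
        List.getD_cons_zero, add_zero]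
  | succ k ih =>
    cases s with
    | nil => simp [evE, dotL, List.replicate_succ]
    | cons a s =>
      have h := ih s
      simp only [evE] at h
      simp only [evE, List.replicate_succ, List.cons_append, List.map_cons, dotL, h, ev_nil,
        List.getD_cons_succ]
      ring

theorem lv_eS (x y : ℝ) (k : Nat) (l : P) (s : List ℝ) : lv x y (eS k l) s = ev x y l * s.getD k 0 :=
  dotL_un_aux x y k (10 - k) l s

theorem lv_qAdd (x y : ℝ) (A B : LF) (s : List ℝ) : lv x y (qAdd A B) s = lv x y A s + lv x y B s :=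
  dotL_qAdd x y A B s

private theorem ev_oneP (x y : ℝ) : ev x y oneP = 1 := by
  simp [oneP, ev, evL]

/-- value of `f s_m s_n` -/
theorem qf_sS (x y : ℝ) (m n : Nat) (hm : m ≤ 10) (hn : n ≤ 10) (f : P) (s : List ℝ) (hs : s.length = 11) :
    qf (evE x y (sS m n f)) s = ev x y f * (s.getD m 0 * s.getD n 0) := by
  have h1 := lv_eS x y m f s
  have h2 := lv_eS x y n oneP s
  simp only [lv] at h1 h2
  rw [sS, qf_qMul x y _ _ s (by rw [eS_length m hm, hs]) (by rw [eS_length n hn, hs]), h1, h2, ev_oneP]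
  ring

private theorem sumQ_nn (x y : ℝ) (L : List (List P)) (s : List ℝ) (h : ∀ A ∈ L, 0 ≤ qf (evE x y A) s) :
    0 ≤ qf (evE x y (sumQ L)) s := by
  rw [qf_sumQ]
  apply List.sum_nonneg
  intro a ha
  obtain ⟨A, hA, rfl⟩ := List.mem_map.1 ha
  exact h A hA

private theorem getD_cases {α : Type} (L : List α) (i : Nat) (d : α) : L.getD i d ∈ L ∨ L.getD i d = d := by
  by_cases h : i < L.length
  · left
    rw [List.getD_eq_getElem _ _ h]
    exact List.getElem_mem h
  · right
    rw [List.getD_eq_default _ _ (not_lt.1 h)]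

private theorem zL_length : zL.length = 11 := by simp [zL]

private theorem lv_zL (x y : ℝ) (s : List ℝ) : lv x y zL s = 0 := dotL_rep x y 11 s

private theorem chk1 (p : P) (b : Itm) (h : chkM 1 [p] b.x0 b.x1 b.qx b.y0 b.y1 b.qy = true) (x y : ℝ)
    (hb : inI b x y) : 0 ≤ ev x y p := by
  have h1 := chkM_sound 1 [p] _ _ _ _ _ _ h x y hb.2.2.1 hb.2.2.2.1 hb.2.2.2.2.1 hb.2.2.2.2.2 [1] rfl
  simpa [qf, evE, dotL] using h1

private theorem chk2 (p q r : P) (b : Itm) (h : chkM 2 [p, pSm 2 q, r] b.x0 b.x1 b.qx b.y0 b.y1 b.qy = true)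
    (x y : ℝ) (hb : inI b x y) (u v : ℝ) :
    0 ≤ ev x y p * u ^ 2 + 2 * ev x y q * (u * v) + ev x y r * v ^ 2 := by
  have h1 := chkM_sound 2 [p, pSm 2 q, r] _ _ _ _ _ _ h x y hb.2.2.1 hb.2.2.2.1 hb.2.2.2.2.1 hb.2.2.2.2.2
    [u, v] rfl
  simp only [qf, evE, dotL, List.map_cons, List.map_nil, List.length_cons, List.length_nil,
    List.take_succ_cons, List.take_zero, List.drop_succ_cons, List.drop_zero, ev_pSm, zero_add,
    Nat.reduceAdd] at h1
  refine h1.trans (le_of_eq ?_)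
  push_cast
  ring

private theorem chk4 (g : Nat → P) (b : Itm)
    (h : chkM 4 [g 0, pSm 2 (g 1), pSm 2 (g 2), pSm 2 (g 3), g 4, pSm 2 (g 5), pSm 2 (g 6), g 7, pSm 2 (g 8),
        g 9] b.x0 b.x1 b.qx b.y0 b.y1 b.qy = true)
    (x y : ℝ) (hb : inI b x y) (p q u v : ℝ) :
    0 ≤ ev x y (g 0) * p ^ 2 + 2 * ev x y (g 1) * (p * q) + 2 * ev x y (g 2) * (p * u) +
      2 * ev x y (g 3) * (p * v) + ev x y (g 4) * q ^ 2 +
      2 * ev x y (g 5) * (q * u) + 2 * ev x y (g 6) * (q * v) + ev x y (g 7) * u ^ 2 +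
      2 * ev x y (g 8) * (u * v) + ev x y (g 9) * v ^ 2 := by
  have h1 := chkM_sound 4 _ _ _ _ _ _ _ h x y hb.2.2.1 hb.2.2.2.1 hb.2.2.2.2.1 hb.2.2.2.2.2
    [p, q, u, v] rfl
  simp only [qf, evE, dotL, List.map_cons, List.map_nil, List.length_cons, List.length_nil,
    List.take_succ_cons, List.take_zero, List.drop_succ_cons, List.drop_zero, ev_pSm, zero_add,
    Nat.reduceAdd] at h1
  refine h1.trans (le_of_eq ?_)
  push_cast
  ring

private theorem psd_of {A0 A1 A2 : ℝ} (h0 : 0 ≤ A0) (h2 : 0 ≤ A2) (h1 : A1 ^ 2 ≤ A0 * A2) (p q : ℝ) :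
    0 ≤ p ^ 2 * A0 + 2 * p * q * A1 + q ^ 2 * A2 := by
  have hx : 0 ≤ p ^ 2 * A0 := mul_nonneg (sq_nonneg _) h0
  have hy : 0 ≤ q ^ 2 * A2 := mul_nonneg (sq_nonneg _) h2
  have hz : (p * q * A1) ^ 2 ≤ (p ^ 2 * A0) * (q ^ 2 * A2) := by
    have h3 : p ^ 2 * q ^ 2 * A1 ^ 2 ≤ p ^ 2 * q ^ 2 * (A0 * A2) :=
      mul_le_mul_of_nonneg_left h1 (by positivity)
    nlinarith
  by_contra hneg
  push Not at hneg
  have h4 : p ^ 2 * A0 + q ^ 2 * A2 < -(2 * (p * q * A1)) := by linarith
  nlinarith [sq_nonneg (p ^ 2 * A0 - q ^ 2 * A2), add_nonneg hx hy]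

private structure Wf (rg : Rgn) : Prop where
  f : ∀ i, (fS rg i).length = 11
  z : ∀ i, (zS rg i).length = 11
  m11 : ∀ i, (mS rg i).m11.length = 11
  m12 : ∀ i, (mS rg i).m12.length = 11
  m22 : ∀ i, (mS rg i).m22.length = 11

private theorem wf_of (rg : Rgn) (h : wfR rg = true) : Wf rg := by
  simp only [wfR, Bool.and_eq_true, List.all_eq_true, beq_iff_eq] at h
  obtain ⟨⟨hf, hz⟩, hm⟩ := h
  refine ⟨fun i => ?_, fun i => ?_, fun i => ?_, fun i => ?_, fun i => ?_⟩
  · rcases getD_cases rg.fs i zL with h | h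
    · exact hf _ h
    · rw [fS, h, zL_length]
  · rcases getD_cases rg.zs i zL with h | h
    · exact hz _ h
    · rw [zS, h, zL_length]
  · rcases getD_cases rg.ms i ⟨zL, zL, zL⟩ with h | h
    · exact (hm _ h).1.1
    · rw [mS, h, zL_length]
  · rcases getD_cases rg.ms i ⟨zL, zL, zL⟩ with h | h
    · exact (hm _ h).1.2
    · rw [mS, h, zL_length]
  · rcases getD_cases rg.ms i ⟨zL, zL, zL⟩ with h | h
    · exact (hm _ h).2
    · rw [mS, h, zL_length]

private structure Vl (rg : Rgn) (x y : ℝ) (s : List ℝ) : Prop where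
  f : ∀ i, 0 ≤ lv x y (fS rg i) s
  z : ∀ i, lv x y (zS rg i) s = 0
  m11 : ∀ i, 0 ≤ lv x y (mS rg i).m11 s
  m22 : ∀ i, 0 ≤ lv x y (mS rg i).m22 s
  m12 : ∀ i, lv x y (mS rg i).m12 s ^ 2 ≤ lv x y (mS rg i).m11 s * lv x y (mS rg i).m22 s
  g : ∀ i, 0 ≤ ev x y (gS rg i)

private theorem vl_of (rg : Rgn) (x y : ℝ) (s : List ℝ) (hr : ROK rg x y s) : Vl rg x y s := by
  refine ⟨fun i => ?_, fun i => ?_, fun i => ?_, fun i => ?_, fun i => ?_, fun i => ?_⟩
  · rcases getD_cases rg.fs i zL with h | h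
    · exact hr.f _ h
    · rw [fS, h, lv_zL]
  · rcases getD_cases rg.zs i zL with h | h
    · exact hr.z _ h
    · rw [zS, h, lv_zL]
  · rcases getD_cases rg.ms i ⟨zL, zL, zL⟩ with h | h
    · exact hr.m11 _ h
    · rw [mS, h, lv_zL]
  · rcases getD_cases rg.ms i ⟨zL, zL, zL⟩ with h | h
    · exact hr.m22 _ h
    · rw [mS, h, lv_zL]
  · rcases getD_cases rg.ms i ⟨zL, zL, zL⟩ with h | h
    · exact hr.m12 _ h
    · rw [mS, h]
      simp only [lv_zL]
      norm_num
  · rcases getD_cases rg.gs i [] with h | h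
    · exact hr.g _ h
    · rw [gS, h, ev_nil]

private theorem qf_mul11 (x y : ℝ) (A B : LF) (s : List ℝ) (hs : s.length = 11) (hA : A.length = 11)
    (hB : B.length = 11) : qf (evE x y (qMul A B)) s = lv x y A s * lv x y B s :=
  qf_qMul x y A B s (hA.trans hs.symm) (hB.trans hs.symm)

private theorem lv_qPm (x y : ℝ) (p : P) (A : LF) (s : List ℝ) : lv x y (qPm p A) s = ev x y p * lv x y A s :=
  dotL_qPm x y p A s

private theorem ev_negP (x y : ℝ) (p : P) : ev x y (negP p) = -ev x y p := by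
  rw [negP, ev_pSm]
  push_cast
  ring

private theorem sumI_nn (rg : Rgn) (b : Itm) (hw : wfR rg = true) (hp : posI b = true) (x y : ℝ)
    (hb : inI b x y) (s : List ℝ) (hs : s.length = 11) (hr : ROK rg x y s) :
    0 ≤ qf (evE x y (sumI rg b)) s := by
  have W := wf_of rg hw
  have V := vl_of rg x y s hr
  simp only [posI, Bool.and_eq_true, List.all_eq_true, beq_iff_eq] at hp
  obtain ⟨⟨⟨⟨⟨h1, h2⟩, h3⟩, h4⟩, h5⟩, h6⟩ := hp
  have M := fun i => psd_of (V.m11 i) (V.m22 i) (V.m12 i)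
  unfold sumI
  apply sumQ_nn
  intro A hA
  simp only [List.mem_cons, List.not_mem_nil, or_false] at hA
  rcases hA with rfl | rfl | rfl | rfl | rfl | rfl
  · apply sumQ_nn
    intro A hA
    obtain ⟨t, ht, rfl⟩ := List.mem_map.1 hA
    rw [qf_mul11 x y _ _ s hs (by rw [qPm_length]; exact W.f _) (W.f _), lv_qPm]
    exact mul_nonneg (mul_nonneg (chk1 _ b (h1 t ht) x y hb) (V.f _)) (V.f _)
  · apply sumQ_nn
    intro A hA
    obtain ⟨t, ht, rfl⟩ := List.mem_map.1 hA
    rw [qf_mul11 x y _ _ s hs (W.f _) (by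
      unfold trM
      exact qAdd_length _ _ _ (by rw [qPm_length]; exact W.m11 _) (qAdd_length _ _ _
        (by rw [qPm_length]; exact W.m12 _) (by rw [qPm_length]; exact W.m22 _)))]
    refine mul_nonneg (V.f _) ?_
    simp only [trM, lv_qAdd, lv_qPm, ev_pSm]
    have := tr2 (chk2 _ _ _ b (h2 t ht) x y hb) (M t.2.1)
    refine this.trans (le_of_eq ?_)
    push_cast
    ring
  · apply sumQ_nn
    intro A hA
    obtain ⟨t, ht, rfl⟩ := List.mem_map.1 hA
    rw [qf_qAdd, qf_mul11 x y _ _ s hs (by rw [qPm_length]; exact W.m11 _) (W.m22 _),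
      qf_mul11 x y _ _ s hs (by rw [qPm_length]; exact W.m12 _) (W.m12 _), lv_qPm, lv_qPm, ev_negP]
    have hc := chk1 _ b (h3 t ht) x y hb
    have := mul_nonneg hc (sub_nonneg.2 (V.m12 t.1))
    refine this.trans (le_of_eq ?_)
    ring
  · apply sumQ_nn
    intro A hA
    obtain ⟨t, ht, rfl⟩ := List.mem_map.1 hA
    have := tr4 (chk4 (fun k => t.2.2.getD k []) b (h4 t ht) x y hb) (M t.1) (M t.2.1)
    refine this.trans (le_of_eq ?_)
    simp only [krM, qf_sumQ, List.map_cons, List.map_nil, List.sum_cons, List.sum_nil]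
    rw [qf_mul11 x y _ _ s hs (by rw [qPm_length]; exact W.m11 _) (W.m11 _),
      qf_mul11 x y _ _ s hs (by rw [qPm_length]; exact W.m11 _) (W.m12 _),
      qf_mul11 x y _ _ s hs (by rw [qPm_length]; exact W.m12 _) (W.m11 _),
      qf_mul11 x y _ _ s hs (by rw [qPm_length]; exact W.m12 _) (W.m12 _),
      qf_mul11 x y _ _ s hs (by rw [qPm_length]; exact W.m11 _) (W.m22 _),
      qf_mul11 x y _ _ s hs (by rw [qPm_length]; exact W.m12 _) (W.m12 _),
      qf_mul11 x y _ _ s hs (by rw [qPm_length]; exact W.m12 _) (W.m22 _),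
      qf_mul11 x y _ _ s hs (by rw [qPm_length]; exact W.m22 _) (W.m11 _),
      qf_mul11 x y _ _ s hs (by rw [qPm_length]; exact W.m22 _) (W.m12 _),
      qf_mul11 x y _ _ s hs (by rw [qPm_length]; exact W.m22 _) (W.m22 _)]
    simp only [lv_qPm, ev_pSm]
    push_cast
    ring
  · apply sumQ_nn
    intro A hA
    obtain ⟨t, ht, rfl⟩ := List.mem_map.1 hA
    rw [qf_mul11 x y _ _ s hs (W.z _) (h5 t ht), V.z, zero_mul]
  · apply sumQ_nn
    intro A hA
    obtain ⟨t, ht, rfl⟩ := List.mem_map.1 hA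
    rw [qf_qPm]
    refine mul_nonneg (V.g _) ?_
    exact chkM_sound 11 _ _ _ _ _ _ _ (h6 t ht) x y hb.2.2.1 hb.2.2.2.1 hb.2.2.2.2.1 hb.2.2.2.2.2 s hs

theorem chkI_sound (rg : Rgn) (R : List P) (b : Itm) (h : chkI rg R b = true) (x y : ℝ) (hb : inI b x y)
    (s : List ℝ) (hs : s.length = 11) (hr : ROK rg x y s) : 0 ≤ qf (evE x y R) s := by
  simp only [chkI, Bool.and_eq_true] at h
  obtain ⟨⟨hw, hp⟩, hc⟩ := h
  have h1 := chkM_sound 11 _ _ _ _ _ _ _ hc x y hb.2.2.1 hb.2.2.2.1 hb.2.2.2.2.1 hb.2.2.2.2.2 s hs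
  rw [qf_qAdd, qf_qSm] at h1
  have h2 := sumI_nn rg b hw hp x y hb s hs hr
  push_cast at h1
  linarith

end Pool.Agent.MCA
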