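import Pool.Agent.MCA.CWD
import Pool.Agent.MCA.CCN1
import Pool.Agent.MCA.CCN2
import Pool.Agent.MCA.CCS
import Pool.Agent.MCA.VEX
import Pool.Agent.MSQ.EvA
/-!
CVS (250 lines). Validity of the facts of the C cells in the sliver, on the side `x = 1` and on the curve.

PROOF. As `aV_S`, `aV_X`, `aV_Y` in AVL.lean (copy the private lemmas). `sv` has the first entry `1/(DL N³)`, so a form `c s_0`
with `c ≥ DL N³ k` is at least `k`. Forms of `crS q`: `V_f1`, `V_nq`, `V_f2` with `η = cyt/999` times 999, `V_sBp`, `V_sBm` with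
`ξ = 97/100` times 200 (VSL), `V_sC5p` times `2 m`, `V_s21p`, `V_s31p` times 2 (VEX), loads, upper bounds and the sum form as in
CVC.lean (`V_la`, ... for `FdC`; the loads of `FdS` are the same functions), `sUE_ok`, `sUZ_ok`; matrices `V_KA`, `V_sMH`;
`curP ≥ 0` by `(2+x²) y² ≤ 3`. `cV_X` (`x = 1`): `a = b = 0` (`h.cor`), `u = c` (`FdC_one`); `rdX` replaces the state `c` by `u` and
drops `a, b`, `atx1` puts `x = 1`, so the value of a form is not changed; `cfDn` is `2 V_31p` at `x = 1` (the constant is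
`0`: `cc √(3/2) = √3/2`). `cV_Y` (`y = yt x`): `c = d = 0`, `u = -a` (`FdS_curve`), `rdY`; `V_Tp`, `V_Tm` times 2; `curP = 0`.
`cV_lS`: equality for the linear part, `cWb_ok` for the first entry.
-/
set_option autoImplicit false

namespace Pool.Agent.MCA
open Pool.Agent.MSQ Pool.Agent.MTR Pool.Agent.MGF

variable {K : Jet} {b : ℝ} {q : Cq}

section

/-! ### values of the forms -/

private theorem cvs_DL : ((aDL : Int) : ℝ) = 4782969 := by norm_num [aDL]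

private theorem cvs_lF (x y : ℝ) (t u q p a b c d mu nu ka : P) (F : Fd) :
    lv x y (lF t u q p a b c d mu nu ka) (sv aDL F x y) =
      ev x y t * (1 / (4782969 * Nf y ^ 3)) + ev x y u * (F.S x y).u + ev x y q * (F.S x y).q + ev x y p * (F.S x y).p +
      ev x y a * F.a x + ev x y b * F.b x + ev x y c * F.c x y + ev x y d * F.d x y + ev x y mu * (F.S x y).mu +
      ev x y nu * (F.S x y).nu + ev x y ka * (F.S x y).ka := by
  simp only [lv, lF, evE, sv, dotL, List.map_cons, List.map_nil, cvs_DL]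
  ring

private theorem cvs_up {N E k : ℝ} (hN : 0 < N) (h : 4782969 * N ^ 3 * k ≤ E) : k ≤ E * (1 / (4782969 * N ^ 3)) := by
  rw [mul_one_div, le_div_iff₀ (by positivity)]
  linarith

private theorem cvs_N0 (y : ℝ) : 0 < Nf y := Real.sqrt_pos.mpr (by positivity)
private theorem cvs_N2 (y : ℝ) : Nf y ^ 2 = 1 + y ^ 2 / 3 := by
  unfold Nf
  exact Real.sq_sqrt (by positivity)
private theorem cvs_m0 (x : ℝ) : 0 < mf x := by unfold mf; positivity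
private theorem cvs_w0 (x : ℝ) : 0 < wf x := Real.sqrt_pos.mpr (cvs_m0 x)
private theorem cvs_w2 (x : ℝ) : wf x ^ 2 = 1 + x ^ 2 / 2 := by
  unfold wf
  exact Real.sq_sqrt (cvs_m0 x).le
private theorem cvs_30 : (0 : ℝ) < √3 := Real.sqrt_pos.mpr (by norm_num)
private theorem cvs_32 : (√3 : ℝ) ^ 2 = 3 := Real.sq_sqrt (by norm_num)
private theorem cvs_c0 : 0 < cc := by unfold cc; positivity
private theorem cvs_c2 : cc ^ 2 = 1 / 2 := by
  unfold cc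
  rw [div_pow, Real.sq_sqrt (by norm_num)]
  norm_num
private theorem cvs_s0 (y : ℝ) : 0 ≤ 1 / (4782969 * Nf y ^ 3) := by
  have := cvs_N0 y
  positivity

variable (x y : ℝ) (F : Fd)

private theorem cvs_ap : lv x y aap (sv aDL F x y) = (F.S x y).u + (1 - y) * (F.S x y).q + F.a x := by
  unfold aap
  rw [cvs_lF]
  simp only [ev, evL]
  push_cast
  ring
private theorem cvs_am : lv x y aam (sv aDL F x y) = (F.S x y).u - (1 + y) * (F.S x y).q + F.b x := by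
  unfold aam
  rw [cvs_lF]
  simp only [ev, evL]
  push_cast
  ring
private theorem cvs_fB4 : lv x y cfB4 (sv aDL F x y) = 20 * (ev x y cC4 * (1 / (4782969 * Nf y ^ 3))) - (20 - 9 * x) * (F.S x y).u -
    x * y * (9 + 10 * x) * (F.S x y).q + (18 + 20 * x) * (F.S x y).p + (20 + 10 * x ^ 2) * F.d x y := by
  unfold cfB4
  rw [cvs_lF, ev_pSm]
  simp [ev, evL]
  ring
private theorem cvs_fs0 : lv x y afs0 (sv aDL F x y) = 1 / (4782969 * Nf y ^ 3) := by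
  unfold afs0
  rw [cvs_lF]
  simp [ev, evL]
private theorem cvs_la : lv x y ala (sv aDL F x y) = F.a x := by
  unfold ala
  rw [cvs_lF]
  simp [ev, evL]
private theorem cvs_lb : lv x y alb (sv aDL F x y) = F.b x := by
  unfold alb
  rw [cvs_lF]
  simp [ev, evL]
private theorem cvs_lc : lv x y alc (sv aDL F x y) = F.c x y := by
  unfold alc
  rw [cvs_lF]
  simp [ev, evL]
private theorem cvs_ld : lv x y ald (sv aDL F x y) = F.d x y := by
  unfold ald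
  rw [cvs_lF]
  simp [ev, evL]
private theorem cvs_sf1 : lv x y asf1 (sv aDL F x y) = (F.S x y).u + F.a x := by
  unfold asf1
  rw [cvs_lF]
  simp [ev, evL]
private theorem cvs_sA20 : lv x y csA20 (sv aDL F x y) = -999 * (F.S x y).u + (999 * y - ev x y cyt) * (F.S x y).q -
    999 * F.a x := by
  unfold csA20
  rw [cvs_lF, ev_pAdd, ev_pSm]
  simp [ev, evL]
  ring
private theorem cvs_snq : lv x y asnq (sv aDL F x y) = -(F.S x y).q := by
  unfold asnq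
  rw [cvs_lF]
  simp [ev, evL]
private theorem cvs_sB3 : lv x y csB3 (sv aDL F x y) = 200 * (ev x y sC3 * (1 / (4782969 * Nf y ^ 3))) -
    (200 + 97 * x) * (F.S x y).u + x * y * (97 - 100 * x) * (F.S x y).q - (194 - 200 * x) * (F.S x y).p +
    (200 + 100 * x ^ 2) * F.c x y := by
  unfold csB3
  rw [cvs_lF, ev_pSm]
  simp [ev, evL]
  ring
private theorem cvs_sB4 : lv x y csB4 (sv aDL F x y) = 200 * (ev x y sC4 * (1 / (4782969 * Nf y ^ 3))) -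
    (200 - 97 * x) * (F.S x y).u - x * y * (97 + 100 * x) * (F.S x y).q + (194 + 200 * x) * (F.S x y).p +
    (200 + 100 * x ^ 2) * F.d x y := by
  unfold csB4
  rw [cvs_lF, ev_pSm]
  simp [ev, evL]
  ring
private theorem cvs_sB5 : lv x y csB5 (sv aDL F x y) = 2 * (ev x y sC5 * (1 / (4782969 * Nf y ^ 3))) -
    (2 + x ^ 2) * (F.S x y).u + (2 + x ^ 2) * F.c x y := by
  unfold csB5
  rw [cvs_lF, ev_pSm]
  simp [ev, evL]
  ring
private theorem cvs_sB21 : lv x y csB21 (sv aDL F x y) = 2 * (ev x y sC21 * (1 / (4782969 * Nf y ^ 3))) +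
    (2 + x) * (F.S x y).u - x * y * (1 - x) * (F.S x y).q + (2 - 2 * x) * (F.S x y).p - (2 + x ^ 2) * F.c x y := by
  unfold csB21
  rw [cvs_lF, ev_pSm]
  simp [ev, evL]
  ring
private theorem cvs_sB31 : lv x y csB31 (sv aDL F x y) = 2 * (ev x y sC31 * (1 / (4782969 * Nf y ^ 3))) +
    x * (F.S x y).u - x * y * (F.S x y).q + 2 * (F.S x y).p := by
  unfold csB31
  rw [cvs_lF, ev_pSm]
  simp [ev, evL]
  ring
private theorem cvs_fDn : lv x y cfDn (sv aDL F x y) = (F.S x y).u - y * (F.S x y).q + 2 * (F.S x y).p := by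
  unfold cfDn
  rw [cvs_lF]
  simp [ev, evL]
  ring
private theorem cvs_KA1 : lv x y aKA.m11 (sv aDL F x y) = 2 * (F.S x y).mu := by
  unfold aKA
  rw [cvs_lF]
  simp [ev, evL]
private theorem cvs_KA2 : lv x y aKA.m12 (sv aDL F x y) = 2 * (F.S x y).nu := by
  unfold aKA
  rw [cvs_lF]
  simp [ev, evL]
private theorem cvs_KA3 : lv x y aKA.m22 (sv aDL F x y) = (F.S x y).ka := by
  unfold aKA
  rw [cvs_lF]
  simp [ev, evL]
private theorem cvs_sMH1 : lv x y asMH.m11 (sv aDL F x y) = 2 / (3 * Nf y ^ 3) - 2 * (F.S x y).mu := by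
  have hN := cvs_N0 y
  unfold asMH
  rw [cvs_lF]
  simp [ev, evL]
  field_simp
  ring
private theorem cvs_sMH2 : lv x y asMH.m12 (sv aDL F x y) = -2 * (F.S x y).nu := by
  unfold asMH
  rw [cvs_lF]
  simp [ev, evL]
private theorem cvs_eN : ev x y [[4782969, 0, 1594323]] = 4782969 * Nf y ^ 2 := by
  rw [cvs_N2]
  simp [ev, evL]
  ring
private theorem cvs_sMH3 : lv x y asMH.m22 (sv aDL F x y) = 1 / Nf y - (F.S x y).ka := by
  have hN := cvs_N0 y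
  unfold asMH
  rw [cvs_lF]
  have e : ev x y [[4782969, 0, 1594323]] * (1 / (4782969 * Nf y ^ 3)) = 1 / Nf y := by
    rw [cvs_eN]
    field_simp
  rw [e]
  simp [ev, evL]
  ring
private theorem cvs_Tp : lv x y aTp (sv aDL F x y) = 2 * ((1 + x / 2) * F.a x - (1 - x) * ((F.S x y).p - x * y / 2 * (F.S x y).q)) := by
  unfold aTp
  rw [cvs_lF]
  simp [ev, evL]
  ring
private theorem cvs_Tm : lv x y aTm (sv aDL F x y) = 2 * ((1 - x / 2) * F.a x + (1 + x) * ((F.S x y).p - x * y / 2 * (F.S x y).q)) := by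
  unfold aTm
  rw [cvs_lF]
  simp [ev, evL]
  ring
private theorem cvs_fU (k : Nat) (U : P) (n : Int) : lv x y (cfU k U n) (sv aDL F x y) =
    ev x y (ceC U n 100000) * (1 / (4782969 * Nf y ^ 3)) - (sv aDL F x y).getD k 0 := by
  have e1 : (sv aDL F x y).getD 0 0 = 1 / (4782969 * Nf y ^ 3) := by
    simp [sv, cvs_DL]
  have e2 : ev x y [[-1]] = -1 := by simp [ev, evL]
  unfold cfU
  rw [lv_qAdd, lv_eS, lv_eS, e1, e2]
  ring
private theorem cvs_fSt (U : P) (n : Int) : lv x y (cfS U n true) (sv aDL F x y) =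
    49 * ((1 + x) * (ev x y (ceC U n 100000) * (1 / (4782969 * Nf y ^ 3)))) -
      (49 + y * (40 + 9 * x ^ 2)) * (F.a x + F.b x) - 49 * (1 + x) * F.c x y := by
  show lv x y (lF (pSm 49 (pMul [[1], [1]] (ceC U n 100000))) [] [] [] [[-49, -40], [], [0, -9]]
    [[-49, -40], [], [0, -9]] [[-49], [-49]] [] [] [] []) (sv aDL F x y) = _
  rw [cvs_lF, ev_pSm, ev_pMul]
  simp [ev, evL]
  ring
private theorem cvs_fSf (U : P) (n : Int) : lv x y (cfS U n false) (sv aDL F x y) =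
    49 * ((1 + x) * (ev x y (ceC U n 100000) * (1 / (4782969 * Nf y ^ 3)))) -
      (49 + y * (40 + 9 * x ^ 2)) * (F.a x + F.b x) - 49 * (1 + x) * F.d x y := by
  show lv x y (lF (pSm 49 (pMul [[1], [1]] (ceC U n 100000))) [] [] [] [[-49, -40], [], [0, -9]]
    [[-49, -40], [], [0, -9]] [] [[-49], [-49]] [] [] []) (sv aDL F x y) = _
  rw [cvs_lF, ev_pSm, ev_pMul]
  simp [ev, evL]
  ring

/-! ### loads -/

variable {x y F}

private theorem cvs_ax (hx : 0 ≤ x) (hx1 : x ≤ 1) : |cc * x| ≤ cc := by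
  rw [abs_of_nonneg (mul_nonneg cvs_c0.le hx)]
  nlinarith [cvs_c0]
private theorem cvs_Yc (hx : 0 ≤ x) (hy : 0 ≤ y) (hc : (2 + x ^ 2) * y ^ 2 ≤ 3) : wf x * y / √3 ≤ cc := by
  have h1 := cvs_w2 x
  have h2 := cvs_32
  have h3 := cvs_30
  have h4 := cvs_w0 x
  have h0 : 0 ≤ wf x * y / √3 := by positivity
  rw [← pow_le_pow_iff_left₀ h0 cvs_c0.le two_ne_zero, div_pow, mul_pow, h1, h2, cvs_c2, div_le_iff₀ (by norm_num)]
  nlinarith
private theorem cvs_Ya (hx : 0 ≤ x) (hy : 0 ≤ y) (hc : (2 + x ^ 2) * y ^ 2 ≤ 3) : |wf x * y / √3| ≤ cc := by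
  have h4 : 0 ≤ wf x * y / √3 := by
    have := cvs_w0 x
    have := cvs_30
    positivity
  rw [abs_of_nonneg h4]
  exact cvs_Yc hx hy hc
private theorem cvs_hc (hx : 0 ≤ x) (hx1 : x ≤ 1) (hy : 0 ≤ y) (hy1 : y ≤ 1) : (2 + x ^ 2) * y ^ 2 ≤ 3 := by
  have h1 : x ^ 2 ≤ 1 := by nlinarith
  have h2 : y ^ 2 ≤ 1 := by nlinarith
  nlinarith [sq_nonneg x, sq_nonneg y]
private theorem cvs_l0 (h : SqHyp K b) (hx : 0 ≤ x) (hx1 : x ≤ 1) (hy : 0 ≤ y) (hc : (2 + x ^ 2) * y ^ 2 ≤ 3) :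
    0 ≤ (FdC K).a x ∧ 0 ≤ (FdC K).b x ∧ 0 ≤ (FdC K).c x y ∧ 0 ≤ (FdC K).d x y :=
  V_l0 h x y hx hx1 hy (cvs_Yc hx hy hc)

/-- `U s_0` bounds `n / 10^5` times the quantity `v` -/
private theorem cvs_ce {U : P} {n : Int} {v α : ℝ} (hx : 0 ≤ x) (hy : 0 ≤ y) (hU : 4782969 * Nf y ^ 3 * v ≤ ev x y U)
    (hv : 0 ≤ v) (h0 : 0 ≤ α) (hn : α ≤ n / 100000) :
    α * v ≤ ev x y (ceC U n 100000) * (1 / (4782969 * Nf y ^ 3)) := by
  have h1 := ceC_ge U n 100000 (by norm_num) x y hx hy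
  have h2 := cvs_up (cvs_N0 y) hU
  have h3 := cvs_s0 y
  have h4 : (0 : ℝ) ≤ n / 100000 := h0.trans hn
  have e : ((100000 : Int) : ℝ) = 100000 := by norm_num
  rw [e] at h1
  calc α * v ≤ n / 100000 * v := mul_le_mul_of_nonneg_right hn hv
    _ ≤ n / 100000 * (ev x y U * (1 / (4782969 * Nf y ^ 3))) := mul_le_mul_of_nonneg_left h2 h4
    _ = n / 100000 * ev x y U * (1 / (4782969 * Nf y ^ 3)) := by ring
    _ ≤ _ := mul_le_mul_of_nonneg_right h1 h3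

private theorem cvs_vE (hx : 0 ≤ x) : 0 ≤ cc * (1 + x) / wf x := by
  have := cvs_c0
  have := cvs_w0 x
  positivity
private theorem cvs_vZ (x : ℝ) (hy : 0 ≤ y) : 0 ≤ cc / wf x + y / √3 := by
  have := cvs_c0
  have := cvs_w0 x
  have := cvs_30
  positivity

/-- upper bounds of the loads -/
private theorem cvs_Ua (hl : LdQ K q) {U : P} (hx : 0 ≤ x) (hx1 : x ≤ 1) (hy : 0 ≤ y)
    (hU : 4782969 * Nf y ^ 3 * (cc * (1 + x) / wf x) ≤ ev x y U) :
    (FdC K).a x ≤ ev x y (ceC U q.a 100000) * (1 / (4782969 * Nf y ^ 3)) := by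
  obtain ⟨α, β, γ, δ, a0, b0, c0, d0, ha, hb, hg, hd, h1, h2, h3, h4, -⟩ := hl.ex
  have t1 := V_la α x hx (h1 _ (cvs_ax hx hx1))
  have t2 := cvs_ce hx hy hU (cvs_vE hx) a0 ha
  have e : α * cc * (1 + x) / wf x = α * (cc * (1 + x) / wf x) := by ring
  rw [e] at t1
  exact t1.trans t2
private theorem cvs_Ub (hl : LdQ K q) {U : P} (hx : 0 ≤ x) (hx1 : x ≤ 1) (hy : 0 ≤ y)
    (hU : 4782969 * Nf y ^ 3 * (cc * (1 + x) / wf x) ≤ ev x y U) :
    (FdC K).b x ≤ ev x y (ceC U q.b 100000) * (1 / (4782969 * Nf y ^ 3)) := by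
  obtain ⟨α, β, γ, δ, a0, b0, c0, d0, ha, hb, hg, hd, h1, h2, h3, h4, -⟩ := hl.ex
  have t1 := V_lb β x hx (h2 _ (cvs_ax hx hx1))
  have t2 := cvs_ce hx hy hU (cvs_vE hx) b0 hb
  have e : β * cc * (1 + x) / wf x = β * (cc * (1 + x) / wf x) := by ring
  rw [e] at t1
  exact t1.trans t2
private theorem cvs_Uc (hl : LdQ K q) {U : P} (hx : 0 ≤ x) (hy : 0 ≤ y) (hc : (2 + x ^ 2) * y ^ 2 ≤ 3)
    (hU : 4782969 * Nf y ^ 3 * (cc / wf x + y / √3) ≤ ev x y U) :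
    (FdC K).c x y ≤ ev x y (ceC U q.c 100000) * (1 / (4782969 * Nf y ^ 3)) := by
  obtain ⟨α, β, γ, δ, a0, b0, c0, d0, ha, hb, hg, hd, h1, h2, h3, h4, -⟩ := hl.ex
  exact (V_lc γ x y hy (h3 _ (cvs_Ya hx hy hc))).trans (cvs_ce hx hy hU (cvs_vZ x hy) c0 hg)
private theorem cvs_Ud (hl : LdQ K q) {U : P} (hx : 0 ≤ x) (hy : 0 ≤ y) (hc : (2 + x ^ 2) * y ^ 2 ≤ 3)
    (hU : 4782969 * Nf y ^ 3 * (cc / wf x + y / √3) ≤ ev x y U) :
    (FdC K).d x y ≤ ev x y (ceC U q.d 100000) * (1 / (4782969 * Nf y ^ 3)) := by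
  obtain ⟨α, β, γ, δ, a0, b0, c0, d0, ha, hb, hg, hd, h1, h2, h3, h4, -⟩ := hl.ex
  exact (V_ld δ x y hy (h4 _ (cvs_Ya hx hy hc))).trans (cvs_ce hx hy hU (cvs_vZ x hy) d0 hd)

/-- arithmetic of the sum form -/
private theorem cvs_ar {s E A Z W v : ℝ} (hx : 0 ≤ x) (hy : 0 ≤ y) (hA : 0 ≤ A) (hg : 40 + 9 * x ^ 2 ≤ 49 * W)
    (hE : s * v ≤ E) (h : 0 ≤ s * (1 + x) * v - (1 + W * y) * A - (1 + x) * Z) :
    0 ≤ 49 * ((1 + x) * E) - (49 + y * (40 + 9 * x ^ 2)) * A - 49 * (1 + x) * Z := by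
  have t1 : 0 ≤ (1 + x) * (E - s * v) := mul_nonneg (by linarith) (by linarith)
  have t2 : 0 ≤ y * A * (49 * W - (40 + 9 * x ^ 2)) := mul_nonneg (mul_nonneg hy hA) (by linarith)
  nlinarith

/-- the sum form -/
private theorem cvs_Us (h : SqHyp K b) (hl : LdQ K q) {U : P} (hs : q.hs = true) (hx : 0 ≤ x) (hx1 : x ≤ 1) (hy : 0 ≤ y)
    (hc : (2 + x ^ 2) * y ^ 2 ≤ 3) (hU : 4782969 * Nf y ^ 3 * (cc / wf x + y / √3) ≤ ev x y U) (S : ℝ → ℝ → St) :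
    0 ≤ lv x y (cfS U q.s q.zc) (sv aDL ⟨S, (FdC K).a, (FdC K).b, (FdC K).c, (FdC K).d⟩ x y) := by
  obtain ⟨α, β, γ, δ, a0, b0, c0, d0, -, -, -, -, h1, h2, h3, h4, h5⟩ := hl.ex
  have h5 := h5 hs
  have hw := cvs_w0 x
  have h30 := cvs_30
  have hL := cvs_l0 h hx hx1 hy hc
  have hA : 0 ≤ (FdC K).a x + (FdC K).b x := add_nonneg hL.1 hL.2.1
  have hg := g29 x hx hx1
  have hv : (cc + wf x * y / √3) / wf x = cc / wf x + y / √3 := by
    field_simp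
  have hev : ∀ s : ℝ, s * (1 + x) * (cc + wf x * y / √3) / wf x = s * (1 + x) * (cc / wf x + y / √3) := by
    intro s
    rw [← hv]
    ring
  have hax := cvs_ax hx hx1
  have hay := cvs_Ya hx hy hc
  cases hz : q.zc with
  | true =>
    rw [hz, if_pos rfl] at h5
    rw [cvs_fSt]
    have t := V_sumc K γ α β (α + β + γ) x y hx hy (by linarith) (h1 _ hax) (h2 _ hax) (h3 _ hay)
    rw [hev] at t
    have e : (1 + √(2 / 3) * wf x * y) = 1 + (√(2 / 3) * wf x) * y := by ring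
    rw [e] at t
    exact cvs_ar hx hy hA hg (cvs_ce hx hy hU (cvs_vZ x hy) (by positivity) h5) t
  | false =>
    rw [hz, if_neg (by simp)] at h5
    rw [cvs_fSf]
    have t := V_sum K δ α β (α + β + δ) x y hx hy (by linarith) (h1 _ hax) (h2 _ hax) (h4 _ hay)
    rw [hev] at t
    have e : (1 + √(2 / 3) * wf x * y) = 1 + (√(2 / 3) * wf x) * y := by ring
    rw [e] at t
    exact cvs_ar hx hy hA hg (cvs_ce hx hy hU (cvs_vZ x hy) (by positivity) h5) t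

private theorem cvs_Sl (h : SqHyp K b) (hl : LdQ K q) {U : P} (hx : 0 ≤ x) (hx1 : x ≤ 1) (hy : 0 ≤ y)
    (hc : (2 + x ^ 2) * y ^ 2 ≤ 3) (hU : 4782969 * Nf y ^ 3 * (cc / wf x + y / √3) ≤ ev x y U) (S : ℝ → ℝ → St) :
    ∀ l ∈ cfSl U q, 0 ≤ lv x y l (sv aDL ⟨S, (FdC K).a, (FdC K).b, (FdC K).c, (FdC K).d⟩ x y) := by
  unfold cfSl
  by_cases hs : q.hs = true
  · rw [if_pos hs]
    exact List.forall_mem_cons.2 ⟨cvs_Us h hl hs hx hx1 hy hc hU S, List.forall_mem_nil _⟩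
  · rw [if_neg hs]
    exact List.forall_mem_nil _

private theorem cvs_s (x y : ℝ) (F : Fd) : 0 ≤ lv x y afs0 (sv aDL F x y) := by
  rw [cvs_fs0]
  exact cvs_s0 y

/-! ### facts of the sliver -/

private theorem cvs_S_1 (h : SqHyp K b) (hx : 0 ≤ x) (hx1 : x ≤ 1) (hy : 1 ≤ y) (hc : (2 + x ^ 2) * y ^ 2 ≤ 3) :
    0 ≤ lv x y asf1 (sv aDL (FdS K) x y) := by
  rw [cvs_sf1]
  exact V_f1 h x y hx hx1 hy hc
private theorem cvs_S_20 (h : SqHyp K b) (hx : 0 ≤ x) (hx1 : x ≤ 1) (hy : 1 ≤ y) (hc : (2 + x ^ 2) * y ^ 2 ≤ 3) :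
    0 ≤ lv x y csA20 (sv aDL (FdS K) x y) := by
  rw [cvs_sA20]
  have h1 := cyt_ok x y hx hx1
  have h2 := V_f2 h x y (ev x y cyt / 999) hx hx1 hy hc (by rw [le_div_iff₀ (by norm_num)]; linarith)
  have h4 : (FdS K).S x y = AS K x y := rfl
  rw [h4]
  have e : -999 * (AS K x y).u + (999 * y - ev x y cyt) * (AS K x y).q - 999 * (FdS K).a x =
      999 * (-(AS K x y).u - (ev x y cyt / 999 - y) * (AS K x y).q - (FdS K).a x) := by ring
  rw [e]
  exact mul_nonneg (by norm_num) h2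
private theorem cvs_S_nq (h : SqHyp K b) (x y : ℝ) : 0 ≤ lv x y asnq (sv aDL (FdS K) x y) := by
  rw [cvs_snq]
  exact neg_nonneg.2 (V_nq h x y)
private theorem cvs_S_B3 (h : SqHyp K b) (hx : 0 ≤ x) (hx1 : x ≤ 1) (hy : 1 ≤ y) (hc : (2 + x ^ 2) * y ^ 2 ≤ 3) :
    0 ≤ lv x y csB3 (sv aDL (FdS K) x y) := by
  rw [cvs_sB3]
  have h1 := V_sBp h x y (97 / 100) hx hx1 hy hc (by norm_num) (by norm_num)
  have h2 := cvs_up (cvs_N0 y) (sC3_ok x y hx hx1 hy hc)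
  have h3 : mf x = 1 + x ^ 2 / 2 := rfl
  have h4 : (FdS K).S x y = AS K x y := rfl
  rw [h3] at h1
  rw [h4]
  linarith
private theorem cvs_S_B4 (h : SqHyp K b) (hx : 0 ≤ x) (hx1 : x ≤ 1) (hy : 1 ≤ y) (hc : (2 + x ^ 2) * y ^ 2 ≤ 3) :
    0 ≤ lv x y csB4 (sv aDL (FdS K) x y) := by
  rw [cvs_sB4]
  have h1 := V_sBm h x y (97 / 100) hx hx1 hy hc (by norm_num) (by norm_num)
  have h2 := cvs_up (cvs_N0 y) (sC4_ok x y hx hx1 hy hc)
  have h3 : mf x = 1 + x ^ 2 / 2 := rfl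
  have h4 : (FdS K).S x y = AS K x y := rfl
  rw [h3] at h1
  rw [h4]
  linarith
private theorem cvs_S_B5 (h : SqHyp K b) (hx : 0 ≤ x) (hx1 : x ≤ 1) (hy : 1 ≤ y) (hc : (2 + x ^ 2) * y ^ 2 ≤ 3) :
    0 ≤ lv x y csB5 (sv aDL (FdS K) x y) := by
  rw [cvs_sB5]
  have h1 := mul_nonneg (cvs_m0 x).le (V_sC5p h x y hx hx1 hy hc)
  have h2 := cvs_up (cvs_N0 y) (sC5_ok x y hx hx1 hy hc)
  have h4 : (FdS K).S x y = AS K x y := rfl
  rw [h4]
  have e : mf x * (Nf y - y / (2 * √3) - (1 + x / 2) * cc / wf x - (AS K x y).u + (FdS K).c x y) =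
      mf x * (Nf y - y / (2 * √3) - (1 + x / 2) * cc / wf x) - mf x * (AS K x y).u + mf x * (FdS K).c x y := by ring
  rw [e] at h1
  have h5 : mf x * (AS K x y).u = (1 + x ^ 2 / 2) * (AS K x y).u := rfl
  have h6 : mf x * (FdS K).c x y = (1 + x ^ 2 / 2) * (FdS K).c x y := rfl
  rw [h5, h6] at h1
  linarith
private theorem cvs_S_B21 (h : SqHyp K b) (hx : 0 ≤ x) (hx1 : x ≤ 1) (hy : 1 ≤ y) (hc : (2 + x ^ 2) * y ^ 2 ≤ 3) :
    0 ≤ lv x y csB21 (sv aDL (FdS K) x y) := by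
  rw [cvs_sB21]
  have h1 := V_s21p h x y
  have h2 := cvs_up (cvs_N0 y) (sC21_ok x y hx hx1 hy hc)
  have h4 : (FdS K).S x y = AS K x y := rfl
  have h5 : mf x * (AS K x y).u = (1 + x ^ 2 / 2) * (AS K x y).u := rfl
  have h6 : mf x * (FdS K).c x y = (1 + x ^ 2 / 2) * (FdS K).c x y := rfl
  rw [h5, h6] at h1
  rw [h4]
  linarith
private theorem cvs_S_B31 (h : SqHyp K b) (hx : 0 ≤ x) (hx1 : x ≤ 1) (hy : 1 ≤ y) (hc : (2 + x ^ 2) * y ^ 2 ≤ 3) :
    0 ≤ lv x y csB31 (sv aDL (FdS K) x y) := by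
  rw [cvs_sB31]
  have h1 := V_s31p h x y
  have h2 := cvs_up (cvs_N0 y) (sC31_ok x y hx hx1 hy hc)
  have h4 : (FdS K).S x y = AS K x y := rfl
  rw [h4]
  linarith
private theorem cvs_S_la (h : SqHyp K b) (hx : 0 ≤ x) (hx1 : x ≤ 1) (y : ℝ) : 0 ≤ lv x y ala (sv aDL (FdS K) x y) := by
  rw [cvs_la]
  exact (cvs_l0 (y := 0) h hx hx1 le_rfl (by norm_num)).1
private theorem cvs_S_lb (h : SqHyp K b) (hx : 0 ≤ x) (hx1 : x ≤ 1) (y : ℝ) : 0 ≤ lv x y alb (sv aDL (FdS K) x y) := by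
  rw [cvs_lb]
  exact (cvs_l0 (y := 0) h hx hx1 le_rfl (by norm_num)).2.1
private theorem cvs_S_lc (h : SqHyp K b) (hx : 0 ≤ x) (hx1 : x ≤ 1) (hy : 0 ≤ y) (hc : (2 + x ^ 2) * y ^ 2 ≤ 3) :
    0 ≤ lv x y alc (sv aDL (FdS K) x y) := by
  rw [cvs_lc]
  exact (cvs_l0 h hx hx1 hy hc).2.2.1
private theorem cvs_S_ld (h : SqHyp K b) (hx : 0 ≤ x) (hx1 : x ≤ 1) (hy : 0 ≤ y) (hc : (2 + x ^ 2) * y ^ 2 ≤ 3) :
    0 ≤ lv x y ald (sv aDL (FdS K) x y) := by
  rw [cvs_ld]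
  exact (cvs_l0 h hx hx1 hy hc).2.2.2
private theorem cvs_S_Ua (hl : LdQ K q) (hx : 0 ≤ x) (hx1 : x ≤ 1) (hy : 1 ≤ y) (hc : (2 + x ^ 2) * y ^ 2 ≤ 3) :
    0 ≤ lv x y (cfU 4 sUE q.a) (sv aDL (FdS K) x y) := by
  rw [cvs_fU]
  exact sub_nonneg.2 (cvs_Ua hl hx hx1 (by linarith) (sUE_ok x y hx hx1 hy hc))
private theorem cvs_S_Ub (hl : LdQ K q) (hx : 0 ≤ x) (hx1 : x ≤ 1) (hy : 1 ≤ y) (hc : (2 + x ^ 2) * y ^ 2 ≤ 3) :
    0 ≤ lv x y (cfU 5 sUE q.b) (sv aDL (FdS K) x y) := by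
  rw [cvs_fU]
  exact sub_nonneg.2 (cvs_Ub hl hx hx1 (by linarith) (sUE_ok x y hx hx1 hy hc))
private theorem cvs_S_Uc (hl : LdQ K q) (hx : 0 ≤ x) (hx1 : x ≤ 1) (hy : 1 ≤ y) (hc : (2 + x ^ 2) * y ^ 2 ≤ 3) :
    0 ≤ lv x y (cfU 6 sUZ q.c) (sv aDL (FdS K) x y) := by
  rw [cvs_fU]
  exact sub_nonneg.2 (cvs_Uc hl hx (by linarith) hc (sUZ_ok x y hx hx1 hy hc))
private theorem cvs_S_Ud (hl : LdQ K q) (hx : 0 ≤ x) (hx1 : x ≤ 1) (hy : 1 ≤ y) (hc : (2 + x ^ 2) * y ^ 2 ≤ 3) :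
    0 ≤ lv x y (cfU 7 sUZ q.d) (sv aDL (FdS K) x y) := by
  rw [cvs_fU]
  exact sub_nonneg.2 (cvs_Ud hl hx (by linarith) hc (sUZ_ok x y hx hx1 hy hc))

/-! ### edges -/

private theorem cvs_w1 : wf 1 = √3 * cc := by
  have h0 : 0 ≤ √3 * cc := mul_nonneg cvs_30.le cvs_c0.le
  unfold wf mf
  rw [show (1 : ℝ) + 1 ^ 2 / 2 = (√3 * cc) ^ 2 by rw [mul_pow, cvs_32, cvs_c2]; norm_num]
  exact Real.sqrt_sq h0

private theorem cvs_lcc (s : ℝ) (hs : s ^ 2 = 1 / 2) (t : ℝ) (ht : t ^ 2 = 1 / 2) : lf (s, t) = 2 * cc := by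
  unfold lf
  rw [show (1 : ℝ) + (s, t).1 ^ 2 + (s, t).2 ^ 2 = (2 * cc) ^ 2 by
    simp only
    rw [hs, ht, mul_pow, cvs_c2]
    norm_num]
  exact Real.sqrt_sq (by have := cvs_c0; positivity)

private theorem cvs_X (h : SqHyp K b) (y : ℝ) : (AC K 1 y).u - (FdC K).c 1 y = 0 ∧ (FdC K).a 1 = 0 ∧ (FdC K).b 1 = 0 := by
  have h3 := cvs_30
  have h4 := cvs_32
  have hc0 := cvs_c0
  have hc2 := cvs_c2
  have e1 : |cc| = cc := abs_of_pos cvs_c0
  have e2 : |-cc| = cc := by rw [abs_neg, e1]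
  refine ⟨?_, ?_, ?_⟩
  · simp only [AC, starC, St.sub, ch, FdC, zep, mul_one, cvs_w1, s3]
    field_simp
    nlinarith
  · simp only [FdC, etp, mul_one]
    rw [cvs_lcc cc hc2 cc hc2, h.cor cc cc e1 e1]
    rw [show cc - (2 * cc - cc) = 0 by ring, zero_div]
  · simp only [FdC, etm, mul_one]
    rw [cvs_lcc cc hc2 (-cc) (by rw [neg_sq, hc2]), h.cor cc (-cc) e1 e2]
    rw [show cc - (2 * cc - cc) = 0 by ring, zero_div]

private theorem cvs_yt (x : ℝ) : wf x * yt x / √3 = cc := by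
  have hw := cvs_w0 x
  have h3 := cvs_30
  have hy : 0 ≤ yt x := Real.sqrt_nonneg _
  have hy2 : yt x ^ 2 = 3 / (2 + x ^ 2) := by
    unfold yt
    exact Real.sq_sqrt (by positivity)
  have h0 : 0 ≤ wf x * yt x / √3 := by positivity
  rw [← pow_left_inj₀ h0 cvs_c0.le two_ne_zero, div_pow, mul_pow, cvs_w2, hy2, cvs_32, cvs_c2]
  have : (2 : ℝ) + x ^ 2 ≠ 0 := by positivity
  field_simp

private theorem cvs_yt1 (hx : 0 ≤ x) (hx1 : x ≤ 1) : 1 ≤ yt x ∧ (2 + x ^ 2) * yt x ^ 2 = 3 := by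
  have h2 : (0 : ℝ) < 2 + x ^ 2 := by positivity
  constructor
  · unfold yt
    rw [Real.one_le_sqrt, le_div_iff₀ h2]
    nlinarith
  · unfold yt
    rw [Real.sq_sqrt (by positivity)]
    field_simp

private theorem cvs_Y (h : SqHyp K b) (x : ℝ) : (AS K x (yt x)).u + (FdS K).a x = 0 ∧ (FdS K).c x (yt x) = 0 ∧
    (FdS K).d x (yt x) = 0 := by
  have e1 : |cc| = cc := abs_of_pos cvs_c0
  have e2 : |-cc| = cc := by rw [abs_neg, e1]
  have hw := cvs_w0 x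
  have hw2 := cvs_w2 x
  have h3 := cvs_30
  have h32 := cvs_32
  have hyt := cvs_yt x
  have hc2 := cvs_c2
  refine ⟨?_, ?_, ?_⟩
  · have hN := cvs_N0 (yt x)
    have hN2 := cvs_N2 (yt x)
    have hl : lf (cc * x, cc) = wf x * Nf (yt x) := by
      have h0 : 0 ≤ wf x * Nf (yt x) := by positivity
      unfold lf
      rw [show (1 : ℝ) + (cc * x, cc).1 ^ 2 + (cc * x, cc).2 ^ 2 = (wf x * Nf (yt x)) ^ 2 by
        have h5 : (wf x * Nf (yt x)) ^ 2 = wf x ^ 2 + (wf x * yt x / √3) ^ 2 := by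
          rw [mul_pow, hN2, div_pow, mul_pow, h32]
          ring
        rw [h5, hyt, hw2]
        simp only
        rw [mul_pow, hc2]
        ring]
      exact Real.sqrt_sq h0
    have h6 : yt x / (2 * √3) = cc / (2 * wf x) := by
      rw [← hyt]
      field_simp
    simp only [AS, starS, St.sub, ch, FdS, etp, hyt, h6, hl]
    field_simp
    ring
  · simp only [FdS, zep, hyt]
    rw [h.cor cc cc e1 e1, sub_self, zero_div]
  · simp only [FdS, zem, hyt]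
    rw [h.cor (-cc) cc e2 e1, sub_self, zero_div]

private theorem cvs_cur (hx : 0 ≤ x) (hx1 : x ≤ 1) : ev x (yt x) curP = 0 := by
  have h2 := (cvs_yt1 hx hx1).2
  simp [curP, ev, evL]
  linarith
private theorem cvs_curP (x y : ℝ) : ev x y curP = 3 - (2 + x ^ 2) * y ^ 2 := by
  simp [curP, ev, evL]
  ring

private theorem cvs_evx1 (x y : ℝ) (p : P) : ev x y (atx1 p) = ev 1 y p := by
  simp only [atx1, ev, mul_zero, add_zero]
  induction p with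
  | nil => simp [ev, evL]
  | cons r l ih => simp only [List.foldr_cons, evL_addV, ih, ev, one_mul]
private theorem cvs_atx1 (y : ℝ) (l : LF) (s : List ℝ) : lv 1 y (l.map atx1) s = lv 1 y l s := by
  have h : evE 1 y (l.map atx1) = evE 1 y l := by
    unfold evE
    rw [List.map_map]
    apply List.map_congr_left
    intro p _
    exact cvs_evx1 1 y p
  unfold lv
  rw [h]

/-! ### elimination of states -/

private theorem cvs_set (x y : ℝ) (p : P) : ∀ (l : LF) (s : List ℝ) (k : Nat), k < l.length →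
    lv x y (l.set k p) s = lv x y l s + (ev x y p - ev x y (l.getD k [])) * s.getD k 0 := by
  intro l
  induction l with
  | nil => intro s k hk; exact absurd hk (Nat.not_lt_zero _)
  | cons a l ih =>
    intro s k hk
    cases s with
    | nil =>
      cases k <;> simp [lv, evE, dotL]
    | cons t s =>
      cases k with
      | zero => simp [lv, evE, dotL]; ring
      | succ k =>
        have := ih s k (by simpa using hk)
        simp only [lv, evE] at this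
        simp only [lv, evE, List.set_cons_succ, List.map_cons, dotL, this, List.getD_cons_succ]
        ring

private theorem cvs_rdZ (x y : ℝ) (k : Nat) (l : LF) (s : List ℝ) (hk : k < l.length) (h : s.getD k 0 = 0) :
    lv x y (rdZ k l) s = lv x y l s := by
  unfold rdZ
  rw [cvs_set x y [] l s k hk, h, mul_zero, add_zero]

private theorem cvs_rdE (x y : ℝ) (k j : Nat) (c : Int) (l : LF) (s : List ℝ) (hk : k < l.length) (hj : j < l.length)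
    (hne : j ≠ k) (h : s.getD k 0 = c * s.getD j 0) : lv x y (rdE k j c l) s = lv x y l s := by
  unfold rdE
  rw [cvs_set x y [] _ s k (by rw [List.length_set]; exact hk), cvs_set x y _ l s j hj, ev_pAdd, ev_pSm, ev_nil]
  have e : (l.set j (pAdd (l.getD j []) (pSm c (l.getD k [])))).getD k [] = l.getD k [] := by
    simp only [List.getD_eq_getElem?_getD, List.getElem?_set_ne hne]
  rw [e, h]
  ring

private theorem cvs_lz (k : Nat) (l : LF) : (rdZ k l).length = l.length := List.length_set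

private theorem cvs_rdX (y : ℝ) (l : LF) (s : List ℝ) (hl : l.length = 11) (h4 : s.getD 4 0 = 0) (h5 : s.getD 5 0 = 0)
    (h6 : s.getD 6 0 = s.getD 1 0) : lv 1 y ((rdX l).map atx1) s = lv 1 y l s := by
  rw [cvs_atx1]
  unfold rdX
  rw [cvs_rdE 1 y 6 1 1 _ s (by rw [cvs_lz, cvs_lz, hl]; norm_num) (by rw [cvs_lz, cvs_lz, hl]; norm_num) (by norm_num)
      (by rw [h6]; norm_num), cvs_rdZ 1 y 5 _ s (by rw [cvs_lz, hl]; norm_num) h5, cvs_rdZ 1 y 4 _ s (by rw [hl]; norm_num) h4]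

private theorem cvs_rdY (x y : ℝ) (l : LF) (s : List ℝ) (hl : l.length = 11) (h6 : s.getD 6 0 = 0) (h7 : s.getD 7 0 = 0)
    (h1 : s.getD 1 0 = -s.getD 4 0) : lv x y (rdY l) s = lv x y l s := by
  unfold rdY
  rw [cvs_rdE x y 1 4 (-1) _ s (by rw [cvs_lz, cvs_lz, hl]; norm_num) (by rw [cvs_lz, cvs_lz, hl]; norm_num) (by norm_num)
      (by rw [h1]; push_cast; ring), cvs_rdZ x y 7 _ s (by rw [cvs_lz, hl]; norm_num) h7, cvs_rdZ x y 6 _ s (by rw [hl]; norm_num) h6]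

private theorem cvs_lU (k : Nat) (hk : k ≤ 10) (U : P) (n : Int) : (cfU k U n).length = 11 := by
  unfold cfU
  interval_cases k <;> rfl
private theorem cvs_lS (U : P) (n : Int) (z : Bool) : (cfS U n z).length = 11 := by
  cases z <;> rfl
private theorem cvs_lSl (U : P) (q : Cq) : ∀ l ∈ cfSl U q, l.length = 11 := by
  unfold cfSl
  by_cases hs : q.hs = true
  · rw [if_pos hs]
    exact List.forall_mem_cons.2 ⟨cvs_lS _ _ _, List.forall_mem_nil _⟩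
  · rw [if_neg hs]
    exact List.forall_mem_nil _

end

theorem cV_S (h : SqHyp K b) (hl : LdQ K q) (x y : ℝ) (hx : 0 ≤ x) (hx1 : x ≤ 1) (hy : 1 ≤ y)
    (hc : (2 + x ^ 2) * y ^ 2 ≤ 3) : ROK (crS q) x y (sv aDL (FdS K) x y) := by
  have hy0 : 0 ≤ y := by linarith
  refine ⟨?_, ?_, ?_, ?_, List.forall_mem_nil _, ?_⟩
  · refine List.forall_mem_append.2 ⟨?_, cvs_Sl h hl hx hx1 hy0 hc (sUZ_ok x y hx hx1 hy hc) (FdS K).S⟩
    exact List.forall_mem_cons.2 ⟨cvs_S_1 h hx hx1 hy hc, List.forall_mem_cons.2 ⟨cvs_S_nq h x y,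
      List.forall_mem_cons.2 ⟨cvs_S_20 h hx hx1 hy hc, List.forall_mem_cons.2 ⟨cvs_S_B3 h hx hx1 hy hc,
      List.forall_mem_cons.2 ⟨cvs_S_B4 h hx hx1 hy hc, List.forall_mem_cons.2 ⟨cvs_S_B5 h hx hx1 hy hc,
      List.forall_mem_cons.2 ⟨cvs_S_B21 h hx hx1 hy hc, List.forall_mem_cons.2 ⟨cvs_S_B31 h hx hx1 hy hc,
      List.forall_mem_cons.2 ⟨cvs_S_la h hx hx1 y, List.forall_mem_cons.2 ⟨cvs_S_lb h hx hx1 y,
      List.forall_mem_cons.2 ⟨cvs_S_lc h hx hx1 hy0 hc, List.forall_mem_cons.2 ⟨cvs_S_ld h hx hx1 hy0 hc,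
      List.forall_mem_cons.2 ⟨cvs_S_Ua hl hx hx1 hy hc, List.forall_mem_cons.2 ⟨cvs_S_Ub hl hx hx1 hy hc,
      List.forall_mem_cons.2 ⟨cvs_S_Uc hl hx hx1 hy hc, List.forall_mem_cons.2 ⟨cvs_S_Ud hl hx hx1 hy hc,
      List.forall_mem_nil _⟩⟩⟩⟩⟩⟩⟩⟩⟩⟩⟩⟩⟩⟩⟩⟩
  · refine List.forall_mem_cons.2 ⟨?_, List.forall_mem_cons.2 ⟨?_, List.forall_mem_nil _⟩⟩
    · rw [cvs_KA1]
      exact mul_nonneg (by norm_num) (V_KA h x y).1
    · rw [cvs_sMH1]
      exact (V_sMH h x y).1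
  · refine List.forall_mem_cons.2 ⟨?_, List.forall_mem_cons.2 ⟨?_, List.forall_mem_nil _⟩⟩
    · rw [cvs_KA3]
      exact (V_KA h x y).2.1
    · rw [cvs_sMH3]
      exact (V_sMH h x y).2.1
  · refine List.forall_mem_cons.2 ⟨?_, List.forall_mem_cons.2 ⟨?_, List.forall_mem_nil _⟩⟩
    · rw [cvs_KA1, cvs_KA2, cvs_KA3]
      exact (V_KA h x y).2.2
    · rw [cvs_sMH1, cvs_sMH2, cvs_sMH3]
      exact (V_sMH h x y).2.2
  · refine List.forall_mem_cons.2 ⟨?_, List.forall_mem_nil _⟩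
    rw [cvs_curP]
    linarith

theorem cV_X (h : SqHyp K b) (hl : LdQ K q) (y : ℝ) (hy : 0 ≤ y) (hy1 : y ≤ 1) :
    ROK (crX q) 1 y (sv aDL (FdC K) 1 y) := by
  have hc := cvs_hc zero_le_one (le_refl (1 : ℝ)) hy hy1
  obtain ⟨hu, ha, hb⟩ := cvs_X h y
  have hL := cvs_l0 h zero_le_one (le_refl (1 : ℝ)) hy hc
  have hZ := cUZ_ok 1 y zero_le_one le_rfl hy hy1
  have h4 : (FdC K).S 1 y = AC K 1 y := rfl
  refine ⟨?_, List.forall_mem_nil _, List.forall_mem_nil _, List.forall_mem_nil _, ?_, List.forall_mem_nil _⟩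
  · refine List.forall_mem_map.2 fun l hl1 => ?_
    have key : ∀ l ∈ ([afs0, alc, ald, cfDn, aap, aam, cfB4, cfU 6 cUZ q.c, cfU 7 cUZ q.d] ++ cfSl cUZ q),
        l.length = 11 ∧ 0 ≤ lv 1 y l (sv aDL (FdC K) 1 y) := by
      refine List.forall_mem_append.2 ⟨?_, fun l hl2 => ⟨cvs_lSl _ _ l hl2,
        cvs_Sl h hl zero_le_one le_rfl hy hc hZ (FdC K).S l hl2⟩⟩
      refine List.forall_mem_cons.2 ⟨⟨rfl, cvs_s 1 y _⟩, List.forall_mem_cons.2 ⟨⟨rfl, ?_⟩,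
        List.forall_mem_cons.2 ⟨⟨rfl, ?_⟩, List.forall_mem_cons.2 ⟨⟨rfl, ?_⟩, List.forall_mem_cons.2 ⟨⟨rfl, ?_⟩,
        List.forall_mem_cons.2 ⟨⟨rfl, ?_⟩, List.forall_mem_cons.2 ⟨⟨rfl, ?_⟩,
        List.forall_mem_cons.2 ⟨⟨cvs_lU 6 (by norm_num) _ _, ?_⟩, List.forall_mem_cons.2 ⟨⟨cvs_lU 7 (by norm_num) _ _, ?_⟩,
        List.forall_mem_nil _⟩⟩⟩⟩⟩⟩⟩⟩⟩
      · rw [cvs_lc]
        exact hL.2.2.1
      · rw [cvs_ld]
        exact hL.2.2.2
      · rw [cvs_fDn, h4]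
        have t := V_31p h 1 y
        have e : cc * wf 1 / 2 - s3 * 1 / 2 = 0 := by
          have e2 : cc * (√3 * cc) = √3 * cc ^ 2 := by ring
          rw [cvs_w1, e2, cvs_c2]
          unfold s3
          ring
        rw [e] at t
        linarith
      · rw [cvs_ap, h4]
        exact V_ap h 1 y zero_le_one le_rfl hy hy1
      · rw [cvs_am, h4]
        exact V_am h 1 y zero_le_one le_rfl hy hy1
      · rw [cvs_fB4, h4]
        have h1 := V_Bm h 1 y (9 / 10) zero_le_one le_rfl hy hy1 (by norm_num) (by norm_num)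
        have h2 := cvs_up (cvs_N0 y) (cC4_ok 1 y zero_le_one le_rfl hy hy1)
        have h3 : mf 1 = 1 + 1 ^ 2 / 2 := rfl
        rw [h3] at h1
        linarith
      · rw [cvs_fU]
        exact sub_nonneg.2 (cvs_Uc hl zero_le_one hy hc hZ)
      · rw [cvs_fU]
        exact sub_nonneg.2 (cvs_Ud hl zero_le_one hy hc hZ)
    obtain ⟨k1, k2⟩ := key l hl1
    rw [cvs_rdX y l (sv aDL (FdC K) 1 y) k1 (show (FdC K).a 1 = 0 from ha) (show (FdC K).b 1 = 0 from hb)]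
    · exact k2
    · show (FdC K).c 1 y = (AC K 1 y).u
      linarith
  · refine List.forall_mem_cons.2 ⟨?_, List.forall_mem_cons.2 ⟨?_, List.forall_mem_cons.2 ⟨?_, List.forall_mem_nil _⟩⟩⟩
    · rw [cvs_lF, h4]
      simp [ev, evL]
      linarith
    · rw [cvs_la]
      exact ha
    · rw [cvs_lb]
      exact hb

theorem cV_Y (h : SqHyp K b) (hl : LdQ K q) (x : ℝ) (hx : 0 ≤ x) (hx1 : x ≤ 1) :
    ROK (crY q) x (yt x) (sv aDL (FdS K) x (yt x)) := by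
  obtain ⟨hy1, hc1⟩ := cvs_yt1 hx hx1
  obtain ⟨hu, hcz, hdz⟩ := cvs_Y h x
  have hy0 : 0 ≤ yt x := by linarith
  have hc := hc1.le
  have h4 : (FdS K).S x (yt x) = AS K x (yt x) := rfl
  refine ⟨?_, List.forall_mem_nil _, List.forall_mem_nil _, List.forall_mem_nil _, ?_, ?_⟩
  · refine List.forall_mem_map.2 fun l hl1 => ?_
    have key : ∀ l ∈ ([afs0, ala, alb, asnq, aTp, aTm, cfU 4 sUE q.a, cfU 5 sUE q.b, csB31, csB21] ++ cfSl sUZ q),
        l.length = 11 ∧ 0 ≤ lv x (yt x) l (sv aDL (FdS K) x (yt x)) := by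
      refine List.forall_mem_append.2 ⟨?_, fun l hl2 => ⟨cvs_lSl _ _ l hl2,
        cvs_Sl h hl hx hx1 hy0 hc (sUZ_ok x (yt x) hx hx1 hy1 hc) (FdS K).S l hl2⟩⟩
      refine List.forall_mem_cons.2 ⟨⟨rfl, cvs_s x (yt x) _⟩, List.forall_mem_cons.2 ⟨⟨rfl, cvs_S_la h hx hx1 _⟩,
        List.forall_mem_cons.2 ⟨⟨rfl, cvs_S_lb h hx hx1 _⟩, List.forall_mem_cons.2 ⟨⟨rfl, cvs_S_nq h x _⟩,
        List.forall_mem_cons.2 ⟨⟨rfl, ?_⟩, List.forall_mem_cons.2 ⟨⟨rfl, ?_⟩,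
        List.forall_mem_cons.2 ⟨⟨cvs_lU 4 (by norm_num) _ _, cvs_S_Ua hl hx hx1 hy1 hc⟩,
        List.forall_mem_cons.2 ⟨⟨cvs_lU 5 (by norm_num) _ _, cvs_S_Ub hl hx hx1 hy1 hc⟩,
        List.forall_mem_cons.2 ⟨⟨rfl, cvs_S_B31 h hx hx1 hy1 hc⟩, List.forall_mem_cons.2 ⟨⟨rfl, cvs_S_B21 h hx hx1 hy1 hc⟩,
        List.forall_mem_nil _⟩⟩⟩⟩⟩⟩⟩⟩⟩⟩
      · rw [cvs_Tp]
        exact mul_nonneg (by norm_num) (V_Tp h x hx hx1)
      · rw [cvs_Tm]
        exact mul_nonneg (by norm_num) (V_Tm h x hx hx1)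
    obtain ⟨k1, k2⟩ := key l hl1
    rw [cvs_rdY x (yt x) l (sv aDL (FdS K) x (yt x)) k1 (show (FdS K).c x (yt x) = 0 from hcz)
      (show (FdS K).d x (yt x) = 0 from hdz)]
    · exact k2
    · show (AS K x (yt x)).u = -(FdS K).a x
      linarith
  · refine List.forall_mem_cons.2 ⟨?_, List.forall_mem_cons.2 ⟨?_, List.forall_mem_cons.2 ⟨?_, List.forall_mem_nil _⟩⟩⟩
    · rw [cvs_lF, h4]
      simp [ev, evL]
      linarith
    · rw [cvs_lc]
      exact hcz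
    · rw [cvs_ld]
      exact hdz
  · refine List.forall_mem_cons.2 ⟨?_, List.forall_mem_cons.2 ⟨?_, List.forall_mem_nil _⟩⟩
    · rw [cvs_cur hx hx1]
    · rw [ev_pSm, cvs_cur hx hx1, mul_zero]

theorem cV_lS (D k : Int) (hD : 0 ≤ D) (hk : 0 ≤ k) (x y : ℝ) (hx : 0 ≤ x) (hx1 : x ≤ 1) (hy : 1 ≤ y)
    (hc : (2 + x ^ 2) * y ^ 2 ≤ 3) : 1 / (aDL * Nf y ^ 3) * lv x y (clS D k) (sv aDL (FdS K) x y) ≤
      108 * D * (-2 * (AS K x y).u / Nf y) + k * Nf y ^ 3 * mf x := by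
  have hN := cvs_N0 y
  have hy5 : y ≤ 5 / 4 := by nlinarith [sq_nonneg x, mul_nonneg (sq_nonneg x) (sq_nonneg y)]
  have hW := cWb_ok x y hx hx1 (by linarith) hy5
  have e : lv x y (clS D k) (sv aDL (FdS K) x y) =
      k * ev x y cWb * (1 / (4782969 * Nf y ^ 3)) - 216 * D * (4782969 * Nf y ^ 2) * (AS K x y).u := by
    unfold clS
    rw [cvs_lF, ev_pSm, ev_pSm, cvs_eN]
    have h4 : (FdS K).S x y = AS K x y := rfl
    rw [h4]
    simp only [ev_nil]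
    push_cast
    ring
  rw [e, cvs_DL]
  have hk' : (0 : ℝ) ≤ k := by exact_mod_cast hk
  have e2 : 108 * (D : ℝ) * (-2 * (AS K x y).u / Nf y) + k * Nf y ^ 3 * mf x -
      1 / (4782969 * Nf y ^ 3) * (k * ev x y cWb * (1 / (4782969 * Nf y ^ 3)) -
        216 * D * (4782969 * Nf y ^ 2) * (AS K x y).u) =
      k / (4782969 ^ 2 * Nf y ^ 6) * (4782969 ^ 2 * Nf y ^ 9 * mf x - ev x y cWb) := by
    field_simp
    ring
  have h5 : 0 ≤ k / (4782969 ^ 2 * Nf y ^ 6) * (4782969 ^ 2 * Nf y ^ 9 * mf x - ev x y cWb) :=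
    mul_nonneg (by positivity) (by linarith)
  rw [← e2] at h5
  linarith

end Pool.Agent.MCA
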