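import Pool.Agent.MCA.GRC
import Pool.Agent.MSQ.JAll
/-!
JMQ (250 lines). `JM` as a sum of chart integrals over the four quadrants.

PROOF. Split the square into quadrants (interval integrals; `jm J` is continuous on the closed quadrant pieces: in a
quadrant, `Hs, HsXX, ..` are given by one formula below and one above the curve `3 Y² = 1 + X²`; both formulas are
continuous, and the function `Y ↦ jm J (X, Y)` is piecewise continuous with a jump at the curve, so interval
integrable) and reflect: `jm J.rx (X, Y) = jm J (-X, Y)` (`HsXX` even, `HsXY` odd, `lJ.fXY` odd), the same for `ry`.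
Quadrant `0 ≤ X ≤ c, 0 ≤ Y ≤ c`: substitute `X = cc x`, `Y = wf x y/√3` (`integral_comp_mul_left` in both variables);
`Y = cc` is `y = yt x`, the curve is `y = 1`. Pointwise:
`wf x · cc/√3 · jm J (cc x, wf x y/√3) = (cc/√3) · cc/... `: by the definition of `ch` (MSQ.Defs) the mixed discriminant
`f_XX g_YY + f_YY g_XX - 2 f_XY g_XY` is `(3/w⁴)(κ_f μ_g + μ_f κ_g - 4 ν_f ν_g)` for states `(u,..)` of two jets (compare
`EI` and the proof in MSQ that `EE` is the integral of `EI`), `l`: `μ = 1/(3N³)`, `ν = 0`, `κ = 1/N`, and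
`A = w u`. Result: `JM = (cc/√3) Σ ∫∫ u (κ_f + 3 N² μ_f)/N³ /m` with `f = l - H* - H`, states
`f = l - 2 H* + A`; core: `κ_f + 3N² μ_f = κ_A + 3N² μ_A + 2/N - √3`, sliver: `κ_A + 3 N² μ_A - 2/N`, i.e. `bC`, `bS`.
See MSQ/CvXY.lean, MSQ/IReg.lean, MSQ/JAll.lean for similar computations.
-/
set_option autoImplicit false

open MeasureTheory Set Pool.Agent.MSQ Pool.Agent.MTR Pool.Agent.MGF

namespace Pool.Agent.MCA

private theorem jmq_cc2 : cc ^ 2 = 1 / 2 := by
  unfold cc
  rw [div_pow, Real.sq_sqrt (by norm_num), one_pow]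

private theorem jmq_cc0 : 0 < cc := by
  unfold cc
  positivity

private theorem jmq_s2 : (√3 : ℝ) ^ 2 = 3 := Real.sq_sqrt (by norm_num)

private theorem jmq_s0 : (0 : ℝ) < √3 := Real.sqrt_pos.mpr (by norm_num)

private theorem jmq_m0 (x : ℝ) : 0 < mf x := by unfold mf; positivity

private theorem jmq_w0 (x : ℝ) : 0 < wf x := Real.sqrt_pos.mpr (jmq_m0 x)

private theorem jmq_wm (x : ℝ) : wf x ^ 2 = mf x := by
  unfold wf
  rw [Real.sq_sqrt (jmq_m0 x).le]

private theorem jmq_w2 (x : ℝ) : wf x ^ 2 = 1 + x ^ 2 / 2 := by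
  rw [jmq_wm, mf]

private theorem jmq_N0 (y : ℝ) : 0 < Nf y := Real.sqrt_pos.mpr (by positivity)

private theorem jmq_N2 (y : ℝ) : Nf y ^ 2 = 1 + y ^ 2 / 3 := by
  unfold Nf
  rw [Real.sq_sqrt (by positivity)]

private theorem jmq_cx (x : ℝ) : 1 + (cc * x) ^ 2 = wf x ^ 2 := by
  rw [mul_pow, jmq_cc2, jmq_w2]
  ring

private theorem jmq_sqx (x : ℝ) : √(1 + (cc * x) ^ 2) = wf x := by
  rw [jmq_cx, Real.sqrt_sq (jmq_w0 x).le]

private theorem jmq_Y2 (x y : ℝ) : (wf x * y / √3) ^ 2 = wf x ^ 2 * y ^ 2 / 3 := by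
  rw [div_pow, mul_pow, jmq_s2]

private theorem jmq_cy (x y : ℝ) : 1 + (wf x * y / √3) ^ 2 = Nf y ^ 2 + (cc * x * y) ^ 2 / 3 := by
  rw [jmq_Y2, jmq_w2, jmq_N2, mul_pow, mul_pow, jmq_cc2]
  ring

private theorem jmq_lf (x y : ℝ) : lf (cc * x, wf x * y / √3) = wf x * Nf y := by
  unfold lf
  have h : 1 + (cc * x) ^ 2 + (wf x * y / √3) ^ 2 = (wf x * Nf y) ^ 2 := by
    rw [jmq_cx, jmq_Y2, mul_pow, jmq_N2]
    ring
  simp only
  rw [h, Real.sqrt_sq (mul_pos (jmq_w0 x) (jmq_N0 y)).le]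

/-- mixed discriminant with `l` in the chart -/
private theorem jmq_mix (x y a d b : ℝ) :
    lJ.fXX (cc * x, wf x * y / √3) * b + lJ.fYY (cc * x, wf x * y / √3) * a -
      2 * lJ.fXY (cc * x, wf x * y / √3) * d =
    1 / (wf x ^ 4 * Nf y ^ 3) * (3 * Nf y ^ 2 * (wf x * b / 3) + (wf x ^ 3 * a +
      2 * wf x ^ 2 * (cc * x * y / √3) * d + wf x / 3 * (cc * x * y) ^ 2 * b)) := by
  have hw := (jmq_w0 x).ne'
  have hN := (jmq_N0 y).ne'
  have hs := jmq_s0.ne'
  simp only [lJ, jmq_lf]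
  rw [jmq_cx, jmq_cy]
  field_simp
  ring

/-- twice the discriminant of `l` -/
private theorem jmq_det (x y : ℝ) :
    lJ.fXX (cc * x, wf x * y / √3) * lJ.fYY (cc * x, wf x * y / √3) +
      lJ.fYY (cc * x, wf x * y / √3) * lJ.fXX (cc * x, wf x * y / √3) -
      2 * lJ.fXY (cc * x, wf x * y / √3) * lJ.fXY (cc * x, wf x * y / √3) =
    2 / (wf x ^ 4 * Nf y ^ 4) := by
  have hw := (jmq_w0 x).ne'
  have hN := (jmq_N0 y).ne'
  have hs := jmq_s0.ne'
  simp only [lJ, jmq_lf]
  rw [jmq_cx, jmq_cy]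
  have hs2 := jmq_s2
  field_simp
  rw [hs2]
  ring

/-- pointwise: density in the core -/
theorem jm_core (J : Jet) (x y : ℝ) (h : |y| ≤ 1) :
    jm J (cc * x, wf x * y / √3) * (wf x / √3) = 1 / √3 * (bC y (AC J x y) / mf x) := by
  have hw := jmq_w0 x
  have hN := jmq_N0 y
  have hs := jmq_s0
  have hcond : 3 * (wf x * y / √3) ^ 2 ≤ 1 + (cc * x) ^ 2 := by
    rw [jmq_Y2, jmq_cx]
    have h2 : y ^ 2 ≤ 1 := by
      rw [← sq_abs]
      nlinarith [abs_nonneg y]
    nlinarith [sq_nonneg (wf x)]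
  have c1 : (ch J x y).mu = wf x * J.fYY (cc * x, wf x * y / √3) / 3 := rfl
  have c3 : (ch J x y).ka = wf x ^ 3 * J.fXX (cc * x, wf x * y / √3) +
      2 * wf x ^ 2 * (cc * x * y / √3) * J.fXY (cc * x, wf x * y / √3) +
      wf x / 3 * (cc * x * y) ^ 2 * J.fYY (cc * x, wf x * y / √3) := rfl
  have cu : (AC J x y).u = s3 - cc / (2 * wf x) - J.f (cc * x, wf x * y / √3) / wf x := rfl
  have cm : (AC J x y).mu = 0 - (ch J x y).mu := rfl
  have ck : (AC J x y).ka = s3 - (ch J x y).ka := rfl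
  have key : lJ.fXX (cc * x, wf x * y / √3) * (lJ.fYY (cc * x, wf x * y / √3) -
      0 - J.fYY (cc * x, wf x * y / √3)) + lJ.fYY (cc * x, wf x * y / √3) *
      (lJ.fXX (cc * x, wf x * y / √3) - √3 / 2 / wf x ^ 3 - J.fXX (cc * x, wf x * y / √3)) -
      2 * lJ.fXY (cc * x, wf x * y / √3) * (lJ.fXY (cc * x, wf x * y / √3) - 0 -
        J.fXY (cc * x, wf x * y / √3)) =
      1 / (wf x ^ 4 * Nf y ^ 3) * (2 / Nf y - √3 / 2 - 3 * Nf y ^ 2 * (ch J x y).mu - (ch J x y).ka) := by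
    have e1 := jmq_mix x y (√3 / 2 / wf x ^ 3 + J.fXX (cc * x, wf x * y / √3))
      (J.fXY (cc * x, wf x * y / √3)) (J.fYY (cc * x, wf x * y / √3))
    have e2 := jmq_det x y
    have e3 : ∀ A B C a b d : ℝ, A * (B - 0 - b) + B * (A - √3 / 2 / wf x ^ 3 - a) - 2 * C * (C - 0 - d) =
        (A * B + B * A - 2 * C * C) - (A * b + B * (√3 / 2 / wf x ^ 3 + a) - 2 * C * d) := by
      intros
      ring
    rw [e3, e1, e2, c1, c3]
    field_simp
    ring
  unfold jm Hs HsXX HsXY HsYY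
  simp only [if_pos hcond, jmq_sqx]
  rw [key]
  unfold bC
  rw [cu, cm, ck, ← jmq_wm, s3]
  generalize (ch J x y).mu = mu
  generalize (ch J x y).ka = ka
  generalize J.f (cc * x, wf x * y / √3) = f
  have hw0 := hw.ne'
  have hN0 := hN.ne'
  have hs0 := hs.ne'
  field_simp
  ring

/-- pointwise: density in the sliver -/
theorem jm_sl (J : Jet) (x y : ℝ) (h : 1 < y) :
    jm J (cc * x, wf x * y / √3) * (wf x / √3) = 1 / √3 * (bS y (AS J x y) / mf x) := by
  have hw := jmq_w0 x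
  have hN := jmq_N0 y
  have hs := jmq_s0
  have hcond : ¬ (3 * (wf x * y / √3) ^ 2 ≤ 1 + (cc * x) ^ 2) := by
    rw [jmq_Y2, jmq_cx, not_le]
    have h2 : 1 < y ^ 2 := by nlinarith
    have h3 : 0 < wf x ^ 2 := by positivity
    nlinarith
  have habs : |wf x * y / √3| = wf x * y / √3 := abs_of_pos (by positivity)
  have c1 : (ch J x y).mu = wf x * J.fYY (cc * x, wf x * y / √3) / 3 := rfl
  have c3 : (ch J x y).ka = wf x ^ 3 * J.fXX (cc * x, wf x * y / √3) +
      2 * wf x ^ 2 * (cc * x * y / √3) * J.fXY (cc * x, wf x * y / √3) +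
      wf x / 3 * (cc * x * y) ^ 2 * J.fYY (cc * x, wf x * y / √3) := rfl
  have cu : (AS J x y).u = Nf y - y / (2 * √3) - cc / (2 * wf x) - J.f (cc * x, wf x * y / √3) / wf x := rfl
  have cm : (AS J x y).mu = 1 / (3 * Nf y ^ 3) - (ch J x y).mu := rfl
  have ck : (AS J x y).ka = 1 / Nf y - (ch J x y).ka := rfl
  have key : lJ.fXX (cc * x, wf x * y / √3) * (lJ.fYY (cc * x, wf x * y / √3) -
      lJ.fYY (cc * x, wf x * y / √3) - J.fYY (cc * x, wf x * y / √3)) + lJ.fYY (cc * x, wf x * y / √3) *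
      (lJ.fXX (cc * x, wf x * y / √3) - lJ.fXX (cc * x, wf x * y / √3) - J.fXX (cc * x, wf x * y / √3)) -
      2 * lJ.fXY (cc * x, wf x * y / √3) * (lJ.fXY (cc * x, wf x * y / √3) -
        lJ.fXY (cc * x, wf x * y / √3) - J.fXY (cc * x, wf x * y / √3)) =
      1 / (wf x ^ 4 * Nf y ^ 3) * (- 3 * Nf y ^ 2 * (ch J x y).mu - (ch J x y).ka) := by
    have e1 := jmq_mix x y (J.fXX (cc * x, wf x * y / √3))
      (J.fXY (cc * x, wf x * y / √3)) (J.fYY (cc * x, wf x * y / √3))
    have e3 : ∀ A B C a b d : ℝ, A * (B - B - b) + B * (A - A - a) - 2 * C * (C - C - d) =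
        - (A * b + B * a - 2 * C * d) := by
      intros
      ring
    rw [e3, e1, c1, c3]
    ring
  unfold jm Hs HsXX HsXY HsYY
  simp only [if_neg hcond, habs, jmq_lf]
  rw [key]
  unfold bS
  rw [cu, cm, ck, ← jmq_wm]
  generalize (ch J x y).mu = mu
  generalize (ch J x y).ka = ka
  generalize J.f (cc * x, wf x * y / √3) = f
  have hw0 := hw.ne'
  have hN0 := hN.ne'
  have hs0 := hs.ne'
  field_simp
  ring


/-! ### integrals -/

private theorem jmq_wc : Continuous wf := by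
  unfold wf mf
  fun_prop

private theorem jmq_mc : Continuous mf := by
  unfold mf
  fun_prop

private theorem jmq_Nc : Continuous Nf := by
  unfold Nf
  fun_prop

private noncomputable def jmqC (J : Jet) (x y : ℝ) : ℝ := bC y (AC J x y) / mf x
private noncomputable def jmqS (J : Jet) (x y : ℝ) : ℝ := bS y (AS J x y) / mf x

private theorem jmqC_c {J : Jet} (h : J.Good) : Continuous fun z : ℝ × ℝ => jmqC J z.1 z.2 := by
  obtain ⟨Z, E, hj⟩ := js_AC J h
  have h1 := hj.cu
  have h2 := hj.cmu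
  have h3 := hj.cka
  have hN : Continuous fun z : ℝ × ℝ => Nf z.2 := jmq_Nc.comp continuous_snd
  have hm : Continuous fun z : ℝ × ℝ => mf z.1 := jmq_mc.comp continuous_fst
  unfold jmqC bC
  refine Continuous.div ?_ hm fun z => (jmq_m0 z.1).ne'
  refine Continuous.add ?_ ?_
  · exact Continuous.div (by fun_prop) (by fun_prop) fun z => (pow_pos (jmq_N0 z.2) 3).ne'
  · exact Continuous.div (by fun_prop) (by fun_prop) fun z => (pow_pos (jmq_N0 z.2) 4).ne'

private theorem jmqS_c {J : Jet} (h : J.Good) : Continuous fun z : ℝ × ℝ => jmqS J z.1 z.2 := by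
  obtain ⟨Z, E, hj⟩ := js_AS J h
  have h1 := hj.cu
  have h2 := hj.cmu
  have h3 := hj.cka
  have hN : Continuous fun z : ℝ × ℝ => Nf z.2 := jmq_Nc.comp continuous_snd
  have hm : Continuous fun z : ℝ × ℝ => mf z.1 := jmq_mc.comp continuous_fst
  unfold jmqS bS
  refine Continuous.div ?_ hm fun z => (jmq_m0 z.1).ne'
  refine Continuous.sub ?_ ?_
  · exact Continuous.div (by fun_prop) (by fun_prop) fun z => (pow_pos (jmq_N0 z.2) 3).ne'
  · exact Continuous.div (by fun_prop) (by fun_prop) fun z => (pow_pos (jmq_N0 z.2) 4).ne'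

private theorem jmq_yt_abs (x : ℝ) : yt |x| = yt x := by
  unfold yt
  rw [sq_abs]

private theorem jmq_yt1 {x : ℝ} (hx : |x| ≤ 1) : 1 ≤ yt x := by
  rw [← jmq_yt_abs]
  exact yt_ge |x| (abs_nonneg x) hx

private theorem jmq_ytc (x : ℝ) : wf x / √3 * yt x = cc := by
  have h1 := yt_sq x
  have h2 := jmq_w2 x
  have h3 := jmq_s2
  have hw := jmq_w0 x
  have hs := jmq_s0
  have hy : 0 ≤ yt x := Real.sqrt_nonneg _
  have hc := jmq_cc0
  have e : (wf x / √3 * yt x) ^ 2 = cc ^ 2 := by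
    rw [mul_pow, div_pow, h3, h2, jmq_cc2]
    linear_combination 1 / 6 * h1
  exact (pow_left_inj₀ (by positivity) hc.le two_ne_zero).1 e

/-- the inner integral in the chart -/
private noncomputable def jmqG (J : Jet) (x : ℝ) : ℝ :=
  1 / √3 * ((∫ y in (0 : ℝ)..1, jmqC J x y) + ∫ y in (1 : ℝ)..yt x, jmqS J x y)

private theorem jmqG_c {J : Jet} (h : J.Good) : Continuous (jmqG J) := by
  have h1 : Continuous fun x => ∫ y in (0 : ℝ)..1, jmqC J x y :=
    intervalIntegral.continuous_parametric_intervalIntegral_of_continuous' (jmqC_c h) 0 1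
  have h2 : Continuous fun x => ∫ y in (1 : ℝ)..yt x, jmqS J x y :=
    intervalIntegral.continuous_parametric_intervalIntegral_of_continuous (jmqS_c h) yt_cont
  unfold jmqG
  exact continuous_const.mul (h1.add h2)


/-- substitution with a piecewise continuous integrand -/
private theorem jmq_subst (F f g : ℝ → ℝ) (hf : Continuous f) (hg : Continuous g) {a b r c : ℝ} (ha : 0 < a)
    (hr : 1 ≤ r) (hrc : a * r = c) (e1 : ∀ y, |y| ≤ 1 → F (a * y) * a = b * f y)
    (e2 : ∀ y, 1 < y → F (a * y) * a = b * g y) :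
    IntervalIntegrable F volume 0 c ∧
      ∫ Y in (0 : ℝ)..c, F Y = b * ((∫ y in (0 : ℝ)..1, f y) + ∫ y in (1 : ℝ)..r, g y) := by
  have k1 : EqOn (fun y => b * f y * a⁻¹) (fun y => F (a * y)) (uIoc (0 : ℝ) 1) := by
    intro y hy
    rw [uIoc_of_le zero_le_one] at hy
    have := e1 y (by rw [abs_of_pos hy.1]; exact hy.2)
    change b * f y * a⁻¹ = F (a * y)
    rw [← this, mul_inv_cancel_right₀ ha.ne']
  have k2 : EqOn (fun y => b * g y * a⁻¹) (fun y => F (a * y)) (uIoc (1 : ℝ) r) := by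
    intro y hy
    rw [uIoc_of_le hr] at hy
    have := e2 y hy.1
    change b * g y * a⁻¹ = F (a * y)
    rw [← this, mul_inv_cancel_right₀ ha.ne']
  have c1 : Continuous fun y => b * f y * a⁻¹ := (continuous_const.mul hf).mul continuous_const
  have c2 : Continuous fun y => b * g y * a⁻¹ := (continuous_const.mul hg).mul continuous_const
  have i1 : IntervalIntegrable (fun y => F (a * y)) volume 0 1 := (c1.intervalIntegrable 0 1).congr k1
  have i2 : IntervalIntegrable (fun y => F (a * y)) volume 1 r := (c2.intervalIntegrable 1 r).congr k2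
  have i3 : IntervalIntegrable (fun y => F (a * y)) volume 0 r := i1.trans i2
  constructor
  · have h := (IntervalIntegrable.comp_mul_left_iff (f := F) (a := 0) (b := c) (c := a) ha.ne').1
    rw [zero_div, ← hrc, mul_div_cancel_left₀ r ha.ne'] at h
    rw [← hrc]
    exact h i3
  · have h1 := intervalIntegral.mul_integral_comp_mul_left (a := 0) (b := r) (f := F) a
    rw [mul_zero, hrc] at h1
    rw [← h1, ← intervalIntegral.integral_add_adjacent_intervals i1 i2]
    have h3 : ∫ y in (0 : ℝ)..1, F (a * y) = b * (∫ y in (0 : ℝ)..1, f y) * a⁻¹ := by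
      rw [← intervalIntegral.integral_const_mul, ← intervalIntegral.integral_mul_const]
      exact (intervalIntegral.integral_congr_uIoo fun y hy => k1 (Ioo_subset_Ioc_self hy)).symm
    have h4 : ∫ y in (1 : ℝ)..r, F (a * y) = b * (∫ y in (1 : ℝ)..r, g y) * a⁻¹ := by
      rw [← intervalIntegral.integral_const_mul, ← intervalIntegral.integral_mul_const]
      exact (intervalIntegral.integral_congr_uIoo fun y hy => k2 (Ioo_subset_Ioc_self hy)).symm
    rw [h3, h4]
    have := ha.ne'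
    field_simp

private theorem jmq_fib {f : ℝ → ℝ → ℝ} (hf : Continuous fun z : ℝ × ℝ => f z.1 z.2)
    (x : ℝ) : Continuous fun y => f x y :=
  hf.comp (Continuous.prodMk_right x)

private theorem jmq_p1 (J : Jet) (x y : ℝ) (hy : |y| ≤ 1) :
    jm J (cc * x, wf x / √3 * y) * (wf x / √3) = 1 / √3 * jmqC J x y := by
  have e0 : wf x / √3 * y = wf x * y / √3 := by ring
  rw [e0]
  exact jm_core J x y hy

private theorem jmq_p2 (J : Jet) (x y : ℝ) (hy : 1 < y) :
    jm J (cc * x, wf x / √3 * y) * (wf x / √3) = 1 / √3 * jmqS J x y := by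
  have e0 : wf x / √3 * y = wf x * y / √3 := by ring
  rw [e0]
  exact jm_sl J x y hy

private theorem jmq_inner {J : Jet} (h : J.Good) {x : ℝ} (hx : |x| ≤ 1) :
    IntervalIntegrable (fun Y => jm J (cc * x, Y)) volume 0 cc ∧
      ∫ Y in (0 : ℝ)..cc, jm J (cc * x, Y) = jmqG J x := by
  have h1 : Continuous fun y => jmqC J x y := jmq_fib (f := jmqC J) (jmqC_c h) x
  have h2 : Continuous fun y => jmqS J x y := jmq_fib (f := jmqS J) (jmqS_c h) x
  have := jmq_subst (fun Y => jm J (cc * x, Y)) (fun y => jmqC J x y) (fun y => jmqS J x y) h1 h2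
    (b := 1 / √3) (div_pos (jmq_w0 x) jmq_s0) (jmq_yt1 hx) (jmq_ytc x) (jmq_p1 J x) (jmq_p2 J x)
  unfold jmqG
  exact this

/-! ### reflections -/

private theorem jmq_lfx (a b : ℝ) : lf (-a, b) = lf (a, b) := by
  unfold lf
  simp
private theorem jmq_lfy (a b : ℝ) : lf (a, -b) = lf (a, b) := by
  unfold lf
  simp

private theorem jmq_rx (J : Jet) (X Y : ℝ) : jm J (-X, Y) = jm J.rx (X, Y) := by
  simp only [jm, Hs, HsXX, HsXY, HsYY, Jet.rx, lJ, jmq_lfx, neg_sq, abs_neg]
  by_cases hc : 3 * Y ^ 2 ≤ 1 + X ^ 2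
  · simp only [if_pos hc]
    ring
  · simp only [if_neg hc]
    ring

private theorem jmq_ry (J : Jet) (X Y : ℝ) : jm J (X, -Y) = jm J.ry (X, Y) := by
  simp only [jm, Hs, HsXX, HsXY, HsYY, Jet.ry, lJ, jmq_lfy, neg_sq, abs_neg]
  by_cases hc : 3 * Y ^ 2 ≤ 1 + X ^ 2
  · simp only [if_pos hc]
    ring
  · simp only [if_neg hc]
    ring

private theorem jmqG_rx {J : Jet} (h : J.Good) {x : ℝ} (hx : |x| ≤ 1) : jmqG J (-x) = jmqG J.rx x := by
  rw [← (jmq_inner h (x := -x) (by rw [abs_neg]; exact hx)).2, ← (jmq_inner (good_rx J h) hx).2]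
  refine intervalIntegral.integral_congr fun Y _ => ?_
  change jm J (cc * -x, Y) = jm J.rx (cc * x, Y)
  rw [mul_neg, jmq_rx]

private theorem jmq_row {J : Jet} (h : J.Good) {x : ℝ} (hx : |x| ≤ 1) :
    ∫ Y in (-cc)..cc, jm J (cc * x, Y) = jmqG J x + jmqG J.ry x := by
  obtain ⟨i1, j1⟩ := jmq_inner h hx
  obtain ⟨i2, j2⟩ := jmq_inner (good_ry J h) hx
  have e : ∀ Y, jm J.ry (cc * x, Y) = jm J (cc * x, -Y) := fun Y => (jmq_ry J (cc * x) Y).symm
  have i3 : IntervalIntegrable (fun Y => jm J (cc * x, Y)) volume (-cc) 0 := by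
    have h3 := (IntervalIntegrable.iff_comp_neg (f := fun Y => jm J.ry (cc * x, Y)) (a := 0) (b := cc)).1 i2
    rw [neg_zero] at h3
    refine (h3.congr fun Y _ => ?_).symm
    change jm J.ry (cc * x, -Y) = jm J (cc * x, Y)
    rw [e, neg_neg]
  have j3 : ∫ Y in (-cc)..0, jm J (cc * x, Y) = jmqG J.ry x := by
    rw [← j2]
    have h4 := intervalIntegral.integral_comp_neg (a := 0) (b := cc) (fun Y => jm J (cc * x, Y))
    rw [neg_zero] at h4
    rw [← h4]
    exact intervalIntegral.integral_congr fun Y _ => (e Y).symm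
  rw [← intervalIntegral.integral_add_adjacent_intervals i3 i1, j1, j3, add_comm]

private theorem jmq_IG {J : Jet} (h : J.Good) :
    ∫ x in (0 : ℝ)..1, jmqG J x = 1 / √3 * (IC J + ISl J) := by
  have h1 : Continuous fun x => ∫ y in (0 : ℝ)..1, jmqC J x y :=
    intervalIntegral.continuous_parametric_intervalIntegral_of_continuous' (jmqC_c h) 0 1
  have h2 : Continuous fun x => ∫ y in (1 : ℝ)..yt x, jmqS J x y :=
    intervalIntegral.continuous_parametric_intervalIntegral_of_continuous (jmqS_c h) yt_cont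
  have e : ∫ x in (0 : ℝ)..1, jmqG J x = 1 / √3 * ∫ x in (0 : ℝ)..1,
      ((∫ y in (0 : ℝ)..1, jmqC J x y) + ∫ y in (1 : ℝ)..yt x, jmqS J x y) := by
    rw [← intervalIntegral.integral_const_mul]
    rfl
  rw [e, intervalIntegral.integral_add (h1.intervalIntegrable _ _) (h2.intervalIntegrable _ _)]
  rfl

theorem JM_quad (J : Jet) (hJ : J.Good) :
    √3 / cc * JM J = (IC J + ISl J) + (IC J.rx + ISl J.rx) + (IC J.ry + ISl J.ry) +
      (IC J.rx.ry + ISl J.rx.ry) := by
  have hc := jmq_cc0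
  have hs := jmq_s0
  have g1 := hJ
  have g2 := good_rx J hJ
  have g3 := good_ry J hJ
  have g4 := good_ry J.rx g2
  have c1 := jmqG_c g1
  have c2 := jmqG_c g2
  have c3 := jmqG_c g3
  have c4 := jmqG_c g4
  have s1 : JM J = cc * ∫ x in (-1 : ℝ)..1, (jmqG J x + jmqG J.ry x) := by
    have h1 := intervalIntegral.mul_integral_comp_mul_left (a := -1) (b := 1)
      (f := fun X => ∫ Y in (-cc)..cc, jm J (X, Y)) cc
    rw [mul_one, mul_neg_one] at h1
    have h2 : JM J = ∫ X in (-cc)..cc, ∫ Y in (-cc)..cc, jm J (X, Y) := rfl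
    rw [h2, ← h1]
    congr 1
    refine intervalIntegral.integral_congr fun x hx => ?_
    rw [uIcc_of_le (by norm_num)] at hx
    exact jmq_row hJ (abs_le.2 ⟨hx.1, hx.2⟩)
  have s2 : ∫ x in (-1 : ℝ)..1, (jmqG J x + jmqG J.ry x) =
      (∫ x in (0 : ℝ)..1, (jmqG J x + jmqG J.ry x)) + ∫ x in (0 : ℝ)..1, (jmqG J.rx x + jmqG J.rx.ry x) := by
    have cs : Continuous fun x => jmqG J x + jmqG J.ry x := c1.add c3
    rw [← intervalIntegral.integral_add_adjacent_intervals (cs.intervalIntegrable (-1) 0)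
      (cs.intervalIntegrable 0 1), add_comm]
    congr 1
    have h4 := intervalIntegral.integral_comp_neg (a := 0) (b := 1) (fun x => jmqG J x + jmqG J.ry x)
    rw [neg_zero] at h4
    rw [← h4]
    refine intervalIntegral.integral_congr fun x hx => ?_
    rw [uIcc_of_le zero_le_one] at hx
    have hx1 : |x| ≤ 1 := by rw [abs_of_nonneg hx.1]; exact hx.2
    change jmqG J (-x) + jmqG J.ry (-x) = jmqG J.rx x + jmqG J.rx.ry x
    rw [jmqG_rx g1 hx1, jmqG_rx g3 hx1]
    rfl
  rw [s1, s2, intervalIntegral.integral_add (c1.intervalIntegrable _ _) (c3.intervalIntegrable _ _),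
    intervalIntegral.integral_add (c2.intervalIntegrable _ _) (c4.intervalIntegrable _ _),
    jmq_IG g1, jmq_IG g2, jmq_IG g3, jmq_IG g4]
  field_simp
  ring

end Pool.Agent.MCA
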