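import Pool.Agent.MCA.Sem
import Pool.Agent.MSQ.JAll
/-!
FLD (150 lines). The fields of a jet are regular; identities at the edges.

PROOF. `js_AC`, `js_AS` (MSQ.JAll). `c x y = ζ(w y/√3)/w` with `ζ(Y) = cc - J.f (cc, Y)`, `ζ'(Y) = -J.fY (cc, Y)`:
`cy = ζ'(w y/√3)/√3`, `c_x = ζ' · (w' y/√3)/w - ζ w'/w²`, `w' = x/(2 w)`, `m = w²`: `m c_x = (x y/2) cy - (x/2) c`.
`FdC_one`: `x = 1`: `w = √(3/2)`, `cc·1`, `starC 1 y = √3/2 - cc/(2 w)`, `w starC.u = cc`.
`FdS_curve`: `wf x * yt x / √3 = cc`, `w starS.u = lf - Y/2 - cc/2` with `Y = cc`.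
`FdC_G`: at `y = 1` the states `u, q, p, κ` of core and sliver agree (`Nf 1 = 2/√3`).
-/
set_option autoImplicit false

open MeasureTheory Set Pool.Agent.MSQ Pool.Agent.MTR Pool.Agent.MGF

namespace Pool.Agent.MCA

private theorem FLD_mpos (x : ℝ) : 0 < mf x := by unfold mf; positivity

private theorem FLD_wpos (x : ℝ) : 0 < wf x := Real.sqrt_pos.2 (FLD_mpos x)

private theorem FLD_w2 (x : ℝ) : wf x ^ 2 = mf x := Real.sq_sqrt (FLD_mpos x).le

private theorem FLD_Npos (y : ℝ) : 0 < Nf y := Real.sqrt_pos.2 (by positivity)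

private theorem FLD_N2 (y : ℝ) : Nf y ^ 2 = 1 + y ^ 2 / 3 := Real.sq_sqrt (by positivity)

private theorem FLD_cc : cc ^ 2 = 1 / 2 := by
  unfold cc
  rw [div_pow, one_pow, Real.sq_sqrt (by norm_num)]

private theorem FLD_ccpos : 0 < cc := by unfold cc; positivity

private theorem FLD_s3 : s3 ^ 2 = 3 / 4 := by
  unfold s3
  rw [div_pow, Real.sq_sqrt (by norm_num)]
  norm_num

private theorem FLD_r3 : (√3 : ℝ) ^ 2 = 3 := Real.sq_sqrt (by norm_num)

private theorem FLD_r3pos : (0 : ℝ) < √3 := by positivity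

private theorem FLD_dw (x : ℝ) : HasDerivAt wf (x / (2 * wf x)) x := by
  have h1 : HasDerivAt mf x x := by
    have h2 : HasDerivAt (fun y : ℝ => y ^ 2) (2 * x) x := by
      have := hasDerivAt_pow 2 x
      simpa using this
    have h3 := (h2.div_const 2).const_add 1
    refine h3.congr_deriv ?_
    ring
  exact h1.sqrt (FLD_mpos x).ne'

private theorem FLD_cw : Continuous wf := by
  unfold wf mf
  fun_prop

/-- positive numbers with equal squares are equal -/
private theorem FLD_sq {a b : ℝ} (ha : 0 ≤ a) (hb : 0 ≤ b) (h : a ^ 2 = b ^ 2) : a = b := by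
  have := abs_eq_abs.2 (sq_eq_sq_iff_eq_or_eq_neg.1 h)
  rwa [abs_of_nonneg ha, abs_of_nonneg hb] at this

private theorem FLD_dy {ζ ζ' : ℝ → ℝ} (h : ∀ Y, HasDerivAt ζ (ζ' Y) Y) (x y : ℝ) :
    HasDerivAt (fun t => ζ (wf x * t / √3) / wf x) (ζ' (wf x * y / √3) / √3) y := by
  have hw := FLD_wpos x
  have hr := FLD_r3pos
  have h1 : HasDerivAt (fun t : ℝ => wf x * t / √3) (wf x / √3) y := by
    have h := ((hasDerivAt_id y).const_mul (wf x)).div_const (√3)
    rw [mul_one] at h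
    exact h
  have h2 : HasDerivAt (fun t => ζ (wf x * t / √3)) (ζ' (wf x * y / √3) * (wf x / √3)) y :=
    (h (wf x * y / √3)).comp y h1
  refine (h2.div_const (wf x)).congr_deriv ?_
  field_simp

private theorem FLD_dx {ζ ζ' : ℝ → ℝ} (h : ∀ Y, HasDerivAt ζ (ζ' Y) Y) (x y : ℝ) :
    HasDerivAt (fun t => ζ (wf t * y / √3) / wf t)
      ((x * y / 2 * (ζ' (wf x * y / √3) / √3) - x / 2 * (ζ (wf x * y / √3) / wf x)) / mf x) x := by
  have hw := FLD_wpos x
  have hr := FLD_r3pos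
  have h1 : HasDerivAt (fun t : ℝ => wf t * y / √3) (x / (2 * wf x) * y / √3) x :=
    ((FLD_dw x).mul_const y).div_const (√3)
  have h2 : HasDerivAt (fun t => ζ (wf t * y / √3))
      (ζ' (wf x * y / √3) * (x / (2 * wf x) * y / √3)) x :=
    (h (wf x * y / √3)).comp x h1
  refine (h2.fun_div (FLD_dw x) hw.ne').congr_deriv ?_
  rw [← FLD_w2 x]
  field_simp

private theorem FLD_cont {ζ : ℝ → ℝ} (h : Continuous ζ) :
    Continuous fun z : ℝ × ℝ => ζ (wf z.1 * z.2 / √3) / wf z.1 := by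
  have h1 : Continuous fun z : ℝ × ℝ => wf z.1 * z.2 / √3 :=
    ((FLD_cw.comp continuous_fst).mul continuous_snd).div_const _
  exact (h.comp h1).div (FLD_cw.comp continuous_fst) fun z => (FLD_wpos z.1).ne'

private theorem FLD_cont' {ζ : ℝ → ℝ} (h : Continuous ζ) :
    Continuous fun z : ℝ × ℝ => ζ (wf z.1 * z.2 / √3) / √3 := by
  have h1 : Continuous fun z : ℝ × ℝ => wf z.1 * z.2 / √3 :=
    ((FLD_cw.comp continuous_fst).mul continuous_snd).div_const _
  exact (h.comp h1).div_const _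

private theorem FLD_D1c {F FX FY : ℝ × ℝ → ℝ} (h : D1 F FX FY) : Continuous F :=
  continuous_iff_continuousAt.2 fun z => (h z).continuousAt

private theorem FLD_D1y {F FX FY : ℝ × ℝ → ℝ} (h : D1 F FX FY) (X Y : ℝ) :
    HasDerivAt (fun t => F (X, t)) (FY (X, Y)) Y := by
  have h1 : HasDerivAt (fun t : ℝ => ((X, t) : ℝ × ℝ)) ((0 : ℝ), (1 : ℝ)) Y :=
    (hasDerivAt_const Y X).prodMk (hasDerivAt_id Y)
  have h2 := (h (X, Y)).comp_hasDerivAt Y h1
  refine h2.congr_deriv ?_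
  simp

private theorem FLD_zep (J : Jet) (h : J.Good) (Y : ℝ) : HasDerivAt (zep J) (-J.fY (cc, Y)) Y :=
  (FLD_D1y h.d cc Y).const_sub cc
private theorem FLD_zem (J : Jet) (h : J.Good) (Y : ℝ) : HasDerivAt (zem J) (-J.fY (-cc, Y)) Y :=
  (FLD_D1y h.d (-cc) Y).const_sub cc

private theorem FLD_clf : Continuous lf := by
  unfold lf
  fun_prop

private theorem FLD_etp (J : Jet) (h : J.Good) : Continuous (etp J) := by
  have hf := FLD_D1c h.d
  have hl := FLD_clf
  unfold etp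
  exact continuous_const.sub ((hl.comp (continuous_id.prodMk continuous_const)).sub
    (hf.comp (continuous_id.prodMk continuous_const)))
private theorem FLD_etm (J : Jet) (h : J.Good) : Continuous (etm J) := by
  have hf := FLD_D1c h.d
  have hl := FLD_clf
  unfold etm
  exact continuous_const.sub ((hl.comp (continuous_id.prodMk continuous_const)).sub
    (hf.comp (continuous_id.prodMk continuous_const)))

private theorem FLD_a {η : ℝ → ℝ} (h : Continuous η) : Continuous fun x => η (cc * x) / wf x :=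
  (h.comp (continuous_const.mul continuous_id)).div FLD_cw fun x => (FLD_wpos x).ne'

private theorem FLD_fY (J : Jet) (h : J.Good) (X : ℝ) : Continuous fun Y => -J.fY (X, Y) :=
  ((FLD_D1c h.dY).comp (continuous_const.prodMk continuous_id)).neg

private theorem FLD_fok (J : Jet) (h : J.Good) (S : ℝ → ℝ → St) (Z E : ℝ → ℝ → ℝ) (hS : JS S Z E) :
    ∃ Z E cy dy : ℝ → ℝ → ℝ, FOK ⟨S, fun x => etp J (cc * x) / wf x, fun x => etm J (cc * x) / wf x,
      fun x y => zep J (wf x * y / √3) / wf x, fun x y => zem J (wf x * y / √3) / wf x⟩ Z E cy dy := by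
  have hzp := FLD_zep J h
  have hzm := FLD_zem J h
  have czp : Continuous (zep J) := continuous_iff_continuousAt.2 fun Y => (hzp Y).continuousAt
  have czm : Continuous (zem J) := continuous_iff_continuousAt.2 fun Y => (hzm Y).continuousAt
  refine ⟨Z, E, fun x y => -J.fY (cc, wf x * y / √3) / √3, fun x y => -J.fY (-cc, wf x * y / √3) / √3,
    hS, FLD_a (FLD_etp J h), FLD_a (FLD_etm J h), FLD_cont czp, FLD_cont czm,
    FLD_cont' (FLD_fY J h cc), FLD_cont' (FLD_fY J h (-cc)), FLD_dy hzp, FLD_dy hzm,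
    FLD_dx hzp, FLD_dx hzm⟩

theorem fok_C (J : Jet) (h : J.Good) : ∃ Z E cy dy : ℝ → ℝ → ℝ, FOK (FdC J) Z E cy dy := by
  obtain ⟨Z, E, hS⟩ := js_AC J h
  exact FLD_fok J h (AC J) Z E hS
theorem fok_S (J : Jet) (h : J.Good) : ∃ Z E cy dy : ℝ → ℝ → ℝ, FOK (FdS J) Z E cy dy := by
  obtain ⟨Z, E, hS⟩ := js_AS J h
  exact FLD_fok J h (AS J) Z E hS

/-- `√3/2 · w(1) = 3 cc/2` -/
private theorem FLD_w1 : s3 * wf 1 = 3 * cc / 2 := by
  refine FLD_sq (mul_nonneg (by unfold s3; positivity) (FLD_wpos 1).le)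
    (by have := FLD_ccpos; positivity) ?_
  rw [mul_pow, FLD_s3, FLD_w2, div_pow, mul_pow, FLD_cc]
  unfold mf
  norm_num

theorem FdC_one (J : Jet) (y : ℝ) : (AC J 1 y).u = (FdC J).c 1 y := by
  have hw := FLD_wpos 1
  have h1 := FLD_w1
  show s3 - cc / (2 * wf 1) - J.f (cc * 1, wf 1 * y / √3) / wf 1 =
    (cc - J.f (cc, wf 1 * y / √3)) / wf 1
  rw [mul_one]
  field_simp
  linear_combination 2 * h1

private theorem FLD_yt0 (x : ℝ) : 0 ≤ yt x := Real.sqrt_nonneg _
private theorem FLD_yt2 (x : ℝ) : yt x ^ 2 = 3 / (2 + x ^ 2) := Real.sq_sqrt (by positivity)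

private theorem FLD_wyt (x : ℝ) : wf x * yt x / √3 = cc := by
  have hw := FLD_wpos x
  have hy := FLD_yt0 x
  refine FLD_sq (by positivity) FLD_ccpos.le ?_
  rw [div_pow, mul_pow, FLD_w2, FLD_yt2, FLD_r3, FLD_cc]
  unfold mf
  field_simp

theorem FdS_curve (J : Jet) (x : ℝ) : (AS J x (yt x)).u = -(FdS J).a x := by
  have hw := FLD_wpos x
  have hr := FLD_r3pos
  have h1 := FLD_wyt x
  have h2 : lf (cc * x, cc) = Nf (yt x) * wf x := by
    refine FLD_sq (Real.sqrt_nonneg _) (mul_nonneg (FLD_Npos _).le hw.le) ?_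
    unfold lf
    rw [Real.sq_sqrt (by positivity)]
    show 1 + (cc * x) ^ 2 + cc ^ 2 = (Nf (yt x) * wf x) ^ 2
    rw [mul_pow, mul_pow, FLD_w2, FLD_N2, FLD_yt2, FLD_cc]
    unfold mf
    field_simp
  show Nf (yt x) - yt x / (2 * √3) - cc / (2 * wf x) - J.f (cc * x, wf x * yt x / √3) / wf x =
    -((cc - (lf (cc * x, cc) - J.f (cc * x, cc))) / wf x)
  rw [h1, h2]
  have h3 : yt x / (2 * √3) = cc / (2 * wf x) := by
    rw [← h1]
    field_simp
  rw [h3]
  field_simp
  ring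

private theorem FLD_N1 : Nf 1 = 2 / √3 := by
  have hr := FLD_r3pos
  refine FLD_sq (FLD_Npos 1).le (by positivity) ?_
  rw [FLD_N2, div_pow, FLD_r3]
  norm_num

theorem FdC_G (J : Jet) (x : ℝ) : (AC J x 1).u = (AS J x 1).u ∧ (AC J x 1).q = (AS J x 1).q ∧
    (AC J x 1).p = (AS J x 1).p ∧ (AC J x 1).ka = (AS J x 1).ka := by
  have hr := FLD_r3pos
  have hr2 := FLD_r3
  have hN := FLD_N1
  refine ⟨?_, ?_, rfl, ?_⟩
  · show s3 - cc / (2 * wf x) - (ch J x 1).u = Nf 1 - 1 / (2 * √3) - cc / (2 * wf x) - (ch J x 1).u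
    have h : s3 = Nf 1 - 1 / (2 * √3) := by
      rw [hN]
      unfold s3
      field_simp
      linear_combination hr2
    rw [h]
  · show (0 : ℝ) - (ch J x 1).q = 1 / (3 * Nf 1) - 1 / (2 * √3) - (ch J x 1).q
    have h : (0 : ℝ) = 1 / (3 * Nf 1) - 1 / (2 * √3) := by
      rw [hN]
      field_simp
      linear_combination -hr2
    rw [← h]
  · show s3 - (ch J x 1).ka = 1 / Nf 1 - (ch J x 1).ka
    have h : s3 = 1 / Nf 1 := by
      rw [hN]
      unfold s3
      field_simp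
    rw [h]

/-- corner values -/
theorem cor_u (J : Jet) (h : J.f (cc, cc) = cc) : (AC J 1 1).u = 0 := by
  have h1 : wf 1 * 1 / √3 = cc := by
    have hw := FLD_wpos 1
    refine FLD_sq (by positivity) FLD_ccpos.le ?_
    rw [mul_one, div_pow, FLD_w2, FLD_r3, FLD_cc]
    unfold mf
    norm_num
  rw [FdC_one]
  show (cc - J.f (cc, wf 1 * 1 / √3)) / wf 1 = 0
  rw [h1, h, sub_self, zero_div]
theorem cor_a (J : Jet) (h : J.f (cc, cc) = cc) : (FdS J).a 1 = 0 := by
  show (cc - (lf (cc * 1, cc) - J.f (cc * 1, cc))) / wf 1 = 0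
  have h1 : lf (cc, cc) = 2 * cc := by
    refine FLD_sq (Real.sqrt_nonneg _) (by have := FLD_ccpos; positivity) ?_
    unfold lf
    rw [Real.sq_sqrt (by positivity), mul_pow, FLD_cc]
    norm_num
  rw [mul_one, h, h1]
  have : cc - (2 * cc - cc) = 0 := by ring
  rw [this, zero_div]

end Pool.Agent.MCA
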