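import Pool.Agent.MCA.Sem
import Pool.Agent.MSQ.HypR
/-!
RFF. States of the reflected jets on the axes.
-/
set_option autoImplicit false

open MeasureTheory Set Pool.Agent.MSQ Pool.Agent.MTR Pool.Agent.MGF

namespace Pool.Agent.MCA

noncomputable section

/-- reflection of a state vector -/
def rX : List ℝ → List ℝ
  | [s0, s1, s2, s3, s4, s5, s6, s7, s8, s9, s10] => [s0, s1, s2, -s3, s4, s5, s7, s6, s8, -s9, s10]
  | s => s
def rY : List ℝ → List ℝ
  | [s0, s1, s2, s3, s4, s5, s6, s7, s8, s9, s10] => [s0, s1, -s2, s3, s5, s4, s6, s7, s8, -s9, s10]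
  | s => s

private theorem RFF_lfy (a b : ℝ) : lf (a, -b) = lf (a, b) := by
  unfold lf
  simp

private theorem RFF_etpx (J : Jet) (X : ℝ) (h : X = 0) : etp J.rx X = etp J X := by
  subst h
  simp [etp, Jet.rx]
private theorem RFF_etmx (J : Jet) (X : ℝ) (h : X = 0) : etm J.rx X = etm J X := by
  subst h
  simp [etm, Jet.rx]
private theorem RFF_zepx (J : Jet) (Y : ℝ) : zep J.rx Y = zem J Y := rfl
private theorem RFF_zemx (J : Jet) (Y : ℝ) : zem J.rx Y = zep J Y := by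
  simp [zep, zem, Jet.rx]
private theorem RFF_etpy (J : Jet) (X : ℝ) : etp J.ry X = etm J X := by
  simp [etp, etm, Jet.ry, RFF_lfy]
private theorem RFF_etmy (J : Jet) (X : ℝ) : etm J.ry X = etp J X := by
  simp [etp, etm, Jet.ry, RFF_lfy]
private theorem RFF_zepy (J : Jet) (Y : ℝ) (h : Y = 0) : zep J.ry Y = zep J Y := by
  subst h
  simp [zep, Jet.ry]
private theorem RFF_zemy (J : Jet) (Y : ℝ) (h : Y = 0) : zem J.ry Y = zem J Y := by
  subst h
  simp [zem, Jet.ry]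

theorem sv_rxC (DL : Int) (J : Jet) (y : ℝ) : sv DL (FdC J.rx) 0 y = rX (sv DL (FdC J) 0 y) := by
  have h0 : cc * 0 = 0 := mul_zero _
  simp only [sv, FdC, AC_rx0, St.fx, rX, RFF_etpx J _ h0, RFF_etmx J _ h0, RFF_zepx, RFF_zemx]
theorem sv_rxS (DL : Int) (J : Jet) (y : ℝ) : sv DL (FdS J.rx) 0 y = rX (sv DL (FdS J) 0 y) := by
  have h0 : cc * 0 = 0 := mul_zero _
  simp only [sv, FdS, AS_rx0, St.fx, rX, RFF_etpx J _ h0, RFF_etmx J _ h0, RFF_zepx, RFF_zemx]
theorem sv_ryC (DL : Int) (J : Jet) (x : ℝ) : sv DL (FdC J.ry) x 0 = rY (sv DL (FdC J) x 0) := by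
  have h0 : wf x * 0 / √3 = 0 := by rw [mul_zero, zero_div]
  simp only [sv, FdC, AC_ry0, St.fy, rY, RFF_zepy J _ h0, RFF_zemy J _ h0, RFF_etpy, RFF_etmy]

end

end Pool.Agent.MCA
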