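import Pool.Agent.MCA.QUD
import Pool.Agent.MCA.RFF
import Pool.Agent.MCA.FLD
/-!
QUE1 (60 lines). The axis `x = 0`: the normal components of a jet and of the reflected jet cancel.

PROOF. `eAX_val` with the tie: `tieC` gives `qf (evE x y (eAX ..)) s = 0` (`ev` of an `isZ` polynomial is `0`, induction on
the list), so `Vx - VxK` of `g` at `s` plus the same of `g'` at `rX s` is `0`; `sv_rxC`; the `K` parts: `VxK K 0 y s =
-2 K q ν / N`, `rX s` changes the sign of `ν` (index 9) and keeps `q` (index 2), `K4` gives equal values of the two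
polynomials `K` at `x = 0` (`ev_eqP`, `atx0`: `ev x y (atx0 p) = ev 0 y p`, see the start of EDV).
-/
set_option autoImplicit false

open MeasureTheory Set Pool.Agent.MSQ Pool.Agent.MTR Pool.Agent.MGF

namespace Pool.Agent.MCA

private theorem QUE1_atx0 (x y : ℝ) (p : P) : ev x y (atx0 p) = ev 0 y p := by
  cases p with
  | nil => rfl
  | cons a l => simp [atx0, ev]

private theorem QUE1_N (y : ℝ) : 0 < Nf y := by
  unfold Nf
  positivity

private theorem QUE1_dot (A s : List ℝ) (h : ∀ a ∈ A, a = 0) : dotL A s = 0 := by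
  induction A generalizing s with
  | nil => simp [dotL]
  | cons a A ih =>
    cases s with
    | nil => simp [dotL]
    | cons b s =>
      rw [dotL, h a List.mem_cons_self, ih s (fun c hc => h c (List.mem_cons_of_mem _ hc))]
      ring

private theorem QUE1_qf (A s : List ℝ) (h : ∀ a ∈ A, a = 0) : qf A s = 0 := by
  induction s generalizing A with
  | nil => simp [qf]
  | cons b s ih =>
    rw [qf, QUE1_dot _ _ (fun a ha => h a (List.mem_of_mem_take ha)),
      ih _ (fun a ha => h a (List.mem_of_mem_drop ha))]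
    ring

private theorem QUE1_ev (x y : ℝ) (L : List P) (s : List ℝ) (h : L.all isZ = true) : qf (evE x y L) s = 0 := by
  apply QUE1_qf
  intro a ha
  obtain ⟨p, hp, rfl⟩ := List.mem_map.1 ha
  exact ev_isZ x y p (List.all_eq_true.1 h p hp)

private theorem QUE1_main (DL : Int) (hDL : 0 < DL) (g g' : Ga) (hg : wfG g = true) (hg' : wfG g' = true)
    (tie : (eAX DL g g').all isZ = true) (hK : eqP (atx0 g.K) (atx0 g'.K) = true) (F : Fd) (y : ℝ) :
    Vx g 0 y (sv DL F 0 y) + Vx g' 0 y (rX (sv DL F 0 y)) = 0 := by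
  have hN := QUE1_N y
  have h1 := eAX_val DL g g' hg hg' 0 y (sv DL F 0 y) (SV_sv DL hDL F 0 y)
  rw [QUE1_ev 0 y _ _ tie] at h1
  have h2 : ev 0 y g.K = ev 0 y g'.K := by
    have h3 := ev_eqP 0 y _ _ hK
    rwa [QUE1_atx0, QUE1_atx0] at h3
  have h4 : (108 * Nf y ^ 3 : ℝ) ≠ 0 := by positivity
  have h5 := (mul_eq_zero.1 h1.symm).resolve_left h4
  have h6 : VxK g'.K 0 y (rX (sv DL F 0 y)) = -VxK g.K 0 y (sv DL F 0 y) := by
    unfold VxK
    rw [h2]
    simp only [sv, rX, List.getD_cons_succ, List.getD_cons_zero]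
    ring
  rw [h6] at h5
  linarith

theorem q_ax_C (c : Sqd) (hc : c.Ok) (J : Jet) (y : ℝ) :
    Vx (c.gC false) 0 y (sv c.DL (FdC J) 0 y) + Vx (c.gC true) 0 y (sv c.DL (FdC J.rx) 0 y) = 0 := by
  rw [sv_rxC]
  exact QUE1_main c.DL hc.pDL _ _ (hc.wC false) (hc.wC true) hc.tieC hc.K4 _ y

theorem q_ax_S (c : Sqd) (hc : c.Ok) (J : Jet) (y : ℝ) :
    Vx (c.gS false) 0 y (sv c.DL (FdS J) 0 y) + Vx (c.gS true) 0 y (sv c.DL (FdS J.rx) 0 y) = 0 := by
  rw [sv_rxS]
  exact QUE1_main c.DL hc.pDL _ _ (hc.wS false) (hc.wS true) hc.tieS hc.K5 _ y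

/-- the reflections commute -/
theorem q_rxry (J : Jet) : J.rx.ry = J.ry.rx := by
  simp only [Jet.rx, Jet.ry, neg_neg]

end Pool.Agent.MCA
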