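import Pool.Agent.MCA.Sem
/-!
CVX. Soundness of the coverings.
-/
set_option autoImplicit false

open Pool.Agent.MSQ Pool.Agent.MTR Pool.Agent.MGF

namespace Pool.Agent.MCA

private theorem CVX_covY (y : ℝ) : ∀ (L : List Itm) (a b : Int), 0 < b → 0 < (covY a b L).2 →
    (a : ℝ) ≤ b * y → ((covY a b L).2 : ℝ) * y ≤ (covY a b L).1 → (L = [] → (a : ℝ) < b * y) →
    ∃ t ∈ L, 0 < t.qy ∧ (t.y0 : ℝ) ≤ t.qy * y ∧ (t.qy : ℝ) * y ≤ t.y1 := by
  intro L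
  induction L with
  | nil =>
    intro a b hb he h1 h2 h3
    have h4 := h3 rfl
    simp only [covY] at h2
    linarith
  | cons t l ih =>
    intro a b hb he h1 h2 _
    by_cases hc : (decide (t.y0 * b ≤ a * t.qy) && decide (0 < t.qy)) = true
    · have hE : covY a b (t :: l) = covY t.y1 t.qy l := by
        simp only [covY, hc, if_true]
      rw [hE] at he h2
      simp only [Bool.and_eq_true, decide_eq_true_eq] at hc
      obtain ⟨c1, c2⟩ := hc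
      have hb' : (0 : ℝ) < b := by exact_mod_cast hb
      have hq' : (0 : ℝ) < t.qy := by exact_mod_cast c2
      have c1' : (t.y0 : ℝ) * b ≤ a * t.qy := by exact_mod_cast c1
      have h5 : (t.y0 : ℝ) ≤ t.qy * y := by
        have h6 : (t.y0 : ℝ) * b ≤ (t.qy * y) * b := by
          calc (t.y0 : ℝ) * b ≤ a * t.qy := c1'
            _ ≤ (b * y) * t.qy := mul_le_mul_of_nonneg_right h1 hq'.le
            _ = (t.qy * y) * b := by ring
        exact le_of_mul_le_mul_right h6 hb'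
      by_cases h7 : (t.qy : ℝ) * y ≤ t.y1
      · exact ⟨t, by simp, c2, h5, h7⟩
      · push Not at h7
        obtain ⟨u, hu, hr⟩ := ih t.y1 t.qy c2 he h7.le h2 (fun _ => h7)
        exact ⟨u, by simp [hu], hr⟩
    · have hE : covY a b (t :: l) = (0, 0) := by
        simp only [covY, if_neg hc]
      rw [hE] at he
      simp at he

private theorem CVX_col (t u : Itm) (x y : ℝ) (hq : 0 < t.qx) (hu : 0 < u.qx) (e0 : u.x0 * t.qx = t.x0 * u.qx)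
    (e1 : u.x1 * t.qx = t.x1 * u.qx) (h0 : (t.x0 : ℝ) ≤ t.qx * x) (h1 : (t.qx : ℝ) * x ≤ t.x1)
    (hy : 0 < u.qy ∧ (u.y0 : ℝ) ≤ u.qy * y ∧ (u.qy : ℝ) * y ≤ u.y1) : inI u x y := by
  have hq' : (0 : ℝ) < t.qx := by exact_mod_cast hq
  have hu' : (0 : ℝ) < u.qx := by exact_mod_cast hu
  have e0' : (u.x0 : ℝ) * t.qx = t.x0 * u.qx := by exact_mod_cast e0
  have e1' : (u.x1 : ℝ) * t.qx = t.x1 * u.qx := by exact_mod_cast e1
  refine ⟨hu, hy.1, ?_, ?_, hy.2.1, hy.2.2⟩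
  · have h : (u.x0 : ℝ) * t.qx ≤ (u.qx * x) * t.qx := by
      rw [e0']
      calc (t.x0 : ℝ) * u.qx ≤ (t.qx * x) * u.qx := mul_le_mul_of_nonneg_right h0 hu'.le
        _ = (u.qx * x) * t.qx := by ring
    exact le_of_mul_le_mul_right h hq'
  · have h : ((u.qx : ℝ) * x) * t.qx ≤ u.x1 * t.qx := by
      rw [e1']
      calc ((u.qx : ℝ) * x) * t.qx = (t.qx * x) * u.qx := by ring
        _ ≤ t.x1 * u.qx := mul_le_mul_of_nonneg_right h1 hu'.le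
    exact le_of_mul_le_mul_right h hq'

private theorem CVX_x0 {t : Itm} {a b : Int} {x : ℝ} (hb : 0 < b) (hq : 0 < t.qx) (hc : t.x0 * b ≤ a * t.qx)
    (h : (a : ℝ) ≤ b * x) : (t.x0 : ℝ) ≤ t.qx * x := by
  have hb' : (0 : ℝ) < b := by exact_mod_cast hb
  have hq' : (0 : ℝ) < t.qx := by exact_mod_cast hq
  have c1' : (t.x0 : ℝ) * b ≤ a * t.qx := by exact_mod_cast hc
  have h6 : (t.x0 : ℝ) * b ≤ (t.qx * x) * b := by
    calc (t.x0 : ℝ) * b ≤ a * t.qx := c1'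
      _ ≤ (b * x) * t.qx := mul_le_mul_of_nonneg_right h hq'.le
      _ = (t.qx * x) * b := by ring
  exact le_of_mul_le_mul_right h6 hb'

private theorem CVX_allc {t : Itm} {c : List Itm}
    (h : ((t :: c).all fun u => decide (0 < u.qx) && decide (u.x0 * t.qx = t.x0 * u.qx) &&
        decide (u.x1 * t.qx = t.x1 * u.qx)) = true) :
    ∀ u ∈ t :: c, 0 < u.qx ∧ u.x0 * t.qx = t.x0 * u.qx ∧ u.x1 * t.qx = t.x1 * u.qx := by
  intro u hu
  have h1 := List.all_eq_true.mp h u hu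
  simp only [Bool.and_eq_true, decide_eq_true_eq] at h1
  exact ⟨h1.1.1, h1.1.2, h1.2⟩

private theorem CVX_end {e1 e2 q x0 : Int} {x y : ℝ} (he2 : 0 < e2) (he1 : 0 < e1) (hq : 0 < q) (hx0 : 0 ≤ x0)
    (h : 3 * (q * e2) ^ 2 ≤ (2 * q ^ 2 + x0 ^ 2) * e1 ^ 2) (hx : (x0 : ℝ) ≤ q * x)
    (hy : (2 + x ^ 2) * y ^ 2 ≤ 3) : (e2 : ℝ) * y ≤ e1 := by
  have he1' : (0 : ℝ) < e1 := by exact_mod_cast he1
  have hq' : (0 : ℝ) < q := by exact_mod_cast hq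
  have hx0' : (0 : ℝ) ≤ x0 := by exact_mod_cast hx0
  have h' : 3 * ((q : ℝ) * e2) ^ 2 ≤ (2 * q ^ 2 + x0 ^ 2) * e1 ^ 2 := by exact_mod_cast h
  have hs : (x0 : ℝ) ^ 2 ≤ (q * x) ^ 2 := pow_le_pow_left₀ hx0' hx 2
  have hD : (0 : ℝ) < 2 * q ^ 2 + x0 ^ 2 := by positivity
  have h1 : ((e2 : ℝ) * y) ^ 2 * (2 * q ^ 2 + x0 ^ 2) ≤ (e1 : ℝ) ^ 2 * (2 * q ^ 2 + x0 ^ 2) := by
    calc ((e2 : ℝ) * y) ^ 2 * (2 * q ^ 2 + x0 ^ 2) ≤ ((e2 : ℝ) * y) ^ 2 * (2 * q ^ 2 + (q * x) ^ 2) := by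
          apply mul_le_mul_of_nonneg_left _ (sq_nonneg _)
          linarith
      _ = (q * e2) ^ 2 * ((2 + x ^ 2) * y ^ 2) := by ring
      _ ≤ (q * e2) ^ 2 * 3 := mul_le_mul_of_nonneg_left hy (sq_nonneg _)
      _ = 3 * ((q : ℝ) * e2) ^ 2 := by ring
      _ ≤ (2 * q ^ 2 + x0 ^ 2) * e1 ^ 2 := h'
      _ = (e1 : ℝ) ^ 2 * (2 * q ^ 2 + x0 ^ 2) := by ring
  have h2 : ((e2 : ℝ) * y) ^ 2 ≤ (e1 : ℝ) ^ 2 := le_of_mul_le_mul_right h1 hD
  exact (le_abs_self _).trans (abs_le_of_sq_le_sq h2 he1'.le)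

private theorem CVX_R (y0 y1 : Int) (x y : ℝ) (h1 : x ≤ 1) (h2 : (y0 : ℝ) ≤ y) (h3 : y ≤ y1) :
    ∀ (L : List (List Itm)) (a b : Int), covR y0 y1 a b L = true → 0 < b → (a : ℝ) ≤ b * x →
      (L = [] → (a : ℝ) < b * x) → ∃ c ∈ L, ∃ b ∈ c, inI b x y := by
  intro L
  induction L with
  | nil =>
    intro a b h hb _ h4
    have h5 := h4 rfl
    have h6 : b ≤ a := by simpa [covR] using h
    have h6' : (b : ℝ) ≤ a := by exact_mod_cast h6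
    have hb' : (0 : ℝ) < b := by exact_mod_cast hb
    have : (b : ℝ) * x ≤ b := by nlinarith
    linarith
  | cons c L ih =>
    intro a b h hb hx _
    cases c with
    | nil => simp [covR] at h
    | cons t c =>
      simp only [covR, Bool.and_eq_true, decide_eq_true_eq] at h
      obtain ⟨⟨⟨⟨hq, hc⟩, hall⟩, he1, he2⟩, hrec⟩ := h
      have hx0 := CVX_x0 hb hq hc hx
      by_cases h7 : (t.qx : ℝ) * x ≤ t.x1
      · have he2' : ((covY y0 1 (t :: c)).2 : ℝ) * y ≤ (covY y0 1 (t :: c)).1 := by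
          have h8 : (y1 : ℝ) * (covY y0 1 (t :: c)).2 ≤ (covY y0 1 (t :: c)).1 := by exact_mod_cast he2
          have h9 : (0 : ℝ) < (covY y0 1 (t :: c)).2 := by exact_mod_cast he1
          nlinarith
        obtain ⟨u, hu, hu2⟩ := CVX_covY y (t :: c) y0 1 one_pos he1 (by simpa using h2) he2' (by simp)
        obtain ⟨a1, a2, a3⟩ := CVX_allc hall u hu
        exact ⟨t :: c, by simp, u, hu, CVX_col t u x y hq a1 a2 a3 hx0 h7 hu2⟩
      · push Not at h7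
        obtain ⟨c', hc', r⟩ := ih t.x1 t.qx hrec hq h7.le (fun _ => h7)
        exact ⟨c', by simp [hc'], r⟩

private theorem CVX_S (x y : ℝ) (h1 : x ≤ 1) (h2 : 1 ≤ y) (h3 : (2 + x ^ 2) * y ^ 2 ≤ 3) :
    ∀ (L : List (List Itm)) (a b : Int), covS a b L = true → 0 < b → (a : ℝ) ≤ b * x →
      (L = [] → (a : ℝ) < b * x) → ∃ c ∈ L, ∃ b ∈ c, inI b x y := by
  intro L
  induction L with
  | nil =>
    intro a b h hb _ h4
    have h5 := h4 rfl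
    have h6 : b ≤ a := by simpa [covS] using h
    have h6' : (b : ℝ) ≤ a := by exact_mod_cast h6
    have hb' : (0 : ℝ) < b := by exact_mod_cast hb
    have : (b : ℝ) * x ≤ b := by nlinarith
    linarith
  | cons c L ih =>
    intro a b h hb hx _
    cases c with
    | nil => simp [covS] at h
    | cons t c =>
      simp only [covS, Bool.and_eq_true, decide_eq_true_eq] at h
      obtain ⟨⟨⟨⟨⟨hq, hp⟩, hc⟩, hall⟩, ⟨he1, he0⟩, he2⟩, hrec⟩ := h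
      have hx0 := CVX_x0 hb hq hc hx
      by_cases h7 : (t.qx : ℝ) * x ≤ t.x1
      · have he2' : ((covY 1 1 (t :: c)).2 : ℝ) * y ≤ (covY 1 1 (t :: c)).1 :=
          CVX_end he1 he0 hq hp he2 hx0 h3
        obtain ⟨u, hu, hu2⟩ := CVX_covY y (t :: c) 1 1 one_pos he1 (by simpa using h2) he2' (by simp)
        obtain ⟨a1, a2, a3⟩ := CVX_allc hall u hu
        exact ⟨t :: c, by simp, u, hu, CVX_col t u x y hq a1 a2 a3 hx0 h7 hu2⟩
      · push Not at h7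
        obtain ⟨c', hc', r⟩ := ih t.x1 t.qx hrec hq h7.le (fun _ => h7)
        exact ⟨c', by simp [hc'], r⟩

private theorem CVX_start {q r x1 y0 : Int} {x y : ℝ} (hq : 0 < q) (hr : 0 < r)
    (h : (2 * q ^ 2 + x1 ^ 2) * y0 ^ 2 ≤ 3 * (q * r) ^ 2) (hx0 : 0 ≤ x) (hx : (q : ℝ) * x ≤ x1) (hy0 : 0 ≤ y)
    (hy : (2 + x ^ 2) * y ^ 2 = 3) : (y0 : ℝ) ≤ r * y := by
  have hq' : (0 : ℝ) < q := by exact_mod_cast hq
  have hr' : (0 : ℝ) < r := by exact_mod_cast hr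
  have h' : (2 * (q : ℝ) ^ 2 + x1 ^ 2) * y0 ^ 2 ≤ 3 * (q * r) ^ 2 := by exact_mod_cast h
  have hs : ((q : ℝ) * x) ^ 2 ≤ x1 ^ 2 := pow_le_pow_left₀ (by positivity) hx 2
  have hD : (0 : ℝ) < 2 * q ^ 2 + x1 ^ 2 := by positivity
  have h1 : (y0 : ℝ) ^ 2 * (2 * q ^ 2 + x1 ^ 2) ≤ ((r : ℝ) * y) ^ 2 * (2 * q ^ 2 + x1 ^ 2) := by
    calc (y0 : ℝ) ^ 2 * (2 * q ^ 2 + x1 ^ 2) = (2 * (q : ℝ) ^ 2 + (x1 : ℝ) ^ 2) * (y0 : ℝ) ^ 2 := by ring
      _ ≤ 3 * ((q : ℝ) * r) ^ 2 := h'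
      _ = ((2 + x ^ 2) * y ^ 2) * ((q : ℝ) * r) ^ 2 := by rw [hy]
      _ = ((r : ℝ) * y) ^ 2 * (2 * q ^ 2 + (q * x) ^ 2) := by ring
      _ ≤ ((r : ℝ) * y) ^ 2 * (2 * q ^ 2 + x1 ^ 2) := by
          apply mul_le_mul_of_nonneg_left _ (sq_nonneg _)
          linarith
  have h2 : (y0 : ℝ) ^ 2 ≤ ((r : ℝ) * y) ^ 2 := le_of_mul_le_mul_right h1 hD
  exact (le_abs_self _).trans (abs_le_of_sq_le_sq h2 (by positivity))

private theorem CVX_C (x y : ℝ) (h0 : 0 ≤ x) (h1 : x ≤ 1) (h2 : 0 ≤ y) (h3 : (2 + x ^ 2) * y ^ 2 = 3) :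
    ∀ (L : List (List Itm)) (a b : Int), covC a b L = true → 0 < b → (a : ℝ) ≤ b * x →
      (L = [] → (a : ℝ) < b * x) → ∃ c ∈ L, ∃ b ∈ c, inI b x y := by
  intro L
  induction L with
  | nil =>
    intro a b h hb _ h4
    have h5 := h4 rfl
    have h6 : b ≤ a := by simpa [covC] using h
    have h6' : (b : ℝ) ≤ a := by exact_mod_cast h6
    have hb' : (0 : ℝ) < b := by exact_mod_cast hb
    have : (b : ℝ) * x ≤ b := by nlinarith
    linarith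
  | cons c L ih =>
    intro a b h hb hx _
    cases c with
    | nil => simp [covC] at h
    | cons t c =>
      simp only [covC, Bool.and_eq_true, decide_eq_true_eq] at h
      obtain ⟨⟨⟨⟨⟨⟨⟨⟨⟨hq, hr⟩, hp⟩, _⟩, _⟩, hc⟩, hs⟩, hall⟩, ⟨he1, he0⟩, he2⟩, hrec⟩ := h
      have hx0 := CVX_x0 hb hq hc hx
      by_cases h7 : (t.qx : ℝ) * x ≤ t.x1
      · have he2' : ((covY t.y0 t.qy (t :: c)).2 : ℝ) * y ≤ (covY t.y0 t.qy (t :: c)).1 :=
          CVX_end he1 he0 hq hp he2 hx0 h3.le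
        obtain ⟨u, hu, hu2⟩ := CVX_covY y (t :: c) t.y0 t.qy hr he1 (CVX_start hq hr hs h0 h7 h2 h3) he2'
          (by simp)
        obtain ⟨a1, a2, a3⟩ := CVX_allc hall u hu
        exact ⟨t :: c, by simp, u, hu, CVX_col t u x y hq a1 a2 a3 hx0 h7 hu2⟩
      · push Not at h7
        obtain ⟨c', hc', r⟩ := ih t.x1 t.qx hrec hq h7.le (fun _ => h7)
        exact ⟨c', by simp [hc'], r⟩

theorem covR_sound (y0 y1 : Int) (L : List (List Itm)) (h : covR y0 y1 0 1 L = true) (x y : ℝ) (h0 : 0 ≤ x)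
    (h1 : x ≤ 1) (h2 : (y0 : ℝ) ≤ y) (h3 : y ≤ y1) : ∃ c ∈ L, ∃ b ∈ c, inI b x y := by
  refine CVX_R y0 y1 x y h1 h2 h3 L 0 1 h one_pos (by simpa using h0) ?_
  rintro rfl
  simp [covR] at h

theorem covS_sound (L : List (List Itm)) (h : covS 0 1 L = true) (x y : ℝ) (h0 : 0 ≤ x) (h1 : x ≤ 1) (h2 : 1 ≤ y)
    (h3 : (2 + x ^ 2) * y ^ 2 ≤ 3) : ∃ c ∈ L, ∃ b ∈ c, inI b x y := by
  refine CVX_S x y h1 h2 h3 L 0 1 h one_pos (by simpa using h0) ?_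
  rintro rfl
  simp [covS] at h

theorem covC_sound (L : List (List Itm)) (h : covC 0 1 L = true) (x y : ℝ) (h0 : 0 ≤ x) (h1 : x ≤ 1) (h2 : 0 ≤ y)
    (h3 : (2 + x ^ 2) * y ^ 2 = 3) : ∃ c ∈ L, ∃ b ∈ c, inI b x y := by
  refine CVX_C x y h0 h1 h2 h3 L 0 1 h one_pos (by simpa using h0) ?_
  rintro rfl
  simp [covC] at h

end Pool.Agent.MCA
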