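import Pool.Agent.MCA.QUD
import Pool.Agent.MCA.RFF
import Pool.Agent.MCA.FLD
import Pool.Agent.MCA.CVX
import Pool.Agent.MSQ.RDiv
/-!
QUE2 (100 lines). The axis `y = 0`.

PROOF. `c.Ok.axis`: `covR_sound` gives a box containing `(x, 0)`, `BoxOK` (with `A x hx`) gives `0 ≤ qf (evE x 0 (eAY ..))
(sv ..)`. `eAY_val` at `x, 0` (`h : SV_sv`): `Vy_J + Vy_{J.ry} - (K parts) ≤ (mf x w' u² + 2 w u p) / N³(0)` with
`w = c.wA σ`, `u = (AC J x 0).u`, `p = (AC J x 0).p = m ∂_x u` (`fok_C`), `N(0) = 1`. The `K` parts cancel: `VyK K x 0 s =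
K q (κ - u) / N`, `rY` changes the sign of `q` (index 2) and keeps `u`, `κ`. Divide by `mf x > 0` and integrate: the right
side is `d/dx (w u²)` (`ev x 0 (pDX w)` is the derivative of `ev x 0 w`, see EvD in MSQ), whose integral is `0` because
`w` vanishes at `x = 0` and `x = 1` (`nA`). `BoxOK` is in PKE.lean (`Cov` in QUD.lean uses it).
-/
set_option autoImplicit false

open MeasureTheory Set Pool.Agent.MSQ Pool.Agent.MTR Pool.Agent.MGF

namespace Pool.Agent.MCA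

private theorem QUE2_mpos (x : ℝ) : 0 < mf x := by unfold mf; positivity

private theorem QUE2_N0 : Nf 0 = 1 := by
  unfold Nf
  norm_num

private theorem QUE2_atx0 (x y : ℝ) (p : P) : ev x y (atx0 p) = ev 0 y p := by
  cases p with
  | nil => rfl
  | cons a l => simp [atx0, ev]

private theorem QUE2_atx1 (x y : ℝ) (p : P) : ev x y (atx1 p) = ev 1 y p := by
  have h : ∀ q : P, evL y (q.foldr addV []) = ev 1 y q := by
    intro q
    induction q with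
    | nil => rfl
    | cons a l ih => simp only [List.foldr_cons, evL_addV, ih, ev, one_mul]
  simp only [atx1, ev, h, mul_zero, add_zero]

/-- the K gauge cancels on the axis -/
private theorem QUE2_K (K : P) (x : ℝ) (DL : Int) (F : Fd) :
    VyK K x 0 (sv DL F x 0) + VyK K x 0 (rY (sv DL F x 0)) = 0 := by
  unfold VyK sv rY
  simp only [List.getD_cons_zero, List.getD_cons_succ]
  ring

/-- the pointwise inequality -/
private theorem QUE2_pt (c : Sqd) (hc : c.Ok) (σ : Bool) (J : Jet)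
    (A : ∀ x : ℝ, 0 ≤ x → x ≤ 1 → ROK (c.rA σ) x 0 (sv c.DL (FdC J) x 0)) (x : ℝ) (h0 : 0 ≤ x) (h1 : x ≤ 1) :
    Vy (c.gC σ) x 0 (sv c.DL (FdC J) x 0) + Vy (c.gC σ) x 0 (sv c.DL (FdC J.ry) x 0) ≤
      mf x * ev x 0 (pDX (c.wA σ)) * (AC J x 0).u ^ 2 + 2 * ev x 0 (c.wA σ) * (AC J x 0).u * (AC J x 0).p := by
  obtain ⟨L, hL, hb⟩ := hc.axis σ
  obtain ⟨cl, hcl, b, hbc, hin⟩ := covR_sound 0 1 L hL x 0 h0 h1 (by norm_num) (by norm_num)
  have key := hb cl hcl b hbc x 0 hin (sv c.DL (FdC J) x 0) rfl (A x h0 h1)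
  rw [eAY_val c.DL (c.gC σ) (c.gC σ) (hc.wC σ) (hc.wC σ) (c.wA σ) x 0 _ (SV_sv c.DL hc.pDL (FdC J) x 0)
    (hc.nA σ).1, QUE2_N0] at key
  have hK := QUE2_K (c.gC σ).K x c.DL (FdC J)
  rw [sv_ryC]
  have e1 : (sv c.DL (FdC J) x 0).getD 1 0 = (AC J x 0).u := rfl
  have e3 : (sv c.DL (FdC J) x 0).getD 3 0 = (AC J x 0).p := rfl
  rw [e1, e3] at key
  linarith

/-- the integral of the null term -/
private theorem QUE2_int (S : ℝ → ℝ → St) (Z E : ℝ → ℝ → ℝ) (hjs : JS S Z E) (w : P)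
    (h2 : isZ (atx0 w) = true) (h3 : isZ (atx1 w) = true) :
    (Continuous fun x : ℝ => ev x 0 (pDX w) * (S x 0).u ^ 2 + 2 * ev x 0 w * (S x 0).u * ((S x 0).p / mf x)) ∧
    ∫ x in (0 : ℝ)..1,
      (ev x 0 (pDX w) * (S x 0).u ^ 2 + 2 * ev x 0 w * (S x 0).u * ((S x 0).p / mf x)) = 0 := by
  have hcu : Continuous fun x : ℝ => (S x 0).u := hjs.cu.comp (Continuous.prodMk_left (0 : ℝ))
  have hcp : Continuous fun x : ℝ => (S x 0).p := hjs.cp.comp (Continuous.prodMk_left (0 : ℝ))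
  have hcm : Continuous mf := by unfold mf; fun_prop
  have hcw : Continuous fun x : ℝ => ev x 0 w :=
    continuous_iff_continuousAt.2 fun x => (hasDerivAt_ev_x x 0 w).continuousAt
  have hcw' : Continuous fun x : ℝ => ev x 0 (pDX w) :=
    continuous_iff_continuousAt.2 fun x => (hasDerivAt_ev_x x 0 (pDX w)).continuousAt
  have hd : ∀ x : ℝ, HasDerivAt (fun t => ev t 0 w * (S t 0).u ^ 2)
      (ev x 0 (pDX w) * (S x 0).u ^ 2 + 2 * ev x 0 w * (S x 0).u * ((S x 0).p / mf x)) x := by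
    intro x
    refine ((hasDerivAt_ev_x x 0 w).fun_mul ((hjs.ux x 0).fun_pow 2)).congr_deriv ?_
    push_cast
    ring
  have hcg : Continuous fun x : ℝ =>
      ev x 0 (pDX w) * (S x 0).u ^ 2 + 2 * ev x 0 w * (S x 0).u * ((S x 0).p / mf x) :=
    (hcw'.mul (hcu.pow 2)).add (((continuous_const.mul hcw).mul hcu).mul
      (hcp.div hcm fun x => (QUE2_mpos x).ne'))
  refine ⟨hcg, ?_⟩
  rw [intervalIntegral.integral_eq_sub_of_hasDerivAt (fun x _ => hd x) (hcg.intervalIntegrable 0 1)]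
  have a0 : ev 0 0 w = 0 := by
    rw [← QUE2_atx0 0 0 w]
    exact ev_isZ 0 0 _ h2
  have a1 : ev 1 0 w = 0 := by
    rw [← QUE2_atx1 0 0 w]
    exact ev_isZ 0 0 _ h3
  rw [a0, a1]
  ring

/-- integration of the pointwise inequality -/
private theorem QUE2_le (S : ℝ → ℝ → St) (Z E : ℝ → ℝ → ℝ) (hjs : JS S Z E) (w : P)
    (h2 : isZ (atx0 w) = true) (h3 : isZ (atx1 w) = true) (f : ℝ → ℝ)
    (hpt : ∀ x : ℝ, 0 ≤ x → x ≤ 1 →
      f x ≤ mf x * ev x 0 (pDX w) * (S x 0).u ^ 2 + 2 * ev x 0 w * (S x 0).u * (S x 0).p) :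
    ∫ x in (0 : ℝ)..1, f x / mf x ≤ 0 := by
  obtain ⟨hcg, hint⟩ := QUE2_int S Z E hjs w h2 h3
  by_cases hi : IntervalIntegrable (fun x => f x / mf x) volume 0 1
  · refine (intervalIntegral.integral_mono_on zero_le_one hi (hcg.intervalIntegrable 0 1) ?_).trans
      (le_of_eq hint)
    intro x hx
    have hm := QUE2_mpos x
    rw [div_le_iff₀ hm]
    refine (hpt x hx.1 hx.2).trans (le_of_eq ?_)
    field_simp
  · rw [intervalIntegral.integral_undef hi]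

theorem q_axis (c : Sqd) (hc : c.Ok) (σ : Bool) (J : Jet) (hJ : J.Good)
    (A : ∀ x : ℝ, 0 ≤ x → x ≤ 1 → ROK (c.rA σ) x 0 (sv c.DL (FdC J) x 0)) :
    ∫ x in (0 : ℝ)..1, (Vy (c.gC σ) x 0 (sv c.DL (FdC J) x 0) + Vy (c.gC σ) x 0 (sv c.DL (FdC J.ry) x 0)) / mf x ≤ 0 := by
  obtain ⟨Z, E, hjs⟩ := js_AC J hJ
  exact QUE2_le (AC J) Z E hjs (c.wA σ) (hc.nA σ).2.1 (hc.nA σ).2.2 _ (QUE2_pt c hc σ J A)

end Pool.Agent.MCA
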