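import Pool.Agent.MCA.QUD
import Pool.Agent.MCA.RFF
import Pool.Agent.MCA.FLD
import Pool.Agent.MCA.CVX
import Pool.Agent.MSQ.RDiv
/-!
QUE3 (100 lines). The interface `y = 1` between core and sliver.

PROOF. `c.Ok.gam`: `covR_sound` gives a box containing `(x, 1)` (or `(x, 0)`: the polynomials `eGA` do not depend on `y`),
`BoxOK` with `G x hx` gives `0 ≤ qf (evE x 1 (eGA ..)) (sv DL (FdC J) x 1)`. `eGA_val`: `Vy gC - Vy gS` at the state
`s = sv (FdC J) x 1` plus null terms. The states of core and sliver at `y = 1`: `Vy g x 1` depends only on the entries `0, u, q, p,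
a, b, κ` (`Vyl`, `tv` with `wfG`, `VyK`); `FdC_G` gives equality of `u, q, p, κ`; for `a, b` (`FdC J).a x 1 = (FdS J).a x 1`
see the definitions of `FdC`, `FdS`; with `c.fc`, `c.fd` terms: `(x y / 2) (fc c + fd d)` - check that they agree too (the
entries `c, d` of both states). If some entry does not agree tell helper59 at once. `K3`: equal values of `K` at `y = 1`.
Null term as in QUE2: `d/dx (w u²)`, `w(0) = 0` (`nG`) and `u(1, 1) = 0` (`cor_u`).
-/
set_option autoImplicit false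

open MeasureTheory Set Pool.Agent.MSQ Pool.Agent.MTR Pool.Agent.MGF

namespace Pool.Agent.MCA

private theorem QUE3_N (y : ℝ) : 0 < Nf y := by
  unfold Nf
  positivity

private theorem QUE3_m (x : ℝ) : 0 < mf x := by
  unfold mf
  positivity

private theorem QUE3_tv (x y : ℝ) (s s' : List ℝ) (L : List Trm)
    (h : ∀ t ∈ L, s.getD t.1 0 = s'.getD t.1 0 ∧ s.getD t.2.1 0 = s'.getD t.2.1 0) :
    tv x y s L = tv x y s' L := by
  unfold tv
  congr 1
  apply List.map_congr_left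
  intro t ht
  obtain ⟨h1, h2⟩ := h t ht
  rw [h1, h2]

/-- `Vy` does not depend on `μ, ν` -/
private theorem QUE3_Vy (g : Ga) (hg : wfG g = true) (x y : ℝ) (s s' : List ℝ)
    (h : ∀ k : ℕ, k ≤ 7 ∨ k = 10 → s.getD k 0 = s'.getD k 0) : Vy g x y s = Vy g x y s' := by
  simp only [wfG, Bool.and_eq_true, List.all_eq_true, decide_eq_true_eq, Bool.or_eq_true, beq_iff_eq,
    or_assoc] at hg
  obtain ⟨⟨hG, hH⟩, hZ⟩ := hg
  unfold Vy Vyl VyK
  rw [QUE3_tv x y s s' g.G (fun t ht => by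
      have := hG t ht
      exact ⟨h _ (by omega), h _ (by omega)⟩),
    QUE3_tv x y s s' g.Z (fun t ht => by
      have := hZ t ht
      exact ⟨h _ (by omega), h _ (by omega)⟩),
    h 1 (by omega), h 2 (by omega), h 3 (by omega), h 4 (by omega), h 5 (by omega), h 6 (by omega),
    h 7 (by omega), h 10 (by omega)]

private theorem QUE3_st (DL : Int) (J : Jet) (x : ℝ) (k : ℕ) (hk : k ≤ 7 ∨ k = 10) :
    (sv DL (FdS J) x 1).getD k 0 = (sv DL (FdC J) x 1).getD k 0 := by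
  obtain ⟨h1, h2, h3, h4⟩ := FdC_G J x
  have h5 : k = 0 ∨ k = 1 ∨ k = 2 ∨ k = 3 ∨ k = 4 ∨ k = 5 ∨ k = 6 ∨ k = 7 ∨ k = 10 := by omega
  rcases h5 with rfl | rfl | rfl | rfl | rfl | rfl | rfl | rfl | rfl
  · rfl
  · exact h1.symm
  · exact h2.symm
  · exact h3.symm
  · rfl
  · rfl
  · rfl
  · rfl
  · exact h4.symm

private theorem QUE3_atx0 (x y : ℝ) (p : P) : ev x y (atx0 p) = ev 0 y p := by
  cases p with
  | nil => rfl
  | cons a l => simp [atx0, ev]

/-- pointwise inequality -/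
private theorem QUE3_key (c : Sqd) (hc : c.Ok) (σ : Bool) (J : Jet)
    (G : ∀ x : ℝ, 0 ≤ x → x ≤ 1 → ROK (c.rG σ) x 1 (sv c.DL (FdC J) x 1)) (x : ℝ) (hx0 : 0 ≤ x) (hx1 : x ≤ 1) :
    -(1 / Nf 1 ^ 3) * (ev x 0 (pDX (c.wG σ)) * (AC J x 1).u ^ 2 +
      ev x 0 (c.wG σ) * (2 * (AC J x 1).u * ((AC J x 1).p / mf x))) ≤
    (Vy (c.gC σ) x 1 (sv c.DL (FdC J) x 1) - Vy (c.gS σ) x 1 (sv c.DL (FdS J) x 1)) / mf x := by
  obtain ⟨L, hL, hB⟩ := hc.gam σ
  have hN := QUE3_N 1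
  have hm := QUE3_m x
  obtain ⟨col, hcol, b, hb, hin⟩ := covR_sound 0 1 L hL x 1 hx0 hx1 (by norm_num) (by norm_num)
  have h1 := hB col hcol b hb x 1 hin (sv c.DL (FdC J) x 1) rfl (G x hx0 hx1)
  rw [eGA_val c.DL _ _ (hc.wC σ) (hc.wS σ) _ x 1 _ (SV_sv c.DL hc.pDL _ x 1) (hc.nG σ).1] at h1
  have hK : ev x 1 (c.gC σ).K = ev x 1 (c.gS σ).K := by
    have h3 := ev_eqP x 1 _ _ (hc.K3 σ)
    rwa [ev_at1, ev_at1] at h3
  have hK2 : VyK (c.gC σ).K x 1 (sv c.DL (FdC J) x 1) = VyK (c.gS σ).K x 1 (sv c.DL (FdC J) x 1) := by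
    unfold VyK
    rw [hK]
  rw [QUE3_Vy (c.gS σ) (hc.wS σ) x 1 _ _ (QUE3_st c.DL J x)]
  rw [hK2] at h1
  have e1 : (sv c.DL (FdC J) x 1).getD 1 0 = (AC J x 1).u := rfl
  have e3 : (sv c.DL (FdC J) x 1).getD 3 0 = (AC J x 1).p := rfl
  rw [e1, e3] at h1
  generalize Vy (c.gC σ) x 1 (sv c.DL (FdC J) x 1) = V at *
  generalize Vy (c.gS σ) x 1 (sv c.DL (FdC J) x 1) = V' at *
  generalize VyK (c.gS σ).K x 1 (sv c.DL (FdC J) x 1) = K at *
  generalize (AC J x 1).u = u at *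
  generalize (AC J x 1).p = p at *
  generalize ev x 0 (pDX (c.wG σ)) = w' at *
  generalize ev x 0 (c.wG σ) = w at *
  generalize mf x = m at *
  have hN3 : 0 < Nf 1 ^ 3 := by positivity
  generalize Nf 1 ^ 3 = N at *
  rw [le_div_iff₀ hm]
  have h2 : -(1 / N) * (w' * u ^ 2 + w * (2 * u * (p / m))) * m =
      -((m * w' * u ^ 2 + 2 * w * u * p) / N) := by
    field_simp
  rw [h2]
  have h3 : -(V - V') ≤ (m * w' * u ^ 2 + 2 * w * u * p) / N := by
    rw [le_div_iff₀ hN3]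
    linarith
  linarith

private theorem QUE3_int (u p w w' V : ℝ → ℝ) (N : ℝ) (hcu : Continuous u) (hcp : Continuous p)
    (hcw : Continuous w) (hcw' : Continuous w') (hu : ∀ x, HasDerivAt u (p x / mf x) x)
    (hw : ∀ x, HasDerivAt w (w' x) x) (h0 : w 0 = 0) (h1 : u 1 = 0)
    (hV : ∀ x : ℝ, 0 ≤ x → x ≤ 1 → -(1 / N) * (w' x * u x ^ 2 + w x * (2 * u x * (p x / mf x))) ≤ V x) :
    0 ≤ ∫ x in (0 : ℝ)..1, V x := by
  by_cases hI : IntervalIntegrable V volume 0 1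
  swap
  · rw [intervalIntegral.integral_undef hI]
  have hcm : Continuous mf := by
    unfold mf
    fun_prop
  have hd : ∀ x : ℝ, HasDerivAt (fun t => w t * u t ^ 2)
      (w' x * u x ^ 2 + w x * (2 * u x * (p x / mf x))) x := by
    intro x
    refine ((hw x).fun_mul ((hu x).fun_pow 2)).congr_deriv ?_
    norm_num
  have hcd : Continuous fun x => w' x * u x ^ 2 + w x * (2 * u x * (p x / mf x)) :=
    (hcw'.mul (hcu.pow 2)).add (hcw.mul ((continuous_const.mul hcu).mul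
      (hcp.div hcm fun x => (QUE3_m x).ne')))
  have hint := intervalIntegral.integral_eq_sub_of_hasDerivAt (fun x _ => hd x)
    (hcd.intervalIntegrable 0 1)
  rw [h0, h1] at hint
  have hcd2 : Continuous fun x => -(1 / N) * (w' x * u x ^ 2 + w x * (2 * u x * (p x / mf x))) :=
    continuous_const.mul hcd
  have hle : (∫ x in (0 : ℝ)..1, -(1 / N) * (w' x * u x ^ 2 + w x * (2 * u x * (p x / mf x)))) ≤
      ∫ x in (0 : ℝ)..1, V x :=
    intervalIntegral.integral_mono_on zero_le_one (hcd2.intervalIntegrable 0 1) hI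
      (fun x hx => hV x hx.1 hx.2)
  rw [intervalIntegral.integral_const_mul, hint] at hle
  linarith

private theorem QUE3_S (S : ℝ → ℝ → St) (Z E : ℝ → ℝ → ℝ) (h : JS S Z E) :
    (Continuous fun x => (S x 1).u) ∧ (Continuous fun x => (S x 1).p) ∧
      ∀ x, HasDerivAt (fun t => (S t 1).u) ((S x 1).p / mf x) x :=
  ⟨h.cu.comp (continuous_id.prodMk continuous_const), h.cp.comp (continuous_id.prodMk continuous_const),
    fun x => h.ux x 1⟩

theorem q_gam (c : Sqd) (hc : c.Ok) (σ : Bool) (J : Jet) (hJ : J.Good) (hcor : J.f (cc, cc) = cc)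
    (G : ∀ x : ℝ, 0 ≤ x → x ≤ 1 → ROK (c.rG σ) x 1 (sv c.DL (FdC J) x 1)) :
    0 ≤ ∫ x in (0 : ℝ)..1, (Vy (c.gC σ) x 1 (sv c.DL (FdC J) x 1) - Vy (c.gS σ) x 1 (sv c.DL (FdS J) x 1)) / mf x := by
  obtain ⟨Z, E, cy, dy, hF⟩ := fok_C J hJ
  obtain ⟨hcu, hcp, hux⟩ := QUE3_S (FdC J).S Z E hF.js
  have hcw : Continuous fun x => ev x 0 (c.wG σ) :=
    continuous_iff_continuousAt.2 fun x => (hasDerivAt_ev_x x 0 (c.wG σ)).continuousAt
  have hcw' : Continuous fun x => ev x 0 (pDX (c.wG σ)) :=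
    continuous_iff_continuousAt.2 fun x => (hasDerivAt_ev_x x 0 (pDX (c.wG σ))).continuousAt
  have h0 : ev 0 0 (c.wG σ) = 0 := by
    have := ev_isZ 0 0 _ (hc.nG σ).2
    rwa [QUE3_atx0] at this
  exact QUE3_int (fun x => ((FdC J).S x 1).u) (fun x => ((FdC J).S x 1).p) (fun x => ev x 0 (c.wG σ))
    (fun x => ev x 0 (pDX (c.wG σ))) _ (Nf 1 ^ 3) hcu hcp hcw hcw' hux
    (fun x => hasDerivAt_ev_x x 0 (c.wG σ)) h0 (cor_u J hcor)
    (fun x hx0 hx1 => QUE3_key c hc σ J G x hx0 hx1)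

end Pool.Agent.MCA
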