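import Pool.Agent.MCA.DVL
import Pool.Agent.MCA.FLD
/-!
SDF. The side functionals in terms of the states.
-/
set_option autoImplicit false

open MeasureTheory Set Pool.Agent.MSQ Pool.Agent.MTR Pool.Agent.MGF

namespace Pool.Agent.MCA

private theorem SDF_r2 : (√2 : ℝ) ^ 2 = 2 := Real.sq_sqrt (by norm_num)
private theorem SDF_r3 : (√3 : ℝ) ^ 2 = 3 := Real.sq_sqrt (by norm_num)
private theorem SDF_r2pos : (0 : ℝ) < √2 := by positivity
private theorem SDF_r3pos : (0 : ℝ) < √3 := by positivity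

private theorem SDF_mpos (x : ℝ) : 0 < mf x := by unfold mf; positivity
private theorem SDF_wpos (x : ℝ) : 0 < wf x := Real.sqrt_pos.2 (SDF_mpos x)
private theorem SDF_w2 (x : ℝ) : wf x ^ 2 = mf x := Real.sq_sqrt (SDF_mpos x).le
private theorem SDF_Npos (y : ℝ) : 0 < Nf y := Real.sqrt_pos.2 (by positivity)
private theorem SDF_N2 (y : ℝ) : Nf y ^ 2 = 1 + y ^ 2 / 3 := Real.sq_sqrt (by positivity)
private theorem SDF_cc : cc ^ 2 = 1 / 2 := by
  unfold cc
  rw [div_pow, one_pow, Real.sq_sqrt (by norm_num)]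
private theorem SDF_ccpos : 0 < cc := by unfold cc; positivity

private theorem SDF_sq {a b : ℝ} (ha : 0 ≤ a) (hb : 0 ≤ b) (h : a ^ 2 = b ^ 2) : a = b := by
  have := abs_eq_abs.2 (sq_eq_sq_iff_eq_or_eq_neg.1 h)
  rwa [abs_of_nonneg ha, abs_of_nonneg hb] at this

/-! evaluation -/

private theorem SDF_inY (x y : ℝ) (l : List Int) : ev x y (inY l) = evL y l := by
  simp [inY, ev]

private theorem SDF_inX (x y : ℝ) (l : List Int) : ev x y (inX l) = evL x l := by
  induction l with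
  | nil => simp [inX, ev, evL]
  | cons a l ih =>
    simp only [inX] at ih
    simp [inX, ev, evL, ih]

private theorem SDF_one (x y : ℝ) : ev x y oneP = 1 := by
  simp [oneP, ev, evL]

private theorem SDF_map (x y : ℝ) (L : List P) (s : List ℝ) :
    dotL (evE x y (L.map (NN 3))) s = 27 * Nf y ^ 6 * dotL (evE x y L) s := by
  induction L generalizing s with
  | nil => simp [evE, dotL]
  | cons a L ih =>
    cases s with
    | nil => simp [evE, dotL]
    | cons b s =>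
      have h := ih s
      simp only [evE] at h
      simp only [evE, List.map_cons, dotL, h, ev_NN3]
      ring

private theorem SDF_mul (x y : ℝ) (A B : LF) (s : List ℝ) (hs : s.length = 11) (hA : A.length = 11)
    (hB : B.length = 11) : qf (evE x y (qMul A B)) s = lv x y A s * lv x y B s :=
  qf_qMul x y A B s (hA.trans hs.symm) (hB.trans hs.symm)

private theorem SDF_sumQ3 (x y : ℝ) (A B C : LF) (s : List ℝ) :
    lv x y (sumQ [A, B, C]) s = lv x y A s + (lv x y B s + lv x y C s) := by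
  unfold lv
  rw [dotL_sumQ]
  simp only [List.map_cons, List.map_nil, List.sum_cons, List.sum_nil, add_zero]

private theorem SDF_len3 (A B C : LF) (hA : A.length = 11) (hB : B.length = 11) (hC : C.length = 11) :
    (sumQ [A, B, C]).length = 11 := by
  have h : sumQ [A, B, C] = qAdd A (qAdd B (qAdd C [])) := rfl
  have h2 : qAdd C [] = C := by
    show addL pAdd C [] = C
    cases C <;> rfl
  rw [h, h2]
  exact qAdd_length _ _ _ hA (qAdd_length _ _ _ hB hC)

private theorem SDF_dnX_len (l : P) : (dnX l).length = 11 :=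
  SDF_len3 _ _ _ (eS_length 1 (by norm_num) _) (eS_length 2 (by norm_num) _) (eS_length 3 (by norm_num) _)
private theorem SDF_dtC_len (l : P) : (dtC l).length = 11 :=
  SDF_len3 _ _ _ (eS_length 1 (by norm_num) _) (eS_length 2 (by norm_num) _) (eS_length 3 (by norm_num) _)

private theorem SDF_negP (x y : ℝ) (f : P) : ev x y (negP f) = -ev x y f := by
  unfold negP
  rw [ev_pSm]
  push_cast
  ring

private theorem SDF_dnX (x y : ℝ) (l : P) (s : List ℝ) :
    lv x y (dnX l) s = ev x y l * (s.getD 1 0 - y * s.getD 2 0 + 2 * s.getD 3 0) := by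
  unfold dnX
  rw [SDF_sumQ3, lv_eS, lv_eS, lv_eS, SDF_negP, ev_pY, ev_pSm]
  push_cast
  ring
private theorem SDF_dtC (x y : ℝ) (l : P) (s : List ℝ) :
    lv x y (dtC l) s = ev x y l * (x * s.getD 1 0 - x * y * s.getD 2 0 + 2 * s.getD 3 0) := by
  unfold dtC
  rw [SDF_sumQ3, lv_eS, lv_eS, lv_eS, SDF_negP, ev_pX, ev_pX, ev_pY, ev_pSm]
  push_cast
  ring

private theorem SDF_M2 (x y : ℝ) (p : P) : ev x y (M2 p) = 2 * mf x * ev x y p := by
  rw [ev_M2]
  unfold mf
  ring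

private theorem SDF_li (c : Int) (x y : ℝ) (k : ℕ) (hk : k ≤ 10) (l : P) (s : List ℝ)
    (hs : s.length = 11) : qf (evE x y (qMul (eS 0 (cP c)) ((eS k l).map (NN 3)))) s =
      c * s.getD 0 0 * (27 * Nf y ^ 6 * (ev x y l * s.getD k 0)) := by
  rw [SDF_mul x y _ _ s hs (eS_length 0 (by norm_num) _) (by rw [List.length_map]; exact eS_length k hk _),
    lv_eS, ev_cP]
  have h1 : lv x y ((eS k l).map (NN 3)) s = 27 * Nf y ^ 6 * (ev x y l * s.getD k 0) := by
    unfold lv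
    rw [SDF_map]
    have := lv_eS x y k l s
    unfold lv at this
    rw [this]
  rw [h1]

private theorem SDF_fX (DL kf : Int) (hDL : 0 < DL) (F : List (List Int)) (x y u q p : ℝ) (s : List ℝ)
    (hs : s.length = 11) (h0 : s.getD 0 0 = 1 / (DL * Nf y ^ 3)) (h1 : s.getD 1 0 = u)
    (h2 : s.getD 2 0 = q) (h3 : s.getD 3 0 = p) :
    qf (evE x y (fX DL kf F)) s = kf * (324 * Nf y ^ 3 * (evL y (F.getD 0 []) * u) +
      432 * (evL y (F.getD 1 []) * q ^ 2) +
      144 * (evL y (F.getD 2 []) * (q * (u - y * q + 2 * p))) +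
      144 * (evL y (F.getD 3 []) * (u * (u - y * q + 2 * p))) +
      432 * (evL y (F.getD 4 []) * u ^ 2) +
      48 * (evL y (F.getD 5 []) * (u - y * q + 2 * p) ^ 2) +
      432 * (evL y (F.getD 6 []) * (u * q))) := by
  have hD : (DL : ℝ) ≠ 0 := by exact_mod_cast hDL.ne'
  have hN := (SDF_Npos y).ne'
  unfold fX li
  simp only []
  rw [qf_sumQ]
  simp only [List.map_cons, List.map_nil, List.sum_cons, List.sum_nil]
  rw [SDF_li _ x y 1 (by norm_num) _ s hs, qf_sS x y 2 2 (by norm_num) (by norm_num) _ s hs,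
    SDF_mul x y _ _ s hs (eS_length 2 (by norm_num) _) (SDF_dnX_len _),
    SDF_mul x y _ _ s hs (eS_length 1 (by norm_num) _) (SDF_dnX_len _),
    qf_sS x y 1 1 (by norm_num) (by norm_num) _ s hs,
    SDF_mul x y _ _ s hs (SDF_dnX_len _) (SDF_dnX_len _),
    qf_sS x y 1 2 (by norm_num) (by norm_num) _ s hs]
  simp only [lv_eS, SDF_dnX, ev_pSm, SDF_inY, SDF_one, h0, h1, h2, h3]
  push_cast
  have e1 : 4 * (DL : ℝ) * (1 / (DL * Nf y ^ 3)) * (27 * Nf y ^ 6 * (3 * (kf * evL y (F.getD 0 [])) * u)) =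
      kf * (324 * Nf y ^ 3 * (evL y (F.getD 0 []) * u)) := by
    field_simp
    ring
  rw [e1]
  ring

private theorem SDF_fC (DL kf : Int) (hDL : 0 < DL) (F : List (List Int)) (x y u q p : ℝ) (s : List ℝ)
    (hs : s.length = 11) (h0 : s.getD 0 0 = 1 / (DL * Nf y ^ 3)) (h1 : s.getD 1 0 = u)
    (h2 : s.getD 2 0 = q) (h3 : s.getD 3 0 = p) :
    qf (evE x y (fC DL kf F)) s = kf * (-216 * Nf y ^ 3 * mf x ^ 2 * y * (evL x (F.getD 0 []) * u) +
      72 * y ^ 3 * (evL x (F.getD 1 []) * (x * u - x * y * q + 2 * p) ^ 2) +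
      216 * y ^ 2 * (evL x (F.getD 2 []) * (q * (x * u - x * y * q + 2 * p))) +
      648 * (evL x (F.getD 3 []) * (u * q)) +
      432 * mf x * y * (evL x (F.getD 4 []) * u ^ 2) +
      648 * y * (evL x (F.getD 5 []) * q ^ 2) +
      216 * y * (evL x (F.getD 6 []) * (u * (x * u - x * y * q + 2 * p)))) := by
  have hD : (DL : ℝ) ≠ 0 := by exact_mod_cast hDL.ne'
  have hN := (SDF_Npos y).ne'
  unfold fC
  simp only []
  rw [qf_sumQ]
  simp only [List.map_cons, List.map_nil, List.sum_cons, List.sum_nil]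
  rw [SDF_li _ x y 1 (by norm_num) _ s hs,
    SDF_mul x y _ _ s hs (SDF_dtC_len _) (SDF_dtC_len _),
    SDF_mul x y _ _ s hs (eS_length 2 (by norm_num) _) (SDF_dtC_len _),
    qf_sS x y 1 2 (by norm_num) (by norm_num) _ s hs,
    qf_sS x y 1 1 (by norm_num) (by norm_num) _ s hs,
    qf_sS x y 2 2 (by norm_num) (by norm_num) _ s hs,
    SDF_mul x y _ _ s hs (eS_length 1 (by norm_num) _) (SDF_dtC_len _)]
  simp only [lv_eS, SDF_dtC, ev_pSm, ev_pY, SDF_M2, SDF_inX, SDF_one, h0, h1, h2, h3]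
  push_cast
  have e1 : -2 * (DL : ℝ) * (1 / (DL * Nf y ^ 3)) *
      (27 * Nf y ^ 6 * (2 * mf x * (2 * mf x * (y * (kf * evL x (F.getD 0 [])))) * u)) =
      kf * (-216 * Nf y ^ 3 * mf x ^ 2 * y * (evL x (F.getD 0 []) * u)) := by
    field_simp
    ring
  rw [e1]
  ring

/-- value of the side functional -/
private theorem SDF_FL (DF : Int) (hDF : 0 < DF) (kf : ℝ) (Fl : List (List Int)) (t D Dt e : ℝ) :
    kf * DF * (√3 / cc * FL DF Fl t (√2 * D / 2 + (1 - t) / 2 * Dt) (√2 * D / 2 - (1 + t) / 2 * Dt) e) =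
      kf * (√3 * (evL t (Fl.getD 0 []) * (√2 * D)) + √3 * √2 / lt t ^ 3 *
        (evL t (Fl.getD 1 []) * Dt ^ 2 + evL t (Fl.getD 2 []) * (Dt * e) +
          evL t (Fl.getD 3 []) * (√2 * D * e) + evL t (Fl.getD 4 []) * (√2 * D) ^ 2 +
          evL t (Fl.getD 5 []) * e ^ 2 + evL t (Fl.getD 6 []) * (√2 * D * Dt))) := by
  have hD : (DF : ℝ) ≠ 0 := by exact_mod_cast hDF.ne'
  have hr := SDF_r2pos.ne'
  have hl := (lt_pos t).ne'
  have e1 : (1 + t) * (√2 * D / 2 + (1 - t) / 2 * Dt) + (1 - t) * (√2 * D / 2 - (1 + t) / 2 * Dt) = √2 * D := by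
    ring
  have e2 : (√2 * D / 2 + (1 - t) / 2 * Dt) - (√2 * D / 2 - (1 + t) / 2 * Dt) = Dt := by ring
  unfold FL FF
  rw [e1, e2]
  have e3 : √3 / cc = √3 * √2 := by
    unfold cc
    field_simp
  rw [e3]
  generalize evL t (Fl.getD 0 []) = f0
  generalize evL t (Fl.getD 1 []) = f1
  generalize evL t (Fl.getD 2 []) = f2
  generalize evL t (Fl.getD 3 []) = f3
  generalize evL t (Fl.getD 4 []) = f4
  generalize evL t (Fl.getD 5 []) = f5
  generalize evL t (Fl.getD 6 []) = f6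
  generalize f1 * Dt ^ 2 + f2 * (Dt * e) + f3 * (√2 * D * e) + f4 * (√2 * D) ^ 2 + f5 * e ^ 2 +
    f6 * (√2 * D * Dt) = G
  field_simp

theorem fX_val (DL kf DF : Int) (hDL : 0 < DL) (hDF : 0 < DF) (Fl : List (List Int)) (J : Jet) (y : ℝ) :
    qf (evE 1 y (fX DL kf Fl)) (sv DL (FdC J) 1 y) =
      108 * Nf y ^ 3 * (kf * DF * (√3 / cc * dXp (FL DF Fl) J y)) := by
  have hN := SDF_Npos y
  have h2 := SDF_r2
  have h3 := SDF_r3
  have p2 := SDF_r2pos
  have p3 := SDF_r3pos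
  have hw : wf 1 = √3 / √2 := by
    refine SDF_sq (SDF_wpos 1).le (by positivity) ?_
    rw [SDF_w2, div_pow, h2, h3]
    unfold mf
    norm_num
  have hY : wf 1 * y / √3 = cc * y := by
    rw [hw]
    unfold cc
    field_simp
  have hl : lt y = √3 / √2 * Nf y := by
    refine SDF_sq (lt_pos y).le (by positivity) ?_
    unfold lt
    rw [Real.sq_sqrt (by positivity), mul_pow, SDF_N2, div_pow, h2, h3]
    ring
  have hu : √2 * (cc - J.f (cc, cc * y)) = √3 * (AC J 1 y).u := by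
    rw [FdC_one]
    show √2 * (cc - J.f (cc, cc * y)) = √3 * ((cc - J.f (cc, wf 1 * y / √3)) / wf 1)
    rw [hY, hw]
    field_simp
  have hq : -J.fY (cc, cc * y) = √3 * (AC J 1 y).q := by
    show -J.fY (cc, cc * y) = √3 * (0 - J.fY (cc * 1, wf 1 * y / √3) / √3)
    rw [hY, mul_one]
    field_simp
    ring
  have hn : (AC J 1 y).u - y * (AC J 1 y).q + 2 * (AC J 1 y).p = √3 * (1 / 2 - J.fX (cc, cc * y)) := by
    have hp : (AC J 1 y).p = cc * 1 / (4 * wf 1) - cc * (wf 1 * J.fX (cc * 1, wf 1 * y / √3) +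
        cc * 1 * y * J.fY (cc * 1, wf 1 * y / √3) / √3 -
        cc * 1 * J.f (cc * 1, wf 1 * y / √3) / wf 1) := rfl
    have hq' : (AC J 1 y).q = -J.fY (cc, cc * y) / √3 := by
      rw [hq]
      field_simp
    have hu' : (AC J 1 y).u = √2 * (cc - J.f (cc, cc * y)) / √3 := by
      rw [hu]
      field_simp
    rw [hp, hq', hu', hY, mul_one, hw]
    generalize J.f (cc, cc * y) = a
    generalize J.fX (cc, cc * y) = b
    generalize J.fY (cc, cc * y) = c
    unfold cc
    field_simp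
    rw [h2]
    linear_combination (-8 : ℝ) * h3
  rw [SDF_fX DL kf hDL Fl 1 y (AC J 1 y).u (AC J 1 y).q (AC J 1 y).p (sv DL (FdC J) 1 y) rfl rfl rfl rfl rfl]
  unfold dXp
  rw [SDF_FL DF hDF kf Fl y, hu, hq, hn, hl]
  generalize 1 / 2 - J.fX (cc, cc * y) = e
  generalize (AC J 1 y).u = u
  generalize (AC J 1 y).q = q
  have e1 : √3 * √2 / (√3 / √2 * Nf y) ^ 3 = 4 / (3 * Nf y ^ 3) := by
    have a2 : (√2 : ℝ) ^ 3 = 2 * √2 := by rw [pow_succ, h2]
    have a3 : (√3 : ℝ) ^ 3 = 3 * √3 := by rw [pow_succ, h3]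
    rw [mul_pow, div_pow, a2, a3]
    field_simp
    rw [h2]
    norm_num
  rw [e1]
  have e2 : √3 * (evL y (Fl.getD 0 []) * (√3 * u)) = 3 * (evL y (Fl.getD 0 []) * u) := by
    linear_combination evL y (Fl.getD 0 []) * u * h3
  have e3 : evL y (Fl.getD 1 []) * (√3 * q) ^ 2 + evL y (Fl.getD 2 []) * (√3 * q * e) +
      evL y (Fl.getD 3 []) * (√3 * u * e) + evL y (Fl.getD 4 []) * (√3 * u) ^ 2 +
      evL y (Fl.getD 5 []) * e ^ 2 + evL y (Fl.getD 6 []) * (√3 * u * (√3 * q)) =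
      3 * (evL y (Fl.getD 1 []) * q ^ 2) + evL y (Fl.getD 2 []) * (q * (√3 * e)) +
      evL y (Fl.getD 3 []) * (u * (√3 * e)) + 3 * (evL y (Fl.getD 4 []) * u ^ 2) +
      evL y (Fl.getD 5 []) * (√3 * e) ^ 2 / 3 + 3 * (evL y (Fl.getD 6 []) * (u * q)) := by
    linear_combination (evL y (Fl.getD 1 []) * q ^ 2 + evL y (Fl.getD 4 []) * u ^ 2 +
      evL y (Fl.getD 6 []) * (u * q) - evL y (Fl.getD 5 []) * e ^ 2 / 3) * h3
  rw [e2, e3]
  field_simp
  ring

theorem fC_val (DL kf DF : Int) (hDL : 0 < DL) (hDF : 0 < DF) (Fl : List (List Int)) (J : Jet) (x : ℝ) :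
    qf (evE x (yt x) (fC DL kf Fl)) (sv DL (FdS J) x (yt x)) =
      108 * Nf (yt x) ^ 3 * (mf x * (kf * DF * (√3 / cc * dYp (FL DF Fl) J x))) := by
  have h2 := SDF_r2
  have h3 := SDF_r3
  have p2 := SDF_r2pos
  have p3 := SDF_r3pos
  have hm := SDF_mpos x
  have hw := SDF_wpos x
  have hw2 := SDF_w2 x
  have hy2 : yt x ^ 2 * mf x = 3 / 2 := by
    have : yt x ^ 2 = 3 / (2 + x ^ 2) := Real.sq_sqrt (by positivity)
    rw [this]
    unfold mf
    field_simp
  have hy0 : 0 ≤ yt x := Real.sqrt_nonneg _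
  have hyp : 0 < yt x := by
    rcases hy0.lt_or_eq with h | h
    · exact h
    · rw [← h] at hy2
      norm_num at hy2
  -- `√2 w y = √3`
  have hwy : √2 * (wf x * yt x) = √3 := by
    refine SDF_sq (by positivity) p3.le ?_
    rw [mul_pow, mul_pow, hw2, h2, h3]
    linear_combination 2 * hy2
  have hY : wf x * yt x / √3 = cc := by
    unfold cc
    rw [← hwy]
    field_simp
  have hN2 := SDF_N2 (yt x)
  have hN := SDF_Npos (yt x)
  have hlf : lf (cc * x, cc) = wf x * Nf (yt x) := by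
    refine SDF_sq (Real.sqrt_nonneg _) (by positivity) ?_
    unfold lf
    rw [Real.sq_sqrt (by positivity)]
    show 1 + (cc * x) ^ 2 + cc ^ 2 = (wf x * Nf (yt x)) ^ 2
    rw [mul_pow, mul_pow, hw2, hN2, SDF_cc]
    have : mf x = 1 + x ^ 2 / 2 := rfl
    linear_combination (-1 / 3 : ℝ) * hy2 - this
  have hl : lt x = wf x * Nf (yt x) := by
    refine SDF_sq (lt_pos x).le (by positivity) ?_
    unfold lt
    rw [Real.sq_sqrt (by positivity), mul_pow, hw2, hN2]
    have : mf x = 1 + x ^ 2 / 2 := rfl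
    linear_combination (-1 / 3 : ℝ) * hy2 - this
  have hccw : cc / wf x = yt x / √3 := by
    rw [← hY]
    field_simp
  have hu : √2 * (cc - (lf (cc * x, cc) - J.f (cc * x, cc))) = -√2 * wf x * (AS J x (yt x)).u := by
    rw [FdS_curve]
    show √2 * (cc - (lf (cc * x, cc) - J.f (cc * x, cc))) =
      -√2 * wf x * (-((cc - (lf (cc * x, cc) - J.f (cc * x, cc))) / wf x))
    field_simp
  have hq : 1 / 2 - (lJ.fY (cc * x, cc) - J.fY (cc * x, cc)) = -√3 * (AS J x (yt x)).q := by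
    have hq' : (AS J x (yt x)).q = yt x / (3 * Nf (yt x)) - 1 / (2 * √3) -
        J.fY (cc * x, wf x * yt x / √3) / √3 := rfl
    have hf : lJ.fY (cc * x, cc) = cc / lf (cc * x, cc) := rfl
    rw [hq', hY, hf, hlf]
    have e1 : cc / (wf x * Nf (yt x)) = yt x / (√3 * Nf (yt x)) := by
      rw [← div_div, hccw, div_div]
    have e2 : √3 * (yt x / (3 * Nf (yt x))) = yt x / (√3 * Nf (yt x)) := by
      field_simp
      rw [h3]
    have e3 : √3 * (1 / (2 * √3)) = 1 / 2 := by field_simp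
    have e4 : √3 * (J.fY (cc * x, cc) / √3) = J.fY (cc * x, cc) := by field_simp
    rw [e1]
    linear_combination e2 - e3 - e4
  have hn : -(lJ.fX (cc * x, cc) - J.fX (cc * x, cc)) = -yt x / √3 *
      (x * (AS J x (yt x)).u - x * yt x * (AS J x (yt x)).q + 2 * (AS J x (yt x)).p) := by
    have hq' : (AS J x (yt x)).q = yt x / (3 * Nf (yt x)) - 1 / (2 * √3) -
        J.fY (cc * x, wf x * yt x / √3) / √3 := rfl
    have hu' : (AS J x (yt x)).u = Nf (yt x) - yt x / (2 * √3) - cc / (2 * wf x) -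
        J.f (cc * x, wf x * yt x / √3) / wf x := rfl
    have hp' : (AS J x (yt x)).p = cc * x / (4 * wf x) - cc * (wf x * J.fX (cc * x, wf x * yt x / √3) +
        cc * x * yt x * J.fY (cc * x, wf x * yt x / √3) / √3 -
        cc * x * J.f (cc * x, wf x * yt x / √3) / wf x) := rfl
    have hf : lJ.fX (cc * x, cc) = cc * x / lf (cc * x, cc) := rfl
    have hc2 : 2 * cc = √2 := by
      unfold cc
      field_simp
      rw [h2]
    have e0 : x * (AS J x (yt x)).u - x * yt x * (AS J x (yt x)).q + 2 * (AS J x (yt x)).p =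
        x / Nf (yt x) - √2 * (wf x * J.fX (cc * x, cc)) := by
      rw [hq', hu', hp', hY]
      have a1 : Nf (yt x) - yt x * (yt x / (3 * Nf (yt x))) = 1 / Nf (yt x) := by
        field_simp
        linear_combination 3 * hN2
      linear_combination x * a1 + (-(x * yt x * J.fY (cc * x, cc) / √3) +
        x * J.f (cc * x, cc) / wf x) * 2 * SDF_cc - wf x * J.fX (cc * x, cc) * hc2
    rw [e0, hf, hlf]
    have e1 : cc * x / (wf x * Nf (yt x)) = yt x / √3 * (x / Nf (yt x)) := by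
      rw [← hccw]
      field_simp
    rw [e1]
    have e2 : yt x / √3 * (√2 * (wf x * J.fX (cc * x, cc))) = J.fX (cc * x, cc) := by
      have : yt x / √3 * (√2 * (wf x * J.fX (cc * x, cc))) =
        (√2 * (wf x * yt x)) / √3 * J.fX (cc * x, cc) := by ring
      rw [this, hwy]
      field_simp
    linear_combination -e2
  rw [SDF_fC DL kf hDL Fl x (yt x) (AS J x (yt x)).u (AS J x (yt x)).q (AS J x (yt x)).p
    (sv DL (FdS J) x (yt x)) rfl rfl rfl rfl rfl]
  unfold dYp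
  rw [SDF_FL DF hDF kf Fl x, hu, hq, hn, hl]
  generalize (AS J x (yt x)).u = u
  generalize (AS J x (yt x)).q = q
  generalize (AS J x (yt x)).p = p
  generalize x * u - x * yt x * q + 2 * p = d
  rw [← hw2] at hy2 ⊢
  have e2 : √3 * √2 = 2 * (wf x * yt x) := by
    linear_combination wf x * yt x * h2 - √2 * hwy
  have e1 : 108 * Nf (yt x) ^ 3 * wf x ^ 2 * (√3 * √2 / (wf x * Nf (yt x)) ^ 3) = 216 * yt x := by
    rw [e2]
    field_simp
    norm_num
  have e3 : evL x (Fl.getD 1 []) * (-yt x / √3 * d) ^ 2 + evL x (Fl.getD 2 []) * (-yt x / √3 * d * (-√3 * q)) +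
      evL x (Fl.getD 3 []) * (-√2 * wf x * u * (-√3 * q)) + evL x (Fl.getD 4 []) * (-√2 * wf x * u) ^ 2 +
      evL x (Fl.getD 5 []) * (-√3 * q) ^ 2 + evL x (Fl.getD 6 []) * (-√2 * wf x * u * (-yt x / √3 * d)) =
      evL x (Fl.getD 1 []) * (yt x ^ 2 * d ^ 2 / 3) + evL x (Fl.getD 2 []) * (yt x * d * q) +
      evL x (Fl.getD 3 []) * (2 * (wf x * yt x) * wf x * u * q) + evL x (Fl.getD 4 []) * (2 * wf x ^ 2 * u ^ 2) +
      evL x (Fl.getD 5 []) * (3 * q ^ 2) + evL x (Fl.getD 6 []) * (u * d) := by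
    have a1 : (-yt x / √3 * d) ^ 2 = yt x ^ 2 * d ^ 2 / 3 := by
      rw [mul_pow, div_pow, h3]
      ring
    have a2 : -yt x / √3 * d * (-√3 * q) = yt x * d * q := by field_simp
    have a3 : -√2 * wf x * u * (-√3 * q) = 2 * (wf x * yt x) * wf x * u * q := by
      linear_combination wf x * u * q * e2
    have a4 : (-√2 * wf x * u) ^ 2 = 2 * wf x ^ 2 * u ^ 2 := by
      linear_combination wf x ^ 2 * u ^ 2 * h2
    have a5 : (-√3 * q) ^ 2 = 3 * q ^ 2 := by linear_combination q ^ 2 * h3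
    have a6 : -√2 * wf x * u * (-yt x / √3 * d) = u * d := by
      have : -√2 * wf x * u * (-yt x / √3 * d) = (√2 * (wf x * yt x)) / √3 * (u * d) := by ring
      rw [this, hwy]
      field_simp
    rw [a1, a2, a3, a4, a5, a6]
  rw [e3]
  generalize √3 * √2 / (wf x * Nf (yt x)) ^ 3 = R at e1
  have e4 : √3 * (evL x (Fl.getD 0 []) * (-√2 * wf x * u)) =
      -(2 * (wf x * yt x)) * wf x * (evL x (Fl.getD 0 []) * u) := by
    linear_combination -(wf x * (evL x (Fl.getD 0 []) * u)) * e2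
  rw [e4]
  linear_combination -(kf : ℝ) * (evL x (Fl.getD 1 []) * (yt x ^ 2 * d ^ 2 / 3) +
      evL x (Fl.getD 2 []) * (yt x * d * q) +
      evL x (Fl.getD 3 []) * (2 * (wf x * yt x) * wf x * u * q) + evL x (Fl.getD 4 []) * (2 * wf x ^ 2 * u ^ 2) +
      evL x (Fl.getD 5 []) * (3 * q ^ 2) + evL x (Fl.getD 6 []) * (u * d)) * e1 -
      kf * 432 * (evL x (Fl.getD 3 []) * (u * q)) * hy2

end Pool.Agent.MCA
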