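import Pool.Agent.MCA.Sem
/-!
SIH (80 lines). The side integrals as sums over half sides.

PROOF. Split `∫_{-1}^1 = ∫_{-1}^0 + ∫_0^1`, substitute `t → -t` in the first part, `Fsym` exchanges `e1, e2`. The
integrands are continuous (`J.Good`: `D1` gives continuity of `J.f, J.fX, J.fY`; `F` continuous).
`J.ry.fY (cc, cc t) = - J.fY (cc, - cc t)`, `J.rx.fX (cc, ·) = - J.fX (-cc, ·)`, `lf`, `lJ` symmetric.
-/
set_option autoImplicit false

open MeasureTheory Set Pool.Agent.MSQ Pool.Agent.MTR Pool.Agent.MGF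

namespace Pool.Agent.MCA

private theorem sih_D1c {F FX FY : ℝ × ℝ → ℝ} (h : D1 F FX FY) : Continuous F :=
  continuous_iff_continuousAt.2 fun z => (h z).continuousAt

private theorem sih_lfc : Continuous lf := by
  unfold lf
  fun_prop

private theorem sih_lfp (z : ℝ × ℝ) : 0 < lf z := by
  unfold lf
  positivity

private theorem sih_lXc : Continuous lJ.fX := by
  unfold lJ
  exact continuous_fst.div sih_lfc fun z => (sih_lfp z).ne'

private theorem sih_lYc : Continuous lJ.fY := by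
  unfold lJ
  exact continuous_snd.div sih_lfc fun z => (sih_lfp z).ne'

private theorem sih_tup {f a b l p q : ℝ × ℝ → ℝ} (hf : Continuous f) (ha : Continuous a) (hb : Continuous b)
    (hl : Continuous l) (hp : Continuous p) (hq : Continuous q) (c s : ℝ) :
    Continuous fun t : ℝ => ((t, √2 * (cc - (l (cc * t, c) - f (cc * t, c))) / 2 +
      (1 - t) / 2 * (-(p (cc * t, c) - a (cc * t, c))),
      √2 * (cc - (l (cc * t, c) - f (cc * t, c))) / 2 -
      (1 + t) / 2 * (-(p (cc * t, c) - a (cc * t, c))),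
      1 / 2 + s * (q (cc * t, c) - b (cc * t, c))) : ℝ × ℝ × ℝ × ℝ) := by
  fun_prop

/-- continuity of the densities -/
theorem dXp_cont (F : ℝ → ℝ → ℝ → ℝ → ℝ) (hc : Continuous fun z : ℝ × ℝ × ℝ × ℝ => F z.1 z.2.1 z.2.2.1 z.2.2.2)
    (J : Jet) (hJ : J.Good) : Continuous (dXp F J) := by
  have h0 : Continuous J.f := sih_D1c hJ.d
  have h1 : Continuous J.fX := sih_D1c hJ.dX
  have h2 : Continuous J.fY := sih_D1c hJ.dY
  have e : Continuous fun t : ℝ => ((t, √2 * (cc - J.f (cc, cc * t)) / 2 + (1 - t) / 2 * (-J.fY (cc, cc * t)),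
      √2 * (cc - J.f (cc, cc * t)) / 2 - (1 + t) / 2 * (-J.fY (cc, cc * t)),
      1 / 2 - J.fX (cc, cc * t)) : ℝ × ℝ × ℝ × ℝ) := by
    fun_prop
  exact hc.comp e

theorem dYp_cont (F : ℝ → ℝ → ℝ → ℝ → ℝ) (hc : Continuous fun z : ℝ × ℝ × ℝ × ℝ => F z.1 z.2.1 z.2.2.1 z.2.2.2)
    (J : Jet) (hJ : J.Good) : Continuous (dYp F J) := by
  have h0 : Continuous J.f := sih_D1c hJ.d
  have h1 : Continuous J.fX := sih_D1c hJ.dX
  have h2 : Continuous J.fY := sih_D1c hJ.dY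
  have l0 := sih_lfc
  have l1 := sih_lXc
  have l2 := sih_lYc
  refine (hc.comp (sih_tup h0 h1 h2 l0 l1 l2 cc (-1))).congr fun t => ?_
  simp only [dYp, Function.comp]
  rw [neg_one_mul, ← sub_eq_add_neg]

private theorem sih_split (g h : ℝ → ℝ) (hg : Continuous g) (hh : ∀ t, g (-t) = h t) :
    ∫ t in (-1 : ℝ)..1, g t = (∫ t in (0 : ℝ)..1, g t) + ∫ t in (0 : ℝ)..1, h t := by
  have e1 : ∫ t in (-1 : ℝ)..0, g t = ∫ t in (0 : ℝ)..1, h t := by
    have := intervalIntegral.integral_comp_neg (a := 0) (b := 1) g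
    rw [neg_zero] at this
    rw [← this]
    exact intervalIntegral.integral_congr fun t _ => hh t
  rw [← intervalIntegral.integral_add_adjacent_intervals (hg.intervalIntegrable (-1) 0)
    (hg.intervalIntegrable 0 1), e1, add_comm]

private theorem sih_lf1 (a b : ℝ) : lf (-a, b) = lf (a, b) := by
  unfold lf
  simp

private theorem sih_lf2 (a b : ℝ) : lf (a, -b) = lf (a, b) := by
  unfold lf
  simp

theorem sXp_half (F : ℝ → ℝ → ℝ → ℝ → ℝ) (hs : Fsym F)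
    (hc : Continuous fun z : ℝ × ℝ × ℝ × ℝ => F z.1 z.2.1 z.2.2.1 z.2.2.2) (J : Jet) (hJ : J.Good) :
    sXp F J = (∫ t in (0 : ℝ)..1, dXp F J t) + ∫ t in (0 : ℝ)..1, dXp F J.ry t := by
  refine sih_split (dXp F J) (dXp F J.ry) (dXp_cont F hc J hJ) fun t => ?_
  simp only [dXp, Jet.ry]
  rw [← hs t]
  congr 1
  · rw [mul_neg]; ring
  · rw [mul_neg]; ring
  · rw [mul_neg]

theorem sXm_half (F : ℝ → ℝ → ℝ → ℝ → ℝ) (hs : Fsym F)
    (hc : Continuous fun z : ℝ × ℝ × ℝ × ℝ => F z.1 z.2.1 z.2.2.1 z.2.2.2) (J : Jet) (hJ : J.Good) :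
    sXm F J = (∫ t in (0 : ℝ)..1, dXp F J.rx t) + ∫ t in (0 : ℝ)..1, dXp F J.rx.ry t := by
  have hd : ∀ t, F t (√2 * (cc - J.f (-cc, cc * t)) / 2 + (1 - t) / 2 * (-J.fY (-cc, cc * t)))
      (√2 * (cc - J.f (-cc, cc * t)) / 2 - (1 + t) / 2 * (-J.fY (-cc, cc * t)))
      (1 / 2 + J.fX (-cc, cc * t)) = dXp F J.rx t := fun t => by
    simp only [dXp, Jet.rx]
    rw [sub_neg_eq_add]
  have h0 : Continuous J.f := sih_D1c hJ.d
  have h1 : Continuous J.fX := sih_D1c hJ.dX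
  have h2 : Continuous J.fY := sih_D1c hJ.dY
  have hcr : Continuous (dXp F J.rx) := by
    have e : Continuous fun t : ℝ => ((t, √2 * (cc - J.f (-cc, cc * t)) / 2 + (1 - t) / 2 * (-J.fY (-cc, cc * t)),
        √2 * (cc - J.f (-cc, cc * t)) / 2 - (1 + t) / 2 * (-J.fY (-cc, cc * t)),
        1 / 2 + J.fX (-cc, cc * t)) : ℝ × ℝ × ℝ × ℝ) := by
      fun_prop
    have := hc.comp e
    exact this.congr fun t => hd t
  have := sih_split (dXp F J.rx) (dXp F J.rx.ry) hcr fun t => ?_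
  · rw [← this]
    exact intervalIntegral.integral_congr fun t _ => hd t
  simp only [dXp, Jet.ry]
  rw [← hs t]
  congr 1
  · rw [mul_neg]; ring
  · rw [mul_neg]; ring
  · rw [mul_neg]

theorem sYp_half (F : ℝ → ℝ → ℝ → ℝ → ℝ) (hs : Fsym F)
    (hc : Continuous fun z : ℝ × ℝ × ℝ × ℝ => F z.1 z.2.1 z.2.2.1 z.2.2.2) (J : Jet) (hJ : J.Good) :
    sYp F J = (∫ t in (0 : ℝ)..1, dYp F J t) + ∫ t in (0 : ℝ)..1, dYp F J.rx t := by
  refine sih_split (dYp F J) (dYp F J.rx) (dYp_cont F hc J hJ) fun t => ?_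
  simp only [dYp, Jet.rx, lJ]
  rw [← hs t, mul_neg, sih_lf1]
  congr 1
  · ring
  · ring

theorem sYm_half (F : ℝ → ℝ → ℝ → ℝ → ℝ) (hs : Fsym F)
    (hc : Continuous fun z : ℝ × ℝ × ℝ × ℝ => F z.1 z.2.1 z.2.2.1 z.2.2.2) (J : Jet) (hJ : J.Good) :
    sYm F J = (∫ t in (0 : ℝ)..1, dYp F J.ry t) + ∫ t in (0 : ℝ)..1, dYp F J.rx.ry t := by
  have hd : ∀ t, F t (√2 * (cc - (lf (cc * t, -cc) - J.f (cc * t, -cc))) / 2 +
        (1 - t) / 2 * (-(lJ.fX (cc * t, -cc) - J.fX (cc * t, -cc))))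
      (√2 * (cc - (lf (cc * t, -cc) - J.f (cc * t, -cc))) / 2 -
        (1 + t) / 2 * (-(lJ.fX (cc * t, -cc) - J.fX (cc * t, -cc))))
      (1 / 2 + (lJ.fY (cc * t, -cc) - J.fY (cc * t, -cc))) = dYp F J.ry t := fun t => by
    simp only [dYp, Jet.ry, lJ, sih_lf2]
    congr 1
    ring
  have h0 : Continuous J.f := sih_D1c hJ.d
  have h1 : Continuous J.fX := sih_D1c hJ.dX
  have h2 : Continuous J.fY := sih_D1c hJ.dY
  have l0 := sih_lfc
  have l1 := sih_lXc
  have l2 := sih_lYc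
  have hcr : Continuous (dYp F J.ry) := by
    refine (hc.comp (sih_tup h0 h1 h2 l0 l1 l2 (-cc) 1)).congr fun t => ?_
    rw [← hd t]
    simp only [Function.comp]
    rw [one_mul]
  have := sih_split (dYp F J.ry) (dYp F J.rx.ry) hcr fun t => ?_
  · rw [← this]
    exact intervalIntegral.integral_congr fun t _ => hd t
  simp only [dYp, Jet.rx, Jet.ry, lJ]
  rw [← hs t, mul_neg, sih_lf1]
  congr 1
  · ring
  · ring

end Pool.Agent.MCA
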