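import Pool.Agent.MCA.QUD
import Pool.Agent.MCA.SDF
import Pool.Agent.MCA.FLD
import Pool.Agent.MCA.CVX
import Pool.Agent.MSQ.RDiv
import Pool.Agent.MCA.SIH
/-!
QUE4 (100 lines). The side `x = 1`.

PROOF. `c.Ok.side`: `covR_sound` gives a box containing `(1, y)`, `BoxOK` with `X y hy` gives `0 ≤ qf (evE 1 y (eX ..)) (sv DL
(FdC J) 1 y)`. `eX_val` and `fX_val`, divide by `108 N³ > 0`: `0 ≤ Vx - VxK + kf DF √3/cc dXp + null`. `K1`: `K = 0` at
`x = 1`, so `VxK = 0`. The null term is `d/dy (w u² / N + v u)` at `x = 1` with `u = (AC J 1 y).u`, `q = ∂_y u` (`fok_C`):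
`d/dy N⁻¹ = - y / (3 N³)`. Its integral over `0..1` is `0`: `w`, `v` vanish at `y = 0` (`nX`), `u(1, 1) = 0` (`cor_u`).
-/
set_option autoImplicit false

open MeasureTheory Set Pool.Agent.MSQ Pool.Agent.MTR Pool.Agent.MGF

namespace Pool.Agent.MCA

private theorem QUE4_Npos (y : ℝ) : 0 < Nf y := Real.sqrt_pos.2 (by positivity)

private theorem QUE4_N (y : ℝ) : HasDerivAt Nf (y / (3 * Nf y)) y := by
  have h1 : HasDerivAt (fun t : ℝ => 1 + t ^ 2 / 3) (2 * y / 3) y := by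
    have h := ((hasDerivAt_pow 2 y).div_const 3).const_add 1
    refine h.congr_deriv ?_
    norm_num
  have h0 : (1 : ℝ) + y ^ 2 / 3 ≠ 0 := by positivity
  have h2 := h1.sqrt h0
  refine h2.congr_deriv ?_
  have hN := (QUE4_Npos y).ne'
  change 2 * y / 3 / (2 * Nf y) = _
  field_simp

private theorem QUE4_cN : Continuous Nf := by
  unfold Nf
  fun_prop

private theorem QUE4_atx1 (x y : ℝ) (p : P) : ev x y (atx1 p) = ev 1 y p := by
  have h : ∀ q : P, evL y (q.foldr addV []) = ev 1 y q := by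
    intro q
    induction q with
    | nil => rfl
    | cons a l ih => simp only [List.foldr_cons, evL_addV, ih, ev, one_mul]
  simp only [atx1, ev, h, mul_zero, add_zero]

private theorem QUE4_cs (DL : Int) {F : Fd} {Z E cy dy : ℝ → ℝ → ℝ} (h : FOK F Z E cy dy) (x : ℝ) (k : Nat) :
    Continuous fun y : ℝ => (sv DL F x y).getD k 0 := by
  have h1 : Continuous fun y : ℝ => ((x, y) : ℝ × ℝ) := by fun_prop
  exact Continuous.comp (g := fun z : ℝ × ℝ => (sv DL F z.1 z.2).getD k 0)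
    (f := fun y : ℝ => ((x, y) : ℝ × ℝ)) (cont_sv DL h k) h1

private theorem QUE4_ce (x : ℝ) (p : P) : Continuous fun y : ℝ => ev x y p :=
  (continuous_ev p).comp (continuous_const.prodMk continuous_id)

private theorem QUE4_ctv (DL : Int) {F : Fd} {Z E cy dy : ℝ → ℝ → ℝ} (h : FOK F Z E cy dy) (x : ℝ)
    (L : List Trm) : Continuous fun y : ℝ => tv x y (sv DL F x y) L := by
  induction L with
  | nil =>
    have e : (fun y : ℝ => tv x y (sv DL F x y) []) = fun _ => (0 : ℝ) := by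
      funext y
      simp [tv]
    rw [e]
    exact continuous_const
  | cons t L ih =>
    have e : (fun y : ℝ => tv x y (sv DL F x y) (t :: L)) = fun y =>
        ev x y t.2.2 * ((sv DL F x y).getD t.1 0 * (sv DL F x y).getD t.2.1 0) +
          tv x y (sv DL F x y) L := by
      funext y
      simp [tv]
    rw [e]
    exact ((QUE4_ce x t.2.2).mul ((QUE4_cs DL h x t.1).mul (QUE4_cs DL h x t.2.1))).add ih

private theorem QUE4_cVx (DL : Int) {F : Fd} {Z E cy dy : ℝ → ℝ → ℝ} (h : FOK F Z E cy dy) (x : ℝ)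
    (g : Ga) : Continuous fun y : ℝ => Vx g x y (sv DL F x y) := by
  have hN : ∀ y : ℝ, Nf y ≠ 0 := fun y => (QUE4_Npos y).ne'
  unfold Vx VxK Vxl
  refine (((QUE4_ctv DL h x g.H).div (QUE4_cN.pow 3) fun y => pow_ne_zero 3 (hN y)).add
    ((QUE4_ctv DL h x g.Z).div QUE4_cN hN)).add ?_ |>.add ?_
  · exact ((((continuous_const.mul (QUE4_ce x g.K)).mul (QUE4_cs DL h x 2)).mul
      (QUE4_cs DL h x 9)).div QUE4_cN hN)
  · exact ((((((QUE4_ce x (pDY g.f2)).neg).mul (QUE4_cs DL h x 1)).add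
      ((QUE4_ce x g.h2).mul (QUE4_cs DL h x 3))).sub
      ((continuous_const.mul (QUE4_ce x (pDX g.h2))).mul (QUE4_cs DL h x 1))).add
      ((QUE4_ce x g.fc).mul (QUE4_cs DL h x 6))).add
      ((QUE4_ce x g.fd).mul (QUE4_cs DL h x 7))

theorem q_side (c : Sqd) (hc : c.Ok) (σ : Bool) (J : Jet) (hJ : J.Good) (hcor : J.f (cc, cc) = cc)
    (hc1 : Continuous fun z : ℝ × ℝ × ℝ × ℝ =>
      FL c.DF (if σ then c.F2 else c.F1) z.1 z.2.1 z.2.2.1 z.2.2.2)
    (X : ∀ y : ℝ, 0 ≤ y → y ≤ 1 → ROK (c.rX σ) 1 y (sv c.DL (FdC J) 1 y)) :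
    -(c.kf * c.DF * (√3 / cc) * ∫ t in (0 : ℝ)..1, dXp (FL c.DF (if σ then c.F2 else c.F1)) J t) ≤
      ∫ y in (0 : ℝ)..1, Vx (c.gC σ) 1 y (sv c.DL (FdC J) 1 y) := by
  obtain ⟨Z, E, cy, dy, hF⟩ := fok_C J hJ
  obtain ⟨L, hL, hB⟩ := hc.side σ
  obtain ⟨hw0, hwz, hv0, hvz⟩ := hc.nX σ
  have hK : ∀ y : ℝ, ev 1 y (c.gC σ).K = 0 := fun y => by
    rw [← QUE4_atx1 0 y]
    exact ev_isZ 0 y _ (hc.K1 σ)
  have hw00 : ev 0 0 (c.wX σ) = 0 := by
    rw [← ev_at0 0 0]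
    exact ev_isZ 0 0 _ hwz
  have hv00 : ev 0 0 (c.vX σ) = 0 := by
    rw [← ev_at0 0 0]
    exact ev_isZ 0 0 _ hvz
  generalize hFl : (if σ then c.F2 else c.F1) = Fl at *
  generalize hg : c.gC σ = g at *
  generalize hw : c.wX σ = w at *
  generalize hv : c.vX σ = v at *
  have hu : ∀ y, HasDerivAt (fun t => (AC J 1 t).u) (AC J 1 y).q y := fun y => hF.js.uy 1 y
  have cu : Continuous fun y => (AC J 1 y).u := QUE4_cs 1 hF 1 1
  have cq : Continuous fun y => (AC J 1 y).q := QUE4_cs 1 hF 1 2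
  have hN : ∀ y : ℝ, Nf y ≠ 0 := fun y => (QUE4_Npos y).ne'
  have hW : ∀ y, HasDerivAt (fun t => ev 0 t w / Nf t * (AC J 1 t).u ^ 2 + ev 0 t v * (AC J 1 t).u)
      ((ev 0 y (pDY w) / Nf y - y * ev 0 y w / (3 * Nf y ^ 3)) * (AC J 1 y).u ^ 2 +
        2 * ev 0 y w / Nf y * (AC J 1 y).u * (AC J 1 y).q + ev 0 y (pDY v) * (AC J 1 y).u +
        ev 0 y v * (AC J 1 y).q) y := by
    intro y
    have h1 := ((hasDerivAt_ev_y 0 y w).fun_div (QUE4_N y) (hN y)).fun_mul ((hu y).fun_pow 2)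
    have h2 := (hasDerivAt_ev_y 0 y v).fun_mul (hu y)
    refine (h1.fun_add h2).congr_deriv ?_
    have h3 := hN y
    field_simp
    ring
  have cW : Continuous fun y =>
      (ev 0 y (pDY w) / Nf y - y * ev 0 y w / (3 * Nf y ^ 3)) * (AC J 1 y).u ^ 2 +
        2 * ev 0 y w / Nf y * (AC J 1 y).u * (AC J 1 y).q + ev 0 y (pDY v) * (AC J 1 y).u +
        ev 0 y v * (AC J 1 y).q := by
    refine (((((QUE4_ce 0 (pDY w)).div QUE4_cN hN).sub ((continuous_id.mul (QUE4_ce 0 w)).div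
      (continuous_const.mul (QUE4_cN.pow 3)) fun y => mul_ne_zero (by norm_num) (pow_ne_zero 3 (hN y)))).mul
      (cu.pow 2)).add ((((continuous_const.mul (QUE4_ce 0 w)).div QUE4_cN hN).mul cu).mul cq)).add
      ((QUE4_ce 0 (pDY v)).mul cu) |>.add ((QUE4_ce 0 v).mul cq)
  have hI : ∫ y in (0 : ℝ)..1, ((ev 0 y (pDY w) / Nf y - y * ev 0 y w / (3 * Nf y ^ 3)) * (AC J 1 y).u ^ 2 +
        2 * ev 0 y w / Nf y * (AC J 1 y).u * (AC J 1 y).q + ev 0 y (pDY v) * (AC J 1 y).u +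
        ev 0 y v * (AC J 1 y).q) = 0 := by
    rw [intervalIntegral.integral_eq_sub_of_hasDerivAt (fun y _ => hW y) (cW.intervalIntegrable 0 1)]
    rw [cor_u J hcor, hw00, hv00]
    simp
  have cV := QUE4_cVx c.DL hF 1 g
  have cD : Continuous (dXp (FL c.DF Fl) J) := dXp_cont _ hc1 J hJ
  have hpt : ∀ y : ℝ, 0 ≤ y → y ≤ 1 → 0 ≤ Vx g 1 y (sv c.DL (FdC J) 1 y) +
      (c.kf * c.DF * (√3 / cc)) * dXp (FL c.DF Fl) J y +
      ((ev 0 y (pDY w) / Nf y - y * ev 0 y w / (3 * Nf y ^ 3)) * (AC J 1 y).u ^ 2 +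
        2 * ev 0 y w / Nf y * (AC J 1 y).u * (AC J 1 y).q + ev 0 y (pDY v) * (AC J 1 y).u +
        ev 0 y v * (AC J 1 y).q) := by
    intro y h0 h1
    obtain ⟨col, hcol, b, hb, hin⟩ := covR_sound 0 1 L hL 1 y zero_le_one le_rfl (by exact_mod_cast h0)
      (by exact_mod_cast h1)
    have h2 := hB col hcol b hb 1 y hin (sv c.DL (FdC J) 1 y) rfl (X y h0 h1)
    have hSV := SV_sv c.DL hc.pDL (FdC J) 1 y
    rw [eX_val c.DL c.kf g (hg ▸ hc.wC σ) Fl w v 1 y _ hSV hw0 hv0, fX_val c.DL c.kf c.DF hc.pDL hc.pDF] at h2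
    have hVK : VxK g.K 1 y (sv c.DL (FdC J) 1 y) = 0 := by
      unfold VxK
      rw [hK y]
      simp
    rw [hVK] at h2
    have e1 : (sv c.DL (FdC J) 1 y).getD 1 0 = (AC J 1 y).u := rfl
    have e2 : (sv c.DL (FdC J) 1 y).getD 2 0 = (AC J 1 y).q := rfl
    rw [e1, e2] at h2
    have hpos : (0 : ℝ) < 108 * Nf y ^ 3 := by
      have := QUE4_Npos y
      positivity
    refine nonneg_of_mul_nonneg_right (b := _) ?_ hpos
    refine h2.trans_eq ?_
    ring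
  have hint := intervalIntegral.integral_nonneg (μ := volume) (zero_le_one' ℝ) (fun y hy => hpt y hy.1 hy.2)
  have cD' : Continuous fun y : ℝ => (c.kf * c.DF * (√3 / cc)) * dXp (FL c.DF Fl) J y :=
    continuous_const.mul cD
  have cVD : Continuous fun y : ℝ => Vx g 1 y (sv c.DL (FdC J) 1 y) +
      (c.kf * c.DF * (√3 / cc)) * dXp (FL c.DF Fl) J y := cV.add cD'
  rw [intervalIntegral.integral_add (cVD.intervalIntegrable 0 1)
    (cW.intervalIntegrable 0 1), intervalIntegral.integral_add (cV.intervalIntegrable 0 1)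
    (cD'.intervalIntegrable 0 1), hI, intervalIntegral.integral_const_mul] at hint
  linarith

end Pool.Agent.MCA
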