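import Pool.Agent.MCA.Sem
import Pool.Agent.MSQ.RDiv
/-!
GRC. The divergence theorem on the sliver `1 ≤ y ≤ yt x`.
-/
set_option autoImplicit false

open MeasureTheory Set Pool.Agent.MSQ Pool.Agent.MTR Pool.Agent.MGF

namespace Pool.Agent.MCA

theorem yt_cont : Continuous yt := by
  unfold yt
  refine Continuous.sqrt (Continuous.div continuous_const (by fun_prop) ?_)
  intro x
  positivity
theorem yt_one : yt 1 = 1 := by
  unfold yt
  norm_num
theorem yt_ge (x : ℝ) (h0 : 0 ≤ x) (h1 : x ≤ 1) : 1 ≤ yt x := by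
  unfold yt
  rw [Real.one_le_sqrt, one_le_div (by positivity)]
  nlinarith
theorem yt_sq (x : ℝ) : (2 + x ^ 2) * yt x ^ 2 = 3 := by
  unfold yt
  rw [Real.sq_sqrt (by positivity)]
  field_simp
/-- a point of the sliver -/
theorem yt_le (x y : ℝ) (hy : 0 ≤ y) (h : y ≤ yt x) : (2 + x ^ 2) * y ^ 2 ≤ 3 := by
  rw [← yt_sq x]
  have h1 : y ^ 2 ≤ yt x ^ 2 := pow_le_pow_left₀ hy h 2
  exact mul_le_mul_of_nonneg_left h1 (by positivity)

private theorem GRC_p (x : ℝ) (h0 : 0 ≤ x) (h1 : x ≤ 1) :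
    yt x - 1 ≤ 9 / 40 - 49 / 160 * x ^ 2 + 147 / 1280 * x ^ 4 := by
  have h2 : yt x ≤ 49 / 40 - 49 / 160 * x ^ 2 + 147 / 1280 * x ^ 4 := by
    unfold yt
    rw [Real.sqrt_le_iff]
    have hu : 0 ≤ x ^ 2 := sq_nonneg x
    have hu1 : x ^ 2 ≤ 1 := by nlinarith
    constructor
    · have h4 : 0 ≤ x ^ 4 := by positivity
      linarith
    · rw [div_le_iff₀ (by positivity)]
      have key : (49 / 40 - 49 / 160 * x ^ 2 + 147 / 1280 * x ^ 4) ^ 2 * (2 + x ^ 2) =
          2401 / 800 * (1 + 5 / 64 * (x ^ 2) ^ 3 - 15 / 1024 * (x ^ 2) ^ 4 + 9 / 2048 * (x ^ 2) ^ 5) := by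
        ring
      rw [key]
      have h3 : (x ^ 2) ^ 4 ≤ (x ^ 2) ^ 3 := pow_le_pow_of_le_one hu hu1 (by norm_num)
      have h5 : 0 ≤ (x ^ 2) ^ 3 := by positivity
      have h6 : 0 ≤ (x ^ 2) ^ 5 := by positivity
      linarith
  linarith

/-- area of the sliver -/
theorem yt_area : ∫ x in (0 : ℝ)..1, (yt x - 1) ≤ 3 / 20 := by
  have h1 : ∫ x in (0 : ℝ)..1, (yt x - 1) ≤
      ∫ x in (0 : ℝ)..1, (9 / 40 - 49 / 160 * x ^ 2 + 147 / 1280 * x ^ 4) := by
    apply intervalIntegral.integral_mono_on (by norm_num)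
    · exact (yt_cont.sub continuous_const).intervalIntegrable _ _
    · exact (by fun_prop : Continuous fun x : ℝ => 9 / 40 - 49 / 160 * x ^ 2 + 147 / 1280 * x ^ 4).intervalIntegrable _ _
    · intro x hx
      exact GRC_p x hx.1 hx.2
  have h2 : ∫ x in (0 : ℝ)..1, (9 / 40 - 49 / 160 * x ^ 2 + 147 / 1280 * x ^ 4) =
      9 / 40 - 49 / 480 + 147 / 6400 := by
    have hd : ∀ x ∈ uIcc (0 : ℝ) 1, HasDerivAt (fun t : ℝ => 9 / 40 * t - 49 / 480 * t ^ 3 + 147 / 6400 * t ^ 5)
        (9 / 40 - 49 / 160 * x ^ 2 + 147 / 1280 * x ^ 4) x := by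
      intro x _
      have h3 := (((hasDerivAt_id x).const_mul (9 / 40 : ℝ)).sub ((hasDerivAt_pow 3 x).const_mul (49 / 480 : ℝ))).add
        ((hasDerivAt_pow 5 x).const_mul (147 / 6400 : ℝ))
      refine h3.congr_deriv ?_
      norm_num
      ring
    rw [intervalIntegral.integral_eq_sub_of_hasDerivAt hd
      ((by fun_prop : Continuous fun x : ℝ => 9 / 40 - 49 / 160 * x ^ 2 + 147 / 1280 * x ^ 4).intervalIntegrable _ _)]
    norm_num
  rw [h2] at h1
  refine h1.trans ?_
  norm_num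

private theorem GRC_yt (x : ℝ) : HasDerivAt yt (-(x * yt x) / (2 + x ^ 2)) x := by
  have hpos : 0 < 2 + x ^ 2 := by positivity
  have hq : 0 < 3 / (2 + x ^ 2) := by positivity
  have h1 : HasDerivAt (fun t : ℝ => 3 / (2 + t ^ 2)) (-(6 * x) / (2 + x ^ 2) ^ 2) x := by
    have h2 := (hasDerivAt_const x (3 : ℝ)).div ((hasDerivAt_pow 2 x).const_add 2) hpos.ne'
    refine h2.congr_deriv ?_
    norm_num
    ring
  have h3 := h1.sqrt hq.ne'
  refine h3.congr_deriv ?_
  have h4 : 0 < √(3 / (2 + x ^ 2)) := Real.sqrt_pos.2 hq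
  have h5 : yt x ^ 2 = 3 / (2 + x ^ 2) := by
    unfold yt
    rw [Real.sq_sqrt hq.le]
  have h6 : 0 < yt x := h4
  show -(6 * x) / (2 + x ^ 2) ^ 2 / (2 * yt x) = _
  rw [div_eq_div_iff (by positivity) (by positivity)]
  have h7 : yt x ^ 2 * (2 + x ^ 2) = 3 := by
    rw [h5]
    field_simp
  have h8 : -(6 * x) / (2 + x ^ 2) ^ 2 = -(2 * x) * yt x ^ 2 / (2 + x ^ 2) := by
    rw [div_eq_div_iff (by positivity) (by positivity)]
    linear_combination (2 * x) * (2 + x ^ 2) * h7
  rw [h8]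
  field_simp

private theorem GRC_leib (V B : ℝ → ℝ → ℝ) (hB : Continuous fun z : ℝ × ℝ => B z.1 z.2)
    (hV : Continuous fun z : ℝ × ℝ => V z.1 z.2) (h : ∀ x y, HasDerivAt (fun t => V t y) (B x y) x) (x t : ℝ) :
    HasDerivAt (fun x => ∫ y in (1 : ℝ)..t, V x y) (∫ y in (1 : ℝ)..t, B x y) x := by
  have hVx : ∀ x, Continuous fun y => V x y := fun x => hV.comp (Continuous.prodMk_right x)
  have hBx : ∀ x, Continuous fun y => B x y := fun x => hB.comp (Continuous.prodMk_right x)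
  obtain ⟨C, hC⟩ := ((isCompact_Icc (a := x - 1) (b := x + 1)).prod (isCompact_uIcc (a := (1 : ℝ)) (b := t))).exists_bound_of_continuousOn
    hB.continuousOn
  refine (intervalIntegral.hasDerivAt_integral_of_dominated_loc_of_deriv_le (F := V) (F' := B) (x₀ := x)
    (s := Icc (x - 1) (x + 1)) (bound := fun _ => C) (Icc_mem_nhds (by linarith) (by linarith)) ?_ ?_ ?_ ?_ ?_ ?_).2
  · exact Filter.Eventually.of_forall fun u => (hVx u).aestronglyMeasurable
  · exact (hVx x).intervalIntegrable _ _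
  · exact (hBx x).aestronglyMeasurable
  · refine Filter.Eventually.of_forall fun y hy u hu => ?_
    exact hC (u, y) ⟨hu, uIoc_subset_uIcc hy⟩
  · exact intervalIntegrable_const
  · exact Filter.Eventually.of_forall fun y _ u _ => h u y

private theorem GRC_G (V B : ℝ → ℝ → ℝ) (hB : Continuous fun z : ℝ × ℝ => B z.1 z.2)
    (hV : Continuous fun z : ℝ × ℝ => V z.1 z.2) (h : ∀ x y, HasDerivAt (fun t => V t y) (B x y) x) (x : ℝ) :
    HasDerivAt (fun x => ∫ y in (1 : ℝ)..yt x, V x y)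
      ((∫ y in (1 : ℝ)..yt x, B x y) + -(x * yt x) / (2 + x ^ 2) * V x (yt x)) x := by
  have hVx : ∀ x, Continuous fun y => V x y := fun x => hV.comp (Continuous.prodMk_right x)
  have h1 : HasStrictFDerivAt (Function.HasUncurry.uncurry fun x t : ℝ => ∫ y in (1 : ℝ)..t, V x y)
      (((ContinuousLinearMap.toSpanSingleton ℝ (∫ y in (1 : ℝ)..yt x, B x y))).coprod
        (ContinuousLinearMap.toSpanSingleton ℝ (V x (yt x)))) (x, yt x) := by
    refine hasStrictFDerivAt_uncurry_coprod (u := (x, yt x))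
      (f₁ := fun x t : ℝ => ContinuousLinearMap.toSpanSingleton ℝ (∫ y in (1 : ℝ)..t, B x y))
      (f₂ := fun x t : ℝ => ContinuousLinearMap.toSpanSingleton ℝ (V x t)) ?_ ?_ ?_ ?_
    · exact Filter.Eventually.of_forall fun v => (GRC_leib V B hB hV h v.1 v.2).hasFDerivAt
    · exact Filter.Eventually.of_forall fun v => ((hVx v.1).integral_hasStrictDerivAt 1 v.2).hasDerivAt.hasFDerivAt
    · have h2 : Continuous fun z : ℝ × ℝ => ∫ y in (1 : ℝ)..z.2, B z.1 y := by
        apply intervalIntegral.continuous_parametric_intervalIntegral_of_continuous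
        · exact hB.comp (by fun_prop : Continuous fun w : (ℝ × ℝ) × ℝ => (w.1.1, w.2))
        · exact continuous_snd
      have h3 : Continuous fun z : ℝ × ℝ =>
          ContinuousLinearMap.toSpanSingleton ℝ (∫ y in (1 : ℝ)..z.2, B z.1 y) :=
        (ContinuousLinearMap.toSpanSingletonCLE (𝕜 := ℝ) (E := ℝ)).continuous.comp h2
      exact h3.continuousAt
    · have h3 : Continuous fun z : ℝ × ℝ =>
          ContinuousLinearMap.toSpanSingleton ℝ (V z.1 z.2) :=
        (ContinuousLinearMap.toSpanSingletonCLE (𝕜 := ℝ) (E := ℝ)).continuous.comp hV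
      exact h3.continuousAt
  have h4 : HasDerivAt (fun x : ℝ => (x, yt x)) ((1 : ℝ), -(x * yt x) / (2 + x ^ 2)) x :=
    (hasDerivAt_id x).prodMk (GRC_yt x)
  have h5 := h1.hasFDerivAt.comp_hasDerivAt x h4
  refine h5.congr_deriv ?_
  simp [ContinuousLinearMap.toSpanSingleton_apply]

theorem green_sl (V1 V2 A B : ℝ → ℝ → ℝ) (hA : Continuous fun z : ℝ × ℝ => A z.1 z.2)
    (hB : Continuous fun z : ℝ × ℝ => B z.1 z.2) (hV1 : Continuous fun z : ℝ × ℝ => V1 z.1 z.2)
    (hV2 : Continuous fun z : ℝ × ℝ => V2 z.1 z.2)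
    (h1 : ∀ x y, HasDerivAt (fun t => V1 x t) (A x y) y) (h2 : ∀ x y, HasDerivAt (fun t => V2 t y) (B x y) x) :
    ∫ x in (0 : ℝ)..1, ∫ y in (1 : ℝ)..yt x, (A x y + mf x * B x y) / mf x =
      (∫ x in (0 : ℝ)..1, (V1 x (yt x) + x * yt x / 2 * V2 x (yt x) - V1 x 1) / mf x) -
        ∫ y in (1 : ℝ)..yt 0, V2 0 y := by
  have hmp : ∀ x, 0 < mf x := fun x => by
    unfold mf
    positivity
  have hmc : Continuous mf := by
    unfold mf
    fun_prop
  have hAx : ∀ x, Continuous fun y => A x y := fun x => hA.comp (Continuous.prodMk_right x)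
  have hBx : ∀ x, Continuous fun y => B x y := fun x => hB.comp (Continuous.prodMk_right x)
  have hg : Continuous fun x : ℝ => ∫ y in (1 : ℝ)..yt x, B x y := by
    apply intervalIntegral.continuous_parametric_intervalIntegral_of_continuous
    · exact hB
    · exact yt_cont
  have hV1c : ∀ f : ℝ → ℝ, Continuous f → Continuous fun x => V1 x (f x) := fun f hf =>
    hV1.comp (continuous_id.prodMk hf)
  have hV2c : ∀ f : ℝ → ℝ, Continuous f → Continuous fun x => V2 x (f x) := fun f hf =>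
    hV2.comp (continuous_id.prodMk hf)
  have e1 : ∀ x, ∫ y in (1 : ℝ)..yt x, (A x y + mf x * B x y) / mf x =
      (V1 x (yt x) - V1 x 1) / mf x + ∫ y in (1 : ℝ)..yt x, B x y := by
    intro x
    have h3 : ∀ y, (A x y + mf x * B x y) / mf x = A x y / mf x + B x y := fun y => by
      have := (hmp x).ne'
      field_simp
    rw [intervalIntegral.integral_congr (fun y _ => h3 y), intervalIntegral.integral_add
      (((hAx x).div_const _).intervalIntegrable _ _) ((hBx x).intervalIntegrable _ _),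
      intervalIntegral.integral_div, intervalIntegral.integral_eq_sub_of_hasDerivAt (fun y _ => h1 x y)
      ((hAx x).intervalIntegrable _ _)]
  have hyd : Continuous fun x : ℝ => -(x * yt x) / (2 + x ^ 2) := by
    refine Continuous.div ((continuous_id.mul yt_cont).neg) (by fun_prop) ?_
    intro x
    positivity
  have e2 := intervalIntegral.integral_eq_sub_of_hasDerivAt (a := 0) (b := 1) (fun x _ => GRC_G V2 B hB hV2 h2 x)
    ((hg.add (hyd.mul (hV2c yt yt_cont))).intervalIntegrable _ _)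
  rw [yt_one, intervalIntegral.integral_same, zero_sub] at e2
  rw [intervalIntegral.integral_congr (fun x _ => e1 x)]
  have e3 : ∀ x, (V1 x (yt x) - V1 x 1) / mf x + ∫ y in (1 : ℝ)..yt x, B x y =
      (V1 x (yt x) + x * yt x / 2 * V2 x (yt x) - V1 x 1) / mf x +
        ((∫ y in (1 : ℝ)..yt x, B x y) + -(x * yt x) / (2 + x ^ 2) * V2 x (yt x)) := by
    intro x
    have h3 : 2 + x ^ 2 = 2 * mf x := by
      unfold mf
      ring
    have h4 := (hmp x).ne'
    rw [h3]
    field_simp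
    ring
  rw [intervalIntegral.integral_congr (fun x _ => e3 x), intervalIntegral.integral_add, e2]
  · ring
  · refine Continuous.intervalIntegrable ?_ _ _
    refine Continuous.div ?_ hmc (fun x => (hmp x).ne')
    exact ((hV1c yt yt_cont).add (((continuous_id.mul yt_cont).div_const 2).mul (hV2c yt yt_cont))).sub
      (hV1c (fun _ => 1) continuous_const)
  · exact (hg.add (hyd.mul (hV2c yt yt_cont))).intervalIntegrable _ _

end Pool.Agent.MCA
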