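import Pool.Agent.MCA.DRV
/-!
DVH (100 lines). Divergence of a term of the list `H`.

PROOF. product rule with `hasX`; `-108 N³ m ∂_x (N⁻³ f s s')
= -54 (2 m f_x) s s' - 54 (2 m f ∂_x s) s' - 54 s (2 m f ∂_x s')`; `ev_M2`: `2 + x² = 2 m`, `lv_dx2`.
-/
set_option autoImplicit false

open MeasureTheory Set Pool.Agent.MSQ Pool.Agent.MTR Pool.Agent.MGF

namespace Pool.Agent.MCA

private theorem dvh_Npos (y : ℝ) : 0 < Nf y := Real.sqrt_pos.2 (by positivity)

private theorem dvh_mpos (x : ℝ) : 0 < mf x := by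
  unfold mf
  positivity

private theorem dvh_cN : Continuous fun z : ℝ × ℝ => Nf z.2 := by
  have h : Continuous Nf := by
    unfold Nf
    fun_prop
  exact h.comp continuous_snd

private theorem dvh_cm : Continuous fun z : ℝ × ℝ => mf z.1 := by
  unfold mf
  fun_prop

private theorem dvh_csX (DL : Int) {F : Fd} {Z E cy dy : ℝ → ℝ → ℝ} (h : FOK F Z E cy dy) (k : Nat) :
    Continuous fun z : ℝ × ℝ => sX (sv DL F z.1 z.2) z.2 k := by
  match k with
  | 0 => simpa only [sX] using continuous_const
  | 1 => simpa only [sX] using cont_sv DL h 3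
  | 2 => simpa only [sX] using cont_sv DL h 9
  | 3 =>
    simp only [sX]
    exact (((cont_sv DL h 10).sub (cont_sv DL h 1)).add
      (continuous_snd.mul (cont_sv DL h 2))).div_const 2
  | (k + 4) => simpa only [sX] using continuous_const

private theorem dvh_len (DL : Int) (F : Fd) (x y : ℝ) : (sv DL F x y).length = 11 := rfl

theorem dvH (DL : Int) {F : Fd} {Z E cy dy : ℝ → ℝ → ℝ} (h : FOK F Z E cy dy) (t : Trm) (hm : t.1 ≤ 3) (hn : t.2.1 ≤ 3) :
    DivP (fun _ _ => 0)
      (fun x y => ev x y t.2.2 * ((sv DL F x y).getD t.1 0 * (sv DL F x y).getD t.2.1 0) / Nf y ^ 3)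
      (fun x y => qf (evE x y (rH t)) (sv DL F x y)) := by
  obtain ⟨m, n, f⟩ := t
  simp only at hm hn
  refine ⟨fun _ _ => 0, fun x y => (ev x y (pDX f) * ((sv DL F x y).getD m 0 * (sv DL F x y).getD n 0) +
      ev x y f * (sX (sv DL F x y) y m / mf x * (sv DL F x y).getD n 0 +
        (sv DL F x y).getD m 0 * (sX (sv DL F x y) y n / mf x))) / Nf y ^ 3,
    continuous_const, ?_, fun x y => hasDerivAt_const y _, ?_, ?_⟩
  · have c1 := cont_sv DL h m
    have c2 := cont_sv DL h n
    have c3 := dvh_csX DL h m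
    have c4 := dvh_csX DL h n
    have c5 := continuous_ev f
    have c6 := continuous_ev (pDX f)
    exact ((c6.mul (c1.mul c2)).add (c5.mul (((c3.div dvh_cm fun z => (dvh_mpos z.1).ne').mul c2).add
      (c1.mul (c4.div dvh_cm fun z => (dvh_mpos z.1).ne'))))).div (dvh_cN.pow 3)
        fun z => pow_ne_zero 3 (dvh_Npos z.2).ne'
  · intro x y
    have d1 := hasX DL h m hm x y
    have d2 := hasX DL h n hn x y
    have d3 := hasDerivAt_ev_x x y f
    have d := (d3.mul (d1.mul d2)).div_const (Nf y ^ 3)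
    refine d.congr_deriv ?_
    simp only [Pi.mul_apply]
  · intro x y
    have e1 : qf (evE x y (rH (m, n, f))) (sv DL F x y) =
        -54 * (2 * mf x * ev x y (pDX f)) * ((sv DL F x y).getD m 0 * (sv DL F x y).getD n 0) +
        (2 * (-54 * ev x y f * sX (sv DL F x y) y m) * (sv DL F x y).getD n 0 +
        (sv DL F x y).getD m 0 * (2 * (-54 * ev x y f * sX (sv DL F x y) y n))) := by
      have hone : ev x y oneP = 1 := by simp [oneP, ev, evL]
      simp only [rH, qf_sumQ, List.map_cons, List.map_nil, List.sum_cons, List.sum_nil, add_zero]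
      rw [qf_sS x y m n (by omega) (by omega) _ _ (dvh_len DL F x y),
        qf_qMul x y _ _ _ (by rw [dx2_length, dvh_len]) (by rw [eS_length n (by omega), dvh_len]),
        qf_qMul x y _ _ _ (by rw [eS_length m (by omega), dvh_len]) (by rw [dx2_length, dvh_len])]
      have a1 := lv_dx2 x y m (pSm (-54) f) (sv DL F x y)
      have a2 := lv_dx2 x y n (pSm (-54) f) (sv DL F x y)
      have a3 := lv_eS x y m oneP (sv DL F x y)
      have a4 := lv_eS x y n oneP (sv DL F x y)
      unfold lv at a1 a2 a3 a4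
      rw [a1, a2, a3, a4, ev_pSm, ev_pSm, ev_M2, hone]
      unfold mf
      push_cast
      ring
    simp only []
    rw [e1]
    have hN := (dvh_Npos y).ne'
    have hM := (dvh_mpos x).ne'
    field_simp
    ring

end Pool.Agent.MCA
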