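import Pool.Agent.MCA.DRV
/-!
DVK (100 lines). Divergence of the K gauge.

PROOF. `∂_y (N⁻¹ K q ψ)`, `ψ = κ - u + y q`, `ψ_y = κ_y - q + q + y μ = 2 Z` (`kay`: `κ_y = 2 Z - y μ`), `q_y = μ`;
`m ∂_x (-2 N⁻¹ K q ν) = -2 N⁻¹ (m K_x q ν + K ν² + K q Z)` (`m q_x = ν`, `m ν_x = Z`): the terms with `Z` cancel. Hence
`-108 N³ div = -36 (3 N² K_y - y K) q ψ - 36 (3 N² K) μ ψ + 108·2 N² (m K_x q ν + K ν²)`.
Compare `MSQ.DivQ`.
-/
set_option autoImplicit false

open MeasureTheory Set Pool.Agent.MSQ Pool.Agent.MTR Pool.Agent.MGF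

namespace Pool.Agent.MCA

private theorem dvk_Npos (y : ℝ) : 0 < Nf y := Real.sqrt_pos.2 (by positivity)

private theorem dvk_Nsq (y : ℝ) : Nf y ^ 2 = 1 + y ^ 2 / 3 := Real.sq_sqrt (by positivity)

private theorem dvk_N (y : ℝ) : HasDerivAt Nf (y / (3 * Nf y)) y := by
  have h1 : HasDerivAt (fun t : ℝ => 1 + t ^ 2 / 3) (2 * y / 3) y := by
    have h2 := ((hasDerivAt_pow 2 y).div_const 3).const_add 1
    refine h2.congr_deriv ?_
    norm_num
  have h3 := h1.sqrt (by positivity : (1 : ℝ) + y ^ 2 / 3 ≠ 0)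
  refine h3.congr_deriv ?_
  change 2 * y / 3 / (2 * Nf y) = y / (3 * Nf y)
  have h4 := (dvk_Npos y).ne'
  field_simp

private theorem dvk_cN : Continuous fun z : ℝ × ℝ => Nf z.2 := by
  have h : Continuous Nf := by
    unfold Nf
    fun_prop
  exact h.comp continuous_snd

private theorem dvk_mf_pos (x : ℝ) : 0 < mf x := by
  unfold mf
  positivity

private theorem dvk_cm : Continuous fun z : ℝ × ℝ => mf z.1 := by
  have h : Continuous mf := by
    unfold mf
    fun_prop
  exact h.comp continuous_fst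

theorem dvK (DL : Int) {F : Fd} {Z E cy dy : ℝ → ℝ → ℝ} (h : FOK F Z E cy dy) (K : P) :
    DivP (fun x y => VyK K x y (sv DL F x y)) (fun x y => VxK K x y (sv DL F x y))
      (fun x y => qf (evE x y (rK K)) (sv DL F x y)) := by
  have hS := h.js
  have hc : ∀ p : P, Continuous fun z : ℝ × ℝ => ev z.1 z.2 p := continuous_ev
  have hpsi : Continuous fun z : ℝ × ℝ => (F.S z.1 z.2).ka - (F.S z.1 z.2).u + z.2 * (F.S z.1 z.2).q :=
    (hS.cka.sub hS.cu).add (continuous_snd.mul hS.cq)
  refine ⟨fun x y => (ev x y (pDY K) * (F.S x y).q *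
        ((F.S x y).ka - (F.S x y).u + y * (F.S x y).q) +
      ev x y K * (F.S x y).mu * ((F.S x y).ka - (F.S x y).u + y * (F.S x y).q) +
      ev x y K * (F.S x y).q * (2 * Z x y)) / Nf y -
      ev x y K * (F.S x y).q * ((F.S x y).ka - (F.S x y).u + y * (F.S x y).q) * (y / (3 * Nf y ^ 3)),
    fun x y => -2 * (ev x y (pDX K) * (F.S x y).q * (F.S x y).nu +
      ev x y K * ((F.S x y).nu / mf x) * (F.S x y).nu + ev x y K * (F.S x y).q * (Z x y / mf x)) / Nf y,
    ?_, ?_, ?_, ?_, ?_⟩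
  · refine ((((((hc _).mul hS.cq).mul hpsi).add (((hc _).mul hS.cmu).mul hpsi)).add
      (((hc _).mul hS.cq).mul (continuous_const.mul hS.cZ))).div dvk_cN fun z => (dvk_Npos z.2).ne').sub
      ((((hc _).mul hS.cq).mul hpsi).mul
        (continuous_snd.div (continuous_const.mul (dvk_cN.pow 3)) fun z => ?_))
    exact mul_ne_zero (by norm_num) (pow_ne_zero 3 (dvk_Npos z.2).ne')
  · refine (continuous_const.mul (((((hc _).mul hS.cq).mul hS.cnu).add (((hc _).mul
      (hS.cnu.div dvk_cm fun z => (dvk_mf_pos z.1).ne')).mul hS.cnu)).add (((hc _).mul hS.cq).mul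
      (hS.cZ.div dvk_cm fun z => (dvk_mf_pos z.1).ne')))).div dvk_cN fun z => (dvk_Npos z.2).ne'
  · intro x y
    have hN := (dvk_Npos y).ne'
    have d1 := ((hasDerivAt_ev_y x y K).mul (hS.qy x y)).mul
      (((hS.kay x y).sub (hS.uy x y)).add ((hasDerivAt_id y).mul (hS.qy x y)))
    have d2 := d1.div (dvk_N y) hN
    have e : (fun t => VyK K x t (sv DL F x t)) = fun t => ev x t K * (F.S x t).q *
        ((F.S x t).ka - (F.S x t).u + id t * (F.S x t).q) / Nf t := by
      funext t
      rfl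
    rw [e]
    refine d2.congr_deriv ?_
    simp only [Pi.mul_apply, Pi.sub_apply, Pi.add_apply, id]
    field_simp
    ring
  · intro x y
    have hN := (dvk_Npos y).ne'
    have hm := (dvk_mf_pos x).ne'
    have d1 := ((((hasDerivAt_ev_x x y K).const_mul (-2)).mul (hS.qx x y)).mul (hS.nux x y)).div_const (Nf y)
    have e : (fun t => VxK K t y (sv DL F t y)) = fun t => -2 * ev t y K * (F.S t y).q * (F.S t y).nu / Nf y := by
      funext t
      rfl
    rw [e]
    refine d1.congr_deriv ?_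
    simp only [Pi.mul_apply]
    field_simp
    ring
  · intro x y
    have hlen : (sv DL F x y).length = 11 := rfl
    have hone : ev x y oneP = 1 := by simp [oneP, ev, evL]
    have e1 : qf (evE x y (rK K)) (sv DL F x y) =
        (-36 * (3 * Af x y K) * (F.S x y).q + -36 * (3 * Nf y ^ 2 * ev x y K) * (F.S x y).mu) *
          ((F.S x y).ka - (F.S x y).u + y * (F.S x y).q) +
        36 * (3 * Nf y ^ 2 * (2 * mf x * ev x y (pDX K))) * ((F.S x y).q * (F.S x y).nu) +
        72 * (3 * Nf y ^ 2 * ev x y K) * ((F.S x y).nu * (F.S x y).nu) := by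
      have h3 : 3 + y ^ 2 = 3 * Nf y ^ 2 := by
        rw [dvk_Nsq]
        ring
      have hm2 : ∀ p : P, ev x y (M2 p) = 2 * mf x * ev x y p := by
        intro p
        rw [ev_M2]
        unfold mf
        ring
      simp only [rK, qf_sumQ, List.map_cons, List.map_nil, List.sum_cons, List.sum_nil, add_zero]
      rw [qf_qMul x y _ _ _ (by
          rw [qAdd_length _ _ 11 (eS_length 2 (by norm_num) _) (eS_length 8 (by norm_num) _), hlen])
          (by rw [psS_length, hlen]),
        qf_sS x y 2 9 (by norm_num) (by norm_num) _ _ hlen, qf_sS x y 9 9 (by norm_num) (by norm_num) _ _ hlen]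
      have a1 := lv_qAdd x y (eS 2 (pSm (-36) (AG K))) (eS 8 (pSm (-36) (N3 K))) (sv DL F x y)
      have a2 := lv_psS x y oneP (sv DL F x y)
      rw [lv_eS, lv_eS] at a1
      unfold lv at a1 a2
      rw [a1, a2, hone]
      simp only [ev_pSm, ev_AG, ev_N3, hm2, h3]
      simp only [sv, List.getD_cons_zero, List.getD_cons_succ]
      push_cast
      ring
    beta_reduce
    rw [e1]
    have hN := (dvk_Npos y).ne'
    have hm := (dvk_mf_pos x).ne'
    have hA : Af x y K = Nf y ^ 2 * ev x y (pDY K) - y * ev x y K / 3 := by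
      rw [dvk_Nsq]
      rfl
    rw [hA]
    field_simp
    ring

end Pool.Agent.MCA
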