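import Pool.Agent.MCA.DRV
/-!
DVL. Divergence of the linear part of the gauge.
-/
set_option autoImplicit false

open MeasureTheory Set Pool.Agent.MSQ Pool.Agent.MTR Pool.Agent.MGF

namespace Pool.Agent.MCA

private theorem DVL_Nsq (y : ℝ) : 3 + y ^ 2 = 3 * Nf y ^ 2 := by
  unfold Nf
  rw [Real.sq_sqrt (by positivity)]
  ring

private theorem DVL_Npos (y : ℝ) : 0 < Nf y := by
  unfold Nf
  positivity

private theorem DVL_mf (x : ℝ) : HasDerivAt mf x x := by
  unfold mf
  have h := ((hasDerivAt_pow 2 x).div_const 2).const_add 1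
  refine h.congr_deriv ?_
  norm_num

private theorem DVL_mf_pos (x : ℝ) : 0 < mf x := by
  unfold mf
  positivity

private theorem DVL_mf_cont : Continuous mf := by
  unfold mf
  fun_prop

theorem ev_NN3 (x y : ℝ) (p : P) : ev x y (NN 3 p) = 27 * Nf y ^ 6 * ev x y p := by
  have h1 : NN 3 p = N3 (N3 (N3 p)) := rfl
  rw [h1, ev_N3, ev_N3, ev_N3, DVL_Nsq]
  ring

private theorem DVL_add {V1 V2 r W1 W2 t : ℝ → ℝ → ℝ} (h1 : DivP V1 V2 r) (h2 : DivP W1 W2 t) :
    DivP (fun x y => V1 x y + W1 x y) (fun x y => V2 x y + W2 x y) (fun x y => r x y + t x y) := by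
  obtain ⟨A, B, hA, hB, hdA, hdB, hr⟩ := h1
  obtain ⟨A', B', hA', hB', hdA', hdB', hr'⟩ := h2
  refine ⟨fun x y => A x y + A' x y, fun x y => B x y + B' x y, hA.add hA', hB.add hB',
    fun x y => (hdA x y).add (hdA' x y), fun x y => (hdB x y).add (hdB' x y), fun x y => ?_⟩
  beta_reduce
  rw [← hr, ← hr']
  ring

private theorem DVL_congr {V1 V2 r W1 W2 t : ℝ → ℝ → ℝ} (h : DivP V1 V2 r) (h1 : ∀ x y, W1 x y = V1 x y)
    (h2 : ∀ x y, W2 x y = V2 x y) (h3 : ∀ x y, t x y = r x y) : DivP W1 W2 t := by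
  have e1 : W1 = V1 := funext fun x => funext fun y => h1 x y
  have e2 : W2 = V2 := funext fun x => funext fun y => h2 x y
  have e3 : t = r := funext fun x => funext fun y => h3 x y
  rw [e1, e2, e3]
  exact h

/-- part with `u, q, p` -/
private theorem DVL_one {F : Fd} {Z E cy dy : ℝ → ℝ → ℝ} (h : FOK F Z E cy dy) (f0 f1 f2 h2 : P) :
    DivP (fun x y => ev x y f0 * (F.S x y).u + ev x y f1 * (F.S x y).q + ev x y f2 * (F.S x y).p)
      (fun x y => -ev x y (pDY f2) * (F.S x y).u + ev x y h2 * (F.S x y).p -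
        mf x * ev x y (pDX h2) * (F.S x y).u)
      (fun x y => -108 * Nf y ^ 3 * (ev x y (pDY f0) * (F.S x y).u + ev x y f0 * (F.S x y).q +
        ev x y (pDY f1) * (F.S x y).q + ev x y f1 * (F.S x y).mu + ev x y f2 * (F.S x y).nu -
        mf x * ev x y (pDX (pDY f2)) * (F.S x y).u +
        ev x y h2 * ((F.S x y).ka - (F.S x y).u + y * (F.S x y).q) / 2 -
        mf x * (x * ev x y (pDX h2) + mf x * ev x y (pDX (pDX h2))) * (F.S x y).u)) := by
  have hc : ∀ p : P, Continuous fun z : ℝ × ℝ => ev z.1 z.2 p := continuous_ev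
  have hm : Continuous fun z : ℝ × ℝ => mf z.1 := DVL_mf_cont.comp continuous_fst
  have hS := h.js
  refine ⟨fun x y => (ev x y (pDY f0) * (F.S x y).u + ev x y f0 * (F.S x y).q) +
      (ev x y (pDY f1) * (F.S x y).q + ev x y f1 * (F.S x y).mu) +
      (ev x y (pDY f2) * (F.S x y).p + ev x y f2 * (F.S x y).nu),
    fun x y => (-ev x y (pDX (pDY f2)) * (F.S x y).u + -ev x y (pDY f2) * ((F.S x y).p / mf x)) +
      (ev x y (pDX h2) * (F.S x y).p + ev x y h2 *
        (((F.S x y).ka - (F.S x y).u + y * (F.S x y).q) / (2 * mf x))) -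
      ((x * ev x y (pDX h2) + mf x * ev x y (pDX (pDX h2))) * (F.S x y).u +
        (mf x * ev x y (pDX h2)) * ((F.S x y).p / mf x)), ?_, ?_, ?_, ?_, ?_⟩
  · exact ((((hc _).mul hS.cu).add ((hc _).mul hS.cq)).add (((hc _).mul hS.cq).add
      ((hc _).mul hS.cmu))).add (((hc _).mul hS.cp).add ((hc _).mul hS.cnu))
  · have hpm : Continuous fun z : ℝ × ℝ => (F.S z.1 z.2).p / mf z.1 :=
      hS.cp.div hm (fun z => (DVL_mf_pos z.1).ne')
    have hkm : Continuous fun z : ℝ × ℝ =>
        ((F.S z.1 z.2).ka - (F.S z.1 z.2).u + z.2 * (F.S z.1 z.2).q) / (2 * mf z.1) := by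
      refine ((hS.cka.sub hS.cu).add (continuous_snd.mul hS.cq)).div (continuous_const.mul hm) ?_
      intro z
      have := DVL_mf_pos z.1
      positivity
    exact (((((hc _).neg).mul hS.cu).add (((hc _).neg).mul hpm)).add (((hc _).mul hS.cp).add
      ((hc _).mul hkm))).sub ((((continuous_fst.mul (hc _)).add (hm.mul (hc _))).mul hS.cu).add
      ((hm.mul (hc _)).mul hpm))
  · intro x y
    exact (((hasDerivAt_ev_y x y f0).mul (hS.uy x y)).add
      ((hasDerivAt_ev_y x y f1).mul (hS.qy x y))).add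
      ((hasDerivAt_ev_y x y f2).mul (hS.py x y))
  · intro x y
    exact (((hasDerivAt_ev_x x y (pDY f2)).neg.mul (hS.ux x y)).add
      ((hasDerivAt_ev_x x y h2).mul (hS.px x y))).sub
      (((DVL_mf x).mul (hasDerivAt_ev_x x y (pDX h2))).mul (hS.ux x y))
  · intro x y
    have h1 := (DVL_mf_pos x).ne'
    beta_reduce
    have e1 : mf x * ((F.S x y).p / mf x) = (F.S x y).p := by field_simp
    have e2 : mf x * (((F.S x y).ka - (F.S x y).u + y * (F.S x y).q) / (2 * mf x)) =
        ((F.S x y).ka - (F.S x y).u + y * (F.S x y).q) / 2 := by field_simp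
    linear_combination (-108 * Nf y ^ 3) * ((-ev x y (pDY f2) - mf x * ev x y (pDX h2)) * e1 +
      ev x y h2 * e2)

/-- loads on the horizontal sides -/
private theorem DVL_two {a : ℝ → ℝ} (ha : Continuous a) (f : P) :
    DivP (fun x y => ev x y f * a x) (fun _ _ => 0)
      (fun x y => -108 * Nf y ^ 3 * (ev x y (pDY f) * a x)) := by
  have hc : ∀ p : P, Continuous fun z : ℝ × ℝ => ev z.1 z.2 p := continuous_ev
  refine ⟨fun x y => ev x y (pDY f) * a x, fun _ _ => 0, (hc _).mul (ha.comp continuous_fst),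
    continuous_const, fun x y => (hasDerivAt_ev_y x y f).mul_const (a x), fun x y => hasDerivAt_const _ _,
    fun x y => ?_⟩
  ring

/-- loads on the vertical sides -/
private theorem DVL_three {c cy : ℝ → ℝ → ℝ} (hcc : Continuous fun z : ℝ × ℝ => c z.1 z.2)
    (hccy : Continuous fun z : ℝ × ℝ => cy z.1 z.2)
    (hcy : ∀ x y, HasDerivAt (fun t => c x t) (cy x y) y)
    (hcx : ∀ x y, HasDerivAt (fun t => c t y) ((x * y / 2 * cy x y - x / 2 * c x y) / mf x) x) (f : P) :
    DivP (fun x y => -(x * y / 2) * (ev x y f * c x y)) (fun x y => ev x y f * c x y)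
      (fun x y => -108 * Nf y ^ 3 * ((mf x * ev x y (pDX f) - x * y / 2 * ev x y (pDY f) -
        x * ev x y f) * c x y)) := by
  have hc : ∀ p : P, Continuous fun z : ℝ × ℝ => ev z.1 z.2 p := continuous_ev
  have hm : Continuous fun z : ℝ × ℝ => mf z.1 := DVL_mf_cont.comp continuous_fst
  refine ⟨fun x y => -(x / 2) * (ev x y f * c x y) + -(x * y / 2) *
      (ev x y (pDY f) * c x y + ev x y f * cy x y),
    fun x y => ev x y (pDX f) * c x y + ev x y f * ((x * y / 2 * cy x y - x / 2 * c x y) / mf x),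
    ?_, ?_, ?_, ?_, ?_⟩
  · have h1 : Continuous fun z : ℝ × ℝ => -(z.1 / 2) := by fun_prop
    have h2 : Continuous fun z : ℝ × ℝ => -(z.1 * z.2 / 2) := by fun_prop
    exact (h1.mul ((hc _).mul hcc)).add (h2.mul (((hc _).mul hcc).add ((hc _).mul hccy)))
  · have h1 : Continuous fun z : ℝ × ℝ => z.1 / 2 := by fun_prop
    have h2 : Continuous fun z : ℝ × ℝ => z.1 * z.2 / 2 := by fun_prop
    exact ((hc _).mul hcc).add ((hc _).mul (((h2.mul hccy).sub (h1.mul hcc)).div hm
      (fun z => (DVL_mf_pos z.1).ne')))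
  · intro x y
    have h1 : HasDerivAt (fun t : ℝ => -(x * t / 2)) (-(x / 2)) y := by
      have h2 := (((hasDerivAt_id y).const_mul x).div_const 2).neg
      refine h2.congr_deriv ?_
      ring
    exact h1.mul ((hasDerivAt_ev_y x y f).mul (hcy x y))
  · intro x y
    exact (hasDerivAt_ev_x x y f).mul (hcx x y)
  · intro x y
    have h1 := (DVL_mf_pos x).ne'
    beta_reduce
    have e1 : mf x * ((x * y / 2 * cy x y - x / 2 * c x y) / mf x) = x * y / 2 * cy x y - x / 2 * c x y := by
      field_simp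
    linear_combination (-108 * Nf y ^ 3) * ev x y f * e1

private theorem DVL_len (L : List (List P)) (h0 : L ≠ []) (h : ∀ A ∈ L, A.length = 11) :
    (sumQ L).length = 11 := by
  induction L with
  | nil => exact absurd rfl h0
  | cons A L ih =>
    have hA := h A List.mem_cons_self
    have h1 : sumQ (A :: L) = qAdd A (sumQ L) := rfl
    rw [h1]
    cases L with
    | nil =>
      have h2 : qAdd A (sumQ []) = A := by
        show addL pAdd A [] = A
        cases A <;> rfl
      rw [h2, hA]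
    | cons B L =>
      exact qAdd_length _ _ _ hA (ih (by simp) (fun C hC => h C (List.mem_cons_of_mem _ hC)))

private theorem DVL_Lf (x y : ℝ) (f : P) : ev x y (Lf f) = 2 * mf x * ev x y (pDX f) - x * y * ev x y (pDY f) := by
  unfold Lf negP mf
  rw [ev_pAdd, ev_M2, ev_pSm, ev_pX, ev_pY]
  push_cast
  ring

private theorem DVL_M2 (x y : ℝ) (p : P) : ev x y (M2 p) = 2 * mf x * ev x y p := by
  rw [ev_M2]
  unfold mf
  ring

theorem dvL (DL : Int) (hDL : 0 < DL) {F : Fd} {Z E cy dy : ℝ → ℝ → ℝ} (h : FOK F Z E cy dy) (g : Ga) :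
    DivP (fun x y => Vyl g x y (sv DL F x y)) (fun x y => Vxl g x y (sv DL F x y))
      (fun x y => qf (evE x y (rL DL g)) (sv DL F x y)) := by
  have h1 := DVL_one h g.f0 g.f1 g.f2 g.h2
  have h2 := DVL_two h.ca g.fa
  have h3 := DVL_two h.cb g.fb
  have h4 := DVL_three h.cc h.ccy h.hcy h.hcx g.fc
  have h5 := DVL_three h.cd h.cdy h.hdy h.hdx g.fd
  refine DVL_congr (DVL_add (DVL_add (DVL_add (DVL_add h1 h2) h3) h4) h5) ?_ ?_ ?_
  · intro x y
    simp only [Vyl, sv, List.getD_cons_zero, List.getD_cons_succ]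
    ring
  · intro x y
    simp only [Vxl, sv, List.getD_cons_zero, List.getD_cons_succ]
    ring
  · intro x y
    have hD : (DL : ℝ) ≠ 0 := by exact_mod_cast hDL.ne'
    have hN := (DVL_Npos y).ne'
    have hlen : (sv DL F x y).length = 11 := rfl
    have hE : ∀ (k : ℕ) (l : P), k ≤ 10 → List.length (eS k l) = 11 := fun k l hk => eS_length k hk l
    unfold rL
    rw [qf_qMul x y _ _ _ ((hE 0 _ (by norm_num)).trans hlen.symm) (by
      refine (DVL_len _ (by simp) ?_).trans hlen.symm
      intro A hA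
      simp only [List.mem_cons, List.not_mem_nil, or_false] at hA
      rcases hA with hA | hA | hA | hA | hA | hA | hA | hA | hA | hA | hA | hA | hA <;>
        (rw [hA]; apply hE; norm_num)), dotL_sumQ]
    have hlv : ∀ (k : ℕ) (l : P), dotL (evE x y (eS k l)) (sv DL F x y) = ev x y l * (sv DL F x y).getD k 0 :=
      fun k l => lv_eS x y k l _
    simp only [List.map_cons, List.map_nil, List.sum_cons, List.sum_nil, hlv, ev_pSm, ev_NN3, DVL_M2, ev_cP,
      ev_sumP, ev_pAdd, ev_pX, ev_pY, DVL_Lf]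
    simp only [sv, List.getD_cons_zero, List.getD_cons_succ]
    push_cast
    field_simp
    ring

end Pool.Agent.MCA
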