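import Pool.Agent.MCA.DRV
/-!
DVZ (100 lines). Divergence of a term of the list `Z`.

PROOF. every factor `s_k` (`k ≤ 3`, `6`, `7`) has `∂_y s_k = α`, `m ∂_x s_k = β` with `β - (x y/2) α = sL` (for `c`: `α = cy`,
`β = x y/2 cy - x/2 c`), all continuous. With `V = N⁻¹ f s s'`: `-108 N³ (m ∂_x V - (x y/2) ∂_y V - (x/2) V) =
-54 N² (2 m f_x - x y f_y) s s' - 18 x y² f s s' + 54 N² x f s s' - 18 (6 N² f sL s_m) s' - ...`; `lv_dl6`, `qf_sS`.
-/
set_option autoImplicit false

open MeasureTheory Set Pool.Agent.MSQ Pool.Agent.MTR Pool.Agent.MGF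

namespace Pool.Agent.MCA

private theorem dvz_Npos (y : ℝ) : 0 < Nf y := Real.sqrt_pos.2 (by positivity)

private theorem dvz_Nsq (y : ℝ) : Nf y ^ 2 = 1 + y ^ 2 / 3 := Real.sq_sqrt (by positivity)

private theorem dvz_mpos (x : ℝ) : 0 < mf x := by
  unfold mf
  positivity

private theorem dvz_N (y : ℝ) : HasDerivAt Nf (y / (3 * Nf y)) y := by
  have h1 : HasDerivAt (fun t : ℝ => 1 + t ^ 2 / 3) (2 * y / 3) y := by
    have h2 := ((hasDerivAt_pow 2 y).div_const 3).const_add 1
    refine h2.congr_deriv ?_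
    norm_num
  have h3 := h1.sqrt (by positivity : (1 : ℝ) + y ^ 2 / 3 ≠ 0)
  refine h3.congr_deriv ?_
  change 2 * y / 3 / (2 * Nf y) = y / (3 * Nf y)
  have h4 := (dvz_Npos y).ne'
  field_simp

private theorem dvz_cN : Continuous fun z : ℝ × ℝ => Nf z.2 := by
  have h : Continuous Nf := by
    unfold Nf
    fun_prop
  exact h.comp continuous_snd

private theorem dvz_cm : Continuous fun z : ℝ × ℝ => mf z.1 := by
  unfold mf
  fun_prop

private theorem dvz_len (DL : Int) (F : Fd) (x y : ℝ) : (sv DL F x y).length = 11 := rfl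

/-- data of a factor -/
private def DvzP (DL : Int) (F : Fd) (k : Nat) (al be : ℝ → ℝ → ℝ) : Prop :=
  (Continuous fun z : ℝ × ℝ => al z.1 z.2) ∧ (Continuous fun z : ℝ × ℝ => be z.1 z.2) ∧
    (∀ x y, HasDerivAt (fun t => (sv DL F x t).getD k 0) (al x y) y) ∧
    (∀ x y, HasDerivAt (fun t => (sv DL F t y).getD k 0) (be x y / mf x) x) ∧
    ∀ x y, be x y - x * y / 2 * al x y = sL (sv DL F x y) x y k

private theorem dvz_fac (DL : Int) {F : Fd} {Z E cy dy : ℝ → ℝ → ℝ} (h : FOK F Z E cy dy) (k : Nat)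
    (hk : k ≤ 3 ∨ k = 6 ∨ k = 7) : ∃ al be : ℝ → ℝ → ℝ, DvzP DL F k al be := by
  have hcase : k = 0 ∨ k = 1 ∨ k = 2 ∨ k = 3 ∨ k = 6 ∨ k = 7 := by omega
  rcases hcase with rfl | rfl | rfl | rfl | rfl | rfl
  · refine ⟨fun x y => sY (sv DL F x y) y 0, fun x y => sX (sv DL F x y) y 0, ?_, ?_,
      hasY DL h 0 (by norm_num), hasX DL h 0 (by norm_num), fun x y => ?_⟩
    · simp only [sY]
      refine ((continuous_snd.div (dvz_cN.pow 2) fun z => ?_).neg).mul (cont_sv DL h 0)
      exact pow_ne_zero 2 (dvz_Npos z.2).ne'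
    · simpa only [sX] using continuous_const
    · simp [sL]
  · refine ⟨fun x y => sY (sv DL F x y) y 1, fun x y => sX (sv DL F x y) y 1, ?_, ?_,
      hasY DL h 1 (by norm_num), hasX DL h 1 (by norm_num), fun x y => ?_⟩
    · simpa only [sY] using cont_sv DL h 2
    · simpa only [sX] using cont_sv DL h 3
    · simp [sL]
  · refine ⟨fun x y => sY (sv DL F x y) y 2, fun x y => sX (sv DL F x y) y 2, ?_, ?_,
      hasY DL h 2 (by norm_num), hasX DL h 2 (by norm_num), fun x y => ?_⟩
    · simpa only [sY] using cont_sv DL h 8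
    · simpa only [sX] using cont_sv DL h 9
    · simp [sL]
  · refine ⟨fun x y => sY (sv DL F x y) y 3, fun x y => sX (sv DL F x y) y 3, ?_, ?_,
      hasY DL h 3 (by norm_num), hasX DL h 3 (by norm_num), fun x y => ?_⟩
    · simpa only [sY] using cont_sv DL h 9
    · simp only [sX]
      exact (((cont_sv DL h 10).sub (cont_sv DL h 1)).add
        (continuous_snd.mul (cont_sv DL h 2))).div_const 2
    · simp [sL]
  · refine ⟨cy, fun x y => x * y / 2 * cy x y - x / 2 * F.c x y, h.ccy, ?_, ?_, ?_, fun x y => ?_⟩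
    · exact (((continuous_fst.mul continuous_snd).div_const 2).mul h.ccy).sub
        ((continuous_fst.div_const 2).mul h.cc)
    · intro x y
      simpa [sv] using h.hcy x y
    · intro x y
      simpa [sv] using h.hcx x y
    · simp [sL, sv]
  · refine ⟨dy, fun x y => x * y / 2 * dy x y - x / 2 * F.d x y, h.cdy, ?_, ?_, ?_, fun x y => ?_⟩
    · exact (((continuous_fst.mul continuous_snd).div_const 2).mul h.cdy).sub
        ((continuous_fst.div_const 2).mul h.cd)
    · intro x y
      simpa [sv] using h.hdy x y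
    · intro x y
      simpa [sv] using h.hdx x y
    · simp [sL, sv]

theorem dvZ (DL : Int) {F : Fd} {Z E cy dy : ℝ → ℝ → ℝ} (h : FOK F Z E cy dy) (t : Trm) (hm : t.1 ≤ 3 ∨ t.1 = 6 ∨ t.1 = 7) (hn : t.2.1 ≤ 3 ∨ t.2.1 = 6 ∨ t.2.1 = 7) :
    DivP (fun x y => -(x * y / 2) * (ev x y t.2.2 * ((sv DL F x y).getD t.1 0 * (sv DL F x y).getD t.2.1 0) / Nf y))
      (fun x y => ev x y t.2.2 * ((sv DL F x y).getD t.1 0 * (sv DL F x y).getD t.2.1 0) / Nf y)
      (fun x y => qf (evE x y (rZ t)) (sv DL F x y)) := by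
  obtain ⟨m, n, f⟩ := t
  simp only at hm hn
  obtain ⟨al, be, hal, hbe, hdy, hdx, hsl⟩ := dvz_fac DL h m hm
  obtain ⟨al', be', hal', hbe', hdy', hdx', hsl'⟩ := dvz_fac DL h n hn
  have c1 := cont_sv DL h m
  have c2 := cont_sv DL h n
  have c5 := continuous_ev f
  have c6 := continuous_ev (pDY f)
  have c7 := continuous_ev (pDX f)
  refine ⟨fun x y => -(x / 2) * (ev x y f * ((sv DL F x y).getD m 0 * (sv DL F x y).getD n 0) / Nf y) +
      -(x * y / 2) * ((ev x y (pDY f) * ((sv DL F x y).getD m 0 * (sv DL F x y).getD n 0) +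
      ev x y f * (al x y * (sv DL F x y).getD n 0 +
        (sv DL F x y).getD m 0 * al' x y)) / Nf y -
      ev x y f * ((sv DL F x y).getD m 0 * (sv DL F x y).getD n 0) * (y / (3 * Nf y ^ 3))),
    fun x y => (ev x y (pDX f) * ((sv DL F x y).getD m 0 * (sv DL F x y).getD n 0) +
      ev x y f * (be x y * (sv DL F x y).getD n 0 +
        (sv DL F x y).getD m 0 * be' x y) / mf x) / Nf y, ?_, ?_, ?_, ?_, ?_⟩
  · refine (((continuous_fst.div_const 2).neg).mul ((c5.mul (c1.mul c2)).div dvz_cN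
      fun z => (dvz_Npos z.2).ne')).add ((((continuous_fst.mul continuous_snd).div_const 2).neg).mul
      ((((c6.mul (c1.mul c2)).add (c5.mul ((hal.mul c2).add (c1.mul hal')))).div dvz_cN
      fun z => (dvz_Npos z.2).ne').sub ((c5.mul (c1.mul c2)).mul
        (continuous_snd.div (continuous_const.mul (dvz_cN.pow 3)) fun z => ?_))))
    exact mul_ne_zero (by norm_num) (pow_ne_zero 3 (dvz_Npos z.2).ne')
  · exact ((c7.mul (c1.mul c2)).add ((c5.mul ((hbe.mul c2).add (c1.mul hbe'))).div dvz_cm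
      fun z => (dvz_mpos z.1).ne')).div dvz_cN fun z => (dvz_Npos z.2).ne'
  · intro x y
    have d1 := hdy x y
    have d2 := hdy' x y
    have d3 := hasDerivAt_ev_y x y f
    have hN := (dvz_Npos y).ne'
    have d := (d3.mul (d1.mul d2)).div (dvz_N y) hN
    have d0 : HasDerivAt (fun t : ℝ => -(x * t / 2)) (-(x / 2)) y := by
      have h1 := (((hasDerivAt_id y).const_mul x).div_const 2).fun_neg
      refine h1.congr_deriv ?_
      ring
    have d4 := d0.mul d
    refine d4.congr_deriv ?_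
    simp only [Pi.mul_apply, Pi.div_apply]
    field_simp
    try ring
  · intro x y
    have d1 := hdx x y
    have d2 := hdx' x y
    have d3 := hasDerivAt_ev_x x y f
    have hN := (dvz_Npos y).ne'
    have hM := (dvz_mpos x).ne'
    have d := (d3.mul (d1.mul d2)).div_const (Nf y)
    refine d.congr_deriv ?_
    simp only [Pi.mul_apply]
    field_simp
  · intro x y
    have e1 : qf (evE x y (rZ (m, n, f))) (sv DL F x y) =
        (-54 * Nf y ^ 2 * ((2 + x ^ 2) * ev x y (pDX f) - x * y * ev x y (pDY f)) - 18 * x * y ^ 2 * ev x y f +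
          54 * Nf y ^ 2 * x * ev x y f) * ((sv DL F x y).getD m 0 * (sv DL F x y).getD n 0) +
        (6 * Nf y ^ 2 * (-18 * ev x y f * sL (sv DL F x y) x y m) * (sv DL F x y).getD n 0 +
        (sv DL F x y).getD m 0 * (6 * Nf y ^ 2 * (-18 * ev x y f * sL (sv DL F x y) x y n))) := by
      have hone : ev x y oneP = 1 := by simp [oneP, ev, evL]
      simp only [rZ, qf_sumQ, List.map_cons, List.map_nil, List.sum_cons, List.sum_nil, add_zero]
      rw [qf_sS x y m n (by omega) (by omega) _ _ (dvz_len DL F x y),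
        qf_qMul x y _ _ _ (by rw [dl6_length, dvz_len]) (by rw [eS_length n (by omega), dvz_len]),
        qf_qMul x y _ _ _ (by rw [eS_length m (by omega), dvz_len]) (by rw [dl6_length, dvz_len])]
      have a1 := lv_dl6 x y m (pSm (-18) f) (sv DL F x y)
      have a2 := lv_dl6 x y n (pSm (-18) f) (sv DL F x y)
      have a3 := lv_eS x y m oneP (sv DL F x y)
      have a4 := lv_eS x y n oneP (sv DL F x y)
      unfold lv at a1 a2 a3 a4
      rw [a1, a2, a3, a4, ev_pSm, hone]
      have hs := dvz_Nsq y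
      have h3 : (3 : ℝ) + y ^ 2 = 3 * Nf y ^ 2 := by rw [hs]; ring
      simp only [ev_sumP, List.map_cons, List.map_nil, List.sum_cons, List.sum_nil, add_zero, ev_pSm,
        ev_N3, ev_pX, ev_pY, Lf, negP, ev_pAdd, ev_M2, h3]
      push_cast
      ring
    simp only []
    rw [e1, ← hsl x y, ← hsl' x y]
    have hN := (dvz_Npos y).ne'
    have hM : (2 : ℝ) + x ^ 2 = 2 * mf x := by
      unfold mf
      ring
    have hM0 := (dvz_mpos x).ne'
    rw [hM]
    field_simp
    ring

end Pool.Agent.MCA
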