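import Pool.Agent.MCA.DVG
import Pool.Agent.MCA.DVH
import Pool.Agent.MCA.DVZ
import Pool.Agent.MCA.DVK
import Pool.Agent.MCA.DVL
/-!
DVA. The divergence identity of a gauge.
-/
set_option autoImplicit false

open MeasureTheory Set Pool.Agent.MSQ Pool.Agent.MTR Pool.Agent.MGF

namespace Pool.Agent.MCA

private theorem DVA_add {V1 V2 r W1 W2 t : ℝ → ℝ → ℝ} (h1 : DivP V1 V2 r) (h2 : DivP W1 W2 t) :
    DivP (fun x y => V1 x y + W1 x y) (fun x y => V2 x y + W2 x y) (fun x y => r x y + t x y) := by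
  obtain ⟨A, B, hA, hB, hdA, hdB, hr⟩ := h1
  obtain ⟨A', B', hA', hB', hdA', hdB', hr'⟩ := h2
  refine ⟨fun x y => A x y + A' x y, fun x y => B x y + B' x y, hA.add hA', hB.add hB',
    fun x y => (hdA x y).add (hdA' x y), fun x y => (hdB x y).add (hdB' x y), fun x y => ?_⟩
  beta_reduce
  rw [← hr, ← hr']
  ring

private theorem DVA_congr {V1 V2 r W1 W2 t : ℝ → ℝ → ℝ} (h : DivP V1 V2 r) (h1 : ∀ x y, W1 x y = V1 x y)
    (h2 : ∀ x y, W2 x y = V2 x y) (h3 : ∀ x y, t x y = r x y) : DivP W1 W2 t := by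
  have e1 : W1 = V1 := funext fun x => funext fun y => h1 x y
  have e2 : W2 = V2 := funext fun x => funext fun y => h2 x y
  have e3 : t = r := funext fun x => funext fun y => h3 x y
  rw [e1, e2, e3]
  exact h

private theorem DVA_zero : DivP (fun _ _ => 0) (fun _ _ => 0) (fun _ _ => 0) := by
  refine ⟨fun _ _ => 0, fun _ _ => 0, continuous_const, continuous_const, fun x y => hasDerivAt_const _ _,
    fun x y => hasDerivAt_const _ _, fun x y => ?_⟩
  ring

private theorem DVA_sQ (x y : ℝ) (A : List P) (L : List (List P)) (s : List ℝ) :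
    qf (evE x y (sumQ (A :: L))) s = qf (evE x y A) s + qf (evE x y (sumQ L)) s := by
  rw [qf_sumQ, qf_sumQ, List.map_cons, List.sum_cons]

private theorem DVA_sN (x y : ℝ) (s : List ℝ) : qf (evE x y (sumQ [])) s = 0 := by
  rw [qf_sumQ, List.map_nil, List.sum_nil]

private theorem DVA_G (DL : Int) {F : Fd} {Z E cy dy : ℝ → ℝ → ℝ} (h : FOK F Z E cy dy) :
    ∀ L : List Trm, (∀ t ∈ L, t.1 ≤ 5 ∧ t.2.1 ≤ 5) →
      DivP (fun x y => tv x y (sv DL F x y) L / Nf y) (fun _ _ => 0)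
        (fun x y => qf (evE x y (sumQ (L.map rG))) (sv DL F x y))
  | [], _ => by
    refine DVA_congr DVA_zero ?_ (fun _ _ => rfl) ?_
    · intro x y
      simp [tv]
    · intro x y
      rw [List.map_nil, DVA_sN]
  | t :: L, hL => by
    have h1 := dvG DL h t (hL t List.mem_cons_self).1 (hL t List.mem_cons_self).2
    have h2 := DVA_G DL h L (fun u hu => hL u (List.mem_cons_of_mem _ hu))
    refine DVA_congr (DVA_add h1 h2) ?_ ?_ ?_
    · intro x y
      simp only [tv, List.map_cons, List.sum_cons, add_div]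
    · intro x y
      simp
    · intro x y
      rw [List.map_cons, DVA_sQ]

private theorem DVA_H (DL : Int) {F : Fd} {Z E cy dy : ℝ → ℝ → ℝ} (h : FOK F Z E cy dy) :
    ∀ L : List Trm, (∀ t ∈ L, t.1 ≤ 3 ∧ t.2.1 ≤ 3) →
      DivP (fun _ _ => 0) (fun x y => tv x y (sv DL F x y) L / Nf y ^ 3)
        (fun x y => qf (evE x y (sumQ (L.map rH))) (sv DL F x y))
  | [], _ => by
    refine DVA_congr DVA_zero (fun _ _ => rfl) ?_ ?_
    · intro x y
      simp [tv]
    · intro x y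
      rw [List.map_nil, DVA_sN]
  | t :: L, hL => by
    have h1 := dvH DL h t (hL t List.mem_cons_self).1 (hL t List.mem_cons_self).2
    have h2 := DVA_H DL h L (fun u hu => hL u (List.mem_cons_of_mem _ hu))
    refine DVA_congr (DVA_add h1 h2) ?_ ?_ ?_
    · intro x y
      simp
    · intro x y
      simp only [tv, List.map_cons, List.sum_cons, add_div]
    · intro x y
      rw [List.map_cons, DVA_sQ]

private theorem DVA_Z (DL : Int) {F : Fd} {Z E cy dy : ℝ → ℝ → ℝ} (h : FOK F Z E cy dy) :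
    ∀ L : List Trm, (∀ t ∈ L, (t.1 ≤ 3 ∨ t.1 = 6 ∨ t.1 = 7) ∧ (t.2.1 ≤ 3 ∨ t.2.1 = 6 ∨ t.2.1 = 7)) →
      DivP (fun x y => -(x * y / 2) * (tv x y (sv DL F x y) L / Nf y))
        (fun x y => tv x y (sv DL F x y) L / Nf y)
        (fun x y => qf (evE x y (sumQ (L.map rZ))) (sv DL F x y))
  | [], _ => by
    refine DVA_congr DVA_zero ?_ ?_ ?_
    · intro x y
      simp [tv]
    · intro x y
      simp [tv]
    · intro x y
      rw [List.map_nil, DVA_sN]
  | t :: L, hL => by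
    have h1 := dvZ DL h t (hL t List.mem_cons_self).1 (hL t List.mem_cons_self).2
    have h2 := DVA_Z DL h L (fun u hu => hL u (List.mem_cons_of_mem _ hu))
    refine DVA_congr (DVA_add h1 h2) ?_ ?_ ?_
    · intro x y
      simp only [tv, List.map_cons, List.sum_cons]
      ring
    · intro x y
      simp only [tv, List.map_cons, List.sum_cons, add_div]
    · intro x y
      rw [List.map_cons, DVA_sQ]

private theorem DVA_wf (g : Ga) (hg : wfG g = true) : (∀ t ∈ g.G, t.1 ≤ 5 ∧ t.2.1 ≤ 5) ∧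
    (∀ t ∈ g.H, t.1 ≤ 3 ∧ t.2.1 ≤ 3) ∧
    (∀ t ∈ g.Z, (t.1 ≤ 3 ∨ t.1 = 6 ∨ t.1 = 7) ∧ (t.2.1 ≤ 3 ∨ t.2.1 = 6 ∨ t.2.1 = 7)) := by
  simp only [wfG, Bool.and_eq_true, List.all_eq_true, decide_eq_true_eq, Bool.or_eq_true, beq_iff_eq] at hg
  refine ⟨hg.1.1, hg.1.2, fun t ht => ?_⟩
  have h1 := hg.2 t ht
  exact ⟨or_assoc.1 h1.1, or_assoc.1 h1.2⟩

theorem divA (D DL : Int) (hDL : 0 < DL) (g : Ga) (hg : wfG g = true) (l : LF) (hl : l.length = 11) {F : Fd}
    {Z E cy dy : ℝ → ℝ → ℝ} (h : FOK F Z E cy dy) :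
    DivP (fun x y => Vy g x y (sv DL F x y)) (fun x y => Vx g x y (sv DL F x y))
      (fun x y => qf (evE x y (rA D DL g l)) (sv DL F x y) -
        108 * D * ((F.S x y).u * (F.S x y).ka + 3 * Nf y ^ 2 * ((F.S x y).u * (F.S x y).mu)) -
        1 / (DL * Nf y ^ 3) * lv x y l (sv DL F x y)) := by
  obtain ⟨hG, hH, hZ⟩ := DVA_wf g hg
  have h1 := DVA_G DL h g.G hG
  have h2 := DVA_H DL h g.H hH
  have h3 := DVA_Z DL h g.Z hZ
  have h4 := dvK DL h g.K
  have h5 := dvL DL hDL h g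
  refine DVA_congr (DVA_add (DVA_add (DVA_add (DVA_add h1 h2) h3) h4) h5) ?_ ?_ ?_
  · intro x y
    simp only [Vy]
    ring
  · intro x y
    simp only [Vx]
    ring
  · intro x y
    have hlen : (sv DL F x y).length = 11 := rfl
    have hN : 3 + y ^ 2 = 3 * Nf y ^ 2 := by
      unfold Nf
      rw [Real.sq_sqrt (by positivity)]
      ring
    have hE : ∀ (k : ℕ) (l : P), k ≤ 10 → List.length (eS k l) = 11 := fun k l hk => eS_length k hk l
    have hone : ev x y oneP = 1 := by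
      simp [oneP, ev, evL]
    have hB : qf (evE x y (rB D)) (sv DL F x y) =
        108 * D * ((F.S x y).u * (F.S x y).ka + 3 * Nf y ^ 2 * ((F.S x y).u * (F.S x y).mu)) := by
      unfold rB
      rw [qf_qAdd, qf_sS x y 1 10 (by norm_num) (by norm_num) _ _ hlen,
        qf_sS x y 1 8 (by norm_num) (by norm_num) _ _ hlen, ev_cP, ev_pSm, ev_N3, hone, hN]
      simp only [sv, List.getD_cons_zero, List.getD_cons_succ]
      push_cast
      ring
    have hl0 : qf (evE x y (qMul (eS 0 oneP) l)) (sv DL F x y) =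
        1 / (DL * Nf y ^ 3) * lv x y l (sv DL F x y) := by
      rw [qf_qMul x y _ _ _ ((hE 0 _ (by norm_num)).trans hlen.symm) (hl.trans hlen.symm)]
      have h6 : dotL (evE x y (eS 0 oneP)) (sv DL F x y) = ev x y oneP * (sv DL F x y).getD 0 0 :=
        lv_eS x y 0 oneP _
      rw [h6, hone]
      simp only [sv, List.getD_cons_zero, lv]
      ring
    unfold rA
    rw [DVA_sQ, DVA_sQ, DVA_sQ, DVA_sQ, DVA_sQ, DVA_sQ, DVA_sQ, DVA_sN, hB, hl0]
    ring

end Pool.Agent.MCA
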