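import Pool.Agent.MCA.QUD
import Pool.Agent.MCA.CVX
import Pool.Agent.MCA.DVA
import Pool.Agent.MCA.GRC
import Pool.Agent.MCA.FLD
import Pool.Agent.MSQ.RDiv
/-!
QUA1. The inequalities `q_core`, `q_sl` (first part of QUA).
-/
set_option autoImplicit false

open MeasureTheory Set Pool.Agent.MSQ Pool.Agent.MTR Pool.Agent.MGF

namespace Pool.Agent.MCA

private theorem qua1_Npos (y : ℝ) : 0 < Nf y := Real.sqrt_pos.2 (by positivity)

private theorem qua1_mpos (x : ℝ) : 0 < mf x := by unfold mf; positivity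

private theorem qua1_mcont : Continuous mf := by unfold mf; fun_prop

private theorem qua1_Ncont : Continuous Nf := by unfold Nf; fun_prop

/-- values of a covered quadratic form -/
theorem cov_nn {cov : List (List Itm) → Bool} {rg : Rgn} {R : List P} (h : Cov cov rg R) {x y : ℝ}
    (hc : ∀ L, cov L = true → ∃ c ∈ L, ∃ b ∈ c, inI b x y) {s : List ℝ} (hs : s.length = 11)
    (hr : ROK rg x y s) : 0 ≤ qf (evE x y R) s := by
  obtain ⟨L, hL, hb⟩ := h
  obtain ⟨c, hc1, b, hb1, hi⟩ := hc L hL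
  exact hb c hc1 b hb1 x y hi s hs hr

private theorem qua1_cont_tv (DL : Int) {F : Fd} {Z E cy dy : ℝ → ℝ → ℝ} (h : FOK F Z E cy dy) (L : List Trm) :
    Continuous fun z : ℝ × ℝ => tv z.1 z.2 (sv DL F z.1 z.2) L := by
  induction L with
  | nil => simpa [tv] using continuous_const
  | cons t L ih =>
    have e : (fun z : ℝ × ℝ => tv z.1 z.2 (sv DL F z.1 z.2) (t :: L)) = fun z : ℝ × ℝ =>
        ev z.1 z.2 t.2.2 * ((sv DL F z.1 z.2).getD t.1 0 * (sv DL F z.1 z.2).getD t.2.1 0) +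
          tv z.1 z.2 (sv DL F z.1 z.2) L := by
      funext z
      simp only [tv, List.map_cons, List.sum_cons]
    rw [e]
    exact ((continuous_ev _).mul ((cont_sv DL h _).mul (cont_sv DL h _))).add ih

theorem cont_Vx (DL : Int) {F : Fd} {Z E cy dy : ℝ → ℝ → ℝ} (h : FOK F Z E cy dy) (g : Ga) :
    Continuous fun z : ℝ × ℝ => Vx g z.1 z.2 (sv DL F z.1 z.2) := by
  have hN : Continuous fun z : ℝ × ℝ => Nf z.2 := qua1_Ncont.comp continuous_snd
  have hm : Continuous fun z : ℝ × ℝ => mf z.1 := qua1_mcont.comp continuous_fst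
  have hn : ∀ z : ℝ × ℝ, Nf z.2 ≠ 0 := fun z => (qua1_Npos z.2).ne'
  have hn3 : ∀ z : ℝ × ℝ, Nf z.2 ^ 3 ≠ 0 := fun z => pow_ne_zero 3 (hn z)
  have hc : ∀ p : P, Continuous fun z : ℝ × ℝ => ev z.1 z.2 p := continuous_ev
  have hs := cont_sv DL h
  have ht := qua1_cont_tv DL h
  unfold Vx VxK Vxl
  refine ((((ht g.H).div (hN.pow 3) hn3).add ((ht g.Z).div hN hn)).add ?_).add ?_
  · exact (((continuous_const.mul (hc _)).mul (hs _)).mul (hs _)).div hN hn
  · exact (((((hc _).neg.mul (hs _)).add ((hc _).mul (hs _))).sub ((hm.mul (hc _)).mul (hs _))).add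
      ((hc _).mul (hs _))).add ((hc _).mul (hs _))

theorem cont_Vy (DL : Int) {F : Fd} {Z E cy dy : ℝ → ℝ → ℝ} (h : FOK F Z E cy dy) (g : Ga) :
    Continuous fun z : ℝ × ℝ => Vy g z.1 z.2 (sv DL F z.1 z.2) := by
  have hN : Continuous fun z : ℝ × ℝ => Nf z.2 := qua1_Ncont.comp continuous_snd
  have hn : ∀ z : ℝ × ℝ, Nf z.2 ≠ 0 := fun z => (qua1_Npos z.2).ne'
  have hxy : Continuous fun z : ℝ × ℝ => z.1 * z.2 / 2 := (continuous_fst.mul continuous_snd).div_const 2
  have hc : ∀ p : P, Continuous fun z : ℝ × ℝ => ev z.1 z.2 p := continuous_ev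
  have hs := cont_sv DL h
  have ht := qua1_cont_tv DL h
  unfold Vy VyK Vyl
  refine ((((ht g.G).div hN hn).sub (hxy.mul ((ht g.Z).div hN hn))).add ?_).add ?_
  · exact (((hc _).mul (hs _)).mul (((hs _).sub (hs _)).add (continuous_snd.mul (hs _)))).div hN hn
  · exact ((((((hc _).mul (hs _)).add ((hc _).mul (hs _))).add ((hc _).mul (hs _))).add
      ((hc _).mul (hs _))).add ((hc _).mul (hs _))).sub (hxy.mul (((hc _).mul (hs _)).add ((hc _).mul (hs _))))

private theorem qua1_cont_bC {S : ℝ → ℝ → St} {Z E : ℝ → ℝ → ℝ} (h : JS S Z E) :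
    Continuous fun z : ℝ × ℝ => bC z.2 (S z.1 z.2) / mf z.1 := by
  have hN : Continuous fun z : ℝ × ℝ => Nf z.2 := qua1_Ncont.comp continuous_snd
  have hm : Continuous fun z : ℝ × ℝ => mf z.1 := qua1_mcont.comp continuous_fst
  have hn : ∀ z : ℝ × ℝ, Nf z.2 ≠ 0 := fun z => (qua1_Npos z.2).ne'
  unfold bC
  refine Continuous.div (Continuous.add ?_ ?_) hm fun z => (qua1_mpos z.1).ne'
  · exact ((((continuous_const.mul (hN.pow 2)).mul h.cu).mul h.cmu).add (h.cu.mul h.cka)).div (hN.pow 3)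
      fun z => pow_ne_zero 3 (hn z)
  · exact ((continuous_const.sub (continuous_const.mul hN)).mul h.cu).div (hN.pow 4)
      fun z => pow_ne_zero 4 (hn z)

private theorem qua1_cont_bS {S : ℝ → ℝ → St} {Z E : ℝ → ℝ → ℝ} (h : JS S Z E) :
    Continuous fun z : ℝ × ℝ => bS z.2 (S z.1 z.2) / mf z.1 := by
  have hN : Continuous fun z : ℝ × ℝ => Nf z.2 := qua1_Ncont.comp continuous_snd
  have hm : Continuous fun z : ℝ × ℝ => mf z.1 := qua1_mcont.comp continuous_fst
  have hn : ∀ z : ℝ × ℝ, Nf z.2 ≠ 0 := fun z => (qua1_Npos z.2).ne'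
  unfold bS
  refine Continuous.div (Continuous.sub ?_ ?_) hm fun z => (qua1_mpos z.1).ne'
  · exact ((((continuous_const.mul (hN.pow 2)).mul h.cu).mul h.cmu).add (h.cu.mul h.cka)).div (hN.pow 3)
      fun z => pow_ne_zero 3 (hn z)
  · exact (continuous_const.mul h.cu).div (hN.pow 4) fun z => pow_ne_zero 4 (hn z)

private theorem qua1_pt {N m D bb A B k q lv c : ℝ} (hN : 0 < N) (hm : 0 < m)
    (h1 : -108 * N ^ 3 * (A + m * B) = q - 108 * D * c - lv) (hq : 0 ≤ q)
    (hb : 108 * N ^ 3 * (D * bb) - 108 * D * c + k * N ^ 3 * m ≥ lv) :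
    (A + m * B) / m - k / 108 ≤ D * (bb / m) := by
  have h3 : 0 < 108 * N ^ 3 := by positivity
  have h2 : 108 * N ^ 3 * (A + m * B) ≤ 108 * N ^ 3 * (D * bb + k / 108 * m) := by nlinarith
  have h4 := le_of_mul_le_mul_left h2 h3
  have h5 : (A + m * B) / m ≤ (D * bb + k / 108 * m) / m := div_le_div_of_nonneg_right h4 hm.le
  have h6 : (D * bb + k / 108 * m) / m = D * (bb / m) + k / 108 := by
    field_simp
  linarith

/-- integration of a pointwise inequality over the square -/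
private theorem qua1_sq (f g : ℝ → ℝ → ℝ) (k D : ℝ) (hf : Continuous fun z : ℝ × ℝ => f z.1 z.2)
    (hg : Continuous fun z : ℝ × ℝ => g z.1 z.2)
    (h : ∀ x y : ℝ, 0 ≤ x → x ≤ 1 → 0 ≤ y → y ≤ 1 → f x y - k ≤ D * g x y) :
    (∫ x in (0 : ℝ)..1, ∫ y in (0 : ℝ)..1, f x y) - k ≤ D * ∫ x in (0 : ℝ)..1, ∫ y in (0 : ℝ)..1, g x y := by
  have hin : ∀ x ∈ Icc (0 : ℝ) 1, (∫ y in (0 : ℝ)..1, f x y) - k ≤ ∫ y in (0 : ℝ)..1, D * g x y := by
    intro x hx
    have h1 : Continuous fun y => f x y := hf.comp (Continuous.prodMk_right x)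
    have h2 : Continuous fun y => g x y := hg.comp (Continuous.prodMk_right x)
    have h3 : (∫ y in (0 : ℝ)..1, f x y) - k = ∫ y in (0 : ℝ)..1, (f x y - k) := by
      rw [intervalIntegral.integral_sub (h1.intervalIntegrable _ _) intervalIntegrable_const,
        intervalIntegral.integral_const]
      simp
    rw [h3]
    exact intervalIntegral.integral_mono_on zero_le_one ((h1.sub continuous_const).intervalIntegrable _ _)
      ((continuous_const.mul h2).intervalIntegrable _ _) fun y hy => h x y hx.1 hx.2 hy.1 hy.2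
  have hG' : Continuous fun x => ∫ y in (0 : ℝ)..1, f x y :=
    intervalIntegral.continuous_parametric_intervalIntegral_of_continuous' hf 0 1
  have hb' : Continuous fun x => ∫ y in (0 : ℝ)..1, D * g x y :=
    intervalIntegral.continuous_parametric_intervalIntegral_of_continuous' (continuous_const.mul hg) 0 1
  have h4 := intervalIntegral.integral_mono_on (μ := volume) zero_le_one
    ((hG'.sub continuous_const).intervalIntegrable 0 1) (hb'.intervalIntegrable 0 1) hin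
  simp only [Pi.sub_apply] at h4
  rw [intervalIntegral.integral_sub (hG'.intervalIntegrable _ _) intervalIntegrable_const,
    intervalIntegral.integral_const] at h4
  simp only [intervalIntegral.integral_const_mul, sub_zero, one_smul] at h4
  exact h4

/-- integration of a pointwise inequality over the sliver -/
private theorem qua1_slv (f g : ℝ → ℝ → ℝ) (k D : ℝ) (hk0 : 0 ≤ k) (hf : Continuous fun z : ℝ × ℝ => f z.1 z.2)
    (hg : Continuous fun z : ℝ × ℝ => g z.1 z.2)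
    (h : ∀ x y : ℝ, 0 ≤ x → x ≤ 1 → 1 ≤ y → (2 + x ^ 2) * y ^ 2 ≤ 3 → f x y - k ≤ D * g x y) :
    (∫ x in (0 : ℝ)..1, ∫ y in (1 : ℝ)..yt x, f x y) - 3 / 20 * k ≤
      D * ∫ x in (0 : ℝ)..1, ∫ y in (1 : ℝ)..yt x, g x y := by
  have hin : ∀ x ∈ Icc (0 : ℝ) 1, (∫ y in (1 : ℝ)..yt x, f x y) - k * (yt x - 1) ≤
      ∫ y in (1 : ℝ)..yt x, D * g x y := by
    intro x hx
    have h1 : Continuous fun y => f x y := hf.comp (Continuous.prodMk_right x)
    have h2 : Continuous fun y => g x y := hg.comp (Continuous.prodMk_right x)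
    have h3 : (∫ y in (1 : ℝ)..yt x, f x y) - k * (yt x - 1) = ∫ y in (1 : ℝ)..yt x, (f x y - k) := by
      rw [intervalIntegral.integral_sub (h1.intervalIntegrable _ _) intervalIntegrable_const,
        intervalIntegral.integral_const, smul_eq_mul]
      ring
    rw [h3]
    exact intervalIntegral.integral_mono_on (yt_ge x hx.1 hx.2)
      ((h1.sub continuous_const).intervalIntegrable _ _)
      ((continuous_const.mul h2).intervalIntegrable _ _) fun y hy =>
        h x y hx.1 hx.2 hy.1 (yt_le x y (zero_le_one.trans hy.1) hy.2)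
  have hG' : Continuous fun x => ∫ y in (1 : ℝ)..yt x, f x y :=
    intervalIntegral.continuous_parametric_intervalIntegral_of_continuous hf yt_cont
  have hb' : Continuous fun x => ∫ y in (1 : ℝ)..yt x, D * g x y :=
    intervalIntegral.continuous_parametric_intervalIntegral_of_continuous (continuous_const.mul hg) yt_cont
  have hk : Continuous fun x => k * (yt x - 1) := continuous_const.mul (yt_cont.sub continuous_const)
  have h4 := intervalIntegral.integral_mono_on (μ := volume) zero_le_one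
    ((hG'.sub hk).intervalIntegrable 0 1) (hb'.intervalIntegrable 0 1) hin
  simp only [Pi.sub_apply] at h4
  rw [intervalIntegral.integral_sub (hG'.intervalIntegrable _ _) (hk.intervalIntegrable _ _)] at h4
  simp only [intervalIntegral.integral_const_mul] at h4
  have h6 := mul_le_mul_of_nonneg_left yt_area hk0
  linarith

theorem q_core (c : Sqd) (hc : c.Ok) (σ : Bool) (J : Jet) (hJ : J.Good) (hv : c.Val σ J) :
    (∫ x in (0 : ℝ)..1, (Vy (c.gC σ) x 1 (sv c.DL (FdC J) x 1) - Vy (c.gC σ) x 0 (sv c.DL (FdC J) x 0)) / mf x) +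
      (∫ y in (0 : ℝ)..1, (Vx (c.gC σ) 1 y (sv c.DL (FdC J) 1 y) - Vx (c.gC σ) 0 y (sv c.DL (FdC J) 0 y))) -
      c.kC σ / 108 ≤ c.kf * c.DF * IC J := by
  obtain ⟨Z, E, cy, dy, hF⟩ := fok_C J hJ
  obtain ⟨A, B, hA, hB, hdA, hdB, hr⟩ := divA (c.kf * c.DF) c.DL hc.pDL (c.gC σ) (hc.wC σ) (c.lC σ)
    (hc.lenC σ) hF
  have hdiv := RI_div 0 1 0 1 _ _ A B hA hB hdA hdB
  beta_reduce at hdiv
  rw [← hdiv]
  unfold RI IC
  have hG : Continuous fun z : ℝ × ℝ => (A z.1 z.2 + mf z.1 * B z.1 z.2) / mf z.1 :=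
    (hA.add ((qua1_mcont.comp continuous_fst).mul hB)).div (qua1_mcont.comp continuous_fst)
      fun z => (qua1_mpos z.1).ne'
  have hb : Continuous fun z : ℝ × ℝ => bC z.2 (AC J z.1 z.2) / mf z.1 := qua1_cont_bC hF.js
  have hpt : ∀ x y : ℝ, 0 ≤ x → x ≤ 1 → 0 ≤ y → y ≤ 1 →
      (A x y + mf x * B x y) / mf x - c.kC σ / 108 ≤ c.kf * c.DF * (bC y (AC J x y) / mf x) := by
    intro x y hx0 hx1 hy0 hy1
    have hq := cov_nn (hc.core σ) (x := x) (y := y)
      (fun L hL => covR_sound 0 1 L hL x y hx0 hx1 (by simpa using hy0) (by simpa using hy1))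
      (s := sv c.DL (FdC J) x y) rfl (hv.C x y hx0 hx1 hy0 hy1)
    have hl := hv.lC x y hx0 hx1 hy0 hy1
    have hN := qua1_Npos y
    have e := hr x y
    push_cast at e
    refine qua1_pt hN (qua1_mpos x) (e.trans ?_) hq ?_
      (c := (AC J x y).u * (AC J x y).ka + 3 * Nf y ^ 2 * ((AC J x y).u * (AC J x y).mu))
      (lv := 1 / (c.DL * Nf y ^ 3) * lv x y (c.lC σ) (sv c.DL (FdC J) x y))
    · rfl
    · refine le_trans hl (le_of_eq ?_)
      have e2 : Nf y ^ 3 * bC y (AC J x y) = (3 * Nf y ^ 2 * (AC J x y).u * (AC J x y).mu +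
          (AC J x y).u * (AC J x y).ka) + (2 - √3 * Nf y) * (AC J x y).u / Nf y := by
        unfold bC
        field_simp
      linear_combination -108 * (c.kf * c.DF : ℝ) * e2
  exact qua1_sq _ _ _ _ hG hb hpt

theorem q_sl (c : Sqd) (hc : c.Ok) (σ : Bool) (J : Jet) (hJ : J.Good) (hv : c.Val σ J) :
    (∫ x in (0 : ℝ)..1, (Vy (c.gS σ) x (yt x) (sv c.DL (FdS J) x (yt x)) +
        x * yt x / 2 * Vx (c.gS σ) x (yt x) (sv c.DL (FdS J) x (yt x)) -
        Vy (c.gS σ) x 1 (sv c.DL (FdS J) x 1)) / mf x) -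
      (∫ y in (1 : ℝ)..yt 0, Vx (c.gS σ) 0 y (sv c.DL (FdS J) 0 y)) - 3 / 20 * c.kS σ / 108 ≤
      c.kf * c.DF * ISl J := by
  obtain ⟨Z, E, cy, dy, hF⟩ := fok_S J hJ
  obtain ⟨A, B, hA, hB, hdA, hdB, hr⟩ := divA (c.kf * c.DF) c.DL hc.pDL (c.gS σ) (hc.wS σ) (c.lS σ)
    (hc.lenS σ) hF
  have hdiv := green_sl _ _ A B hA hB (cont_Vy c.DL hF (c.gS σ)) (cont_Vx c.DL hF (c.gS σ)) hdA hdB
  beta_reduce at hdiv
  rw [← hdiv]
  unfold ISl
  have hG : Continuous fun z : ℝ × ℝ => (A z.1 z.2 + mf z.1 * B z.1 z.2) / mf z.1 :=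
    (hA.add ((qua1_mcont.comp continuous_fst).mul hB)).div (qua1_mcont.comp continuous_fst)
      fun z => (qua1_mpos z.1).ne'
  have hb : Continuous fun z : ℝ × ℝ => bS z.2 (AS J z.1 z.2) / mf z.1 := qua1_cont_bS hF.js
  have hpt : ∀ x y : ℝ, 0 ≤ x → x ≤ 1 → 1 ≤ y → (2 + x ^ 2) * y ^ 2 ≤ 3 →
      (A x y + mf x * B x y) / mf x - c.kS σ / 108 ≤ c.kf * c.DF * (bS y (AS J x y) / mf x) := by
    intro x y hx0 hx1 hy0 hy1
    have hq := cov_nn (hc.sliv σ) (x := x) (y := y)
      (fun L hL => covS_sound L hL x y hx0 hx1 hy0 hy1)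
      (s := sv c.DL (FdS J) x y) rfl (hv.S x y hx0 hx1 hy0 hy1)
    have hl := hv.lS x y hx0 hx1 hy0 hy1
    have hN := qua1_Npos y
    have e := hr x y
    push_cast at e
    refine qua1_pt hN (qua1_mpos x) (e.trans ?_) hq ?_
      (c := (AS J x y).u * (AS J x y).ka + 3 * Nf y ^ 2 * ((AS J x y).u * (AS J x y).mu))
      (lv := 1 / (c.DL * Nf y ^ 3) * lv x y (c.lS σ) (sv c.DL (FdS J) x y))
    · rfl
    · refine le_trans hl (le_of_eq ?_)
      have e2 : Nf y ^ 3 * bS y (AS J x y) = (3 * Nf y ^ 2 * (AS J x y).u * (AS J x y).mu +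
          (AS J x y).u * (AS J x y).ka) + -2 * (AS J x y).u / Nf y := by
        unfold bS
        field_simp
        ring
      linear_combination -108 * (c.kf * c.DF : ℝ) * e2
  have h5 : (0 : ℝ) ≤ c.kS σ := by exact_mod_cast hc.pkS σ
  have h6 := qua1_slv (fun x y => (A x y + mf x * B x y) / mf x) (fun x y => bS y (AS J x y) / mf x)
    (c.kS σ / 108) (c.kf * c.DF) (div_nonneg h5 (by norm_num)) hG hb hpt
  have e3 : (3 : ℝ) / 20 * c.kS σ / 108 = 3 / 20 * (c.kS σ / 108) := by ring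
  rw [e3]
  exact h6

end Pool.Agent.MCA
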