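import Pool.Agent.MCA.QUD
import Pool.Agent.MCA.SDF
import Pool.Agent.MCA.FLD
import Pool.Agent.MCA.GRC
import Pool.Agent.MCA.CVX
import Pool.Agent.MCA.QUA1
import Pool.Agent.MSQ.RDiv
/-!
QUE5 (130 lines). The curve `y = yt x`.

PROOF. `c.Ok.curv`: `covC_sound` gives a box containing `(x, yt x)`, `BoxOK` with `Y x hx` gives `0 ≤ qf (evE x yt ((eC ..).map
M2)) (sv DL (FdS J) x yt)`, and `M2` multiplies by `2 + x² > 0`. `eC_val` and `fC_val`, divide by `216 N³ mf x > 0`
(`N = Nf (yt x)`): `0 ≤ (Vy + x yt/2 Vx - K parts)/m + kf DF √3/cc dYp + null/m`. `K2`: `K = curP k` and `curP = 3 - (2 + x²) y² =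
0` on the curve, so the `K` parts vanish. Null term: with `a(x) = (FdS J).a x` (index 4) and `u = -a` on the curve
(`FdS_curve`): `m (d/dx) u = p - (x yt/2) q` along the curve (`yt' = - x yt / (2 + x²)`, `mf x = (2 + x²)/2`), so the null
term divided by `mf x` is `d/dx (w a² / N + v a)`, `N = Nf (yt x)`. Its integral over `0..1` is `0`: `w`, `v` vanish at
`x = 0` (`nY`), `a(1) = 0` (`cor_a`). Differentiability of `x ↦ a(x)`: `fok_S` (`FOK`).
-/
set_option autoImplicit false

open MeasureTheory Set Pool.Agent.MSQ Pool.Agent.MTR Pool.Agent.MGF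

namespace Pool.Agent.MCA

private theorem que5_Npos (y : ℝ) : 0 < Nf y := Real.sqrt_pos.2 (by positivity)
private theorem que5_mpos (x : ℝ) : 0 < mf x := by unfold mf; positivity
private theorem que5_mcont : Continuous mf := by unfold mf; fun_prop
private theorem que5_Ncont : Continuous Nf := by unfold Nf; fun_prop
private theorem que5_wpos (x : ℝ) : 0 < wf x := Real.sqrt_pos.2 (que5_mpos x)
private theorem que5_w2 (x : ℝ) : wf x ^ 2 = mf x := Real.sq_sqrt (que5_mpos x).le
private theorem que5_N2 (y : ℝ) : Nf y ^ 2 = 1 + y ^ 2 / 3 := Real.sq_sqrt (by positivity)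
private theorem que5_cc : cc ^ 2 = 1 / 2 := by
  unfold cc
  rw [div_pow, Real.sq_sqrt (by norm_num)]
  norm_num
private theorem que5_ccpos : 0 < cc := by unfold cc; positivity
private theorem que5_sq {a b : ℝ} (ha : 0 ≤ a) (hb : 0 ≤ b) (h : a ^ 2 = b ^ 2) : a = b :=
  (sq_eq_sq₀ ha hb).1 h
private theorem que5_ytpos (x : ℝ) : 0 < yt x := Real.sqrt_pos.2 (by positivity)

private theorem que5_val {f : ℝ → ℝ} {a b x : ℝ} (h : HasDerivAt f a x) (e : a = b) : HasDerivAt f b x := e ▸ h

private theorem que5_dyt (x : ℝ) : HasDerivAt yt (-(x * yt x) / (2 + x ^ 2)) x := by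
  have h0 : (0 : ℝ) < 2 + x ^ 2 := by positivity
  have h1 : HasDerivAt (fun t : ℝ => 2 + t ^ 2) (2 * x) x := by
    simpa using (hasDerivAt_pow 2 x).const_add 2
  have h2 : HasDerivAt (fun t : ℝ => 3 / (2 + t ^ 2)) (-(3 * (2 * x)) / (2 + x ^ 2) ^ 2) x :=
    que5_val (f := fun t : ℝ => 3 / (2 + t ^ 2)) ((hasDerivAt_const x (3 : ℝ)).div h1 h0.ne') (by ring)
  have h3 : HasDerivAt yt (-(3 * (2 * x)) / (2 + x ^ 2) ^ 2 / (2 * yt x)) x := h2.sqrt (by positivity)
  have hy := que5_ytpos x
  have hy2 := yt_sq x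
  refine que5_val h3 ?_
  field_simp
  linear_combination x * hy2

private theorem que5_dN (x : ℝ) : HasDerivAt (fun t => 1 / Nf (yt t))
    (x * yt x ^ 2 / (6 * Nf (yt x) ^ 3) / mf x) x := by
  have h1 : HasDerivAt (fun t => 1 + yt t ^ 2 / 3) (2 * yt x ^ 1 * (-(x * yt x) / (2 + x ^ 2)) / 3) x :=
    (((que5_dyt x).pow 2).div_const 3).const_add 1
  have hN := que5_Npos (yt x)
  have hm := que5_mpos x
  have h2 : HasDerivAt (fun t => Nf (yt t))
      (2 * yt x ^ 1 * (-(x * yt x) / (2 + x ^ 2)) / 3 / (2 * Nf (yt x))) x :=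
    h1.sqrt (by positivity)
  have h4 : HasDerivAt (fun t => 1 / Nf (yt t)) ((0 * Nf (yt x) -
      1 * (2 * yt x ^ 1 * (-(x * yt x) / (2 + x ^ 2)) / 3 / (2 * Nf (yt x)))) / Nf (yt x) ^ 2) x :=
    (hasDerivAt_const x (1 : ℝ)).div h2 hN.ne'
  refine que5_val h4 ?_
  have e : mf x = (2 + x ^ 2) / 2 := by unfold mf; ring
  rw [e]
  have h0 : (0 : ℝ) < 2 + x ^ 2 := by positivity
  field_simp
  ring

private theorem que5_dw (x : ℝ) : HasDerivAt wf (x / (2 * wf x)) x := by
  have h1 : HasDerivAt mf x x :=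
    que5_val (f := mf) (((hasDerivAt_pow 2 x).div_const 2).const_add 1) (by norm_num)
  exact h1.sqrt (que5_mpos x).ne'

/-- derivative of `a` -/
private theorem que5_da (J : Jet) (hJ : J.Good) (x : ℝ) : HasDerivAt (FdS J).a
    ((-((lJ.fX (cc * x, cc) - J.fX (cc * x, cc)) * cc) * wf x - etp J (cc * x) * (x / (2 * wf x))) /
      wf x ^ 2) x := by
  have hl : HasDerivAt (fun t => lf (cc * t, cc)) (lJ.fX (cc * x, cc) * cc) x := by
    have h1 : HasDerivAt (fun t : ℝ => cc * t) cc x := by simpa using (hasDerivAt_id x).const_mul cc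
    have h2 : HasDerivAt (fun t : ℝ => 1 + (cc * t) ^ 2 + cc ^ 2) (2 * (cc * x) ^ 1 * cc) x :=
      ((h1.pow 2).const_add 1).add_const (cc ^ 2)
    have h3 : HasDerivAt (fun t => lf (cc * t, cc)) (2 * (cc * x) ^ 1 * cc / (2 * lf (cc * x, cc))) x :=
      h2.sqrt (by positivity)
    refine que5_val h3 ?_
    show _ = cc * x / lf (cc * x, cc) * cc
    have : 0 < lf (cc * x, cc) := Real.sqrt_pos.2 (by positivity)
    field_simp
  have hf : HasDerivAt (fun t => J.f (cc * t, cc)) (J.fX (cc * x, cc) * cc) x := by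
    have h1 : HasDerivAt (fun t : ℝ => (cc * t, cc)) (cc, 0) x := by
      have h : HasDerivAt (fun t : ℝ => cc * t) cc x := by simpa using (hasDerivAt_id x).const_mul cc
      exact h.prodMk (hasDerivAt_const x cc)
    have h2 : HasDerivAt (fun t => J.f (cc * t, cc)) _ x := (hJ.d (cc * x, cc)).comp_hasDerivAt x h1
    refine que5_val h2 ?_
    simp [smul_eq_mul]
  have he : HasDerivAt (fun t => etp J (cc * t)) (-((lJ.fX (cc * x, cc) - J.fX (cc * x, cc)) * cc)) x := by
    have h : HasDerivAt (fun t => etp J (cc * t)) _ x := (hl.sub hf).const_sub cc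
    refine que5_val h ?_
    ring
  exact he.div (que5_dw x) (que5_wpos x).ne'

private theorem que5_wyt (x : ℝ) : wf x * yt x / √3 = cc := by
  have hw := que5_wpos x
  have hy := que5_ytpos x
  refine que5_sq (by positivity) que5_ccpos.le ?_
  have hy2 : yt x ^ 2 = 3 / (2 + x ^ 2) := Real.sq_sqrt (by positivity)
  rw [div_pow, mul_pow, que5_w2, hy2, Real.sq_sqrt (by norm_num), que5_cc]
  unfold mf
  field_simp

/-- `m a' = (x y / 2) q - p` on the curve -/
private theorem que5_ma (J : Jet) (x : ℝ) : mf x *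
    ((-((lJ.fX (cc * x, cc) - J.fX (cc * x, cc)) * cc) * wf x - etp J (cc * x) * (x / (2 * wf x))) /
      wf x ^ 2) = x * yt x / 2 * (AS J x (yt x)).q - (AS J x (yt x)).p := by
  have hw := que5_wpos x
  have hw2 := que5_w2 x
  have h3 : √3 ^ 2 = 3 := Real.sq_sqrt (by norm_num)
  have p3 : 0 < √3 := by positivity
  have hN := que5_Npos (yt x)
  have hN2 := que5_N2 (yt x)
  have hcc := que5_cc
  have hcp := que5_ccpos
  have hY := que5_wyt x
  have hccw : cc / wf x = yt x / √3 := by
    rw [← hY]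
    field_simp
  have hlf : lf (cc * x, cc) = wf x * Nf (yt x) := by
    refine que5_sq (Real.sqrt_nonneg _) (by positivity) ?_
    unfold lf
    rw [Real.sq_sqrt (by positivity)]
    show 1 + (cc * x) ^ 2 + cc ^ 2 = (wf x * Nf (yt x)) ^ 2
    have hy2 : yt x ^ 2 = 3 / (2 + x ^ 2) := Real.sq_sqrt (by positivity)
    rw [mul_pow, mul_pow, hw2, hN2, hcc, hy2]
    unfold mf
    field_simp
  have hu : (AS J x (yt x)).u = -((FdS J).a x) := FdS_curve J x
  have ha : (FdS J).a x = etp J (cc * x) / wf x := rfl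
  have hD : (lJ.fX (cc * x, cc) - J.fX (cc * x, cc)) * wf x =
      cc * (x * (AS J x (yt x)).u - x * yt x * (AS J x (yt x)).q + 2 * (AS J x (yt x)).p) := by
    have hq' : (AS J x (yt x)).q = yt x / (3 * Nf (yt x)) - 1 / (2 * √3) -
        J.fY (cc * x, wf x * yt x / √3) / √3 := rfl
    have hu' : (AS J x (yt x)).u = Nf (yt x) - yt x / (2 * √3) - cc / (2 * wf x) -
        J.f (cc * x, wf x * yt x / √3) / wf x := rfl
    have hp' : (AS J x (yt x)).p = cc * x / (4 * wf x) - cc * (wf x * J.fX (cc * x, wf x * yt x / √3) +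
        cc * x * yt x * J.fY (cc * x, wf x * yt x / √3) / √3 -
        cc * x * J.f (cc * x, wf x * yt x / √3) / wf x) := rfl
    have hf : lJ.fX (cc * x, cc) = cc * x / lf (cc * x, cc) := rfl
    have e0 : x * (AS J x (yt x)).u - x * yt x * (AS J x (yt x)).q + 2 * (AS J x (yt x)).p =
        x / Nf (yt x) - 2 * cc * (wf x * J.fX (cc * x, cc)) := by
      rw [hq', hu', hp', hY]
      have a1 : Nf (yt x) - yt x * (yt x / (3 * Nf (yt x))) = 1 / Nf (yt x) := by
        field_simp
        linear_combination 3 * hN2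
      linear_combination x * a1 + (-(x * yt x * J.fY (cc * x, cc) / √3) +
        x * J.f (cc * x, cc) / wf x) * 2 * hcc
    rw [e0, hf, hlf]
    have e1 : cc * x / (wf x * Nf (yt x)) * wf x = cc * (x / Nf (yt x)) := by
      field_simp
    linear_combination e1 + 2 * (wf x * J.fX (cc * x, cc)) * hcc
  have e : mf x * ((-((lJ.fX (cc * x, cc) - J.fX (cc * x, cc)) * cc) * wf x -
      etp J (cc * x) * (x / (2 * wf x))) / wf x ^ 2) =
      -(cc * ((lJ.fX (cc * x, cc) - J.fX (cc * x, cc)) * wf x)) - x / 2 * (etp J (cc * x) / wf x) := by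
    rw [← hw2]
    field_simp
    try ring
  rw [e, hD, ← ha]
  linear_combination -(x * (AS J x (yt x)).u - x * yt x * (AS J x (yt x)).q + 2 * (AS J x (yt x)).p) * hcc -
    x / 2 * hu

private theorem que5_map (x y c : ℝ) (φ : P → P) (h : ∀ p, ev x y (φ p) = c * ev x y p)
    (R : List P) (s : List ℝ) : qf (evE x y (R.map φ)) s = c * qf (evE x y R) s := by
  have h1 : ∀ (A s : List ℝ), dotL (A.map (c * ·)) s = c * dotL A s := by
    intro A
    induction A with
    | nil => intro s; simp [dotL]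
    | cons a A ih =>
      intro s
      cases s with
      | nil => simp [dotL]
      | cons b s => simp only [List.map_cons, dotL, ih]; ring
  have h2 : ∀ (s A : List ℝ), qf (A.map (c * ·)) s = c * qf A s := by
    intro s
    induction s with
    | nil => intro A; simp [qf]
    | cons b s ih =>
      intro A
      simp only [qf]
      rw [← List.map_take, ← List.map_drop, ih, h1]
      ring
  rw [← h2]
  congr 1
  simp only [evE, List.map_map]
  apply List.map_congr_left
  intro q _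
  simp only [Function.comp_apply, h]

private theorem que5_atx0 (x y : ℝ) (p : P) : ev x y (atx0 p) = ev 0 y p := by
  cases p with
  | nil => rfl
  | cons a l => simp [atx0, ev]

theorem q_curv (c : Sqd) (hc : c.Ok) (σ : Bool) (J : Jet) (hJ : J.Good) (hcor : J.f (cc, cc) = cc)
    (hc2 : Continuous fun z : ℝ × ℝ × ℝ × ℝ => FL c.DF c.F2 z.1 z.2.1 z.2.2.1 z.2.2.2)
    (Y : ∀ x : ℝ, 0 ≤ x → x ≤ 1 → ROK (c.rY σ) x (yt x) (sv c.DL (FdS J) x (yt x))) :
    -(c.kf * c.DF * (√3 / cc) * ∫ t in (0 : ℝ)..1, dYp (FL c.DF c.F2) J t) ≤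
      ∫ x in (0 : ℝ)..1, (Vy (c.gS σ) x (yt x) (sv c.DL (FdS J) x (yt x)) +
        x * yt x / 2 * Vx (c.gS σ) x (yt x) (sv c.DL (FdS J) x (yt x))) / mf x := by
  obtain ⟨Z, E, cy, dy, hF⟩ := fok_S J hJ
  obtain ⟨nw0, nw1, nv0, nv1⟩ := hc.nY σ
  have hcurve : Continuous fun x : ℝ => (x, yt x) := continuous_id.prodMk yt_cont
  -- the null term
  set w := c.wY σ with hw
  set v := c.vY σ with hv
  let n : ℝ → ℝ := fun x =>
    (mf x * ev x 0 (pDX w) / Nf (yt x) + x * yt x ^ 2 * ev x 0 w / (6 * Nf (yt x) ^ 3)) * (FdS J).a x ^ 2 +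
      2 * ev x 0 w / Nf (yt x) * (FdS J).a x * (x * yt x / 2 * (AS J x (yt x)).q - (AS J x (yt x)).p) +
      mf x * ev x 0 (pDX v) * (FdS J).a x + ev x 0 v * (x * yt x / 2 * (AS J x (yt x)).q - (AS J x (yt x)).p)
  have hG : ∀ x : ℝ, HasDerivAt (fun t => ev t 0 w * ((FdS J).a t ^ 2 * (1 / Nf (yt t))) +
      ev t 0 v * (FdS J).a t) (n x / mf x) x := by
    intro x
    have hm := que5_mpos x
    have hN := que5_Npos (yt x)
    have d1 := que5_da J hJ x
    have e1 := que5_ma J x
    have d2 := que5_dN x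
    have d3 : HasDerivAt (fun t => ev t 0 w * ((FdS J).a t ^ 2 * (1 / Nf (yt t))) +
      ev t 0 v * (FdS J).a t) _ x :=
      ((hasDerivAt_ev_x x 0 w).mul ((d1.pow 2).mul d2)).add ((hasDerivAt_ev_x x 0 v).mul d1)
    refine que5_val d3 ?_
    simp only [n, Pi.pow_apply, Pi.mul_apply]
    rw [← e1]
    generalize ((-((lJ.fX (cc * x, cc) - J.fX (cc * x, cc)) * cc) * wf x -
      etp J (cc * x) * (x / (2 * wf x))) / wf x ^ 2) = a'
    push_cast
    field_simp
    try ring
  have cyt : Continuous yt := yt_cont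
  have cN : Continuous fun x : ℝ => Nf (yt x) := que5_Ncont.comp yt_cont
  have ca : Continuous (FdS J).a := hF.ca
  have cq : Continuous fun x : ℝ => (AS J x (yt x)).q := hF.js.cq.comp hcurve
  have cp : Continuous fun x : ℝ => (AS J x (yt x)).p := hF.js.cp.comp hcurve
  have cev : ∀ p : P, Continuous fun x : ℝ => ev x 0 p := fun p =>
    (continuous_ev p).comp (Continuous.prodMk_left 0)
  have cxy : Continuous fun x : ℝ => x * yt x / 2 := (continuous_id.mul cyt).div_const 2
  have cn : Continuous n := by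
    have hN0 : ∀ x : ℝ, Nf (yt x) ≠ 0 := fun x => (que5_Npos _).ne'
    have hN3 : ∀ x : ℝ, 6 * Nf (yt x) ^ 3 ≠ 0 := fun x => mul_ne_zero (by norm_num) (pow_ne_zero 3 (hN0 x))
    have cl : Continuous fun x : ℝ => x * yt x / 2 * (AS J x (yt x)).q - (AS J x (yt x)).p :=
      (cxy.mul cq).sub cp
    exact (((((que5_mcont.mul (cev _)).div cN hN0).add (((continuous_id.mul (cyt.pow 2)).mul (cev _)).div
      (continuous_const.mul (cN.pow 3)) hN3)).mul (ca.pow 2)).add
      ((((continuous_const.mul (cev _)).div cN hN0).mul ca).mul cl)).add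
      ((que5_mcont.mul (cev _)).mul ca) |>.add ((cev _).mul cl)
  have cnm : Continuous fun x => n x / mf x := cn.div que5_mcont fun x => (que5_mpos x).ne'
  have hint : ∫ x in (0 : ℝ)..1, n x / mf x = 0 := by
    rw [intervalIntegral.integral_eq_sub_of_hasDerivAt (fun x _ => hG x) (cnm.intervalIntegrable _ _)]
    have w0 : ev 0 0 w = 0 := by
      have h := ev_isZ 0 0 _ nw1
      rwa [que5_atx0] at h
    have v0 : ev 0 0 v = 0 := by
      have h := ev_isZ 0 0 _ nv1
      rwa [que5_atx0] at h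
    have a1 := cor_a J hcor
    simp only [w0, v0, a1]
    ring
  -- continuity of the other terms
  have cV : Continuous fun x : ℝ => (Vy (c.gS σ) x (yt x) (sv c.DL (FdS J) x (yt x)) +
        x * yt x / 2 * Vx (c.gS σ) x (yt x) (sv c.DL (FdS J) x (yt x))) / mf x :=
    (((cont_Vy c.DL hF (c.gS σ)).comp hcurve).add (cxy.mul ((cont_Vx c.DL hF (c.gS σ)).comp hcurve))).div
      que5_mcont fun x => (que5_mpos x).ne'
  have cd : Continuous fun x : ℝ => dYp (FL c.DF c.F2) J x := by
    have hcu : Continuous fun t : ℝ => ((cc * t, cc) : ℝ × ℝ) :=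
      (continuous_const.mul continuous_id).prodMk continuous_const
    have cf : Continuous J.f := continuous_iff_continuousAt.2 fun z => (hJ.d z).continuousAt
    have cfX : Continuous J.fX := continuous_iff_continuousAt.2 fun z => (hJ.dX z).continuousAt
    have cfY : Continuous J.fY := continuous_iff_continuousAt.2 fun z => (hJ.dY z).continuousAt
    have clf : Continuous lf := by unfold lf; fun_prop
    have hl0 : ∀ z : ℝ × ℝ, lf z ≠ 0 := fun z => (Real.sqrt_pos.2 (by positivity)).ne'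
    have clX : Continuous lJ.fX := continuous_fst.div clf hl0
    have clY : Continuous lJ.fY := continuous_snd.div clf hl0
    have b1 : Continuous fun t : ℝ => √2 * (cc - (lf (cc * t, cc) - J.f (cc * t, cc))) / 2 :=
      (continuous_const.mul (continuous_const.sub ((clf.comp hcu).sub (cf.comp hcu)))).div_const 2
    have b2 : Continuous fun t : ℝ => -(lJ.fX (cc * t, cc) - J.fX (cc * t, cc)) :=
      ((clX.comp hcu).sub (cfX.comp hcu)).neg
    have b3 : Continuous fun t : ℝ => 1 / 2 - (lJ.fY (cc * t, cc) - J.fY (cc * t, cc)) :=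
      continuous_const.sub ((clY.comp hcu).sub (cfY.comp hcu))
    have b4 : Continuous fun t : ℝ => (1 - t) / 2 := (continuous_const.sub continuous_id).div_const 2
    have b5 : Continuous fun t : ℝ => (1 + t) / 2 := (continuous_const.add continuous_id).div_const 2
    unfold dYp
    exact hc2.comp (continuous_id.prodMk ((b1.add (b4.mul b2)).prodMk ((b1.sub (b5.mul b2)).prodMk b3)))
  -- the pointwise inequality
  have pt : ∀ x ∈ Icc (0 : ℝ) 1, 0 ≤ (Vy (c.gS σ) x (yt x) (sv c.DL (FdS J) x (yt x)) +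
        x * yt x / 2 * Vx (c.gS σ) x (yt x) (sv c.DL (FdS J) x (yt x))) / mf x +
        c.kf * c.DF * (√3 / cc) * dYp (FL c.DF c.F2) J x + n x / mf x := by
    intro x hx
    have hm := que5_mpos x
    have hN := que5_Npos (yt x)
    have h1 := cov_nn (hc.curv σ) (x := x) (y := yt x)
      (fun L hL => covC_sound L hL x (yt x) hx.1 hx.2 (que5_ytpos x).le (yt_sq x))
      (s := sv c.DL (FdS J) x (yt x)) rfl (Y x hx.1 hx.2)
    rw [que5_map x (yt x) (2 + x ^ 2) M2 (fun p => ev_M2 x (yt x) p)] at h1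
    have h2 := nonneg_of_mul_nonneg_right h1 (by positivity)
    rw [eC_val c.DL c.kf (c.gS σ) (hc.wS σ) c.F2 _ _ x (yt x) _ (SV_sv c.DL hc.pDL (FdS J) x (yt x)) nw0 nv0,
      fC_val c.DL c.kf c.DF hc.pDL hc.pDF c.F2 J x] at h2
    obtain ⟨k, hk⟩ := hc.K2 σ
    have hK : ev x (yt x) (c.gS σ).K = 0 := by
      have h3 := ev_isZ x (yt x) _ hk
      rw [ev_pAdd, ev_pSm, ev_pMul] at h3
      have h4 : ev x (yt x) curP = 0 := by
        have h5 := yt_sq x
        simp only [curP, ev, evL]
        push_cast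
        linear_combination -h5
      rw [h4] at h3
      push_cast at h3
      linarith
    have k1 : VyK (c.gS σ).K x (yt x) (sv c.DL (FdS J) x (yt x)) = 0 := by
      unfold VyK
      rw [hK]
      ring
    have k2 : VxK (c.gS σ).K x (yt x) (sv c.DL (FdS J) x (yt x)) = 0 := by
      unfold VxK
      rw [hK]
      ring
    rw [k1, k2] at h2
    have g2 : (sv c.DL (FdS J) x (yt x)).getD 2 0 = (AS J x (yt x)).q := rfl
    have g3 : (sv c.DL (FdS J) x (yt x)).getD 3 0 = (AS J x (yt x)).p := rfl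
    have g4 : (sv c.DL (FdS J) x (yt x)).getD 4 0 = (FdS J).a x := rfl
    rw [g2, g3, g4] at h2
    have h5 : 0 ≤ 216 * Nf (yt x) ^ 3 * (Vy (c.gS σ) x (yt x) (sv c.DL (FdS J) x (yt x)) +
        x * yt x / 2 * Vx (c.gS σ) x (yt x) (sv c.DL (FdS J) x (yt x)) +
        mf x * (c.kf * c.DF * (√3 / cc) * dYp (FL c.DF c.F2) J x) + n x) := by
      refine h2.trans (le_of_eq ?_)
      simp only [n]
      ring
    have h6 := nonneg_of_mul_nonneg_right h5 (by positivity)
    have h7 := div_nonneg h6 hm.le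
    refine h7.trans (le_of_eq ?_)
    field_simp
  have key := intervalIntegral.integral_nonneg (μ := volume) zero_le_one pt
  have cKd : Continuous fun x : ℝ => (c.kf : ℝ) * c.DF * (√3 / cc) * dYp (FL c.DF c.F2) J x :=
    continuous_const.mul cd
  have e1 := intervalIntegral.integral_add (μ := volume) ((cV.add cKd).intervalIntegrable 0 1)
    (cnm.intervalIntegrable 0 1)
  have e2 := intervalIntegral.integral_add (μ := volume) (cV.intervalIntegrable 0 1)
    (cKd.intervalIntegrable 0 1)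
  have e3 := intervalIntegral.integral_const_mul (a := 0) (b := 1) (μ := volume)
    ((c.kf : ℝ) * c.DF * (√3 / cc)) (fun x : ℝ => dYp (FL c.DF c.F2) J x)
  simp only [Pi.add_apply] at e1
  rw [e1, e2, e3, hint] at key
  linarith

end Pool.Agent.MCA
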