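import Pool.Agent.MCA.QUA1
import Pool.Agent.MCA.QUE1
import Pool.Agent.MCA.QUE2
import Pool.Agent.MCA.QUE3
import Pool.Agent.MCA.QUE4
import Pool.Agent.MCA.QUE5
import Pool.Agent.MCA.SIH
import Pool.Agent.MCA.JMQ
import Pool.Agent.MSQ.JGood
/-!
QUA. The inequality of a square from a certificate. `q_core`, `q_sl` are in QUA1, the edge lemmas in QUE1, .., QUE5.

PROOF. `D = kf DF`. The four instances of `q_core` and `q_sl` (jets `J, J.ry` with `σ = false`, `J.rx, J.rx.ry` with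
`σ = true`) are added; the boundary integrals are split by linearity (continuous integrands, `cont_Vx`, `cont_Vy`) and
estimated by `q_ax_C`, `q_ax_S`, `q_axis`, `q_gam`, `q_side`, `q_curv`. Then `JM_quad`, `sXp_half`, ...
-/
set_option autoImplicit false

open MeasureTheory Set Pool.Agent.MSQ Pool.Agent.MTR Pool.Agent.MGF

namespace Pool.Agent.MCA

private theorem qua_mcont : Continuous mf := by unfold mf; fun_prop

private theorem qua_mpos (x : ℝ) : 0 < mf x := by unfold mf; positivity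

/-- boundary integrals -/
private noncomputable def qA1 (c : Sqd) (σ : Bool) (J : Jet) : ℝ :=
  ∫ x in (0 : ℝ)..1, Vy (c.gC σ) x 1 (sv c.DL (FdC J) x 1) / mf x
private noncomputable def qA0 (c : Sqd) (σ : Bool) (J : Jet) : ℝ :=
  ∫ x in (0 : ℝ)..1, Vy (c.gC σ) x 0 (sv c.DL (FdC J) x 0) / mf x
private noncomputable def qB1 (c : Sqd) (σ : Bool) (J : Jet) : ℝ :=
  ∫ y in (0 : ℝ)..1, Vx (c.gC σ) 1 y (sv c.DL (FdC J) 1 y)
private noncomputable def qB0 (c : Sqd) (σ : Bool) (J : Jet) : ℝ :=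
  ∫ y in (0 : ℝ)..1, Vx (c.gC σ) 0 y (sv c.DL (FdC J) 0 y)
private noncomputable def qS1 (c : Sqd) (σ : Bool) (J : Jet) : ℝ :=
  ∫ x in (0 : ℝ)..1, Vy (c.gS σ) x 1 (sv c.DL (FdS J) x 1) / mf x
private noncomputable def qSY (c : Sqd) (σ : Bool) (J : Jet) : ℝ :=
  ∫ x in (0 : ℝ)..1, (Vy (c.gS σ) x (yt x) (sv c.DL (FdS J) x (yt x)) +
        x * yt x / 2 * Vx (c.gS σ) x (yt x) (sv c.DL (FdS J) x (yt x))) / mf x
private noncomputable def qS0 (c : Sqd) (σ : Bool) (J : Jet) : ℝ :=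
  ∫ y in (1 : ℝ)..yt 0, Vx (c.gS σ) 0 y (sv c.DL (FdS J) 0 y)

/-- continuity of the boundary integrands -/
private theorem qua_cyC (c : Sqd) (σ : Bool) (J : Jet) (hJ : J.Good) (y : ℝ) :
    Continuous fun x => Vy (c.gC σ) x y (sv c.DL (FdC J) x y) / mf x := by
  obtain ⟨Z, E, cy, dy, hF⟩ := fok_C J hJ
  have h := (cont_Vy c.DL hF (c.gC σ)).comp (Continuous.prodMk_left y)
  exact h.div qua_mcont fun x => (qua_mpos x).ne'

private theorem qua_cxC (c : Sqd) (σ : Bool) (J : Jet) (hJ : J.Good) (x : ℝ) :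
    Continuous fun y => Vx (c.gC σ) x y (sv c.DL (FdC J) x y) := by
  obtain ⟨Z, E, cy, dy, hF⟩ := fok_C J hJ
  exact (cont_Vx c.DL hF (c.gC σ)).comp (Continuous.prodMk_right x)

private theorem qua_cyS (c : Sqd) (σ : Bool) (J : Jet) (hJ : J.Good) (f : ℝ → ℝ) (hf : Continuous f) :
    Continuous fun x => Vy (c.gS σ) x (f x) (sv c.DL (FdS J) x (f x)) := by
  obtain ⟨Z, E, cy, dy, hF⟩ := fok_S J hJ
  exact (cont_Vy c.DL hF (c.gS σ)).comp (continuous_id.prodMk hf)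

private theorem qua_cxS' (c : Sqd) (σ : Bool) (J : Jet) (hJ : J.Good) (f : ℝ → ℝ) (hf : Continuous f) :
    Continuous fun x => Vx (c.gS σ) x (f x) (sv c.DL (FdS J) x (f x)) := by
  obtain ⟨Z, E, cy, dy, hF⟩ := fok_S J hJ
  exact (cont_Vx c.DL hF (c.gS σ)).comp (continuous_id.prodMk hf)

private theorem qua_cxS (c : Sqd) (σ : Bool) (J : Jet) (hJ : J.Good) (x : ℝ) :
    Continuous fun y => Vx (c.gS σ) x y (sv c.DL (FdS J) x y) := by
  obtain ⟨Z, E, cy, dy, hF⟩ := fok_S J hJ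
  exact (cont_Vx c.DL hF (c.gS σ)).comp (Continuous.prodMk_right x)

private theorem qua_core (c : Sqd) (hc : c.Ok) (σ : Bool) (J : Jet) (hJ : J.Good) (hv : c.Val σ J) :
    qA1 c σ J - qA0 c σ J + (qB1 c σ J - qB0 c σ J) - c.kC σ / 108 ≤ c.kf * c.DF * IC J := by
  have h := q_core c hc σ J hJ hv
  have e1 : ∫ x in (0 : ℝ)..1, (Vy (c.gC σ) x 1 (sv c.DL (FdC J) x 1) -
      Vy (c.gC σ) x 0 (sv c.DL (FdC J) x 0)) / mf x = qA1 c σ J - qA0 c σ J := by
    unfold qA1 qA0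
    rw [← intervalIntegral.integral_sub ((qua_cyC c σ J hJ 1).intervalIntegrable _ _)
      ((qua_cyC c σ J hJ 0).intervalIntegrable _ _)]
    exact intervalIntegral.integral_congr fun x _ => sub_div _ _ _
  have e2 : ∫ y in (0 : ℝ)..1, (Vx (c.gC σ) 1 y (sv c.DL (FdC J) 1 y) -
      Vx (c.gC σ) 0 y (sv c.DL (FdC J) 0 y)) = qB1 c σ J - qB0 c σ J := by
    unfold qB1 qB0
    rw [← intervalIntegral.integral_sub ((qua_cxC c σ J hJ 1).intervalIntegrable _ _)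
      ((qua_cxC c σ J hJ 0).intervalIntegrable _ _)]
  rw [e1, e2] at h
  exact h

private theorem qua_sl (c : Sqd) (hc : c.Ok) (σ : Bool) (J : Jet) (hJ : J.Good) (hv : c.Val σ J) :
    qSY c σ J - qS1 c σ J - qS0 c σ J - 3 / 20 * c.kS σ / 108 ≤ c.kf * c.DF * ISl J := by
  have h := q_sl c hc σ J hJ hv
  have c1 : Continuous fun x => (Vy (c.gS σ) x (yt x) (sv c.DL (FdS J) x (yt x)) +
        x * yt x / 2 * Vx (c.gS σ) x (yt x) (sv c.DL (FdS J) x (yt x))) / mf x :=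
    ((qua_cyS c σ J hJ yt yt_cont).add (((continuous_id.mul yt_cont).div_const 2).mul
      (qua_cxS' c σ J hJ yt yt_cont))).div qua_mcont fun x => (qua_mpos x).ne'
  have c2 : Continuous fun x => Vy (c.gS σ) x 1 (sv c.DL (FdS J) x 1) / mf x :=
    (qua_cyS c σ J hJ (fun _ => 1) continuous_const).div qua_mcont fun x => (qua_mpos x).ne'
  have e1 : ∫ x in (0 : ℝ)..1, (Vy (c.gS σ) x (yt x) (sv c.DL (FdS J) x (yt x)) +
        x * yt x / 2 * Vx (c.gS σ) x (yt x) (sv c.DL (FdS J) x (yt x)) -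
        Vy (c.gS σ) x 1 (sv c.DL (FdS J) x 1)) / mf x = qSY c σ J - qS1 c σ J := by
    unfold qSY qS1
    rw [← intervalIntegral.integral_sub (c1.intervalIntegrable _ _) (c2.intervalIntegrable _ _)]
    exact intervalIntegral.integral_congr fun x _ => sub_div _ _ _
  rw [e1] at h
  exact h

private theorem qua_ax (c : Sqd) (hc : c.Ok) (σ : Bool) (J : Jet) (hJ : J.Good) (hv : c.Val σ J) :
    qA0 c σ J + qA0 c σ J.ry ≤ 0 := by
  have h := q_axis c hc σ J hJ hv.A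
  have e : ∫ x in (0 : ℝ)..1, (Vy (c.gC σ) x 0 (sv c.DL (FdC J) x 0) +
      Vy (c.gC σ) x 0 (sv c.DL (FdC J.ry) x 0)) / mf x = qA0 c σ J + qA0 c σ J.ry := by
    unfold qA0
    rw [← intervalIntegral.integral_add ((qua_cyC c σ J hJ 0).intervalIntegrable _ _)
      ((qua_cyC c σ J.ry (Pool.Agent.MSQ.good_ry J hJ) 0).intervalIntegrable _ _)]
    exact intervalIntegral.integral_congr fun x _ => add_div _ _ _
  rw [e] at h
  exact h

private theorem qua_gam (c : Sqd) (hc : c.Ok) (σ : Bool) (J : Jet) (hJ : J.Good) (hcor : J.f (cc, cc) = cc)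
    (hv : c.Val σ J) : qS1 c σ J ≤ qA1 c σ J := by
  have h := q_gam c hc σ J hJ hcor hv.G
  have c2 : Continuous fun x => Vy (c.gS σ) x 1 (sv c.DL (FdS J) x 1) / mf x :=
    (qua_cyS c σ J hJ (fun _ => 1) continuous_const).div qua_mcont fun x => (qua_mpos x).ne'
  have e : ∫ x in (0 : ℝ)..1, (Vy (c.gC σ) x 1 (sv c.DL (FdC J) x 1) -
      Vy (c.gS σ) x 1 (sv c.DL (FdS J) x 1)) / mf x = qA1 c σ J - qS1 c σ J := by
    unfold qA1 qS1
    rw [← intervalIntegral.integral_sub ((qua_cyC c σ J hJ 1).intervalIntegrable _ _)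
      (c2.intervalIntegrable _ _)]
    exact intervalIntegral.integral_congr fun x _ => sub_div _ _ _
  rw [e] at h
  linarith

private theorem qua_b0 (c : Sqd) (hc : c.Ok) (J : Jet) (hJ : J.Good) :
    qB0 c false J + qB0 c true J.rx = 0 := by
  unfold qB0
  rw [← intervalIntegral.integral_add ((qua_cxC c false J hJ 0).intervalIntegrable _ _)
    ((qua_cxC c true J.rx (Pool.Agent.MSQ.good_rx J hJ) 0).intervalIntegrable _ _)]
  rw [intervalIntegral.integral_congr fun y _ => q_ax_C c hc J y]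
  simp

private theorem qua_s0 (c : Sqd) (hc : c.Ok) (J : Jet) (hJ : J.Good) :
    qS0 c false J + qS0 c true J.rx = 0 := by
  unfold qS0
  rw [← intervalIntegral.integral_add ((qua_cxS c false J hJ 0).intervalIntegrable _ _)
    ((qua_cxS c true J.rx (Pool.Agent.MSQ.good_rx J hJ) 0).intervalIntegrable _ _)]
  rw [intervalIntegral.integral_congr fun y _ => q_ax_S c hc J y]
  simp

private theorem qua_fl (DF : Int) (F : List (List Int)) :
    Continuous fun z : ℝ × ℝ × ℝ × ℝ => FL DF F z.1 z.2.1 z.2.2.1 z.2.2.2 := by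
  unfold FL
  exact FF_cont _ _ _ _ _ _ _ _

/-- all inequalities for one quadrant -/
private theorem qua_one (c : Sqd) (hc : c.Ok) (σ : Bool) (J : Jet) (hJ : J.Good) (hcor : J.f (cc, cc) = cc)
    (hv : c.Val σ J) :
    -(c.kf * c.DF * (√3 / cc) * ((∫ t in (0 : ℝ)..1, dXp (FL c.DF (if σ then c.F2 else c.F1)) J t) +
      ∫ t in (0 : ℝ)..1, dYp (FL c.DF c.F2) J t)) - qA0 c σ J - qB0 c σ J - qS0 c σ J -
      (c.kC σ + 3 / 20 * c.kS σ) / 108 ≤ c.kf * c.DF * (IC J + ISl J) := by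
  have h1 := qua_core c hc σ J hJ hv
  have h2 := qua_sl c hc σ J hJ hv
  have h3 := qua_gam c hc σ J hJ hcor hv
  have h4 := q_side c hc σ J hJ hcor (qua_fl _ _) hv.X
  have h5 := q_curv c hc σ J hJ hcor (qua_fl _ _) hv.Y
  have h4' : -(c.kf * c.DF * (√3 / cc) * ∫ t in (0 : ℝ)..1, dXp (FL c.DF (if σ then c.F2 else c.F1)) J t) ≤
      qB1 c σ J := h4
  have h5' : -(c.kf * c.DF * (√3 / cc) * ∫ t in (0 : ℝ)..1, dYp (FL c.DF c.F2) J t) ≤ qSY c σ J := h5
  linarith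

theorem q_edges (c : Sqd) (hc : c.Ok) (J : Jet) (hJ : J.Good)
    (hcor : ∀ X Y : ℝ, |X| = cc → |Y| = cc → J.f (X, Y) = cc)
    (hv : c.Val false J) (hvy : c.Val false J.ry) (hvx : c.Val true J.rx) (hvxy : c.Val true J.rx.ry) :
    -(c.kf * c.DF * (√3 / cc) * ((∫ t in (0 : ℝ)..1, dXp (FL c.DF c.F1) J t) +
        (∫ t in (0 : ℝ)..1, dXp (FL c.DF c.F1) J.ry t) + (∫ t in (0 : ℝ)..1, dXp (FL c.DF c.F2) J.rx t) +
        (∫ t in (0 : ℝ)..1, dXp (FL c.DF c.F2) J.rx.ry t) +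
        (∫ t in (0 : ℝ)..1, dYp (FL c.DF c.F2) J t) + (∫ t in (0 : ℝ)..1, dYp (FL c.DF c.F2) J.ry t) +
        (∫ t in (0 : ℝ)..1, dYp (FL c.DF c.F2) J.rx t) + ∫ t in (0 : ℝ)..1, dYp (FL c.DF c.F2) J.rx.ry t)) -
      (2 * (c.kC false + c.kC true) + 3 / 10 * (c.kS false + c.kS true)) / 108 ≤
      c.kf * c.DF * ((IC J + ISl J) + (IC J.rx + ISl J.rx) + (IC J.ry + ISl J.ry) + (IC J.rx.ry + ISl J.rx.ry)) := by
  have hcc : |cc| = cc := abs_of_pos (by unfold cc; positivity)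
  have hcn : |(-cc)| = cc := by rw [abs_neg, hcc]
  have gx := Pool.Agent.MSQ.good_rx J hJ
  have gy := Pool.Agent.MSQ.good_ry J hJ
  have gxy := Pool.Agent.MSQ.good_ry J.rx gx
  have h1 := qua_one c hc false J hJ (hcor _ _ hcc hcc) hv
  have h2 := qua_one c hc false J.ry gy (hcor _ _ hcc hcn) hvy
  have h3 := qua_one c hc true J.rx gx (hcor _ _ hcn hcc) hvx
  have h4 := qua_one c hc true J.rx.ry gxy (hcor _ _ hcn hcn) hvxy
  have a1 := qua_ax c hc false J hJ hv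
  have a2 := qua_ax c hc true J.rx gx hvx
  have b1 := qua_b0 c hc J hJ
  have b2 := qua_b0 c hc J.ry gy
  have s1 := qua_s0 c hc J hJ
  have s2 := qua_s0 c hc J.ry gy
  rw [← q_rxry] at b2 s2
  simp only [Bool.false_eq_true, if_false, if_true] at h1 h2 h3 h4
  linarith

theorem qua (c : Sqd) (hc : c.Ok) (J : Jet) (hJ : J.Good)
    (hcor : ∀ X Y : ℝ, |X| = cc → |Y| = cc → J.f (X, Y) = cc)
    (hs1 : Fsym (FL c.DF c.F1)) (hs2 : Fsym (FL c.DF c.F2))
    (hc1 : Continuous fun z : ℝ × ℝ × ℝ × ℝ => FL c.DF c.F1 z.1 z.2.1 z.2.2.1 z.2.2.2)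
    (hc2 : Continuous fun z : ℝ × ℝ × ℝ × ℝ => FL c.DF c.F2 z.1 z.2.1 z.2.2.1 z.2.2.2)
    (hv : c.Val false J) (hvy : c.Val false J.ry) (hvx : c.Val true J.rx) (hvxy : c.Val true J.rx.ry) (KS : ℝ)
    (hK : 2 * (c.kC false + c.kC true) + 3 / 10 * (c.kS false + c.kS true) ≤
      108 * (c.kf * c.DF) * (√3 / cc) * KS) :
    -(sXp (FL c.DF c.F1) J + sXm (FL c.DF c.F2) J + sYp (FL c.DF c.F2) J + sYm (FL c.DF c.F2) J) - KS ≤ JM J := by
  have h := q_edges c hc J hJ hcor hv hvy hvx hvxy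
  rw [sXp_half _ hs1 hc1 J hJ, sXm_half _ hs2 hc2 J hJ, sYp_half _ hs2 hc2 J hJ, sYm_half _ hs2 hc2 J hJ]
  rw [← JM_quad J hJ] at h
  have hcc : 0 < cc := by unfold cc; positivity
  have hk : (0 : ℝ) < c.kf := by exact_mod_cast hc.pkf
  have hD : (0 : ℝ) < c.DF := by exact_mod_cast hc.pDF
  have hp : 0 < c.kf * c.DF * (√3 / cc) := by positivity
  refine le_of_mul_le_mul_left ?_ hp
  have e : c.kf * c.DF * (√3 / cc) * JM J = c.kf * c.DF * (√3 / cc * JM J) := by ring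
  rw [e]
  refine le_trans ?_ h
  nlinarith [hK]

end Pool.Agent.MCA
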