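import Pool.Agent.MCA.Sem
import Pool.Agent.MSQ.HypR
/-!
SQR (80 lines). The hypotheses on a square are invariant under the reflections.

PROOF. Fields one by one; `lf`, `lJ` are even resp. odd (as in MSQ/HypR.lean `hyp_rx`, `hyp_ry`; `J.Good` of the reflected
jets is proved there inside `hyp_rx`, `hyp_ry`).
-/
set_option autoImplicit false

open MeasureTheory Set Pool.Agent.MSQ Pool.Agent.MTR Pool.Agent.MGF

namespace Pool.Agent.MCA

private theorem SQR_lfx (a b : ℝ) : lf (-a, b) = lf (a, b) := by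
  unfold lf
  simp
private theorem SQR_lfy (a b : ℝ) : lf (a, -b) = lf (a, b) := by
  unfold lf
  simp

theorem good_rx {J : Jet} (h : J.Good) : J.rx.Good := Pool.Agent.MSQ.good_rx J h
theorem good_ry {J : Jet} (h : J.Good) : J.ry.Good := Pool.Agent.MSQ.good_ry J h
theorem sqh_rx {J : Jet} {b : ℝ} (h : SqHyp J b) : SqHyp J.rx b := by
  refine ⟨Pool.Agent.MSQ.good_rx J h.good, h.b0, fun z => h.hXX _, fun z => h.hYY _, ?_, ?_, ?_, ?_,
    ?_, ?_, ?_, ?_, ?_, ?_, ?_⟩
  · intro z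
    have := h.hdet (-z.1, z.2)
    simpa only [Jet.rx, neg_sq] using this
  · rintro ⟨a, b⟩
    have := h.lXX (-a, b)
    simpa only [Jet.rx, lJ, SQR_lfx] using this
  · rintro ⟨a, b⟩
    have := h.lYY (-a, b)
    simpa only [Jet.rx, lJ, SQR_lfx, neg_sq] using this
  · rintro ⟨a, b⟩
    have := h.ldet (-a, b)
    simp only [Jet.rx, lJ, SQR_lfx, neg_sq] at this ⊢
    have e : (-(a * b) / lf (a, b) ^ 3 - -J.fXY (-a, b)) ^ 2 =
        (-(-a * b) / lf (a, b) ^ 3 - J.fXY (-a, b)) ^ 2 := by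
      ring
    rw [e]
    exact this
  · rintro ⟨a, b⟩
    have := h.slX (-a, b)
    simpa only [Jet.rx, abs_neg] using this
  · rintro ⟨a, b⟩
    have := h.slY (-a, b)
    simpa only [Jet.rx, lJ, SQR_lfx] using this
  · intro X Y h1 h2
    have := h.armX (-X) Y (by rwa [abs_neg]) h2
    simpa only [Jet.rx, abs_neg] using this
  · intro X Y h1 h2
    have := h.armY (-X) Y (by rwa [abs_neg]) h2
    simpa only [Jet.rx, abs_neg, SQR_lfx] using this
  · intro X Y h1 h2
    exact h.cor (-X) Y (by rwa [abs_neg]) h2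
  · intro X Y h1 h2
    exact h.ldX (-X) Y (by rwa [abs_neg]) h2
  · intro X Y h1 h2
    have := h.ldY (-X) Y (by rwa [abs_neg]) h2
    simpa only [Jet.rx, abs_neg, SQR_lfx] using this
theorem sqh_ry {J : Jet} {b : ℝ} (h : SqHyp J b) : SqHyp J.ry b := by
  refine ⟨Pool.Agent.MSQ.good_ry J h.good, h.b0, fun z => h.hXX _, fun z => h.hYY _, ?_, ?_, ?_, ?_,
    ?_, ?_, ?_, ?_, ?_, ?_, ?_⟩
  · intro z
    have := h.hdet (z.1, -z.2)
    simpa only [Jet.ry, neg_sq] using this
  · rintro ⟨a, b⟩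
    have := h.lXX (a, -b)
    simpa only [Jet.ry, lJ, SQR_lfy, neg_sq] using this
  · rintro ⟨a, b⟩
    have := h.lYY (a, -b)
    simpa only [Jet.ry, lJ, SQR_lfy] using this
  · rintro ⟨a, b⟩
    have := h.ldet (a, -b)
    simp only [Jet.ry, lJ, SQR_lfy, neg_sq] at this ⊢
    have e : (-(a * b) / lf (a, b) ^ 3 - -J.fXY (a, -b)) ^ 2 =
        (-(a * -b) / lf (a, b) ^ 3 - J.fXY (a, -b)) ^ 2 := by
      ring
    rw [e]
    exact this
  · rintro ⟨a, b⟩
    exact h.slX (a, -b)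
  · rintro ⟨a, b⟩
    have := h.slY (a, -b)
    simp only [Jet.ry, lJ, SQR_lfy] at this ⊢
    rw [← abs_neg]
    have e : -(b / lf (a, b) - -J.fY (a, -b)) = -b / lf (a, b) - J.fY (a, -b) := by
      ring
    rw [e]
    exact this
  · intro X Y h1 h2
    exact h.armX X (-Y) h1 (by rwa [abs_neg])
  · intro X Y h1 h2
    have := h.armY X (-Y) h1 (by rwa [abs_neg])
    simpa only [Jet.ry, abs_neg, SQR_lfy] using this
  · intro X Y h1 h2
    exact h.cor X (-Y) h1 (by rwa [abs_neg])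
  · intro X Y h1 h2
    have := h.ldX X (-Y) h1 (by rwa [abs_neg])
    simpa only [Jet.ry, abs_neg] using this
  · intro X Y h1 h2
    have := h.ldY X (-Y) h1 (by rwa [abs_neg])
    simpa only [Jet.ry, abs_neg, SQR_lfy] using this
theorem sql_rx {J : Jet} {b1 b2 b3 b4 : ℝ} (h : SqL J b1 b2 b3 b4) : SqL J.rx b2 b1 b3 b4 := by
  refine ⟨?_, ?_, ?_, ?_⟩
  · intro Y hY
    exact h.ldXm Y hY
  · intro Y hY
    have := h.ldXp Y hY
    simpa only [Jet.rx, neg_neg] using this
  · intro X hX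
    have := h.ldYp (-X) (by rwa [abs_neg])
    simpa only [Jet.rx, abs_neg, SQR_lfx] using this
  · intro X hX
    have := h.ldYm (-X) (by rwa [abs_neg])
    simpa only [Jet.rx, abs_neg, SQR_lfx] using this
theorem sql_ry {J : Jet} {b1 b2 b3 b4 : ℝ} (h : SqL J b1 b2 b3 b4) : SqL J.ry b1 b2 b4 b3 := by
  refine ⟨?_, ?_, ?_, ?_⟩
  · intro Y hY
    have := h.ldXp (-Y) (by rwa [abs_neg])
    simpa only [Jet.ry, abs_neg] using this
  · intro Y hY
    have := h.ldXm (-Y) (by rwa [abs_neg])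
    simpa only [Jet.ry, abs_neg] using this
  · intro X hX
    have := h.ldYm X hX
    simpa only [Jet.ry, SQR_lfy] using this
  · intro X hX
    have := h.ldYp X hX
    simpa only [Jet.ry, SQR_lfy, neg_neg] using this

end Pool.Agent.MCA
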