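import Pool.Agent.MCA.CVC
import Pool.Agent.MCA.CVS
import Pool.Agent.MCA.QUA
import Pool.Agent.MCA.SQR
/-!
CSQ (150 lines). The inequality of the squares of a C cell from a certificate.

PROOF. `qua` with the four validity records: `Sqd.Val` for `J`, `J.ry` (`σ = false`) and `J.rx`, `J.rx.ry` (`σ = true`) from
`cV_C`, ...; `sqh_rx`, `sql_rx`, `sqh_ry`, `sql_ry` (SQR.lean) for the reflected jets; `LdQ` of these jets: for `J` the loads
are `α = b3, β = b4, γ = b1, δ = b2`, for `J.ry`: `b4, b3, b1, b2`, for `J.rx`: `b3, b4, b2, b1`. `hcor`: `SqHyp.cor`.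
The `rA` part of `Sqd.Val` is trivial (`crA` has no facts). `√3/cc = √6 ≥ 2449489/10^6`.
`cb_asym`: `b2 + b3 + b4 ≤ 143/1000 - b1 ≤ (14300 - be)/10^5`.
-/
set_option autoImplicit false

open MeasureTheory Set Pool.Agent.MSQ Pool.Agent.MTR Pool.Agent.MGF

namespace Pool.Agent.MCA

/-- numbers of an asymmetric cell (divided by `10^5`) -/
def qA (be bb bs : Int) (σ : Bool) : Cq :=
  if σ then ⟨bs, bs, bs, bb, true, 14300 - be, true⟩ else ⟨bs, bs, bb, bs, true, 14300 - be, false⟩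
/-- symmetric cell -/
def qB (bb : Int) : Cq := ⟨bb, bb, bb, bb, false, 0, false⟩

/-- the record uses the facts of the C cells -/
structure Sqd.IsC (c : Sqd) (q : Bool → Cq) : Prop where
  dl : c.DL = aDL
  rC : ∀ σ, c.rC σ = crC (q σ)
  rS : ∀ σ, c.rS σ = crS (q σ)
  rA : ∀ σ, c.rA σ = crA
  rG : ∀ σ, c.rG σ = crG (q σ)
  rX : ∀ σ, c.rX σ = crX (q σ)
  rY : ∀ σ, c.rY σ = crY (q σ)
  lC : ∀ σ, c.lC σ = clC (c.kf * c.DF) (c.kC σ)
  lS : ∀ σ, c.lS σ = clS (c.kf * c.DF) (c.kS σ)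

/-- budget of the square: `2 (kC false + kC true) + 3/10 (kS false + kS true) ≤ 108 kf DF √6 KS`, `KS = ks / kd` -/
def kOK (c : Sqd) (ks kd : Int) : Bool :=
  decide (0 < kd) && decide (10 ^ 7 * kd * (20 * (c.kC false + c.kC true) + 3 * (c.kS false + c.kS true)) ≤
    1080 * (c.kf * c.DF) * 24494897 * ks)

private theorem csq_hK (c : Sqd) (hc : c.Ok) (ks kd : Int) (hk : kOK c ks kd = true) :
    2 * ((c.kC false : ℝ) + c.kC true) + 3 / 10 * (c.kS false + c.kS true) ≤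
      108 * (c.kf * c.DF) * (√3 / cc) * ((ks : ℝ) / kd) := by
  unfold kOK at hk
  simp only [Bool.and_eq_true, decide_eq_true_eq] at hk
  obtain ⟨h0, h1⟩ := hk
  have r0 : (0 : ℝ) < kd := by exact_mod_cast h0
  have r1 : (10 : ℝ) ^ 7 * kd * (20 * (c.kC false + c.kC true) + 3 * (c.kS false + c.kS true)) ≤
      1080 * (c.kf * c.DF) * 24494897 * ks := by exact_mod_cast h1
  have a1 : (0 : ℝ) ≤ c.kC false := by exact_mod_cast hc.pkC false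
  have a2 : (0 : ℝ) ≤ c.kC true := by exact_mod_cast hc.pkC true
  have a3 : (0 : ℝ) ≤ c.kS false := by exact_mod_cast hc.pkS false
  have a4 : (0 : ℝ) ≤ c.kS true := by exact_mod_cast hc.pkS true
  have p1 : (0 : ℝ) < c.kf := by exact_mod_cast hc.pkf
  have p2 : (0 : ℝ) < c.DF := by exact_mod_cast hc.pDF
  have p : (0 : ℝ) < c.kf * c.DF := mul_pos p1 p2
  have ks0 : (0 : ℝ) ≤ ks := by
    by_contra hn
    push Not at hn
    have q1 : (0 : ℝ) ≤ 10 ^ 7 * kd * (20 * (c.kC false + c.kC true) + 3 * (c.kS false + c.kS true)) := by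
      positivity
    have q2 : 1080 * ((c.kf : ℝ) * c.DF) * 24494897 * ks < 0 :=
      mul_neg_of_pos_of_neg (by positivity) hn
    linarith
  have e6 : (24494897 : ℝ) / 10 ^ 7 ≤ √3 / cc := by
    have hcc : (0 : ℝ) < cc := by unfold cc; positivity
    have e : cc * √2 = 1 := by
      unfold cc
      field_simp
    have e1 : √3 / cc = √3 * √2 := by
      rw [div_eq_iff hcc.ne']
      calc √3 = √3 * 1 := (mul_one _).symm
        _ = √3 * (cc * √2) := by rw [e]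
        _ = √3 * √2 * cc := by ring
    rw [e1, ← Real.sqrt_mul (by norm_num : (0 : ℝ) ≤ 3)]
    apply Real.le_sqrt_of_sq_le
    norm_num
  have hq : (0 : ℝ) ≤ (ks : ℝ) / kd := div_nonneg ks0 r0.le
  have m : 108 * ((c.kf : ℝ) * c.DF) * (24494897 / 10 ^ 7) * ((ks : ℝ) / kd) ≤
      108 * (c.kf * c.DF) * (√3 / cc) * ((ks : ℝ) / kd) := by
    apply mul_le_mul_of_nonneg_right _ hq
    exact mul_le_mul_of_nonneg_left e6 (by positivity)
  refine le_trans ?_ m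
  have e2 : 108 * ((c.kf : ℝ) * c.DF) * (24494897 / 10 ^ 7) * ((ks : ℝ) / kd) =
      1080 * (c.kf * c.DF) * 24494897 * ks / (10 ^ 8 * kd) := by
    field_simp
    ring
  rw [e2, le_div_iff₀ (by positivity)]
  linarith

private theorem csq_val (c : Sqd) (hc : c.Ok) (q : Bool → Cq) (hq : c.IsC q) (σ : Bool) (J : Jet) (b : ℝ)
    (h : SqHyp J b) (hl : LdQ J (q σ)) : c.Val σ J := by
  have hD : 0 ≤ c.kf * c.DF := (mul_pos hc.pkf hc.pDF).le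
  refine ⟨?_, ?_, ?_, ?_, ?_, ?_, ?_, ?_⟩
  · intro x y hx hx1 hy hy1
    rw [hq.rC, hq.dl]
    exact cV_C h hl x y hx hx1 hy hy1
  · intro x y hx hx1 hy hy1
    rw [hq.rS, hq.dl]
    exact cV_S h hl x y hx hx1 hy hy1
  · intro x hx hx1
    rw [hq.rA]
    refine ⟨?_, ?_, ?_, ?_, ?_, ?_⟩ <;> intro l hl' <;> simp [crA] at hl'
  · intro x hx hx1
    rw [hq.rG, hq.dl]
    exact cV_G h hl x hx hx1
  · intro y hy hy1
    rw [hq.rX, hq.dl]
    exact cV_X h hl y hy hy1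
  · intro x hx hx1
    rw [hq.rY, hq.dl]
    exact cV_Y h hl x hx hx1
  · intro x y hx hx1 hy hy1
    rw [hq.lC, hq.dl]
    have := cV_lC h (c.kf * c.DF) (c.kC σ) hD (hc.pkC σ) x y hx hx1 hy hy1
    push_cast at this
    exact this
  · intro x y hx hx1 hy hy1
    rw [hq.lS, hq.dl]
    have := cV_lS (K := J) (c.kf * c.DF) (c.kS σ) hD (hc.pkS σ) x y hx hx1 hy hy1
    push_cast at this
    exact this

private theorem csq_ld {J : Jet} {b1 b2 b3 b4 : ℝ} (hL : SqL J b1 b2 b3 b4) (q : Cq) (g1 : 0 ≤ b1) (g2 : 0 ≤ b2)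
    (g3 : 0 ≤ b3) (g4 : 0 ≤ b4) (k3 : b3 ≤ (q.a : ℝ) / 100000) (k4 : b4 ≤ (q.b : ℝ) / 100000)
    (k1 : b1 ≤ (q.c : ℝ) / 100000) (k2 : b2 ≤ (q.d : ℝ) / 100000)
    (hs : q.hs = true → b3 + b4 + (if q.zc = true then b1 else b2) ≤ (q.s : ℝ) / 100000) : LdQ J q := by
  refine ⟨⟨b3, b4, b1, b2, g3, g4, g1, g2, k3, k4, k1, k2, ?_, ?_, ?_, ?_, hs⟩⟩
  · intro X hX
    exact hL.ldYp X hX
  · intro X hX
    exact hL.ldYm X hX
  · intro Y hY
    exact hL.ldXp Y hY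
  · intro Y hY
    exact hL.ldXm Y hY

theorem cb_asym (c : Sqd) (hc : c.Ok) (be bb bs ks kd : Int) (hq : c.IsC (qA be bb bs)) (hk : kOK c ks kd = true)
    (hs1 : Fsym (FL c.DF c.F1)) (hs2 : Fsym (FL c.DF c.F2))
    (hc1 : Continuous fun z : ℝ × ℝ × ℝ × ℝ => FL c.DF c.F1 z.1 z.2.1 z.2.2.1 z.2.2.2)
    (hc2 : Continuous fun z : ℝ × ℝ × ℝ × ℝ => FL c.DF c.F2 z.1 z.2.1 z.2.2.1 z.2.2.2)
    (J : Jet) (b1 b2 b3 b4 : ℝ) (h : SqHyp J b1) (hL : SqL J b1 b2 b3 b4) (h1 : (be : ℝ) / 100000 ≤ b1)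
    (h1' : b1 ≤ (bb : ℝ) / 100000) (g2 : 0 ≤ b2) (g3 : 0 ≤ b3) (g4 : 0 ≤ b4) (k2 : b2 ≤ (bs : ℝ) / 100000)
    (k3 : b3 ≤ (bs : ℝ) / 100000) (k4 : b4 ≤ (bs : ℝ) / 100000) (hsum : b1 + b2 + b3 + b4 ≤ 143 / 1000) :
    -(sXp (FL c.DF c.F1) J + sXm (FL c.DF c.F2) J + sYp (FL c.DF c.F2) J + sYm (FL c.DF c.F2) J) -
      (ks : ℝ) / kd ≤ JM J := by
  have hv1 := sqh_rx h
  have hx := sql_rx hL
  have g1 : 0 ≤ b1 := h.b0
  have hsum' : b3 + b4 + b2 ≤ ((14300 - be : Int) : ℝ) / 100000 := by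
    push_cast
    linarith
  have vF : ∀ {K : Jet} {e1 e2 e3 e4 : ℝ}, SqHyp K b1 → SqL K e1 e2 e3 e4 → 0 ≤ e1 → 0 ≤ e2 → 0 ≤ e3 → 0 ≤ e4 →
      e1 ≤ (bb : ℝ) / 100000 → e2 ≤ (bs : ℝ) / 100000 → e3 ≤ (bs : ℝ) / 100000 → e4 ≤ (bs : ℝ) / 100000 →
      e3 + e4 + e2 ≤ ((14300 - be : Int) : ℝ) / 100000 → c.Val false K := by
    intro K e1 e2 e3 e4 hK hLK p1 p2 p3 p4 q1 q2 q3 q4 qs
    refine csq_val c hc _ hq false K b1 hK (csq_ld hLK _ p1 p2 p3 p4 ?_ ?_ ?_ ?_ ?_)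
    · simpa [qA] using q3
    · simpa [qA] using q4
    · simpa [qA] using q1
    · simpa [qA] using q2
    · intro _
      simpa [qA] using qs
  have vT : ∀ {K : Jet} {e1 e2 e3 e4 : ℝ}, SqHyp K b1 → SqL K e1 e2 e3 e4 → 0 ≤ e1 → 0 ≤ e2 → 0 ≤ e3 → 0 ≤ e4 →
      e1 ≤ (bs : ℝ) / 100000 → e2 ≤ (bb : ℝ) / 100000 → e3 ≤ (bs : ℝ) / 100000 → e4 ≤ (bs : ℝ) / 100000 →
      e3 + e4 + e1 ≤ ((14300 - be : Int) : ℝ) / 100000 → c.Val true K := by
    intro K e1 e2 e3 e4 hK hLK p1 p2 p3 p4 q1 q2 q3 q4 qs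
    refine csq_val c hc _ hq true K b1 hK (csq_ld hLK _ p1 p2 p3 p4 ?_ ?_ ?_ ?_ ?_)
    · simpa [qA] using q3
    · simpa [qA] using q4
    · simpa [qA] using q1
    · simpa [qA] using q2
    · intro _
      simpa [qA] using qs
  refine qua c hc J h.good h.cor hs1 hs2 hc1 hc2 (vF h hL g1 g2 g3 g4 h1' k2 k3 k4 hsum')
    (vF (sqh_ry h) (sql_ry hL) g1 g2 g4 g3 h1' k2 k4 k3 (by linarith))
    (vT hv1 hx g2 g1 g3 g4 k2 h1' k3 k4 hsum')
    (vT (sqh_ry hv1) (sql_ry hx) g2 g1 g4 g3 k2 h1' k4 k3 (by linarith)) _ (csq_hK c hc ks kd hk)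

theorem cb_sym (c : Sqd) (hc : c.Ok) (bb ks kd : Int) (hq : c.IsC fun _ => qB bb) (hk : kOK c ks kd = true)
    (h12 : c.F1 = c.F2) (hs2 : Fsym (FL c.DF c.F2))
    (hc2 : Continuous fun z : ℝ × ℝ × ℝ × ℝ => FL c.DF c.F2 z.1 z.2.1 z.2.2.1 z.2.2.2)
    (J : Jet) (h : SqHyp J ((bb : ℝ) / 100000)) :
    -(sXp (FL c.DF c.F2) J + sXm (FL c.DF c.F2) J + sYp (FL c.DF c.F2) J + sYm (FL c.DF c.F2) J) -
      (ks : ℝ) / kd ≤ JM J := by
  have hL : ∀ {K : Jet}, SqHyp K ((bb : ℝ) / 100000) → SqL K ((bb : ℝ) / 100000) ((bb : ℝ) / 100000)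
      ((bb : ℝ) / 100000) ((bb : ℝ) / 100000) := by
    intro K hK
    have hcc : |cc| = cc := abs_of_pos (by unfold cc; positivity)
    have hcn : |(-cc)| = cc := by rw [abs_neg, hcc]
    exact ⟨fun Y hY => hK.ldX _ _ hcc hY, fun Y hY => hK.ldX _ _ hcn hY, fun X hX => hK.ldY _ _ hX hcc,
      fun X hX => hK.ldY _ _ hX hcn⟩
  have g : (0 : ℝ) ≤ (bb : ℝ) / 100000 := h.b0
  have v : ∀ (σ : Bool) {K : Jet}, SqHyp K ((bb : ℝ) / 100000) → c.Val σ K := by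
    intro σ K hK
    refine csq_val c hc _ hq σ K _ hK (csq_ld (hL hK) _ g g g g le_rfl le_rfl le_rfl le_rfl ?_)
    intro h0
    simp [qB] at h0
  have hx := sqh_rx h
  have r := qua c hc J h.good h.cor (by rw [h12]; exact hs2) hs2 (by rw [h12]; exact hc2) hc2 (v false h)
    (v false (sqh_ry h)) (v true hx) (v true (sqh_ry hx)) _ (csq_hK c hc ks kd hk)
  rw [h12] at r
  exact r

end Pool.Agent.MCA
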