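import Pool.Agent.MCA.CWD
import Pool.Agent.MCA.CCN1
import Pool.Agent.MCA.CCN2
import Pool.Agent.MCA.VEX
import Pool.Agent.MCA.CCS
import Pool.Agent.MCA.CHK
import Pool.Agent.MCA.FLD
/-!
CVC (250 lines). Validity of the facts of the C cells in the core and at `y = 1`.

PROOF. As `aV_C` in AVL.lean (copy its private lemmas). `sv` has the first entry `1/(DL N³)`, so a form `c s_0` with
`c ≥ DL N³ k` is at least `k`. Forms of `crC q`: `V_ap`, `V_am` (VCO5), `V_Bp`, `V_Bm` with `ξ = 9/10` times 20 (VCO4),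
`V_C5p` times `2 m = 2 + x²`, `V_21p`, `V_31p` times 2 (VEX), loads `V_l0` (VCO2), upper bounds `V_la`, ..., `V_ld` (VCO2) with
`α ≤ q.a/10^5`, `ceC_ge` and `cUE_ok`, `cUZ_ok`; the sum form: `V_sum` (VEX) resp. `V_sumc`, times 49, `g29` and `a, b ≥ 0`:
`49 (1 + √(2/3) w y) ≥ 49 + y (40 + 9 x²)`; `(cc + w y/√3)/w = cc/w + y/√3`. Matrices: `V_MH`, `V_ML` (VCO2) with `cKh`, `cKl`
(the entry `m22` grows, `m12² ≤ m11 m22` is kept). `cV_G`: forms at `y = 1`: `at1` (see `aV_G`); the sliver forms with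
`FdC_G` (FLD): `u, q, p` and the loads of `FdC` and `FdS` agree at `y = 1` (`(2+x²) 1² ≤ 3`).
`cV_lC`: `(2 - √3 N) u / N = s_0 (2 DL N² - √3 DL N³) u` and `2 (DL N² - cKh) ≤ 2 DL N² - √3 DL N³ ≤ 2 (DL N² - cKl)`,
`u ≥ - ((1+y) a + (1-y) b)/2` by `V_ap`, `V_am`; `cWb_ok` for the first entry.
-/
set_option autoImplicit false

namespace Pool.Agent.MCA
open Pool.Agent.MSQ Pool.Agent.MTR Pool.Agent.MGF

variable {K : Jet} {b : ℝ} {q : Cq}

section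

/-! ### values of the forms -/

private theorem cvc_lF (x y : ℝ) (t u q p a b c d mu nu ka : P) (F : Fd) :
    lv x y (lF t u q p a b c d mu nu ka) (sv aDL F x y) =
      ev x y t * (1 / (4782969 * Nf y ^ 3)) + ev x y u * (F.S x y).u + ev x y q * (F.S x y).q + ev x y p * (F.S x y).p +
      ev x y a * F.a x + ev x y b * F.b x + ev x y c * F.c x y + ev x y d * F.d x y + ev x y mu * (F.S x y).mu +
      ev x y nu * (F.S x y).nu + ev x y ka * (F.S x y).ka := by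
  have h : ((aDL : Int) : ℝ) = 4782969 := by norm_num [aDL]
  simp only [lv, lF, evE, sv, dotL, List.map_cons, List.map_nil, h]
  ring

private theorem cvc_up {N E k : ℝ} (hN : 0 < N) (h : 4782969 * N ^ 3 * k ≤ E) : k ≤ E * (1 / (4782969 * N ^ 3)) := by
  rw [mul_one_div, le_div_iff₀ (by positivity)]
  linarith
private theorem cvc_dn {N E k : ℝ} (hN : 0 < N) (h : E ≤ 4782969 * N ^ 3 * k) : E * (1 / (4782969 * N ^ 3)) ≤ k := by
  rw [mul_one_div, div_le_iff₀ (by positivity)]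
  linarith

private theorem cvc_N0 (y : ℝ) : 0 < Nf y := Real.sqrt_pos.mpr (by positivity)
private theorem cvc_N2 (y : ℝ) : Nf y ^ 2 = 1 + y ^ 2 / 3 := by
  unfold Nf
  exact Real.sq_sqrt (by positivity)
private theorem cvc_m0 (x : ℝ) : 0 < mf x := by unfold mf; positivity
private theorem cvc_w0 (x : ℝ) : 0 < wf x := Real.sqrt_pos.mpr (cvc_m0 x)
private theorem cvc_w2 (x : ℝ) : wf x ^ 2 = 1 + x ^ 2 / 2 := by
  unfold wf
  exact Real.sq_sqrt (cvc_m0 x).le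
private theorem cvc_30 : (0 : ℝ) < √3 := Real.sqrt_pos.mpr (by norm_num)
private theorem cvc_32 : (√3 : ℝ) ^ 2 = 3 := Real.sq_sqrt (by norm_num)
private theorem cvc_c0 : 0 < cc := by unfold cc; positivity
private theorem cvc_c2 : cc ^ 2 = 1 / 2 := by
  unfold cc
  rw [div_pow, Real.sq_sqrt (by norm_num)]
  norm_num

variable (x y : ℝ) (F : Fd)

private theorem cvc_ap : lv x y aap (sv aDL F x y) = (F.S x y).u + (1 - y) * (F.S x y).q + F.a x := by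
  unfold aap
  rw [cvc_lF]
  simp only [ev, evL]
  push_cast
  ring
private theorem cvc_am : lv x y aam (sv aDL F x y) = (F.S x y).u - (1 + y) * (F.S x y).q + F.b x := by
  unfold aam
  rw [cvc_lF]
  simp only [ev, evL]
  push_cast
  ring
private theorem cvc_fB3 : lv x y cfB3 (sv aDL F x y) = 20 * (ev x y cC3 * (1 / (4782969 * Nf y ^ 3))) - (20 + 9 * x) * (F.S x y).u +
    x * y * (9 - 10 * x) * (F.S x y).q - (18 - 20 * x) * (F.S x y).p + (20 + 10 * x ^ 2) * F.c x y := by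
  unfold cfB3
  rw [cvc_lF, ev_pSm]
  simp [ev, evL]
  ring
private theorem cvc_fB4 : lv x y cfB4 (sv aDL F x y) = 20 * (ev x y cC4 * (1 / (4782969 * Nf y ^ 3))) - (20 - 9 * x) * (F.S x y).u -
    x * y * (9 + 10 * x) * (F.S x y).q + (18 + 20 * x) * (F.S x y).p + (20 + 10 * x ^ 2) * F.d x y := by
  unfold cfB4
  rw [cvc_lF, ev_pSm]
  simp [ev, evL]
  ring
private theorem cvc_fB5 : lv x y cfB5 (sv aDL F x y) = 2 * (ev x y cC5 * (1 / (4782969 * Nf y ^ 3))) -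
    (2 + x ^ 2) * (F.S x y).u + (2 + x ^ 2) * F.c x y := by
  unfold cfB5
  rw [cvc_lF, ev_pSm]
  simp [ev, evL]
  ring
private theorem cvc_fB21 : lv x y cfB21 (sv aDL F x y) = 2 * (ev x y cC21 * (1 / (4782969 * Nf y ^ 3))) +
    (2 + x) * (F.S x y).u + (x ^ 2 * y - x * y) * (F.S x y).q + (2 - 2 * x) * (F.S x y).p - (2 + x ^ 2) * F.c x y := by
  unfold cfB21
  rw [cvc_lF, ev_pSm]
  simp [ev, evL]
  ring
private theorem cvc_fB31 : lv x y cfB31 (sv aDL F x y) = 2 * (ev x y cC31 * (1 / (4782969 * Nf y ^ 3))) +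
    x * (F.S x y).u - x * y * (F.S x y).q + 2 * (F.S x y).p := by
  unfold cfB31
  rw [cvc_lF, ev_pSm]
  simp [ev, evL]
  ring
private theorem cvc_fs0 : lv x y afs0 (sv aDL F x y) = 1 / (4782969 * Nf y ^ 3) := by
  unfold afs0
  rw [cvc_lF]
  simp [ev, evL]
private theorem cvc_la : lv x y ala (sv aDL F x y) = F.a x := by
  unfold ala
  rw [cvc_lF]
  simp [ev, evL]
private theorem cvc_lb : lv x y alb (sv aDL F x y) = F.b x := by
  unfold alb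
  rw [cvc_lF]
  simp [ev, evL]
private theorem cvc_lc : lv x y alc (sv aDL F x y) = F.c x y := by
  unfold alc
  rw [cvc_lF]
  simp [ev, evL]
private theorem cvc_ld : lv x y ald (sv aDL F x y) = F.d x y := by
  unfold ald
  rw [cvc_lF]
  simp [ev, evL]
private theorem cvc_U (k : Nat) (U : P) (n : Int) : lv x y (cfU k U n) (sv aDL F x y) =
    ev x y (ceC U n 100000) * (1 / (4782969 * Nf y ^ 3)) - (sv aDL F x y).getD k 0 := by
  have h : ((aDL : Int) : ℝ) = 4782969 := by norm_num [aDL]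
  unfold cfU
  rw [lv_qAdd, lv_eS, lv_eS]
  simp [sv, ev, evL, h]
  ring
private theorem cvc_S1 (U : P) (s : Int) : lv x y (cfS U s true) (sv aDL F x y) =
    49 * ((1 + x) * (ev x y (ceC U s 100000) * (1 / (4782969 * Nf y ^ 3)))) -
      (49 + y * (40 + 9 * x ^ 2)) * (F.a x + F.b x) - 49 * ((1 + x) * F.c x y) := by
  unfold cfS
  simp only
  rw [cvc_lF, ev_pSm, ev_pMul]
  simp [ev, evL]
  ring
private theorem cvc_S0 (U : P) (s : Int) : lv x y (cfS U s false) (sv aDL F x y) =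
    49 * ((1 + x) * (ev x y (ceC U s 100000) * (1 / (4782969 * Nf y ^ 3)))) -
      (49 + y * (40 + 9 * x ^ 2)) * (F.a x + F.b x) - 49 * ((1 + x) * F.d x y) := by
  unfold cfS
  simp only
  rw [cvc_lF, ev_pSm, ev_pMul]
  simp [ev, evL]
  ring
private theorem cvc_MH1 : lv x y cMH.m11 (sv aDL F x y) = -2 * (F.S x y).mu := by
  unfold cMH
  rw [cvc_lF]
  simp [ev, evL]
private theorem cvc_MH2 : lv x y cMH.m12 (sv aDL F x y) = -2 * (F.S x y).nu := by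
  unfold cMH
  rw [cvc_lF]
  simp [ev, evL]
private theorem cvc_MH3 : lv x y cMH.m22 (sv aDL F x y) = ev x y cKh * (1 / (4782969 * Nf y ^ 3)) - (F.S x y).ka := by
  unfold cMH
  rw [cvc_lF]
  simp [ev, evL]
  ring
private theorem cvc_ML1 : lv x y cML.m11 (sv aDL F x y) = 2 * (F.S x y).mu + 2 / (3 * Nf y ^ 3) := by
  have hN := cvc_N0 y
  unfold cML
  rw [cvc_lF]
  simp [ev, evL]
  field_simp
  ring
private theorem cvc_ML2 : lv x y cML.m12 (sv aDL F x y) = 2 * (F.S x y).nu := by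
  unfold cML
  rw [cvc_lF]
  simp [ev, evL]
private theorem cvc_DN : ev x y [[4782969, 0, 1594323]] = 4782969 * Nf y ^ 2 := by
  rw [cvc_N2]
  simp [ev, evL]
  ring
private theorem cvc_ML3 : lv x y cML.m22 (sv aDL F x y) =
    1 / Nf y - ev x y cKl * (1 / (4782969 * Nf y ^ 3)) + (F.S x y).ka := by
  have hN := cvc_N0 y
  unfold cML
  rw [cvc_lF, ev_pAdd, ev_pSm, cvc_DN]
  have e : 4782969 * Nf y ^ 2 * (1 / (4782969 * Nf y ^ 3)) = 1 / Nf y := by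
    field_simp
  rw [add_mul, e]
  simp [ev, evL]
  ring
private theorem cvc_snq : lv x y asnq (sv aDL F x y) = -(F.S x y).q := by
  unfold asnq
  rw [cvc_lF]
  simp [ev, evL]
private theorem cvc_A20 : lv x y csA20 (sv aDL F x y) = -999 * (F.S x y).u + (999 * y - ev x y cyt) * (F.S x y).q -
    999 * F.a x := by
  unfold csA20
  rw [cvc_lF, ev_pAdd, ev_pSm]
  simp [ev, evL]
  ring
private theorem cvc_sB3 : lv x y csB3 (sv aDL F x y) = 200 * (ev x y sC3 * (1 / (4782969 * Nf y ^ 3))) -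
    (200 + 97 * x) * (F.S x y).u + x * y * (97 - 100 * x) * (F.S x y).q - (194 - 200 * x) * (F.S x y).p +
    (200 + 100 * x ^ 2) * F.c x y := by
  unfold csB3
  rw [cvc_lF, ev_pSm]
  simp [ev, evL]
  ring
private theorem cvc_sB4 : lv x y csB4 (sv aDL F x y) = 200 * (ev x y sC4 * (1 / (4782969 * Nf y ^ 3))) -
    (200 - 97 * x) * (F.S x y).u - x * y * (97 + 100 * x) * (F.S x y).q + (194 + 200 * x) * (F.S x y).p +
    (200 + 100 * x ^ 2) * F.d x y := by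
  unfold csB4
  rw [cvc_lF, ev_pSm]
  simp [ev, evL]
  ring

/-! ### loads -/

variable {x y F}

private theorem cvc_ax (hx : 0 ≤ x) (hx1 : x ≤ 1) : |cc * x| ≤ cc := by
  rw [abs_of_nonneg (mul_nonneg cvc_c0.le hx)]
  nlinarith [cvc_c0]
private theorem cvc_Yc (_hx : 0 ≤ x) (hy : 0 ≤ y) (hc : (2 + x ^ 2) * y ^ 2 ≤ 3) : wf x * y / √3 ≤ cc := by
  have h1 := cvc_w2 x
  have h2 := cvc_32
  have h3 := cvc_30
  have h4 := cvc_w0 x
  have h0 : 0 ≤ wf x * y / √3 := by positivity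
  rw [← pow_le_pow_iff_left₀ h0 cvc_c0.le two_ne_zero, div_pow, mul_pow, h1, h2, cvc_c2, div_le_iff₀ (by norm_num)]
  nlinarith
private theorem cvc_hc (hx : 0 ≤ x) (hx1 : x ≤ 1) (hy : 0 ≤ y) (hy1 : y ≤ 1) : (2 + x ^ 2) * y ^ 2 ≤ 3 := by
  have h1 : x ^ 2 ≤ 1 := by nlinarith
  have h2 : y ^ 2 ≤ 1 := by nlinarith
  nlinarith [sq_nonneg x, sq_nonneg y]
private theorem cvc_Ya (hx : 0 ≤ x) (hx1 : x ≤ 1) (hy : 0 ≤ y) (hy1 : y ≤ 1) : |wf x * y / √3| ≤ cc := by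
  have h4 : 0 ≤ wf x * y / √3 := by
    have := cvc_w0 x
    have := cvc_30
    positivity
  rw [abs_of_nonneg h4]
  exact cvc_Yc hx hy (cvc_hc hx hx1 hy hy1)
private theorem cvc_s0 (y : ℝ) : 0 ≤ 1 / (4782969 * Nf y ^ 3) := by
  have := cvc_N0 y
  positivity
private theorem cvc_s (x y : ℝ) (F : Fd) : 0 ≤ lv x y afs0 (sv aDL F x y) := by
  rw [cvc_fs0]
  exact cvc_s0 y
private theorem cvc_l0 (h : SqHyp K b) (hx : 0 ≤ x) (hx1 : x ≤ 1) (hy : 0 ≤ y) (hy1 : y ≤ 1) :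
    0 ≤ (FdC K).a x ∧ 0 ≤ (FdC K).b x ∧ 0 ≤ (FdC K).c x y ∧ 0 ≤ (FdC K).d x y :=
  V_l0 h x y hx hx1 hy (cvc_Yc hx hy (cvc_hc hx hx1 hy hy1))

/-- rounding: from `DL N³ k ≤ U` and `α ≤ n/10^5` -/
private theorem cvc_rnd {U : P} {n : Int} {α k : ℝ} (hx : 0 ≤ x) (hy : 0 ≤ y) (hα : 0 ≤ α) (hn : α ≤ n / 100000)
    (hk : 0 ≤ k) (hU : 4782969 * Nf y ^ 3 * k ≤ ev x y U) :
    α * k ≤ ev x y (ceC U n 100000) * (1 / (4782969 * Nf y ^ 3)) := by
  have h1 := cvc_up (cvc_N0 y) hU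
  have h2 := ceC_ge U n 100000 (by norm_num) x y hx hy
  have h3 := cvc_s0 y
  have h4 : α * k ≤ n / 100000 * k := mul_le_mul_of_nonneg_right hn hk
  have h5 : (n : ℝ) / 100000 * k ≤ n / 100000 * (ev x y U * (1 / (4782969 * Nf y ^ 3))) :=
    mul_le_mul_of_nonneg_left h1 (hα.trans hn)
  have h6 := mul_le_mul_of_nonneg_right h2 h3
  push_cast at h6
  linarith

private theorem cvc_kE (hx : 0 ≤ x) : 0 ≤ cc * (1 + x) / wf x := by
  have := cvc_c0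
  have := cvc_w0 x
  positivity
private theorem cvc_kZ (hy : 0 ≤ y) : 0 ≤ cc / wf x + y / √3 := by
  have := cvc_c0
  have := cvc_w0 x
  have := cvc_30
  positivity

/-- all upper bounds of loads of the core -/
private theorem cvc_Us (hl : LdQ K q) (hx : 0 ≤ x) (hx1 : x ≤ 1) (hy : 0 ≤ y) (hy1 : y ≤ 1) :
    0 ≤ lv x y (cfU 4 cUE q.a) (sv aDL (FdC K) x y) ∧ 0 ≤ lv x y (cfU 5 cUE q.b) (sv aDL (FdC K) x y) ∧
    0 ≤ lv x y (cfU 6 cUZ q.c) (sv aDL (FdC K) x y) ∧ 0 ≤ lv x y (cfU 7 cUZ q.d) (sv aDL (FdC K) x y) := by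
  obtain ⟨α, β, γ, δ, a0, b0, c0, d0, ha, hb, hc, hd, la, lb, lc, ld, -⟩ := hl.ex
  have hX := cvc_ax hx hx1
  have hY := cvc_Ya hx hx1 hy hy1
  have k1 := cvc_kE hx
  have k2 := cvc_kZ (x := x) hy
  refine ⟨?_, ?_, ?_, ?_⟩
  · rw [cvc_U]
    have h1 := V_la α x hx (la _ hX)
    have h2 := cvc_rnd hx hy a0 ha k1 (cUE_ok x y hx hx1 hy hy1)
    have e : (sv aDL (FdC K) x y).getD 4 0 = (FdC K).a x := rfl
    have e2 : α * cc * (1 + x) / wf x = α * (cc * (1 + x) / wf x) := by ring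
    rw [e]
    rw [e2] at h1
    linarith
  · rw [cvc_U]
    have h1 := V_lb β x hx (lb _ hX)
    have h2 := cvc_rnd hx hy b0 hb k1 (cUE_ok x y hx hx1 hy hy1)
    have e : (sv aDL (FdC K) x y).getD 5 0 = (FdC K).b x := rfl
    have e2 : β * cc * (1 + x) / wf x = β * (cc * (1 + x) / wf x) := by ring
    rw [e]
    rw [e2] at h1
    linarith
  · rw [cvc_U]
    have h1 := V_lc γ x y hy (lc _ hY)
    have h2 := cvc_rnd hx hy c0 hc k2 (cUZ_ok x y hx hx1 hy hy1)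
    have e : (sv aDL (FdC K) x y).getD 6 0 = (FdC K).c x y := rfl
    rw [e]
    linarith
  · rw [cvc_U]
    have h1 := V_ld δ x y hy (ld _ hY)
    have h2 := cvc_rnd hx hy d0 hd k2 (cUZ_ok x y hx hx1 hy hy1)
    have e : (sv aDL (FdC K) x y).getD 7 0 = (FdC K).d x y := rfl
    rw [e]
    linarith

/-- the arithmetic of the sum form -/
private theorem cvc_sum {s E A B C : ℝ} (hx : 0 ≤ x) (hx1 : x ≤ 1) (hy : 0 ≤ y) (hA : 0 ≤ A) (hB : 0 ≤ B)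
    (h1 : 0 ≤ s * (1 + x) * (cc + wf x * y / √3) / wf x - (1 + √(2 / 3) * wf x * y) * (A + B) - (1 + x) * C)
    (h2 : s * (cc / wf x + y / √3) ≤ E) :
    0 ≤ 49 * ((1 + x) * E) - (49 + y * (40 + 9 * x ^ 2)) * (A + B) - 49 * ((1 + x) * C) := by
  have hw := cvc_w0 x
  have h3 := cvc_30
  have e : s * (1 + x) * (cc + wf x * y / √3) / wf x = (1 + x) * (s * (cc / wf x + y / √3)) := by
    field_simp
  rw [e] at h1
  have h4 := mul_le_mul_of_nonneg_left h2 (show (0 : ℝ) ≤ 1 + x by linarith)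
  have h5 := mul_le_mul_of_nonneg_left (g29 x hx hx1) hy
  have h6 : (49 + y * (40 + 9 * x ^ 2)) * (A + B) ≤ 49 * ((1 + √(2 / 3) * wf x * y) * (A + B)) := by
    rw [← mul_assoc]
    refine mul_le_mul_of_nonneg_right ?_ (by linarith)
    linarith
  linarith

private theorem cvc_Sl (h : SqHyp K b) (hl : LdQ K q) (hx : 0 ≤ x) (hx1 : x ≤ 1) (hy : 0 ≤ y) (hy1 : y ≤ 1) :
    ∀ l ∈ cfSl cUZ q, 0 ≤ lv x y l (sv aDL (FdC K) x y) := by
  obtain ⟨α, β, γ, δ, a0, b0, c0, d0, ha, hb, hc, hd, la, lb, lc, ld, hs⟩ := hl.ex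
  intro l hm
  unfold cfSl at hm
  by_cases hq : q.hs = true
  · rw [if_pos hq, List.mem_singleton] at hm
    have hs1 := hs hq
    have hX := cvc_ax hx hx1
    have hY := cvc_Ya hx hx1 hy hy1
    have k2 := cvc_kZ (x := x) hy
    have l0 := cvc_l0 h hx hx1 hy hy1
    rw [hm]
    cases hz : q.zc with
    | true =>
      rw [hz, if_pos rfl] at hs1
      rw [cvc_S1]
      have h1 := V_sumc K γ α β (γ + α + β) x y hx hy le_rfl (la _ hX) (lb _ hX) (lc _ hY)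
      have h2 := cvc_rnd hx hy (by linarith) (show γ + α + β ≤ q.s / 100000 by linarith) k2 (cUZ_ok x y hx hx1 hy hy1)
      exact cvc_sum hx hx1 hy l0.1 l0.2.1 h1 h2
    | false =>
      rw [hz, if_neg (by simp)] at hs1
      rw [cvc_S0]
      have h1 := V_sum K δ α β (δ + α + β) x y hx hy le_rfl (la _ hX) (lb _ hX) (ld _ hY)
      have h2 := cvc_rnd hx hy (by linarith) (show δ + α + β ≤ q.s / 100000 by linarith) k2 (cUZ_ok x y hx hx1 hy hy1)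
      exact cvc_sum hx hx1 hy l0.1 l0.2.1 h1 h2
  · rw [if_neg hq] at hm
    exact absurd hm (List.not_mem_nil)

/-! ### facts of the core -/

private theorem cvc_C_ap (h : SqHyp K b) (hx : 0 ≤ x) (hx1 : x ≤ 1) (hy : 0 ≤ y) (hy1 : y ≤ 1) :
    0 ≤ lv x y aap (sv aDL (FdC K) x y) := by
  rw [cvc_ap]
  exact V_ap h x y hx hx1 hy hy1
private theorem cvc_C_am (h : SqHyp K b) (hx : 0 ≤ x) (hx1 : x ≤ 1) (hy : 0 ≤ y) (hy1 : y ≤ 1) :
    0 ≤ lv x y aam (sv aDL (FdC K) x y) := by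
  rw [cvc_am]
  exact V_am h x y hx hx1 hy hy1
private theorem cvc_C_B3 (h : SqHyp K b) (hx : 0 ≤ x) (hx1 : x ≤ 1) (hy : 0 ≤ y) (hy1 : y ≤ 1) :
    0 ≤ lv x y cfB3 (sv aDL (FdC K) x y) := by
  rw [cvc_fB3]
  have h1 := V_Bp h x y (9 / 10) hx hx1 hy hy1 (by norm_num) (by norm_num)
  have h2 := cvc_up (cvc_N0 y) (cC3_ok x y hx hx1 hy hy1)
  have h3 : mf x = 1 + x ^ 2 / 2 := rfl
  have h4 : (FdC K).S x y = AC K x y := rfl
  rw [h3] at h1
  rw [h4]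
  linarith
private theorem cvc_C_B4 (h : SqHyp K b) (hx : 0 ≤ x) (hx1 : x ≤ 1) (hy : 0 ≤ y) (hy1 : y ≤ 1) :
    0 ≤ lv x y cfB4 (sv aDL (FdC K) x y) := by
  rw [cvc_fB4]
  have h1 := V_Bm h x y (9 / 10) hx hx1 hy hy1 (by norm_num) (by norm_num)
  have h2 := cvc_up (cvc_N0 y) (cC4_ok x y hx hx1 hy hy1)
  have h3 : mf x = 1 + x ^ 2 / 2 := rfl
  have h4 : (FdC K).S x y = AC K x y := rfl
  rw [h3] at h1
  rw [h4]
  linarith
private theorem cvc_C_B5 (h : SqHyp K b) (hx : 0 ≤ x) (hx1 : x ≤ 1) (hy : 0 ≤ y) (hy1 : y ≤ 1) :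
    0 ≤ lv x y cfB5 (sv aDL (FdC K) x y) := by
  rw [cvc_fB5]
  have h1 := mul_nonneg (cvc_m0 x).le (V_C5p h x y hx hx1 hy hy1)
  have h2 := cvc_up (cvc_N0 y) (cC5_ok x y hx hx1 hy hy1)
  have h3 : mf x = 1 + x ^ 2 / 2 := rfl
  have h4 : (FdC K).S x y = AC K x y := rfl
  rw [h3] at h1 h2
  rw [h4]
  linarith
private theorem cvc_C_B21 (h : SqHyp K b) (hx : 0 ≤ x) (hx1 : x ≤ 1) (hy : 0 ≤ y) (hy1 : y ≤ 1) :
    0 ≤ lv x y cfB21 (sv aDL (FdC K) x y) := by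
  rw [cvc_fB21]
  have h1 := V_21p h x y
  have h2 := cvc_up (cvc_N0 y) (cC21_ok x y hx hx1 hy hy1)
  have h3 : mf x = 1 + x ^ 2 / 2 := rfl
  have h4 : (FdC K).S x y = AC K x y := rfl
  rw [h3] at h1
  rw [h4]
  linarith
private theorem cvc_C_B31 (h : SqHyp K b) (hx : 0 ≤ x) (hx1 : x ≤ 1) (hy : 0 ≤ y) (hy1 : y ≤ 1) :
    0 ≤ lv x y cfB31 (sv aDL (FdC K) x y) := by
  rw [cvc_fB31]
  have h1 := V_31p h x y
  have h2 := cvc_up (cvc_N0 y) (cC31_ok x y hx hx1 hy hy1)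
  have h4 : (FdC K).S x y = AC K x y := rfl
  rw [h4]
  linarith
private theorem cvc_C_la (h : SqHyp K b) (hx : 0 ≤ x) (hx1 : x ≤ 1) (y : ℝ) : 0 ≤ lv x y ala (sv aDL (FdC K) x y) := by
  rw [cvc_la]
  exact (cvc_l0 (y := 0) h hx hx1 le_rfl (by norm_num)).1
private theorem cvc_C_lb (h : SqHyp K b) (hx : 0 ≤ x) (hx1 : x ≤ 1) (y : ℝ) : 0 ≤ lv x y alb (sv aDL (FdC K) x y) := by
  rw [cvc_lb]
  exact (cvc_l0 (y := 0) h hx hx1 le_rfl (by norm_num)).2.1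
private theorem cvc_C_lc (h : SqHyp K b) (hx : 0 ≤ x) (hx1 : x ≤ 1) (hy : 0 ≤ y) (hy1 : y ≤ 1) :
    0 ≤ lv x y alc (sv aDL (FdC K) x y) := by
  rw [cvc_lc]
  exact (cvc_l0 h hx hx1 hy hy1).2.2.1
private theorem cvc_C_ld (h : SqHyp K b) (hx : 0 ≤ x) (hx1 : x ≤ 1) (hy : 0 ≤ y) (hy1 : y ≤ 1) :
    0 ≤ lv x y ald (sv aDL (FdC K) x y) := by
  rw [cvc_ld]
  exact (cvc_l0 h hx hx1 hy hy1).2.2.2
private theorem cvc_C_MH3 (K : Jet) (x : ℝ) (hy : 0 ≤ y) (hy1 : y ≤ 1) :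
    s3 - (AC K x y).ka ≤ lv x y cMH.m22 (sv aDL (FdC K) x y) := by
  rw [cvc_MH3]
  have h2 := cvc_up (cvc_N0 y) (cKh_ok x y hy hy1)
  have h4 : (FdC K).S x y = AC K x y := rfl
  rw [h4]
  linarith
private theorem cvc_C_ML3 (K : Jet) (x : ℝ) (hy : 0 ≤ y) (hy1 : y ≤ 1) :
    (AC K x y).ka + (1 / Nf y - s3) ≤ lv x y cML.m22 (sv aDL (FdC K) x y) := by
  rw [cvc_ML3]
  have h2 := cvc_dn (cvc_N0 y) (cKl_ok x y hy hy1)
  have h4 : (FdC K).S x y = AC K x y := rfl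
  rw [h4]
  linarith

/-! ### facts at `y = 1` -/

private theorem cvc_at1 (x : ℝ) (l : LF) (s : List ℝ) : lv x 1 (l.map at1) s = lv x 1 l s := by
  have h : evE x 1 (l.map at1) = evE x 1 l := by
    unfold evE
    rw [List.map_map]
    apply List.map_congr_left
    intro p _
    exact ev_at1 x 1 p
  unfold lv
  rw [h]
private theorem cvc_G3 (h : SqHyp K b) (x : ℝ) : 0 ≤ lv x 1 asnq (sv aDL (FdC K) x 1) := by
  rw [cvc_snq]
  have h3 : ((FdC K).S x 1).q = (AS K x 1).q := (FdC_G K x).2.1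
  rw [h3]
  exact neg_nonneg.2 (V_nq h x 1)
private theorem cvc_G20 (h : SqHyp K b) (hx : 0 ≤ x) (hx1 : x ≤ 1) : 0 ≤ lv x 1 csA20 (sv aDL (FdC K) x 1) := by
  rw [cvc_A20]
  have h1 := cyt_ok x 1 hx hx1
  have h2 := V_f2 h x 1 (ev x 1 cyt / 999) hx hx1 le_rfl (cvc_hc hx hx1 zero_le_one le_rfl)
    (by rw [le_div_iff₀ (by norm_num)]; linarith)
  have h3 : ((FdC K).S x 1).q = (AS K x 1).q := (FdC_G K x).2.1
  have h4 : ((FdC K).S x 1).u = (AS K x 1).u := (FdC_G K x).1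
  have h5 : (FdC K).a x = (FdS K).a x := rfl
  rw [h3, h4, h5]
  have e : -999 * (AS K x 1).u + (999 * 1 - ev x 1 cyt) * (AS K x 1).q - 999 * (FdS K).a x =
      999 * (-(AS K x 1).u - (ev x 1 cyt / 999 - 1) * (AS K x 1).q - (FdS K).a x) := by ring
  rw [e]
  exact mul_nonneg (by norm_num) h2
private theorem cvc_GB3 (h : SqHyp K b) (hx : 0 ≤ x) (hx1 : x ≤ 1) : 0 ≤ lv x 1 csB3 (sv aDL (FdC K) x 1) := by
  rw [cvc_sB3]
  have hc := cvc_hc hx hx1 zero_le_one (le_refl (1 : ℝ))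
  have h1 := V_sBp h x 1 (97 / 100) hx hx1 le_rfl hc (by norm_num) (by norm_num)
  have h2 := cvc_up (cvc_N0 1) (sC3_ok x 1 hx hx1 le_rfl hc)
  have h3 : mf x = 1 + x ^ 2 / 2 := rfl
  have e1 : ((FdC K).S x 1).q = (AS K x 1).q := (FdC_G K x).2.1
  have e2 : ((FdC K).S x 1).u = (AS K x 1).u := (FdC_G K x).1
  have e3 : ((FdC K).S x 1).p = (AS K x 1).p := (FdC_G K x).2.2.1
  have e4 : (FdC K).c x 1 = (FdS K).c x 1 := rfl
  rw [h3] at h1
  rw [e1, e2, e3, e4]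
  linarith
private theorem cvc_GB4 (h : SqHyp K b) (hx : 0 ≤ x) (hx1 : x ≤ 1) : 0 ≤ lv x 1 csB4 (sv aDL (FdC K) x 1) := by
  rw [cvc_sB4]
  have hc := cvc_hc hx hx1 zero_le_one (le_refl (1 : ℝ))
  have h1 := V_sBm h x 1 (97 / 100) hx hx1 le_rfl hc (by norm_num) (by norm_num)
  have h2 := cvc_up (cvc_N0 1) (sC4_ok x 1 hx hx1 le_rfl hc)
  have h3 : mf x = 1 + x ^ 2 / 2 := rfl
  have e1 : ((FdC K).S x 1).q = (AS K x 1).q := (FdC_G K x).2.1
  have e2 : ((FdC K).S x 1).u = (AS K x 1).u := (FdC_G K x).1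
  have e3 : ((FdC K).S x 1).p = (AS K x 1).p := (FdC_G K x).2.2.1
  have e4 : (FdC K).d x 1 = (FdS K).d x 1 := rfl
  rw [h3] at h1
  rw [e1, e2, e3, e4]
  linarith

private theorem cvc_app {α : Type} {p : α → Prop} {l1 l2 : List α} (h1 : ∀ a ∈ l1, p a) (h2 : ∀ a ∈ l2, p a) :
    ∀ a ∈ l1 ++ l2, p a := by
  intro a ha
  rcases List.mem_append.1 ha with h | h
  · exact h1 a h
  · exact h2 a h

end

theorem cV_C (h : SqHyp K b) (hl : LdQ K q) (x y : ℝ) (hx : 0 ≤ x) (hx1 : x ≤ 1) (hy : 0 ≤ y) (hy1 : y ≤ 1) :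
    ROK (crC q) x y (sv aDL (FdC K) x y) := by
  have hU := cvc_Us hl hx hx1 hy hy1
  refine ⟨?_, ?_, ?_, ?_, List.forall_mem_nil _, List.forall_mem_nil _⟩
  · refine cvc_app ?_ (cvc_Sl h hl hx hx1 hy hy1)
    exact List.forall_mem_cons.2 ⟨cvc_C_ap h hx hx1 hy hy1, List.forall_mem_cons.2 ⟨cvc_C_am h hx hx1 hy hy1, List.forall_mem_cons.2 ⟨cvc_C_B3 h hx hx1 hy hy1, List.forall_mem_cons.2 ⟨cvc_C_B4 h hx hx1 hy hy1, List.forall_mem_cons.2 ⟨cvc_C_B5 h hx hx1 hy hy1, List.forall_mem_cons.2 ⟨cvc_C_B21 h hx hx1 hy hy1, List.forall_mem_cons.2 ⟨cvc_C_B31 h hx hx1 hy hy1, List.forall_mem_cons.2 ⟨cvc_C_la h hx hx1 y, List.forall_mem_cons.2 ⟨cvc_C_lb h hx hx1 y, List.forall_mem_cons.2 ⟨cvc_C_lc h hx hx1 hy hy1, List.forall_mem_cons.2 ⟨cvc_C_ld h hx hx1 hy hy1, List.forall_mem_cons.2 ⟨hU.1, List.forall_mem_cons.2 ⟨hU.2.1, List.forall_mem_cons.2 ⟨hU.2.2.1, List.forall_mem_cons.2 ⟨hU.2.2.2,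 List.forall_mem_nil _⟩⟩⟩⟩⟩⟩⟩⟩⟩⟩⟩⟩⟩⟩⟩
  · refine List.forall_mem_cons.2 ⟨?_, List.forall_mem_cons.2 ⟨?_, List.forall_mem_nil _⟩⟩
    · rw [cvc_MH1]
      have h1 := V_mu h x y
      have h4 : (FdC K).S x y = AC K x y := rfl
      rw [h4]
      linarith
    · rw [cvc_ML1]
      exact (V_ML h x y).1
  · refine List.forall_mem_cons.2 ⟨?_, List.forall_mem_cons.2 ⟨?_, List.forall_mem_nil _⟩⟩
    · exact (V_MH h x y).1.trans (cvc_C_MH3 K x hy hy1)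
    · exact (V_ML h x y).2.1.trans (cvc_C_ML3 K x hy hy1)
  · refine List.forall_mem_cons.2 ⟨?_, List.forall_mem_cons.2 ⟨?_, List.forall_mem_nil _⟩⟩
    · rw [cvc_MH1, cvc_MH2]
      have h1 := V_mu h x y
      have h4 : (FdC K).S x y = AC K x y := rfl
      rw [h4]
      refine (V_MH h x y).2.trans ?_
      exact mul_le_mul_of_nonneg_left (cvc_C_MH3 K x hy hy1) (by linarith)
    · rw [cvc_ML1, cvc_ML2]
      refine (V_ML h x y).2.2.trans ?_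
      exact mul_le_mul_of_nonneg_left (cvc_C_ML3 K x hy hy1) (V_ML h x y).1

theorem cV_G (h : SqHyp K b) (hl : LdQ K q) (x : ℝ) (hx : 0 ≤ x) (hx1 : x ≤ 1) :
    ROK (crG q) x 1 (sv aDL (FdC K) x 1) := by
  have hU := cvc_Us hl hx hx1 zero_le_one (le_refl (1 : ℝ))
  refine ⟨?_, List.forall_mem_nil _, List.forall_mem_nil _, List.forall_mem_nil _, List.forall_mem_nil _, List.forall_mem_nil _⟩
  refine List.forall_mem_map.2 fun l hl' => ?_
  rw [cvc_at1]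
  revert l
  refine cvc_app ?_ (cvc_Sl h hl hx hx1 zero_le_one le_rfl)
  exact List.forall_mem_cons.2 ⟨cvc_s x 1 _, List.forall_mem_cons.2 ⟨cvc_C_ap h hx hx1 zero_le_one le_rfl, List.forall_mem_cons.2 ⟨cvc_C_am h hx hx1 zero_le_one le_rfl, List.forall_mem_cons.2 ⟨cvc_G3 h x, List.forall_mem_cons.2 ⟨cvc_G20 h hx hx1, List.forall_mem_cons.2 ⟨cvc_C_B3 h hx hx1 zero_le_one le_rfl, List.forall_mem_cons.2 ⟨cvc_C_B4 h hx hx1 zero_le_one le_rfl, List.forall_mem_cons.2 ⟨cvc_C_B5 h hx hx1 zero_le_one le_rfl, List.forall_mem_cons.2 ⟨cvc_C_B21 h hx hx1 zero_le_one le_rfl, List.forall_mem_cons.2 ⟨cvc_C_B31 h hx hx1 zero_le_one le_rfl, List.forall_mem_cons.2 ⟨cvc_GB3 h hx hx1, List.forall_mem_cons.2 ⟨cvc_GB4 h hx hx1, List.forall_mem_cons.2 ⟨cvc_C_la h hx hx1 1, List.forall_mem_cons.2 ⟨cvc_C_lb h hx hx1 1, List.forall_mem_cons.2 ⟨cvc_C_lc h hx hx1 zero_le_one le_rfl, List.forall_mem_cons.2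 ⟨cvc_C_ld h hx hx1 zero_le_one le_rfl, List.forall_mem_cons.2 ⟨hU.1, List.forall_mem_cons.2 ⟨hU.2.1, List.forall_mem_cons.2 ⟨hU.2.2.1, List.forall_mem_cons.2 ⟨hU.2.2.2, List.forall_mem_nil _⟩⟩⟩⟩⟩⟩⟩⟩⟩⟩⟩⟩⟩⟩⟩⟩⟩⟩⟩⟩

theorem cV_lC (h : SqHyp K b) (D k : Int) (hD : 0 ≤ D) (hk : 0 ≤ k) (x y : ℝ) (hx : 0 ≤ x) (hx1 : x ≤ 1) (hy : 0 ≤ y)
    (hy1 : y ≤ 1) : 1 / (aDL * Nf y ^ 3) * lv x y (clC D k) (sv aDL (FdC K) x y) ≤
      108 * D * ((2 - √3 * Nf y) * (AC K x y).u / Nf y) + k * Nf y ^ 3 * mf x := by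
  have hN := cvc_N0 y
  have hDL : ((aDL : Int) : ℝ) = 4782969 := by norm_num [aDL]
  have hD' : (0 : ℝ) ≤ D := by exact_mod_cast hD
  have hk' : (0 : ℝ) ≤ k := by exact_mod_cast hk
  have e : lv x y (clC D k) (sv aDL (FdC K) x y) = k * ev x y cWb * (1 / (4782969 * Nf y ^ 3)) +
      108 * D * (2 * (4782969 * Nf y ^ 2 - ev x y cKh) * (AC K x y).u -
        (ev x y cKh - ev x y cKl) * ((1 + y) * (FdC K).a x + (1 - y) * (FdC K).b x)) := by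
    unfold clC cGl cdf
    rw [cvc_lF]
    simp only [ev_pSm, ev_pAdd, ev_pMul, cvc_DN]
    have h4 : (FdC K).S x y = AC K x y := rfl
    rw [h4]
    simp [ev, evL]
    ring
  have hl := cvc_l0 h hx hx1 hy hy1
  have hap := V_ap h x y hx hx1 hy hy1
  have ham := V_am h x y hx hx1 hy hy1
  have hKh := cKh_ok x y hy hy1
  have hKl := cKl_ok x y hy hy1
  have hW := cWb_ok x y hx hx1 hy (by linarith)
  rw [e, hDL]
  obtain ⟨W, hWd⟩ : ∃ W : ℝ, W = (1 + y) * (FdC K).a x + (1 - y) * (FdC K).b x := ⟨_, rfl⟩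
  have hW0 : 0 ≤ W := by
    rw [hWd]
    exact add_nonneg (mul_nonneg (by linarith) hl.1) (mul_nonneg (by linarith) hl.2.1)
  have h2u : 0 ≤ 2 * (AC K x y).u + W := by
    have h1 := mul_nonneg (show (0 : ℝ) ≤ 1 + y by linarith) hap
    have h2 := mul_nonneg (show (0 : ℝ) ≤ 1 - y by linarith) ham
    rw [hWd]
    linarith
  rw [← hWd]
  obtain ⟨T, hT⟩ : ∃ T : ℝ, T = 4782969 * Nf y ^ 3 * s3 := ⟨_, rfl⟩
  rw [← hT] at hKh hKl
  have hkey : 2 * (4782969 * Nf y ^ 2 - ev x y cKh) * (AC K x y).u - (ev x y cKh - ev x y cKl) * W ≤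
      2 * (4782969 * Nf y ^ 2 - T) * (AC K x y).u := by
    have h1 := mul_nonneg (show (0 : ℝ) ≤ ev x y cKh - T by linarith) h2u
    have h2 := mul_nonneg (show (0 : ℝ) ≤ T - ev x y cKl by linarith) hW0
    linarith
  have e3 : 2 * (4782969 * Nf y ^ 2 - T) * (AC K x y).u * (1 / (4782969 * Nf y ^ 3)) = (2 - √3 * Nf y) * (AC K x y).u / Nf y := by
    rw [hT]
    unfold s3
    field_simp
  have hs0 := cvc_s0 y
  have h5 : 1 / (4782969 * Nf y ^ 3) * (k * ev x y cWb * (1 / (4782969 * Nf y ^ 3))) ≤ k * Nf y ^ 3 * mf x := by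
    have e4 : 1 / (4782969 * Nf y ^ 3) * (k * ev x y cWb * (1 / (4782969 * Nf y ^ 3))) =
        k * (ev x y cWb / (4782969 ^ 2 * Nf y ^ 6)) := by
      field_simp
    have e5 : k * Nf y ^ 3 * mf x = k * (Nf y ^ 3 * mf x) := by ring
    rw [e4, e5]
    refine mul_le_mul_of_nonneg_left ?_ hk'
    rw [div_le_iff₀ (by positivity)]
    refine hW.trans (le_of_eq ?_)
    ring
  have h6 := mul_le_mul_of_nonneg_left hkey (mul_nonneg (mul_nonneg (by norm_num : (0 : ℝ) ≤ 108) hD') hs0)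
  have e6 : 108 * D * (1 / (4782969 * Nf y ^ 3)) * (2 * (4782969 * Nf y ^ 2 - T) * (AC K x y).u) =
      108 * D * (2 * (4782969 * Nf y ^ 2 - T) * (AC K x y).u * (1 / (4782969 * Nf y ^ 3))) := by ring
  rw [e6, e3] at h6
  have e7 : 1 / (4782969 * Nf y ^ 3) * (k * ev x y cWb * (1 / (4782969 * Nf y ^ 3)) +
      108 * D * (2 * (4782969 * Nf y ^ 2 - ev x y cKh) * (AC K x y).u - (ev x y cKh - ev x y cKl) * W)) =
      1 / (4782969 * Nf y ^ 3) * (k * ev x y cWb * (1 / (4782969 * Nf y ^ 3))) +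
      108 * D * (1 / (4782969 * Nf y ^ 3)) * (2 * (4782969 * Nf y ^ 2 - ev x y cKh) * (AC K x y).u -
        (ev x y cKh - ev x y cKl) * W) := by ring
  rw [e7]
  linarith

end Pool.Agent.MCA
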