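import Pool.Agent.MCA.CDf
import Pool.Agent.MCA.VCO
import Pool.Agent.MCA.VSL
/-!
CWD (60 lines). Loads of the C cells, rounding of the coefficients.
-/
set_option autoImplicit false

namespace Pool.Agent.MCA
open Pool.Agent.MSQ Pool.Agent.MTR Pool.Agent.MGF

/-- loads of the jet `K` -/
structure LdQ (K : Jet) (q : Cq) : Prop where
  ex : ∃ α β γ δ : ℝ, 0 ≤ α ∧ 0 ≤ β ∧ 0 ≤ γ ∧ 0 ≤ δ ∧
    α ≤ q.a / 100000 ∧ β ≤ q.b / 100000 ∧ γ ≤ q.c / 100000 ∧ δ ≤ q.d / 100000 ∧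
    (∀ X, |X| ≤ cc → etp K X ≤ α * (cc + |X|)) ∧ (∀ X, |X| ≤ cc → etm K X ≤ β * (cc + |X|)) ∧
    (∀ Y, |Y| ≤ cc → zep K Y ≤ γ * (cc + |Y|)) ∧ (∀ Y, |Y| ≤ cc → zem K Y ≤ δ * (cc + |Y|)) ∧
    (q.hs = true → α + β + (if q.zc = true then γ else δ) ≤ q.s / 100000)

private theorem CW_int (z n d : Int) (hd : 0 < d) : (n : ℝ) / d * z ≤ ((-(-(z * n) / d) : Int) : ℝ) := by
  have h1 : (-(z * n) / d) * d ≤ -(z * n) := Int.ediv_mul_le _ hd.ne'
  have h2 : (((-(z * n) / d) * d : Int) : ℝ) ≤ ((-(z * n) : Int) : ℝ) := by exact_mod_cast h1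
  have hd' : (0 : ℝ) < d := by exact_mod_cast hd
  have e : (n : ℝ) / d * z = (z * n) / d := by ring
  rw [e, div_le_iff₀ hd']
  rw [Int.cast_mul, Int.cast_neg (z * n), Int.cast_mul] at h2
  rw [Int.cast_neg (-(z * n) / d)]
  linarith

private theorem CW_L (n d : Int) (hd : 0 < d) (y : ℝ) (hy : 0 ≤ y) : ∀ r : List Int,
    (n : ℝ) / d * evL y r ≤ evL y (r.map fun z => -(-(z * n) / d))
  | [] => by simp [evL]
  | z :: r => by
    have h1 := CW_int z n d hd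
    have h2 := mul_le_mul_of_nonneg_left (CW_L n d hd y hy r) hy
    rw [List.map_cons, evL, evL, mul_add]
    have e : (n : ℝ) / d * (y * evL y r) = y * ((n : ℝ) / d * evL y r) := by ring
    rw [e]
    exact add_le_add h1 h2

/-- `ceC` bounds from above -/
theorem ceC_ge (c : P) (n d : Int) (hd : 0 < d) (x y : ℝ) (hx : 0 ≤ x) (hy : 0 ≤ y) :
    (n : ℝ) / d * ev x y c ≤ ev x y (ceC c n d) := by
  induction c with
  | nil => simp [ceC, ev]
  | cons r c ih =>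
    have h1 := CW_L n d hd y hy r
    have h2 := mul_le_mul_of_nonneg_left ih hx
    have e0 : ceC (r :: c) n d = (r.map fun z => -(-(z * n) / d)) :: ceC c n d := rfl
    rw [e0, ev, ev, mul_add]
    have e : (n : ℝ) / d * (x * ev x y c) = x * ((n : ℝ) / d * ev x y c) := by ring
    rw [e]
    exact add_le_add h1 h2

private theorem CW_cc0 : 0 < cc := by unfold cc; positivity

private theorem CW_s0 : (0 : ℝ) < √3 := Real.sqrt_pos.mpr (by norm_num)

private theorem CW_m0 (x : ℝ) : 0 < mf x := by unfold mf; positivity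

private theorem CW_w0 (x : ℝ) : 0 < wf x := Real.sqrt_pos.mpr (CW_m0 x)

/-- the sum form with `c` instead of `d` (see `V_sum`) -/
theorem V_sumc (J : Jet) (b1 b3 b4 s x y : ℝ) (hx : 0 ≤ x) (hy : 0 ≤ y) (hs : b1 + b3 + b4 ≤ s)
    (ha : etp J (cc * x) ≤ b3 * (cc + |cc * x|)) (hb : etm J (cc * x) ≤ b4 * (cc + |cc * x|))
    (hc : zep J (wf x * y / √3) ≤ b1 * (cc + |wf x * y / √3|)) :
    0 ≤ s * (1 + x) * (cc + wf x * y / √3) / wf x - (1 + √(2 / 3) * wf x * y) * ((FdC J).a x + (FdC J).b x) -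
      (1 + x) * (FdC J).c x y := by
  have c0 := CW_cc0
  have hw := CW_w0 x
  have hs3 := CW_s0
  have hY : 0 ≤ wf x * y / √3 := by positivity
  rw [abs_of_nonneg (by positivity : (0 : ℝ) ≤ cc * x)] at ha hb
  rw [abs_of_nonneg hY] at hc
  have e0 : √(2 / 3) * wf x * y = wf x * y / √3 / cc := by
    have h1 : √(2 / 3 : ℝ) = √2 / √3 := by
      rw [Real.sqrt_div (by norm_num)]
    have h2 : (0 : ℝ) < √2 := Real.sqrt_pos.mpr (by norm_num)
    rw [h1]
    unfold cc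
    field_simp
  have e1 : (FdC J).a x = etp J (cc * x) / wf x := rfl
  have e2 : (FdC J).b x = etm J (cc * x) / wf x := rfl
  have e3 : (FdC J).c x y = zep J (wf x * y / √3) / wf x := rfl
  rw [e0, e1, e2, e3]
  set Y := wf x * y / √3 with hYd
  have key : (1 + Y / cc) * (etp J (cc * x) + etm J (cc * x)) + (1 + x) * zep J Y ≤ s * (1 + x) * (cc + Y) := by
    have k1 : (1 + Y / cc) * (etp J (cc * x) + etm J (cc * x)) ≤
        (1 + Y / cc) * (b3 * (cc + cc * x) + b4 * (cc + cc * x)) :=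
      mul_le_mul_of_nonneg_left (by linarith) (by positivity)
    have k2 : (1 + Y / cc) * (b3 * (cc + cc * x) + b4 * (cc + cc * x)) = (b3 + b4) * (1 + x) * (cc + Y) := by
      field_simp
    have k3 : (1 + x) * zep J Y ≤ (1 + x) * (b1 * (cc + Y)) := mul_le_mul_of_nonneg_left hc (by linarith)
    have k4 : (b1 + b3 + b4) * ((1 + x) * (cc + Y)) ≤ s * ((1 + x) * (cc + Y)) :=
      mul_le_mul_of_nonneg_right hs (by positivity)
    rw [k2] at k1
    linarith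
  have e4 : s * (1 + x) * (cc + Y) / wf x - (1 + Y / cc) * (etp J (cc * x) / wf x + etm J (cc * x) / wf x) -
      (1 + x) * (zep J Y / wf x) = (s * (1 + x) * (cc + Y) - ((1 + Y / cc) * (etp J (cc * x) + etm J (cc * x)) +
        (1 + x) * zep J Y)) / wf x := by
    ring
  rw [e4]
  exact div_nonneg (by linarith) hw.le

/-- `49 √(2/3) w ≥ 40 + 9 x²` -/
theorem g29 (x : ℝ) (hx : 0 ≤ x) (hx1 : x ≤ 1) : 40 + 9 * x ^ 2 ≤ 49 * (√(2 / 3) * wf x) := by
  have hw := CW_w0 x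
  have h0 : (0 : ℝ) ≤ √(2 / 3) := Real.sqrt_nonneg _
  have h1 : (√(2 / 3) * wf x) ^ 2 = (2 + x ^ 2) / 3 := by
    rw [mul_pow, Real.sq_sqrt (by norm_num)]
    unfold wf
    rw [Real.sq_sqrt (CW_m0 x).le, mf]
    ring
  have h2 : (40 + 9 * x ^ 2) ^ 2 ≤ (49 * (√(2 / 3) * wf x)) ^ 2 := by
    rw [mul_pow, h1]
    have h3 : x ^ 2 ≤ 1 := by nlinarith
    have h4 : 0 ≤ (1 - x ^ 2) * (2 / 3 + 81 * x ^ 2) := mul_nonneg (by linarith) (by positivity)
    nlinarith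
  exact (abs_le_of_sq_le_sq' h2 (by positivity)).2

end Pool.Agent.MCA
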