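import Pool.Agent.MCA.CHK
/-!
DRV (150 lines). Derivatives of the states.

PROOF. `Nf y = √(1+y²/3)`, `Nf' = y/(3 Nf)`, hence `∂_y N⁻³ = - y N⁻⁵`. The rest is `FOK`, `JS` (read off `uy`, `ux`, ...),
`interval_cases k`. The linear forms: `lv_eS`, `lv_qAdd`, `MSQ.EvA` (`ev_N3`: `(3+y²) = 3 Nf y ^ 2`).
-/
set_option autoImplicit false

open MeasureTheory Set Pool.Agent.MSQ Pool.Agent.MTR Pool.Agent.MGF

namespace Pool.Agent.MCA

noncomputable section

/-- `∂_y s_k` for `k ≤ 5` -/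
def sY (s : List ℝ) (y : ℝ) : Nat → ℝ
  | 0 => -(y / Nf y ^ 2) * s.getD 0 0
  | 1 => s.getD 2 0
  | 2 => s.getD 8 0
  | 3 => s.getD 9 0
  | _ => 0
/-- `m ∂_x s_k` for `k ≤ 3` -/
def sX (s : List ℝ) (y : ℝ) : Nat → ℝ
  | 1 => s.getD 3 0
  | 2 => s.getD 9 0
  | 3 => (s.getD 10 0 - s.getD 1 0 + y * s.getD 2 0) / 2
  | _ => 0
/-- `(m ∂_x - (x y/2) ∂_y) s_k` for `k ≤ 3` and `k = 6, 7` -/
def sL (s : List ℝ) (x y : ℝ) (k : Nat) : ℝ :=
  if k = 6 ∨ k = 7 then -(x / 2) * s.getD k 0 else sX s y k - x * y / 2 * sY s y k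

private theorem nf2 (y : ℝ) : 3 * Nf y ^ 2 = 3 + y ^ 2 := by
  unfold Nf
  rw [Real.sq_sqrt (by positivity)]
  ring

private theorem nfpos (y : ℝ) : 0 < Nf y := by
  unfold Nf
  positivity

private theorem lv_zL (x y : ℝ) (s : List ℝ) : lv x y zL s = 0 := by
  have h : zL = eS 0 [] := rfl
  rw [h, lv_eS, ev_nil, zero_mul]

private theorem ev_negP (x y : ℝ) (f : P) : ev x y (negP f) = -ev x y f := by
  simp [negP, ev_pSm]

theorem psS_length (f : P) : (psS f).length = 11 := by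
  unfold psS
  exact qAdd_length _ _ _ (eS_length _ (by norm_num) _)
    (qAdd_length _ _ _ (eS_length _ (by norm_num) _) (eS_length _ (by norm_num) _))
theorem dy3_length (k : Nat) (f : P) : (dy3 k f).length = 11 := by
  rcases k with _ | _ | _ | _ | k
  · exact eS_length _ (by norm_num) _
  · exact eS_length _ (by norm_num) _
  · exact eS_length _ (by norm_num) _
  · exact eS_length _ (by norm_num) _
  · rfl
theorem dx2_length (k : Nat) (f : P) : (dx2 k f).length = 11 := by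
  rcases k with _ | _ | _ | _ | k
  · rfl
  · exact eS_length _ (by norm_num) _
  · exact eS_length _ (by norm_num) _
  · exact psS_length _
  · rfl
theorem dl6_length (k : Nat) (f : P) : (dl6 k f).length = 11 := by
  unfold dl6
  split
  · rename_i h
    refine eS_length _ ?_ _
    simp only [Bool.or_eq_true, decide_eq_true_eq] at h
    omega
  · exact qAdd_length _ _ _ (dx2_length _ _) (dy3_length _ _)
theorem lv_psS (x y : ℝ) (f : P) (s : List ℝ) :
    lv x y (psS f) s = ev x y f * (s.getD 10 0 - s.getD 1 0 + y * s.getD 2 0) := by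
  unfold psS
  simp only [lv_qAdd, lv_eS, ev_negP, ev_pY]
  ring
theorem lv_dy3 (x y : ℝ) (k : Nat) (f : P) (s : List ℝ) : lv x y (dy3 k f) s = 3 * Nf y ^ 2 * (ev x y f * sY s y k) := by
  have hN := nfpos y
  rcases k with _ | _ | _ | _ | k
  · simp only [dy3, sY, lv_eS, ev_pSm, ev_pY]
    field_simp
    push_cast
    ring
  · simp only [dy3, sY, lv_eS, ev_N3, nf2]
    ring
  · simp only [dy3, sY, lv_eS, ev_N3, nf2]
    ring
  · simp only [dy3, sY, lv_eS, ev_N3, nf2]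
    ring
  · simp only [dy3, sY, lv_zL]
    ring
theorem lv_dx2 (x y : ℝ) (k : Nat) (f : P) (s : List ℝ) : lv x y (dx2 k f) s = 2 * (ev x y f * sX s y k) := by
  rcases k with _ | _ | _ | _ | k
  · simp only [dx2, sX, lv_zL]
    ring
  · simp only [dx2, sX, lv_eS, ev_pSm]
    push_cast
    ring
  · simp only [dx2, sX, lv_eS, ev_pSm]
    push_cast
    ring
  · simp only [dx2, sX, lv_psS]
    ring
  · simp only [dx2, sX, lv_zL]
    ring
theorem lv_dl6 (x y : ℝ) (k : Nat) (f : P) (s : List ℝ) :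
    lv x y (dl6 k f) s = 6 * Nf y ^ 2 * (ev x y f * sL s x y k) := by
  have h3 := nf2 y
  unfold dl6 sL
  by_cases h : k = 6 ∨ k = 7
  · rw [if_pos (by simpa using h), if_pos h, lv_eS, ev_negP, ev_pX, ev_N3, ← h3]
    ring
  · rw [if_neg (by simpa using h), if_neg h, lv_qAdd, lv_dx2, lv_dy3, ev_negP, ev_pX, ev_pY, ev_N3, ← h3]
    ring

private theorem nf_deriv (y : ℝ) : HasDerivAt Nf (y / (3 * Nf y)) y := by
  have h1 : HasDerivAt (fun y : ℝ => 1 + y ^ 2 / 3) (2 * y / 3) y := by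
    have := ((hasDerivAt_pow 2 y).div_const 3).const_add 1
    refine this.congr_deriv ?_
    norm_num
  have h2 := h1.sqrt (by positivity)
  have h3 : HasDerivAt Nf (2 * y / 3 / (2 * √(1 + y ^ 2 / 3))) y := h2
  convert h3 using 1
  unfold Nf
  have : 0 < √(1 + y ^ 2 / 3) := by positivity
  field_simp

private theorem inv_deriv (DL : Int) (y : ℝ) :
    HasDerivAt (fun t => 1 / ((DL : ℝ) * Nf t ^ 3)) (-(y / Nf y ^ 2) * (1 / ((DL : ℝ) * Nf y ^ 3))) y := by
  have hN := nfpos y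
  have h1 := ((nf_deriv y).pow 3).inv (pow_ne_zero 3 hN.ne')
  have h2 := h1.const_mul ((DL : ℝ)⁻¹)
  have e : (fun t => 1 / ((DL : ℝ) * Nf t ^ 3)) = fun t => ((DL : ℝ)⁻¹) * (Nf ^ 3)⁻¹ t := by
    funext t
    simp only [Pi.inv_apply, Pi.pow_apply]
    rw [one_div, mul_inv]
  rw [e]
  refine h2.congr_deriv ?_
  rw [one_div, mul_inv]
  simp only [Pi.pow_apply]
  generalize ((DL : ℝ)⁻¹) = D
  field_simp
  push_cast
  ring

theorem hasY (DL : Int) {F : Fd} {Z E cy dy : ℝ → ℝ → ℝ} (h : FOK F Z E cy dy) (k : Nat) (hk : k ≤ 5) (x y : ℝ) :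
    HasDerivAt (fun t => (sv DL F x t).getD k 0) (sY (sv DL F x y) y k) y := by
  interval_cases k
  · exact inv_deriv DL y
  · exact h.js.uy x y
  · exact h.js.qy x y
  · exact h.js.py x y
  · exact hasDerivAt_const y (F.a x)
  · exact hasDerivAt_const y (F.b x)
theorem hasX (DL : Int) {F : Fd} {Z E cy dy : ℝ → ℝ → ℝ} (h : FOK F Z E cy dy) (k : Nat) (hk : k ≤ 3) (x y : ℝ) :
    HasDerivAt (fun t => (sv DL F t y).getD k 0) (sX (sv DL F x y) y k / mf x) x := by
  interval_cases k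
  · have e : sX (sv DL F x y) y 0 / mf x = 0 := by simp [sX]
    rw [e]
    exact hasDerivAt_const x (1 / ((DL : ℝ) * Nf y ^ 3))
  · exact h.js.ux x y
  · exact h.js.qx x y
  · refine (h.js.px x y).congr_deriv ?_
    have e : sX (sv DL F x y) y 3 = ((F.S x y).ka - (F.S x y).u + y * (F.S x y).q) / 2 := rfl
    rw [e, div_div]
/-- continuity of all states -/
theorem cont_sv (DL : Int) {F : Fd} {Z E cy dy : ℝ → ℝ → ℝ} (h : FOK F Z E cy dy) (k : Nat) :
    Continuous fun z : ℝ × ℝ => (sv DL F z.1 z.2).getD k 0 := by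
  rcases k with _ | _ | _ | _ | _ | _ | _ | _ | _ | _ | _ | k
  · have e : (fun z : ℝ × ℝ => (sv DL F z.1 z.2).getD 0 0) = fun z : ℝ × ℝ => ((DL : ℝ)⁻¹) * (Nf z.2 ^ 3)⁻¹ := by
      funext z
      show 1 / ((DL : ℝ) * Nf z.2 ^ 3) = _
      rw [one_div, mul_inv]
    show Continuous fun z : ℝ × ℝ => (sv DL F z.1 z.2).getD 0 0
    rw [e]
    have hc : Continuous Nf := by
      unfold Nf
      fun_prop
    refine continuous_const.mul (Continuous.inv₀ ((hc.comp continuous_snd).pow 3) ?_)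
    intro z
    exact pow_ne_zero 3 (nfpos z.2).ne'
  · exact h.js.cu
  · exact h.js.cq
  · exact h.js.cp
  · exact h.ca.comp continuous_fst
  · exact h.cb.comp continuous_fst
  · exact h.cc
  · exact h.cd
  · exact h.js.cmu
  · exact h.js.cnu
  · exact h.js.cka
  · have e : (fun z : ℝ × ℝ => (sv DL F z.1 z.2).getD (k + 11) 0) = fun _ => (0 : ℝ) := by
      funext z
      rfl
    show Continuous fun z : ℝ × ℝ => (sv DL F z.1 z.2).getD (k + 11) 0
    rw [e]
    exact continuous_const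

end

end Pool.Agent.MCA
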