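import Pool.Agent.MCA.DRV
/-!
DVG (100 lines). Divergence of a term of the list `G`.

PROOF. product rule with `hasY`; `-108 N³ ∂_y (N⁻¹ f s s')
= -36 (3 N² f_y - y f) s s' - 36 (3 N² f ∂_y s) s' - 36 s (3 N² f ∂_y s')` (`(N⁻¹)' = - y/(3 N³)`); values: `qf_sS`, `qf_qMul`,
`lv_dy3`, `ev_AG` (`Af`).
-/
set_option autoImplicit false

open MeasureTheory Set Pool.Agent.MSQ Pool.Agent.MTR Pool.Agent.MGF

namespace Pool.Agent.MCA

private theorem dvg_Npos (y : ℝ) : 0 < Nf y := Real.sqrt_pos.2 (by positivity)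

private theorem dvg_Nsq (y : ℝ) : Nf y ^ 2 = 1 + y ^ 2 / 3 := Real.sq_sqrt (by positivity)

private theorem dvg_N (y : ℝ) : HasDerivAt Nf (y / (3 * Nf y)) y := by
  have h1 : HasDerivAt (fun t : ℝ => 1 + t ^ 2 / 3) (2 * y / 3) y := by
    have h2 := ((hasDerivAt_pow 2 y).div_const 3).const_add 1
    refine h2.congr_deriv ?_
    norm_num
  have h3 := h1.sqrt (by positivity : (1 : ℝ) + y ^ 2 / 3 ≠ 0)
  refine h3.congr_deriv ?_
  change 2 * y / 3 / (2 * Nf y) = y / (3 * Nf y)
  have h4 := (dvg_Npos y).ne'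
  field_simp

private theorem dvg_cN : Continuous fun z : ℝ × ℝ => Nf z.2 := by
  have h : Continuous Nf := by
    unfold Nf
    fun_prop
  exact h.comp continuous_snd

private theorem dvg_csY (DL : Int) {F : Fd} {Z E cy dy : ℝ → ℝ → ℝ} (h : FOK F Z E cy dy) (k : Nat) :
    Continuous fun z : ℝ × ℝ => sY (sv DL F z.1 z.2) z.2 k := by
  match k with
  | 0 =>
    simp only [sY]
    refine ((continuous_snd.div (dvg_cN.pow 2) fun z => ?_).neg).mul (cont_sv DL h 0)
    exact pow_ne_zero 2 (dvg_Npos z.2).ne'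
  | 1 => simpa only [sY] using cont_sv DL h 2
  | 2 => simpa only [sY] using cont_sv DL h 8
  | 3 => simpa only [sY] using cont_sv DL h 9
  | (k + 4) => simpa only [sY] using continuous_const

private theorem dvg_len (DL : Int) (F : Fd) (x y : ℝ) : (sv DL F x y).length = 11 := rfl

theorem dvG (DL : Int) {F : Fd} {Z E cy dy : ℝ → ℝ → ℝ} (h : FOK F Z E cy dy) (t : Trm) (hm : t.1 ≤ 5) (hn : t.2.1 ≤ 5) :
    DivP (fun x y => ev x y t.2.2 * ((sv DL F x y).getD t.1 0 * (sv DL F x y).getD t.2.1 0) / Nf y)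
      (fun _ _ => 0)
      (fun x y => qf (evE x y (rG t)) (sv DL F x y)) := by
  obtain ⟨m, n, f⟩ := t
  simp only at hm hn
  refine ⟨fun x y => (ev x y (pDY f) * ((sv DL F x y).getD m 0 * (sv DL F x y).getD n 0) +
      ev x y f * (sY (sv DL F x y) y m * (sv DL F x y).getD n 0 +
        (sv DL F x y).getD m 0 * sY (sv DL F x y) y n)) / Nf y -
      ev x y f * ((sv DL F x y).getD m 0 * (sv DL F x y).getD n 0) * (y / (3 * Nf y ^ 3)),
    fun _ _ => 0, ?_, continuous_const, ?_, fun x y => hasDerivAt_const x _, ?_⟩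
  · have c1 := cont_sv DL h m
    have c2 := cont_sv DL h n
    have c3 := dvg_csY DL h m
    have c4 := dvg_csY DL h n
    have c5 := continuous_ev f
    have c6 := continuous_ev (pDY f)
    refine (((c6.mul (c1.mul c2)).add (c5.mul ((c3.mul c2).add (c1.mul c4)))).div dvg_cN
      fun z => (dvg_Npos z.2).ne').sub ((c5.mul (c1.mul c2)).mul
        (continuous_snd.div (continuous_const.mul (dvg_cN.pow 3)) fun z => ?_))
    exact mul_ne_zero (by norm_num) (pow_ne_zero 3 (dvg_Npos z.2).ne')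
  · intro x y
    have d1 := hasY DL h m hm x y
    have d2 := hasY DL h n hn x y
    have d3 := hasDerivAt_ev_y x y f
    have hN := (dvg_Npos y).ne'
    have d := (d3.mul (d1.mul d2)).div (dvg_N y) hN
    refine d.congr_deriv ?_
    simp only [Pi.mul_apply]
    field_simp
    try ring
  · intro x y
    have e1 : qf (evE x y (rG (m, n, f))) (sv DL F x y) =
        -36 * (3 * Af x y f) * ((sv DL F x y).getD m 0 * (sv DL F x y).getD n 0) +
        (3 * Nf y ^ 2 * (-36 * ev x y f * sY (sv DL F x y) y m) * (sv DL F x y).getD n 0 +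
        (sv DL F x y).getD m 0 * (3 * Nf y ^ 2 * (-36 * ev x y f * sY (sv DL F x y) y n))) := by
      have hone : ev x y oneP = 1 := by simp [oneP, ev, evL]
      simp only [rG, qf_sumQ, List.map_cons, List.map_nil, List.sum_cons, List.sum_nil, add_zero]
      rw [qf_sS x y m n (by omega) (by omega) _ _ (dvg_len DL F x y),
        qf_qMul x y _ _ _ (by rw [dy3_length, dvg_len]) (by rw [eS_length n (by omega), dvg_len]),
        qf_qMul x y _ _ _ (by rw [eS_length m (by omega), dvg_len]) (by rw [dy3_length, dvg_len])]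
      have a1 := lv_dy3 x y m (pSm (-36) f) (sv DL F x y)
      have a2 := lv_dy3 x y n (pSm (-36) f) (sv DL F x y)
      have a3 := lv_eS x y m oneP (sv DL F x y)
      have a4 := lv_eS x y n oneP (sv DL F x y)
      unfold lv at a1 a2 a3 a4
      rw [a1, a2, a3, a4, ev_pSm, ev_pSm, ev_AG, hone]
      push_cast
      ring
    simp only []
    rw [e1]
    have hN := (dvg_Npos y).ne'
    have hs := dvg_Nsq y
    have hA : Af x y f = Nf y ^ 2 * ev x y (pDY f) - y * ev x y f / 3 := by
      rw [hs]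
      rfl
    rw [hA]
    field_simp
    ring

end Pool.Agent.MCA
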