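import Pool.Agent.MCA.DVL
import Pool.Agent.MCA.RFF
/-!
EDV (200 lines). Values of the edge polynomials.

PROOF. `qf_sumQ`, `qf_sS`, `qf_qMul`, induction over the lists; `s_0 DL = N⁻³` (hypothesis `h0`), `ev_NN3`; `sv` has length 11.
Reflected lists: `rfx`, `rfy` describe exactly `rX`, `rY` on the indices `≤ 7`.
`atx0`, `atx1`, `at0`, `at1`: `ev` at `x = 0`, `x = 1`, `y = 0`, `y = 1` (for `qf (evE x y (R.map at1)) s = qf (evE x 1 R) s`).
-/
set_option autoImplicit false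

open MeasureTheory Set Pool.Agent.MSQ Pool.Agent.MTR Pool.Agent.MGF

namespace Pool.Agent.MCA


private theorem EDV_Nsq (y : ℝ) : 3 + y ^ 2 = 3 * Nf y ^ 2 := by
  unfold Nf
  rw [Real.sq_sqrt (by positivity)]
  ring

private theorem EDV_Npos (y : ℝ) : 0 < Nf y := by
  unfold Nf
  positivity

private theorem EDV_smul1 (c : ℝ) (A s : List ℝ) :
    dotL (A.map (c * ·)) s = c * dotL A s := by
  induction A generalizing s with
  | nil => simp [dotL]
  | cons a A ih =>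
    cases s with
    | nil => simp [dotL]
    | cons b s =>
      simp only [List.map_cons, dotL, ih]
      ring

private theorem EDV_smul (c : ℝ) (A s : List ℝ) :
    qf (A.map (c * ·)) s = c * qf A s := by
  induction s generalizing A with
  | nil => simp [qf]
  | cons b s ih =>
    simp only [qf, ← List.map_take, ← List.map_drop, EDV_smul1, ih]
    ring

/-- a change of all coefficients -/
private theorem EDV_map (x y x' y' c : ℝ) (φ : P → P) (h : ∀ p, ev x y (φ p) = c * ev x' y' p)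
    (R : List P) (s : List ℝ) : qf (evE x y (R.map φ)) s = c * qf (evE x' y' R) s := by
  rw [← EDV_smul]
  congr 1
  simp only [evE, List.map_map]
  apply List.map_congr_left
  intro q _
  simp only [Function.comp_apply, h]

private theorem EDV_map1 (x y x' y' c : ℝ) (φ : P → P) (h : ∀ p, ev x y (φ p) = c * ev x' y' p)
    (R : List P) (s : List ℝ) : lv x y (R.map φ) s = c * lv x' y' R s := by
  unfold lv
  rw [← EDV_smul1]
  congr 1
  simp only [evE, List.map_map]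
  apply List.map_congr_left
  intro q _
  simp only [Function.comp_apply, h]

private theorem EDV_atx0 (x y : ℝ) (p : P) : ev x y (atx0 p) = ev 0 y p := by
  cases p with
  | nil => rfl
  | cons a l => simp [atx0, ev]

private theorem EDV_atx1 (x y : ℝ) (p : P) : ev x y (atx1 p) = ev 1 y p := by
  have h : ∀ q : P, evL y (q.foldr addV []) = ev 1 y q := by
    intro q
    induction q with
    | nil => rfl
    | cons a l ih => simp only [List.foldr_cons, evL_addV, ih, ev, one_mul]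
  simp only [atx1, ev, h, mul_zero, add_zero]

private theorem EDV_negP (x y : ℝ) (p : P) : ev x y (negP p) = -ev x y p := by
  rw [negP, ev_pSm]
  push_cast
  ring

private theorem EDV_oneP (x y : ℝ) : ev x y oneP = 1 := by
  simp [oneP, ev, evL]

private theorem EDV_M2 (x y : ℝ) (p : P) : ev x y (M2 p) = 2 * mf x * ev x y p := by
  rw [ev_M2]
  unfold mf
  ring

private theorem EDV_N3 (x y : ℝ) (p : P) : ev x y (N3 p) = 3 * Nf y ^ 2 * ev x y p := by
  rw [ev_N3, EDV_Nsq]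

private theorem EDV_len (L : List (List P)) (h0 : L ≠ []) (h : ∀ A ∈ L, A.length = 11) :
    (sumQ L).length = 11 := by
  induction L with
  | nil => exact absurd rfl h0
  | cons A L ih =>
    have hA := h A List.mem_cons_self
    have h1 : sumQ (A :: L) = qAdd A (sumQ L) := rfl
    rw [h1]
    cases L with
    | nil =>
      have h2 : qAdd A (sumQ []) = A := by
        show addL pAdd A [] = A
        cases A <;> rfl
      rw [h2, hA]
    | cons B L =>
      exact qAdd_length _ _ _ hA (ih (by simp) (fun C hC => h C (List.mem_cons_of_mem _ hC)))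

/-- value of a list of terms -/
private theorem EDV_tT (x y c : ℝ) (φ : P → P) (h : ∀ p, ev x y (φ p) = c * ev x y p) (L : List Trm)
    (hL : ∀ t ∈ L, t.1 ≤ 10 ∧ t.2.1 ≤ 10) (s : List ℝ) (hs : s.length = 11) :
    qf (evE x y (tT φ L)) s = c * tv x y s L := by
  unfold tT tv
  rw [qf_sumQ, ← List.sum_map_mul_left, List.map_map]
  congr 1
  apply List.map_congr_left
  intro t ht
  have h1 := hL t ht
  simp only [Function.comp_apply]
  rw [qf_sS x y t.1 t.2.1 h1.1 h1.2 _ s hs, h]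
  ring

private theorem EDV_li (DL : Int) (x y : ℝ) (l : LF) (hl : l.length = 11) (s : List ℝ) (hs : s.length = 11)
    (hD : (DL : ℝ) * s.getD 0 0 * Nf y ^ 3 = 1) :
    qf (evE x y (li DL l)) s = 108 * Nf y ^ 3 * lv x y l s := by
  unfold li
  rw [qf_qMul x y _ _ s (by rw [eS_length 0 (by norm_num), hs]) (by rw [List.length_map, hl, hs])]
  have h1 := lv_eS x y 0 (cP (4 * DL)) s
  have h2 := EDV_map1 x y x y (27 * Nf y ^ 6) (NN 3) (fun p => ev_NN3 x y p) l s
  unfold lv at h1 h2 ⊢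
  rw [h1, h2, ev_cP]
  push_cast
  linear_combination 108 * Nf y ^ 3 * dotL (evE x y l) s * hD

private theorem EDV_li2 (DL : Int) (x y : ℝ) (l : LF) (hl : l.length = 11) (s : List ℝ) (hs : s.length = 11)
    (hD : (DL : ℝ) * s.getD 0 0 * Nf y ^ 3 = 1) :
    qf (evE x y (li2 DL l)) s = 54 * Nf y ^ 3 * lv x y l s := by
  unfold li2
  rw [qf_qMul x y _ _ s (by rw [eS_length 0 (by norm_num), hs]) (by rw [List.length_map, hl, hs])]
  have h1 := lv_eS x y 0 (cP (2 * DL)) s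
  have h2 := EDV_map1 x y x y (27 * Nf y ^ 6) (NN 3) (fun p => ev_NN3 x y p) l s
  unfold lv at h1 h2 ⊢
  rw [h1, h2, ev_cP]
  push_cast
  linear_combination 54 * Nf y ^ 3 * dotL (evE x y l) s * hD

private theorem EDV_wf (g : Ga) (hg : wfG g = true) :
    (∀ t ∈ g.G, t.1 ≤ 5 ∧ t.2.1 ≤ 5) ∧ (∀ t ∈ g.H, t.1 ≤ 3 ∧ t.2.1 ≤ 3) ∧
      (∀ t ∈ g.Z, (t.1 ≤ 3 ∨ t.1 = 6 ∨ t.1 = 7) ∧ (t.2.1 ≤ 3 ∨ t.2.1 = 6 ∨ t.2.1 = 7)) := by
  simp only [wfG, Bool.and_eq_true, List.all_eq_true, decide_eq_true_eq, Bool.or_eq_true, beq_iff_eq,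
    or_assoc] at hg
  exact ⟨hg.1.1, hg.1.2, hg.2⟩

private theorem EDV_lvS (x y : ℝ) (L : List LF) (s : List ℝ) :
    lv x y (sumQ L) s = (L.map fun l => lv x y l s).sum := dotL_sumQ x y L s

/-- reflected lists of terms -/
private theorem EDV_rfT (r : Nat → Int × Nat) (R : List ℝ → List ℝ) (x y c : ℝ) (φ : P → P)
    (h : ∀ p, ev x y (φ p) = c * ev x y p) (L : List Trm) (s : List ℝ) (hs : s.length = 11)
    (hr : ∀ t ∈ L, (R s).getD t.1 0 = (r t.1).1 * s.getD (r t.1).2 0 ∧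
      (R s).getD t.2.1 0 = (r t.2.1).1 * s.getD (r t.2.1).2 0 ∧ (r t.1).2 ≤ 10 ∧ (r t.2.1).2 ≤ 10) :
    qf (evE x y (tT φ (rfT r L))) s = c * tv x y (R s) L := by
  rw [EDV_tT x y c φ h (rfT r L) ?_ s hs]
  · congr 1
    unfold tv rfT
    rw [List.map_map]
    congr 1
    apply List.map_congr_left
    intro t ht
    obtain ⟨h1, h2, -, -⟩ := hr t ht
    simp only [Function.comp_apply, h1, h2, ev_pSm]
    push_cast
    ring
  · intro t ht
    unfold rfT at ht
    obtain ⟨t', ht', rfl⟩ := List.mem_map.1 ht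
    obtain ⟨-, -, h3, h4⟩ := hr t' ht'
    exact ⟨h3, h4⟩

private theorem EDV_ex (s : List ℝ) (hs : s.length = 11) :
    ∃ s0 s1 s2 s3 s4 s5 s6 s7 s8 s9 s10 : ℝ, s = [s0, s1, s2, s3, s4, s5, s6, s7, s8, s9, s10] := by
  match s, hs with
  | [s0, s1, s2, s3, s4, s5, s6, s7, s8, s9, s10], _ =>
    exact ⟨s0, s1, s2, s3, s4, s5, s6, s7, s8, s9, s10, rfl⟩

private theorem EDV_rX (s : List ℝ) (hs : s.length = 11) (k : Nat) (hk : k ≤ 3 ∨ k = 6 ∨ k = 7) :
    (rX s).getD k 0 = (rfx k).1 * s.getD (rfx k).2 0 ∧ (rfx k).2 ≤ 10 := by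
  obtain ⟨s0, s1, s2, s3, s4, s5, s6, s7, s8, s9, s10, rfl⟩ := EDV_ex s hs
  have : k = 0 ∨ k = 1 ∨ k = 2 ∨ k = 3 ∨ k = 6 ∨ k = 7 := by omega
  rcases this with rfl | rfl | rfl | rfl | rfl | rfl <;> simp [rX, rfx]

private theorem EDV_rY (s : List ℝ) (hs : s.length = 11) (k : Nat) (hk : k ≤ 5) :
    (rY s).getD k 0 = (rfy k).1 * s.getD (rfy k).2 0 ∧ (rfy k).2 ≤ 10 := by
  obtain ⟨s0, s1, s2, s3, s4, s5, s6, s7, s8, s9, s10, rfl⟩ := EDV_ex s hs
  have : k = 0 ∨ k = 1 ∨ k = 2 ∨ k = 3 ∨ k = 4 ∨ k = 5 := by omega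
  rcases this with rfl | rfl | rfl | rfl | rfl | rfl <;> simp [rY, rfy]

/-- polynomials in `y` -/
private theorem EDV_wy (w : P) (hw : atx0 w = w) (x y : ℝ) :
    ev x y w = ev 0 y w ∧ ev x y (pDY w) = ev 0 y (pDY w) := by
  have h1 : ∀ t, ev x t w = ev 0 t w := by
    intro t
    have := EDV_atx0 x t w
    rw [hw] at this
    exact this
  refine ⟨h1 y, ?_⟩
  have h2 := hasDerivAt_ev_y x y w
  have h3 := hasDerivAt_ev_y 0 y w
  have h4 : (fun t => ev x t w) = fun t => ev 0 t w := funext h1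
  rw [h4] at h2
  exact h2.unique h3

/-- polynomials in `x` -/
private theorem EDV_wx (w : P) (hw : at0 w = w) (x y : ℝ) :
    ev x y w = ev x 0 w ∧ ev x y (pDX w) = ev x 0 (pDX w) := by
  have h1 : ∀ t, ev t y w = ev t 0 w := by
    intro t
    have := ev_at0 t y w
    rw [hw] at this
    exact this
  refine ⟨h1 x, ?_⟩
  have h2 := hasDerivAt_ev_x x y w
  have h3 := hasDerivAt_ev_x x 0 w
  have h4 : (fun t => ev t y w) = fun t => ev t 0 w := funext h1
  rw [h4] at h2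
  exact h2.unique h3

private theorem EDV_nuX (w : P) (x y : ℝ) (hw : at0 w = w) (s : List ℝ) (hs : s.length = 11) :
    qf (evE x y (nuX w)) s =
      108 * (mf x * ev x 0 (pDX w) * s.getD 1 0 ^ 2 + 2 * ev x 0 w * s.getD 1 0 * s.getD 3 0) := by
  unfold nuX
  rw [qf_qAdd, qf_sS x y 1 1 (by norm_num) (by norm_num) _ s hs,
    qf_sS x y 1 3 (by norm_num) (by norm_num) _ s hs, ev_pSm, ev_pSm, EDV_M2, (EDV_wx w hw x y).1,
    (EDV_wx w hw x y).2]
  push_cast
  ring

private theorem EDV_nuY (DL : Int) (w v : P) (x y : ℝ) (hw : atx0 w = w) (hv : atx0 v = v) (s : List ℝ)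
    (hs : s.length = 11) (hD : (DL : ℝ) * s.getD 0 0 * Nf y ^ 3 = 1) :
    qf (evE x y (nuY DL w v)) s =
      108 * Nf y ^ 3 * ((ev 0 y (pDY w) / Nf y - y * ev 0 y w / (3 * Nf y ^ 3)) * s.getD 1 0 ^ 2 +
        2 * ev 0 y w / Nf y * s.getD 1 0 * s.getD 2 0 + ev 0 y (pDY v) * s.getD 1 0 + ev 0 y v * s.getD 2 0) := by
  have hN := (EDV_Npos y).ne'
  unfold nuY
  rw [qf_sumQ]
  simp only [List.map_cons, List.map_nil, List.sum_cons, List.sum_nil]
  rw [qf_sS x y 1 1 (by norm_num) (by norm_num) _ s hs, qf_sS x y 1 2 (by norm_num) (by norm_num) _ s hs,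
    EDV_li DL x y _ (qAdd_length _ _ _ (eS_length 1 (by norm_num) _) (eS_length 2 (by norm_num) _)) s hs hD,
    lv_qAdd, lv_eS, lv_eS, ev_pAdd, ev_pSm, ev_pSm, ev_pSm, EDV_N3, EDV_N3, ev_pY, (EDV_wy w hw x y).1,
    (EDV_wy w hw x y).2, (EDV_wy v hv x y).1, (EDV_wy v hv x y).2]
  push_cast
  field_simp
  ring

private theorem EDV_laS (x y : ℝ) (l : P) (s : List ℝ) :
    lv x y (laS l) s = ev x y l * (2 * s.getD 3 0 - x * y * s.getD 2 0) := by
  unfold laS
  rw [lv_qAdd, lv_eS, lv_eS, ev_pSm, EDV_negP, ev_pX, ev_pY]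
  push_cast
  ring

private theorem EDV_laS_len (l : P) : (laS l).length = 11 :=
  qAdd_length _ _ _ (eS_length 3 (by norm_num) _) (eS_length 2 (by norm_num) _)

private theorem EDV_nuC (DL : Int) (w v : P) (x y : ℝ) (hw : at0 w = w) (hv : at0 v = v) (s : List ℝ)
    (hs : s.length = 11) (hD : (DL : ℝ) * s.getD 0 0 * Nf y ^ 3 = 1) :
    qf (evE x y (nuC DL w v)) s =
      108 * Nf y ^ 3 * ((mf x * ev x 0 (pDX w) / Nf y + x * y ^ 2 * ev x 0 w / (6 * Nf y ^ 3)) * s.getD 4 0 ^ 2 +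
        2 * ev x 0 w / Nf y * s.getD 4 0 * (x * y / 2 * s.getD 2 0 - s.getD 3 0) +
        mf x * ev x 0 (pDX v) * s.getD 4 0 + ev x 0 v * (x * y / 2 * s.getD 2 0 - s.getD 3 0)) := by
  have hN := (EDV_Npos y).ne'
  unfold nuC
  rw [qf_sumQ]
  simp only [List.map_cons, List.map_nil, List.sum_cons, List.sum_nil]
  rw [qf_sS x y 4 4 (by norm_num) (by norm_num) _ s hs,
    qf_qMul x y _ _ s (by rw [eS_length 4 (by norm_num), hs]) (by rw [EDV_laS_len, hs]),
    EDV_li2 DL x y _ (qAdd_length _ _ _ (eS_length 4 (by norm_num) _) (EDV_laS_len _)) s hs hD]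
  have h1 := lv_eS x y 4 (pSm (-36) (N3 w)) s
  have h2 := EDV_laS x y oneP s
  unfold lv at h1 h2
  rw [h1, h2, lv_qAdd, lv_eS, EDV_laS, ev_pAdd, ev_pSm, ev_pSm, ev_pSm, EDV_N3, EDV_N3, EDV_M2, EDV_M2,
    ev_pX, ev_pY, ev_pY, EDV_negP, EDV_oneP, (EDV_wx w hw x y).1,
    (EDV_wx w hw x y).2, (EDV_wx v hv x y).1, (EDV_wx v hv x y).2]
  push_cast
  field_simp
  ring

private theorem EDV_inY (x y : ℝ) (l : List Int) : ev x y (inY l) = ev 1 y (inY l) := by
  simp [inY, ev]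

private theorem EDV_dnX (x y : ℝ) (l : P) (s : List ℝ) :
    lv x y (dnX l) s = ev x y l * (s.getD 1 0 - y * s.getD 2 0 + 2 * s.getD 3 0) := by
  unfold dnX
  rw [EDV_lvS]
  simp only [List.map_cons, List.map_nil, List.sum_cons, List.sum_nil, lv_eS, EDV_negP, ev_pY, ev_pSm]
  push_cast
  ring

private theorem EDV_dnX_len (l : P) : (dnX l).length = 11 := by
  unfold dnX
  apply EDV_len _ (by simp)
  intro A hA
  simp only [List.mem_cons, List.not_mem_nil, or_false] at hA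
  rcases hA with hA | hA | hA <;> (rw [hA]; apply eS_length; norm_num)

private theorem EDV_mul (x y : ℝ) (A B : LF) (s : List ℝ) (hA : A.length = 11) (hB : B.length = 11)
    (hs : s.length = 11) : qf (evE x y (qMul A B)) s = lv x y A s * lv x y B s :=
  qf_qMul x y A B s (hA.trans hs.symm) (hB.trans hs.symm)

private theorem EDV_fX (DL kf : Int) (Fl : List (List Int)) (x y : ℝ) (s : List ℝ) (hs : s.length = 11)
    (hD : (DL : ℝ) * s.getD 0 0 * Nf y ^ 3 = 1) :
    qf (evE x y (fX DL kf Fl)) s = qf (evE 1 y (fX DL kf Fl)) s := by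
  have hE : ∀ (k : ℕ) (l : P), k ≤ 10 → List.length (eS k l) = 11 := fun k l hk => eS_length k hk l
  have key : ∀ z : ℝ, qf (evE z y (fX DL kf Fl)) s =
      108 * Nf y ^ 3 * (3 * (kf * ev 1 y (inY (Fl.getD 0 []))) * s.getD 1 0) +
      432 * (kf * ev 1 y (inY (Fl.getD 1 []))) * (s.getD 2 0 * s.getD 2 0) +
      144 * (kf * ev 1 y (inY (Fl.getD 2 []))) * s.getD 2 0 * (s.getD 1 0 - y * s.getD 2 0 + 2 * s.getD 3 0) +
      144 * (kf * ev 1 y (inY (Fl.getD 3 []))) * s.getD 1 0 * (s.getD 1 0 - y * s.getD 2 0 + 2 * s.getD 3 0) +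
      432 * (kf * ev 1 y (inY (Fl.getD 4 []))) * (s.getD 1 0 * s.getD 1 0) +
      48 * (kf * ev 1 y (inY (Fl.getD 5 []))) * (s.getD 1 0 - y * s.getD 2 0 + 2 * s.getD 3 0) ^ 2 +
      432 * (kf * ev 1 y (inY (Fl.getD 6 []))) * (s.getD 1 0 * s.getD 2 0) := by
    intro z
    unfold fX
    rw [qf_sumQ]
    simp only [List.map_cons, List.map_nil, List.sum_cons, List.sum_nil]
    rw [EDV_li DL z y _ (hE _ _ (by norm_num)) s hs hD,
      qf_sS z y 2 2 (by norm_num) (by norm_num) _ s hs,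
      EDV_mul z y _ _ s (hE 2 _ (by norm_num)) (EDV_dnX_len _) hs,
      EDV_mul z y _ _ s (hE 1 _ (by norm_num)) (EDV_dnX_len _) hs,
      qf_sS z y 1 1 (by norm_num) (by norm_num) _ s hs,
      EDV_mul z y _ _ s (EDV_dnX_len _) (EDV_dnX_len _) hs,
      qf_sS z y 1 2 (by norm_num) (by norm_num) _ s hs]
    simp only [EDV_dnX, lv_eS, ev_pSm, EDV_oneP, EDV_inY z y]
    push_cast
    ring
  rw [key x, key 1]

/-- `s` is a state vector at the height `y` -/
def SV (DL : Int) (y : ℝ) (s : List ℝ) : Prop := s.length = 11 ∧ DL * s.getD 0 0 * Nf y ^ 3 = 1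

theorem SV_sv (DL : Int) (hDL : 0 < DL) (F : Fd) (x y : ℝ) : SV DL y (sv DL F x y) := by
  refine ⟨rfl, ?_⟩
  have hD : (DL : ℝ) ≠ 0 := by exact_mod_cast hDL.ne'
  have hN := (EDV_Npos y).ne'
  simp only [sv, List.getD_cons_zero]
  field_simp

theorem vX_val (DL : Int) (g : Ga) (hg : wfG g = true) (x y : ℝ) (s : List ℝ) (h : SV DL y s) :
    qf (evE x y (vX DL g)) s = 108 * Nf y ^ 3 * (Vx g x y s - VxK g.K x y s) := by
  obtain ⟨hs, hD⟩ := h
  obtain ⟨-, hH, hZ⟩ := EDV_wf g hg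
  have hN := (EDV_Npos y).ne'
  unfold vX
  rw [qf_sumQ]
  simp only [List.map_cons, List.map_nil, List.sum_cons, List.sum_nil]
  rw [EDV_tT x y 108 _ (fun p => by rw [ev_pSm]; norm_num) g.H (fun t ht => by
      have := hH t ht; omega) s hs,
    EDV_tT x y (108 * Nf y ^ 2) _ (fun p => by rw [ev_pSm, EDV_N3]; push_cast; ring) g.Z (fun t ht => by
      have := hZ t ht; omega) s hs,
    EDV_li DL x y _ (EDV_len _ (by simp) (by
      intro A hA
      simp only [List.mem_cons, List.not_mem_nil, or_false] at hA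
      rcases hA with hA | hA | hA | hA <;> (rw [hA]; apply eS_length; norm_num))) s hs hD,
    EDV_li2 DL x y _ (eS_length 1 (by norm_num) _) s hs hD, EDV_lvS]
  simp only [List.map_cons, List.map_nil, List.sum_cons, List.sum_nil, lv_eS, EDV_negP, EDV_M2]
  unfold Vx Vxl
  field_simp
  ring
theorem vY_val (DL : Int) (g : Ga) (hg : wfG g = true) (x y : ℝ) (s : List ℝ) (h : SV DL y s) :
    qf (evE x y (vY DL g)) s = 108 * Nf y ^ 3 * (Vy g x y s - VyK g.K x y s) := by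
  obtain ⟨hs, hD⟩ := h
  obtain ⟨hG, -, hZ⟩ := EDV_wf g hg
  have hN := (EDV_Npos y).ne'
  unfold vY
  rw [qf_sumQ]
  simp only [List.map_cons, List.map_nil, List.sum_cons, List.sum_nil]
  rw [EDV_tT x y (108 * Nf y ^ 2) _ (fun p => by rw [ev_pSm, EDV_N3]; push_cast; ring) g.G (fun t ht => by
      have := hG t ht; omega) s hs,
    EDV_tT x y (-(54 * x * y * Nf y ^ 2)) _ (fun p => by
      rw [ev_pSm, EDV_N3, ev_pX, ev_pY]; push_cast; ring) g.Z (fun t ht => by
      have := hZ t ht; omega) s hs,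
    EDV_li DL x y _ (EDV_len _ (by simp) (by
      intro A hA
      simp only [List.mem_cons, List.not_mem_nil, or_false] at hA
      rcases hA with hA | hA | hA | hA | hA <;> (rw [hA]; apply eS_length; norm_num))) s hs hD,
    EDV_li2 DL x y _ (EDV_len _ (by simp) (by
      intro A hA
      simp only [List.mem_cons, List.not_mem_nil, or_false] at hA
      rcases hA with hA | hA <;> (rw [hA]; apply eS_length; norm_num))) s hs hD, EDV_lvS, EDV_lvS]
  simp only [List.map_cons, List.map_nil, List.sum_cons, List.sum_nil, lv_eS, EDV_negP, ev_pX, ev_pY]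
  unfold Vy Vyl
  field_simp
  ring
theorem vXr_val (DL : Int) (g : Ga) (hg : wfG g = true) (x y : ℝ) (s : List ℝ) (h : SV DL y s) :
    qf (evE x y (vXr DL g)) s = 108 * Nf y ^ 3 * (Vx g x y (rX s) - VxK g.K x y (rX s)) := by
  obtain ⟨hs, hD⟩ := h
  obtain ⟨-, hH, hZ⟩ := EDV_wf g hg
  have hN := (EDV_Npos y).ne'
  unfold vXr
  rw [qf_sumQ]
  simp only [List.map_cons, List.map_nil, List.sum_cons, List.sum_nil]
  rw [EDV_rfT rfx rX x y 108 _ (fun p => by rw [ev_pSm]; norm_num) g.H s hs (fun t ht => by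
      have h1 := hH t ht
      have h2 := EDV_rX s hs t.1 (Or.inl h1.1)
      have h3 := EDV_rX s hs t.2.1 (Or.inl h1.2)
      exact ⟨h2.1, h3.1, h2.2, h3.2⟩),
    EDV_rfT rfx rX x y (108 * Nf y ^ 2) _ (fun p => by rw [ev_pSm, EDV_N3]; push_cast; ring) g.Z s hs
      (fun t ht => by
      have h1 := hZ t ht
      have h2 := EDV_rX s hs t.1 h1.1
      have h3 := EDV_rX s hs t.2.1 h1.2
      exact ⟨h2.1, h3.1, h2.2, h3.2⟩),
    EDV_li DL x y _ (EDV_len _ (by simp) (by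
      intro A hA
      simp only [List.mem_cons, List.not_mem_nil, or_false] at hA
      rcases hA with hA | hA | hA | hA <;> (rw [hA]; apply eS_length; norm_num))) s hs hD,
    EDV_li2 DL x y _ (eS_length 1 (by norm_num) _) s hs hD, EDV_lvS]
  simp only [List.map_cons, List.map_nil, List.sum_cons, List.sum_nil, lv_eS, EDV_negP, EDV_M2]
  have e1 := (EDV_rX s hs 1 (by omega)).1
  have e3 := (EDV_rX s hs 3 (by omega)).1
  have e6 := (EDV_rX s hs 6 (by omega)).1
  have e7 := (EDV_rX s hs 7 (by omega)).1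
  simp only [rfx] at e1 e3 e6 e7
  norm_num at e1 e3 e6 e7
  unfold Vx Vxl
  simp only [List.getD_eq_getElem?_getD] at *
  rw [e1, e3, e6, e7]
  field_simp
  ring
theorem vYr_val (DL : Int) (g : Ga) (hg : wfG g = true) (x : ℝ) (s : List ℝ) (h : SV DL 0 s) :
    qf (evE x 0 (vYr DL g)) s = 108 * Nf 0 ^ 3 * (Vy g x 0 (rY s) - VyK g.K x 0 (rY s)) := by
  obtain ⟨hs, hD⟩ := h
  obtain ⟨hG, -, -⟩ := EDV_wf g hg
  have hN := (EDV_Npos 0).ne'
  unfold vYr
  rw [qf_sumQ]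
  simp only [List.map_cons, List.map_nil, List.sum_cons, List.sum_nil]
  rw [EDV_rfT rfy rY x 0 (108 * Nf 0 ^ 2) _ (fun p => by rw [ev_pSm, EDV_N3]; push_cast; ring) g.G s hs
      (fun t ht => by
      have h1 := hG t ht
      have h2 := EDV_rY s hs t.1 h1.1
      have h3 := EDV_rY s hs t.2.1 h1.2
      exact ⟨h2.1, h3.1, h2.2, h3.2⟩),
    EDV_li DL x 0 _ (EDV_len _ (by simp) (by
      intro A hA
      simp only [List.mem_cons, List.not_mem_nil, or_false] at hA
      rcases hA with hA | hA | hA | hA | hA <;> (rw [hA]; apply eS_length; norm_num))) s hs hD, EDV_lvS]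
  simp only [List.map_cons, List.map_nil, List.sum_cons, List.sum_nil, lv_eS, EDV_negP]
  have e1 := (EDV_rY s hs 1 (by omega)).1
  have e2 := (EDV_rY s hs 2 (by omega)).1
  have e3 := (EDV_rY s hs 3 (by omega)).1
  have e4 := (EDV_rY s hs 4 (by omega)).1
  have e5 := (EDV_rY s hs 5 (by omega)).1
  simp only [rfy] at e1 e2 e3 e4 e5
  norm_num at e1 e2 e3 e4 e5
  unfold Vy Vyl
  simp only [List.getD_eq_getElem?_getD] at *
  rw [e1, e2, e3, e4, e5]
  field_simp
  ring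

/-- axis `x = 0` -/
theorem eAX_val (DL : Int) (g g' : Ga) (hg : wfG g = true) (hg' : wfG g' = true) (x y : ℝ) (s : List ℝ)
    (h : SV DL y s) : qf (evE x y (eAX DL g g')) s = 108 * Nf y ^ 3 *
      (Vx g 0 y s - VxK g.K 0 y s + (Vx g' 0 y (rX s) - VxK g'.K 0 y (rX s))) := by
  unfold eAX
  rw [EDV_map x y 0 y 1 atx0 (fun p => by rw [EDV_atx0, one_mul]) _ s, qf_qAdd, vX_val DL g hg 0 y s h,
    vXr_val DL g' hg' 0 y s h]
  ring
/-- axis `y = 0`; `w` is a polynomial in `x` -/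
theorem eAY_val (DL : Int) (g g' : Ga) (hg : wfG g = true) (hg' : wfG g' = true) (w : P) (x y : ℝ) (s : List ℝ)
    (h : SV DL 0 s) (hw : at0 w = w) : qf (evE x y (eAY DL g g' w)) s =
      -(108 * Nf 0 ^ 3 * (Vy g x 0 s - VyK g.K x 0 s + (Vy g' x 0 (rY s) - VyK g'.K x 0 (rY s)))) +
      108 * (mf x * ev x 0 (pDX w) * s.getD 1 0 ^ 2 + 2 * ev x 0 w * s.getD 1 0 * s.getD 3 0) := by
  unfold eAY
  rw [qf_qAdd, EDV_nuX w x y hw s h.1, EDV_map x y x 0 (-1) (fun p => negP (at0 p)) (fun p => by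
    rw [EDV_negP, ev_at0]; ring) _ s, qf_qAdd, vY_val DL g hg x 0 s h, vYr_val DL g' hg' x s h]
  ring
/-- interface `y = 1` -/
theorem eGA_val (DL : Int) (g g' : Ga) (hg : wfG g = true) (hg' : wfG g' = true) (w : P) (x y : ℝ) (s : List ℝ)
    (h : SV DL 1 s) (hw : at0 w = w) : qf (evE x y (eGA DL g g' w)) s =
      108 * Nf 1 ^ 3 * (Vy g x 1 s - VyK g.K x 1 s - (Vy g' x 1 s - VyK g'.K x 1 s)) +
      108 * (mf x * ev x 0 (pDX w) * s.getD 1 0 ^ 2 + 2 * ev x 0 w * s.getD 1 0 * s.getD 3 0) := by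
  unfold eGA
  rw [qf_sumQ]
  simp only [List.map_cons, List.map_nil, List.sum_cons, List.sum_nil]
  rw [EDV_nuX w x y hw s h.1, EDV_map x y x 1 1 at1 (fun p => by rw [ev_at1, one_mul]) _ s,
    EDV_map x y x 1 (-1) (fun p => negP (at1 p)) (fun p => by rw [EDV_negP, ev_at1]; ring) _ s,
    vY_val DL g hg x 1 s h, vY_val DL g' hg' x 1 s h]
  ring
/-- side `x = 1` without the side functional; `w, v` are polynomials in `y` -/
theorem eX_val (DL kf : Int) (g : Ga) (hg : wfG g = true) (Fl : List (List Int)) (w v : P) (x y : ℝ) (s : List ℝ)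
    (h : SV DL y s) (hw : atx0 w = w) (hv : atx0 v = v) : qf (evE x y (eX DL kf g Fl w v)) s =
      108 * Nf y ^ 3 * (Vx g 1 y s - VxK g.K 1 y s) + qf (evE 1 y (fX DL kf Fl)) s +
      108 * Nf y ^ 3 * ((ev 0 y (pDY w) / Nf y - y * ev 0 y w / (3 * Nf y ^ 3)) * s.getD 1 0 ^ 2 +
        2 * ev 0 y w / Nf y * s.getD 1 0 * s.getD 2 0 + ev 0 y (pDY v) * s.getD 1 0 + ev 0 y v * s.getD 2 0) := by
  unfold eX
  rw [qf_sumQ]
  simp only [List.map_cons, List.map_nil, List.sum_cons, List.sum_nil]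
  rw [EDV_nuY DL w v x y hw hv s h.1 h.2, EDV_fX DL kf Fl x y s h.1 h.2,
    EDV_map x y 1 y 1 atx1 (fun p => by rw [EDV_atx1, one_mul]) _ s, vX_val DL g hg 1 y s h]
  ring
/-- side `Y = c`; `w, v` are polynomials in `x` -/
theorem eC_val (DL kf : Int) (g : Ga) (hg : wfG g = true) (Fl : List (List Int)) (w v : P) (x y : ℝ) (s : List ℝ)
    (h : SV DL y s) (hw : at0 w = w) (hv : at0 v = v) : qf (evE x y (eC DL kf g Fl w v)) s =
      216 * Nf y ^ 3 * (Vy g x y s - VyK g.K x y s + x * y / 2 * (Vx g x y s - VxK g.K x y s)) +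
      2 * qf (evE x y (fC DL kf Fl)) s +
      216 * Nf y ^ 3 * ((mf x * ev x 0 (pDX w) / Nf y + x * y ^ 2 * ev x 0 w / (6 * Nf y ^ 3)) * s.getD 4 0 ^ 2 +
        2 * ev x 0 w / Nf y * s.getD 4 0 * (x * y / 2 * s.getD 2 0 - s.getD 3 0) +
        mf x * ev x 0 (pDX v) * s.getD 4 0 + ev x 0 v * (x * y / 2 * s.getD 2 0 - s.getD 3 0)) := by
  unfold eC
  rw [qf_sumQ]
  simp only [List.map_cons, List.map_nil, List.sum_cons, List.sum_nil]
  rw [qf_qSm, qf_qSm, qf_qSm, EDV_nuC DL w v x y hw hv s h.1 h.2, vY_val DL g hg x y s h,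
    EDV_map x y x y (x * y) (fun p => pX (pY p)) (fun p => by rw [ev_pX, ev_pY]; ring) _ s,
    vX_val DL g hg x y s h]
  push_cast
  ring

end Pool.Agent.MCA
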