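import Pool.Agent.MCA.Alg
/-!
MCA: computable part, fluxes through the edges of the regions. Everything is multiplied by `108 N³`
(`N` at the edge), the gauge by `D`, the first state is `N⁻³/DL`.
-/
namespace Pool.Agent.MCA
open Pool.Agent.MSQ Pool.Agent.MTR

/-- sum of the terms `f s_m s_n`, every coefficient changed by `φ` -/
def tT (φ : P → P) (L : List Trm) : List P := sumQ (L.map fun t => sS t.1 t.2.1 (φ t.2.2))

/-- `4 (3+y²)³ DL s₀ l` -/
def li (DL : Int) (l : LF) : List P := qMul (eS 0 (cP (4 * DL))) (l.map (NN 3))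
/-- `2 (3+y²)³ DL s₀ l` -/
def li2 (DL : Int) (l : LF) : List P := qMul (eS 0 (cP (2 * DL))) (l.map (NN 3))

/-- `108 N³ V_x`, without the K gauge -/
def vX (DL : Int) (g : Ga) : List P :=
  sumQ [tT (pSm 108) g.H, tT (fun f => pSm 36 (N3 f)) g.Z,
    li DL (sumQ [eS 3 g.h2, eS 1 (negP (pDY g.f2)), eS 6 g.fc, eS 7 g.fd]),
    li2 DL (eS 1 (negP (M2 (pDX g.h2))))]

/-- `108 N³ V_y`, without the K gauge -/
def vY (DL : Int) (g : Ga) : List P :=
  sumQ [tT (fun f => pSm 36 (N3 f)) g.G, tT (fun f => pSm (-18) (N3 (pX (pY f)))) g.Z,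
    li DL (sumQ [eS 1 g.f0, eS 2 g.f1, eS 3 g.f2, eS 4 g.fa, eS 5 g.fb]),
    li2 DL (sumQ [eS 6 (negP (pX (pY g.fc))), eS 7 (negP (pX (pY g.fd)))])]

/-- reflection `x → -x` of a state index: sign and new index -/
def rfx (k : Nat) : Int × Nat :=
  if k = 3 then (-1, 3) else if k = 6 then (1, 7) else if k = 7 then (1, 6) else (1, k)
/-- reflection `y → -y` -/
def rfy (k : Nat) : Int × Nat :=
  if k = 2 then (-1, 2) else if k = 4 then (1, 5) else if k = 5 then (1, 4) else (1, k)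

def rfT (r : Nat → Int × Nat) (L : List Trm) : List Trm :=
  L.map fun t => ((r t.1).2, (r t.2.1).2, pSm ((r t.1).1 * (r t.2.1).1) t.2.2)

/-- `108 N³ V_x` at the state reflected in `x`, without the K gauge -/
def vXr (DL : Int) (g : Ga) : List P :=
  sumQ [tT (pSm 108) (rfT rfx g.H), tT (fun f => pSm 36 (N3 f)) (rfT rfx g.Z),
    li DL (sumQ [eS 3 (negP g.h2), eS 1 (negP (pDY g.f2)), eS 7 g.fc, eS 6 g.fd]),
    li2 DL (eS 1 (negP (M2 (pDX g.h2))))]

/-- `108 N³ V_y` at `y = 0` and the state reflected in `y`, without the K gauge and `Z` -/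
def vYr (DL : Int) (g : Ga) : List P :=
  sumQ [tT (fun f => pSm 36 (N3 f)) (rfT rfy g.G),
    li DL (sumQ [eS 1 g.f0, eS 2 (negP g.f1), eS 3 g.f2, eS 5 g.fa, eS 4 g.fb])]

/-- value at `x = 0` -/
def atx0 (p : P) : P := p.take 1
/-- value at `x = 1` -/
def atx1 (p : P) : P := [p.foldr addV []]

/-- a polynomial in one variable as a polynomial in `x` -/
def inX (l : List Int) : P := l.map fun c => [c]
/-- as a polynomial in `y` -/
def inY (l : List Int) : P := [l]

/-- null term along a line `x = const`: `108 N³ d/dy (N⁻¹ w u² + v u)` -/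
def nuY (DL : Int) (w v : P) : List P :=
  sumQ [sS 1 1 (pAdd (pSm 36 (N3 (pDY w))) (pSm (-36) (pY w))), sS 1 2 (pSm 72 (N3 w)),
    li DL (qAdd (eS 1 (pDY v)) (eS 2 v))]
/-- null term along a line `y = const`: `108 m d/dx (w u²)` -/
def nuX (w : P) : List P := qAdd (sS 1 1 (pSm 54 (M2 (pDX w)))) (sS 1 3 (pSm 216 w))
/-- `2 p - x y q` times `l` -/
def laS (l : P) : LF := qAdd (eS 3 (pSm 2 l)) (eS 2 (negP (pX (pY l))))
/-- null term along the curve: `108 N³ m d/dx (N⁻¹ w a² + v a)`, `w, v` polynomials in `x` -/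
def nuC (DL : Int) (w v : P) : List P :=
  sumQ [sS 4 4 (pAdd (pSm 18 (N3 (M2 (pDX w)))) (pSm 18 (pX (pY (pY w))))),
    qMul (eS 4 (pSm (-36) (N3 w))) (laS oneP), li2 DL (qAdd (eS 4 (M2 (pDX v))) (laS (negP v)))]

/-- axis `x = 0`, gauges `g` (right) and `g'` (left): `108 N³ (V_x + V'_x)` -/
def eAX (DL : Int) (g g' : Ga) : List P := (qAdd (vX DL g) (vXr DL g')).map atx0
/-- axis `y = 0`, gauges `g` (above) and `g'` (below): `-108 N³ (V_y + V'_y)` and a null term -/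
def eAY (DL : Int) (g g' : Ga) (w : P) : List P :=
  qAdd ((qAdd (vY DL g) (vYr DL g')).map fun p => negP (at0 p)) (nuX w)
/-- interface `y = 1`, gauges `g` (core), `g'` (sliver) -/
def eGA (DL : Int) (g g' : Ga) (w : P) : List P :=
  sumQ [(vY DL g).map at1, (vY DL g').map fun p => negP (at1 p), nuX w]

/-- `u - y q + 2 p` (times `l`) at `x = 1` -/
def dnX (l : P) : LF := sumQ [eS 1 l, eS 2 (negP (pY l)), eS 3 (pSm 2 l)]
/-- the side functional at the side `x = 1`; `F` = the seven lists of coefficients; `kf = D / D_F` -/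
def fX (DL kf : Int) (F : List (List Int)) : List P :=
  let f (k : Nat) : P := pSm kf (inY (F.getD k []))
  sumQ [li DL (eS 1 (pSm 3 (f 0))), sS 2 2 (pSm 432 (f 1)),
    qMul (eS 2 (pSm 144 (f 2))) (dnX oneP), qMul (eS 1 (pSm 144 (f 3))) (dnX oneP),
    sS 1 1 (pSm 432 (f 4)), qMul (dnX (pSm 48 (f 5))) (dnX oneP), sS 1 2 (pSm 432 (f 6))]
/-- side `x = 1` -/
def eX (DL kf : Int) (g : Ga) (F : List (List Int)) (w v : P) : List P :=
  sumQ [(vX DL g).map atx1, fX DL kf F, nuY DL w v]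

/-- `x u - x y q + 2 p` (times `l`) -/
def dtC (l : P) : LF := sumQ [eS 1 (pX l), eS 2 (negP (pX (pY l))), eS 3 (pSm 2 l)]
/-- the side functional at the curve (`y² m = 3/2`), times `m` -/
def fC (DL kf : Int) (F : List (List Int)) : List P :=
  let f (k : Nat) : P := pSm kf (inX (F.getD k []))
  sumQ [qMul (eS 0 (cP (-2 * DL))) ((eS 1 (M2 (M2 (pY (f 0))))).map (NN 3)),
    qMul (dtC (pSm 72 (pY (pY (pY (f 1)))))) (dtC oneP), qMul (eS 2 (pSm 216 (pY (pY (f 2))))) (dtC oneP),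
    sS 1 2 (pSm 648 (f 3)), sS 1 1 (pSm 216 (M2 (pY (f 4)))),
    sS 2 2 (pSm 648 (pY (f 5))), qMul (eS 1 (pSm 216 (pY (f 6)))) (dtC oneP)]
/-- side `Y = c`: `108 N³ (V_y + (x y/2) V_x)` without the K gauge -/
def vC (DL : Int) (g : Ga) : List P :=
  sumQ [vY DL g, (vX DL g).map fun p => pX (pY p)]
/-- side `Y = c`, multiplied by `2`: flux, side functional and null term -/
def eC (DL kf : Int) (g : Ga) (F : List (List Int)) (w v : P) : List P :=
  sumQ [qSm 2 (vY DL g), (vX DL g).map (fun p => pX (pY p)), qSm 2 (fC DL kf F), qSm 2 (nuC DL w v)]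

/-- boxes along the curve `(2+x²) y² = 3` -/
def covC : Int → Int → List (List Itm) → Bool
  | a, b, [] => decide (b ≤ a)
  | _, _, [] :: _ => false
  | a, b, (t :: c) :: l =>
    decide (0 < t.qx) && decide (0 < t.qy) && decide (0 ≤ t.x0) && decide (0 ≤ t.x1) && decide (0 ≤ t.y0) &&
      decide (t.x0 * b ≤ a * t.qx) &&
      decide ((2 * t.qx ^ 2 + t.x1 ^ 2) * t.y0 ^ 2 ≤ 3 * (t.qx * t.qy) ^ 2) &&
      (t :: c).all (fun u => decide (0 < u.qx) && decide (u.x0 * t.qx = t.x0 * u.qx) &&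
        decide (u.x1 * t.qx = t.x1 * u.qx)) &&
      (let e := covY t.y0 t.qy (t :: c)
       decide (0 < e.2) && decide (0 < e.1) &&
        decide (3 * (t.qx * e.2) ^ 2 ≤ (2 * t.qx ^ 2 + t.x0 ^ 2) * e.1 ^ 2)) && covC t.x1 t.qx l

end Pool.Agent.MCA
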