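import Pool.Agent.PKD.Comp
import Pool.Agent.MSQ.Poly0
/-!
PDC. Fast tests of integer matrices given by packed values. Computable part.

A symmetric integer matrix is given by the rows of the upper triangle; the entry `m` is stored as the natural number
`m + h`. Schur complements are divided by the pivot and rounded; `e` is subtracted from the diagonal.
-/
namespace Pool.Agent.MCA
open Pool.Agent.PKD

/-- entries `⌊(A v + hc - c x) / A⌋` -/
noncomputable def rowP (A c hc : Nat) (xs vs : List Nat) : List Nat :=
  List.rec (motive := fun _ => List Nat → List Nat) (fun _ => [])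
    (fun x _ ih vs => List.casesOn (motive := fun _ => List Nat) vs [] fun v vs =>
      Nat.div (Nat.sub (Nat.add (Nat.mul A v) hc) (Nat.mul c x)) A :: ih vs) xs vs
/-- entries `⌊(A v + c x - hc) / A⌋` -/
noncomputable def rowN (A c hc : Nat) (xs vs : List Nat) : List Nat :=
  List.rec (motive := fun _ => List Nat → List Nat) (fun _ => [])
    (fun x _ ih vs => List.casesOn (motive := fun _ => List Nat) vs [] fun v vs =>
      Nat.div (Nat.sub (Nat.add (Nat.mul A v) (Nat.mul c x)) hc) A :: ih vs) xs vs
/-- subtract `e` from the head -/
noncomputable def hdS (e : Nat) (l : List Nat) : List Nat :=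
  List.casesOn (motive := fun _ => List Nat) l [] fun a l => Nat.sub a e :: l
/-- the rounded Schur complement: `A` the pivot, `r` the rest of the first row, `M` the other rows -/
noncomputable def stepP (h A e : Nat) (r : List Nat) (M : List (List Nat)) : List (List Nat) :=
  List.rec (motive := fun _ => List (List Nat) → List (List Nat)) (fun _ => [])
    (fun x r ih M => List.casesOn (motive := fun _ => List (List Nat)) M [] fun v M =>
      Bool.rec (motive := fun _ => List (List Nat))
        (hdS e (rowN A (Nat.sub h x) (Nat.mul h (Nat.sub h x)) (x :: r) v) :: ih M)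
        (hdS e (rowP A (Nat.sub x h) (Nat.mul h (Nat.sub x h)) (x :: r) v) :: ih M)
        (Nat.ble h x)) r M
/-- all entries are between `lo` and `hi` -/
noncomputable def rng (lo hi : Nat) (r : List Nat) : Bool :=
  List.rec (motive := fun _ => Bool) true
    (fun x _ ih => Bool.rec (motive := fun _ => Bool) false
      (Bool.rec (motive := fun _ => Bool) false ih (Nat.ble x hi)) (Nat.ble lo x)) r
/-- all pivots are positive (`h1 = h + 1`) and the other entries of the pivot rows are between `lo` and `hi` -/
noncomputable def pdR (h h1 lo hi : Nat) (n : Nat) (M : List (List Nat)) : Bool :=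
  Nat.rec (motive := fun _ => List (List Nat) → Bool) (fun _ => true)
    (fun n ih M => List.casesOn (motive := fun _ => Bool) M false fun r M =>
      List.casesOn (motive := fun _ => Bool) r false fun a r =>
        Bool.rec (motive := fun _ => Bool) false
          (Bool.rec (motive := fun _ => Bool) false (ih (stepP h (Nat.sub a h) n r M)) (rng lo hi r))
          (Nat.ble h1 a)) n M

/-- rounded lowest digits -/
noncomputable def rdL (Y rd c : Nat) (r : List Nat) : List Nat :=
  List.rec (motive := fun _ => List Nat) [] (fun v _ ih => Nat.add (Nat.div (Nat.mod v Y) rd) c :: ih) r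
/-- rows of the rounded digits, the first entry is doubled -/
noncomputable def rdR (Y rd c c0 : Nat) (M : List (List Nat)) : List (List Nat) :=
  List.rec (motive := fun _ => List (List Nat)) []
    (fun r _ ih => List.casesOn (motive := fun _ => List (List Nat)) r [] fun v r =>
      (Nat.add (Nat.mul 2 (Nat.div (Nat.mod v Y) rd)) c0 :: rdL Y rd c r) :: ih) M

/-- the matrix of the lowest digits minus `rd H` is positive; `B` bound for the entries of the pivot rows -/
noncomputable def tPD (n Y rd H B : Nat) (M : List (List Nat)) : Bool :=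
  (fun c0 => (fun h => pdR h (Nat.succ h) (Nat.sub h B) (Nat.add h B) n
      (rdR Y rd (Nat.add H (Nat.add n c0)) c0 M)) (Nat.add (Nat.mul 2 H) (Nat.add n c0)))
    (Nat.mul (Nat.succ n) (Nat.add (Nat.mul B B) n))

/-- the lowest digit is at least `H` -/
noncomputable def t1 (Y H : Nat) (M : List (List Nat)) : Bool :=
  match M with
  | [[a]] => Nat.ble H (Nat.mod a Y)
  | _ => false
/-- `2 × 2`, offset `H` -/
noncomputable def t2d (H a b c : Nat) : Bool :=
  Nat.ble H a && (Nat.ble H c && Nat.ble (Nat.add (Nat.mul b b) (Nat.mul H H))
      (Nat.add (Nat.mul (Nat.mul 2 b) H) (Nat.mul (Nat.sub a H) (Nat.sub c H))))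
noncomputable def t2 (Y H : Nat) (M : List (List Nat)) : Bool :=
  match M with
  | [[a, b], [c]] => t2d H (Nat.mod a Y) (Nat.mod b Y) (Nat.mod c Y)
  | _ => false
/-- `4 × 4`, offset `H` -/
def t4 (Y H : Nat) (M : List (List Nat)) : Bool :=
  let u (z : Nat) : Int := Int.subNatNat (Nat.mod z Y) H
  match M with
  | [[a, b, c, d], [e, f, g], [k, i], [j]] =>
    MSQ.psd 4 [u a, 2 * u b, 2 * u c, 2 * u d, u e, 2 * u f, 2 * u g, u k, 2 * u i, u j]
  | _ => false

/-- the `m` lowest digits satisfy `t` -/
noncomputable def dgJ (Y : Nat) (t : List (List Nat) → Bool) (m : Nat) (M : List (List Nat)) : Bool :=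
  Nat.rec (motive := fun _ => List (List Nat) → Bool) (fun _ => true)
    (fun _ ih M => Bool.rec (motive := fun _ => Bool) false (ih (divM Y M)) (t M)) m M
/-- the digits `X^i Y^j`, `i < n`, `j < m` satisfy `t` -/
noncomputable def dgI (X Y : Nat) (t : List (List Nat) → Bool) (n m : Nat) (M : List (List Nat)) : Bool :=
  Nat.rec (motive := fun _ => List (List Nat) → Bool) (fun _ => true)
    (fun _ ih M => Bool.rec (motive := fun _ => Bool) false (ih (divM X M)) (dgJ Y t m M)) n M

end Pool.Agent.MCA
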