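import Pool.Agent.MCA.PKC
/-!
PDZ. Test of a digit matrix with rows that vanish. Computable part.
-/
namespace Pool.Agent.MCA
open Pool.Agent.MSQ Pool.Agent.MTR Pool.Agent.PKD

/-- rows and columns of the selected states, rows of the upper triangle -/
def selM : List Bool → List (List Nat) → List (List Nat)
  | true :: bs, r :: M => selL (true :: bs) r :: selM bs M
  | false :: bs, _ :: M => selM bs M
  | _, _ => []
/-- the other entries -/
def nelM : List Bool → List (List Nat) → List (List Nat)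
  | true :: bs, r :: M => nelL (true :: bs) r :: nelM bs M
  | false :: bs, r :: M => r :: nelM bs M
  | _, _ => []

/-- the states which are not selected have the digits `rd H`, the others satisfy `tPD` -/
noncomputable def tPZ (z : List Bool) (n Y rd H B : Nat) (M : List (List Nat)) : Bool :=
  Nat.beq z.length n && (((nelM z M).all fun r => r.all fun v => Nat.beq (Nat.mod v Y) (Nat.mul rd H)) &&
    tPD (cnt z) Y rd H B (selM z M))

/-- one of the masks `zs` works -/
noncomputable def tPY (zs : List (List Bool)) (n Y rd H B : Nat) (M : List (List Nat)) : Bool :=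
  List.rec (motive := fun _ => Bool) false (fun z _ ih => Bool.rec (motive := fun _ => Bool) ih true
    (tPZ z n Y rd H B M)) zs

noncomputable def tPO (zs : List (List Bool)) (n Y rd H B : Nat) (M : List (List Nat)) : Bool :=
  Bool.rec (motive := fun _ => Bool) (tPY zs n Y rd H B M) true (tPD n Y rd H B M)

/-- `bchkO` with `tPO` for the last matrix -/
noncomputable def bchkOz (zs : List (List Bool)) (r : Rd) (R : List Pk) (b : Bw) (X Y N of : Nat) (v : Vw Nat) (t : Tw Nat) :
    Bool :=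
  (b.gr.all (tGr r X Y N of v b.K b.h (Nat.pow 2 b.hb))) &&
  (b.dt.all fun z => tst r X Y N of v b.K b.h (Nat.pow 2 b.hb) 1 (t1 Y (Nat.pow 2 b.hb)) [z.2]) &&
  (b.w4.all fun z => tst r X Y N of v b.K b.h (Nat.pow 2 b.hb) 4 (t4 Y (Nat.pow 2 b.hb)) z.2.2) &&
  (b.gz.all fun z => Nat.ble z.2.1 b.hb && tst r X Y N of v b.K b.h (Nat.pow 2 b.hb) (cnt r.ac)
    (tPD (cnt r.ac) Y (Nat.pow 2 z.2.1) (Nat.pow 2 (Nat.sub b.hb z.2.1)) b.B) z.2.2) &&
  (fun M => (nelQ r.ac M).all (fun z => Nat.beq (Nat.mod z N) 0) &&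
    dgI X Y (tPO zs (cnt r.ac) Y (Nat.pow 2 b.rb) (Nat.pow 2 (Nat.sub b.hb b.rb)) b.B) (Nat.succ r.E) (Nat.succ r.D)
      (rowsM (cnt r.ac) (shiftL of N (vSub (OM N X Y) (selQ r.ac M)
        (gzW (OM N X Y) b.K b.h v r t (Nat.div (Nat.mul (cnt r.ac) (Nat.succ (cnt r.ac))) 2) b.gz)))))
    (MW (OM N X Y) r R b v t)

noncomputable def bchkz (zs : List (List Bool)) (rg : Rgn) (r : Rd) (R : List Pk) (b : Bw) : Bool :=
  bxOK r b &&
  (fun Y => (fun N X of => (fun v => bchkOz zs r R b X Y N of v (mkT (OM N X Y) v rg r)) (mkW (OM N X Y) b))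
    (Nat.pow Y (Nat.mul (Nat.succ r.E) (Nat.succ r.D))) (Nat.pow Y (Nat.succ r.D))
    (Nat.mul (Nat.pow 2 b.hb) (reps Y (Nat.mul (Nat.succ r.E) (Nat.succ r.D)))))
    (Nat.add (Nat.pow 2 (Nat.succ b.hb)) 1)

end Pool.Agent.MCA
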