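import Pool.Agent.MCA.PKE
import Pool.Agent.PKD.RPV
import Pool.Agent.PKD.RC2
/-!
PKA (130 lines). Relations: lists with a common bound, basic values, packed polynomials.

PROOF. The `C3` lemmas as the `C2` lemmas in PKD/RC2 (inductions on `Forall₂`; degrees `(n, m)` instead of `(n, n)`).
`mkW_rel`: `R3.nat`, `R3.X`, `R3.Y`, `R3.add`, `R3.mul`, `R3.mono`; the norms are `x0 + x1 * 1`, `qx * (1 + 1)`.
`bas_rel`: `tens_rel` with `mkV_rel` (degrees `(n, 0)` and `(0, m)`).
`pkv_rel`: `pw_rel`, `pvo_rel` (PKD/RPV), then the norm: all entries of `mkV ON ν ν n` are `ν^n` (`n + 1` entries), so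
`sgr ON (tens ..) = (n+1) (m+1) νx^n νy^m`, `dgr ON K .. ≤ K * sgr`, hence `pvo ON .. ≤ (K + h) (n+1) (m+1) νx^n νy^m`;
times `νx^(d.1 - n) νy^(d.2 - m)`.
-/
set_option autoImplicit false

open Pool.Agent.MSQ Pool.Agent.MTR Pool.Agent.PKD

namespace Pool.Agent.MCA

theorem C3.mono {C : Cx} {n m κ n' m' κ' : ℕ} {A : List ℕ} {B : List ℝ} (h : C3 C n m κ A B) (hn : n ≤ n')
    (hm : m ≤ m') (hk : κ ≤ κ') : C3 C n' m' κ' A B := by
  unfold C3 at h ⊢
  exact h.imp fun _ _ k => k.mono hn hm hk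
theorem C3.len {C : Cx} {n m κ : ℕ} {A : List ℕ} {B : List ℝ} (h : C3 C n m κ A B) : A.length = B.length := by
  unfold C3 at h
  exact h.length_eq
theorem C3.zero (C : Cx) (n m κ k : ℕ) : C3 C n m κ (zK C.om k) (zK C.rr k) := by
  unfold C3 zK
  induction k with
  | zero => exact List.Forall₂.nil
  | succ k ih =>
    rw [List.replicate_succ, List.replicate_succ]
    exact List.Forall₂.cons ((R3.nat C n m 0).mono le_rfl le_rfl (Nat.zero_le κ)) ih
theorem C3.vAdd {C : Cx} {n m κ κ' : ℕ} {A A' : List ℕ} {B B' : List ℝ} (h : C3 C n m κ A B)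
    (h' : C3 C n m κ' A' B') : C3 C n m (κ + κ') (vAdd C.om A A') (vAdd C.rr B B') := by
  unfold C3 at h h' ⊢
  induction h generalizing A' B' with
  | nil => exact List.Forall₂.nil
  | cons k _ ih =>
    cases h' with
    | nil => exact List.Forall₂.nil
    | cons k' t' => exact List.Forall₂.cons (k.add k') (ih t')
theorem C3.vSub {C : Cx} {n m κ κ' : ℕ} {A A' : List ℕ} {B B' : List ℝ} (h : C3 C n m κ A B)
    (h' : C3 C n m κ' A' B') : C3 C n m (κ + κ') (vSub C.om A A') (vSub C.rr B B') := by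
  unfold C3 at h h' ⊢
  induction h generalizing A' B' with
  | nil => exact List.Forall₂.nil
  | cons k _ ih =>
    cases h' with
    | nil => exact List.Forall₂.nil
    | cons k' t' => exact List.Forall₂.cons (k.sub k') (ih t')
theorem C3.vSm {C : Cx} {n m n' m' κ c a : ℕ} {r : ℝ} {A : List ℕ} {B : List ℝ} (ha : R3 C n' m' a r c)
    (h : C3 C n m κ A B) : C3 C (n' + n) (m' + m) (c * κ) (vSm C.om a A) (vSm C.rr r B) := by
  unfold C3 at h ⊢
  induction h with
  | nil => exact List.Forall₂.nil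
  | cons k _ ih => exact List.Forall₂.cons (ha.mul k) ih

private theorem pkaRow {C : Cx} {n m n' m' κ κ' l l' : ℕ} {r r' : ℝ} (hl : R3 C n m l r κ)
    (hl' : R3 C n' m' l' r' κ') {T : List ℕ} {V : List ℝ}
    (hT : List.Forall₂ (fun a r => R3 C (n + n') (m + m') a r (2 * (κ * κ'))) T V)
    {A A' : List ℕ} {B B' : List ℝ} (h : List.Forall₂ (fun a r => R3 C n m a r κ) A B)
    (h' : List.Forall₂ (fun a r => R3 C n' m' a r κ') A' B') :
    List.Forall₂ (fun a r => R3 C (n + n') (m + m') a r (2 * (κ * κ')))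
      (rowK C.om l l' T A A') (rowK C.rr r r' V B B') := by
  induction h generalizing A' B' with
  | nil => exact hT
  | cons k _ ih =>
    cases h' with
    | nil => exact hT
    | cons k' t' =>
      have h1 := hl.mul k'
      have h2 := hl'.mul k
      rw [Nat.add_comm n' n, Nat.add_comm m' m] at h2
      refine List.Forall₂.cons ((h1.add h2).mono le_rfl le_rfl ?_) (ih t')
      show κ * κ' + κ' * κ ≤ 2 * (κ * κ')
      rw [Nat.mul_comm κ' κ]
      omega

theorem C3.vMul {C : Cx} {n m n' m' κ κ' : ℕ} {A A' : List ℕ} {B B' : List ℝ} (h : C3 C n m κ A B)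
    (h' : C3 C n' m' κ' A' B') : C3 C (n + n') (m + m') (2 * (κ * κ')) (vMul C.om A A') (vMul C.rr B B') := by
  unfold C3 at h h' ⊢
  induction h generalizing A' B' with
  | nil => exact List.Forall₂.nil
  | cons k t ih =>
    cases h' with
    | nil => exact List.Forall₂.nil
    | cons k' t' =>
      refine List.Forall₂.cons ((k.mul k').mono le_rfl le_rfl ?_) (pkaRow k k' (ih t') t t')
      show κ * κ' ≤ 2 * (κ * κ')
      omega
theorem C3.map {C : Cx} {n m κ : ℕ} {α : Type} (f : α → ℕ) (g : α → ℝ) (l : List α)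
    (h : ∀ a ∈ l, R3 C n m (f a) (g a) κ) : C3 C n m κ (l.map f) (l.map g) := by
  unfold C3
  induction l with
  | nil => exact List.Forall₂.nil
  | cons a l ih =>
    exact List.Forall₂.cons (h a List.mem_cons_self) (ih fun b hb => h b (List.mem_cons_of_mem _ hb))

private theorem pkaApp {α β : Type} {R : α → β → Prop} {A A' : List α} {B B' : List β} (h : List.Forall₂ R A B)
    (h' : List.Forall₂ R A' B') : List.Forall₂ R (A ++ A') (B ++ B') := by
  induction h with
  | nil => exact h'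
  | cons k _ ih => exact List.Forall₂.cons k ih

private theorem pkaSelL {α β : Type} {R : α → β → Prop} (bs : List Bool) {A : List α} {B : List β}
    (h : List.Forall₂ R A B) : List.Forall₂ R (selL bs A) (selL bs B) := by
  induction bs generalizing A B with
  | nil =>
    cases h with
    | nil => exact List.Forall₂.nil
    | cons _ _ => exact List.Forall₂.nil
  | cons b bs ih =>
    cases b with
    | true =>
      cases h with
      | nil => exact List.Forall₂.nil
      | cons k t => exact List.Forall₂.cons k (ih t)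
    | false =>
      cases h with
      | nil => exact List.Forall₂.nil
      | cons k t => exact ih t

private theorem pkaNelL {α β : Type} {R : α → β → Prop} (bs : List Bool) {A : List α} {B : List β}
    (h : List.Forall₂ R A B) : List.Forall₂ R (nelL bs A) (nelL bs B) := by
  induction bs generalizing A B with
  | nil =>
    cases h with
    | nil => exact List.Forall₂.nil
    | cons _ _ => exact List.Forall₂.nil
  | cons b bs ih =>
    cases b with
    | false =>
      cases h with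
      | nil => exact List.Forall₂.nil
      | cons k t => exact List.Forall₂.cons k (ih t)
    | true =>
      cases h with
      | nil => exact List.Forall₂.nil
      | cons k t => exact ih t

theorem C3.selQ {C : Cx} {n m κ : ℕ} {A : List ℕ} {B : List ℝ} (h : C3 C n m κ A B) (ac : List Bool) :
    C3 C n m κ (selQ ac A) (selQ ac B) := by
  unfold C3 at h ⊢
  induction ac generalizing A B with
  | nil => exact List.Forall₂.nil
  | cons b bs ih =>
    cases b with
    | true => exact pkaApp (pkaSelL _ (List.forall₂_take _ h)) (ih (List.forall₂_drop _ h))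
    | false => exact ih (List.forall₂_drop _ h)
theorem C3.nelQ {C : Cx} {n m κ : ℕ} {A : List ℕ} {B : List ℝ} (h : C3 C n m κ A B) (ac : List Bool) :
    C3 C n m κ (nelQ ac A) (nelQ ac B) := by
  unfold C3 at h ⊢
  induction ac generalizing A B with
  | nil => exact List.Forall₂.nil
  | cons b bs ih =>
    cases b with
    | true => exact pkaApp (pkaNelL _ (List.forall₂_take _ h)) (ih (List.forall₂_drop _ h))
    | false => exact pkaApp (List.forall₂_take _ h) (ih (List.forall₂_drop _ h))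

theorem mkW_rel (C : Cx) (r : Rd) (b : Bw) (hx : b.x0 + b.x1 ≤ r.νx) (hq : 2 * b.qx ≤ r.νx)
    (hy : b.y0 + b.y1 ≤ r.νy) (hr : 2 * b.qy ≤ r.νy) : RV4 C r (mkW C.om b) (mkW C.rr b) := by
  refine ⟨?_, ?_, ?_, ?_⟩
  · refine ((R3.nat C 1 0 b.x0).add (((R3.nat C 0 0 b.x1).mul (R3.X C 1 0 le_rfl)).mono (by omega) (by omega)
      le_rfl)).mono le_rfl le_rfl ?_
    show b.x0 + b.x1 * 1 ≤ r.νx
    omega
  · refine (((R3.nat C 0 0 b.qx).mul ((R3.nat C 1 0 1).add (R3.X C 1 0 le_rfl))).mono (by omega) (by omega)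
      ?_)
    show b.qx * (1 + 1) ≤ r.νx
    omega
  · refine ((R3.nat C 0 1 b.y0).add (((R3.nat C 0 0 b.y1).mul (R3.Y C 0 1 le_rfl)).mono (by omega) (by omega)
      le_rfl)).mono le_rfl le_rfl ?_
    show b.y0 + b.y1 * 1 ≤ r.νy
    omega
  · refine (((R3.nat C 0 0 b.qy).mul ((R3.nat C 0 1 1).add (R3.Y C 0 1 le_rfl))).mono (by omega) (by omega)
      ?_)
    show b.qy * (1 + 1) ≤ r.νy
    omega

theorem bas_rel {C : Cx} {r : Rd} {v : Vw ℕ} {v' : Vw ℝ} (hv : RV4 C r v v') (n m : ℕ) :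
    RG C n m (bas C.om v n m) (bas C.rr v' n m) (tens (mkV ON r.νx r.νx n) (mkV ON r.νy r.νy m)) := by
  have h1 := mkV_rel hv.a hv.A n
  have h2 := mkV_rel hv.b hv.B m
  have h3 := tens_rel h1 h2
  have e1 : n * 1 + m * 0 = n := by omega
  have e2 : n * 0 + m * 1 = m := by omega
  rw [e1, e2] at h3
  exact h3

private theorem pkaPw (ν k : ℕ) : pw ON ν k = ν ^ k := by
  induction k with
  | zero => rfl
  | succ k ih =>
    show ν * pw ON ν k = ν ^ (k + 1)
    rw [ih, pow_succ, Nat.mul_comm]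

private theorem pkaSmCons (a : ℕ) (l : List ℕ) : sm ON (a :: l) = a + sm ON l := rfl

private theorem pkaSmMap (ν : ℕ) (l : List ℕ) : sm ON (l.map (ON.mul ν)) = ν * sm ON l := by
  induction l with
  | nil => exact (Nat.mul_zero ν).symm
  | cons a l ih =>
    rw [List.map_cons, pkaSmCons, pkaSmCons, ih, Nat.mul_add]
    rfl

private theorem pkaSmV (ν k : ℕ) : sm ON (mkV ON ν ν k) = (k + 1) * ν ^ k := by
  induction k with
  | zero => rfl
  | succ k ih =>
    have e : mkV ON ν ν (k + 1) = pw ON ν (k + 1) :: (mkV ON ν ν k).map (ON.mul ν) := rfl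
    rw [e, pkaSmCons, pkaSmMap, ih, pkaPw]
    ring

private theorem pkaSgrCons (x : ℕ × List ℕ) (u : List (ℕ × List ℕ)) : sgr ON (x :: u) = x.1 * sm ON x.2 + sgr ON u := rfl

private theorem pkaSgrTens (U V : List ℕ) : sgr ON (tens U V) = sm ON U * sm ON V := by
  induction U with
  | nil => exact (Nat.zero_mul _).symm
  | cons a U ih =>
    have e : tens (a :: U) V = (a, V) :: tens U V := rfl
    rw [e, pkaSgrCons, ih, pkaSmCons, Nat.add_mul]

private theorem pkaDgt (K N : ℕ) (hK : 1 ≤ K) (v : List ℕ) : dgt ON K v N ≤ K * sm ON v := by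
  induction v generalizing N with
  | nil => exact Nat.zero_le _
  | cons a v ih =>
    have e : dgt ON K (a :: v) N = N % K * a + dgt ON K v (N / K) := rfl
    rw [e, pkaSmCons, Nat.mul_add]
    exact Nat.add_le_add (Nat.mul_le_mul_right _ (Nat.mod_lt _ hK).le) (ih _)

private theorem pkaDgr (K L N : ℕ) (hK : 1 ≤ K) (u : List (ℕ × List ℕ)) : dgr ON K L u N ≤ K * sgr ON u := by
  induction u generalizing N with
  | nil => exact Nat.zero_le _
  | cons x u ih =>
    have e : dgr ON K L (x :: u) N = x.1 * dgt ON K x.2 (N % L) + dgr ON K L u (N / L) := rfl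
    rw [e, pkaSgrCons, Nat.mul_add]
    refine Nat.add_le_add ?_ (ih _)
    calc x.1 * dgt ON K x.2 (N % L) ≤ x.1 * (K * sm ON x.2) := Nat.mul_le_mul_left _ (pkaDgt _ _ hK _)
      _ = K * (x.1 * sm ON x.2) := by ring

theorem pkv_rel {C : Cx} {r : Rd} {v : Vw ℕ} {v' : Vw ℝ} (hv : RV4 C r v v') (K h : ℕ) (hK : 1 ≤ K) (d : ℕ × ℕ)
    (p : Pk) (hp : fit d p = true) :
    R3 C d.1 d.2 (pkv C.om K h v d p) (pkv C.rr K h v' d p) (bp K h r d p) := by
  unfold fit at hp
  rw [Bool.and_eq_true, Nat.ble_eq, Nat.ble_eq] at hp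
  obtain ⟨hn, hm⟩ := hp
  have h1 := pw_rel hv.A (d.1 - p.n)
  have h2 := pw_rel hv.B (d.2 - p.m)
  have h3 := pvo_rel (bas_rel hv p.n p.m) K (K ^ (p.m + 1)) h p.c
  refine ((h1.mul h2).mul h3).mono (by omega) (by omega) ?_
  rw [pkaPw, pkaPw]
  set u := tens (mkV ON r.νx r.νx p.n) (mkV ON r.νy r.νy p.m) with hu
  have e1 : sgr ON u = ((p.n + 1) * r.νx ^ p.n) * ((p.m + 1) * r.νy ^ p.m) := by
    rw [hu, pkaSgrTens, pkaSmV, pkaSmV]
  have e2 : pvo ON K (K ^ (p.m + 1)) h u p.c ≤ (K + h) * sgr ON u := by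
    have e3 : pvo ON K (K ^ (p.m + 1)) h u p.c = dgr ON K (K ^ (p.m + 1)) u p.c + h * sgr ON u := rfl
    rw [e3, Nat.add_mul]
    exact Nat.add_le_add_right (pkaDgr _ _ _ hK _) _
  have e4 : bp K h r d p = (K + h) * ((p.n + 1) * (p.m + 1)) * (r.νx ^ d.1 * r.νy ^ d.2) := rfl
  rw [e4]
  show r.νx ^ (d.1 - p.n) * r.νy ^ (d.2 - p.m) * pvo ON K (K ^ (p.m + 1)) h u p.c ≤ _
  refine (Nat.mul_le_mul_left _ e2).trans (le_of_eq ?_)
  have e5 : r.νx ^ d.1 = r.νx ^ (d.1 - p.n) * r.νx ^ p.n := by rw [← pow_add, Nat.sub_add_cancel hn]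
  have e6 : r.νy ^ d.2 = r.νy ^ (d.2 - p.m) * r.νy ^ p.m := by rw [← pow_add, Nat.sub_add_cancel hm]
  rw [e1, e5, e6]
  ring

end Pool.Agent.MCA
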