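import Pool.Agent.MCA.Alg
import Pool.Agent.MCA.PDC
/-!
PKC. Packed test of a box. Computable part.

A polynomial is packed as `(n, m, c)`: the coefficient of `x^i y^j` (`i ≤ n`, `j ≤ m`) is the digit
`(m + 1) i + j` of `c` in base `K` minus `h`. All values are homogeneous in the numerators and denominators
`a = x0 + x1 X`, `A = qx (1 + X)`, `b = y0 + y1 Y`, `B = qy (1 + Y)` of the coordinates of a point of the box
(`x = a / A`, `y = b / B`).
-/
namespace Pool.Agent.MCA
open Pool.Agent.MSQ Pool.Agent.MTR Pool.Agent.PKD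

/-- packed polynomial of degrees at most `n`, `m` -/
structure Pk where
  n : Nat
  m : Nat
  c : Nat

/-- one row of the certificate: the form `i` times (`Σ P f_j + Σ tr (L M_k)`) -/
structure Gw where
  i : Nat
  pr : List (Nat × Pk)
  mm : List (Nat × Pk × Pk × Pk)

/-- data of a box -/
structure Bw where
  x0 : Nat
  x1 : Nat
  qx : Nat
  y0 : Nat
  y1 : Nat
  qy : Nat
  /-- base and offset of the multipliers -/
  K : Nat
  h : Nat
  gr : List Gw
  /-- `P det M_k` -/
  dt : List (Nat × Pk)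
  /-- `tr (W (M_k ⊗ M_l))` -/
  w4 : List (Nat × Nat × List Pk)
  /-- zero form times an arbitrary linear form -/
  zr : List (Nat × List Pk)
  /-- `g_i` times a positive matrix on the active states, and the bits of the rounding for its test -/
  gz : List (Nat × Nat × List Pk)
  /-- `2^hb` bounds the norms; `2^rb` rounding, `B` bound of the rounded entries -/
  hb : Nat
  rb : Nat
  B : Nat

/-- parameters of a region: total degrees `E`, `D`, degrees of the forms, bounds `νx`, `νy` for `a, A` and `b, B`,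
bounds for the norms of the forms, active states, base and offset of `R` -/
structure Rd where
  E : Nat
  D : Nat
  dF : List (Nat × Nat)
  dM : List (Nat × Nat)
  dZ : List (Nat × Nat)
  dG : List (Nat × Nat)
  νx : Nat
  νy : Nat
  bF : List Nat
  bM : List Nat
  bZ : List Nat
  bG : List Nat
  ac : List Bool
  K : Nat
  h : Nat

/-- numerators and denominators -/
structure Vw (α : Type) where
  a : α
  A : α
  b : α
  B : α

/-- values of the forms -/
structure Tw (α : Type) where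
  F : List (List α)
  M : List (List α × List α × List α)
  Z : List (List α)
  G : List α

def dg (l : List (Nat × Nat)) (i : Nat) : Nat × Nat := l.getD i (0, 0)
/-- degrees left for a multiplier -/
noncomputable def s2 (a b : Nat × Nat) : Nat × Nat := (Nat.sub a.1 b.1, Nat.sub a.2 b.2)
noncomputable def a2 (a b : Nat × Nat) : Nat × Nat := (Nat.add a.1 b.1, Nat.add a.2 b.2)

section
variable {α : Type} (O : Ops α)

noncomputable def mkW (b : Bw) : Vw α where
  a := O.add (O.nat b.x0) (O.mul (O.nat b.x1) O.X)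
  A := O.mul (O.nat b.qx) (O.add (O.nat 1) O.X)
  b := O.add (O.nat b.y0) (O.mul (O.nat b.y1) O.Y)
  B := O.mul (O.nat b.qy) (O.add (O.nat 1) O.Y)

/-- the monomials of degrees `n`, `m` -/
noncomputable def bas (v : Vw α) (n m : Nat) : List (α × List α) := tens (mkV O v.a v.A n) (mkV O v.b v.B m)

/-- value of a packed polynomial, homogeneous of degrees `d` -/
noncomputable def pkv (K h : Nat) (v : Vw α) (d : Nat × Nat) (p : Pk) : α :=
  O.mul (O.mul (pw O v.A (Nat.sub d.1 p.n)) (pw O v.B (Nat.sub d.2 p.m)))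
    (pvo O K (Nat.pow K (Nat.succ p.m)) h (bas O v p.n p.m) p.c)

/-- value of a linear form of degrees `d` -/
noncomputable def lfv (v : Vw α) (d : Nat × Nat) (l : LF) : List α := l.map (pvI O (bas O v d.1 d.2))

noncomputable def zK (k : Nat) : List α := List.replicate k (O.nat 0)

noncomputable def mkL (v : Vw α) : List (Nat × Nat) → List LF → List (List α)
  | d :: ds, l :: ls => lfv O v d l :: mkL v ds ls
  | _, _ => []
noncomputable def mkMs (v : Vw α) : List (Nat × Nat) → List MF → List (List α × List α × List α)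
  | d :: ds, l :: ls => (lfv O v d l.m11, lfv O v d l.m12, lfv O v d l.m22) :: mkMs v ds ls
  | _, _ => []
noncomputable def mkG (v : Vw α) : List (Nat × Nat) → List P → List α
  | d :: ds, l :: ls => pvI O (bas O v d.1 d.2) l :: mkG v ds ls
  | _, _ => []
noncomputable def mkT (v : Vw α) (rg : Rgn) (r : Rd) : Tw α where
  F := mkL O v r.dF rg.fs
  M := mkMs O v r.dM rg.ms
  Z := mkL O v r.dZ rg.zs
  G := mkG O v r.dG rg.gs

noncomputable def gF (t : Tw α) (i : Nat) : List α := t.F.getD i (zK O 11)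
noncomputable def gM (t : Tw α) (i : Nat) : List α × List α × List α := t.M.getD i (zK O 11, zK O 11, zK O 11)
noncomputable def gZ (t : Tw α) (i : Nat) : List α := t.Z.getD i (zK O 11)
noncomputable def gG (t : Tw α) (i : Nat) : α := t.G.getD i (O.nat 0)

/-- `p M11 + q M12 + s M22` -/
noncomputable def v3 (p q s : α) (M : List α × List α × List α) : List α :=
  vAdd O (vSm O p M.1) (vAdd O (vSm O q M.2.1) (vSm O s M.2.2))

/-- `Σ P f_j` of degrees `d` -/
noncomputable def prW (K h : Nat) (v : Vw α) (r : Rd) (t : Tw α) (d : Nat × Nat) : List (Nat × Pk) → List α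
  | [] => zK O 11
  | z :: l => vAdd O (vSm O (pkv O K h v (s2 d (dg r.dF z.1)) z.2) (gF O t z.1)) (prW K h v r t d l)
/-- `Σ tr (L M_k)` of degrees `d` -/
noncomputable def trW (K h : Nat) (v : Vw α) (r : Rd) (t : Tw α) (d : Nat × Nat) :
    List (Nat × Pk × Pk × Pk) → List α
  | [] => zK O 11
  | z :: l => vAdd O (v3 O (pkv O K h v (s2 d (dg r.dM z.1)) z.2.1)
      (O.mul (O.nat 2) (pkv O K h v (s2 d (dg r.dM z.1)) z.2.2.1)) (pkv O K h v (s2 d (dg r.dM z.1)) z.2.2.2)
      (gM O t z.1)) (trW K h v r t d l)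
noncomputable def grW (K h : Nat) (v : Vw α) (r : Rd) (t : Tw α) : List Gw → List α
  | [] => zK O 66
  | g :: l => vAdd O (vMul O (gF O t g.i) (vAdd O (prW O K h v r t (s2 (r.E, r.D) (dg r.dF g.i)) g.pr)
      (trW O K h v r t (s2 (r.E, r.D) (dg r.dF g.i)) g.mm))) (grW K h v r t l)
noncomputable def dtW (K h : Nat) (v : Vw α) (r : Rd) (t : Tw α) : List (Nat × Pk) → List α
  | [] => zK O 66
  | z :: l => vAdd O (vSm O (pkv O K h v (s2 (s2 (r.E, r.D) (dg r.dM z.1)) (dg r.dM z.1)) z.2)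
      (vSub O (vMul O (gM O t z.1).1 (gM O t z.1).2.2) (vMul O (gM O t z.1).2.1 (gM O t z.1).2.1)))
      (dtW K h v r t l)
noncomputable def krW (u : List α) (A B : List α × List α × List α) : List α :=
  match u with
  | [g0, g1, g2, g3, g4, g5, g6, g7, g8, g9] =>
    vAdd O (vMul O A.1 (v3 O g0 (O.mul (O.nat 2) g1) g4 B))
      (vAdd O (vMul O A.2.1 (v3 O (O.mul (O.nat 2) g2) (O.mul (O.nat 2) (O.add g3 g5)) (O.mul (O.nat 2) g6) B))
        (vMul O A.2.2 (v3 O g7 (O.mul (O.nat 2) g8) g9 B)))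
  | _ => zK O 66
noncomputable def w4W (K h : Nat) (v : Vw α) (r : Rd) (t : Tw α) : List (Nat × Nat × List Pk) → List α
  | [] => zK O 66
  | z :: l => vAdd O (krW O (z.2.2.map (pkv O K h v (s2 (s2 (r.E, r.D) (dg r.dM z.1)) (dg r.dM z.2.1))))
      (gM O t z.1) (gM O t z.2.1)) (w4W K h v r t l)
noncomputable def zrW (K h : Nat) (v : Vw α) (r : Rd) (t : Tw α) : List (Nat × List Pk) → List α
  | [] => zK O 66
  | z :: l => vAdd O (vMul O (gZ O t z.1) (z.2.map (pkv O K h v (s2 (r.E, r.D) (dg r.dZ z.1)))))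
      (zrW K h v r t l)
/-- `Σ g_i G` on the active states; `k` entries -/
noncomputable def gzW (K h : Nat) (v : Vw α) (r : Rd) (t : Tw α) (k : Nat) : List (Nat × Nat × List Pk) → List α
  | [] => zK O k
  | z :: l => vAdd O (vSm O (gG O t z.1) (z.2.2.map (pkv O K h v (s2 (r.E, r.D) (dg r.dG z.1)))))
      (gzW K h v r t k l)

/-- the matrix `R` -/
noncomputable def rW (v : Vw α) (r : Rd) (R : List Pk) : List α := R.map (pkv O r.K r.h v (r.E, r.D))

/-- `R` minus the products (without those of the polynomials `g_i`) -/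
noncomputable def MW (r : Rd) (R : List Pk) (b : Bw) (v : Vw α) (t : Tw α) : List α :=
  vSub O (rW O v r R) (vAdd O (grW O b.K b.h v r t b.gr) (vAdd O (dtW O b.K b.h v r t b.dt)
    (vAdd O (w4W O b.K b.h v r t b.w4) (zrW O b.K b.h v r t b.zr))))

end

/-! ### selection of states -/

/-- selection in a linear form -/
def selL {α : Type} : List Bool → List α → List α
  | true :: bs, a :: l => a :: selL bs l
  | false :: bs, _ :: l => selL bs l
  | _, _ => []
/-- selection in a quadratic form -/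
def selQ {α : Type} : List Bool → List α → List α
  | true :: bs, l => selL (true :: bs) (l.take (Nat.succ bs.length)) ++ selQ bs (l.drop (Nat.succ bs.length))
  | false :: bs, l => selQ bs (l.drop (Nat.succ bs.length))
  | [], _ => []
/-- the other entries -/
def nelL {α : Type} : List Bool → List α → List α
  | false :: bs, a :: l => a :: nelL bs l
  | true :: bs, _ :: l => nelL bs l
  | _, _ => []
def nelQ {α : Type} : List Bool → List α → List α
  | true :: bs, l => nelL (true :: bs) (l.take (Nat.succ bs.length)) ++ nelQ bs (l.drop (Nat.succ bs.length))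
  | false :: bs, l => l.take (Nat.succ bs.length) ++ nelQ bs (l.drop (Nat.succ bs.length))
  | [], _ => []
/-- number of selected states -/
def cnt (l : List Bool) : Nat := (l.filter id).length

/-! ### norms -/

/-- bound of the norm of `pkv` for degrees `d` -/
noncomputable def bp (K h : Nat) (r : Rd) (d : Nat × Nat) (p : Pk) : Nat :=
  Nat.mul (Nat.mul (Nat.add K h) (Nat.mul (Nat.succ p.n) (Nat.succ p.m))) (Nat.mul (Nat.pow r.νx d.1) (Nat.pow r.νy d.2))
noncomputable def gB (l : List Nat) (i : Nat) : Nat := l.getD i 0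

noncomputable def prB (K h : Nat) (r : Rd) (d : Nat × Nat) : List (Nat × Pk) → Nat
  | [] => 0
  | z :: l => Nat.add (Nat.mul (bp K h r (s2 d (dg r.dF z.1)) z.2) (gB r.bF z.1)) (prB K h r d l)
noncomputable def trB (K h : Nat) (r : Rd) (d : Nat × Nat) : List (Nat × Pk × Pk × Pk) → Nat
  | [] => 0
  | z :: l => Nat.add (Nat.mul (Nat.add (bp K h r (s2 d (dg r.dM z.1)) z.2.1)
      (Nat.add (Nat.mul 2 (bp K h r (s2 d (dg r.dM z.1)) z.2.2.1)) (bp K h r (s2 d (dg r.dM z.1)) z.2.2.2)))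
      (gB r.bM z.1)) (trB K h r d l)
noncomputable def grB (K h : Nat) (r : Rd) : List Gw → Nat
  | [] => 0
  | g :: l => Nat.add (Nat.mul (Nat.mul 2 (gB r.bF g.i)) (Nat.add (prB K h r (s2 (r.E, r.D) (dg r.dF g.i)) g.pr)
      (trB K h r (s2 (r.E, r.D) (dg r.dF g.i)) g.mm))) (grB K h r l)
noncomputable def dtB (K h : Nat) (r : Rd) : List (Nat × Pk) → Nat
  | [] => 0
  | z :: l => Nat.add (Nat.mul (bp K h r (s2 (s2 (r.E, r.D) (dg r.dM z.1)) (dg r.dM z.1)) z.2)
      (Nat.mul 4 (Nat.mul (gB r.bM z.1) (gB r.bM z.1)))) (dtB K h r l)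
/-- sum of the bounds of several polynomials -/
noncomputable def smB (K h : Nat) (r : Rd) (d : Nat × Nat) : List Pk → Nat
  | [] => 0
  | p :: l => Nat.add (bp K h r d p) (smB K h r d l)
noncomputable def w4B (K h : Nat) (r : Rd) : List (Nat × Nat × List Pk) → Nat
  | [] => 0
  | z :: l => Nat.add (Nat.mul (Nat.mul 4 (Nat.mul (gB r.bM z.1) (gB r.bM z.2.1)))
      (smB K h r (s2 (s2 (r.E, r.D) (dg r.dM z.1)) (dg r.dM z.2.1)) z.2.2)) (w4B K h r l)
noncomputable def zrB (K h : Nat) (r : Rd) : List (Nat × List Pk) → Nat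
  | [] => 0
  | z :: l => Nat.add (Nat.mul (Nat.mul 2 (gB r.bZ z.1)) (smB K h r (s2 (r.E, r.D) (dg r.dZ z.1)) z.2)) (zrB K h r l)
noncomputable def gzB (K h : Nat) (r : Rd) : List (Nat × Nat × List Pk) → Nat
  | [] => 0
  | z :: l => Nat.add (Nat.mul (gB r.bG z.1) (smB K h r (s2 (r.E, r.D) (dg r.dG z.1)) z.2.2)) (gzB K h r l)
/-- bound of the norms of the entries of `MW`; the first term bounds those of `R` -/
noncomputable def MB0 (r : Rd) (b : Bw) : Nat :=
  Nat.add (Nat.mul (Nat.mul (Nat.add r.K r.h) (Nat.mul (Nat.succ r.E) (Nat.succ r.D)))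
      (Nat.mul (Nat.pow r.νx r.E) (Nat.pow r.νy r.D)))
    (Nat.add (grB b.K b.h r b.gr) (Nat.add (dtB b.K b.h r b.dt)
      (Nat.add (w4B b.K b.h r b.w4) (zrB b.K b.h r b.zr))))
noncomputable def MB (r : Rd) (b : Bw) : Nat := Nat.add (MB0 r b) (gzB b.K b.h r b.gz)

/-! ### degrees -/

noncomputable def le2 (a b : Nat × Nat) : Bool := Nat.ble a.1 b.1 && Nat.ble a.2 b.2
/-- the degrees of `p` are at most `d` -/
noncomputable def fit (d : Nat × Nat) (p : Pk) : Bool := Nat.ble p.n d.1 && Nat.ble p.m d.2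

noncomputable def fGr (r : Rd) (g : Gw) : Bool :=
  le2 (dg r.dF g.i) (r.E, r.D) &&
  (g.pr.all fun z => le2 (dg r.dF z.1) (s2 (r.E, r.D) (dg r.dF g.i)) &&
    fit (s2 (s2 (r.E, r.D) (dg r.dF g.i)) (dg r.dF z.1)) z.2) &&
  (g.mm.all fun z => le2 (dg r.dM z.1) (s2 (r.E, r.D) (dg r.dF g.i)) &&
    fit (s2 (s2 (r.E, r.D) (dg r.dF g.i)) (dg r.dM z.1)) z.2.1 &&
    fit (s2 (s2 (r.E, r.D) (dg r.dF g.i)) (dg r.dM z.1)) z.2.2.1 &&
    fit (s2 (s2 (r.E, r.D) (dg r.dF g.i)) (dg r.dM z.1)) z.2.2.2)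
noncomputable def fDt (r : Rd) (z : Nat × Pk) : Bool :=
  le2 (dg r.dM z.1) (r.E, r.D) && le2 (dg r.dM z.1) (s2 (r.E, r.D) (dg r.dM z.1)) &&
  fit (s2 (s2 (r.E, r.D) (dg r.dM z.1)) (dg r.dM z.1)) z.2
noncomputable def fW4 (r : Rd) (z : Nat × Nat × List Pk) : Bool :=
  le2 (dg r.dM z.1) (r.E, r.D) && le2 (dg r.dM z.2.1) (s2 (r.E, r.D) (dg r.dM z.1)) &&
  (z.2.2.all (fit (s2 (s2 (r.E, r.D) (dg r.dM z.1)) (dg r.dM z.2.1)))) && Nat.beq z.2.2.length 10
noncomputable def fZr (r : Rd) (z : Nat × List Pk) : Bool :=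
  le2 (dg r.dZ z.1) (r.E, r.D) && (z.2.all (fit (s2 (r.E, r.D) (dg r.dZ z.1)))) && Nat.beq z.2.length 11
noncomputable def fGz (r : Rd) (k : Nat) (z : Nat × Nat × List Pk) : Bool :=
  le2 (dg r.dG z.1) (r.E, r.D) && (z.2.2.all (fit (s2 (r.E, r.D) (dg r.dG z.1)))) && Nat.beq z.2.2.length k

/-! ### tests -/

noncomputable def mx (a b : Nat) : Nat := Nat.add a (Nat.sub b a)
/-- maximal degrees -/
noncomputable def mxD : List Pk → Nat × Nat
  | [] => (0, 0)
  | p :: l => (mx p.n (mxD l).1, mx p.m (mxD l).2)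

section
variable (r : Rd) (X Y N of : Nat) (v : Vw Nat) (K h H : Nat)

/-- test of one group of multipliers -/
noncomputable def tst (n : Nat) (t : List (List Nat) → Bool) (l : List Pk) : Bool :=
  (fun d => (l.all fun p => Nat.ble (bp K h r d p) H) && le2 d (r.E, r.D) &&
    dgI X Y t (Nat.succ d.1) (Nat.succ d.2) (rowsM n (shiftL of N (l.map (pkv (OM N X Y) K h v d))))) (mxD l)

noncomputable def tGr (g : Gw) : Bool :=
  (g.pr.all fun z => tst r X Y N of v K h H 1 (t1 Y H) [z.2]) &&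
  (g.mm.all fun z => tst r X Y N of v K h H 2 (t2 Y H) [z.2.1, z.2.2.1, z.2.2.2])

end

/-- the test of a box with values `O` modulo `N`, `of` the offset of all digits -/
noncomputable def bchkO (r : Rd) (R : List Pk) (b : Bw) (X Y N of : Nat) (v : Vw Nat) (t : Tw Nat) : Bool :=
  (b.gr.all (tGr r X Y N of v b.K b.h (Nat.pow 2 b.hb))) &&
  (b.dt.all fun z => tst r X Y N of v b.K b.h (Nat.pow 2 b.hb) 1 (t1 Y (Nat.pow 2 b.hb)) [z.2]) &&
  (b.w4.all fun z => tst r X Y N of v b.K b.h (Nat.pow 2 b.hb) 4 (t4 Y (Nat.pow 2 b.hb)) z.2.2) &&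
  (b.gz.all fun z => Nat.ble z.2.1 b.hb && tst r X Y N of v b.K b.h (Nat.pow 2 b.hb) (cnt r.ac)
    (tPD (cnt r.ac) Y (Nat.pow 2 z.2.1) (Nat.pow 2 (Nat.sub b.hb z.2.1)) b.B) z.2.2) &&
  (fun M => (nelQ r.ac M).all (fun z => Nat.beq (Nat.mod z N) 0) &&
    dgI X Y (tPD (cnt r.ac) Y (Nat.pow 2 b.rb) (Nat.pow 2 (Nat.sub b.hb b.rb)) b.B) (Nat.succ r.E) (Nat.succ r.D)
      (rowsM (cnt r.ac) (shiftL of N (vSub (OM N X Y) (selQ r.ac M)
        (gzW (OM N X Y) b.K b.h v r t (Nat.div (Nat.mul (cnt r.ac) (Nat.succ (cnt r.ac))) 2) b.gz)))))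
    (MW (OM N X Y) r R b v t)

/-- the box is admissible for the region -/
noncomputable def bxOK (r : Rd) (b : Bw) : Bool :=
  Nat.ble 1 b.qx && Nat.ble 1 b.qy && Nat.ble (Nat.succ b.x0) b.x1 && Nat.ble (Nat.succ b.y0) b.y1 &&
  Nat.ble (Nat.add b.x0 b.x1) r.νx && Nat.ble (Nat.mul 2 b.qx) r.νx &&
  Nat.ble (Nat.add b.y0 b.y1) r.νy && Nat.ble (Nat.mul 2 b.qy) r.νy &&
  Nat.ble 1 b.K && Nat.ble b.rb b.hb &&
  b.gr.all (fGr r) && b.dt.all (fDt r) && b.w4.all (fW4 r) && b.zr.all (fZr r) &&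
  b.gz.all (fGz r (Nat.div (Nat.mul (cnt r.ac) (Nat.succ (cnt r.ac))) 2)) &&
  Nat.ble (MB r b) (Nat.pow 2 b.hb)

/-- `Y = 2^(hb+1) + 1`, `X = Y^(D+1)`, `N = Y^((E+1)(D+1))` -/
noncomputable def bchk (rg : Rgn) (r : Rd) (R : List Pk) (b : Bw) : Bool :=
  bxOK r b &&
  (fun Y => (fun N X of => (fun v => bchkO r R b X Y N of v (mkT (OM N X Y) v rg r)) (mkW (OM N X Y) b))
    (Nat.pow Y (Nat.mul (Nat.succ r.E) (Nat.succ r.D))) (Nat.pow Y (Nat.succ r.D))
    (Nat.mul (Nat.pow 2 b.hb) (reps Y (Nat.mul (Nat.succ r.E) (Nat.succ r.D)))))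
    (Nat.add (Nat.pow 2 (Nat.succ b.hb)) 1)

/-! ### test of the parameters of a region -/

noncomputable def lenP (d : Nat × Nat) (p : P) : Bool :=
  Nat.ble p.length (Nat.succ d.1) && p.all fun r => Nat.ble r.length (Nat.succ d.2)
noncomputable def okL (r : Rd) (d : Nat × Nat) (c : Nat) (l : LF) : Bool :=
  Nat.beq l.length 11 && (l.all fun p => lenP d p &&
    Nat.ble (pvI ON (tens (mkV ON r.νx r.νx d.1) (mkV ON r.νy r.νy d.2)) p) c)
noncomputable def okLs (r : Rd) : List (Nat × Nat) → List Nat → List LF → Bool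
  | [], [], [] => true
  | d :: ds, c :: cs, l :: ls => okL r d c l && okLs r ds cs ls
  | _, _, _ => false
noncomputable def okMs (r : Rd) : List (Nat × Nat) → List Nat → List MF → Bool
  | [], [], [] => true
  | d :: ds, c :: cs, l :: ls => okL r d c l.m11 && okL r d c l.m12 && okL r d c l.m22 && okMs r ds cs ls
  | _, _, _ => false
noncomputable def okGs (r : Rd) : List (Nat × Nat) → List Nat → List P → Bool
  | [], [], [] => true
  | d :: ds, c :: cs, p :: ps => lenP d p &&
    Nat.ble (pvI ON (tens (mkV ON r.νx r.νx d.1) (mkV ON r.νy r.νy d.2)) p) c && okGs r ds cs ps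
  | _, _, _ => false
noncomputable def rgOK (rg : Rgn) (r : Rd) (R : List Pk) : Bool :=
  okLs r r.dF r.bF rg.fs && okMs r r.dM r.bM rg.ms && okLs r r.dZ r.bZ rg.zs && okGs r r.dG r.bG rg.gs &&
  Nat.beq r.ac.length 11 && Nat.ble 1 r.K && Nat.beq R.length 66 && R.all (fit (r.E, r.D))

/-! ### unpacking -/

noncomputable def unR (K h m N : Nat) : List Int :=
  (List.range (m + 1)).map fun j => ((N / K ^ j % K : Nat) : Int) - h
/-- the polynomial -/
noncomputable def unp (K h : Nat) (p : Pk) : P :=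
  (List.range (p.n + 1)).map fun i => unR K h p.m (p.c / (K ^ (p.m + 1)) ^ i)

/-- the same, fast -/
noncomputable def unRf (K h m N : Nat) : List Int :=
  Nat.rec (motive := fun _ => Nat → List Int) (fun _ => [])
    (fun _ ih N => Int.subNatNat (Nat.mod N K) h :: ih (Nat.div N K)) m N
noncomputable def unpf (K h : Nat) (p : Pk) : P :=
  Nat.rec (motive := fun _ => Nat → P) (fun _ => [])
    (fun _ ih N => unRf K h (Nat.succ p.m) N :: ih (Nat.div N (Nat.pow K (Nat.succ p.m)))) (Nat.succ p.n) p.c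

/-- equality of lists of polynomials up to zeros -/
noncomputable def eqPL : List P → List P → Bool
  | [], [] => true
  | p :: ps, q :: qs => MSQ.eqP p q && eqPL ps qs
  | _, _ => false

end Pool.Agent.MCA
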