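import Pool.Agent.MCA.PDC
import Pool.Agent.PKD.RDG
/-!
PKI (130 lines). Digits.

PROOF. `dgI_sound`: inductions on `m` (`dgJ`: `t` of the rows divided by `Y^j`) and `n`; `divM Y M` divides all entries,
`v / a / b = v / (a * b)`.
`R3.dig`: as `R3.digits` (PKD/RDG, copy the private lemmas or make them public there under new names): `p` has the
coefficients `cf i j := p.coeff (single 0 i + single 1 j)`, `|cf i j| ≤ N1 p ≤ H`, `cf i j = 0` unless `i ≤ n`, `j ≤ m`.
The value of `p` at `X = Y^(D+1)`, `Y` is `Σ_{i ≤ E, j ≤ D} cf i j Y^((D+1) i + j)`, all digits of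
`a + H reps Y ((E+1) (D+1))` modulo `N` are `cf i j + H`, and `v / (X^i * Y^j) % Y` is the digit with the number
`(D+1) i + j`.
`R3.dig0`: `a % N = 0`, so all digits of `H reps` are `H`, all `cf i j = 0` and `r = 0`.
-/
set_option autoImplicit false

open Pool.Agent.MSQ Pool.Agent.PKD

namespace Pool.Agent.MCA

private theorem pki_divR (Y : ℕ) (r : List ℕ) : divR Y r = r.map fun v => v / Y := by
  induction r with
  | nil => rfl
  | cons v r ih =>
    have h : divR Y (v :: r) = Nat.div v Y :: divR Y r := rfl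
    rw [h, ih]
    rfl

private theorem pki_divM (Y : ℕ) (M : List (List ℕ)) : divM Y M = M.map (List.map fun v => v / Y) := by
  induction M with
  | nil => rfl
  | cons r M ih =>
    have h : divM Y (r :: M) = divR Y r :: divM Y M := rfl
    rw [h, ih, pki_divR]
    rfl

private theorem pki_mm (a b : ℕ) (M : List (List ℕ)) :
    (M.map (List.map fun v => v / a)).map (List.map fun v => v / b) =
      M.map (List.map fun v => v / (a * b)) := by
  rw [List.map_map]
  refine List.map_congr_left fun r _ => ?_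
  rw [Function.comp_apply, List.map_map]
  refine List.map_congr_left fun v _ => ?_
  rw [Function.comp_apply, Nat.div_div_eq_div_mul]

private theorem pki_one (M : List (List ℕ)) : M.map (List.map fun v => v / 1) = M := by
  have h : (List.map fun v : ℕ => v / 1) = id := by
    funext r
    rw [show (fun v : ℕ => v / 1) = id from funext fun v => Nat.div_one v, List.map_id]
    rfl
  rw [h, List.map_id]

private theorem pki_dgJ (Y : ℕ) (t : List (List ℕ) → Bool) (m : ℕ) : ∀ (M : List (List ℕ)),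
    dgJ Y t m M = true → ∀ j < m, t (M.map (List.map fun v => v / Y ^ j)) = true := by
  induction m with
  | zero => intro M _ j hj; exact absurd hj (Nat.not_lt_zero j)
  | succ m ih =>
    intro M h j hj
    have e : dgJ Y t (m + 1) M = Bool.rec (motive := fun _ => Bool) false (dgJ Y t m (divM Y M)) (t M) := rfl
    rw [e] at h
    cases ht : t M with
    | false => rw [ht] at h; exact absurd h Bool.false_ne_true
    | true =>
      rw [ht] at h
      have h' : dgJ Y t m (divM Y M) = true := h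
      cases j with
      | zero => rw [pow_zero, pki_one]; exact ht
      | succ j =>
        have h2 := ih (divM Y M) h' j (Nat.lt_of_succ_lt_succ hj)
        rw [pki_divM, pki_mm] at h2
        rw [pow_succ']
        exact h2

private noncomputable def pkiM (i j : ℕ) : Fin 2 →₀ ℕ := Finsupp.single 0 i + Finsupp.single 1 j

private theorem pkiM_zero (i j : ℕ) : pkiM i j 0 = i := by
  simp [pkiM]

private theorem pkiM_one (i j : ℕ) : pkiM i j 1 = j := by
  simp [pkiM]

private theorem pkiM_eq (m : Fin 2 →₀ ℕ) : pkiM (m 0) (m 1) = m := by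
  ext i
  fin_cases i
  · exact pkiM_zero _ _
  · exact pkiM_one _ _

private theorem pki_eval {R : Type} [CommRing R] {E D : ℕ} (p : MvPolynomial (Fin 2) ℤ)
    (h0 : p.degreeOf 0 ≤ E) (h1 : p.degreeOf 1 ≤ D) (x y : R) :
    MvPolynomial.aeval ![x, y] p = ∑ i ∈ Finset.range (E + 1), ∑ j ∈ Finset.range (D + 1),
      ((p.coeff (pkiM i j) : ℤ) : R) * (x ^ i * y ^ j) := by
  have e1 : MvPolynomial.aeval ![x, y] p =
      ∑ m ∈ p.support, ((p.coeff m : ℤ) : R) * (x ^ (m 0) * y ^ (m 1)) := by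
    rw [MvPolynomial.aeval_def, MvPolynomial.eval₂_eq']
    refine Finset.sum_congr rfl fun m _ => ?_
    rw [Fin.prod_univ_two]
    simp
  have e2 : ∑ i ∈ Finset.range (E + 1), ∑ j ∈ Finset.range (D + 1),
      ((p.coeff (pkiM i j) : ℤ) : R) * (x ^ i * y ^ j) =
      ∑ m ∈ (Finset.range (E + 1) ×ˢ Finset.range (D + 1)).image (fun q : ℕ × ℕ => pkiM q.1 q.2),
        ((p.coeff m : ℤ) : R) * (x ^ (m 0) * y ^ (m 1)) := by
    rw [Finset.sum_image (s := Finset.range (E + 1) ×ˢ Finset.range (D + 1))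
      (g := fun q : ℕ × ℕ => pkiM q.1 q.2) ?_, Finset.sum_product]
    · refine Finset.sum_congr rfl fun i _ => Finset.sum_congr rfl fun j _ => ?_
      rw [pkiM_zero, pkiM_one]
    · intro a _ b _ hab
      have hab' : pkiM a.1 a.2 = pkiM b.1 b.2 := hab
      have g0 := DFunLike.congr_fun hab' 0
      have g1 := DFunLike.congr_fun hab' 1
      rw [pkiM_zero, pkiM_zero] at g0
      rw [pkiM_one, pkiM_one] at g1
      exact Prod.ext g0 g1
  rw [e1, e2]
  refine Finset.sum_subset ?_ ?_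
  · intro m hm
    have hm0 : m 0 ≤ E := (MvPolynomial.monomial_le_degreeOf 0 hm).trans h0
    have hm1 : m 1 ≤ D := (MvPolynomial.monomial_le_degreeOf 1 hm).trans h1
    rw [Finset.mem_image]
    refine ⟨(m 0, m 1), ?_, pkiM_eq m⟩
    rw [Finset.mem_product, Finset.mem_range, Finset.mem_range]
    exact ⟨Nat.lt_succ_of_le hm0, Nat.lt_succ_of_le hm1⟩
  · intro m _ hm
    rw [MvPolynomial.notMem_support_iff.mp hm, Int.cast_zero, zero_mul]

private theorem pki_sum {R : Type} [AddCommMonoid R] (E D : ℕ) (f : ℕ → ℕ → R) :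
    ∑ i ∈ Finset.range E, ∑ j ∈ Finset.range (D + 1), f i j =
      ∑ k ∈ Finset.range (E * (D + 1)), f (k / (D + 1)) (k % (D + 1)) := by
  induction E with
  | zero => simp
  | succ E ih =>
    rw [Finset.sum_range_succ, ih, Nat.succ_mul,
      Finset.sum_range_add (fun k => f (k / (D + 1)) (k % (D + 1))) (E * (D + 1)) (D + 1)]
    congr 1
    refine Finset.sum_congr rfl fun j hj => ?_
    have hj' := Finset.mem_range.mp hj
    rw [Nat.mul_comm E (D + 1), Nat.mul_add_div (Nat.succ_pos D), Nat.div_eq_of_lt hj', add_zero,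
      Nat.mul_add_mod, Nat.mod_eq_of_lt hj']

private theorem pki_coeff (p : MvPolynomial (Fin 2) ℤ) (m : Fin 2 →₀ ℕ) :
    (p.coeff m).natAbs ≤ N1 p := by
  by_cases hm : m ∈ p.support
  · exact Finset.single_le_sum (f := fun m => (p.coeff m).natAbs) (fun _ _ => Nat.zero_le _) hm
  · rw [MvPolynomial.notMem_support_iff.mp hm]
    exact Nat.zero_le _

private theorem pki_lt {Y : ℕ} {e : ℕ → ℕ} (he : ∀ k, e k < Y) (n : ℕ) :
    ∑ k ∈ Finset.range n, e k * Y ^ k < Y ^ n := by
  induction n with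
  | zero => simp
  | succ n ih =>
    rw [Finset.sum_range_succ, pow_succ]
    have h1 : (e n + 1) * Y ^ n ≤ Y * Y ^ n := Nat.mul_le_mul_right _ (he n)
    nlinarith

private theorem pki_digit {Y : ℕ} {e : ℕ → ℕ} (he : ∀ k, e k < Y) {n k : ℕ} (hk : k < n) :
    (∑ i ∈ Finset.range n, e i * Y ^ i) / Y ^ k % Y = e k := by
  obtain ⟨l, rfl⟩ := Nat.exists_eq_add_of_lt hk
  have hY : 0 < Y := (Nat.zero_le _).trans_lt (he 0)
  have h1 : ∑ i ∈ Finset.range (k + l + 1), e i * Y ^ i =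
      Y ^ k * (e k + Y * ∑ i ∈ Finset.range l, e (k + (i + 1)) * Y ^ i) +
        ∑ i ∈ Finset.range k, e i * Y ^ i := by
    rw [add_assoc, Finset.sum_range_add, Finset.sum_range_succ']
    rw [Finset.mul_sum, mul_add, Finset.mul_sum]
    have h2 : ∀ i ∈ Finset.range l, e (k + (i + 1)) * Y ^ (k + (i + 1)) =
        Y ^ k * (Y * (e (k + (i + 1)) * Y ^ i)) := by
      intro i _
      rw [pow_add, pow_succ]
      ring
    rw [Finset.sum_congr rfl h2, add_zero]
    ring
  rw [h1, Nat.mul_add_div (pow_pos hY k), Nat.div_eq_of_lt (pki_lt he k), add_zero,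
    Nat.add_mul_mod_self_left, Nat.mod_eq_of_lt (he k)]

private theorem pki_dg {C : Cx} {E D a H : ℕ} (p : MvPolynomial (Fin 2) ℤ)
    (h0 : p.degreeOf 0 ≤ E) (h1 : p.degreeOf 1 ≤ D) (hc : N1 p ≤ H)
    (ha : (a : ℤ) ≡ MvPolynomial.eval ![(C.X : ℤ), (C.Y : ℤ)] p [ZMOD C.N])
    (hY : C.Y = 2 * H + 1) (hX : C.X = C.Y ^ (D + 1)) (hN : C.N = C.Y ^ ((E + 1) * (D + 1)))
    {i j : ℕ} (hi : i ≤ E) (hj : j ≤ D) :
    (((a + H * reps C.Y ((E + 1) * (D + 1))) % C.N / (C.X ^ i * C.Y ^ j) % C.Y : ℕ) : ℤ) =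
      p.coeff (pkiM i j) + H := by
  have hcf : ∀ i j, |p.coeff (pkiM i j)| ≤ H := by
    intro i j
    rw [Int.abs_eq_natAbs]
    exact_mod_cast (pki_coeff p (pkiM i j)).trans hc
  set e : ℕ → ℕ := fun k => (p.coeff (pkiM (k / (D + 1)) (k % (D + 1))) + H).toNat with he
  have hev : ∀ k, (e k : ℤ) = p.coeff (pkiM (k / (D + 1)) (k % (D + 1))) + H := by
    intro k
    rw [he]
    have := (abs_le.mp (hcf (k / (D + 1)) (k % (D + 1)))).1
    exact Int.toNat_of_nonneg (by linarith)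
  have helt : ∀ k, e k < C.Y := by
    intro k
    have h2 := (abs_le.mp (hcf (k / (D + 1)) (k % (D + 1)))).2
    have h3 := hev k
    have h4 : (C.Y : ℤ) = 2 * H + 1 := by rw [hY]; push_cast; ring
    have : (e k : ℤ) < C.Y := by rw [h3, h4]; linarith
    exact_mod_cast this
  have hmod : (a + H * reps C.Y ((E + 1) * (D + 1))) % C.N =
      ∑ i ∈ Finset.range ((E + 1) * (D + 1)), e i * C.Y ^ i := by
    rw [← Nat.mod_eq_of_lt (a := ∑ i ∈ Finset.range ((E + 1) * (D + 1)), e i * C.Y ^ i)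
      (b := C.N) (by rw [hN]; exact pki_lt helt _)]
    change Nat.ModEq _ _ _
    rw [← Int.natCast_modEq_iff]
    push_cast
    rw [reps_eq]
    push_cast
    have h5 : MvPolynomial.eval ![(C.X : ℤ), (C.Y : ℤ)] p =
        ∑ k ∈ Finset.range ((E + 1) * (D + 1)),
          p.coeff (pkiM (k / (D + 1)) (k % (D + 1))) * (C.Y : ℤ) ^ k := by
      have h6 := pki_eval p h0 h1 (C.X : ℤ) (C.Y : ℤ)
      rw [MvPolynomial.aeval_def, pki_sum] at h6
      have h7 : MvPolynomial.eval ![(C.X : ℤ), (C.Y : ℤ)] p =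
          MvPolynomial.eval₂ (algebraMap ℤ ℤ) ![(C.X : ℤ), (C.Y : ℤ)] p := rfl
      rw [h7, h6]
      refine Finset.sum_congr rfl fun k _ => ?_
      rw [hX, Int.cast_id]
      push_cast
      rw [← pow_mul, ← pow_add, Nat.div_add_mod]
    rw [h5] at ha
    have h8 : ∑ i ∈ Finset.range ((E + 1) * (D + 1)), (e i : ℤ) * (C.Y : ℤ) ^ i =
        (∑ k ∈ Finset.range ((E + 1) * (D + 1)),
          p.coeff (pkiM (k / (D + 1)) (k % (D + 1))) * (C.Y : ℤ) ^ k) +
          H * ∑ k ∈ Finset.range ((E + 1) * (D + 1)), (C.Y : ℤ) ^ k := by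
      rw [Finset.mul_sum, ← Finset.sum_add_distrib]
      refine Finset.sum_congr rfl fun k _ => ?_
      rw [hev k, add_mul]
    rw [h8]
    exact ha.add_right _
  have hk : (D + 1) * i + j < (E + 1) * (D + 1) := by
    have h2 : (D + 1) * i ≤ (D + 1) * E := Nat.mul_le_mul_left _ hi
    nlinarith
  have hp : C.X ^ i * C.Y ^ j = C.Y ^ ((D + 1) * i + j) := by
    rw [hX, ← pow_mul, ← pow_add]
  rw [hp, hmod, pki_digit helt hk, hev, Nat.mul_add_div (Nat.succ_pos D),
    Nat.div_eq_of_lt (Nat.lt_succ_of_le hj), add_zero, Nat.mul_add_mod,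
    Nat.mod_eq_of_lt (Nat.lt_succ_of_le hj)]

theorem dgI_sound (X Y : ℕ) (t : List (List ℕ) → Bool) (n m : ℕ) (M : List (List ℕ))
    (h : dgI X Y t n m M = true) (i j : ℕ) (hi : i < n) (hj : j < m) :
    t (M.map (List.map fun v => v / (X ^ i * Y ^ j))) = true := by
  induction n generalizing M i with
  | zero => exact absurd hi (Nat.not_lt_zero i)
  | succ n ih =>
    have e : dgI X Y t (n + 1) m M =
        Bool.rec (motive := fun _ => Bool) false (dgI X Y t n m (divM X M)) (dgJ Y t m M) := rfl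
    rw [e] at h
    cases ht : dgJ Y t m M with
    | false => rw [ht] at h; exact absurd h Bool.false_ne_true
    | true =>
      rw [ht] at h
      have h' : dgI X Y t n m (divM X M) = true := h
      cases i with
      | zero => rw [pow_zero, one_mul]; exact pki_dgJ Y t m M ht j hj
      | succ i =>
        have h2 := ih (divM X M) h' i (Nat.lt_of_succ_lt_succ hi)
        rw [pki_divM, pki_mm] at h2
        rw [pow_succ', mul_assoc]
        exact h2

theorem R3.dig {C : Cx} {n m E D a c H : ℕ} {r : ℝ} (hr : R3 C n m a r c) (hc : c ≤ H) (hn : n ≤ E) (hm : m ≤ D)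
    (hY : C.Y = 2 * H + 1) (hX : C.X = C.Y ^ (D + 1)) (hN : C.N = C.Y ^ ((E + 1) * (D + 1))) :
    ∃ cf : ℕ → ℕ → ℤ, (∀ i ≤ n, ∀ j ≤ m,
      (((a + H * reps C.Y ((E + 1) * (D + 1))) % C.N / (C.X ^ i * C.Y ^ j) % C.Y : ℕ) : ℤ) = cf i j + H) ∧
      r = ∑ i ∈ Finset.range (n + 1), ∑ j ∈ Finset.range (m + 1), (cf i j : ℝ) * (C.τ ^ i * C.σ ^ j) := by
  obtain ⟨p, h0, h1, hp, ha, hr⟩ := hr
  refine ⟨fun i j => p.coeff (pkiM i j), ?_, ?_⟩
  · intro i hi j hj
    exact pki_dg p (h0.trans hn) (h1.trans hm) (hp.trans hc) ha hY hX hN (hi.trans hn) (hj.trans hm)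
  · rw [hr, pki_eval p h0 h1]

theorem R3.dig0 {C : Cx} {n m E D a c H : ℕ} {r : ℝ} (hr : R3 C n m a r c) (hc : c ≤ H) (hn : n ≤ E) (hm : m ≤ D)
    (hY : C.Y = 2 * H + 1) (hX : C.X = C.Y ^ (D + 1)) (hN : C.N = C.Y ^ ((E + 1) * (D + 1)))
    (h0 : a % C.N = 0) : r = 0 := by
  obtain ⟨p, g0, g1, hp, ha, hr⟩ := hr
  have hz : ((0 : ℕ) : ℤ) ≡ MvPolynomial.eval ![(C.X : ℤ), (C.Y : ℤ)] p [ZMOD C.N] := by
    refine Int.ModEq.trans ?_ ha
    rw [Int.natCast_modEq_iff]
    change 0 % C.N = a % C.N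
    rw [h0, Nat.zero_mod]
  have hY0 : 0 < C.Y := by rw [hY]; exact Nat.succ_pos _
  have hHY : ∀ _ : ℕ, H < C.Y := fun _ => by rw [hY]; omega
  have h2 : ∀ i ≤ n, ∀ j ≤ m, p.coeff (pkiM i j) = 0 := by
    intro i hi j hj
    have h3 := pki_dg p (g0.trans hn) (g1.trans hm) (hp.trans hc) hz hY hX hN (hi.trans hn) (hj.trans hm)
    have hk : (D + 1) * i + j < (E + 1) * (D + 1) := by
      have h2 : (D + 1) * i ≤ (D + 1) * E := Nat.mul_le_mul_left _ (hi.trans hn)
      have h4 : j ≤ D := hj.trans hm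
      nlinarith
    have hq : C.X ^ i * C.Y ^ j = C.Y ^ ((D + 1) * i + j) := by
      rw [hX, ← pow_mul, ← pow_add]
    have hs : H * reps C.Y ((E + 1) * (D + 1)) =
        ∑ k ∈ Finset.range ((E + 1) * (D + 1)), (fun _ : ℕ => H) k * C.Y ^ k := by
      rw [reps_eq, Finset.mul_sum]
    have hl : ∑ k ∈ Finset.range ((E + 1) * (D + 1)), (fun _ : ℕ => H) k * C.Y ^ k < C.N := by
      rw [hN]
      exact pki_lt hHY _
    have hd := pki_digit (e := fun _ : ℕ => H) hHY hk
    rw [hq, zero_add, hs, Nat.mod_eq_of_lt hl, hd] at h3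
    linarith
  rw [hr, pki_eval p g0 g1]
  refine Finset.sum_eq_zero fun i hi => Finset.sum_eq_zero fun j hj => ?_
  rw [h2 i (Nat.le_of_lt_succ (Finset.mem_range.mp hi)) j (Nat.le_of_lt_succ (Finset.mem_range.mp hj)),
    Int.cast_zero, zero_mul]

end Pool.Agent.MCA
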