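import Pool.Agent.MCA.PKS
import Pool.Agent.MSQ.PsdS
/-!
PKT (150 lines). Soundness of the tests of the lowest digits.

PROOF. `tPD`: `c0 = (n + 1) (B² + n)`, `h = 2 H + (n + c0)`. `rdR`: with `f = (v % Y) / rd` the diagonal entries are
`2 f + c0 = h + (2 (f - H) - n)`, the others `f + H + n + c0 = h + (f - H)`. `pdR_sound` (all entries are at least `c0`)
gives `0 ≤ qr` of the matrix with the entries `2 (f_ii - H) - n`, `f_ij - H`. `v % Y - rd H = rd (f - H) + ρ`,
`0 ≤ ρ < rd`. Hence `2 q(s) / rd ≥ qr + n Σ s_i² + 2 Σ_{i<j} (ρ_ij / rd) s_i s_j ≥ qr` (`|2 s_i s_j| ≤ s_i² + s_j²`,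
every `i` occurs `n - 1` times). See `psu_qf`, `psT_sound` in PKD/PSU for the same argument.
`t1`: trivial. `t2`: `a' = a - H ≥ 0`, `c' ≥ 0`, `b'² ≤ a' c'` (from the inequality of natural numbers), then
`0 ≤ a' p² + 2 b' p q + c' q²`. `t4`: `MSQ.psd_sound` with `s = [p, q, u, v]`; `Int.subNatNat a b = a - b`.
-/
set_option autoImplicit false

open Pool.Agent.MSQ Pool.Agent.PKD

namespace Pool.Agent.MCA

private def pktC (Y rd H v : ℕ) : ℝ := ((v % Y : ℕ) : ℝ) - rd * H
private def pktM (Y rd H v : ℕ) : ℤ := ((v % Y / rd : ℕ) : ℤ) - H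
private def pktR (Y rd H e : ℕ) : List ℕ → List ℤ
  | [] => []
  | v :: t => (2 * pktM Y rd H v - e) :: t.map (pktM Y rd H)
private def pktS : List ℝ → ℝ
  | [] => 0
  | x :: v => x ^ 2 + pktS v

private theorem pkt_dot (Y rd H : ℕ) (hrd : 1 ≤ rd) (x : ℝ) : ∀ (t : List ℕ) (v : List ℝ), v.length = t.length →
    rd * x * dotL ((t.map (pktM Y rd H)).map fun z : ℤ => (z : ℝ)) v - (rd : ℝ) / 2 * (t.length * x ^ 2 + pktS v) ≤
      x * dotL (t.map (pktC Y rd H)) v := by
  intro t
  induction t with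
  | nil =>
    intro v hv
    have : v = [] := List.length_eq_zero_iff.1 (by simpa using hv)
    subst this
    simp [dotL, pktS]
  | cons u t ih =>
    intro v hv
    cases v with
    | nil => simp at hv
    | cons y v =>
      have h1 := ih v (by simpa using hv)
      have hrd' : (0 : ℝ) < rd := by exact_mod_cast hrd
      have e1 : ((u % Y : ℕ) : ℝ) = rd * ((u % Y / rd : ℕ) : ℝ) + ((u % Y % rd : ℕ) : ℝ) := by
        exact_mod_cast (Nat.div_add_mod (u % Y) rd).symm
      have h2 : ((u % Y % rd : ℕ) : ℝ) ≤ rd := by exact_mod_cast (Nat.mod_lt _ hrd).le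
      have h3 : (0 : ℝ) ≤ ((u % Y % rd : ℕ) : ℝ) := Nat.cast_nonneg _
      simp only [List.map_cons, dotL, pktS, List.length_cons]
      have h4 : rd * x * (((pktM Y rd H u : ℤ) : ℝ) * y) - (rd : ℝ) / 2 * (x ^ 2 + y ^ 2) ≤
          x * (pktC Y rd H u * y) := by
        rw [pktC, pktM, e1]
        generalize u % Y / rd = a' at *
        rw [Int.cast_sub, Int.cast_natCast, Int.cast_natCast]
        set a : ℝ := (a' : ℝ)
        set b : ℝ := ((u % Y % rd : ℕ) : ℝ)
        have h5 : -((rd : ℝ) / 2 * (x ^ 2 + y ^ 2)) ≤ b * (x * y) := by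
          nlinarith [mul_nonneg h3 (sq_nonneg (x + y)), mul_nonneg (sub_nonneg.2 h2) (add_nonneg (sq_nonneg x) (sq_nonneg y))]
        have h6 : x * ((rd * a + b - rd * H) * y) = rd * x * ((a - H) * y) + b * (x * y) := by ring
        linarith
      push_cast
      nlinarith [h1, h4]

private theorem pkt_qf (Y rd H e : ℕ) (hrd : 1 ≤ rd) (n : ℕ) : ∀ (M : List (List ℕ)) (s : List ℝ), isTN n M →
    s.length = n → (rd : ℝ) / 2 * (qr (M.map (pktR Y rd H e)) s + e * pktS s) - (rd : ℝ) / 2 * ((n : ℝ) - 1) * pktS s ≤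
      qf (M.flatten.map (pktC Y rd H)) s := by
  induction n with
  | zero =>
    intro M s hM hs
    change M = [] at hM
    subst hM
    have : s = [] := List.length_eq_zero_iff.1 hs
    subst this
    simp [qr, qf, pktS]
  | succ n ih =>
    intro M s hM hs
    obtain ⟨r, t, h1, h2, h3⟩ := hM
    subst h1
    cases r with
    | nil => simp at h2
    | cons v r =>
      cases s with
      | nil => simp at hs
      | cons x s =>
        have hr : r.length = n := by simpa using h2
        have hs' : s.length = n := by simpa using hs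
        have h4 := ih t s h3 hs'
        have e1 : ((v :: r) :: t).flatten.map (pktC Y rd H) =
            (pktC Y rd H v :: r.map (pktC Y rd H)) ++ t.flatten.map (pktC Y rd H) := by
          simp
        have e2 : (pktC Y rd H v :: r.map (pktC Y rd H)).length = s.length + 1 := by
          simp [hr, hs']
        rw [e1, qf, List.take_left' e2, List.drop_left' e2, dotL]
        have h5 := pkt_dot Y rd H hrd x r s (by rw [hs', hr])
        have e3 : qr (((v :: r) :: t).map (pktR Y rd H e)) (x :: s) =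
            ((2 * pktM Y rd H v - e : ℤ) : ℝ) * x ^ 2 +
              2 * x * dotL ((r.map (pktM Y rd H)).map fun z : ℤ => (z : ℝ)) s +
              qr (t.map (pktR Y rd H e)) s := by
          rw [List.map_cons, pktR, qr]
          have e5 : ∀ L : List ℤ, List.map (fun z : ℝ => z) (do let a ← L; pure (a : ℝ)) =
              L.map fun z : ℤ => (z : ℝ) := by
            intro L
            induction L with
            | nil => rfl
            | cons a L ih => simpa using ih
          rw [e5]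
        rw [e3, pktS]
        have hrd' : (0 : ℝ) < rd := by exact_mod_cast hrd
        have e4 : ((v % Y : ℕ) : ℝ) = rd * ((v % Y / rd : ℕ) : ℝ) + ((v % Y % rd : ℕ) : ℝ) := by
          exact_mod_cast (Nat.div_add_mod (v % Y) rd).symm
        have h6 : (0 : ℝ) ≤ ((v % Y % rd : ℕ) : ℝ) := Nat.cast_nonneg _
        have h7 : rd * ((pktM Y rd H v : ℤ) : ℝ) * x ^ 2 ≤ x * (pktC Y rd H v * x) := by
          rw [pktC, pktM, e4, Int.cast_sub, Int.cast_natCast, Int.cast_natCast]
          nlinarith [mul_nonneg h6 (sq_nonneg x)]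
        rw [hr] at h5
        push_cast
        nlinarith [h4, h5, h7]


private theorem pkt_rdL (Y rd c : ℕ) (r : List ℕ) : rdL Y rd c r = r.map fun v => v % Y / rd + c := by
  induction r with
  | nil => rfl
  | cons v r ih =>
    change (v % Y / rd + c) :: rdL Y rd c r = _
    rw [ih]; rfl

private theorem pkt_rdR (Y rd H n c0 : ℕ) (M : List (List ℕ)) (h : ℕ) (hh : h = 2 * H + (n + c0)) (k : ℕ) :
    isTN k M → (rdR Y rd (H + (n + c0)) c0 M).map (List.map fun z : ℕ => (z : ℤ) - h) = M.map (pktR Y rd H n) := by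
  induction M generalizing k with
  | nil => intro _; rfl
  | cons r M ih =>
    intro hM
    cases k with
    | zero => exact absurd hM (by simp [isTN])
    | succ k =>
      obtain ⟨r', t, h1, h2, h3⟩ := hM
      rw [List.cons.injEq] at h1
      obtain ⟨rfl, rfl⟩ := h1
      cases r with
      | nil => simp at h2
      | cons v r =>
        have e1 : rdR Y rd (H + (n + c0)) c0 ((v :: r) :: M) =
          ((2 * (v % Y / rd) + c0) :: rdL Y rd (H + (n + c0)) r) :: rdR Y rd (H + (n + c0)) c0 M := rfl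
        rw [e1, List.map_cons, List.map_cons, ih k h3, List.map_cons, pkt_rdL, List.map_map, pktR]
        congr 1
        congr 1
        · rw [hh, pktM]
          push_cast
          ring
        · apply List.map_congr_left
          intro z _
          rw [Function.comp_apply, hh, pktM]
          push_cast
          ring

private theorem pkt_isTN (Y rd c c0 : ℕ) (n : ℕ) : ∀ M : List (List ℕ), isTN n M → isTN n (rdR Y rd c c0 M) := by
  induction n with
  | zero => intro M hM; change M = [] at hM; subst hM; rfl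
  | succ n ih =>
    intro M hM
    obtain ⟨r, t, h1, h2, h3⟩ := hM
    subst h1
    cases r with
    | nil => simp at h2
    | cons v r =>
      refine ⟨(2 * (v % Y / rd) + c0) :: rdL Y rd c r, rdR Y rd c c0 t, rfl, ?_, ih t h3⟩
      rw [pkt_rdL]
      simpa using h2

private theorem pkt_low (Y rd c c0 : ℕ) (hc : c0 ≤ c) (n : ℕ) : ∀ M : List (List ℕ), isTN n M →
    ∀ r ∈ rdR Y rd c c0 M, ∀ v ∈ r, c0 ≤ v := by
  induction n with
  | zero =>
    intro M hM
    change M = [] at hM
    subst hM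
    intro r hr
    exact absurd hr (by simp [rdR])
  | succ n ih =>
    intro M hM
    obtain ⟨r, t, h1, h2, h3⟩ := hM
    subst h1
    cases r with
    | nil => simp at h2
    | cons v r =>
      have e1 : rdR Y rd c c0 ((v :: r) :: t) =
          ((2 * (v % Y / rd) + c0) :: rdL Y rd c r) :: rdR Y rd c c0 t := rfl
      rw [e1]
      intro q hq
      rcases List.mem_cons.1 hq with rfl | hq
      · intro z hz
        rcases List.mem_cons.1 hz with rfl | hz
        · omega
        · rw [pkt_rdL] at hz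
          obtain ⟨u, _, rfl⟩ := List.mem_map.1 hz
          generalize u % Y / rd = f
          omega
      · exact ih t h3 q hq

private theorem pkt_S_nonneg : ∀ v : List ℝ, 0 ≤ pktS v
  | [] => le_refl _
  | _ :: v => add_nonneg (sq_nonneg _) (pkt_S_nonneg v)

theorem tPD_sound (n Y rd H B : ℕ) (hrd : 1 ≤ rd) (hY : 1 ≤ Y) (M : List (List ℕ)) (hM : isTN n M)
    (h : tPD n Y rd H B M = true) (s : List ℝ) (hs : s.length = n) :
    0 ≤ qf (M.flatten.map fun v => ((v % Y : ℕ) : ℝ) - rd * H) s := by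
  set c0 : ℕ := (n + 1) * (B * B + n) with hc0
  set hh : ℕ := 2 * H + (n + c0) with hhh
  have h1 : pdR hh (hh + 1) (hh - B) (hh + B) n (rdR Y rd (H + (n + c0)) c0 M) = true := h
  have hBB : B ≤ B * B := by
    rcases Nat.eq_zero_or_pos B with hb | hb
    · subst hb; simp
    · exact Nat.le_mul_of_pos_left B hb
  have hB : B ≤ hh := by
    have h2 : B * B ≤ c0 := by
      rw [hc0]
      nlinarith [Nat.zero_le n, Nat.zero_le (B * B)]
    omega
  have h3 := pdR_sound hh B hB n (rdR Y rd (H + (n + c0)) c0 M) (pkt_isTN Y rd _ c0 n M hM)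
    (pkt_low Y rd _ c0 (by omega) n M hM) h1 s hs
  rw [pkt_rdR Y rd H n c0 M hh hhh n hM] at h3
  have h4 := pkt_qf Y rd H n hrd n M s hM hs
  have h5 := pkt_S_nonneg s
  have hrd' : (0 : ℝ) < rd := by exact_mod_cast hrd
  have h6 : (rd : ℝ) / 2 * (qr (M.map (pktR Y rd H n)) s + n * pktS s) - (rd : ℝ) / 2 * ((n : ℝ) - 1) * pktS s =
      (rd : ℝ) / 2 * (qr (M.map (pktR Y rd H n)) s + pktS s) := by ring
  rw [h6] at h4
  have h7 : 0 ≤ (rd : ℝ) / 2 * (qr (M.map (pktR Y rd H n)) s + pktS s) := by positivity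
  exact h7.trans h4

theorem t1_sound (Y H a : ℕ) (h : t1 Y H [[a]] = true) : (0 : ℝ) ≤ ((a % Y : ℕ) : ℝ) - H := by
  have h1 : H ≤ a % Y := Nat.le_of_ble_eq_true h
  have h2 : (H : ℝ) ≤ ((a % Y : ℕ) : ℝ) := by exact_mod_cast h1
  linarith

private theorem pkt_two (a b c p q : ℝ) (ha : 0 ≤ a) (hc : 0 ≤ c) (hb : b ^ 2 ≤ a * c) :
    0 ≤ a * p ^ 2 + 2 * b * (p * q) + c * q ^ 2 := by
  rcases eq_or_lt_of_le ha with h | h
  · have h1 : b = 0 := by
      rw [← h, zero_mul] at hb
      exact pow_eq_zero_iff (two_ne_zero) |>.1 (le_antisymm hb (sq_nonneg b))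
    rw [← h, h1]
    have := mul_nonneg hc (sq_nonneg q)
    linarith
  · have h1 : 0 ≤ a * (a * p ^ 2 + 2 * b * (p * q) + c * q ^ 2) := by
      nlinarith [sq_nonneg (a * p + b * q), mul_nonneg (sub_nonneg.2 hb) (sq_nonneg q)]
    exact nonneg_of_mul_nonneg_right h1 h

theorem t2_sound (Y H a b c : ℕ) (h : t2 Y H [[a, b], [c]] = true) (p q : ℝ) :
    0 ≤ (((a % Y : ℕ) : ℝ) - H) * p ^ 2 + 2 * (((b % Y : ℕ) : ℝ) - H) * (p * q) + (((c % Y : ℕ) : ℝ) - H) * q ^ 2 := by
  have h0 : t2d H (a % Y) (b % Y) (c % Y) = true := h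
  unfold t2d at h0
  rw [Bool.and_eq_true, Bool.and_eq_true] at h0
  obtain ⟨h1, h2, h3⟩ := h0
  have h4 : H ≤ a % Y := Nat.le_of_ble_eq_true h1
  have h5 : H ≤ c % Y := Nat.le_of_ble_eq_true h2
  have h6 : (b % Y) * (b % Y) + H * H ≤ 2 * (b % Y) * H + (a % Y - H) * (c % Y - H) := Nat.le_of_ble_eq_true h3
  generalize a % Y = a' at *
  generalize b % Y = b' at *
  generalize c % Y = c' at *
  have h7 : ((b' : ℝ) * b' + H * H) ≤ 2 * b' * H + ((a' : ℝ) - H) * ((c' : ℝ) - H) := by
    have h8 : (((b' * b' + H * H : ℕ) : ℕ) : ℝ) ≤ ((2 * b' * H + (a' - H) * (c' - H) : ℕ) : ℝ) := by exact_mod_cast h6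
    push_cast [Nat.cast_sub h4, Nat.cast_sub h5] at h8
    exact h8
  have h9 : (H : ℝ) ≤ a' := by exact_mod_cast h4
  have h10 : (H : ℝ) ≤ c' := by exact_mod_cast h5
  exact pkt_two _ _ _ p q (by linarith) (by linarith) (by nlinarith)

theorem t4_sound (Y H g0 g1 g2 g3 g4 g5 g6 g7 g8 g9 : ℕ)
    (h : t4 Y H [[g0, g1, g2, g3], [g4, g5, g6], [g7, g8], [g9]] = true) (p q u v : ℝ) :
    0 ≤ (((g0 % Y : ℕ) : ℝ) - H) * p ^ 2 + 2 * (((g1 % Y : ℕ) : ℝ) - H) * (p * q) +
      2 * (((g2 % Y : ℕ) : ℝ) - H) * (p * u) + 2 * (((g3 % Y : ℕ) : ℝ) - H) * (p * v) +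
      (((g4 % Y : ℕ) : ℝ) - H) * q ^ 2 + 2 * (((g5 % Y : ℕ) : ℝ) - H) * (q * u) +
      2 * (((g6 % Y : ℕ) : ℝ) - H) * (q * v) + (((g7 % Y : ℕ) : ℝ) - H) * u ^ 2 +
      2 * (((g8 % Y : ℕ) : ℝ) - H) * (u * v) + (((g9 % Y : ℕ) : ℝ) - H) * v ^ 2 := by
  have h0 := MSQ.psd_sound 4 _ h [p, q, u, v] rfl
  have hs : ∀ z : ℕ, Int.subNatNat (Nat.mod z Y) H = ((z % Y : ℕ) : ℤ) - H := fun z => Int.subNatNat_eq_coe
  simp only [hs, List.map_cons, List.map_nil, qf, List.length_cons, List.length_nil, List.take_succ_cons,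
    List.take_zero, List.drop_succ_cons, List.drop_zero, dotL, zero_add] at h0
  simp only [Int.cast_sub, Int.cast_mul, Int.cast_natCast, Int.cast_ofNat] at h0
  refine h0.trans (le_of_eq ?_)
  ring

end Pool.Agent.MCA
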