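import Pool.Agent.MCA.PKE
import Pool.Agent.MCA.PKI
import Pool.Agent.MCA.PKT
/-!
PKD2 (150 lines). From the tests of all digits to inequalities of the real values.

PROOF. All four positivity statements: by `R3.dig` every real value is `Σ_ij (digit - H) τ^i σ^j` with the digits of
`(a + of) % N`, `of = H reps ..`; `shiftL` maps `v ↦ (v + of) % N` (prove it as in PKD/PSM, `PSM_shift`), `rowsM`
arranges the list in rows with `flatten = list` (PSM_rows), `dgI_sound` gives the test for every `(i, j)`,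
`t1_sound`, ... the inequality for the digits, multiply by `τ^i σ^j ≥ 0` and sum (for `qf` use the linearity lemmas
`PSM_linQ`, `PSM_linD` of PKD/PSM: copy them).
-/
set_option autoImplicit false

open Pool.Agent.MSQ Pool.Agent.MTR Pool.Agent.PKD

namespace Pool.Agent.MCA

/-- the hypotheses on the context -/
structure CxOK (C : Cx) (E D H : ℕ) : Prop where
  Y : C.Y = 2 * H + 1
  X : C.X = C.Y ^ (D + 1)
  N : C.N = C.Y ^ ((E + 1) * (D + 1))
  τ : 0 ≤ C.τ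
  σ : 0 ≤ C.σ


/-! ### values of the digits -/

private def pkd2_w (C : Cx) (k : ℕ × ℕ) : ℝ := C.τ ^ k.1 * C.σ ^ k.2

private def pkd2_g (C : Cx) (H : ℕ) (k : ℕ × ℕ) (v : ℕ) : ℝ := ((v / (C.X ^ k.1 * C.Y ^ k.2) % C.Y : ℕ) : ℝ) - H

private def pkd2_S (n m : ℕ) : Finset (ℕ × ℕ) := Finset.range (n + 1) ×ˢ Finset.range (m + 1)

private lemma pkd2_w_nonneg {C : Cx} {E D H : ℕ} (hC : CxOK C E D H) (k : ℕ × ℕ) : 0 ≤ pkd2_w C k :=
  mul_nonneg (pow_nonneg hC.τ _) (pow_nonneg hC.σ _)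

private lemma pkd2_val {C : Cx} {E D H n m c a : ℕ} {r : ℝ} (hC : CxOK C E D H) (hr : R3 C n m a r c) (hc : c ≤ H)
    (hn : n ≤ E) (hm : m ≤ D) :
    r = ∑ k ∈ pkd2_S n m, pkd2_w C k * pkd2_g C H k ((a + H * reps C.Y ((E + 1) * (D + 1))) % C.N) := by
  obtain ⟨cf, hcf, hr'⟩ := Pool.Agent.MCA.R3.dig hr hc hn hm hC.Y hC.X hC.N
  rw [hr', pkd2_S, Finset.sum_product]
  apply Finset.sum_congr rfl
  intro i hi
  apply Finset.sum_congr rfl
  intro j hj
  have h1 := hcf i (Nat.lt_succ_iff.1 (Finset.mem_range.1 hi)) j (Nat.lt_succ_iff.1 (Finset.mem_range.1 hj))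
  have h2 : (((a + H * reps C.Y ((E + 1) * (D + 1))) % C.N / (C.X ^ i * C.Y ^ j) % C.Y : ℕ) : ℝ) = (cf i j : ℝ) + H := by
    have h3 : ((((a + H * reps C.Y ((E + 1) * (D + 1))) % C.N / (C.X ^ i * C.Y ^ j) % C.Y : ℕ) : ℤ) : ℝ) =
        ((cf i j + (H : ℤ) : ℤ) : ℝ) := by rw [h1]
    push_cast at h3 ⊢
    exact h3
  simp only [pkd2_w, pkd2_g]
  rw [h2]
  ring

private lemma pkd2_shift (off N : ℕ) (l : List ℕ) : shiftL off N l = l.map fun v => (v + off) % N := by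
  induction l with
  | nil => rfl
  | cons a l ih =>
    have h1 : shiftL off N (a :: l) = (a + off) % N :: shiftL off N l := rfl
    rw [h1, ih]
    rfl

private lemma pkd2_map {C : Cx} {E D H n m c : ℕ} {A : List ℕ} {F : List ℝ} (hC : CxOK C E D H)
    (hr : C3 C n m c A F) (hc : c ≤ H) (hn : n ≤ E) (hm : m ≤ D) :
    F = (shiftL (H * reps C.Y ((E + 1) * (D + 1))) C.N A).map
      fun v => ∑ k ∈ pkd2_S n m, pkd2_w C k * pkd2_g C H k v := by
  rw [pkd2_shift]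
  have hr' : List.Forall₂ (fun a r => R3 C n m a r c) A F := hr
  clear hr
  induction hr' with
  | nil => rfl
  | @cons a r A F h1 _ ih =>
    rw [List.map_cons, List.map_cons, ← ih]
    congr 1
    exact pkd2_val hC h1 hc hn hm

private lemma pkd2_rows (n : ℕ) : ∀ l : List ℕ, l.length = n * (n + 1) / 2 →
    isTN n (rowsM n l) ∧ (rowsM n l).flatten = l := by
  induction n with
  | zero =>
    intro l hl
    have h0 : l = [] := List.length_eq_zero_iff.1 (by simpa using hl)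
    subst h0
    exact ⟨rfl, rfl⟩
  | succ n ih =>
    intro l hl
    have h1 : (n + 1) * (n + 1 + 1) / 2 = n * (n + 1) / 2 + (n + 1) := by
      have h2 : (n + 1) * (n + 1 + 1) = n * (n + 1) + (n + 1) * 2 := by ring
      rw [h2, Nat.add_mul_div_right _ _ (by norm_num)]
    rw [h1] at hl
    have h3 := ih (l.drop (n + 1)) (by rw [List.length_drop, hl]; omega)
    have h4 : rowsM (n + 1) l = l.take (n + 1) :: rowsM n (l.drop (n + 1)) := rfl
    rw [h4]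
    refine ⟨⟨_, _, rfl, ?_, h3.1⟩, ?_⟩
    · rw [List.length_take, hl]
      omega
    · rw [List.flatten_cons, h3.2, List.take_append_drop]

private lemma pkd2_isTN_map (f : ℕ → ℕ) (n : ℕ) : ∀ M : List (List ℕ), isTN n M →
    isTN n (M.map (List.map f)) := by
  induction n with
  | zero => intro M hM; change M = [] at hM; subst hM; rfl
  | succ n ih =>
    intro M hM
    obtain ⟨r, t, h1, h2, h3⟩ := hM
    exact ⟨r.map f, t.map (List.map f), by rw [h1]; rfl, by rw [List.length_map, h2], ih t h3⟩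

private lemma pkd2_linD {ι κ : Type} (S : Finset κ) (c : κ → ℝ) (F : κ → ι → ℝ) : ∀ (l : List ι) (s : List ℝ),
    dotL (l.map fun x => ∑ k ∈ S, c k * F k x) s = ∑ k ∈ S, c k * dotL (l.map (F k)) s
  | [], s => by simp [dotL]
  | _ :: _, [] => by simp [dotL]
  | x :: l, y :: s => by
    simp only [List.map_cons, dotL]
    rw [pkd2_linD S c F l s, Finset.sum_mul, ← Finset.sum_add_distrib]
    apply Finset.sum_congr rfl
    intro k _
    ring

private lemma pkd2_linQ {ι κ : Type} (S : Finset κ) (c : κ → ℝ) (F : κ → ι → ℝ) : ∀ (s : List ℝ) (l : List ι),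
    qf (l.map fun x => ∑ k ∈ S, c k * F k x) s = ∑ k ∈ S, c k * qf (l.map (F k)) s
  | [], l => by simp [qf]
  | y :: s, l => by
    simp only [qf, ← List.map_take, ← List.map_drop]
    rw [pkd2_linQ S c F s, pkd2_linD, Finset.mul_sum, ← Finset.sum_add_distrib]
    apply Finset.sum_congr rfl
    intro k _
    ring

private lemma pkd2_mem {n m : ℕ} {k : ℕ × ℕ} (hk : k ∈ pkd2_S n m) : k.1 < n + 1 ∧ k.2 < m + 1 := by
  rw [pkd2_S, Finset.mem_product, Finset.mem_range, Finset.mem_range] at hk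
  exact hk

theorem pos_1 {C : Cx} {E D H n m c a : ℕ} {r : ℝ} (hC : CxOK C E D H) (hr : R3 C n m a r c) (hc : c ≤ H) (hn : n ≤ E)
    (hm : m ≤ D) (h : dgI C.X C.Y (t1 C.Y H) (n + 1) (m + 1)
      (rowsM 1 (shiftL (H * reps C.Y ((E + 1) * (D + 1))) C.N [a])) = true) : 0 ≤ r := by
  rw [pkd2_val hC hr hc hn hm]
  apply Finset.sum_nonneg
  intro k hk
  refine mul_nonneg (pkd2_w_nonneg hC k) ?_
  have hk' := pkd2_mem hk
  have h1 := dgI_sound _ _ _ _ _ _ h k.1 k.2 hk'.1 hk'.2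
  exact t1_sound C.Y H ((a + H * reps C.Y ((E + 1) * (D + 1))) % C.N / (C.X ^ k.1 * C.Y ^ k.2)) h1

theorem pos_2 {C : Cx} {E D H n m c : ℕ} {A : List ℕ} {F : List ℝ} (hC : CxOK C E D H) (hr : C3 C n m c A F)
    (hA : A.length = 3) (hc : c ≤ H) (hn : n ≤ E) (hm : m ≤ D) (h : dgI C.X C.Y (t2 C.Y H) (n + 1) (m + 1)
      (rowsM 2 (shiftL (H * reps C.Y ((E + 1) * (D + 1))) C.N A)) = true) : psd2 F := by
  have hF := pkd2_map hC hr hc hn hm
  obtain ⟨a1, a2, a3, rfl⟩ := List.length_eq_three.1 hA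
  rw [hF]
  intro p q
  have h0 : ∀ k ∈ pkd2_S n m, 0 ≤ pkd2_w C k * (
      pkd2_g C H k ((a1 + H * reps C.Y ((E + 1) * (D + 1))) % C.N) * p ^ 2 +
      2 * pkd2_g C H k ((a2 + H * reps C.Y ((E + 1) * (D + 1))) % C.N) * (p * q) +
      pkd2_g C H k ((a3 + H * reps C.Y ((E + 1) * (D + 1))) % C.N) * q ^ 2) := by
    intro k hk
    refine mul_nonneg (pkd2_w_nonneg hC k) ?_
    have hk' := pkd2_mem hk
    have h1 := dgI_sound _ _ _ _ _ _ h k.1 k.2 hk'.1 hk'.2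
    exact t2_sound C.Y H _ _ _ h1 p q
  have h2 := Finset.sum_nonneg h0
  refine h2.trans (le_of_eq ?_)
  show _ = (∑ k ∈ pkd2_S n m, pkd2_w C k * pkd2_g C H k ((a1 + H * reps C.Y ((E + 1) * (D + 1))) % C.N)) * p ^ 2 +
      2 * (∑ k ∈ pkd2_S n m, pkd2_w C k * pkd2_g C H k ((a2 + H * reps C.Y ((E + 1) * (D + 1))) % C.N)) * (p * q) +
      (∑ k ∈ pkd2_S n m, pkd2_w C k * pkd2_g C H k ((a3 + H * reps C.Y ((E + 1) * (D + 1))) % C.N)) * q ^ 2
  simp only [Finset.mul_sum, Finset.sum_mul, ← Finset.sum_add_distrib]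
  apply Finset.sum_congr rfl
  intro k _
  ring

theorem pos_4 {C : Cx} {E D H n m c : ℕ} {A : List ℕ} {F : List ℝ} (hC : CxOK C E D H) (hr : C3 C n m c A F)
    (hA : A.length = 10) (hc : c ≤ H) (hn : n ≤ E) (hm : m ≤ D) (h : dgI C.X C.Y (t4 C.Y H) (n + 1) (m + 1)
      (rowsM 4 (shiftL (H * reps C.Y ((E + 1) * (D + 1))) C.N A)) = true) : psd4 F := by
  have hF := pkd2_map hC hr hc hn hm
  obtain ⟨a0, a1, a2, a3, a4, a5, a6, a7, a8, a9, rfl⟩ : ∃ a0 a1 a2 a3 a4 a5 a6 a7 a8 a9 : ℕ, A = [a0, a1, a2, a3, a4, a5, a6, a7, a8, a9] := by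
    rcases A with _ | ⟨b0, _ | ⟨b1, _ | ⟨b2, _ | ⟨b3, _ | ⟨b4, _ | ⟨b5, _ | ⟨b6, _ | ⟨b7, _ | ⟨b8, _ | ⟨b9, _ | ⟨b10, A⟩⟩⟩⟩⟩⟩⟩⟩⟩⟩⟩
    all_goals first
      | exact ⟨b0, b1, b2, b3, b4, b5, b6, b7, b8, b9, rfl⟩
      | (exfalso; simp at hA)
  rw [hF]
  intro p q u v
  have h0 : ∀ k ∈ pkd2_S n m, 0 ≤ pkd2_w C k * (
      pkd2_g C H k ((a0 + H * reps C.Y ((E + 1) * (D + 1))) % C.N) * p ^ 2 +
      2 * pkd2_g C H k ((a1 + H * reps C.Y ((E + 1) * (D + 1))) % C.N) * (p * q) +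
      2 * pkd2_g C H k ((a2 + H * reps C.Y ((E + 1) * (D + 1))) % C.N) * (p * u) +
      2 * pkd2_g C H k ((a3 + H * reps C.Y ((E + 1) * (D + 1))) % C.N) * (p * v) +
      pkd2_g C H k ((a4 + H * reps C.Y ((E + 1) * (D + 1))) % C.N) * q ^ 2 +
      2 * pkd2_g C H k ((a5 + H * reps C.Y ((E + 1) * (D + 1))) % C.N) * (q * u) +
      2 * pkd2_g C H k ((a6 + H * reps C.Y ((E + 1) * (D + 1))) % C.N) * (q * v) +
      pkd2_g C H k ((a7 + H * reps C.Y ((E + 1) * (D + 1))) % C.N) * u ^ 2 +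
      2 * pkd2_g C H k ((a8 + H * reps C.Y ((E + 1) * (D + 1))) % C.N) * (u * v) +
      pkd2_g C H k ((a9 + H * reps C.Y ((E + 1) * (D + 1))) % C.N) * v ^ 2) := by
    intro k hk
    refine mul_nonneg (pkd2_w_nonneg hC k) ?_
    have hk' := pkd2_mem hk
    have h1 := dgI_sound _ _ _ _ _ _ h k.1 k.2 hk'.1 hk'.2
    exact t4_sound C.Y H _ _ _ _ _ _ _ _ _ _ h1 p q u v
  have h2 := Finset.sum_nonneg h0
  refine h2.trans (le_of_eq ?_)
  show _ = (∑ k ∈ pkd2_S n m, pkd2_w C k * pkd2_g C H k ((a0 + H * reps C.Y ((E + 1) * (D + 1))) % C.N)) * p ^ 2 +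
      2 * (∑ k ∈ pkd2_S n m, pkd2_w C k * pkd2_g C H k ((a1 + H * reps C.Y ((E + 1) * (D + 1))) % C.N)) * (p * q) +
      2 * (∑ k ∈ pkd2_S n m, pkd2_w C k * pkd2_g C H k ((a2 + H * reps C.Y ((E + 1) * (D + 1))) % C.N)) * (p * u) +
      2 * (∑ k ∈ pkd2_S n m, pkd2_w C k * pkd2_g C H k ((a3 + H * reps C.Y ((E + 1) * (D + 1))) % C.N)) * (p * v) +
      (∑ k ∈ pkd2_S n m, pkd2_w C k * pkd2_g C H k ((a4 + H * reps C.Y ((E + 1) * (D + 1))) % C.N)) * q ^ 2 +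
      2 * (∑ k ∈ pkd2_S n m, pkd2_w C k * pkd2_g C H k ((a5 + H * reps C.Y ((E + 1) * (D + 1))) % C.N)) * (q * u) +
      2 * (∑ k ∈ pkd2_S n m, pkd2_w C k * pkd2_g C H k ((a6 + H * reps C.Y ((E + 1) * (D + 1))) % C.N)) * (q * v) +
      (∑ k ∈ pkd2_S n m, pkd2_w C k * pkd2_g C H k ((a7 + H * reps C.Y ((E + 1) * (D + 1))) % C.N)) * u ^ 2 +
      2 * (∑ k ∈ pkd2_S n m, pkd2_w C k * pkd2_g C H k ((a8 + H * reps C.Y ((E + 1) * (D + 1))) % C.N)) * (u * v) +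
      (∑ k ∈ pkd2_S n m, pkd2_w C k * pkd2_g C H k ((a9 + H * reps C.Y ((E + 1) * (D + 1))) % C.N)) * v ^ 2
  simp only [Finset.mul_sum, Finset.sum_mul, ← Finset.sum_add_distrib]
  apply Finset.sum_congr rfl
  intro k _
  ring

theorem pos_PD {C : Cx} {E D H n m c k rd H' B : ℕ} {A : List ℕ} {F : List ℝ} (hC : CxOK C E D H)
    (hr : C3 C n m c A F) (hA : A.length = k * (k + 1) / 2) (hc : c ≤ H) (hn : n ≤ E) (hm : m ≤ D)
    (hrd : 1 ≤ rd) (hH : rd * H' = H) (h : dgI C.X C.Y (tPD k C.Y rd H' B) (n + 1) (m + 1)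
      (rowsM k (shiftL (H * reps C.Y ((E + 1) * (D + 1))) C.N A)) = true) (s : List ℝ) (hs : s.length = k) :
    0 ≤ qf F s := by
  have hF := pkd2_map hC hr hc hn hm
  have hr2 := pkd2_rows k (shiftL (H * reps C.Y ((E + 1) * (D + 1))) C.N A)
    (by rw [pkd2_shift, List.length_map, hA])
  rw [hF, pkd2_linQ]
  apply Finset.sum_nonneg
  intro z hz
  refine mul_nonneg (pkd2_w_nonneg hC z) ?_
  have hz' := pkd2_mem hz
  have h1 := dgI_sound _ _ _ _ _ _ h z.1 z.2 hz'.1 hz'.2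
  have h2 := tPD_sound k C.Y rd H' B hrd (by rw [hC.Y]; omega) _ (pkd2_isTN_map _ k _ hr2.1) h1 s hs
  rw [← List.map_flatten, hr2.2, List.map_map] at h2
  have h3 : ((rd : ℝ) * H') = H := by exact_mod_cast hH
  have h4 : ((fun v : ℕ => ((v % C.Y : ℕ) : ℝ) - rd * H') ∘ fun v => v / (C.X ^ z.1 * C.Y ^ z.2)) = pkd2_g C H z := by
    funext v
    simp only [Function.comp_apply, pkd2_g]
    rw [h3]
  rw [h4] at h2
  exact h2

/-- the same for any sound test -/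
theorem pos_T {C : Cx} {E D H n m c k : ℕ} {A : List ℕ} {F : List ℝ} (hC : CxOK C E D H)
    (hr : C3 C n m c A F) (hA : A.length = k * (k + 1) / 2) (hc : c ≤ H) (hn : n ≤ E) (hm : m ≤ D)
    (t : List (List ℕ) → Bool) (ht : ∀ M : List (List ℕ), isTN k M → t M = true → ∀ s : List ℝ, s.length = k →
      0 ≤ qf (M.flatten.map fun v => ((v % C.Y : ℕ) : ℝ) - H) s)
    (h : dgI C.X C.Y t (n + 1) (m + 1)
      (rowsM k (shiftL (H * reps C.Y ((E + 1) * (D + 1))) C.N A)) = true) (s : List ℝ) (hs : s.length = k) :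
    0 ≤ qf F s := by
  have hF := pkd2_map hC hr hc hn hm
  have hr2 := pkd2_rows k (shiftL (H * reps C.Y ((E + 1) * (D + 1))) C.N A)
    (by rw [pkd2_shift, List.length_map, hA])
  rw [hF, pkd2_linQ]
  apply Finset.sum_nonneg
  intro z hz
  refine mul_nonneg (pkd2_w_nonneg hC z) ?_
  have hz' := pkd2_mem hz
  have h1 := dgI_sound _ _ _ _ _ _ h z.1 z.2 hz'.1 hz'.2
  have h2 := ht _ (pkd2_isTN_map _ k _ hr2.1) h1 s hs
  rw [← List.map_flatten, hr2.2, List.map_map] at h2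
  exact h2

end Pool.Agent.MCA
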