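import Pool.Agent.MCA.PKC
import Pool.Agent.MCA.BXO
import Pool.Agent.PKD.Defs
/-!
PKE. Packed test of a box: definitions for the proof of soundness.
-/
set_option autoImplicit false

open Pool.Agent.MSQ Pool.Agent.MTR Pool.Agent.PKD

namespace Pool.Agent.MCA

noncomputable section

/-- the box without multipliers -/
def itB (b : Bw) : Itm := ⟨b.x0, b.x1, b.qx, b.y0, b.y1, b.qy, [], [], [], [], [], []⟩

/-- the point is in the half open box -/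
def inH (b : Bw) (x y : ℝ) : Prop :=
  (b.x0 : ℝ) ≤ b.qx * x ∧ b.qx * x < b.x1 ∧ (b.y0 : ℝ) ≤ b.qy * y ∧ b.qy * y < b.y1

/-- the context of the test: `τ`, `σ` are the local coordinates of the point `x, y` -/
def ctx (r : Rd) (b : Bw) (x y : ℝ) : Cx where
  X := (2 ^ (b.hb + 1) + 1) ^ (r.D + 1)
  Y := 2 ^ (b.hb + 1) + 1
  N := (2 ^ (b.hb + 1) + 1) ^ ((r.E + 1) * (r.D + 1))
  hN := by positivity
  τ := (b.qx * x - b.x0) / (b.x1 - b.qx * x)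
  σ := (b.qy * y - b.y0) / (b.y1 - b.qy * y)

/-! ### relations -/

/-- two lists of values with a common bound -/
def C3 (C : Cx) (n m κ : ℕ) (A : List ℕ) (B : List ℝ) : Prop := List.Forall₂ (fun a r => R3 C n m a r κ) A B

/-- relation of the basic values -/
structure RV4 (C : Cx) (r : Rd) (v : Vw ℕ) (v' : Vw ℝ) : Prop where
  a : R3 C 1 0 v.a v'.a r.νx
  A : R3 C 1 0 v.A v'.A r.νx
  b : R3 C 0 1 v.b v'.b r.νy
  B : R3 C 0 1 v.B v'.B r.νy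

/-- relation of the values of the forms -/
structure RT (C : Cx) (r : Rd) (t : Tw ℕ) (t' : Tw ℝ) : Prop where
  F : ∀ i, C3 C (dg r.dF i).1 (dg r.dF i).2 (gB r.bF i) (gF C.om t i) (gF C.rr t' i)
  M1 : ∀ i, C3 C (dg r.dM i).1 (dg r.dM i).2 (gB r.bM i) (gM C.om t i).1 (gM C.rr t' i).1
  M2 : ∀ i, C3 C (dg r.dM i).1 (dg r.dM i).2 (gB r.bM i) (gM C.om t i).2.1 (gM C.rr t' i).2.1
  M3 : ∀ i, C3 C (dg r.dM i).1 (dg r.dM i).2 (gB r.bM i) (gM C.om t i).2.2 (gM C.rr t' i).2.2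
  Z : ∀ i, C3 C (dg r.dZ i).1 (dg r.dZ i).2 (gB r.bZ i) (gZ C.om t i) (gZ C.rr t' i)
  G : ∀ i, R3 C (dg r.dG i).1 (dg r.dG i).2 (gG C.om t i) (gG C.rr t' i) (gB r.bG i)

/-! ### real values -/

/-- `A`, `B` are positive denominators of the coordinates `x`, `y` -/
structure VE (v : Vw ℝ) (x y : ℝ) : Prop where
  pA : 0 < v.A
  pB : 0 < v.B
  a : v.a = v.A * x
  b : v.b = v.B * y

/-- `A^n B^m` -/
def hm (v : Vw ℝ) (d : ℕ × ℕ) : ℝ := v.A ^ d.1 * v.B ^ d.2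

/-- real values of the forms -/
structure TE (O : Ops ℝ) (rg : Rgn) (r : Rd) (v : Vw ℝ) (x y : ℝ) (t : Tw ℝ) : Prop where
  F : ∀ i s, dotL (gF O t i) s = hm v (dg r.dF i) * lv x y (fS rg i) s
  M1 : ∀ i s, dotL (gM O t i).1 s = hm v (dg r.dM i) * lv x y (mS rg i).m11 s
  M2 : ∀ i s, dotL (gM O t i).2.1 s = hm v (dg r.dM i) * lv x y (mS rg i).m12 s
  M3 : ∀ i s, dotL (gM O t i).2.2 s = hm v (dg r.dM i) * lv x y (mS rg i).m22 s
  Z : ∀ i s, dotL (gZ O t i) s = hm v (dg r.dZ i) * lv x y (zS rg i) s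
  G : ∀ i, gG O t i = hm v (dg r.dG i) * ev x y (gS rg i)
  lF : ∀ i, (gF O t i).length = 11
  lM1 : ∀ i, (gM O t i).1.length = 11
  lM2 : ∀ i, (gM O t i).2.1.length = 11
  lM3 : ∀ i, (gM O t i).2.2.length = 11
  lZ : ∀ i, (gZ O t i).length = 11

section
variable (K h : ℕ) (rg : Rgn) (ac : List Bool) (x y : ℝ) (s : List ℝ)

/-- value of a packed polynomial -/
def vP (p : Pk) : ℝ := ev x y (unp K h p)

def prR : List (ℕ × Pk) → ℝ
  | [] => 0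
  | z :: l => vP K h x y z.2 * lv x y (fS rg z.1) s + prR l
def trR : List (ℕ × Pk × Pk × Pk) → ℝ
  | [] => 0
  | z :: l => (vP K h x y z.2.1 * lv x y (mS rg z.1).m11 s + 2 * vP K h x y z.2.2.1 * lv x y (mS rg z.1).m12 s +
      vP K h x y z.2.2.2 * lv x y (mS rg z.1).m22 s) + trR l
def grR : List Gw → ℝ
  | [] => 0
  | g :: l => lv x y (fS rg g.i) s * (prR K h rg x y s g.pr + trR K h rg x y s g.mm) + grR l
def dtR : List (ℕ × Pk) → ℝ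
  | [] => 0
  | z :: l => vP K h x y z.2 * (lv x y (mS rg z.1).m11 s * lv x y (mS rg z.1).m22 s -
      lv x y (mS rg z.1).m12 s * lv x y (mS rg z.1).m12 s) + dtR l
def krR (u : List ℝ) (a0 a1 a2 b0 b1 b2 : ℝ) : ℝ :=
  match u with
  | [g0, g1, g2, g3, g4, g5, g6, g7, g8, g9] =>
    a0 * (g0 * b0 + 2 * g1 * b1 + g4 * b2) + (a1 * (2 * g2 * b0 + 2 * (g3 + g5) * b1 + 2 * g6 * b2) +
      a2 * (g7 * b0 + 2 * g8 * b1 + g9 * b2))
  | _ => 0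
def w4R : List (ℕ × ℕ × List Pk) → ℝ
  | [] => 0
  | z :: l => krR (z.2.2.map (vP K h x y)) (lv x y (mS rg z.1).m11 s) (lv x y (mS rg z.1).m12 s)
      (lv x y (mS rg z.1).m22 s) (lv x y (mS rg z.2.1).m11 s) (lv x y (mS rg z.2.1).m12 s)
      (lv x y (mS rg z.2.1).m22 s) + w4R l
def zrR : List (ℕ × List Pk) → ℝ
  | [] => 0
  | z :: l => lv x y (zS rg z.1) s * dotL (z.2.map (vP K h x y)) s + zrR l
def gzR : List (ℕ × ℕ × List Pk) → ℝ
  | [] => 0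
  | z :: l => ev x y (gS rg z.1) * qf (z.2.2.map (vP K h x y)) (selL ac s) + gzR l

end

/-- the products without those of the polynomials `g_i` -/
def it0 (rg : Rgn) (b : Bw) (x y : ℝ) (s : List ℝ) : ℝ :=
  grR b.K b.h rg x y s b.gr + (dtR b.K b.h rg x y s b.dt + (w4R b.K b.h rg x y s b.w4 + zrR b.K b.h rg x y s b.zr))
def itR (rg : Rgn) (r : Rd) (b : Bw) (x y : ℝ) (s : List ℝ) : ℝ :=
  it0 rg b x y s + gzR b.K b.h rg r.ac x y s b.gz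

/-- positive semidefinite `2 × 2` and `4 × 4` -/
def psd2 (u : List ℝ) : Prop :=
  match u with
  | [a, b, c] => ∀ p q : ℝ, 0 ≤ a * p ^ 2 + 2 * b * (p * q) + c * q ^ 2
  | _ => False
def psd4 (u : List ℝ) : Prop :=
  match u with
  | [g0, g1, g2, g3, g4, g5, g6, g7, g8, g9] => ∀ p q u v : ℝ,
    0 ≤ g0 * p ^ 2 + 2 * g1 * (p * q) + 2 * g2 * (p * u) + 2 * g3 * (p * v) + g4 * q ^ 2 +
      2 * g5 * (q * u) + 2 * g6 * (q * v) + g7 * u ^ 2 + 2 * g8 * (u * v) + g9 * v ^ 2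
  | _ => False

/-- positivity of the multipliers at a point -/
structure POS (r : Rd) (b : Bw) (x y : ℝ) : Prop where
  pr : ∀ g ∈ b.gr, ∀ z ∈ g.pr, 0 ≤ vP b.K b.h x y z.2
  mm : ∀ g ∈ b.gr, ∀ z ∈ g.mm, psd2 [vP b.K b.h x y z.2.1, vP b.K b.h x y z.2.2.1, vP b.K b.h x y z.2.2.2]
  dt : ∀ z ∈ b.dt, 0 ≤ vP b.K b.h x y z.2
  w4 : ∀ z ∈ b.w4, psd4 (z.2.2.map (vP b.K b.h x y))
  gz : ∀ z ∈ b.gz, ∀ s : List ℝ, s.length = cnt r.ac → 0 ≤ qf (z.2.2.map (vP b.K b.h x y)) s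

end

end Pool.Agent.MCA
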