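import Pool.Agent.MCA.PKA
/-!
PKF (80 lines). Relations: linear forms and the table of the forms.

PROOF. `lfv_rel`: `C3.map` with `pvI_rel` (PKD/RPV), `bas_rel` and the bound in `okL`, `R3.mono`.
`mkT_rel`: inductions on the lists in `okLs`, `okMs`, `okGs` (equal lengths) for the tables `mkL`, `mkMs`, `mkG`; an index
out of range gives `zK 11` (resp. `0`), degree `(0, 0)` and bound `0`: `C3.zero`, `R3.nat`.
-/
set_option autoImplicit false

open Pool.Agent.MSQ Pool.Agent.MTR Pool.Agent.PKD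

namespace Pool.Agent.MCA

theorem lfv_rel {C : Cx} {r : Rd} {v : Vw ℕ} {v' : Vw ℝ} (hv : RV4 C r v v') (d : ℕ × ℕ) (c : ℕ) (l : LF)
    (hl : okL r d c l = true) : C3 C d.1 d.2 c (lfv C.om v d l) (lfv C.rr v' d l) := by
  unfold okL at hl
  rw [Bool.and_eq_true, List.all_eq_true] at hl
  refine C3.map _ _ _ (fun p hp => ?_)
  have h1 := hl.2 p hp
  rw [Bool.and_eq_true] at h1
  exact (pvI_rel (bas_rel hv d.1 d.2) p).mono le_rfl le_rfl (Nat.le_of_ble_eq_true h1.2)

private theorem pkfL {C : Cx} {r : Rd} {v : Vw ℕ} {v' : Vw ℝ} (hv : RV4 C r v v') (ds : List (ℕ × ℕ)) :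
    ∀ (cs : List ℕ) (ls : List LF), okLs r ds cs ls = true → ∀ i : ℕ,
      C3 C (dg ds i).1 (dg ds i).2 (gB cs i) ((mkL C.om v ds ls).getD i (zK C.om 11))
        ((mkL C.rr v' ds ls).getD i (zK C.rr 11)) := by
  induction ds with
  | nil =>
    intro cs ls h i
    cases cs <;> cases ls <;> simp only [okLs, Bool.false_eq_true] at h
    simp only [mkL, List.getD_nil]
    exact C3.zero C _ _ _ 11
  | cons d ds ih =>
    intro cs ls h i
    cases cs <;> cases ls <;> simp only [okLs, Bool.false_eq_true, Bool.and_eq_true] at h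
    rename_i c cs l ls
    cases i with
    | zero =>
      simp only [mkL, dg, gB, List.getD_cons_zero]
      exact lfv_rel hv d c l h.1
    | succ i =>
      have := ih cs ls h.2 i
      simp only [mkL, dg, gB, List.getD_cons_succ] at this ⊢
      exact this

private theorem pkfM {C : Cx} {r : Rd} {v : Vw ℕ} {v' : Vw ℝ} (hv : RV4 C r v v') (ds : List (ℕ × ℕ)) :
    ∀ (cs : List ℕ) (ls : List MF), okMs r ds cs ls = true → ∀ i : ℕ,
      C3 C (dg ds i).1 (dg ds i).2 (gB cs i)
        ((mkMs C.om v ds ls).getD i (zK C.om 11, zK C.om 11, zK C.om 11)).1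
        ((mkMs C.rr v' ds ls).getD i (zK C.rr 11, zK C.rr 11, zK C.rr 11)).1 ∧
      C3 C (dg ds i).1 (dg ds i).2 (gB cs i)
        ((mkMs C.om v ds ls).getD i (zK C.om 11, zK C.om 11, zK C.om 11)).2.1
        ((mkMs C.rr v' ds ls).getD i (zK C.rr 11, zK C.rr 11, zK C.rr 11)).2.1 ∧
      C3 C (dg ds i).1 (dg ds i).2 (gB cs i)
        ((mkMs C.om v ds ls).getD i (zK C.om 11, zK C.om 11, zK C.om 11)).2.2
        ((mkMs C.rr v' ds ls).getD i (zK C.rr 11, zK C.rr 11, zK C.rr 11)).2.2 := by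
  induction ds with
  | nil =>
    intro cs ls h i
    cases cs <;> cases ls <;> simp only [okMs, Bool.false_eq_true] at h
    simp only [mkMs, List.getD_nil]
    exact ⟨C3.zero C _ _ _ 11, C3.zero C _ _ _ 11, C3.zero C _ _ _ 11⟩
  | cons d ds ih =>
    intro cs ls h i
    cases cs <;> cases ls <;> simp only [okMs, Bool.false_eq_true, Bool.and_eq_true] at h
    rename_i c cs l ls
    cases i with
    | zero =>
      simp only [mkMs, dg, gB, List.getD_cons_zero]
      exact ⟨lfv_rel hv d c _ h.1.1.1, lfv_rel hv d c _ h.1.1.2, lfv_rel hv d c _ h.1.2⟩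
    | succ i =>
      have := ih cs ls h.2 i
      simp only [mkMs, dg, gB, List.getD_cons_succ] at this ⊢
      exact this

private theorem pkfG {C : Cx} {r : Rd} {v : Vw ℕ} {v' : Vw ℝ} (hv : RV4 C r v v') (ds : List (ℕ × ℕ)) :
    ∀ (cs : List ℕ) (ls : List P), okGs r ds cs ls = true → ∀ i : ℕ,
      R3 C (dg ds i).1 (dg ds i).2 ((mkG C.om v ds ls).getD i (C.om.nat 0))
        ((mkG C.rr v' ds ls).getD i (C.rr.nat 0)) (gB cs i) := by
  induction ds with
  | nil =>
    intro cs ls h i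
    cases cs <;> cases ls <;> simp only [okGs, Bool.false_eq_true] at h
    simp only [mkG, List.getD_nil]
    exact (R3.nat C _ _ 0).mono le_rfl le_rfl (Nat.zero_le _)
  | cons d ds ih =>
    intro cs ls h i
    cases cs <;> cases ls <;> simp only [okGs, Bool.false_eq_true, Bool.and_eq_true] at h
    rename_i c cs l ls
    cases i with
    | zero =>
      simp only [mkG, dg, gB, List.getD_cons_zero]
      exact (pvI_rel (bas_rel hv d.1 d.2) l).mono le_rfl le_rfl (Nat.le_of_ble_eq_true h.1.2)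
    | succ i =>
      have := ih cs ls h.2 i
      simp only [mkG, dg, gB, List.getD_cons_succ] at this ⊢
      exact this

theorem mkT_rel {C : Cx} {r : Rd} {v : Vw ℕ} {v' : Vw ℝ} (hv : RV4 C r v v') (rg : Rgn) (R : List Pk)
    (h : rgOK rg r R = true) : RT C r (mkT C.om v rg r) (mkT C.rr v' rg r) := by
  unfold rgOK at h
  simp only [Bool.and_eq_true] at h
  obtain ⟨⟨⟨⟨⟨⟨⟨h1, h2⟩, h3⟩, h4⟩, -⟩, -⟩, -⟩, -⟩ := h
  exact
    { F := fun i => pkfL hv r.dF r.bF rg.fs h1 i
      M1 := fun i => (pkfM hv r.dM r.bM rg.ms h2 i).1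
      M2 := fun i => (pkfM hv r.dM r.bM rg.ms h2 i).2.1
      M3 := fun i => (pkfM hv r.dM r.bM rg.ms h2 i).2.2
      Z := fun i => pkfL hv r.dZ r.bZ rg.zs h3 i
      G := fun i => pkfG hv r.dG r.bG rg.gs h4 i }

end Pool.Agent.MCA
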