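import Pool.Agent.MCA.PKA
/-!
PKM (150 lines). Relation of the matrices.

PROOF. One lemma for each of `prW`, `trW`, `grW`, `dtW`, `w4W` (`krW`), `zrW`, `gzW` with the bounds `prB`, `trB`, `grB`, ...
(inductions on the lists; `pkv_rel`, the `C3` lemmas). The checks `fGr`, `fDt`, ... give `le2` and `fit`; with `le2 a b`
the degrees add up: `(b.1 - a.1) + a.1 = b.1`. For `krW` all ten bounds are at most their sum `smB` (weights at most 2):
`2 * (φ * (bp0 + 2 bp1 + bp4) φ') + ... ≤ 4 φ φ' Σ bp`. `zrW`: every entry is bounded by `smB`. `rW`: `pkv_rel` and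
`bp ≤ (K + h) (E+1) (D+1) νx^E νy^D` (`fit`). `C3.mono` for the sums.
-/
set_option autoImplicit false

open Pool.Agent.MSQ Pool.Agent.MTR Pool.Agent.PKD

namespace Pool.Agent.MCA

private theorem pkmLe {a b : ℕ × ℕ} (h : le2 a b = true) : a.1 ≤ b.1 ∧ a.2 ≤ b.2 := by
  unfold le2 at h
  rw [Bool.and_eq_true, Nat.ble_eq, Nat.ble_eq] at h
  exact h

private theorem pkmDeg {n m n' m' κ κ' : ℕ} {C : Cx} {A : List ℕ} {B : List ℝ} (h : C3 C n m κ A B)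
    (hn : n = n') (hm : m = m') (hk : κ ≤ κ') : C3 C n' m' κ' A B :=
  h.mono hn.le hm.le hk

private theorem pkmV3 {C : Cx} {n m n' m' cp cq cs κ p q s : ℕ} {p' q' s' : ℝ} {M : List ℕ × List ℕ × List ℕ}
    {M' : List ℝ × List ℝ × List ℝ} (hp : R3 C n m p p' cp) (hq : R3 C n m q q' cq) (hs : R3 C n m s s' cs)
    (h1 : C3 C n' m' κ M.1 M'.1) (h2 : C3 C n' m' κ M.2.1 M'.2.1) (h3 : C3 C n' m' κ M.2.2 M'.2.2) :
    C3 C (n + n') (m + m') ((cp + (cq + cs)) * κ) (v3 C.om p q s M) (v3 C.rr p' q' s' M') := by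
  unfold v3
  refine pkmDeg ((C3.vSm hp h1).vAdd ((C3.vSm hq h2).vAdd (C3.vSm hs h3))) rfl rfl (le_of_eq ?_)
  ring

private theorem pkmTwo {C : Cx} {n m a c : ℕ} {r : ℝ} (h : R3 C n m a r c) :
    R3 C n m (C.om.mul (C.om.nat 2) a) (C.rr.mul (C.rr.nat 2) r) (2 * c) :=
  ((R3.nat C 0 0 2).mul h).mono (by omega) (by omega) le_rfl

section
variable {C : Cx} {r : Rd} {v : Vw ℕ} {v' : Vw ℝ} {t : Tw ℕ} {t' : Tw ℝ} (hv : RV4 C r v v')
    (ht : RT C r t t') (K h : ℕ) (hK : 1 ≤ K)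
include hv ht hK

private theorem pkmPr (d : ℕ × ℕ) (l : List (ℕ × Pk))
    (hl : ∀ z ∈ l, le2 (dg r.dF z.1) d = true ∧ fit (s2 d (dg r.dF z.1)) z.2 = true) :
    C3 C d.1 d.2 (prB K h r d l) (prW C.om K h v r t d l) (prW C.rr K h v' r t' d l) := by
  induction l with
  | nil => exact C3.zero C _ _ _ _
  | cons z l ih =>
    have h1 := hl z List.mem_cons_self
    have h2 := pkmLe h1.1
    refine C3.vAdd ?_ (ih fun w hw => hl w (List.mem_cons_of_mem _ hw))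
    refine pkmDeg (C3.vSm (pkv_rel hv K h hK _ z.2 h1.2) (ht.F z.1)) ?_ ?_ le_rfl
    · show d.1 - (dg r.dF z.1).1 + (dg r.dF z.1).1 = d.1
      omega
    · show d.2 - (dg r.dF z.1).2 + (dg r.dF z.1).2 = d.2
      omega

private theorem pkmTr (d : ℕ × ℕ) (l : List (ℕ × Pk × Pk × Pk))
    (hl : ∀ z ∈ l, le2 (dg r.dM z.1) d = true ∧ fit (s2 d (dg r.dM z.1)) z.2.1 = true ∧
      fit (s2 d (dg r.dM z.1)) z.2.2.1 = true ∧ fit (s2 d (dg r.dM z.1)) z.2.2.2 = true) :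
    C3 C d.1 d.2 (trB K h r d l) (trW C.om K h v r t d l) (trW C.rr K h v' r t' d l) := by
  induction l with
  | nil => exact C3.zero C _ _ _ _
  | cons z l ih =>
    have h1 := hl z List.mem_cons_self
    have h2 := pkmLe h1.1
    refine C3.vAdd ?_ (ih fun w hw => hl w (List.mem_cons_of_mem _ hw))
    refine pkmDeg (pkmV3 (pkv_rel hv K h hK _ z.2.1 h1.2.1) (pkmTwo (pkv_rel hv K h hK _ z.2.2.1 h1.2.2.1))
      (pkv_rel hv K h hK _ z.2.2.2 h1.2.2.2) (ht.M1 z.1) (ht.M2 z.1) (ht.M3 z.1)) ?_ ?_ le_rfl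
    · show d.1 - (dg r.dM z.1).1 + (dg r.dM z.1).1 = d.1
      omega
    · show d.2 - (dg r.dM z.1).2 + (dg r.dM z.1).2 = d.2
      omega

private theorem pkmGr (l : List Gw) (hl : ∀ g ∈ l, fGr r g = true) :
    C3 C r.E r.D (grB K h r l) (grW C.om K h v r t l) (grW C.rr K h v' r t' l) := by
  induction l with
  | nil => exact C3.zero C _ _ _ _
  | cons g l ih =>
    have h1 := hl g List.mem_cons_self
    unfold fGr at h1
    simp only [Bool.and_eq_true, List.all_eq_true] at h1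
    obtain ⟨⟨h2, h3⟩, h4⟩ := h1
    have h5 := pkmLe h2
    refine C3.vAdd ?_ (ih fun w hw => hl w (List.mem_cons_of_mem _ hw))
    have h6 := pkmPr hv ht K h hK (s2 (r.E, r.D) (dg r.dF g.i)) g.pr (fun z hz => h3 z hz)
    have h7 := pkmTr hv ht K h hK (s2 (r.E, r.D) (dg r.dF g.i)) g.mm (fun z hz =>
      ⟨(h4 z hz).1.1.1, (h4 z hz).1.1.2, (h4 z hz).1.2, (h4 z hz).2⟩)
    refine pkmDeg (C3.vMul (ht.F g.i) (C3.vAdd h6 h7)) ?_ ?_ (le_of_eq ?_)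
    · show (dg r.dF g.i).1 + (r.E - (dg r.dF g.i).1) = r.E
      have := h5.1
      change (dg r.dF g.i).1 ≤ r.E at this
      omega
    · show (dg r.dF g.i).2 + (r.D - (dg r.dF g.i).2) = r.D
      have := h5.2
      change (dg r.dF g.i).2 ≤ r.D at this
      omega
    · exact (Nat.mul_assoc _ _ _).symm

private theorem pkmDt (l : List (ℕ × Pk)) (hl : ∀ z ∈ l, fDt r z = true) :
    C3 C r.E r.D (dtB K h r l) (dtW C.om K h v r t l) (dtW C.rr K h v' r t' l) := by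
  induction l with
  | nil => exact C3.zero C _ _ _ _
  | cons z l ih =>
    have h1 := hl z List.mem_cons_self
    unfold fDt at h1
    simp only [Bool.and_eq_true] at h1
    obtain ⟨⟨h2, h3⟩, h4⟩ := h1
    have h5 := pkmLe h2
    have h6 := pkmLe h3
    have e1 : (dg r.dM z.1).1 ≤ r.E := h5.1
    have e2 : (dg r.dM z.1).2 ≤ r.D := h5.2
    have e3 : (dg r.dM z.1).1 ≤ r.E - (dg r.dM z.1).1 := h6.1
    have e4 : (dg r.dM z.1).2 ≤ r.D - (dg r.dM z.1).2 := h6.2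
    refine C3.vAdd ?_ (ih fun w hw => hl w (List.mem_cons_of_mem _ hw))
    refine pkmDeg (C3.vSm (pkv_rel hv K h hK _ z.2 h4) (C3.vSub (C3.vMul (ht.M1 z.1) (ht.M3 z.1))
      (C3.vMul (ht.M2 z.1) (ht.M2 z.1)))) ?_ ?_ (le_of_eq ?_)
    · show r.E - (dg r.dM z.1).1 - (dg r.dM z.1).1 + ((dg r.dM z.1).1 + (dg r.dM z.1).1) = r.E
      omega
    · show r.D - (dg r.dM z.1).2 - (dg r.dM z.1).2 + ((dg r.dM z.1).2 + (dg r.dM z.1).2) = r.D
      omega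
    · show _ = bp K h r (s2 (s2 (r.E, r.D) (dg r.dM z.1)) (dg r.dM z.1)) z.2 *
        (4 * (gB r.bM z.1 * gB r.bM z.1))
      ring

private theorem pkmKr {n m κ κ' : ℕ} (i j : ℕ) (d : ℕ × ℕ) (u : List Pk) (hu : u.length = 10)
    (hf : ∀ p ∈ u, fit d p = true) (hn : (dg r.dM i).1 + (d.1 + (dg r.dM j).1) = n)
    (hm : (dg r.dM i).2 + (d.2 + (dg r.dM j).2) = m) (hκ : gB r.bM i = κ) (hκ' : gB r.bM j = κ') :
    C3 C n m (4 * (κ * κ') * smB K h r d u) (krW C.om (u.map (pkv C.om K h v d)) (gM C.om t i) (gM C.om t j))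
      (krW C.rr (u.map (pkv C.rr K h v' d)) (gM C.rr t' i) (gM C.rr t' j)) := by
  subst hκ hκ' hn hm
  rcases u with _ | ⟨p0, _ | ⟨p1, _ | ⟨p2, _ | ⟨p3, _ | ⟨p4, _ | ⟨p5, _ | ⟨p6, _ | ⟨p7, _ | ⟨p8, _ | ⟨p9, _ | ⟨p10, w⟩⟩⟩⟩⟩⟩⟩⟩⟩⟩⟩ <;>
    simp only [List.length_nil, List.length_cons] at hu <;> try omega
  have k0 := pkv_rel hv K h hK d p0 (hf p0 (by simp))
  have k1 := pkv_rel hv K h hK d p1 (hf p1 (by simp))
  have k2 := pkv_rel hv K h hK d p2 (hf p2 (by simp))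
  have k3 := pkv_rel hv K h hK d p3 (hf p3 (by simp))
  have k4 := pkv_rel hv K h hK d p4 (hf p4 (by simp))
  have k5 := pkv_rel hv K h hK d p5 (hf p5 (by simp))
  have k6 := pkv_rel hv K h hK d p6 (hf p6 (by simp))
  have k7 := pkv_rel hv K h hK d p7 (hf p7 (by simp))
  have k8 := pkv_rel hv K h hK d p8 (hf p8 (by simp))
  have k9 := pkv_rel hv K h hK d p9 (hf p9 (by simp))
  have a1 := C3.vMul (ht.M1 i) (pkmV3 k0 (pkmTwo k1) k4 (ht.M1 j) (ht.M2 j) (ht.M3 j))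
  have a2 := C3.vMul (ht.M2 i) (pkmV3 (pkmTwo k2) (pkmTwo (k3.add k5)) (pkmTwo k6) (ht.M1 j) (ht.M2 j) (ht.M3 j))
  have a3 := C3.vMul (ht.M3 i) (pkmV3 k7 (pkmTwo k8) k9 (ht.M1 j) (ht.M2 j) (ht.M3 j))
  have a4 := a1.vAdd (a2.vAdd a3)
  refine pkmDeg a4 rfl rfl ?_
  have e1 : ON.add (bp K h r d p3) (bp K h r d p5) = bp K h r d p3 + bp K h r d p5 := rfl
  rw [e1]
  show _ ≤ 4 * (gB r.bM i * gB r.bM j) * (bp K h r d p0 + (bp K h r d p1 + (bp K h r d p2 + (bp K h r d p3 +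
    (bp K h r d p4 + (bp K h r d p5 + (bp K h r d p6 + (bp K h r d p7 + (bp K h r d p8 + (bp K h r d p9 + 0))))))))))
  generalize bp K h r d p0 = b0
  generalize bp K h r d p1 = b1
  generalize bp K h r d p2 = b2
  generalize bp K h r d p3 = b3
  generalize bp K h r d p4 = b4
  generalize bp K h r d p5 = b5
  generalize bp K h r d p6 = b6
  generalize bp K h r d p7 = b7
  generalize bp K h r d p8 = b8
  generalize bp K h r d p9 = b9
  generalize gB r.bM i = A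
  generalize gB r.bM j = B
  calc 2 * (A * ((b0 + (2 * b1 + b4)) * B)) + (2 * (A * ((2 * b2 + (2 * (b3 + b5) + 2 * b6)) * B)) +
        2 * (A * ((b7 + (2 * b8 + b9)) * B)))
      = 2 * (A * B) * (b0 + 2 * b1 + b4 + 2 * b2 + 2 * (b3 + b5) + 2 * b6 + b7 + 2 * b8 + b9) := by ring
    _ ≤ 2 * (A * B) * (2 * (b0 + (b1 + (b2 + (b3 + (b4 + (b5 + (b6 + (b7 + (b8 + (b9 + 0))))))))))) :=
        Nat.mul_le_mul_left _ (by omega)
    _ = _ := by ring

private theorem pkmW4 (l : List (ℕ × ℕ × List Pk)) (hl : ∀ z ∈ l, fW4 r z = true) :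
    C3 C r.E r.D (w4B K h r l) (w4W C.om K h v r t l) (w4W C.rr K h v' r t' l) := by
  induction l with
  | nil => exact C3.zero C _ _ _ _
  | cons z l ih =>
    have h1 := hl z List.mem_cons_self
    unfold fW4 at h1
    simp only [Bool.and_eq_true, List.all_eq_true] at h1
    obtain ⟨⟨⟨h2, h3⟩, h4⟩, h7⟩ := h1
    have h5 := pkmLe h2
    have h6 := pkmLe h3
    have e1 : (dg r.dM z.1).1 ≤ r.E := h5.1
    have e2 : (dg r.dM z.1).2 ≤ r.D := h5.2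
    have e3 : (dg r.dM z.2.1).1 ≤ r.E - (dg r.dM z.1).1 := h6.1
    have e4 : (dg r.dM z.2.1).2 ≤ r.D - (dg r.dM z.1).2 := h6.2
    refine C3.vAdd ?_ (ih fun w hw => hl w (List.mem_cons_of_mem _ hw))
    refine pkmKr hv ht K h hK z.1 z.2.1 (s2 (s2 (r.E, r.D) (dg r.dM z.1)) (dg r.dM z.2.1)) z.2.2
      (Nat.eq_of_beq_eq_true h7) h4 ?_ ?_ rfl rfl
    · show (dg r.dM z.1).1 + (r.E - (dg r.dM z.1).1 - (dg r.dM z.2.1).1 + (dg r.dM z.2.1).1) = r.E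
      omega
    · show (dg r.dM z.1).2 + (r.D - (dg r.dM z.1).2 - (dg r.dM z.2.1).2 + (dg r.dM z.2.1).2) = r.D
      omega

omit ht hK hv in
private theorem pkmSm (d : ℕ × ℕ) (l : List Pk) (p : Pk) (hp : p ∈ l) : bp K h r d p ≤ smB K h r d l := by
  induction l with
  | nil => exact absurd hp List.not_mem_nil
  | cons q l ih =>
    show _ ≤ bp K h r d q + smB K h r d l
    rcases List.mem_cons.1 hp with rfl | h1
    · exact Nat.le_add_right _ _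
    · exact (ih h1).trans (Nat.le_add_left _ _)

omit ht in
private theorem pkmMap (d : ℕ × ℕ) (l : List Pk) (hl : ∀ p ∈ l, fit d p = true) :
    C3 C d.1 d.2 (smB K h r d l) (l.map (pkv C.om K h v d)) (l.map (pkv C.rr K h v' d)) :=
  C3.map _ _ _ (fun p hp => (pkv_rel hv K h hK d p (hl p hp)).mono le_rfl le_rfl (pkmSm K h d l p hp))

private theorem pkmZr (l : List (ℕ × List Pk)) (hl : ∀ z ∈ l, fZr r z = true) :
    C3 C r.E r.D (zrB K h r l) (zrW C.om K h v r t l) (zrW C.rr K h v' r t' l) := by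
  induction l with
  | nil => exact C3.zero C _ _ _ _
  | cons z l ih =>
    have h1 := hl z List.mem_cons_self
    unfold fZr at h1
    simp only [Bool.and_eq_true, List.all_eq_true] at h1
    obtain ⟨⟨h2, h3⟩, -⟩ := h1
    have h5 := pkmLe h2
    have e1 : (dg r.dZ z.1).1 ≤ r.E := h5.1
    have e2 : (dg r.dZ z.1).2 ≤ r.D := h5.2
    refine C3.vAdd ?_ (ih fun w hw => hl w (List.mem_cons_of_mem _ hw))
    refine pkmDeg (C3.vMul (ht.Z z.1) (pkmMap hv K h hK (s2 (r.E, r.D) (dg r.dZ z.1)) z.2 h3)) ?_ ?_ (le_of_eq ?_)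
    · show (dg r.dZ z.1).1 + (r.E - (dg r.dZ z.1).1) = r.E
      omega
    · show (dg r.dZ z.1).2 + (r.D - (dg r.dZ z.1).2) = r.D
      omega
    · exact (Nat.mul_assoc _ _ _).symm

private theorem pkmGz (k : ℕ) (l : List (ℕ × ℕ × List Pk)) (hl : ∀ z ∈ l, fGz r k z = true) (k' : ℕ) :
    C3 C r.E r.D (gzB K h r l) (gzW C.om K h v r t k' l) (gzW C.rr K h v' r t' k' l) := by
  induction l with
  | nil => exact C3.zero C _ _ _ _
  | cons z l ih =>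
    have h1 := hl z List.mem_cons_self
    unfold fGz at h1
    simp only [Bool.and_eq_true, List.all_eq_true] at h1
    obtain ⟨⟨h2, h3⟩, -⟩ := h1
    have h5 := pkmLe h2
    have e1 : (dg r.dG z.1).1 ≤ r.E := h5.1
    have e2 : (dg r.dG z.1).2 ≤ r.D := h5.2
    refine C3.vAdd ?_ (ih fun w hw => hl w (List.mem_cons_of_mem _ hw))
    refine pkmDeg (C3.vSm (ht.G z.1) (pkmMap hv K h hK (s2 (r.E, r.D) (dg r.dG z.1)) z.2.2 h3)) ?_ ?_ le_rfl
    · show (dg r.dG z.1).1 + (r.E - (dg r.dG z.1).1) = r.E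
      omega
    · show (dg r.dG z.1).2 + (r.D - (dg r.dG z.1).2) = r.D
      omega

end

private theorem pkmRw {C : Cx} {r : Rd} {v : Vw ℕ} {v' : Vw ℝ} (hv : RV4 C r v v') (R : List Pk)
    (hR : R.all (fit (r.E, r.D)) = true) (hKr : 1 ≤ r.K) :
    C3 C r.E r.D ((r.K + r.h) * ((r.E + 1) * (r.D + 1)) * (r.νx ^ r.E * r.νy ^ r.D)) (rW C.om v r R)
      (rW C.rr v' r R) := by
  rw [List.all_eq_true] at hR
  refine C3.map _ _ _ (fun p hp => ?_)
  have h1 := hR p hp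
  refine (pkv_rel hv r.K r.h hKr (r.E, r.D) p h1).mono le_rfl le_rfl ?_
  unfold fit at h1
  rw [Bool.and_eq_true, Nat.ble_eq, Nat.ble_eq] at h1
  show (r.K + r.h) * ((p.n + 1) * (p.m + 1)) * (r.νx ^ r.E * r.νy ^ r.D) ≤ _
  exact Nat.mul_le_mul_right _ (Nat.mul_le_mul_left _ (Nat.mul_le_mul (Nat.succ_le_succ h1.1) (Nat.succ_le_succ h1.2)))

theorem MW_rel {C : Cx} {r : Rd} {v : Vw ℕ} {v' : Vw ℝ} {t : Tw ℕ} {t' : Tw ℝ} (hv : RV4 C r v v')
    (ht : RT C r t t') (R : List Pk) (hR : R.all (fit (r.E, r.D)) = true) (hKr : 1 ≤ r.K) (b : Bw)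
    (hb : bxOK r b = true) : C3 C r.E r.D (MB0 r b) (MW C.om r R b v t) (MW C.rr r R b v' t') := by
  unfold bxOK at hb
  simp only [Bool.and_eq_true, List.all_eq_true] at hb
  obtain ⟨⟨⟨⟨⟨⟨⟨⟨-, hK⟩, -⟩, h1⟩, h2⟩, h3⟩, h4⟩, -⟩, -⟩ := hb
  rw [Nat.ble_eq] at hK
  unfold MW
  exact C3.vSub (pkmRw hv R hR hKr) (C3.vAdd (pkmGr hv ht b.K b.h hK b.gr h1) (C3.vAdd (pkmDt hv ht b.K b.h hK b.dt h2)
    (C3.vAdd (pkmW4 hv ht b.K b.h hK b.w4 h3) (pkmZr hv ht b.K b.h hK b.zr h4))))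

theorem gzW_rel {C : Cx} {r : Rd} {v : Vw ℕ} {v' : Vw ℝ} {t : Tw ℕ} {t' : Tw ℝ} (hv : RV4 C r v v')
    (ht : RT C r t t') (b : Bw) (hb : bxOK r b = true) :
    C3 C r.E r.D (gzB b.K b.h r b.gz) (gzW C.om b.K b.h v r t (cnt r.ac * (cnt r.ac + 1) / 2) b.gz)
      (gzW C.rr b.K b.h v' r t' (cnt r.ac * (cnt r.ac + 1) / 2) b.gz) := by
  unfold bxOK at hb
  simp only [Bool.and_eq_true, List.all_eq_true] at hb
  obtain ⟨⟨⟨⟨⟨⟨⟨⟨-, hK⟩, -⟩, -⟩, -⟩, -⟩, -⟩, h5⟩, -⟩ := hb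
  rw [Nat.ble_eq] at hK
  exact pkmGz hv ht b.K b.h hK _ b.gz h5 _

end Pool.Agent.MCA
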