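import Pool.Agent.MCA.PKX
import Pool.Agent.MTR.PRD
import Pool.Agent.MSQ.EvD
/-!
PKN (140 lines). The products are nonnegative; closure of the box.

PROOF. `itR_nn`: as `sumI_nn` in CHK.lean: scalar products, `tr2` (`MTR.PRD`; `psd2` of the multipliers, psd of the matrix
of values from `m11, m22, m12`), `det`: `m12² ≤ m11 m22`, `tr4` for `krR`, zero forms, `g_i ≥ 0`. Indices out of range give
forms with value `0`. `clos`: `F` is continuous, `{F ≥ 0}` is closed and contains the half open box, its closure is the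
closed box (`x0 < x1`, `y0 < y1`): `closure_prod_eq`, `closure_Ico`, or move the point along the segment to the corner
`(x0 / qx, y0 / qy)` as in the end of MSQ/ChkS. Continuity of all terms in `(x, y)` for fixed `s`: `continuous_ev`
(MSQ/EvD), `lv`, `qf`, `dotL` by induction on the lists.
-/
set_option autoImplicit false

open Pool.Agent.MSQ Pool.Agent.MTR Pool.Agent.PKD

namespace Pool.Agent.MCA

private theorem pkn_rep (x y : ℝ) (n : ℕ) (s : List ℝ) : lv x y (List.replicate n []) s = 0 := by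
  unfold lv
  induction n generalizing s with
  | zero => simp [evE, dotL]
  | succ n ih =>
    cases s with
    | nil => simp [evE, dotL, List.replicate_succ]
    | cons a s =>
      have h := ih s
      simp only [evE] at h
      simp only [evE, List.replicate_succ, List.map_cons, dotL, h, ev]
      ring

private theorem pkn_zL (x y : ℝ) (s : List ℝ) : lv x y zL s = 0 := pkn_rep x y 11 s

private theorem pkn_getD {α : Type} (l : List α) (i : ℕ) (d : α) : l.getD i d ∈ l ∨ l.getD i d = d := by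
  rcases Nat.lt_or_ge i l.length with h | h
  · left
    rw [List.getD_eq_getElem l d h]
    exact List.getElem_mem h
  · right
    exact List.getD_eq_default l d h

private theorem pkn_psd {A0 A1 A2 : ℝ} (h0 : 0 ≤ A0) (h2 : 0 ≤ A2) (h1 : A1 ^ 2 ≤ A0 * A2) (p q : ℝ) :
    0 ≤ p ^ 2 * A0 + 2 * p * q * A1 + q ^ 2 * A2 := by
  have hx : 0 ≤ p ^ 2 * A0 := mul_nonneg (sq_nonneg _) h0
  have hy : 0 ≤ q ^ 2 * A2 := mul_nonneg (sq_nonneg _) h2
  have hz : (p * q * A1) ^ 2 ≤ (p ^ 2 * A0) * (q ^ 2 * A2) := by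
    have h3 : p ^ 2 * q ^ 2 * A1 ^ 2 ≤ p ^ 2 * q ^ 2 * (A0 * A2) :=
      mul_le_mul_of_nonneg_left h1 (by positivity)
    nlinarith
  by_contra hneg
  push Not at hneg
  have h4 : p ^ 2 * A0 + q ^ 2 * A2 < -(2 * (p * q * A1)) := by linarith
  nlinarith [sq_nonneg (p ^ 2 * A0 - q ^ 2 * A2), add_nonneg hx hy]

private structure PknV (rg : Rgn) (x y : ℝ) (s : List ℝ) : Prop where
  f : ∀ i, 0 ≤ lv x y (fS rg i) s
  z : ∀ i, lv x y (zS rg i) s = 0
  m11 : ∀ i, 0 ≤ lv x y (mS rg i).m11 s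
  m22 : ∀ i, 0 ≤ lv x y (mS rg i).m22 s
  m12 : ∀ i, lv x y (mS rg i).m12 s ^ 2 ≤ lv x y (mS rg i).m11 s * lv x y (mS rg i).m22 s
  g : ∀ i, 0 ≤ ev x y (gS rg i)

private theorem pkn_vl (rg : Rgn) (x y : ℝ) (s : List ℝ) (hr : ROK rg x y s) : PknV rg x y s := by
  refine ⟨fun i => ?_, fun i => ?_, fun i => ?_, fun i => ?_, fun i => ?_, fun i => ?_⟩
  · rcases pkn_getD rg.fs i zL with h | h
    · exact hr.f _ h
    · rw [fS, h, pkn_zL]
  · rcases pkn_getD rg.zs i zL with h | h
    · exact hr.z _ h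
    · rw [zS, h, pkn_zL]
  · rcases pkn_getD rg.ms i ⟨zL, zL, zL⟩ with h | h
    · exact hr.m11 _ h
    · rw [mS, h, pkn_zL]
  · rcases pkn_getD rg.ms i ⟨zL, zL, zL⟩ with h | h
    · exact hr.m22 _ h
    · rw [mS, h, pkn_zL]
  · rcases pkn_getD rg.ms i ⟨zL, zL, zL⟩ with h | h
    · exact hr.m12 _ h
    · rw [mS, h]
      simp only [pkn_zL]
      norm_num
  · rcases pkn_getD rg.gs i [] with h | h
    · exact hr.g _ h
    · rw [gS, h]
      exact le_of_eq rfl

private theorem pkn_pr {K h : ℕ} {rg : Rgn} {x y : ℝ} {s : List ℝ} (V : PknV rg x y s) (l : List (ℕ × Pk))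
    (hl : ∀ z ∈ l, 0 ≤ vP K h x y z.2) : 0 ≤ prR K h rg x y s l := by
  induction l with
  | nil => exact le_of_eq rfl
  | cons z l ih =>
    unfold prR
    exact add_nonneg (mul_nonneg (hl z List.mem_cons_self) (V.f _))
      (ih fun w hw => hl w (List.mem_cons_of_mem z hw))

private theorem pkn_tr {K h : ℕ} {rg : Rgn} {x y : ℝ} {s : List ℝ} (V : PknV rg x y s)
    (l : List (ℕ × Pk × Pk × Pk))
    (hl : ∀ z ∈ l, psd2 [vP K h x y z.2.1, vP K h x y z.2.2.1, vP K h x y z.2.2.2]) :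
    0 ≤ trR K h rg x y s l := by
  induction l with
  | nil => exact le_of_eq rfl
  | cons z l ih =>
    unfold trR
    refine add_nonneg ?_ (ih fun w hw => hl w (List.mem_cons_of_mem z hw))
    exact tr2 (hl z List.mem_cons_self) (pkn_psd (V.m11 _) (V.m22 _) (V.m12 _))

private theorem pkn_gr {K h : ℕ} {rg : Rgn} {x y : ℝ} {s : List ℝ} (V : PknV rg x y s) (l : List Gw)
    (h1 : ∀ g ∈ l, ∀ z ∈ g.pr, 0 ≤ vP K h x y z.2)
    (h2 : ∀ g ∈ l, ∀ z ∈ g.mm, psd2 [vP K h x y z.2.1, vP K h x y z.2.2.1, vP K h x y z.2.2.2]) :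
    0 ≤ grR K h rg x y s l := by
  induction l with
  | nil => exact le_of_eq rfl
  | cons g l ih =>
    unfold grR
    refine add_nonneg (mul_nonneg (V.f _) (add_nonneg (pkn_pr V _ (h1 g List.mem_cons_self))
      (pkn_tr V _ (h2 g List.mem_cons_self)))) ?_
    exact ih (fun w hw => h1 w (List.mem_cons_of_mem g hw)) (fun w hw => h2 w (List.mem_cons_of_mem g hw))

private theorem pkn_dt {K h : ℕ} {rg : Rgn} {x y : ℝ} {s : List ℝ} (V : PknV rg x y s) (l : List (ℕ × Pk))
    (hl : ∀ z ∈ l, 0 ≤ vP K h x y z.2) : 0 ≤ dtR K h rg x y s l := by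
  induction l with
  | nil => exact le_of_eq rfl
  | cons z l ih =>
    unfold dtR
    refine add_nonneg (mul_nonneg (hl z List.mem_cons_self) ?_) (ih fun w hw => hl w (List.mem_cons_of_mem z hw))
    have := V.m12 z.1
    rw [pow_two] at this
    linarith

private theorem pkn_kr {u : List ℝ} (hu : psd4 u) {a0 a1 a2 b0 b1 b2 : ℝ}
    (hA : ∀ p q : ℝ, 0 ≤ p ^ 2 * a0 + 2 * p * q * a1 + q ^ 2 * a2)
    (hB : ∀ p q : ℝ, 0 ≤ p ^ 2 * b0 + 2 * p * q * b1 + q ^ 2 * b2) : 0 ≤ krR u a0 a1 a2 b0 b1 b2 := by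
  unfold psd4 at hu
  unfold krR
  split at hu
  · refine (tr4 hu hA hB).trans (le_of_eq ?_)
    ring
  · exact hu.elim

private theorem pkn_w4 {K h : ℕ} {rg : Rgn} {x y : ℝ} {s : List ℝ} (V : PknV rg x y s)
    (l : List (ℕ × ℕ × List Pk)) (hl : ∀ z ∈ l, psd4 (z.2.2.map (vP K h x y))) :
    0 ≤ w4R K h rg x y s l := by
  induction l with
  | nil => exact le_of_eq rfl
  | cons z l ih =>
    unfold w4R
    refine add_nonneg ?_ (ih fun w hw => hl w (List.mem_cons_of_mem z hw))
    exact pkn_kr (hl z List.mem_cons_self) (pkn_psd (V.m11 _) (V.m22 _) (V.m12 _))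
      (pkn_psd (V.m11 _) (V.m22 _) (V.m12 _))

private theorem pkn_zr {K h : ℕ} {rg : Rgn} {x y : ℝ} {s : List ℝ} (V : PknV rg x y s)
    (l : List (ℕ × List Pk)) : zrR K h rg x y s l = 0 := by
  induction l with
  | nil => rfl
  | cons z l ih =>
    unfold zrR
    rw [ih, V.z, zero_mul, add_zero]

private theorem pkn_gz {K h : ℕ} {rg : Rgn} {ac : List Bool} {x y : ℝ} {s : List ℝ} (V : PknV rg x y s)
    (l : List (ℕ × ℕ × List Pk)) (hl : ∀ z ∈ l, 0 ≤ qf (z.2.2.map (vP K h x y)) (selL ac s)) :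
    0 ≤ gzR K h rg ac x y s l := by
  induction l with
  | nil => exact le_of_eq rfl
  | cons z l ih =>
    unfold gzR
    exact add_nonneg (mul_nonneg (V.g _) (hl z List.mem_cons_self))
      (ih fun w hw => hl w (List.mem_cons_of_mem z hw))

theorem itR_nn (rg : Rgn) (r : Rd) (b : Bw) (x y : ℝ) (s : List ℝ) (hs : s.length = 11) (hac : r.ac.length = 11)
    (hr : ROK rg x y s) (hP : POS r b x y) : 0 ≤ itR rg r b x y s := by
  have V := pkn_vl rg x y s hr
  have hlen : (selL r.ac s).length = cnt r.ac := selL_len r.ac s (by rw [hs, hac])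
  unfold itR it0
  refine add_nonneg (add_nonneg (pkn_gr V _ hP.pr hP.mm) (add_nonneg (pkn_dt V _ hP.dt)
    (add_nonneg (pkn_w4 V _ hP.w4) (le_of_eq (pkn_zr V _).symm)))) ?_
  exact pkn_gz V _ fun z hz => hP.gz z hz _ hlen

theorem clos (b : Bw) (hqx : 1 ≤ b.qx) (hqy : 1 ≤ b.qy) (hx : b.x0 < b.x1) (hy : b.y0 < b.y1) (F : ℝ → ℝ → ℝ)
    (hF : Continuous fun z : ℝ × ℝ => F z.1 z.2) (h : ∀ x y, inH b x y → 0 ≤ F x y) (x y : ℝ)
    (hb : inI (itB b) x y) : 0 ≤ F x y := by
  have hqx' : (0 : ℝ) < b.qx := by exact_mod_cast hqx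
  have hqy' : (0 : ℝ) < b.qy := by exact_mod_cast hqy
  have hx' : (b.x0 : ℝ) < b.x1 := by exact_mod_cast hx
  have hy' : (b.y0 : ℝ) < b.y1 := by exact_mod_cast hy
  unfold inI itB at hb
  simp only [Int.cast_natCast] at hb
  obtain ⟨-, -, h1, h2, h3, h4⟩ := hb
  have hpt : ∀ t : ℝ, 0 < t → t < 1 →
      0 ≤ F ((1 - t) * x + t * (b.x0 / b.qx)) ((1 - t) * y + t * (b.y0 / b.qy)) := by
    intro t ht ht1
    apply h
    have e1 : (b.qx : ℝ) * ((1 - t) * x + t * (b.x0 / b.qx)) = (1 - t) * (b.qx * x) + t * b.x0 := by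
      field_simp
    have e2 : (b.qy : ℝ) * ((1 - t) * y + t * (b.y0 / b.qy)) = (1 - t) * (b.qy * y) + t * b.y0 := by
      field_simp
    unfold inH
    rw [e1, e2]
    refine ⟨?_, ?_, ?_, ?_⟩ <;> nlinarith
  have hc : Continuous fun t : ℝ =>
      F ((1 - t) * x + t * (b.x0 / b.qx)) ((1 - t) * y + t * (b.y0 / b.qy)) :=
    hF.comp (f := fun t : ℝ => (((1 - t) * x + t * (b.x0 / b.qx), (1 - t) * y + t * (b.y0 / b.qy)) : ℝ × ℝ))
      (by fun_prop)
  have hlim : Filter.Tendsto (fun t : ℝ =>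
      F ((1 - t) * x + t * (b.x0 / b.qx)) ((1 - t) * y + t * (b.y0 / b.qy)))
      (nhdsWithin 0 (Set.Ioi 0)) (nhds (F x y)) := by
    have := hc.tendsto 0
    simp only [sub_zero, one_mul, zero_mul, add_zero] at this
    exact this.mono_left nhdsWithin_le_nhds
  refine ge_of_tendsto hlim ?_
  have h5 : ∀ᶠ t : ℝ in nhdsWithin 0 (Set.Ioi 0), t < 1 :=
    nhdsWithin_le_nhds (gt_mem_nhds one_pos)
  filter_upwards [h5, self_mem_nhdsWithin] with t ht1 ht0
  exact hpt t ht0 ht1

theorem cont_lv (l : LF) (s : List ℝ) : Continuous fun z : ℝ × ℝ => lv z.1 z.2 l s := by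
  unfold lv
  induction l generalizing s with
  | nil =>
    simp only [evE, List.map_nil, dotL]
    exact continuous_const
  | cons p l ih =>
    cases s with
    | nil =>
      simp only [evE, List.map_cons, dotL]
      exact continuous_const
    | cons a s =>
      simp only [evE, List.map_cons, dotL]
      exact ((continuous_ev p).mul continuous_const).add (ih s)

theorem cont_qf (R : List P) (s : List ℝ) : Continuous fun z : ℝ × ℝ => qf (evE z.1 z.2 R) s := by
  induction s generalizing R with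
  | nil =>
    simp only [qf]
    exact continuous_const
  | cons a s ih =>
    have e : ∀ z : ℝ × ℝ, qf (evE z.1 z.2 R) (a :: s) =
        a * lv z.1 z.2 (R.take (s.length + 1)) (a :: s) + qf (evE z.1 z.2 (R.drop (s.length + 1))) s := by
      intro z
      simp only [qf, lv, evE, List.map_take, List.map_drop]
    simp only [e]
    exact (continuous_const.mul (cont_lv _ _)).add (ih _)

private theorem pkn_cvP (K h : ℕ) (p : Pk) : Continuous fun z : ℝ × ℝ => vP K h z.1 z.2 p := continuous_ev _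

private theorem pkn_cqf (K h : ℕ) (l : List Pk) (s : List ℝ) :
    Continuous fun z : ℝ × ℝ => qf (l.map (vP K h z.1 z.2)) s := by
  have e : ∀ z : ℝ × ℝ, l.map (vP K h z.1 z.2) = evE z.1 z.2 (l.map (unp K h)) := by
    intro z
    unfold evE
    rw [List.map_map]
    rfl
  simp only [e]
  exact cont_qf _ s

private theorem pkn_cdot (K h : ℕ) (l : List Pk) (s : List ℝ) :
    Continuous fun z : ℝ × ℝ => dotL (l.map (vP K h z.1 z.2)) s := by
  have e : ∀ z : ℝ × ℝ, dotL (l.map (vP K h z.1 z.2)) s = lv z.1 z.2 (l.map (unp K h)) s := by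
    intro z
    unfold lv evE
    rw [List.map_map]
    rfl
  simp only [e]
  exact cont_lv _ s

private theorem pkn_len10 {α : Type} (l : List α) (hl : l.length = 10) :
    ∃ p0 p1 p2 p3 p4 p5 p6 p7 p8 p9 : α, l = [p0, p1, p2, p3, p4, p5, p6, p7, p8, p9] := by
  match l, hl with
  | [p0, p1, p2, p3, p4, p5, p6, p7, p8, p9], _ => exact ⟨p0, p1, p2, p3, p4, p5, p6, p7, p8, p9, rfl⟩

private theorem pkn_krne (u : List ℝ) (hu : u.length ≠ 10) (a0 a1 a2 b0 b1 b2 : ℝ) :
    krR u a0 a1 a2 b0 b1 b2 = 0 := by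
  unfold krR
  split
  · exact absurd rfl hu
  · rfl

private theorem pkn_ckr (K h : ℕ) (l : List Pk) (a0 a1 a2 b0 b1 b2 : ℝ × ℝ → ℝ) (h1 : Continuous a0)
    (h2 : Continuous a1) (h3 : Continuous a2) (h4 : Continuous b0) (h5 : Continuous b1) (h6 : Continuous b2) :
    Continuous fun z : ℝ × ℝ => krR (l.map (vP K h z.1 z.2)) (a0 z) (a1 z) (a2 z) (b0 z) (b1 z) (b2 z) := by
  by_cases hl : l.length = 10
  · obtain ⟨p0, p1, p2, p3, p4, p5, p6, p7, p8, p9, rfl⟩ := pkn_len10 l hl
    have c0 := pkn_cvP K h p0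
    have c1 := pkn_cvP K h p1
    have c2 := pkn_cvP K h p2
    have c3 := pkn_cvP K h p3
    have c4 := pkn_cvP K h p4
    have c5 := pkn_cvP K h p5
    have c6 := pkn_cvP K h p6
    have c7 := pkn_cvP K h p7
    have c8 := pkn_cvP K h p8
    have c9 := pkn_cvP K h p9
    simp only [List.map_cons, List.map_nil, krR]
    fun_prop
  · have e : ∀ z : ℝ × ℝ, krR (l.map (vP K h z.1 z.2)) (a0 z) (a1 z) (a2 z) (b0 z) (b1 z) (b2 z) = 0 :=
      fun z => pkn_krne _ (by rw [List.length_map]; exact hl) _ _ _ _ _ _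
    simp only [e]
    exact continuous_const

private theorem pkn_cpr (K h : ℕ) (rg : Rgn) (s : List ℝ) (l : List (ℕ × Pk)) :
    Continuous fun z : ℝ × ℝ => prR K h rg z.1 z.2 s l := by
  induction l with
  | nil => exact continuous_const
  | cons w l ih =>
    simp only [prR]
    exact ((pkn_cvP K h _).mul (cont_lv _ s)).add ih

private theorem pkn_ctr (K h : ℕ) (rg : Rgn) (s : List ℝ) (l : List (ℕ × Pk × Pk × Pk)) :
    Continuous fun z : ℝ × ℝ => trR K h rg z.1 z.2 s l := by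
  induction l with
  | nil => exact continuous_const
  | cons w l ih =>
    simp only [trR]
    exact ((((pkn_cvP K h _).mul (cont_lv _ s)).add
      ((continuous_const.mul (pkn_cvP K h _)).mul (cont_lv _ s))).add
      ((pkn_cvP K h _).mul (cont_lv _ s))).add ih

private theorem pkn_cgr (K h : ℕ) (rg : Rgn) (s : List ℝ) (l : List Gw) :
    Continuous fun z : ℝ × ℝ => grR K h rg z.1 z.2 s l := by
  induction l with
  | nil => exact continuous_const
  | cons w l ih =>
    simp only [grR]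
    exact ((cont_lv _ s).mul ((pkn_cpr K h rg s _).add (pkn_ctr K h rg s _))).add ih

private theorem pkn_cdt (K h : ℕ) (rg : Rgn) (s : List ℝ) (l : List (ℕ × Pk)) :
    Continuous fun z : ℝ × ℝ => dtR K h rg z.1 z.2 s l := by
  induction l with
  | nil => exact continuous_const
  | cons w l ih =>
    simp only [dtR]
    exact ((pkn_cvP K h _).mul (((cont_lv _ s).mul (cont_lv _ s)).sub
      ((cont_lv _ s).mul (cont_lv _ s)))).add ih

private theorem pkn_cw4 (K h : ℕ) (rg : Rgn) (s : List ℝ) (l : List (ℕ × ℕ × List Pk)) :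
    Continuous fun z : ℝ × ℝ => w4R K h rg z.1 z.2 s l := by
  induction l with
  | nil => exact continuous_const
  | cons w l ih =>
    simp only [w4R]
    exact (pkn_ckr K h _ _ _ _ _ _ _ (cont_lv _ s) (cont_lv _ s) (cont_lv _ s) (cont_lv _ s) (cont_lv _ s)
      (cont_lv _ s)).add ih

private theorem pkn_czr (K h : ℕ) (rg : Rgn) (s : List ℝ) (l : List (ℕ × List Pk)) :
    Continuous fun z : ℝ × ℝ => zrR K h rg z.1 z.2 s l := by
  induction l with
  | nil => exact continuous_const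
  | cons w l ih =>
    simp only [zrR]
    exact ((cont_lv _ s).mul (pkn_cdot K h _ s)).add ih

private theorem pkn_cgz (K h : ℕ) (rg : Rgn) (ac : List Bool) (s : List ℝ) (l : List (ℕ × ℕ × List Pk)) :
    Continuous fun z : ℝ × ℝ => gzR K h rg ac z.1 z.2 s l := by
  induction l with
  | nil => exact continuous_const
  | cons w l ih =>
    simp only [gzR]
    exact ((continuous_ev _).mul (pkn_cqf K h _ _)).add ih

theorem cont_itR (rg : Rgn) (r : Rd) (b : Bw) (s : List ℝ) : Continuous fun z : ℝ × ℝ => itR rg r b z.1 z.2 s := by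
  unfold itR it0
  exact ((pkn_cgr _ _ rg s _).add ((pkn_cdt _ _ rg s _).add ((pkn_cw4 _ _ rg s _).add
    (pkn_czr _ _ rg s _)))).add (pkn_cgz _ _ rg r.ac s _)

/-- positivity of the multipliers extends to the closed box -/
theorem POS_clos (r : Rd) (b : Bw) (hqx : 1 ≤ b.qx) (hqy : 1 ≤ b.qy) (hx : b.x0 < b.x1) (hy : b.y0 < b.y1)
    (h : ∀ x y, inH b x y → POS r b x y) (x y : ℝ) (hb : inI (itB b) x y) : POS r b x y := by
  have C := clos b hqx hqy hx hy
  have hcor : inH b (b.x0 / b.qx) (b.y0 / b.qy) := by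
    have hqx' : (b.qx : ℝ) ≠ 0 := by
      have : 0 < b.qx := hqx
      exact_mod_cast this.ne'
    have hqy' : (b.qy : ℝ) ≠ 0 := by
      have : 0 < b.qy := hqy
      exact_mod_cast this.ne'
    have hx' : (b.x0 : ℝ) < b.x1 := by exact_mod_cast hx
    have hy' : (b.y0 : ℝ) < b.y1 := by exact_mod_cast hy
    unfold inH
    rw [mul_div_cancel₀ _ hqx', mul_div_cancel₀ _ hqy']
    exact ⟨le_rfl, hx', le_rfl, hy'⟩
  refine ⟨?_, ?_, ?_, ?_, ?_⟩
  · intro g hg z hz
    exact C (fun x y => vP b.K b.h x y z.2) (pkn_cvP _ _ _) (fun x y hxy => (h x y hxy).pr g hg z hz) x y hb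
  · intro g hg z hz
    intro p q
    refine C (fun x y => vP b.K b.h x y z.2.1 * p ^ 2 + 2 * vP b.K b.h x y z.2.2.1 * (p * q) +
      vP b.K b.h x y z.2.2.2 * q ^ 2) ?_ (fun x y hxy => (h x y hxy).mm g hg z hz p q) x y hb
    have c1 := pkn_cvP b.K b.h z.2.1
    have c2 := pkn_cvP b.K b.h z.2.2.1
    have c3 := pkn_cvP b.K b.h z.2.2.2
    fun_prop
  · intro z hz
    exact C (fun x y => vP b.K b.h x y z.2) (pkn_cvP _ _ _) (fun x y hxy => (h x y hxy).dt z hz) x y hb
  · intro z hz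
    have hlen : z.2.2.length = 10 := by
      have h1 := (h _ _ hcor).w4 z hz
      unfold psd4 at h1
      split at h1
      · rename_i heq
        have := congrArg List.length heq
        rw [List.length_map] at this
        exact this
      · exact h1.elim
    have hall := fun x y hxy => (h x y hxy).w4 z hz
    obtain ⟨p0, p1, p2, p3, p4, p5, p6, p7, p8, p9, he⟩ := pkn_len10 z.2.2 hlen
    rw [he] at hall ⊢
    intro p q u v
    refine C (fun x y => vP b.K b.h x y p0 * p ^ 2 + 2 * vP b.K b.h x y p1 * (p * q) +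
      2 * vP b.K b.h x y p2 * (p * u) + 2 * vP b.K b.h x y p3 * (p * v) + vP b.K b.h x y p4 * q ^ 2 +
      2 * vP b.K b.h x y p5 * (q * u) + 2 * vP b.K b.h x y p6 * (q * v) + vP b.K b.h x y p7 * u ^ 2 +
      2 * vP b.K b.h x y p8 * (u * v) + vP b.K b.h x y p9 * v ^ 2) ?_
      (fun x y hxy => hall x y hxy p q u v) x y hb
    have c0 := pkn_cvP b.K b.h p0
    have c1 := pkn_cvP b.K b.h p1
    have c2 := pkn_cvP b.K b.h p2
    have c3 := pkn_cvP b.K b.h p3
    have c4 := pkn_cvP b.K b.h p4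
    have c5 := pkn_cvP b.K b.h p5
    have c6 := pkn_cvP b.K b.h p6
    have c7 := pkn_cvP b.K b.h p7
    have c8 := pkn_cvP b.K b.h p8
    have c9 := pkn_cvP b.K b.h p9
    fun_prop
  · intro z hz s hs
    exact C (fun x y => qf (z.2.2.map (vP b.K b.h x y)) s) (pkn_cqf _ _ _ _)
      (fun x y hxy => (h x y hxy).gz z hz s hs) x y hb

end Pool.Agent.MCA
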