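import Pool.Agent.MCA.PKV
import Pool.Agent.PKD.RC2
/-!
PKQ (150 lines). Real value of the matrix.

PROOF. One lemma for each of `prW` (`dotL = hm d * prR`), `trW`, `grW` (`qf = hm (E, D) * grR`), `dtW`, `w4W`, `zrW`,
`gzW`; inductions, with the lengths (11 resp. 66) of all lists as second statements (`qf_vAdd`, `qf_vMul`, ... of PKD/RQF
need equal lengths; the length of `vMul` of two lists of length 11 is 66, see `len_vMul` in PKD/RC2). Degrees:
`hm v (s2 d e) * hm v e = hm v d` for `le2 e d`. `pkv_val` for the multipliers, `TE` for the forms.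
-/
set_option autoImplicit false

open Pool.Agent.MSQ Pool.Agent.MTR Pool.Agent.PKD

namespace Pool.Agent.MCA

/-! ### lengths -/

private theorem pkqRow {α : Type} (O : Ops α) (l m : α) (t : List α) {A B : List α} (h : A.length = B.length) :
    (rowK O l m t A B).length = A.length + t.length := by
  induction A generalizing B with
  | nil =>
    cases B with
    | nil => simp only [List.length_nil, Nat.zero_add]; rfl
    | cons b B => simp at h
  | cons a A ih =>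
    cases B with
    | nil => simp at h
    | cons b B =>
      have h1 : A.length = B.length := by simpa using h
      have h2 := ih h1
      show (rowK O l m t A B).length + 1 = A.length + 1 + t.length
      omega

private def pkqTri : ℕ → ℕ
  | 0 => 0
  | n + 1 => n + 1 + pkqTri n

private theorem pkqLen {α : Type} (O : Ops α) {A B : List α} (h : A.length = B.length) :
    (vMul O A B).length = pkqTri A.length := by
  induction A generalizing B with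
  | nil => rfl
  | cons a A ih =>
    cases B with
    | nil => simp at h
    | cons b B =>
      have h1 : A.length = B.length := by simpa using h
      have h2 := pkqRow O a b (vMul O A B) h1
      have h3 := ih h1
      show (rowK O a b (vMul O A B) A B).length + 1 = A.length + 1 + pkqTri A.length
      omega

private theorem pkqMul {α : Type} (O : Ops α) {A B : List α} (hA : A.length = 11) (hB : B.length = 11) :
    (vMul O A B).length = 66 := by
  rw [pkqLen O (hA.trans hB.symm), hA]; rfl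

private theorem pkqAdd {α : Type} (O : Ops α) {A B : List α} {k : ℕ} (hA : A.length = k) (hB : B.length = k) :
    (vAdd O A B).length = k := by rw [len_vAdd O (hA.trans hB.symm), hA]
private theorem pkqSub {α : Type} (O : Ops α) {A B : List α} {k : ℕ} (hA : A.length = k) (hB : B.length = k) :
    (vSub O A B).length = k := by rw [len_vSub O (hA.trans hB.symm), hA]
private theorem pkqSm {α : Type} (O : Ops α) (c : α) {A : List α} {k : ℕ} (hA : A.length = k) :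
    (vSm O c A).length = k := by rw [len_vSm, hA]
private theorem pkqZ {α : Type} (O : Ops α) (k : ℕ) : (zK O k).length = k := by
  simp only [zK, List.length_replicate]

section
variable (τ σ : ℝ) {v : Vw ℝ} {x y : ℝ} {t : Tw ℝ} {rg : Rgn} {r : Rd}

private theorem pkqV3L {p q s : ℝ} {M : List ℝ × List ℝ × List ℝ} (h1 : M.1.length = 11)
    (h2 : M.2.1.length = 11) (h3 : M.2.2.length = 11) : (v3 (OR τ σ) p q s M).length = 11 := by
  unfold v3
  exact pkqAdd _ (pkqSm _ _ h1) (pkqAdd _ (pkqSm _ _ h2) (pkqSm _ _ h3))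

private theorem pkqPrL (ht : TE (OR τ σ) rg r v x y t) (K h : ℕ) (d : ℕ × ℕ) (l : List (ℕ × Pk)) :
    (prW (OR τ σ) K h v r t d l).length = 11 := by
  induction l with
  | nil => exact pkqZ _ _
  | cons z l ih => exact pkqAdd _ (pkqSm _ _ (ht.lF _)) ih

private theorem pkqTrL (ht : TE (OR τ σ) rg r v x y t) (K h : ℕ) (d : ℕ × ℕ) (l : List (ℕ × Pk × Pk × Pk)) :
    (trW (OR τ σ) K h v r t d l).length = 11 := by
  induction l with
  | nil => exact pkqZ _ _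
  | cons z l ih => exact pkqAdd _ (pkqV3L τ σ (ht.lM1 _) (ht.lM2 _) (ht.lM3 _)) ih

private theorem pkqGrL (ht : TE (OR τ σ) rg r v x y t) (K h : ℕ) (l : List Gw) :
    (grW (OR τ σ) K h v r t l).length = 66 := by
  induction l with
  | nil => exact pkqZ _ _
  | cons z l ih =>
    exact pkqAdd _ (pkqMul _ (ht.lF _) (pkqAdd _ (pkqPrL τ σ ht _ _ _ _) (pkqTrL τ σ ht _ _ _ _))) ih

private theorem pkqDtL (ht : TE (OR τ σ) rg r v x y t) (K h : ℕ) (l : List (ℕ × Pk)) :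
    (dtW (OR τ σ) K h v r t l).length = 66 := by
  induction l with
  | nil => exact pkqZ _ _
  | cons z l ih =>
    exact pkqAdd _ (pkqSm _ _ (pkqSub _ (pkqMul _ (ht.lM1 _) (ht.lM3 _)) (pkqMul _ (ht.lM2 _) (ht.lM2 _)))) ih

private theorem pkqKrL {u : List ℝ} {A B : List ℝ × List ℝ × List ℝ} (hA1 : A.1.length = 11)
    (hA2 : A.2.1.length = 11) (hA3 : A.2.2.length = 11) (hB1 : B.1.length = 11)
    (hB2 : B.2.1.length = 11) (hB3 : B.2.2.length = 11) : (krW (OR τ σ) u A B).length = 66 := by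
  unfold krW
  split
  · exact pkqAdd _ (pkqMul _ hA1 (pkqV3L τ σ hB1 hB2 hB3)) (pkqAdd _ (pkqMul _ hA2 (pkqV3L τ σ hB1 hB2 hB3))
      (pkqMul _ hA3 (pkqV3L τ σ hB1 hB2 hB3)))
  · exact pkqZ _ _

private theorem pkqW4L (ht : TE (OR τ σ) rg r v x y t) (K h : ℕ) (l : List (ℕ × ℕ × List Pk)) :
    (w4W (OR τ σ) K h v r t l).length = 66 := by
  induction l with
  | nil => exact pkqZ _ _
  | cons z l ih =>
    exact pkqAdd _ (pkqKrL τ σ (ht.lM1 _) (ht.lM2 _) (ht.lM3 _) (ht.lM1 _) (ht.lM2 _) (ht.lM3 _)) ih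

private theorem pkqZrL (ht : TE (OR τ σ) rg r v x y t) (K h : ℕ) (l : List (ℕ × List Pk))
    (hl : l.all (fZr r) = true) : (zrW (OR τ σ) K h v r t l).length = 66 := by
  induction l with
  | nil => exact pkqZ _ _
  | cons z l ih =>
    rw [List.all_cons, Bool.and_eq_true] at hl
    have h1 := hl.1
    simp only [fZr, Bool.and_eq_true] at h1
    have h2 : z.2.length = 11 := Nat.eq_of_beq_eq_true h1.2
    refine pkqAdd _ (pkqMul _ (ht.lZ _) ?_) (ih hl.2)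
    rw [List.length_map, h2]

private theorem pkqGzL (K h k : ℕ) (l : List (ℕ × ℕ × List Pk))
    (hl : l.all (fGz r k) = true) : (gzW (OR τ σ) K h v r t k l).length = k := by
  induction l with
  | nil => exact pkqZ _ _
  | cons z l ih =>
    rw [List.all_cons, Bool.and_eq_true] at hl
    have h1 := hl.1
    simp only [fGz, Bool.and_eq_true] at h1
    have h2 : z.2.2.length = k := Nat.eq_of_beq_eq_true h1.2
    refine pkqAdd _ (pkqSm _ _ ?_) (ih hl.2)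
    rw [List.length_map, h2]

/-! ### values -/

private theorem pkqHm {d e : ℕ × ℕ} (h : le2 e d = true) : hm v (s2 d e) * hm v e = hm v d := by
  simp only [le2, Bool.and_eq_true] at h
  have h1 : e.1 ≤ d.1 := Nat.le_of_ble_eq_true h.1
  have h2 : e.2 ≤ d.2 := Nat.le_of_ble_eq_true h.2
  have e1 : v.A ^ (d.1 - e.1) * v.A ^ e.1 = v.A ^ d.1 := by rw [← pow_add, Nat.sub_add_cancel h1]
  have e2 : v.B ^ (d.2 - e.2) * v.B ^ e.2 = v.B ^ d.2 := by rw [← pow_add, Nat.sub_add_cancel h2]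
  show v.A ^ (d.1 - e.1) * v.B ^ (d.2 - e.2) * (v.A ^ e.1 * v.B ^ e.2) = v.A ^ d.1 * v.B ^ d.2
  rw [← e1, ← e2]; ring

private theorem pkqSmMap (c : ℝ) (A : List ℝ) : vSm (OR τ σ) c A = A.map (fun a => c * a) := by
  induction A with
  | nil => rfl
  | cons a A ih =>
    show (c * a) :: vSm (OR τ σ) c A = _
    rw [ih, List.map_cons]

/-- the list of multipliers -/
private theorem pkqMap (hv : VE v x y) {K h : ℕ} (hK : 1 ≤ K) (d : ℕ × ℕ) (l : List Pk)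
    (hl : l.all (fit d) = true) :
    l.map (pkv (OR τ σ) K h v d) = vSm (OR τ σ) (hm v d) (l.map (vP K h x y)) := by
  induction l with
  | nil => rfl
  | cons p l ih =>
    rw [List.all_cons, Bool.and_eq_true] at hl
    rw [List.map_cons, List.map_cons, ih hl.2, pkv_val τ σ hv K h hK d p hl.1]
    rfl

private theorem pkqV3 {p q u : ℝ} {M : List ℝ × List ℝ × List ℝ} (h1 : M.1.length = 11)
    (h2 : M.2.1.length = 11) (h3 : M.2.2.length = 11) (s : List ℝ) :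
    dotL (v3 (OR τ σ) p q u M) s = p * dotL M.1 s + (q * dotL M.2.1 s + u * dotL M.2.2 s) := by
  unfold v3
  have l1 := pkqSm (OR τ σ) p h1
  have l2 := pkqSm (OR τ σ) q h2
  have l3 := pkqSm (OR τ σ) u h3
  rw [dotL_vAdd τ σ (l1.trans (pkqAdd _ l2 l3).symm), dotL_vAdd τ σ (l2.trans l3.symm), dotL_vSm, dotL_vSm,
    dotL_vSm]

private theorem pkqPr (hv : VE v x y) (ht : TE (OR τ σ) rg r v x y t) {K h : ℕ} (hK : 1 ≤ K) (d : ℕ × ℕ)
    (l : List (ℕ × Pk)) (hl : (l.all fun z => le2 (dg r.dF z.1) d && fit (s2 d (dg r.dF z.1)) z.2) = true)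
    (s : List ℝ) : dotL (prW (OR τ σ) K h v r t d l) s = hm v d * prR K h rg x y s l := by
  induction l with
  | nil =>
    show dotL (List.replicate 11 ((OR τ σ).nat 0)) s = hm v d * 0
    rw [dotL_zero, mul_zero]
  | cons z l ih =>
    rw [List.all_cons, Bool.and_eq_true, Bool.and_eq_true] at hl
    show dotL (vAdd (OR τ σ) (vSm (OR τ σ) (pkv (OR τ σ) K h v (s2 d (dg r.dF z.1)) z.2) (gF (OR τ σ) t z.1))
      (prW (OR τ σ) K h v r t d l)) s = hm v d * (vP K h x y z.2 * lv x y (fS rg z.1) s + prR K h rg x y s l)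
    rw [dotL_vAdd τ σ ((pkqSm _ _ (ht.lF _)).trans (pkqPrL τ σ ht _ _ _ _).symm), dotL_vSm, ih hl.2,
      pkv_val τ σ hv K h hK _ _ hl.1.2, ht.F, ← pkqHm (v := v) hl.1.1]
    unfold vP
    ring

private theorem pkqTr (hv : VE v x y) (ht : TE (OR τ σ) rg r v x y t) {K h : ℕ} (hK : 1 ≤ K) (d : ℕ × ℕ)
    (l : List (ℕ × Pk × Pk × Pk)) (hl : (l.all fun z => le2 (dg r.dM z.1) d &&
      fit (s2 d (dg r.dM z.1)) z.2.1 && fit (s2 d (dg r.dM z.1)) z.2.2.1 &&
      fit (s2 d (dg r.dM z.1)) z.2.2.2) = true)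
    (s : List ℝ) : dotL (trW (OR τ σ) K h v r t d l) s = hm v d * trR K h rg x y s l := by
  induction l with
  | nil =>
    show dotL (List.replicate 11 ((OR τ σ).nat 0)) s = hm v d * 0
    rw [dotL_zero, mul_zero]
  | cons z l ih =>
    rw [List.all_cons, Bool.and_eq_true, Bool.and_eq_true, Bool.and_eq_true, Bool.and_eq_true] at hl
    obtain ⟨⟨⟨⟨h0, h1⟩, h2⟩, h3⟩, h4⟩ := hl
    have e0 := pkqHm (v := v) h0
    have hL := pkqV3L τ σ (p := pkv (OR τ σ) K h v (s2 d (dg r.dM z.1)) z.2.1)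
      (q := (OR τ σ).mul ((OR τ σ).nat 2) (pkv (OR τ σ) K h v (s2 d (dg r.dM z.1)) z.2.2.1))
      (s := pkv (OR τ σ) K h v (s2 d (dg r.dM z.1)) z.2.2.2) (ht.lM1 z.1) (ht.lM2 z.1) (ht.lM3 z.1)
    have e2 : (OR τ σ).mul ((OR τ σ).nat 2) (pkv (OR τ σ) K h v (s2 d (dg r.dM z.1)) z.2.2.1) =
        2 * (hm v (s2 d (dg r.dM z.1)) * ev x y (unp K h z.2.2.1)) := by
      rw [pkv_val τ σ hv K h hK _ _ h2]
      show ((2 : ℕ) : ℝ) * _ = _
      norm_num
    show dotL (vAdd (OR τ σ) (v3 (OR τ σ) (pkv (OR τ σ) K h v (s2 d (dg r.dM z.1)) z.2.1)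
      ((OR τ σ).mul ((OR τ σ).nat 2) (pkv (OR τ σ) K h v (s2 d (dg r.dM z.1)) z.2.2.1))
      (pkv (OR τ σ) K h v (s2 d (dg r.dM z.1)) z.2.2.2) (gM (OR τ σ) t z.1))
      (trW (OR τ σ) K h v r t d l)) s = hm v d * ((vP K h x y z.2.1 * lv x y (mS rg z.1).m11 s +
        2 * vP K h x y z.2.2.1 * lv x y (mS rg z.1).m12 s +
        vP K h x y z.2.2.2 * lv x y (mS rg z.1).m22 s) + trR K h rg x y s l)
    rw [dotL_vAdd τ σ (hL.trans (pkqTrL τ σ ht _ _ _ _).symm), ih h4,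
      pkqV3 τ σ (ht.lM1 z.1) (ht.lM2 z.1) (ht.lM3 z.1), e2,
      pkv_val τ σ hv K h hK _ _ h1, pkv_val τ σ hv K h hK _ _ h3, ht.M1, ht.M2, ht.M3, ← e0]
    unfold vP
    ring

private theorem pkqGr (hv : VE v x y) (ht : TE (OR τ σ) rg r v x y t) {K h : ℕ} (hK : 1 ≤ K)
    (l : List Gw) (hl : l.all (fGr r) = true) (s : List ℝ) (hs : s.length = 11) :
    qf (grW (OR τ σ) K h v r t l) s = hm v (r.E, r.D) * grR K h rg x y s l := by
  induction l with
  | nil =>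
    show qf (List.replicate 66 ((OR τ σ).nat 0)) s = hm v (r.E, r.D) * 0
    rw [qf_zero, mul_zero]
  | cons g l ih =>
    rw [List.all_cons, Bool.and_eq_true] at hl
    obtain ⟨h1, h2⟩ := hl
    simp only [fGr] at h1
    rw [Bool.and_eq_true, Bool.and_eq_true] at h1
    obtain ⟨⟨h3, h4⟩, h5⟩ := h1
    have e0 := pkqHm (v := v) h3
    have lP := pkqPrL τ σ ht K h (s2 (r.E, r.D) (dg r.dF g.i)) g.pr
    have lT := pkqTrL τ σ ht K h (s2 (r.E, r.D) (dg r.dF g.i)) g.mm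
    have lA := pkqAdd (OR τ σ) lP lT
    show qf (vAdd (OR τ σ) (vMul (OR τ σ) (gF (OR τ σ) t g.i)
      (vAdd (OR τ σ) (prW (OR τ σ) K h v r t (s2 (r.E, r.D) (dg r.dF g.i)) g.pr)
      (trW (OR τ σ) K h v r t (s2 (r.E, r.D) (dg r.dF g.i)) g.mm))) (grW (OR τ σ) K h v r t l)) s =
      hm v (r.E, r.D) * (lv x y (fS rg g.i) s * (prR K h rg x y s g.pr + trR K h rg x y s g.mm) +
        grR K h rg x y s l)
    rw [qf_vAdd τ σ ((pkqMul _ (ht.lF _) lA).trans (pkqGrL τ σ ht _ _ _).symm), ih h2,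
      qf_vMul τ σ ((ht.lF _).trans hs.symm) (lA.trans hs.symm), dotL_vAdd τ σ (lP.trans lT.symm),
      pkqPr τ σ hv ht hK _ _ h4, pkqTr τ σ hv ht hK _ _ h5, ht.F, ← e0]
    ring

private theorem pkqDt (hv : VE v x y) (ht : TE (OR τ σ) rg r v x y t) {K h : ℕ} (hK : 1 ≤ K)
    (l : List (ℕ × Pk)) (hl : l.all (fDt r) = true) (s : List ℝ) (hs : s.length = 11) :
    qf (dtW (OR τ σ) K h v r t l) s = hm v (r.E, r.D) * dtR K h rg x y s l := by
  induction l with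
  | nil =>
    show qf (List.replicate 66 ((OR τ σ).nat 0)) s = hm v (r.E, r.D) * 0
    rw [qf_zero, mul_zero]
  | cons z l ih =>
    rw [List.all_cons, Bool.and_eq_true] at hl
    obtain ⟨h1, h2⟩ := hl
    simp only [fDt] at h1
    rw [Bool.and_eq_true, Bool.and_eq_true] at h1
    obtain ⟨⟨h3, h4⟩, h5⟩ := h1
    have e0 := pkqHm (v := v) h3
    have e1 := pkqHm (v := v) h4
    have l1 := pkqMul (OR τ σ) (ht.lM1 z.1) (ht.lM3 z.1)
    have l2 := pkqMul (OR τ σ) (ht.lM2 z.1) (ht.lM2 z.1)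
    show qf (vAdd (OR τ σ) (vSm (OR τ σ) (pkv (OR τ σ) K h v (s2 (s2 (r.E, r.D) (dg r.dM z.1)) (dg r.dM z.1)) z.2)
      (vSub (OR τ σ) (vMul (OR τ σ) (gM (OR τ σ) t z.1).1 (gM (OR τ σ) t z.1).2.2)
        (vMul (OR τ σ) (gM (OR τ σ) t z.1).2.1 (gM (OR τ σ) t z.1).2.1)))
      (dtW (OR τ σ) K h v r t l)) s = hm v (r.E, r.D) * (vP K h x y z.2 * (lv x y (mS rg z.1).m11 s *
        lv x y (mS rg z.1).m22 s - lv x y (mS rg z.1).m12 s * lv x y (mS rg z.1).m12 s) + dtR K h rg x y s l)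
    rw [qf_vAdd τ σ ((pkqSm _ _ (pkqSub _ l1 l2)).trans (pkqDtL τ σ ht _ _ _).symm), ih h2, qf_vSm,
      qf_vSub τ σ (l1.trans l2.symm), qf_vMul τ σ ((ht.lM1 _).trans hs.symm) ((ht.lM3 _).trans hs.symm),
      qf_vMul τ σ ((ht.lM2 _).trans hs.symm) ((ht.lM2 _).trans hs.symm), pkv_val τ σ hv K h hK _ _ h5,
      ht.M1, ht.M2, ht.M3, ← e0, ← e1]
    unfold vP
    ring

private theorem pkqKr (c : ℝ) {u : List ℝ} {A B : List ℝ × List ℝ × List ℝ} (hA1 : A.1.length = 11)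
    (hA2 : A.2.1.length = 11) (hA3 : A.2.2.length = 11) (hB1 : B.1.length = 11)
    (hB2 : B.2.1.length = 11) (hB3 : B.2.2.length = 11) (s : List ℝ) (hs : s.length = 11)
    (hu : u.length = 10) : qf (krW (OR τ σ) (vSm (OR τ σ) c u) A B) s =
      c * krR u (dotL A.1 s) (dotL A.2.1 s) (dotL A.2.2 s) (dotL B.1 s) (dotL B.2.1 s) (dotL B.2.2 s) := by
  obtain ⟨g0, u, rfl⟩ := List.exists_cons_of_length_eq_add_one hu
  obtain ⟨g1, u, rfl⟩ := List.exists_cons_of_length_eq_add_one (Nat.succ.inj hu)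
  obtain ⟨g2, u, rfl⟩ := List.exists_cons_of_length_eq_add_one (Nat.succ.inj (Nat.succ.inj hu))
  have hu2 : u.length = 7 := by simpa using hu
  obtain ⟨g3, u, rfl⟩ := List.exists_cons_of_length_eq_add_one hu2
  obtain ⟨g4, u, rfl⟩ := List.exists_cons_of_length_eq_add_one (Nat.succ.inj hu2)
  obtain ⟨g5, u, rfl⟩ := List.exists_cons_of_length_eq_add_one (Nat.succ.inj (Nat.succ.inj hu2))
  have hu3 : u.length = 4 := by simpa using hu2
  obtain ⟨g6, u, rfl⟩ := List.exists_cons_of_length_eq_add_one hu3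
  obtain ⟨g7, u, rfl⟩ := List.exists_cons_of_length_eq_add_one (Nat.succ.inj hu3)
  obtain ⟨g8, u, rfl⟩ := List.exists_cons_of_length_eq_add_one (Nat.succ.inj (Nat.succ.inj hu3))
  have hu4 : u.length = 1 := by simpa using hu3
  obtain ⟨g9, u, rfl⟩ := List.exists_cons_of_length_eq_add_one hu4
  have hu5 : u = [] := by simpa using hu4
  subst hu5
  have lB (p q w : ℝ) := pkqV3L τ σ (p := p) (q := q) (s := w) hB1 hB2 hB3
  have k1 (p q w : ℝ) := pkqMul (OR τ σ) hA1 (lB p q w)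
  have k2 (p q w : ℝ) := pkqMul (OR τ σ) hA2 (lB p q w)
  have k3 (p q w : ℝ) := pkqMul (OR τ σ) hA3 (lB p q w)
  have two : ∀ a : ℝ, (OR τ σ).mul ((OR τ σ).nat 2) a = 2 * a := fun a => by
    show ((2 : ℕ) : ℝ) * a = 2 * a
    norm_num
  have add : ∀ a b : ℝ, (OR τ σ).add a b = a + b := fun a b => rfl
  show qf (vAdd (OR τ σ) (vMul (OR τ σ) A.1 (v3 (OR τ σ) (c * g0) ((OR τ σ).mul ((OR τ σ).nat 2) (c * g1)) (c * g4) B))
      (vAdd (OR τ σ) (vMul (OR τ σ) A.2.1 (v3 (OR τ σ) ((OR τ σ).mul ((OR τ σ).nat 2) (c * g2))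
        ((OR τ σ).mul ((OR τ σ).nat 2) ((OR τ σ).add (c * g3) (c * g5)))
        ((OR τ σ).mul ((OR τ σ).nat 2) (c * g6)) B))
        (vMul (OR τ σ) A.2.2 (v3 (OR τ σ) (c * g7) ((OR τ σ).mul ((OR τ σ).nat 2) (c * g8)) (c * g9) B)))) s =
    c * (dotL A.1 s * (g0 * dotL B.1 s + 2 * g1 * dotL B.2.1 s + g4 * dotL B.2.2 s) +
      (dotL A.2.1 s * (2 * g2 * dotL B.1 s + 2 * (g3 + g5) * dotL B.2.1 s + 2 * g6 * dotL B.2.2 s) +
      dotL A.2.2 s * (g7 * dotL B.1 s + 2 * g8 * dotL B.2.1 s + g9 * dotL B.2.2 s)))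
  rw [qf_vAdd τ σ ((k1 _ _ _).trans (pkqAdd _ (k2 _ _ _) (k3 _ _ _)).symm),
    qf_vAdd τ σ ((k2 _ _ _).trans (k3 _ _ _).symm),
    qf_vMul τ σ (hA1.trans hs.symm) ((lB _ _ _).trans hs.symm),
    qf_vMul τ σ (hA2.trans hs.symm) ((lB _ _ _).trans hs.symm),
    qf_vMul τ σ (hA3.trans hs.symm) ((lB _ _ _).trans hs.symm),
    pkqV3 τ σ hB1 hB2 hB3, pkqV3 τ σ hB1 hB2 hB3, pkqV3 τ σ hB1 hB2 hB3]
  simp only [two, add]
  ring

private theorem pkqKrR (c e f : ℝ) {u : List ℝ} (hu : u.length = 10) (a0 a1 a2 b0 b1 b2 : ℝ) :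
    c * krR u (e * a0) (e * a1) (e * a2) (f * b0) (f * b1) (f * b2) =
      (c * f * e) * krR u a0 a1 a2 b0 b1 b2 := by
  unfold krR
  split
  · ring
  · ring

private theorem pkqW4 (hv : VE v x y) (ht : TE (OR τ σ) rg r v x y t) {K h : ℕ} (hK : 1 ≤ K)
    (l : List (ℕ × ℕ × List Pk)) (hl : l.all (fW4 r) = true) (s : List ℝ) (hs : s.length = 11) :
    qf (w4W (OR τ σ) K h v r t l) s = hm v (r.E, r.D) * w4R K h rg x y s l := by
  induction l with
  | nil =>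
    show qf (List.replicate 66 ((OR τ σ).nat 0)) s = hm v (r.E, r.D) * 0
    rw [qf_zero, mul_zero]
  | cons z l ih =>
    rw [List.all_cons, Bool.and_eq_true] at hl
    obtain ⟨h1, h2⟩ := hl
    simp only [fW4] at h1
    rw [Bool.and_eq_true, Bool.and_eq_true, Bool.and_eq_true] at h1
    obtain ⟨⟨⟨h3, h4⟩, h5⟩, h6⟩ := h1
    have e0 := pkqHm (v := v) h3
    have e1 := pkqHm (v := v) h4
    have h7 : (z.2.2.map (vP K h x y)).length = 10 := by
      rw [List.length_map]; exact Nat.eq_of_beq_eq_true h6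
    have lk := pkqKrL τ σ (u := z.2.2.map (pkv (OR τ σ) K h v (s2 (s2 (r.E, r.D) (dg r.dM z.1)) (dg r.dM z.2.1))))
      (ht.lM1 z.1) (ht.lM2 z.1) (ht.lM3 z.1) (ht.lM1 z.2.1) (ht.lM2 z.2.1) (ht.lM3 z.2.1)
    show qf (vAdd (OR τ σ) (krW (OR τ σ)
      (z.2.2.map (pkv (OR τ σ) K h v (s2 (s2 (r.E, r.D) (dg r.dM z.1)) (dg r.dM z.2.1))))
      (gM (OR τ σ) t z.1) (gM (OR τ σ) t z.2.1)) (w4W (OR τ σ) K h v r t l)) s =
      hm v (r.E, r.D) * (krR (z.2.2.map (vP K h x y)) (lv x y (mS rg z.1).m11 s) (lv x y (mS rg z.1).m12 s)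
      (lv x y (mS rg z.1).m22 s) (lv x y (mS rg z.2.1).m11 s) (lv x y (mS rg z.2.1).m12 s)
      (lv x y (mS rg z.2.1).m22 s) + w4R K h rg x y s l)
    rw [qf_vAdd τ σ (lk.trans (pkqW4L τ σ ht _ _ _).symm), ih h2, pkqMap τ σ hv hK _ _ h5,
      pkqKr τ σ _ (ht.lM1 z.1) (ht.lM2 z.1) (ht.lM3 z.1) (ht.lM1 z.2.1) (ht.lM2 z.2.1) (ht.lM3 z.2.1) s hs h7,
      ht.M1, ht.M2, ht.M3, ht.M1, ht.M2, ht.M3, pkqKrR _ _ _ h7, e1, e0]
    ring

private theorem pkqZr (hv : VE v x y) (ht : TE (OR τ σ) rg r v x y t) {K h : ℕ} (hK : 1 ≤ K)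
    (l : List (ℕ × List Pk)) (hl : l.all (fZr r) = true) (s : List ℝ) (hs : s.length = 11) :
    qf (zrW (OR τ σ) K h v r t l) s = hm v (r.E, r.D) * zrR K h rg x y s l := by
  induction l with
  | nil =>
    show qf (List.replicate 66 ((OR τ σ).nat 0)) s = hm v (r.E, r.D) * 0
    rw [qf_zero, mul_zero]
  | cons z l ih =>
    have hl0 := hl
    rw [List.all_cons, Bool.and_eq_true] at hl
    obtain ⟨h1, h2⟩ := hl
    simp only [fZr] at h1
    rw [Bool.and_eq_true, Bool.and_eq_true] at h1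
    obtain ⟨⟨h3, h4⟩, h5⟩ := h1
    have e0 := pkqHm (v := v) h3
    have l1 : (z.2.map (pkv (OR τ σ) K h v (s2 (r.E, r.D) (dg r.dZ z.1)))).length = 11 := by
      rw [List.length_map]; exact Nat.eq_of_beq_eq_true h5
    show qf (vAdd (OR τ σ) (vMul (OR τ σ) (gZ (OR τ σ) t z.1)
      (z.2.map (pkv (OR τ σ) K h v (s2 (r.E, r.D) (dg r.dZ z.1))))) (zrW (OR τ σ) K h v r t l)) s =
      hm v (r.E, r.D) * (lv x y (zS rg z.1) s * dotL (z.2.map (vP K h x y)) s + zrR K h rg x y s l)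
    rw [qf_vAdd τ σ ((pkqMul _ (ht.lZ _) l1).trans (pkqZrL τ σ ht _ _ _ h2).symm), ih h2,
      qf_vMul τ σ ((ht.lZ _).trans hs.symm) (l1.trans hs.symm), pkqMap τ σ hv hK _ _ h4, dotL_vSm, ht.Z, ← e0]
    ring

private theorem pkqGz (hv : VE v x y) (ht : TE (OR τ σ) rg r v x y t) {K h k : ℕ} (hK : 1 ≤ K)
    (l : List (ℕ × ℕ × List Pk)) (hl : l.all (fGz r k) = true) (ac : List Bool) (s : List ℝ) :
    qf (gzW (OR τ σ) K h v r t k l) (selL ac s) = hm v (r.E, r.D) * gzR K h rg ac x y s l := by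
  induction l with
  | nil =>
    show qf (List.replicate k ((OR τ σ).nat 0)) (selL ac s) = hm v (r.E, r.D) * 0
    rw [qf_zero, mul_zero]
  | cons z l ih =>
    rw [List.all_cons, Bool.and_eq_true] at hl
    obtain ⟨h1, h2⟩ := hl
    simp only [fGz] at h1
    rw [Bool.and_eq_true, Bool.and_eq_true] at h1
    obtain ⟨⟨h3, h4⟩, h5⟩ := h1
    have e0 := pkqHm (v := v) h3
    have l1 : (z.2.2.map (pkv (OR τ σ) K h v (s2 (r.E, r.D) (dg r.dG z.1)))).length = k := by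
      rw [List.length_map]; exact Nat.eq_of_beq_eq_true h5
    show qf (vAdd (OR τ σ) (vSm (OR τ σ) (gG (OR τ σ) t z.1)
      (z.2.2.map (pkv (OR τ σ) K h v (s2 (r.E, r.D) (dg r.dG z.1))))) (gzW (OR τ σ) K h v r t k l)) (selL ac s) =
      hm v (r.E, r.D) * (ev x y (gS rg z.1) * qf (z.2.2.map (vP K h x y)) (selL ac s) + gzR K h rg ac x y s l)
    rw [qf_vAdd τ σ ((pkqSm _ _ l1).trans (pkqGzL τ σ _ _ _ _ h2).symm), ih h2, qf_vSm,
      pkqMap τ σ hv hK _ _ h4, qf_vSm, ht.G, ← e0]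
    ring

end

/-- the conditions of `bxOK` used here -/
private theorem pkqBx {r : Rd} {b : Bw} (hb : bxOK r b = true) : 1 ≤ b.K ∧ b.gr.all (fGr r) = true ∧
    b.dt.all (fDt r) = true ∧ b.w4.all (fW4 r) = true ∧ b.zr.all (fZr r) = true ∧
    b.gz.all (fGz r (cnt r.ac * (cnt r.ac + 1) / 2)) = true := by
  unfold bxOK at hb
  simp only [Bool.and_eq_true] at hb
  obtain ⟨⟨⟨⟨⟨⟨⟨⟨-, hK⟩, -⟩, h1⟩, h2⟩, h3⟩, h4⟩, h5⟩, -⟩ := hb
  exact ⟨Nat.le_of_ble_eq_true hK, h1, h2, h3, h4, h5⟩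

theorem MW_val (τ σ : ℝ) {v : Vw ℝ} {x y : ℝ} {t : Tw ℝ} {rg : Rgn} {r : Rd} (hv : VE v x y)
    (ht : TE (OR τ σ) rg r v x y t) (R : List Pk) (hR : R.all (fit (r.E, r.D)) = true) (hKr : 1 ≤ r.K)
    (hl : R.length = 66) (b : Bw) (hb : bxOK r b = true) (s : List ℝ) (hs : s.length = 11) :
    qf (MW (OR τ σ) r R b v t) s =
      hm v (r.E, r.D) * (qf (evE x y (R.map (unp r.K r.h))) s - it0 rg b x y s) := by
  obtain ⟨hK, h1, h2, h3, h4, -⟩ := pkqBx hb
  have lr : (rW (OR τ σ) v r R).length = 66 := by unfold rW; rw [List.length_map, hl]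
  have l1 := pkqGrL τ σ ht b.K b.h b.gr
  have l2 := pkqDtL τ σ ht b.K b.h b.dt
  have l3 := pkqW4L τ σ ht b.K b.h b.w4
  have l4 := pkqZrL τ σ ht b.K b.h b.zr h4
  have l5 := pkqAdd (OR τ σ) l3 l4
  have l6 := pkqAdd (OR τ σ) l2 l5
  have l7 := pkqAdd (OR τ σ) l1 l6
  have e1 : qf (rW (OR τ σ) v r R) s = hm v (r.E, r.D) * qf (evE x y (R.map (unp r.K r.h))) s := by
    unfold rW
    rw [pkqMap τ σ hv hKr _ _ hR, qf_vSm]
    have e2 : evE x y (R.map (unp r.K r.h)) = R.map (vP r.K r.h x y) := by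
      unfold evE
      rw [List.map_map]
      rfl
    rw [e2]
  unfold MW
  rw [qf_vSub τ σ (lr.trans l7.symm), qf_vAdd τ σ (l1.trans l6.symm), qf_vAdd τ σ (l2.trans l5.symm),
    qf_vAdd τ σ (l3.trans l4.symm), e1, pkqGr τ σ hv ht hK _ h1 s hs, pkqDt τ σ hv ht hK _ h2 s hs,
    pkqW4 τ σ hv ht hK _ h3 s hs, pkqZr τ σ hv ht hK _ h4 s hs]
  unfold it0
  ring

theorem MW_len (τ σ : ℝ) {v : Vw ℝ} {x y : ℝ} {t : Tw ℝ} {rg : Rgn} {r : Rd}
    (ht : TE (OR τ σ) rg r v x y t) (R : List Pk) (hl : R.length = 66) (b : Bw) (hb : bxOK r b = true) :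
    (MW (OR τ σ) r R b v t).length = 66 := by
  obtain ⟨hK, h1, h2, h3, h4, -⟩ := pkqBx hb
  have lr : (rW (OR τ σ) v r R).length = 66 := by unfold rW; rw [List.length_map, hl]
  exact pkqSub _ lr (pkqAdd _ (pkqGrL τ σ ht _ _ _) (pkqAdd _ (pkqDtL τ σ ht _ _ _)
    (pkqAdd _ (pkqW4L τ σ ht _ _ _) (pkqZrL τ σ ht _ _ _ h4))))

theorem gzW_val (τ σ : ℝ) {v : Vw ℝ} {x y : ℝ} {t : Tw ℝ} {rg : Rgn} {r : Rd} (hv : VE v x y)
    (ht : TE (OR τ σ) rg r v x y t) (b : Bw) (hb : bxOK r b = true) (s : List ℝ) :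
    qf (gzW (OR τ σ) b.K b.h v r t (cnt r.ac * (cnt r.ac + 1) / 2) b.gz) (selL r.ac s) =
      hm v (r.E, r.D) * gzR b.K b.h rg r.ac x y s b.gz := by
  obtain ⟨hK, -, -, -, -, h5⟩ := pkqBx hb
  exact pkqGz τ σ hv ht hK _ h5 _ _

theorem gzW_len (τ σ : ℝ) {v : Vw ℝ} {x y : ℝ} {t : Tw ℝ} {rg : Rgn} {r : Rd}
    (ht : TE (OR τ σ) rg r v x y t) (b : Bw) (hb : bxOK r b = true) :
    (gzW (OR τ σ) b.K b.h v r t (cnt r.ac * (cnt r.ac + 1) / 2) b.gz).length = cnt r.ac * (cnt r.ac + 1) / 2 := by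
  obtain ⟨hK, -, -, -, -, h5⟩ := pkqBx hb
  have _ := ht
  exact pkqGzL τ σ _ _ _ _ h5

end Pool.Agent.MCA
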