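import Pool.Agent.MCA.PKU
import Pool.Agent.PKD.RQF
/-!
PKR. Change of `R` by a positive factor.
-/
set_option autoImplicit false

open Pool.Agent.MSQ Pool.Agent.MTR Pool.Agent.PKD

namespace Pool.Agent.MCA

private theorem pkr_sm (x y : ℝ) (c : ℤ) (R : List P) (s : List ℝ) :
    qf (evE x y (R.map (pSm c))) s = c * qf (evE x y R) s := by
  have h1 : evE x y (R.map (pSm c)) = (evE x y R).map fun z => (c : ℝ) * z := by
    simp only [evE, List.map_map]
    apply List.map_congr_left
    intro p _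
    exact ev_pSm x y c p
  have h2 : ∀ A : List ℝ, A.map (fun z => (c : ℝ) * z) = vSm (OR 0 0) c A := by
    intro A
    induction A with
    | nil => rfl
    | cons a A ih => rw [List.map_cons, ih]; rfl
  rw [h1, h2]
  exact qf_vSm 0 0 c _ s

theorem BoxOK_scale (rg : Rgn) (R : List P) (c : ℕ) (hc : 0 < c) (K h : ℕ) (L : List Pk)
    (he : eqPL (R.map (pSm c)) (L.map (unpf K h)) = true) (b : Itm)
    (hb : BoxOK rg (L.map (unp K h)) b) : BoxOK rg R b := by
  have h1 := BoxOK_congr rg _ K h L he b hb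
  intro x y hxy s hs hR
  have h2 := h1 x y hxy s hs hR
  rw [pkr_sm] at h2
  have h3 : (0 : ℝ) < ((c : ℤ) : ℝ) := by exact_mod_cast hc
  exact nonneg_of_mul_nonneg_right h2 h3

end Pool.Agent.MCA
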