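import Pool.Agent.MCA.PDC
import Pool.Agent.PKD.Defs
/-!
PKS (150 lines). Soundness of the elimination `pdR`.

PROOF. Entries of the matrix: `m = v - h`. Induction on `n`. `M = (a :: r) :: M'` (`isTN`). `A = a - h > 0`,
`r_j = x_j - h`, `|r_j| ≤ B` (`rng`). `stepP`: row `j` is `r_j ≥ 0`: `⌊(A v + h c - c x) / A⌋`, `c = x_j - h`,
`r_j < 0`: `⌊(A v + c x - h c) / A⌋`, `c = h - x_j`; both are `⌊(A v_jk - r_j r_k) / A⌋` and the subtraction of natural
numbers is exact, because `A v ≥ v ≥ B * B ≥ r_j r_k`. So the new entry (integer) is `v_jk - h - r_j r_k / A - θ` with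
`0 ≤ θ < 1`, minus `n` on the diagonal. The new entries are at least `(n + 2) (B² + n + 1) - (B² + 1 + n) ≥
(n + 1) (B² + n)`. `qr ((a :: r) :: M') (x :: v) = A (x + r·v / A)² + (qr M' v - (r·v)² / A)` and
`qr (new) v ≤ qr M' v - (r·v)² / A`, because the errors `θ_jk` contribute at most `Σ_{j<k} 2 |v_j v_k| ≤
(n - 1) Σ v_j²`. (Compare the proof of `psR_sound` in PKD/PST.)
-/
set_option autoImplicit false

open Pool.Agent.MSQ Pool.Agent.PKD

namespace Pool.Agent.MCA

/-- `ws` are the rounded entries of a row -/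
private def pksR (A r0 h : ℤ) : List ℕ → List ℕ → List ℕ → Prop
  | x :: xs, m :: ms, w :: ws =>
    (A * w ≤ A * m - r0 * (x - h) ∧ A * m - r0 * (x - h) < A * w + A) ∧ pksR A r0 h xs ms ws
  | [], [], [] => True
  | _, _, _ => False

/-- sum of squares -/
private def pksS : List ℝ → ℝ
  | x :: v => x ^ 2 + pksS v
  | [] => 0

private theorem pks_S_nonneg : ∀ v : List ℝ, 0 ≤ pksS v
  | [] => le_refl _
  | x :: v => add_nonneg (sq_nonneg _) (pks_S_nonneg v)

private theorem pks_rowP (A c h B : ℕ) (hA : 1 ≤ A) (hc : c ≤ B) : ∀ (xs ms : List ℕ), ms.length = xs.length →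
    (∀ x ∈ xs, h ≤ x + B ∧ x ≤ h + B) → (∀ m ∈ ms, B * B ≤ m) → pksR A c h xs ms (rowP A c (h * c) xs ms)
  | [], [], _, _, _ => trivial
  | [], _ :: _, hl, _, _ => by simp at hl
  | _ :: _, [], hl, _, _ => by simp at hl
  | x :: xs, m :: ms, hl, hx, hm => by
    have ih := pks_rowP A c h B hA hc xs ms (by simpa using hl) (fun y hy => hx y (List.mem_cons_of_mem _ hy))
      (fun y hy => hm y (List.mem_cons_of_mem _ hy))
    have h1 := hx x List.mem_cons_self
    have h2 := hm m List.mem_cons_self
    have h3 : c * x ≤ A * m + h * c := by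
      have h4 : c * x ≤ c * (h + B) := Nat.mul_le_mul_left c h1.2
      have h5 : c * B ≤ B * B := Nat.mul_le_mul_right B hc
      have h6 : m ≤ A * m := Nat.le_mul_of_pos_left m hA
      nlinarith
    have h7 : ((A * m + h * c - c * x : ℕ) : ℤ) = A * m - c * (x - h) := by
      rw [Nat.cast_sub h3]
      push_cast
      ring
    have h8 := Nat.mul_div_le (A * m + h * c - c * x) A
    have h9 := Nat.lt_mul_div_succ (A * m + h * c - c * x) (show 0 < A from hA)
    refine ⟨⟨?_, ?_⟩, ih⟩
    · rw [← h7]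
      exact_mod_cast h8
    · rw [← h7]
      have h10 : A * ((A * m + h * c - c * x) / A + 1) = A * ((A * m + h * c - c * x) / A) + A := by ring
      rw [h10] at h9
      exact_mod_cast h9

private theorem pks_rowN (A c h B : ℕ) (hA : 1 ≤ A) (hc : c ≤ B) : ∀ (xs ms : List ℕ), ms.length = xs.length →
    (∀ x ∈ xs, h ≤ x + B ∧ x ≤ h + B) → (∀ m ∈ ms, B * B ≤ m) → pksR A (-c) h xs ms (rowN A c (h * c) xs ms)
  | [], [], _, _, _ => trivial
  | [], _ :: _, hl, _, _ => by simp at hl
  | _ :: _, [], hl, _, _ => by simp at hl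
  | x :: xs, m :: ms, hl, hx, hm => by
    have ih := pks_rowN A c h B hA hc xs ms (by simpa using hl) (fun y hy => hx y (List.mem_cons_of_mem _ hy))
      (fun y hy => hm y (List.mem_cons_of_mem _ hy))
    have h1 := hx x List.mem_cons_self
    have h2 := hm m List.mem_cons_self
    have h3 : h * c ≤ A * m + c * x := by
      have h4 : c * h ≤ c * (x + B) := Nat.mul_le_mul_left c h1.1
      have h5 : c * B ≤ B * B := Nat.mul_le_mul_right B hc
      have h6 : m ≤ A * m := Nat.le_mul_of_pos_left m hA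
      nlinarith
    have h7 : ((A * m + c * x - h * c : ℕ) : ℤ) = A * m - (-c) * (x - h) := by
      rw [Nat.cast_sub h3]
      push_cast
      ring
    have h8 := Nat.mul_div_le (A * m + c * x - h * c) A
    have h9 := Nat.lt_mul_div_succ (A * m + c * x - h * c) (show 0 < A from hA)
    refine ⟨⟨?_, ?_⟩, ih⟩
    · rw [← h7]
      exact_mod_cast h8
    · rw [← h7]
      have h10 : A * ((A * m + c * x - h * c) / A + 1) = A * ((A * m + c * x - h * c) / A) + A := by ring
      rw [h10] at h9
      exact_mod_cast h9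

private theorem pks_row (h A e B x : ℕ) (hA : 1 ≤ A) (r v : List ℕ) (M : List (List ℕ))
    (hl : v.length = (x :: r).length) (hx : ∀ y ∈ x :: r, h ≤ y + B ∧ y ≤ h + B) (hm : ∀ m ∈ v, B * B ≤ m) :
    ∃ ws, stepP h A e (x :: r) (v :: M) = hdS e ws :: stepP h A e r M ∧ pksR A ((x : ℤ) - h) h (x :: r) v ws := by
  have h0 : stepP h A e (x :: r) (v :: M) = Bool.rec (motive := fun _ => List (List ℕ))
      (hdS e (rowN A (h - x) (h * (h - x)) (x :: r) v) :: stepP h A e r M)
      (hdS e (rowP A (x - h) (h * (x - h)) (x :: r) v) :: stepP h A e r M) (Nat.ble h x) := rfl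
  rw [h0]
  have hx0 := hx x List.mem_cons_self
  cases hb : Nat.ble h x with
  | true =>
    have h1 : h ≤ x := Nat.le_of_ble_eq_true hb
    refine ⟨rowP A (x - h) (h * (x - h)) (x :: r) v, rfl, ?_⟩
    have h2 := pks_rowP A (x - h) h B hA (by omega) (x :: r) v hl hx hm
    rw [Nat.cast_sub h1] at h2
    exact h2
  | false =>
    have h1 : x ≤ h := by
      by_contra hcon
      have h3 : Nat.ble h x = true := Nat.ble_eq_true_of_le (by omega)
      rw [h3] at hb
      exact absurd hb (by decide)
    refine ⟨rowN A (h - x) (h * (h - x)) (x :: r) v, rfl, ?_⟩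
    have h2 := pks_rowN A (h - x) h B hA (by omega) (x :: r) v hl hx hm
    rw [Nat.cast_sub h1, neg_sub] at h2
    exact h2

private theorem pks_len (A r0 h : ℤ) : ∀ (xs ms ws : List ℕ), pksR A r0 h xs ms ws → ws.length = xs.length
  | [], [], [], _ => rfl
  | x :: xs, m :: ms, w :: ws, hR => by
    rw [List.length_cons, List.length_cons, pks_len A r0 h xs ms ws hR.2]
  | [], [], _ :: _, hR => by exact absurd hR (by simp [pksR])
  | [], _ :: _, _, hR => by exact absurd hR (by simp [pksR])
  | _ :: _, [], _, hR => by exact absurd hR (by simp [pksR])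
  | _ :: _, _ :: _, [], hR => by exact absurd hR (by simp [pksR])

private theorem pks_low (A h B : ℕ) (r0 : ℤ) (hA : 1 ≤ A) (hr : |r0| ≤ B) (L : ℕ) : ∀ (xs ms ws : List ℕ),
    pksR A r0 h xs ms ws → (∀ x ∈ xs, h ≤ x + B ∧ x ≤ h + B) → (∀ m ∈ ms, L + B * B ≤ m) → ∀ w ∈ ws, L ≤ w
  | [], [], [], _, _, _ => by simp
  | x :: xs, m :: ms, w :: ws, hR, hx, hm => by
    intro y hy
    rcases List.mem_cons.1 hy with rfl | hy
    · have h1 := hR.1.2
      have h2 := hx x List.mem_cons_self
      have h3 := hm m List.mem_cons_self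
      have h4 : |(x : ℤ) - h| ≤ B := by
        rw [abs_le]
        constructor
        · have : (h : ℤ) ≤ x + B := by exact_mod_cast h2.1
          linarith
        · have : (x : ℤ) ≤ h + B := by exact_mod_cast h2.2
          linarith
      have h5 : r0 * (x - h) ≤ B * B := by
        calc r0 * ((x : ℤ) - h) ≤ |r0 * ((x : ℤ) - h)| := le_abs_self _
          _ = |r0| * |(x : ℤ) - h| := abs_mul _ _
          _ ≤ B * B := mul_le_mul hr h4 (abs_nonneg _) (Int.natCast_nonneg B)
      have h6 : ((L + B * B : ℕ) : ℤ) ≤ m := by exact_mod_cast h3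
      push_cast at h6
      have hA' : (1 : ℤ) ≤ A := by exact_mod_cast hA
      by_contra hcon
      have h7 : (y : ℤ) + 1 ≤ L := by
        have : y + 1 ≤ L := by omega
        exact_mod_cast this
      have h8 : (A : ℤ) * (y + 1) ≤ A * L := mul_le_mul_of_nonneg_left h7 (by linarith)
      have h9 : (A : ℤ) * (L + B * B) ≤ A * m := mul_le_mul_of_nonneg_left h6 (by linarith)
      have h10 : (B : ℤ) * B ≤ A * (B * B) := by
        have : (0 : ℤ) ≤ (B : ℤ) * B := by positivity
        nlinarith
      nlinarith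
    · exact pks_low A h B r0 hA hr L xs ms ws hR.2 (fun y hy => hx y (List.mem_cons_of_mem _ hy))
        (fun y hy => hm y (List.mem_cons_of_mem _ hy)) y hy
  | [], [], _ :: _, hR, _, _ => by exact absurd hR (by simp [pksR])
  | [], _ :: _, _, hR, _, _ => by exact absurd hR (by simp [pksR])
  | _ :: _, [], _, hR, _, _ => by exact absurd hR (by simp [pksR])
  | _ :: _, _ :: _, [], hR, _, _ => by exact absurd hR (by simp [pksR])

private theorem pks_dot (A h : ℕ) (r0 : ℤ) (y : ℝ) : ∀ (xs ms ws : List ℕ), pksR A r0 h xs ms ws →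
    ∀ v : List ℝ, v.length = xs.length →
    2 * y * (A * dotL (ws.map fun z : ℕ => (z : ℝ) - h) v) ≤
      2 * y * (A * dotL (ms.map fun z : ℕ => (z : ℝ) - h) v - r0 * dotL (xs.map fun z : ℕ => (z : ℝ) - h) v) +
        A * (xs.length * y ^ 2 + pksS v)
  | [], [], [], _, v, hv => by
    have hv' : v = [] := List.length_eq_zero_iff.1 hv
    subst hv'
    simp [dotL, pksS]
  | x :: xs, m :: ms, w :: ws, hR, v, hv => by
    obtain ⟨s, v, rfl⟩ : ∃ s v', v = s :: v' := by
      cases v with
      | nil => simp at hv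
      | cons s v => exact ⟨s, v, rfl⟩
    have ih := pks_dot A h r0 y xs ms ws hR.2 v (by simpa using hv)
    have h1 : (A : ℝ) * w ≤ A * m - r0 * (x - h) := by exact_mod_cast hR.1.1
    have h2 : (A : ℝ) * m - r0 * (x - h) < A * w + A := by exact_mod_cast hR.1.2
    simp only [List.map_cons, dotL, pksS, List.length_cons]
    push_cast
    set d : ℝ := A * m - r0 * (x - h) - A * w with hd
    have hd0 : 0 ≤ d := by rw [hd]; linarith
    have hd1 : d ≤ A := by rw [hd]; linarith
    have h3 : -(2 * y * s * d) ≤ A * (y ^ 2 + s ^ 2) := by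
      have h4 : -(2 * y * s) ≤ y ^ 2 + s ^ 2 := by nlinarith [sq_nonneg (y + s)]
      have h5 : d * (-(2 * y * s)) ≤ d * (y ^ 2 + s ^ 2) := mul_le_mul_of_nonneg_left h4 hd0
      have h6 : d * (y ^ 2 + s ^ 2) ≤ A * (y ^ 2 + s ^ 2) := mul_le_mul_of_nonneg_right hd1 (by positivity)
      linarith
    have h7 : 2 * y * s * d = 2 * y * (A * ((m - h) * s) - r0 * ((x - h) * s)) - 2 * y * (A * ((w - h) * s)) := by
      rw [hd]
      ring
    linarith
  | [], [], _ :: _, hR, _, _ => by exact absurd hR (by simp [pksR])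
  | [], _ :: _, _, hR, _, _ => by exact absurd hR (by simp [pksR])
  | _ :: _, [], _, hR, _, _ => by exact absurd hR (by simp [pksR])
  | _ :: _, _ :: _, [], hR, _, _ => by exact absurd hR (by simp [pksR])

private theorem pks_fm (r : List ℤ) : List.flatMap (fun a : ℤ => [(a : ℝ)]) r = List.map Int.cast r := by
  induction r with
  | nil => rfl
  | cons a r ih => rw [List.flatMap_cons, ih]; rfl

private theorem pks_qrz (a : ℤ) (r : List ℤ) (M : List (List ℤ)) (x : ℝ) (v : List ℝ) :
    qr ((a :: r) :: M) (x :: v) = a * x ^ 2 + 2 * x * dotL (r.map (Int.cast : ℤ → ℝ)) v + qr M v := by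
  rw [qr.eq_1]
  congr 4
  simp [pks_fm]

private theorem pks_qrc (h a : ℕ) (r : List ℕ) (M : List (List ℕ)) (x : ℝ) (v : List ℝ) :
    qr (((a :: r) :: M).map (List.map fun z : ℕ => (z : ℤ) - h)) (x :: v) =
      ((a : ℝ) - h) * x ^ 2 + 2 * x * dotL (r.map fun z : ℕ => (z : ℝ) - h) v +
        qr (M.map (List.map fun z : ℕ => (z : ℤ) - h)) v := by
  have h1 : (r.map fun z : ℕ => (z : ℝ) - h) = (r.map fun z : ℕ => (z : ℤ) - h).map (Int.cast : ℤ → ℝ) := by
    rw [List.map_map]
    apply List.map_congr_left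
    intro z _
    simp
  rw [h1, List.map_cons, List.map_cons, pks_qrz]
  push_cast
  rfl

private theorem pks_step (h A e B : ℕ) (hA : 1 ≤ A) : ∀ (xs : List ℕ) (M : List (List ℕ)),
    isTN xs.length M → (∀ x ∈ xs, h ≤ x + B ∧ x ≤ h + B) → (∀ r ∈ M, ∀ v ∈ r, B * B + e ≤ v) →
    isTN xs.length (stepP h A e xs M) ∧
    (∀ L : ℕ, (∀ r ∈ M, ∀ v ∈ r, L + e + B * B ≤ v) → ∀ r ∈ stepP h A e xs M, ∀ v ∈ r, L ≤ v) ∧
    ∀ v : List ℝ, v.length = xs.length →
      A * qr ((stepP h A e xs M).map (List.map fun z : ℕ => (z : ℤ) - h)) v ≤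
        A * qr (M.map (List.map fun z : ℕ => (z : ℤ) - h)) v - (dotL (xs.map fun z : ℕ => (z : ℝ) - h) v) ^ 2 -
          A * ((e : ℝ) - xs.length) * pksS v
  | [], M, hM, _, _ => by
    have hM' : M = [] := hM
    subst hM'
    refine ⟨rfl, ?_, ?_⟩
    · intro L _ r hr
      exact absurd hr (by simp [stepP])
    · intro v hv
      have hv' : v = [] := List.length_eq_zero_iff.1 hv
      subst hv'
      have h0 : stepP h A e [] [] = [] := rfl
      rw [h0]
      simp [qr, dotL, pksS]
  | x :: xs, M, hM, hx, hm => by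
    obtain ⟨m, t, rfl, hml, ht⟩ : ∃ m t, M = m :: t ∧ m.length = xs.length + 1 ∧ isTN xs.length t := hM
    obtain ⟨ih1, ih2, ih3⟩ := pks_step h A e B hA xs t ht (fun y hy => hx y (List.mem_cons_of_mem _ hy))
      (fun r hr => hm r (List.mem_cons_of_mem _ hr))
    have hm0 := hm m List.mem_cons_self
    obtain ⟨ws, hws, hR⟩ := pks_row h A e B x hA xs m t (by rw [hml, List.length_cons]) hx
      (fun z hz => (Nat.le_add_right _ _).trans (hm0 z hz))
    have hx0 := hx x List.mem_cons_self
    have hr0 : |(x : ℤ) - h| ≤ B := by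
      rw [abs_le]
      constructor
      · have : (h : ℤ) ≤ x + B := by exact_mod_cast hx0.1
        linarith
      · have : (x : ℤ) ≤ h + B := by exact_mod_cast hx0.2
        linarith
    have hwl := pks_len _ _ _ _ _ _ hR
    obtain ⟨m0, m, rfl⟩ : ∃ m0 m', m = m0 :: m' := by
      cases m with
      | nil => simp at hml
      | cons y v => exact ⟨y, v, rfl⟩
    obtain ⟨w0, ws, rfl⟩ : ∃ w0 ws', ws = w0 :: ws' := by
      cases ws with
      | nil => simp at hwl
      | cons y v => exact ⟨y, v, rfl⟩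
    have hwe : e ≤ w0 := pks_low A h B _ hA hr0 e _ _ _ hR hx
      (fun z hz => by rw [add_comm]; exact hm0 z hz) w0 List.mem_cons_self
    have hhd : hdS e (w0 :: ws) = (w0 - e) :: ws := rfl
    rw [hws, hhd]
    refine ⟨⟨_, _, rfl, ?_, ih1⟩, ?_, ?_⟩
    · rw [List.length_cons]
      simpa using hwl
    · intro L hL r hr
      rcases List.mem_cons.1 hr with rfl | hr
      · have h1 := pks_low A h B _ hA hr0 (L + e) _ _ _ hR hx (fun z hz => hL _ List.mem_cons_self z hz)
        intro z hz
        rcases List.mem_cons.1 hz with rfl | hz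
        · have h2 := h1 w0 List.mem_cons_self
          omega
        · have h2 := h1 z (List.mem_cons_of_mem _ hz)
          omega
      · exact ih2 L (fun r hr => hL r (List.mem_cons_of_mem _ hr)) r hr
    · intro v hv
      obtain ⟨y, v, rfl⟩ : ∃ y v', v = y :: v' := by
        cases v with
        | nil => simp at hv
        | cons y v => exact ⟨y, v, rfl⟩
      have hv' : v.length = xs.length := by simpa using hv
      have ih := ih3 v hv'
      have hdot := pks_dot A h _ y xs m ws hR.2 v hv'
      have h1 : (A : ℝ) * w0 ≤ A * m0 - ((x : ℝ) - h) * (x - h) := by exact_mod_cast hR.1.1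
      rw [pks_qrc, pks_qrc, Nat.cast_sub hwe]
      simp only [List.map_cons, dotL, pksS, List.length_cons]
      push_cast at hdot ⊢
      have hA0 : (0 : ℝ) ≤ A := Nat.cast_nonneg A
      have h2 : (A : ℝ) * w0 * y ^ 2 ≤ (A * m0 - ((x : ℝ) - h) * (x - h)) * y ^ 2 :=
        mul_le_mul_of_nonneg_right h1 (sq_nonneg y)
      have h3 : 0 ≤ (A : ℝ) * y ^ 2 := mul_nonneg hA0 (sq_nonneg y)
      nlinarith

private theorem pks_rng (lo hi : ℕ) : ∀ r : List ℕ, rng lo hi r = true → ∀ x ∈ r, lo ≤ x ∧ x ≤ hi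
  | [], _ => by simp
  | y :: r, hr => by
    have h0 : rng lo hi (y :: r) = Bool.rec (motive := fun _ => Bool) false
      (Bool.rec (motive := fun _ => Bool) false (rng lo hi r) (Nat.ble y hi)) (Nat.ble lo y) := rfl
    rw [h0] at hr
    cases h1 : Nat.ble lo y with
    | false =>
      rw [h1] at hr
      exact absurd hr (by simp)
    | true =>
      rw [h1] at hr
      cases h2 : Nat.ble y hi with
      | false =>
        rw [h2] at hr
        exact absurd hr (by simp)
      | true =>
        rw [h2] at hr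
        intro x hx
        rcases List.mem_cons.1 hx with rfl | hx
        · exact ⟨Nat.le_of_ble_eq_true h1, Nat.le_of_ble_eq_true h2⟩
        · exact pks_rng lo hi r hr x hx

theorem pdR_sound (h B : ℕ) (hB : B ≤ h) (n : ℕ) (M : List (List ℕ)) (hM : isTN n M)
    (hlow : ∀ r ∈ M, ∀ v ∈ r, (n + 1) * (B * B + n) ≤ v)
    (hp : pdR h (h + 1) (h - B) (h + B) n M = true) (v : List ℝ) (hv : v.length = n) :
    0 ≤ qr (M.map (List.map fun z : ℕ => (z : ℤ) - h)) v := by
  induction n generalizing M v with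
  | zero =>
    have hM' : M = [] := hM
    subst hM'
    simp [qr]
  | succ n ih =>
    obtain ⟨m, t, rfl, hml, ht⟩ : ∃ m t, M = m :: t ∧ m.length = n + 1 ∧ isTN n t := hM
    obtain ⟨y, v, rfl⟩ : ∃ y v', v = y :: v' := by
      cases v with
      | nil => simp at hv
      | cons y v => exact ⟨y, v, rfl⟩
    obtain ⟨a, r, rfl⟩ : ∃ m0 m', m = m0 :: m' := by
      cases m with
      | nil => simp at hml
      | cons y v => exact ⟨y, v, rfl⟩
    have hv' : v.length = n := by simpa using hv
    have hr' : r.length = n := by simpa using hml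
    subst hr'
    have h0 : pdR h (h + 1) (h - B) (h + B) (r.length + 1) ((a :: r) :: t) =
      Bool.rec (motive := fun _ => Bool) false
        (Bool.rec (motive := fun _ => Bool) false
          (pdR h (h + 1) (h - B) (h + B) r.length (stepP h (a - h) r.length r t)) (rng (h - B) (h + B) r))
        (Nat.ble (h + 1) a) := rfl
    rw [h0] at hp
    cases h1 : Nat.ble (h + 1) a with
    | false =>
      rw [h1] at hp
      exact absurd hp (by simp)
    | true =>
      rw [h1] at hp
      cases h2 : rng (h - B) (h + B) r with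
      | false =>
        rw [h2] at hp
        exact absurd hp (by simp)
      | true =>
        rw [h2] at hp
        have ha : h + 1 ≤ a := Nat.le_of_ble_eq_true h1
        have hrr := pks_rng _ _ r h2
        have hx : ∀ x ∈ r, h ≤ x + B ∧ x ≤ h + B := fun x hx => by
          have := hrr x hx
          omega
        have hlowt : ∀ q ∈ t, ∀ z ∈ q, (r.length + 1 + 1) * (B * B + (r.length + 1)) ≤ z :=
          fun q hq => hlow q (List.mem_cons_of_mem _ hq)
        have hA : 1 ≤ a - h := by omega
        obtain ⟨s1, s2, s3⟩ := pks_step h (a - h) r.length B hA r t ht hx (fun q hq z hz => by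
          have := hlowt q hq z hz
          nlinarith)
        have hpos := ih (stepP h (a - h) r.length r t) s1 (s2 _ (fun q hq z hz => by
          have := hlowt q hq z hz
          nlinarith)) hp v hv'
        have hs := s3 v hv'
        have hAr : ((a - h : ℕ) : ℝ) = a - h := by
          rw [Nat.cast_sub (by omega)]
        have hAp : (0 : ℝ) < ((a - h : ℕ) : ℝ) := by exact_mod_cast hA
        rw [pks_qrc]
        rw [sub_self, mul_zero, zero_mul, sub_zero] at hs
        rw [← hAr]
        set Q := qr (t.map (List.map fun z : ℕ => (z : ℤ) - h)) v with hQ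
        set D := dotL (r.map fun z : ℕ => (z : ℝ) - h) v with hD
        have hp2 := mul_nonneg hAp.le hpos
        have key : 0 ≤ ((a - h : ℕ) : ℝ) * (((a - h : ℕ) : ℝ) * y ^ 2 + 2 * y * D + Q) := by
          nlinarith [sq_nonneg (((a - h : ℕ) : ℝ) * y + D)]
        exact nonneg_of_mul_nonneg_right key hAp

end Pool.Agent.MCA
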