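import Pool.Agent.MCA.PKZ2
import Pool.Agent.MCA.PKR
import Pool.Agent.MCA.QUD
/-!
PKT2. Coverings by certified boxes.
-/
set_option autoImplicit false

open Pool.Agent.MSQ Pool.Agent.MTR Pool.Agent.PKD

namespace Pool.Agent.MCA

/-- all elements satisfy `p` -/
def AllP {α : Type} (p : α → Prop) : List α → Prop
  | [] => True
  | a :: l => p a ∧ AllP p l

theorem AllP.of {α : Type} {p : α → Prop} : ∀ {l : List α}, AllP p l → ∀ a ∈ l, p a
  | [], _, a, ha => by simp at ha
  | b :: l, h, a, ha => by
    rcases List.mem_cons.1 ha with rfl | h1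
    · exact h.1
    · exact AllP.of h.2 a h1

/-- a covering by boxes that pass the test -/
theorem cov_of (cov : List (List Itm) → Bool) (rg : Rgn) (R : List P) (c : ℕ) (hc : 0 < c) (r : Rd) (L : List Pk)
    (he : eqPL (R.map (pSm c)) (L.map (unpf r.K r.h)) = true) (hr : rgOK rg r L = true) (z : List (List Bool))
    (bs : List (List Bw)) (hcov : cov (bs.map (List.map itB)) = true)
    (h : AllP (AllP fun b => bchkz z rg r L b = true) bs) : Cov cov rg R := by
  refine ⟨bs.map (List.map itB), hcov, fun col hcol b hb => ?_⟩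
  obtain ⟨col', h1, rfl⟩ := List.mem_map.1 hcol
  obtain ⟨b', h2, rfl⟩ := List.mem_map.1 hb
  have h3 := (h.of col' h1).of b' h2
  exact BoxOK_scale rg R c hc r.K r.h L he _ (bchkz_sound z rg r L hr b' h3)

end Pool.Agent.MCA
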