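import Pool.Agent.MCA.PKE
import Pool.Agent.MSQ.EvA
/-!
PKU (70 lines). Unpacking and change of `R`.

PROOF. `unpf_eq`: inductions; `N / K^j % K` are the digits, `Int.subNatNat a b = a - b` (`Int.subNatNat_eq_coe`).
`BoxOK_congr`: `evE x y R = evE x y R'` (`ev_eqP`), induction on the lists.
-/
set_option autoImplicit false

open Pool.Agent.MSQ Pool.Agent.MTR Pool.Agent.PKD

namespace Pool.Agent.MCA

private theorem pku_unRf (K h : ℕ) : ∀ (m N : ℕ), unRf K h m N =
    (List.range m).map fun j => ((N / K ^ j % K : ℕ) : ℤ) - h := by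
  intro m
  induction m with
  | zero => intro N; rfl
  | succ m ih =>
    intro N
    have h1 : unRf K h (m + 1) N = Int.subNatNat (Nat.mod N K) h :: unRf K h m (Nat.div N K) := rfl
    rw [h1, ih, List.range_succ_eq_map, List.map_cons, List.map_map]
    congr 1
    · rw [Int.subNatNat_eq_coe, pow_zero, Nat.div_one]
      rfl
    · apply List.map_congr_left
      intro j _
      have h2 : N / K / K ^ j = N / K ^ (j + 1) := by
        rw [Nat.div_div_eq_div_mul, pow_succ, mul_comm]
      show ((N / K / K ^ j % K : ℕ) : ℤ) - h = ((N / K ^ (j + 1) % K : ℕ) : ℤ) - h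
      rw [h2]

private theorem pku_aux (K h m : ℕ) : ∀ (n N : ℕ),
    Nat.rec (motive := fun _ => Nat → P) (fun _ => [])
      (fun _ ih N => unRf K h (Nat.succ m) N :: ih (Nat.div N (Nat.pow K (Nat.succ m)))) n N =
    (List.range n).map fun i => unR K h m (N / (K ^ (m + 1)) ^ i) := by
  intro n
  induction n with
  | zero => intro N; rfl
  | succ n ih =>
    intro N
    show unRf K h (Nat.succ m) N :: _ = _
    rw [ih, List.range_succ_eq_map, List.map_cons, List.map_map]
    congr 1
    · rw [pku_unRf]
      simp [unR]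
    · apply List.map_congr_left
      intro j _
      have h2 : N / K ^ (m + 1) / (K ^ (m + 1)) ^ j = N / (K ^ (m + 1)) ^ (j + 1) := by
        rw [Nat.div_div_eq_div_mul, pow_succ (K ^ (m + 1)) j, mul_comm]
      show unR K h m (N / K ^ (m + 1) / (K ^ (m + 1)) ^ j) = unR K h m (N / (K ^ (m + 1)) ^ (j + 1))
      rw [h2]

theorem unpf_eq (K h : ℕ) (p : Pk) : unpf K h p = unp K h p := by
  exact pku_aux K h p.m (p.n + 1) p.c

private theorem pku_ev (x y : ℝ) : ∀ (R R' : List P), eqPL R R' = true → evE x y R = evE x y R' := by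
  intro R
  induction R with
  | nil =>
    intro R' h
    cases R' with
    | nil => rfl
    | cons q qs => simp [eqPL] at h
  | cons p ps ih =>
    intro R' h
    cases R' with
    | nil => simp [eqPL] at h
    | cons q qs =>
      simp only [eqPL, Bool.and_eq_true] at h
      have h1 := ev_eqP x y p q h.1
      have h2 := ih qs h.2
      simp only [evE, List.map_cons] at h2 ⊢
      rw [h1, h2]

theorem BoxOK_congr (rg : Rgn) (R : List P) (K h : ℕ) (L : List Pk) (he : eqPL R (L.map (unpf K h)) = true) (b : Itm)
    (hb : BoxOK rg (L.map (unp K h)) b) : BoxOK rg R b := by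
  intro x y hxy s hs hR
  have h1 : L.map (unpf K h) = L.map (unp K h) := List.map_congr_left fun p _ => unpf_eq K h p
  rw [h1] at he
  rw [pku_ev x y R _ he]
  exact hb x y hxy s hs hR

end Pool.Agent.MCA
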