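import Pool.Agent.MCA.PKE
import Pool.Agent.PKD.RQF
import Pool.Agent.MSQ.EvA
/-!
PKV (150 lines). Real values of the packed polynomials and of the forms.

PROOF. With `a = A x` the entries of `mkV (OR τ σ) a A n` are `x^i A^n`, `i = 0 .. n`: `mkV_val` (induction;
`pw (OR τ σ) A n = A^n`). `pvI_val`: `dI` over `mkV b B m` is `B^m evL y row` for rows of length at most `m + 1`
(induction on `m` with the list scaled by a constant), then the rows: `A^n B^m ev x y p`. `pkv_val`: `dgt`, `dgr`, `sm`,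
`sgr` in the same way; `evL y (unR K h m N) = Σ_j (N / K^j % K - h) y^j`,
`ev x y (unp K h p) = Σ_i x^i evL y (unR ..)`. `mkW_VE`: `τ (x1 - qx x) = qx x - x0`, so `x0 + x1 τ = qx (1 + τ) x`.
`mkT_val`: inductions on the lists as in PKF; out of range: `fS rg i = zL`, all values `0` (`dotL_zero`, `lv` of `zL`).
-/
set_option autoImplicit false

open Pool.Agent.MSQ Pool.Agent.MTR Pool.Agent.PKD

namespace Pool.Agent.MCA

/-! ### geometric lists -/

private noncomputable def pkvGeo (c x : ℝ) : ℕ → List ℝ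
  | 0 => []
  | n + 1 => c :: pkvGeo (c * x) x n

private theorem pkvGeo_map (k c x : ℝ) (n : ℕ) : (pkvGeo c x n).map (fun z => k * z) = pkvGeo (k * c) x n := by
  induction n generalizing c with
  | zero => rfl
  | succ n ih =>
    simp only [pkvGeo, List.map_cons]
    rw [ih (c * x), ← mul_assoc]

private theorem pkvGeo_len (c x : ℝ) (n : ℕ) : (pkvGeo c x n).length = n := by
  induction n generalizing c with
  | zero => rfl
  | succ n ih => simp only [pkvGeo, List.length_cons, ih]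

private theorem pkv_pw (τ σ A : ℝ) (n : ℕ) : pw (OR τ σ) A n = A ^ n := by
  induction n with
  | zero =>
    show ((1 : ℕ) : ℝ) = A ^ 0
    simp
  | succ n ih =>
    show A * pw (OR τ σ) A n = A ^ (n + 1)
    rw [ih]
    ring

private theorem pkv_mkV (τ σ A x : ℝ) (n : ℕ) : mkV (OR τ σ) (A * x) A n = pkvGeo (A ^ n) x (n + 1) := by
  induction n with
  | zero =>
    show [((1 : ℕ) : ℝ)] = [A ^ 0]
    simp
  | succ n ih =>
    show pw (OR τ σ) A (n + 1) :: (mkV (OR τ σ) (A * x) A n).map (fun z => (A * x) * z) = _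
    rw [ih, pkvGeo_map, pkv_pw]
    show A ^ (n + 1) :: pkvGeo (A * x * A ^ n) x (n + 1) = A ^ (n + 1) :: pkvGeo (A ^ (n + 1) * x) x (n + 1)
    rw [show A * x * A ^ n = A ^ (n + 1) * x by ring]

private theorem pkv_dI (τ σ y : ℝ) (k : ℕ) (c : ℝ) (l : List Int) (hl : l.length ≤ k) :
    dI (OR τ σ) (pkvGeo c y k) l = c * evL y l := by
  induction k generalizing c l with
  | zero =>
    have h0 : l = [] := List.eq_nil_of_length_eq_zero (by omega)
    subst h0
    show ((0 : ℕ) : ℝ) = c * 0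
    simp
  | succ k ih =>
    cases l with
    | nil =>
      show ((0 : ℕ) : ℝ) = c * 0
      simp
    | cons a l =>
      have h1 : l.length ≤ k := by simpa using hl
      have h2 := ih (c * y) l h1
      cases a with
      | ofNat n =>
        show (n : ℝ) * c + dI (OR τ σ) (pkvGeo (c * y) y k) l = c * (((Int.ofNat n : Int) : ℝ) + y * evL y l)
        rw [h2]
        have h3 : ((Int.ofNat n : Int) : ℝ) = (n : ℝ) := by simp
        rw [h3]
        ring
      | negSucc n =>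
        show dI (OR τ σ) (pkvGeo (c * y) y k) l - ((Nat.succ n : ℕ) : ℝ) * c =
          c * (((Int.negSucc n : Int) : ℝ) + y * evL y l)
        rw [h2]
        have h3 : ((Int.negSucc n : Int) : ℝ) = -((Nat.succ n : ℕ) : ℝ) := by
          rw [Int.cast_negSucc]
        rw [h3]
        ring

private theorem pkv_pvI (τ σ x y : ℝ) (c' : ℝ) (m k : ℕ) (c : ℝ) (p : P) (hp : p.length ≤ k)
    (hr : ∀ r ∈ p, r.length ≤ m) :
    pvI (OR τ σ) (tens (pkvGeo c x k) (pkvGeo c' y m)) p = c * c' * ev x y p := by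
  induction k generalizing c p with
  | zero =>
    have h0 : p = [] := List.eq_nil_of_length_eq_zero (by omega)
    subst h0
    show ((0 : ℕ) : ℝ) = c * c' * 0
    simp
  | succ k ih =>
    cases p with
    | nil =>
      show ((0 : ℕ) : ℝ) = c * c' * 0
      simp
    | cons r p =>
      have h1 : p.length ≤ k := by simpa using hp
      have h2 := ih (c * x) p h1 fun r' hr' => hr r' (List.mem_cons_of_mem _ hr')
      show c * dI (OR τ σ) (pkvGeo c' y m) r + pvI (OR τ σ) (tens (pkvGeo (c * x) x k) (pkvGeo c' y m)) p =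
        c * c' * (evL y r + x * ev x y p)
      rw [h2, pkv_dI τ σ y m c' r (hr r List.mem_cons_self)]
      ring

private theorem pkv_lenP {d : ℕ × ℕ} {p : P} (h : lenP d p = true) :
    p.length ≤ d.1 + 1 ∧ ∀ r ∈ p, r.length ≤ d.2 + 1 := by
  unfold lenP at h
  rw [Bool.and_eq_true, List.all_eq_true] at h
  exact ⟨Nat.le_of_ble_eq_true h.1, fun r hr => Nat.le_of_ble_eq_true (h.2 r hr)⟩

private theorem pkv_bas (τ σ : ℝ) {v : Vw ℝ} {x y : ℝ} (hv : VE v x y) (n m : ℕ) :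
    bas (OR τ σ) v n m = tens (pkvGeo (v.A ^ n) x (n + 1)) (pkvGeo (v.B ^ m) y (m + 1)) := by
  unfold bas
  rw [hv.a, hv.b, pkv_mkV, pkv_mkV]

/-! ### digits -/

private def pkvU (K h : ℕ) : ℕ → ℕ → List Int
  | 0, _ => []
  | k + 1, N => (((N % K : ℕ) : Int) - h) :: pkvU K h k (N / K)

private theorem pkv_unR (K h k N : ℕ) :
    ((List.range k).map fun j => ((N / K ^ j % K : ℕ) : Int) - h) = pkvU K h k N := by
  induction k generalizing N with
  | zero => rfl
  | succ k ih =>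
    rw [List.range_succ_eq_map, List.map_cons, List.map_map, pkvU, ← ih (N / K)]
    congr 1
    · simp
    · apply List.map_congr_left
      intro j _
      simp only [Function.comp]
      rw [Nat.succ_eq_add_one, pow_succ', ← Nat.div_div_eq_div_mul]

private def pkvW (K h m L : ℕ) : ℕ → ℕ → P
  | 0, _ => []
  | k + 1, N => pkvU K h (m + 1) N :: pkvW K h m L k (N / L)

private theorem pkv_unp (K h m L k N : ℕ) :
    ((List.range k).map fun i => unR K h m (N / L ^ i)) = pkvW K h m L k N := by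
  induction k generalizing N with
  | zero => rfl
  | succ k ih =>
    rw [List.range_succ_eq_map, List.map_cons, List.map_map, pkvW, ← ih (N / L)]
    congr 1
    · unfold unR
      rw [pow_zero, Nat.div_one, pkv_unR]
    · apply List.map_congr_left
      intro j _
      simp only [Function.comp]
      rw [Nat.succ_eq_add_one, pow_succ', ← Nat.div_div_eq_div_mul]

private theorem pkv_dgtmod (τ σ : ℝ) (K : ℕ) (v : List ℝ) (N : ℕ) :
    dgt (OR τ σ) K v (N % K ^ v.length) = dgt (OR τ σ) K v N := by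
  induction v generalizing N with
  | nil => rfl
  | cons y v ih =>
    show ((N % K ^ (v.length + 1) % K : ℕ) : ℝ) * y + dgt (OR τ σ) K v (N % K ^ (v.length + 1) / K) =
      ((N % K : ℕ) : ℝ) * y + dgt (OR τ σ) K v (N / K)
    rw [pow_succ', Nat.mod_mul_right_div_self, ih, Nat.mod_mul_right_mod]

private theorem pkv_dgt (τ σ y : ℝ) (K h : ℕ) (k : ℕ) (c : ℝ) (N : ℕ) :
    dgt (OR τ σ) K (pkvGeo c y k) N - (h : ℝ) * sm (OR τ σ) (pkvGeo c y k) = c * evL y (pkvU K h k N) := by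
  induction k generalizing c N with
  | zero =>
    show ((0 : ℕ) : ℝ) - (h : ℝ) * ((0 : ℕ) : ℝ) = c * 0
    simp
  | succ k ih =>
    have h1 := ih (c * y) (N / K)
    show (((N % K : ℕ) : ℝ) * c + dgt (OR τ σ) K (pkvGeo (c * y) y k) (N / K)) -
        (h : ℝ) * (c + sm (OR τ σ) (pkvGeo (c * y) y k)) =
      c * (((((N % K : ℕ) : Int) - (h : Int) : Int) : ℝ) + y * evL y (pkvU K h k (N / K)))
    rw [Int.cast_sub, Int.cast_natCast, Int.cast_natCast]
    linear_combination h1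

private theorem pkv_pvo (τ σ x y : ℝ) (K h m : ℕ) (c' : ℝ) (k : ℕ) (c : ℝ) (N : ℕ) :
    dgr (OR τ σ) K (K ^ (m + 1)) (tens (pkvGeo c x k) (pkvGeo c' y (m + 1))) N -
      (h : ℝ) * sgr (OR τ σ) (tens (pkvGeo c x k) (pkvGeo c' y (m + 1))) =
    c * c' * ev x y (pkvW K h m (K ^ (m + 1)) k N) := by
  induction k generalizing c N with
  | zero =>
    show ((0 : ℕ) : ℝ) - (h : ℝ) * ((0 : ℕ) : ℝ) = c * c' * 0
    simp
  | succ k ih =>
    have h1 := ih (c * x) (N / K ^ (m + 1))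
    have h2 := pkv_dgt τ σ y K h (m + 1) c' N
    have h3 := pkv_dgtmod τ σ K (pkvGeo c' y (m + 1)) N
    rw [pkvGeo_len] at h3
    show (c * dgt (OR τ σ) K (pkvGeo c' y (m + 1)) (N % K ^ (m + 1)) +
          dgr (OR τ σ) K (K ^ (m + 1)) (tens (pkvGeo (c * x) x k) (pkvGeo c' y (m + 1))) (N / K ^ (m + 1))) -
        (h : ℝ) * (c * sm (OR τ σ) (pkvGeo c' y (m + 1)) +
          sgr (OR τ σ) (tens (pkvGeo (c * x) x k) (pkvGeo c' y (m + 1)))) =
      c * c' * (evL y (pkvU K h (m + 1) N) + x * ev x y (pkvW K h m (K ^ (m + 1)) k (N / K ^ (m + 1))))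
    rw [h3]
    linear_combination h1 + c * h2

/-! ### lists of forms -/

private theorem pkv_dot0 (n : ℕ) (s : List ℝ) : dotL (List.replicate n 0) s = 0 := by
  induction n generalizing s with
  | zero => rfl
  | succ n ih =>
    cases s with
    | nil => rfl
    | cons a s =>
      rw [List.replicate_succ]
      show 0 * a + dotL (List.replicate n 0) s = 0
      rw [ih]
      ring

private theorem pkv_zK (τ σ : ℝ) (n : ℕ) (s : List ℝ) : dotL (zK (OR τ σ) n) s = 0 := by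
  have h : zK (OR τ σ) n = List.replicate n (0 : ℝ) := by
    unfold zK
    show List.replicate n (((0 : ℕ) : ℝ)) = _
    rw [Nat.cast_zero]
  rw [h, pkv_dot0]

private theorem pkv_zL (x y : ℝ) (s : List ℝ) : lv x y zL s = 0 := by
  unfold lv evE zL
  rw [List.map_replicate]
  show dotL (List.replicate 11 (0 : ℝ)) s = 0
  exact pkv_dot0 11 s


theorem pvI_val (τ σ : ℝ) {v : Vw ℝ} {x y : ℝ} (hv : VE v x y) (d : ℕ × ℕ) (p : P) (hp : lenP d p = true) :
    pvI (OR τ σ) (bas (OR τ σ) v d.1 d.2) p = hm v d * ev x y p := by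
  obtain ⟨h1, h2⟩ := pkv_lenP hp
  rw [pkv_bas τ σ hv, pkv_pvI τ σ x y _ _ _ _ p h1 h2]
  rfl

theorem pkv_val (τ σ : ℝ) {v : Vw ℝ} {x y : ℝ} (hv : VE v x y) (K h : ℕ) (hK : 1 ≤ K) (d : ℕ × ℕ) (p : Pk)
    (hp : fit d p = true) : pkv (OR τ σ) K h v d p = hm v d * ev x y (unp K h p) := by
  unfold fit at hp
  rw [Bool.and_eq_true] at hp
  have hn : p.n ≤ d.1 := Nat.le_of_ble_eq_true hp.1
  have hm' : p.m ≤ d.2 := Nat.le_of_ble_eq_true hp.2
  have h1 := pkv_pvo τ σ x y K h p.m (v.B ^ p.m) (p.n + 1) (v.A ^ p.n) p.c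
  have h2 : unp K h p = pkvW K h p.m (K ^ (p.m + 1)) (p.n + 1) p.c := by
    unfold unp
    exact pkv_unp K h p.m (K ^ (p.m + 1)) (p.n + 1) p.c
  show (pw (OR τ σ) v.A (d.1 - p.n) * pw (OR τ σ) v.B (d.2 - p.m)) *
      (dgr (OR τ σ) K (K ^ (p.m + 1)) (bas (OR τ σ) v p.n p.m) p.c -
        (h : ℝ) * sgr (OR τ σ) (bas (OR τ σ) v p.n p.m)) = _
  rw [pkv_bas τ σ hv, h1, h2, pkv_pw, pkv_pw]
  unfold hm
  have e1 : v.A ^ d.1 = v.A ^ (d.1 - p.n) * v.A ^ p.n := by rw [← pow_add, Nat.sub_add_cancel hn]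
  have e2 : v.B ^ d.2 = v.B ^ (d.2 - p.m) * v.B ^ p.m := by rw [← pow_add, Nat.sub_add_cancel hm']
  rw [e1, e2]
  ring

theorem lfv_val (τ σ : ℝ) {v : Vw ℝ} {x y : ℝ} (hv : VE v x y) (d : ℕ × ℕ) (l : LF)
    (hl : (l.all fun p => lenP d p) = true) (s : List ℝ) :
    dotL (lfv (OR τ σ) v d l) s = hm v d * lv x y l s := by
  rw [List.all_eq_true] at hl
  unfold lfv lv evE
  induction l generalizing s with
  | nil => simp [dotL]
  | cons p l ih =>
    cases s with
    | nil => simp [dotL]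
    | cons a s =>
      have h1 := ih (fun q hq => hl q (List.mem_cons_of_mem _ hq)) s
      have h2 := pvI_val τ σ hv d p (hl p List.mem_cons_self)
      simp only [List.map_cons, dotL]
      rw [h1, h2]
      ring

private theorem pkv_okL {r : Rd} {d : ℕ × ℕ} {c : ℕ} {l : LF} (h : okL r d c l = true) :
    l.length = 11 ∧ (l.all fun p => lenP d p) = true := by
  unfold okL at h
  rw [Bool.and_eq_true, List.all_eq_true] at h
  refine ⟨Nat.eq_of_beq_eq_true h.1, ?_⟩
  rw [List.all_eq_true]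
  intro p hp
  have h2 := h.2 p hp
  rw [Bool.and_eq_true] at h2
  exact h2.1

private theorem pkv_zKlen (τ σ : ℝ) (n : ℕ) : (zK (OR τ σ) n).length = n := by
  unfold zK
  exact List.length_replicate

private theorem pkv_L (τ σ : ℝ) {v : Vw ℝ} {x y : ℝ} (hv : VE v x y) (r : Rd) (ds : List (ℕ × ℕ)) :
    ∀ (cs : List ℕ) (ls : List LF), okLs r ds cs ls = true → ∀ i : ℕ,
      (∀ s, dotL ((mkL (OR τ σ) v ds ls).getD i (zK (OR τ σ) 11)) s =
        hm v (dg ds i) * lv x y (ls.getD i zL) s) ∧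
      ((mkL (OR τ σ) v ds ls).getD i (zK (OR τ σ) 11)).length = 11 := by
  induction ds with
  | nil =>
    intro cs ls h i
    cases cs <;> cases ls <;> simp only [okLs, Bool.false_eq_true] at h
    simp only [mkL, List.getD_nil]
    refine ⟨fun s => ?_, pkv_zKlen τ σ 11⟩
    rw [pkv_zK, pkv_zL, mul_zero]
  | cons d ds ih =>
    intro cs ls h i
    cases cs <;> cases ls <;> simp only [okLs, Bool.false_eq_true, Bool.and_eq_true] at h
    rename_i c cs l ls
    cases i with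
    | zero =>
      obtain ⟨h1, h2⟩ := pkv_okL h.1
      simp only [mkL, dg, List.getD_cons_zero]
      refine ⟨fun s => lfv_val τ σ hv d l h2 s, ?_⟩
      unfold lfv
      rw [List.length_map, h1]
    | succ i =>
      have := ih cs ls h.2 i
      simp only [mkL, dg, List.getD_cons_succ] at this ⊢
      exact this

private theorem pkv_M (τ σ : ℝ) {v : Vw ℝ} {x y : ℝ} (hv : VE v x y) (r : Rd) (ds : List (ℕ × ℕ)) :
    ∀ (cs : List ℕ) (ls : List MF), okMs r ds cs ls = true → ∀ i : ℕ,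
      ((∀ s, dotL ((mkMs (OR τ σ) v ds ls).getD i (zK (OR τ σ) 11, zK (OR τ σ) 11, zK (OR τ σ) 11)).1 s =
        hm v (dg ds i) * lv x y (ls.getD i ⟨zL, zL, zL⟩).m11 s) ∧
      (∀ s, dotL ((mkMs (OR τ σ) v ds ls).getD i (zK (OR τ σ) 11, zK (OR τ σ) 11, zK (OR τ σ) 11)).2.1 s =
        hm v (dg ds i) * lv x y (ls.getD i ⟨zL, zL, zL⟩).m12 s) ∧
      (∀ s, dotL ((mkMs (OR τ σ) v ds ls).getD i (zK (OR τ σ) 11, zK (OR τ σ) 11, zK (OR τ σ) 11)).2.2 s =
        hm v (dg ds i) * lv x y (ls.getD i ⟨zL, zL, zL⟩).m22 s)) ∧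
      ((mkMs (OR τ σ) v ds ls).getD i (zK (OR τ σ) 11, zK (OR τ σ) 11, zK (OR τ σ) 11)).1.length = 11 ∧
      ((mkMs (OR τ σ) v ds ls).getD i (zK (OR τ σ) 11, zK (OR τ σ) 11, zK (OR τ σ) 11)).2.1.length = 11 ∧
      ((mkMs (OR τ σ) v ds ls).getD i (zK (OR τ σ) 11, zK (OR τ σ) 11, zK (OR τ σ) 11)).2.2.length = 11 := by
  induction ds with
  | nil =>
    intro cs ls h i
    cases cs <;> cases ls <;> simp only [okMs, Bool.false_eq_true] at h
    simp only [mkMs, List.getD_nil]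
    refine ⟨⟨fun s => ?_, fun s => ?_, fun s => ?_⟩, pkv_zKlen τ σ 11, pkv_zKlen τ σ 11, pkv_zKlen τ σ 11⟩ <;>
      rw [pkv_zK, pkv_zL, mul_zero]
  | cons d ds ih =>
    intro cs ls h i
    cases cs <;> cases ls <;> simp only [okMs, Bool.false_eq_true, Bool.and_eq_true] at h
    rename_i c cs l ls
    cases i with
    | zero =>
      obtain ⟨a1, a2⟩ := pkv_okL h.1.1.1
      obtain ⟨b1, b2⟩ := pkv_okL h.1.1.2
      obtain ⟨c1, c2⟩ := pkv_okL h.1.2
      simp only [mkMs, dg, List.getD_cons_zero]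
      refine ⟨⟨fun s => lfv_val τ σ hv d _ a2 s, fun s => lfv_val τ σ hv d _ b2 s,
        fun s => lfv_val τ σ hv d _ c2 s⟩, ?_, ?_, ?_⟩ <;> unfold lfv <;> rw [List.length_map] <;> assumption
    | succ i =>
      have := ih cs ls h.2 i
      simp only [mkMs, dg, List.getD_cons_succ] at this ⊢
      exact this

private theorem pkv_G (τ σ : ℝ) {v : Vw ℝ} {x y : ℝ} (hv : VE v x y) (r : Rd) (ds : List (ℕ × ℕ)) :
    ∀ (cs : List ℕ) (ls : List P), okGs r ds cs ls = true → ∀ i : ℕ,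
      (mkG (OR τ σ) v ds ls).getD i ((OR τ σ).nat 0) = hm v (dg ds i) * ev x y (ls.getD i []) := by
  induction ds with
  | nil =>
    intro cs ls h i
    cases cs <;> cases ls <;> simp only [okGs, Bool.false_eq_true] at h
    simp only [mkG, List.getD_nil]
    show ((0 : ℕ) : ℝ) = _ * 0
    simp
  | cons d ds ih =>
    intro cs ls h i
    cases cs <;> cases ls <;> simp only [okGs, Bool.false_eq_true, Bool.and_eq_true] at h
    rename_i c cs l ls
    cases i with
    | zero =>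
      simp only [mkG, dg, List.getD_cons_zero]
      exact pvI_val τ σ hv d l h.1.1
    | succ i =>
      have := ih cs ls h.2 i
      simp only [mkG, dg, List.getD_cons_succ] at this ⊢
      exact this

theorem mkT_val (τ σ : ℝ) {v : Vw ℝ} {x y : ℝ} (hv : VE v x y) (rg : Rgn) (r : Rd) (R : List Pk)
    (h : rgOK rg r R = true) : TE (OR τ σ) rg r v x y (mkT (OR τ σ) v rg r) := by
  unfold rgOK at h
  simp only [Bool.and_eq_true] at h
  have hF := pkv_L τ σ hv r r.dF r.bF rg.fs h.1.1.1.1.1.1.1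
  have hM := pkv_M τ σ hv r r.dM r.bM rg.ms h.1.1.1.1.1.1.2
  have hZ := pkv_L τ σ hv r r.dZ r.bZ rg.zs h.1.1.1.1.1.2
  have hG := pkv_G τ σ hv r r.dG r.bG rg.gs h.1.1.1.1.2
  exact
    { F := fun i => (hF i).1
      M1 := fun i => (hM i).1.1
      M2 := fun i => (hM i).1.2.1
      M3 := fun i => (hM i).1.2.2
      Z := fun i => (hZ i).1
      G := hG
      lF := fun i => (hF i).2
      lM1 := fun i => (hM i).2.1
      lM2 := fun i => (hM i).2.2.1
      lM3 := fun i => (hM i).2.2.2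
      lZ := fun i => (hZ i).2 }

theorem mkW_VE (r : Rd) (b : Bw) (hqx : 1 ≤ b.qx) (hqy : 1 ≤ b.qy) (x y : ℝ) (hb : inH b x y) :
    VE (mkW (ctx r b x y).rr b) x y ∧ 0 ≤ (ctx r b x y).τ ∧ 0 ≤ (ctx r b x y).σ := by
  obtain ⟨a1, a2, a3, a4⟩ := hb
  have q1 : (1 : ℝ) ≤ b.qx := by exact_mod_cast hqx
  have q2 : (1 : ℝ) ≤ b.qy := by exact_mod_cast hqy
  have d1 : (0 : ℝ) < b.x1 - b.qx * x := by linarith
  have d2 : (0 : ℝ) < b.y1 - b.qy * y := by linarith
  have t1 : 0 ≤ (b.qx * x - b.x0) / (b.x1 - b.qx * x) := div_nonneg (by linarith) d1.le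
  have t2 : 0 ≤ (b.qy * y - b.y0) / (b.y1 - b.qy * y) := div_nonneg (by linarith) d2.le
  have e1 : (b.qx * x - b.x0) / (b.x1 - b.qx * x) * (b.x1 - b.qx * x) = b.qx * x - b.x0 :=
    div_mul_cancel₀ _ d1.ne'
  have e2 : (b.qy * y - b.y0) / (b.y1 - b.qy * y) * (b.y1 - b.qy * y) = b.qy * y - b.y0 :=
    div_mul_cancel₀ _ d2.ne'
  refine ⟨⟨?_, ?_, ?_, ?_⟩, t1, t2⟩
  · show (0 : ℝ) < (b.qx : ℝ) * (((1 : ℕ) : ℝ) + (b.qx * x - b.x0) / (b.x1 - b.qx * x))
    rw [Nat.cast_one]
    exact mul_pos (by linarith) (by linarith)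
  · show (0 : ℝ) < (b.qy : ℝ) * (((1 : ℕ) : ℝ) + (b.qy * y - b.y0) / (b.y1 - b.qy * y))
    rw [Nat.cast_one]
    exact mul_pos (by linarith) (by linarith)
  · show (b.x0 : ℝ) + (b.x1 : ℝ) * ((b.qx * x - b.x0) / (b.x1 - b.qx * x)) =
      (b.qx : ℝ) * (((1 : ℕ) : ℝ) + (b.qx * x - b.x0) / (b.x1 - b.qx * x)) * x
    rw [Nat.cast_one]
    linear_combination e1
  · show (b.y0 : ℝ) + (b.y1 : ℝ) * ((b.qy * y - b.y0) / (b.y1 - b.qy * y)) =
      (b.qy : ℝ) * (((1 : ℕ) : ℝ) + (b.qy * y - b.y0) / (b.y1 - b.qy * y)) * y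
    rw [Nat.cast_one]
    linear_combination e2

end Pool.Agent.MCA
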