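import Pool.Agent.MCA.PKE
import Pool.Agent.PKD.RQF
/-!
PKX (80 lines). Selection of the active states.

PROOF. Induction on `ac` (generalizing `l`, `s`), `qf (l) (s0 :: s) = s0 * dotL (take) (s0 :: s) + qf (drop) s`.
For `true`: `dotL row (s0 :: s) = dotL (selL (true :: ac) row) (s0 :: selL ac s)` if the other entries of the row vanish;
for `false` the whole row vanishes. `selL_len`: length of `selL ac s` is `cnt ac` if `s.length = ac.length`.
-/
set_option autoImplicit false

open Pool.Agent.MSQ Pool.Agent.MTR Pool.Agent.PKD

namespace Pool.Agent.MCA

private theorem PKX_nel_nil {α : Type} (ac : List Bool) : nelL ac ([] : List α) = [] := by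
  cases ac with
  | nil => rfl
  | cons b bs => cases b <;> rfl

private theorem PKX_sel_nil {α : Type} (ac : List Bool) : selL ac ([] : List α) = [] := by
  cases ac with
  | nil => rfl
  | cons b bs => cases b <;> rfl

private theorem PKX_tri (n : ℕ) : (n + 1) * (n + 1 + 1) / 2 = (n + 1) + n * (n + 1) / 2 := by
  have h : (n + 1) * (n + 1 + 1) = n * (n + 1) + 2 * (n + 1) := by ring
  rw [h]
  omega

private theorem PKX_cnt_true (bs : List Bool) : cnt (true :: bs) = cnt bs + 1 := by
  simp [cnt]

private theorem PKX_cnt_false (bs : List Bool) : cnt (false :: bs) = cnt bs := by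
  simp [cnt]

theorem selL_len {α : Type} (ac : List Bool) (s : List α) (hs : s.length = ac.length) :
    (selL ac s).length = cnt ac := by
  induction ac generalizing s with
  | nil => rfl
  | cons b bs ih =>
    cases s with
    | nil => simp at hs
    | cons a l =>
      have h1 : l.length = bs.length := by simpa using hs
      cases b with
      | true =>
        rw [PKX_cnt_true]
        show (selL bs l).length + 1 = cnt bs + 1
        rw [ih l h1]
      | false =>
        rw [PKX_cnt_false]
        exact ih l h1

private theorem PKX_take {α : Type} {n : ℕ} {l : List α} (hl : l.length = (n + 1) * (n + 1 + 1) / 2) :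
    (l.take (n + 1)).length = n + 1 := by
  rw [List.length_take, hl, PKX_tri]
  omega

private theorem PKX_drop {α : Type} {n : ℕ} {l : List α} (hl : l.length = (n + 1) * (n + 1 + 1) / 2) :
    (l.drop (n + 1)).length = n * (n + 1) / 2 := by
  rw [List.length_drop, hl, PKX_tri]
  omega

theorem selQ_len {α : Type} (ac : List Bool) (l : List α) (hl : l.length = ac.length * (ac.length + 1) / 2) :
    (selQ ac l).length = cnt ac * (cnt ac + 1) / 2 := by
  induction ac generalizing l with
  | nil => rfl
  | cons b bs ih =>
    rw [List.length_cons] at hl
    have h1 := ih (l.drop (bs.length + 1)) (PKX_drop hl)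
    cases b with
    | true =>
      have h2 := selL_len (true :: bs) (l.take (bs.length + 1)) (PKX_take hl)
      have h3 : selQ (true :: bs) l = selL (true :: bs) (l.take (bs.length + 1)) ++ selQ bs (l.drop (bs.length + 1)) := rfl
      rw [h3, List.length_append, h1, h2, PKX_cnt_true, PKX_tri]
    | false =>
      have h3 : selQ (false :: bs) l = selQ bs (l.drop (bs.length + 1)) := rfl
      rw [h3, h1, PKX_cnt_false]

private theorem PKX_dot0 (l s : List ℝ) (h : ∀ z ∈ l, z = 0) : dotL l s = 0 := by
  induction l generalizing s with
  | nil => cases s <;> rfl
  | cons a l ih =>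
    cases s with
    | nil => rfl
    | cons b s =>
      have h1 : a = 0 := h a (by simp)
      show a * b + dotL l s = 0
      rw [ih s fun z hz => h z (by simp [hz]), h1]
      ring

private theorem PKX_dot (ac : List Bool) (l s : List ℝ) (hl : l.length = ac.length) (hs : s.length = ac.length)
    (h : ∀ z ∈ nelL ac l, z = 0) : dotL l s = dotL (selL ac l) (selL ac s) := by
  induction ac generalizing l s with
  | nil =>
    have h1 : l = [] := List.length_eq_zero_iff.mp hl
    have h2 : s = [] := List.length_eq_zero_iff.mp hs
    subst h1 h2
    rfl
  | cons b bs ih =>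
    cases l with
    | nil => simp at hl
    | cons a l =>
      cases s with
      | nil => simp at hs
      | cons c s =>
        have h1 : l.length = bs.length := by simpa using hl
        have h2 : s.length = bs.length := by simpa using hs
        cases b with
        | true =>
          show a * c + dotL l s = a * c + dotL (selL bs l) (selL bs s)
          rw [ih l s h1 h2 h]
        | false =>
          have h3 : a = 0 := h a (by show a ∈ a :: nelL bs l; simp)
          show a * c + dotL l s = dotL (selL bs l) (selL bs s)
          rw [ih l s h1 h2 fun z hz => h z (by show z ∈ a :: nelL bs l; simp [hz]), h3]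
          ring

theorem qf_sel (ac : List Bool) (l s : List ℝ) (hl : l.length = ac.length * (ac.length + 1) / 2)
    (hs : s.length = ac.length) (h0 : ∀ z ∈ nelQ ac l, z = 0) : qf l s = qf (selQ ac l) (selL ac s) := by
  induction ac generalizing l s with
  | nil =>
    have h1 : l = [] := List.length_eq_zero_iff.mp (by simpa using hl)
    have h2 : s = [] := List.length_eq_zero_iff.mp hs
    subst h1 h2
    rfl
  | cons b bs ih =>
    cases s with
    | nil => simp at hs
    | cons c s =>
      rw [List.length_cons] at hl
      have h2 : s.length = bs.length := by simpa using hs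
      have hq : qf l (c :: s) = c * dotL (l.take (bs.length + 1)) (c :: s) + qf (l.drop (bs.length + 1)) s := by
        show c * dotL (l.take (s.length + 1)) (c :: s) + qf (l.drop (s.length + 1)) s = _
        rw [h2]
      cases b with
      | true =>
        have hn : nelQ (true :: bs) l = nelL (true :: bs) (l.take (bs.length + 1)) ++ nelQ bs (l.drop (bs.length + 1)) := rfl
        rw [hn] at h0
        have e1 := ih (l.drop (bs.length + 1)) s (PKX_drop hl) h2 fun z hz => h0 z (List.mem_append_right _ hz)
        have e2 := PKX_dot (true :: bs) (l.take (bs.length + 1)) (c :: s) (PKX_take hl) hs fun z hz =>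
          h0 z (List.mem_append_left _ hz)
        have h3 : selQ (true :: bs) l = selL (true :: bs) (l.take (bs.length + 1)) ++ selQ bs (l.drop (bs.length + 1)) := rfl
        have h4 : selL (true :: bs) (c :: s) = c :: selL bs s := rfl
        have h5 : (selL (true :: bs) (l.take (bs.length + 1))).length = (selL bs s).length + 1 := by
          rw [selL_len _ _ (PKX_take hl), selL_len _ _ h2, PKX_cnt_true]
        rw [hq, e1, e2, h3, h4]
        show _ = c * dotL (List.take ((selL bs s).length + 1) _) (c :: selL bs s) +
          qf (List.drop ((selL bs s).length + 1) _) (selL bs s)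
        rw [← h5, List.take_left, List.drop_left]
      | false =>
        have hn : nelQ (false :: bs) l = l.take (bs.length + 1) ++ nelQ bs (l.drop (bs.length + 1)) := rfl
        rw [hn] at h0
        have e1 := ih (l.drop (bs.length + 1)) s (PKX_drop hl) h2 fun z hz => h0 z (List.mem_append_right _ hz)
        have e2 := PKX_dot0 (l.take (bs.length + 1)) (c :: s) fun z hz => h0 z (List.mem_append_left _ hz)
        have h3 : selQ (false :: bs) l = selQ bs (l.drop (bs.length + 1)) := rfl
        have h4 : selL (false :: bs) (c :: s) = selL bs s := rfl
        rw [hq, e1, e2, h3, h4]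
        ring

end Pool.Agent.MCA
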