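import Pool.Agent.MCA.PDZ
import Pool.Agent.MCA.PKX
import Pool.Agent.MCA.PKD2
/-!
PKY. Soundness of the test of digit matrices with rows that vanish.
-/
set_option autoImplicit false

open Pool.Agent.MSQ Pool.Agent.MTR Pool.Agent.PKD

namespace Pool.Agent.MCA

private theorem selL_map {α β : Type} (f : α → β) : ∀ (z : List Bool) (l : List α),
    selL z (l.map f) = (selL z l).map f
  | [], l => by cases l <;> rfl
  | true :: bs, [] => rfl
  | false :: bs, [] => rfl
  | true :: bs, a :: l => by
    show f a :: selL bs (l.map f) = f a :: (selL bs l).map f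
    rw [selL_map f bs l]
  | false :: bs, a :: l => by
    show selL bs (l.map f) = (selL bs l).map f
    exact selL_map f bs l

private theorem nelL_map {α β : Type} (f : α → β) : ∀ (z : List Bool) (l : List α),
    nelL z (l.map f) = (nelL z l).map f
  | [], l => by cases l <;> rfl
  | true :: bs, [] => rfl
  | false :: bs, [] => rfl
  | true :: bs, a :: l => by
    show nelL bs (l.map f) = (nelL bs l).map f
    exact nelL_map f bs l
  | false :: bs, a :: l => by
    show f a :: nelL bs (l.map f) = f a :: (nelL bs l).map f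
    rw [nelL_map f bs l]

private theorem cnt_t (bs : List Bool) : cnt (true :: bs) = cnt bs + 1 := by simp [cnt]
private theorem cnt_f (bs : List Bool) : cnt (false :: bs) = cnt bs := by simp [cnt]

private theorem isTN_selM : ∀ (z : List Bool) (M : List (List ℕ)), isTN z.length M → isTN (cnt z) (selM z M)
  | [], M, h => by
    change M = [] at h
    subst h
    rfl
  | b :: bs, M, h => by
    obtain ⟨r, t, h1, h2, h3⟩ := h
    subst h1
    cases b with
    | true =>
      rw [cnt_t]
      refine ⟨selL (true :: bs) r, selM bs t, rfl, ?_, isTN_selM bs t h3⟩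
      rw [selL_len _ _ (by simpa using h2), cnt_t]
    | false =>
      rw [cnt_f]
      exact isTN_selM bs t h3

private theorem isTN_len : ∀ (n : ℕ) (M : List (List ℕ)), isTN n M → M.flatten.length = n * (n + 1) / 2
  | 0, M, h => by
    change M = [] at h
    subst h
    rfl
  | n + 1, M, h => by
    obtain ⟨r, t, h1, h2, h3⟩ := h
    subst h1
    rw [List.flatten_cons, List.length_append, h2, isTN_len n t h3]
    have h : (n + 1) * (n + 1 + 1) = n * (n + 1) + 2 * (n + 1) := by ring
    rw [h]
    omega

private theorem selQ_flat (f : ℕ → ℝ) : ∀ (z : List Bool) (M : List (List ℕ)), isTN z.length M →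
    selQ z (M.flatten.map f) = (selM z M).flatten.map f
  | [], M, h => by
    change M = [] at h
    subst h
    rfl
  | b :: bs, M, h => by
    obtain ⟨r, t, h1, h2, h3⟩ := h
    subst h1
    have e1 : ((r :: t).flatten.map f).take (bs.length + 1) = r.map f := by
      rw [List.flatten_cons, List.map_append]
      exact List.take_left' (by rw [List.length_map, h2])
    have e2 : ((r :: t).flatten.map f).drop (bs.length + 1) = t.flatten.map f := by
      rw [List.flatten_cons, List.map_append]
      exact List.drop_left' (by rw [List.length_map, h2])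
    cases b with
    | true =>
      have h4 : selQ (true :: bs) ((r :: t).flatten.map f) =
        selL (true :: bs) (((r :: t).flatten.map f).take (bs.length + 1)) ++
          selQ bs (((r :: t).flatten.map f).drop (bs.length + 1)) := rfl
      rw [h4, e1, e2, selQ_flat f bs t h3, selL_map]
      show _ = (selL (true :: bs) r :: selM bs t).flatten.map f
      rw [List.flatten_cons, List.map_append]
    | false =>
      have h4 : selQ (false :: bs) ((r :: t).flatten.map f) =
          selQ bs (((r :: t).flatten.map f).drop (bs.length + 1)) := rfl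
      rw [h4, e2, selQ_flat f bs t h3]
      rfl

private theorem nelQ_flat (f : ℕ → ℝ) : ∀ (z : List Bool) (M : List (List ℕ)), isTN z.length M →
    nelQ z (M.flatten.map f) = (nelM z M).flatten.map f
  | [], M, h => by
    change M = [] at h
    subst h
    rfl
  | b :: bs, M, h => by
    obtain ⟨r, t, h1, h2, h3⟩ := h
    subst h1
    have e1 : ((r :: t).flatten.map f).take (bs.length + 1) = r.map f := by
      rw [List.flatten_cons, List.map_append]
      exact List.take_left' (by rw [List.length_map, h2])
    have e2 : ((r :: t).flatten.map f).drop (bs.length + 1) = t.flatten.map f := by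
      rw [List.flatten_cons, List.map_append]
      exact List.drop_left' (by rw [List.length_map, h2])
    cases b with
    | true =>
      have h4 : nelQ (true :: bs) ((r :: t).flatten.map f) =
        nelL (true :: bs) (((r :: t).flatten.map f).take (bs.length + 1)) ++
          nelQ bs (((r :: t).flatten.map f).drop (bs.length + 1)) := rfl
      rw [h4, e1, e2, nelQ_flat f bs t h3, nelL_map]
      show _ = (nelL (true :: bs) r :: nelM bs t).flatten.map f
      rw [List.flatten_cons, List.map_append]
    | false =>
      have h4 : nelQ (false :: bs) ((r :: t).flatten.map f) =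
        ((r :: t).flatten.map f).take (bs.length + 1) ++
          nelQ bs (((r :: t).flatten.map f).drop (bs.length + 1)) := rfl
      rw [h4, e1, e2, nelQ_flat f bs t h3]
      show _ = (r :: nelM bs t).flatten.map f
      rw [List.flatten_cons, List.map_append]

theorem tPZ_sound (z : List Bool) (n Y rd H B : ℕ) (hrd : 1 ≤ rd) (hY : 1 ≤ Y) (M : List (List ℕ)) (hM : isTN n M)
    (h : tPZ z n Y rd H B M = true) (s : List ℝ) (hs : s.length = n) :
    0 ≤ qf (M.flatten.map fun v => ((v % Y : ℕ) : ℝ) - rd * H) s := by
  rw [tPZ, Bool.and_eq_true, Bool.and_eq_true] at h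
  obtain ⟨h1, h2, h3⟩ := h
  have h1' : z.length = n := Nat.eq_of_beq_eq_true h1
  subst h1'
  have h0 : ∀ w ∈ nelQ z (M.flatten.map fun v => ((v % Y : ℕ) : ℝ) - rd * H), w = 0 := by
    rw [nelQ_flat _ z M hM]
    intro w hw
    obtain ⟨v, hv, rfl⟩ := List.mem_map.1 hw
    obtain ⟨r, hr, hv2⟩ := List.mem_flatten.1 hv
    have h4 := List.all_eq_true.1 (List.all_eq_true.1 h2 r hr) v hv2
    have h5 : v % Y = rd * H := Nat.eq_of_beq_eq_true h4
    rw [h5]
    push_cast
    ring
  rw [qf_sel z _ s (by rw [List.length_map, isTN_len _ M hM]) hs h0, selQ_flat _ z M hM]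
  exact tPD_sound (cnt z) Y rd H B hrd hY _ (isTN_selM z M hM) h3 _ (selL_len z s hs)

theorem tPY_sound (zs : List (List Bool)) (n Y rd H B : ℕ) (hrd : 1 ≤ rd) (hY : 1 ≤ Y) (M : List (List ℕ))
    (hM : isTN n M) (h : tPY zs n Y rd H B M = true) (s : List ℝ) (hs : s.length = n) :
    0 ≤ qf (M.flatten.map fun v => ((v % Y : ℕ) : ℝ) - rd * H) s := by
  induction zs with
  | nil => exact absurd h Bool.false_ne_true
  | cons z zs ih =>
    cases h1 : tPZ z n Y rd H B M with
    | true => exact tPZ_sound z n Y rd H B hrd hY M hM h1 s hs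
    | false =>
      have h2 : tPY (z :: zs) n Y rd H B M = Bool.rec (motive := fun _ => Bool) (tPY zs n Y rd H B M) true
        (tPZ z n Y rd H B M) := rfl
      rw [h2, h1] at h
      exact ih h

theorem tPO_sound (zs : List (List Bool)) (n Y rd H B : ℕ) (hrd : 1 ≤ rd) (hY : 1 ≤ Y) (M : List (List ℕ))
    (hM : isTN n M) (h : tPO zs n Y rd H B M = true) (s : List ℝ) (hs : s.length = n) :
    0 ≤ qf (M.flatten.map fun v => ((v % Y : ℕ) : ℝ) - rd * H) s := by
  cases h1 : tPD n Y rd H B M with
  | true => exact tPD_sound n Y rd H B hrd hY M hM h1 s hs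
  | false =>
    rw [tPO, h1] at h
    exact tPY_sound zs n Y rd H B hrd hY M hM h s hs

theorem pos_PO {C : Cx} {E D H n m c k rd H' B : ℕ} {A : List ℕ} {F : List ℝ} (zs : List (List Bool)) (hC : CxOK C E D H)
    (hr : C3 C n m c A F) (hA : A.length = k * (k + 1) / 2) (hc : c ≤ H) (hn : n ≤ E) (hm : m ≤ D)
    (hrd : 1 ≤ rd) (hH : rd * H' = H) (h : dgI C.X C.Y (tPO zs k C.Y rd H' B) (n + 1) (m + 1)
      (rowsM k (shiftL (H * reps C.Y ((E + 1) * (D + 1))) C.N A)) = true) (s : List ℝ) (hs : s.length = k) :
    0 ≤ qf F s := by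
  refine pos_T hC hr hA hc hn hm (tPO zs k C.Y rd H' B) (fun M hM h1 s hs => ?_) h s hs
  have h2 := tPO_sound zs k C.Y rd H' B hrd (by rw [hC.Y]; omega) M hM h1 s hs
  have h3 : ((rd : ℝ) * H') = H := by exact_mod_cast hH
  rw [h3] at h2
  exact h2

end Pool.Agent.MCA
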