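import Pool.Agent.MCA.PKY
import Pool.Agent.MCA.PKF
import Pool.Agent.MCA.PKM
import Pool.Agent.MCA.PKQ
import Pool.Agent.MCA.PKX
import Pool.Agent.MCA.PKN
import Pool.Agent.MCA.PKU
/-!
PKZ2. Soundness of the packed test of a box, with rows that vanish on an edge of the box.
-/
set_option autoImplicit false

open Pool.Agent.MSQ Pool.Agent.MTR Pool.Agent.PKD

namespace Pool.Agent.MCA

private theorem fit_mx (l : List Pk) : ∀ p ∈ l, fit (mxD l) p = true := by
  induction l with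
  | nil => simp
  | cons q l ih =>
    intro p hp
    have e1 : mxD (q :: l) = (mx q.n (mxD l).1, mx q.m (mxD l).2) := rfl
    have e2 : ∀ a b, mx a b = a + (b - a) := fun a b => rfl
    rw [e1]
    rcases List.mem_cons.1 hp with h | h
    · subst h
      simp only [fit, e2, Nat.ble_eq, Bool.and_eq_true]
      constructor <;> omega
    · have h1 := ih p h
      simp only [fit, e2, Nat.ble_eq, Bool.and_eq_true] at h1 ⊢
      constructor <;> omega

private theorem hm_pos {v : Vw ℝ} {x y : ℝ} (hv : VE v x y) (d : ℕ × ℕ) : 0 < hm v d :=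
  mul_pos (pow_pos hv.pA _) (pow_pos hv.pB _)

/-- the context of a test satisfies all conditions -/
private theorem ctx_ok (r : Rd) (b : Bw) (x y : ℝ) (h1 : 0 ≤ (ctx r b x y).τ) (h2 : 0 ≤ (ctx r b x y).σ) :
    CxOK (ctx r b x y) r.E r.D (2 ^ b.hb) := by
  refine ⟨?_, rfl, rfl, h1, h2⟩
  show 2 ^ (b.hb + 1) + 1 = 2 * 2 ^ b.hb + 1
  rw [pow_succ]
  ring

private theorem C3_mem {C : Cx} {n m κ : ℕ} {A : List ℕ} {B : List ℝ} (h : C3 C n m κ A B) :
    ∀ z ∈ B, ∃ a ∈ A, R3 C n m a z κ := by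
  unfold C3 at h
  induction h with
  | nil => intro z hz; simp at hz
  | cons p _ ih =>
    intro z hz
    rcases List.mem_cons.1 hz with hz | hz
    · subst hz
      exact ⟨_, List.mem_cons_self, p⟩
    · obtain ⟨a, ha, k⟩ := ih z hz
      exact ⟨a, List.mem_cons_of_mem _ ha, k⟩

section
variable {rg : Rgn} {r : Rd} {R : List Pk} {b : Bw} {x y : ℝ}

/-- what is used about the half open box -/
private structure Hy (rg : Rgn) (r : Rd) (R : List Pk) (b : Bw) (x y : ℝ) : Prop where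
  c : CxOK (ctx r b x y) r.E r.D (2 ^ b.hb)
  v : RV4 (ctx r b x y) r (mkW (ctx r b x y).om b) (mkW (ctx r b x y).rr b)
  e : VE (mkW (ctx r b x y).rr b) x y

private theorem tst_rel (H : Hy rg r R b x y) (hK : 1 ≤ b.K) (n : ℕ) (t : List (List ℕ) → Bool) (l : List Pk)
    (h : tst r (ctx r b x y).X (ctx r b x y).Y (ctx r b x y).N
      (2 ^ b.hb * reps (ctx r b x y).Y ((r.E + 1) * (r.D + 1))) (mkW (ctx r b x y).om b) b.K b.h (2 ^ b.hb) n t l = true) :
    C3 (ctx r b x y) (mxD l).1 (mxD l).2 (2 ^ b.hb) (l.map (pkv (ctx r b x y).om b.K b.h (mkW (ctx r b x y).om b) (mxD l)))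
      (l.map (pkv (ctx r b x y).rr b.K b.h (mkW (ctx r b x y).rr b) (mxD l))) ∧
    (mxD l).1 ≤ r.E ∧ (mxD l).2 ≤ r.D ∧
    dgI (ctx r b x y).X (ctx r b x y).Y t ((mxD l).1 + 1) ((mxD l).2 + 1)
      (rowsM n (shiftL (2 ^ b.hb * reps (ctx r b x y).Y ((r.E + 1) * (r.D + 1))) (ctx r b x y).N
        (l.map (pkv (ctx r b x y).om b.K b.h (mkW (ctx r b x y).om b) (mxD l))))) = true := by
  have h' : ((l.all fun p => Nat.ble (bp b.K b.h r (mxD l) p) (2 ^ b.hb)) && le2 (mxD l) (r.E, r.D) &&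
    dgI (ctx r b x y).X (ctx r b x y).Y t ((mxD l).1 + 1) ((mxD l).2 + 1)
      (rowsM n (shiftL (2 ^ b.hb * reps (ctx r b x y).Y ((r.E + 1) * (r.D + 1))) (ctx r b x y).N
        (l.map (pkv (ctx r b x y).om b.K b.h (mkW (ctx r b x y).om b) (mxD l)))))) = true := h
  rw [Bool.and_eq_true, Bool.and_eq_true] at h'
  obtain ⟨⟨h1, h2⟩, h3⟩ := h'
  have h2' : (mxD l).1 ≤ r.E ∧ (mxD l).2 ≤ r.D := by
    simpa [le2] using h2
  refine ⟨C3.map _ _ l fun p hp => ?_, h2'.1, h2'.2, h3⟩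
  have h4 := pkv_rel H.v b.K b.h hK (mxD l) p (fit_mx l p hp)
  exact h4.mono le_rfl le_rfl (Nat.le_of_ble_eq_true (List.all_eq_true.1 h1 p hp))

private theorem val_map (H : Hy rg r R b x y) (hK : 1 ≤ b.K) (l : List Pk) :
    l.map (pkv (ctx r b x y).rr b.K b.h (mkW (ctx r b x y).rr b) (mxD l)) =
      l.map fun p => hm (mkW (ctx r b x y).rr b) (mxD l) * vP b.K b.h x y p :=
  List.map_congr_left fun p hp => pkv_val _ _ H.e b.K b.h hK (mxD l) p (fit_mx l p hp)

private theorem qf_mul (c : ℝ) (A : List ℝ) (s : List ℝ) : qf (A.map fun z => c * z) s = c * qf A s := by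
  have h := qf_vSm 0 0 c A s
  rw [← h]
  congr 1
  induction A with
  | nil => rfl
  | cons a A ih => rw [List.map_cons, ih (qf_vSm 0 0 c A s)]; rfl

private theorem pos_of (H : Hy rg r R b x y) (hb : bxOK r b = true)
    (zz : List (List Bool)) (h : bchkOz zz r R b (ctx r b x y).X (ctx r b x y).Y (ctx r b x y).N
      (2 ^ b.hb * reps (ctx r b x y).Y ((r.E + 1) * (r.D + 1))) (mkW (ctx r b x y).om b)
      (mkT (ctx r b x y).om (mkW (ctx r b x y).om b) rg r) = true) : POS r b x y := by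
  have hK : 1 ≤ b.K := by
    have hb' := hb
    simp only [bxOK, Bool.and_eq_true, Nat.ble_eq] at hb'
    exact hb'.1.1.1.1.1.1.1.2
  have hm0 : ∀ d, 0 < hm (mkW (ctx r b x y).rr b) d := hm_pos H.e
  simp only [bchkOz, Bool.and_eq_true] at h
  obtain ⟨⟨⟨⟨h1, h2⟩, h3⟩, h4⟩, _⟩ := h
  have e1 : ∀ p : Pk, tst r (ctx r b x y).X (ctx r b x y).Y (ctx r b x y).N
      (2 ^ b.hb * reps (ctx r b x y).Y ((r.E + 1) * (r.D + 1))) (mkW (ctx r b x y).om b) b.K b.h (2 ^ b.hb) 1
      (t1 (ctx r b x y).Y (2 ^ b.hb)) [p] = true → 0 ≤ vP b.K b.h x y p := by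
    intro p hp
    obtain ⟨k1, k2, k3, k4⟩ := tst_rel H hK 1 _ [p] hp
    rw [List.map_cons, List.map_nil] at k1 k4
    have k5 : R3 (ctx r b x y) (mxD [p]).1 (mxD [p]).2
        (pkv (ctx r b x y).om b.K b.h (mkW (ctx r b x y).om b) (mxD [p]) p)
        (pkv (ctx r b x y).rr b.K b.h (mkW (ctx r b x y).rr b) (mxD [p]) p) (2 ^ b.hb) := by
      cases k1 with
      | cons a _ => exact a
    have k6 := pos_1 H.c k5 le_rfl k2 k3 k4
    have k7 : pkv (ctx r b x y).rr b.K b.h (mkW (ctx r b x y).rr b) (mxD [p]) p =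
        hm (mkW (ctx r b x y).rr b) (mxD [p]) * ev x y (unp b.K b.h p) :=
      pkv_val _ _ H.e b.K b.h hK (mxD [p]) p (fit_mx [p] p List.mem_cons_self)
    rw [k7] at k6
    exact nonneg_of_mul_nonneg_right k6 (hm0 _)
  refine ⟨?_, ?_, ?_, ?_, ?_⟩
  · intro g hg z hz
    have k := List.all_eq_true.1 h1 g hg
    simp only [tGr, Bool.and_eq_true] at k
    exact e1 _ (List.all_eq_true.1 k.1 z hz)
  · intro g hg z hz
    have k := List.all_eq_true.1 h1 g hg
    simp only [tGr, Bool.and_eq_true] at k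
    obtain ⟨k1, k2, k3, k4⟩ := tst_rel H hK 2 _ _ (List.all_eq_true.1 k.2 z hz)
    have k5 := pos_2 H.c k1 rfl le_rfl k2 k3 k4
    rw [val_map H hK] at k5
    intro p q
    have k6 := k5 p q
    refine nonneg_of_mul_nonneg_right (a := hm (mkW (ctx r b x y).rr b) (mxD [z.2.1, z.2.2.1, z.2.2.2])) ?_ (hm0 _)
    refine k6.trans (le_of_eq ?_)
    ring
  · intro z hz
    exact e1 _ (List.all_eq_true.1 h2 z hz)
  · intro z hz
    obtain ⟨k1, k2, k3, k4⟩ := tst_rel H hK 4 _ _ (List.all_eq_true.1 h3 z hz)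
    have hl : z.2.2.length = 10 := by
      have hb' := hb
      simp only [bxOK, Bool.and_eq_true] at hb'
      have k := List.all_eq_true.1 hb'.1.1.1.2 z hz
      simp only [fW4, Bool.and_eq_true] at k
      exact Nat.eq_of_beq_eq_true k.2
    have k5 := pos_4 H.c k1 (by rw [List.length_map, hl]) le_rfl k2 k3 k4
    rw [val_map H hK] at k5
    have hm1 := hm0 (mxD z.2.2)
    revert k5 hm1
    generalize hm (mkW (ctx r b x y).rr b) (mxD z.2.2) = c
    generalize z.2.2 = l at hl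
    match l, hl with
    | [g0, g1, g2, g3, g4, g5, g6, g7, g8, g9], _ =>
      intro k5 hm1 p q u v
      have k6 := k5 p q u v
      refine nonneg_of_mul_nonneg_right (a := c) ?_ hm1
      refine k6.trans (le_of_eq ?_)
      ring
  · intro z hz s hs
    have k := List.all_eq_true.1 h4 z hz
    rw [Bool.and_eq_true] at k
    have hr : z.2.1 ≤ b.hb := Nat.le_of_ble_eq_true k.1
    obtain ⟨k1, k2, k3, k4⟩ := tst_rel H hK (cnt r.ac) _ _ k.2
    have hl : z.2.2.length = cnt r.ac * (cnt r.ac + 1) / 2 := by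
      have hb' := hb
      simp only [bxOK, Bool.and_eq_true] at hb'
      have k := List.all_eq_true.1 hb'.1.2 z hz
      simp only [fGz, Bool.and_eq_true] at k
      exact Nat.eq_of_beq_eq_true k.2
    have k5 := pos_PD H.c k1 (by rw [List.length_map, hl]) le_rfl k2 k3
      (Nat.one_le_two_pow) (by show 2 ^ z.2.1 * 2 ^ (b.hb - z.2.1) = 2 ^ b.hb; rw [← pow_add]; congr 1; omega) k4 s hs
    rw [val_map H hK] at k5
    have k6 : (z.2.2.map fun p => hm (mkW (ctx r b x y).rr b) (mxD z.2.2) * vP b.K b.h x y p) =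
        (z.2.2.map (vP b.K b.h x y)).map fun w => hm (mkW (ctx r b x y).rr b) (mxD z.2.2) * w := by
      rw [List.map_map]
      rfl
    rw [k6, qf_mul] at k5
    exact nonneg_of_mul_nonneg_right k5 (hm0 _)

end

theorem bchkz_sound (zz : List (List Bool)) (rg : Rgn) (r : Rd) (R : List Pk) (hr : rgOK rg r R = true) (b : Bw)
    (h : bchkz zz rg r R b = true) : BoxOK rg (R.map (unp r.K r.h)) (itB b) := by
  have hh : bxOK r b = true ∧ ∀ x y, bchkOz zz r R b (ctx r b x y).X (ctx r b x y).Y (ctx r b x y).N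
      (2 ^ b.hb * reps (ctx r b x y).Y ((r.E + 1) * (r.D + 1))) (mkW (ctx r b x y).om b)
      (mkT (ctx r b x y).om (mkW (ctx r b x y).om b) rg r) = true := by
    rw [bchkz, Bool.and_eq_true] at h
    exact ⟨h.1, fun x y => h.2⟩
  obtain ⟨hb, hO⟩ := hh
  have hb' := hb
  simp only [bxOK, Bool.and_eq_true, Nat.ble_eq] at hb'
  obtain ⟨⟨⟨⟨⟨⟨⟨⟨⟨⟨⟨⟨⟨⟨⟨b1, b2⟩, b3⟩, b4⟩, b5⟩, b6⟩, b7⟩, b8⟩, b9⟩, b10⟩, b11⟩, b12⟩, b13⟩, b14⟩, b15⟩, b16⟩ := hb'
  have hr' := hr
  simp only [rgOK, Bool.and_eq_true, Nat.ble_eq] at hr'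
  obtain ⟨⟨⟨⟨_, r1⟩, r2⟩, r3⟩, r4⟩ := hr'
  have r1' : r.ac.length = 11 := Nat.eq_of_beq_eq_true r1
  have r3' : R.length = 66 := Nat.eq_of_beq_eq_true r3
  have hy : ∀ x y, inH b x y → Hy rg r R b x y := by
    intro x y hxy
    obtain ⟨k1, k2, k3⟩ := mkW_VE r b b1 b2 x y hxy
    exact ⟨ctx_ok r b x y k2 k3, mkW_rel _ r b b5 b6 b7 b8, k1⟩
  have hpos : ∀ x y, inH b x y → POS r b x y := fun x y hxy => pos_of (hy x y hxy) hb zz (hO x y)
  have hrest : ∀ s : List ℝ, s.length = 11 → ∀ x y, inH b x y →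
      0 ≤ qf (evE x y (R.map (unp r.K r.h))) s - itR rg r b x y s := by
    intro s hs x y hxy
    have H := hy x y hxy
    have hT := mkT_rel H.v rg R hr
    have hE := mkT_val (ctx r b x y).τ (ctx r b x y).σ H.e rg r R hr
    have h1 := MW_rel H.v hT R r4 r2 b hb
    have h2 := gzW_rel H.v hT b hb
    have h3 := hO x y
    simp only [bchkOz, Bool.and_eq_true] at h3
    obtain ⟨_, h4, h5⟩ := h3
    have h6 : MB0 r b ≤ 2 ^ b.hb := le_trans (Nat.le_add_right _ _) b16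
    have h0 : ∀ z ∈ nelQ r.ac (MW (ctx r b x y).rr r R b (mkW (ctx r b x y).rr b)
        (mkT (ctx r b x y).rr (mkW (ctx r b x y).rr b) rg r)), z = 0 := by
      have h7 := h1.nelQ r.ac
      intro z hz
      obtain ⟨a, ha, h8⟩ := C3_mem h7 z hz
      have h9 := List.all_eq_true.1 h4 a ha
      exact R3.dig0 h8 h6 le_rfl le_rfl H.c.Y H.c.X H.c.N (Nat.eq_of_beq_eq_true h9)
    have hlen := MW_len (ctx r b x y).τ (ctx r b x y).σ hE R r3' b hb
    have h10 := qf_sel r.ac _ s (by rw [r1']; exact hlen) (by rw [r1', hs]) h0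
    have h11 := (h1.selQ r.ac).vSub h2
    have h12 := pos_PO (k := cnt r.ac) zz H.c h11 (by
        rw [h11.len]
        rw [len_vSub _ (by
          rw [selQ_len r.ac _ (by rw [r1']; exact hlen)]
          exact (gzW_len (ctx r b x y).τ (ctx r b x y).σ hE b hb).symm)]
        exact selQ_len r.ac _ (by rw [r1']; exact hlen)) b16 le_rfl le_rfl
      (Nat.one_le_two_pow) (by show 2 ^ b.rb * 2 ^ (b.hb - b.rb) = 2 ^ b.hb; rw [← pow_add]; congr 1; omega) h5
      (selL r.ac s) (selL_len r.ac s (by rw [r1', hs]))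
    have h13 := qf_vSub (ctx r b x y).τ (ctx r b x y).σ (A := selQ r.ac (MW (ctx r b x y).rr r R b (mkW (ctx r b x y).rr b)
        (mkT (ctx r b x y).rr (mkW (ctx r b x y).rr b) rg r)))
      (B := gzW (ctx r b x y).rr b.K b.h (mkW (ctx r b x y).rr b) r
        (mkT (ctx r b x y).rr (mkW (ctx r b x y).rr b) rg r) (cnt r.ac * (cnt r.ac + 1) / 2) b.gz) (by
          rw [selQ_len r.ac _ (by rw [r1']; exact hlen)]
          exact (gzW_len (ctx r b x y).τ (ctx r b x y).σ hE b hb).symm) (selL r.ac s)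
    have h14 := MW_val (ctx r b x y).τ (ctx r b x y).σ H.e hE R r4 r2 r3' b hb s hs
    have h15 := gzW_val (ctx r b x y).τ (ctx r b x y).σ H.e hE b hb s
    have h16 : 0 ≤ hm (mkW (ctx r b x y).rr b) (r.E, r.D) *
        (qf (evE x y (R.map (unp r.K r.h))) s - itR rg r b x y s) := by
      refine h12.trans (le_of_eq ?_)
      refine h13.trans ?_
      rw [← h10]
      refine (congrArg₂ (· - ·) h14 h15).trans ?_
      rw [itR]
      ring
    exact nonneg_of_mul_nonneg_right h16 (hm_pos H.e _)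
  intro x y hxy s hs hR
  have k1 : 0 ≤ qf (evE x y (R.map (unp r.K r.h))) s - itR rg r b x y s :=
    clos b b1 b2 b3 b4 (fun x y => qf (evE x y (R.map (unp r.K r.h))) s - itR rg r b x y s)
      ((cont_qf _ s).sub (cont_itR rg r b s)) (hrest s hs) x y hxy
  have k2 := itR_nn rg r b x y s hs r1' hR (POS_clos r b b1 b2 b3 b4 hpos x y hxy)
  linarith

end Pool.Agent.MCA
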