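import Pool.Agent.MCA.Edg
import Pool.Agent.MTR.QML
import Pool.Agent.MTR.PRD
import Pool.Agent.MSQ.ChkS
import Pool.Agent.MSQ.EvD
import Pool.Agent.MGF.Defs3
import Pool.Agent.MGF.FF
/-!
MCA: real part, definitions.
Chart of a quadrant: `X = x/√2`, `Y = w y/√3`, `w² = m = 1 + x²/2`, `N² = 1 + y²/3`; core `0 ≤ x, y ≤ 1`,
sliver `0 ≤ x ≤ 1 ≤ y`, `y² m ≤ 3/2`.
-/
set_option autoImplicit false

open MeasureTheory Set Pool.Agent.MSQ Pool.Agent.MTR Pool.Agent.MGF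

namespace Pool.Agent.MCA

noncomputable section

/-- value of a linear form -/
def lv (x y : ℝ) (l : LF) (s : List ℝ) : ℝ := dotL (evE x y l) s

/-- validity of the facts of a region at a point -/
structure ROK (rg : Rgn) (x y : ℝ) (s : List ℝ) : Prop where
  f : ∀ l ∈ rg.fs, 0 ≤ lv x y l s
  m11 : ∀ M ∈ rg.ms, 0 ≤ lv x y M.m11 s
  m22 : ∀ M ∈ rg.ms, 0 ≤ lv x y M.m22 s
  m12 : ∀ M ∈ rg.ms, lv x y M.m12 s ^ 2 ≤ lv x y M.m11 s * lv x y M.m22 s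
  z : ∀ l ∈ rg.zs, lv x y l s = 0
  g : ∀ p ∈ rg.gs, 0 ≤ ev x y p

/-- the point is in the box -/
def inI (b : Itm) (x y : ℝ) : Prop :=
  0 < b.qx ∧ 0 < b.qy ∧ (b.x0 : ℝ) ≤ b.qx * x ∧ (b.qx : ℝ) * x ≤ b.x1 ∧ (b.y0 : ℝ) ≤ b.qy * y ∧
    (b.qy : ℝ) * y ≤ b.y1

/-! ### fields -/

/-- fields on a quadrant: states of `A = H* - H` and loads -/
structure Fd where
  S : ℝ → ℝ → St
  a : ℝ → ℝ
  b : ℝ → ℝ
  c : ℝ → ℝ → ℝ
  d : ℝ → ℝ → ℝ

/-- the state vector -/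
def sv (DL : Int) (F : Fd) (x y : ℝ) : List ℝ :=
  [1 / (DL * Nf y ^ 3), (F.S x y).u, (F.S x y).q, (F.S x y).p, F.a x, F.b x, F.c x y, F.d x y,
    (F.S x y).mu, (F.S x y).nu, (F.S x y).ka]

/-- regularity of the fields; `cy = ∂_y c`, `dy = ∂_y d`; `c, d` are functions of `Y` divided by `w` -/
structure FOK (F : Fd) (Z E cy dy : ℝ → ℝ → ℝ) : Prop where
  js : JS F.S Z E
  ca : Continuous F.a
  cb : Continuous F.b
  cc : Continuous fun z : ℝ × ℝ => F.c z.1 z.2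
  cd : Continuous fun z : ℝ × ℝ => F.d z.1 z.2
  ccy : Continuous fun z : ℝ × ℝ => cy z.1 z.2
  cdy : Continuous fun z : ℝ × ℝ => dy z.1 z.2
  hcy : ∀ x y, HasDerivAt (fun t => F.c x t) (cy x y) y
  hdy : ∀ x y, HasDerivAt (fun t => F.d x t) (dy x y) y
  hcx : ∀ x y, HasDerivAt (fun t => F.c t y) ((x * y / 2 * cy x y - x / 2 * F.c x y) / mf x) x
  hdx : ∀ x y, HasDerivAt (fun t => F.d t y) ((x * y / 2 * dy x y - x / 2 * F.d x y) / mf x) x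

/-! ### gauges -/

/-- sum of the terms `f s_m s_n` -/
def tv (x y : ℝ) (s : List ℝ) (L : List Trm) : ℝ :=
  (L.map fun t => ev x y t.2.2 * (s.getD t.1 0 * s.getD t.2.1 0)).sum

/-- linear parts of the gauge -/
def Vyl (g : Ga) (x y : ℝ) (s : List ℝ) : ℝ :=
  ev x y g.f0 * s.getD 1 0 + ev x y g.f1 * s.getD 2 0 + ev x y g.f2 * s.getD 3 0 +
    ev x y g.fa * s.getD 4 0 + ev x y g.fb * s.getD 5 0 -
    x * y / 2 * (ev x y g.fc * s.getD 6 0 + ev x y g.fd * s.getD 7 0)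
def Vxl (g : Ga) (x y : ℝ) (s : List ℝ) : ℝ :=
  -ev x y (pDY g.f2) * s.getD 1 0 + ev x y g.h2 * s.getD 3 0 - mf x * ev x y (pDX g.h2) * s.getD 1 0 +
    ev x y g.fc * s.getD 6 0 + ev x y g.fd * s.getD 7 0
/-- K gauge -/
def VyK (K : P) (x y : ℝ) (s : List ℝ) : ℝ :=
  ev x y K * s.getD 2 0 * (s.getD 10 0 - s.getD 1 0 + y * s.getD 2 0) / Nf y
def VxK (K : P) (x y : ℝ) (s : List ℝ) : ℝ := -2 * ev x y K * s.getD 2 0 * s.getD 9 0 / Nf y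

/-- the components of the gauge field (multiplied by `D`) -/
def Vy (g : Ga) (x y : ℝ) (s : List ℝ) : ℝ :=
  tv x y s g.G / Nf y - x * y / 2 * (tv x y s g.Z / Nf y) + VyK g.K x y s + Vyl g x y s
def Vx (g : Ga) (x y : ℝ) (s : List ℝ) : ℝ :=
  tv x y s g.H / Nf y ^ 3 + tv x y s g.Z / Nf y + VxK g.K x y s + Vxl g x y s

/-- `V1 = V_y`, `V2 = V_x` have continuous derivatives `A = ∂_y V1`, `B = ∂_x V2` and
`-108 N³ (A + m B) = r` -/
def DivP (V1 V2 r : ℝ → ℝ → ℝ) : Prop :=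
  ∃ A B : ℝ → ℝ → ℝ, (Continuous fun z : ℝ × ℝ => A z.1 z.2) ∧ (Continuous fun z : ℝ × ℝ => B z.1 z.2) ∧
    (∀ x y, HasDerivAt (fun t => V1 x t) (A x y) y) ∧ (∀ x y, HasDerivAt (fun t => V2 t y) (B x y) x) ∧
    ∀ x y, -108 * Nf y ^ 3 * (A x y + mf x * B x y) = r x y

/-! ### the fields of a jet -/

/-- loads behind the sides `Y = c`, `Y = -c`, `X = c`, `X = -c` -/
def etp (J : Jet) (X : ℝ) : ℝ := cc - (lf (X, cc) - J.f (X, cc))
def etm (J : Jet) (X : ℝ) : ℝ := cc - (lf (X, -cc) - J.f (X, -cc))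
def zep (J : Jet) (Y : ℝ) : ℝ := cc - J.f (cc, Y)
def zem (J : Jet) (Y : ℝ) : ℝ := cc - J.f (-cc, Y)

/-- core and sliver fields of a jet -/
def FdC (J : Jet) : Fd where
  S := AC J
  a := fun x => etp J (cc * x) / wf x
  b := fun x => etm J (cc * x) / wf x
  c := fun x y => zep J (wf x * y / √3) / wf x
  d := fun x y => zem J (wf x * y / √3) / wf x
def FdS (J : Jet) : Fd where
  S := AS J
  a := fun x => etp J (cc * x) / wf x
  b := fun x => etm J (cc * x) / wf x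
  c := fun x y => zep J (wf x * y / √3) / wf x
  d := fun x y => zem J (wf x * y / √3) / wf x

/-- the curve `Y = c` -/
def yt (x : ℝ) : ℝ := √(3 / (2 + x ^ 2))

/-- contribution of a quadrant to `√3/c · JM` -/
def IC (J : Jet) : ℝ := ∫ x in (0 : ℝ)..1, ∫ y in (0 : ℝ)..1, bC y (AC J x y) / mf x
def ISl (J : Jet) : ℝ := ∫ x in (0 : ℝ)..1, ∫ y in (1 : ℝ)..yt x, bS y (AS J x y) / mf x

/-- side functional with coefficient lists `F` over the denominator `DF` -/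
def FL (DF : Int) (F : List (List Int)) : ℝ → ℝ → ℝ → ℝ → ℝ :=
  FF DF (F.getD 0 []) (F.getD 1 []) (F.getD 2 []) (F.getD 3 []) (F.getD 4 []) (F.getD 5 []) (F.getD 6 [])

/-- densities of the side functionals on half a side -/
def dXp (F : ℝ → ℝ → ℝ → ℝ → ℝ) (J : Jet) (t : ℝ) : ℝ :=
  F t (√2 * (cc - J.f (cc, cc * t)) / 2 + (1 - t) / 2 * (-J.fY (cc, cc * t)))
    (√2 * (cc - J.f (cc, cc * t)) / 2 - (1 + t) / 2 * (-J.fY (cc, cc * t)))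
    (1 / 2 - J.fX (cc, cc * t))
def dYp (F : ℝ → ℝ → ℝ → ℝ → ℝ) (J : Jet) (t : ℝ) : ℝ :=
  F t (√2 * (cc - (lf (cc * t, cc) - J.f (cc * t, cc))) / 2 +
      (1 - t) / 2 * (-(lJ.fX (cc * t, cc) - J.fX (cc * t, cc))))
    (√2 * (cc - (lf (cc * t, cc) - J.f (cc * t, cc))) / 2 -
      (1 + t) / 2 * (-(lJ.fX (cc * t, cc) - J.fX (cc * t, cc))))
    (1 / 2 - (lJ.fY (cc * t, cc) - J.fY (cc * t, cc)))

end

end Pool.Agent.MCA
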