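import Pool.Agent.MCA.Sem
import Pool.Agent.MSQ.KH
/-!
VCO, second part: signs and Hessians of the state, loads.
-/
set_option autoImplicit false

open MeasureTheory Set Pool.Agent.MSQ Pool.Agent.MTR Pool.Agent.MGF

namespace Pool.Agent.MCA

private theorem VC2_cc2 : cc ^ 2 = 1 / 2 := by
  unfold cc
  rw [div_pow, Real.sq_sqrt (by norm_num), one_pow]

private theorem VC2_s2 : (√3 : ℝ) ^ 2 = 3 := Real.sq_sqrt (by norm_num)

private theorem VC2_s0 : (0 : ℝ) < √3 := Real.sqrt_pos.mpr (by norm_num)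

private theorem VC2_m0 (x : ℝ) : 0 < mf x := by unfold mf; positivity

private theorem VC2_w0 (x : ℝ) : 0 < wf x := Real.sqrt_pos.mpr (VC2_m0 x)

private theorem VC2_w2 (x : ℝ) : wf x ^ 2 = 1 + x ^ 2 / 2 := by
  unfold wf
  rw [Real.sq_sqrt (VC2_m0 x).le, mf]

private theorem VC2_N0 (y : ℝ) : 0 < Nf y := Real.sqrt_pos.mpr (by positivity)

private theorem VC2_N2 (y : ℝ) : Nf y ^ 2 = 1 + y ^ 2 / 3 := by
  unfold Nf
  rw [Real.sq_sqrt (by positivity)]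

private theorem VC2_abs {w c s x y a b d : ℝ} (hw : 0 < w) (hs : 0 < s) (hc : c ^ 2 = 1 / 2)
    (hs2 : s ^ 2 = 3) (ha : 0 ≤ a) (hd : 0 ≤ d) (hdet : b ^ 2 ≤ a * d) :
    0 ≤ w * d / 3 ∧
    0 ≤ w ^ 3 * a + 2 * w ^ 2 * (c * x * y / s) * b + w / 3 * (c * x * y) ^ 2 * d ∧
    2 * (c * (w ^ 2 * b / s + c * w * x * y * d / 3)) ^ 2 ≤ (w * d / 3) *
      (w ^ 3 * a + 2 * w ^ 2 * (c * x * y / s) * b + w / 3 * (c * x * y) ^ 2 * d) := by
  refine ⟨by positivity, ?_, ?_⟩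
  · set t := c * x * y / s with ht
    have e : (c * x * y) ^ 2 = 3 * t ^ 2 := by
      rw [ht, div_pow, hs2]; ring
    have e2 : w ^ 3 * a + 2 * w ^ 2 * t * b + w / 3 * (c * x * y) ^ 2 * d =
        w * (w ^ 2 * a + 2 * w * t * b + t ^ 2 * d) := by rw [e]; ring
    rw [e2]
    refine mul_nonneg hw.le ?_
    have h1 : 0 ≤ (w * √a - |t| * √d) ^ 2 := sq_nonneg _
    have h2 : |b| ≤ √a * √d := by
      rw [← Real.sqrt_mul ha]
      exact Real.abs_le_sqrt hdet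
    have h3 : √a ^ 2 = a := Real.sq_sqrt ha
    have h4 : √d ^ 2 = d := Real.sq_sqrt hd
    have h5 : |w * t * b| ≤ w * |t| * (√a * √d) := by
      rw [abs_mul, abs_mul, abs_of_pos hw]
      exact mul_le_mul_of_nonneg_left h2 (by positivity)
    have h6 := neg_abs_le (w * t * b)
    have h7 : |t| ^ 2 = t ^ 2 := sq_abs t
    nlinarith
  · have e : (c * (w ^ 2 * b / s + c * w * x * y * d / 3)) ^ 2 =
        c ^ 2 * (w ^ 4 * b ^ 2 / s ^ 2 + 2 * w ^ 3 * b * c * x * y * d / (3 * s) +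
          c ^ 2 * w ^ 2 * x ^ 2 * y ^ 2 * d ^ 2 / 9) := by
      field_simp
      ring
    have e2 : (w * d / 3) * (w ^ 3 * a + 2 * w ^ 2 * (c * x * y / s) * b +
        w / 3 * (c * x * y) ^ 2 * d) = w ^ 4 * (a * d) / 3 +
          2 * w ^ 3 * b * c * x * y * d / (3 * s) + c ^ 2 * w ^ 2 * x ^ 2 * y ^ 2 * d ^ 2 / 9 := by
      field_simp
      ring
    rw [e, e2, hc, hs2]
    have h1 : w ^ 4 * b ^ 2 ≤ w ^ 4 * (a * d) := mul_le_mul_of_nonneg_left hdet (by positivity)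
    linarith

theorem kh_sq {J : Jet} {δ : ℝ} (h : SqHyp J δ) (x y : ℝ) :
    0 ≤ (ch J x y).mu ∧ 0 ≤ (ch J x y).ka ∧ 2 * (ch J x y).nu ^ 2 ≤ (ch J x y).mu * (ch J x y).ka ∧
    (ch J x y).mu ≤ 1 / (3 * Nf y ^ 3) ∧ (ch J x y).ka ≤ 1 / Nf y ∧
    2 * (ch J x y).nu ^ 2 ≤ (1 / (3 * Nf y ^ 3) - (ch J x y).mu) * (1 / Nf y - (ch J x y).ka) := by
  set z : ℝ × ℝ := (cc * x, wf x * y / √3) with hz
  have hw := VC2_w0 x
  have hs := VC2_s0
  have hc := VC2_cc2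
  have hs2 := VC2_s2
  have hw2 := VC2_w2 x
  have hN := VC2_N0 y
  have hN2 := VC2_N2 y
  have hl : lf z = wf x * Nf y := lf_chart x y
  have H1 := VC2_abs (x := x) (y := y) hw hs hc hs2 (h.hXX z) (h.hYY z) (h.hdet z)
  have H2 := VC2_abs (x := x) (y := y) hw hs hc hs2 (a := lJ.fXX z - J.fXX z)
    (b := lJ.fXY z - J.fXY z) (d := lJ.fYY z - J.fYY z) (sub_nonneg.mpr (h.lXX z))
    (sub_nonneg.mpr (h.lYY z)) (h.ldet z)
  have eYY : lJ.fYY z = 1 / (wf x * Nf y ^ 3) := by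
    simp only [lJ, hl]
    rw [hz]
    simp only
    rw [mul_pow, hc, div_eq_div_iff (by positivity) (by positivity)]
    have : (1 + 1 / 2 * x ^ 2) = wf x ^ 2 := by rw [hw2]; ring
    rw [this]; ring
  have eXY : lJ.fXY z = -(cc * x * y) / (√3 * wf x ^ 2 * Nf y ^ 3) := by
    simp only [lJ, hl]
    rw [hz]
    simp only
    field_simp
  have eXX : lJ.fXX z = (1 + wf x ^ 2 * y ^ 2 / 3) / (wf x ^ 3 * Nf y ^ 3) := by
    simp only [lJ, hl]
    rw [hz]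
    simp only
    rw [div_pow, hs2]
    ring
  have m1 : wf x * lJ.fYY z / 3 = 1 / (3 * Nf y ^ 3) := by
    rw [eYY]; field_simp
  have m2 : cc * (wf x ^ 2 * lJ.fXY z / √3 + cc * wf x * x * y * lJ.fYY z / 3) = 0 := by
    rw [eYY, eXY]
    have : wf x ^ 2 * (-(cc * x * y) / (√3 * wf x ^ 2 * Nf y ^ 3)) / √3 =
        -(cc * x * y) / (√3 ^ 2 * Nf y ^ 3) := by field_simp
    rw [this, hs2]
    field_simp
    ring
  have m3 : wf x ^ 3 * lJ.fXX z + 2 * wf x ^ 2 * (cc * x * y / √3) * lJ.fXY z +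
      wf x / 3 * (cc * x * y) ^ 2 * lJ.fYY z = 1 / Nf y := by
    rw [eYY, eXY, eXX]
    have e1 : 2 * wf x ^ 2 * (cc * x * y / √3) * (-(cc * x * y) / (√3 * wf x ^ 2 * Nf y ^ 3)) =
        -(2 * (cc ^ 2 * x ^ 2 * y ^ 2)) / (√3 ^ 2 * Nf y ^ 3) := by field_simp
    have e2 : wf x / 3 * (cc * x * y) ^ 2 * (1 / (wf x * Nf y ^ 3)) =
        cc ^ 2 * x ^ 2 * y ^ 2 / (3 * Nf y ^ 3) := by field_simp
    have e3 : wf x ^ 3 * ((1 + wf x ^ 2 * y ^ 2 / 3) / (wf x ^ 3 * Nf y ^ 3)) =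
        (1 + wf x ^ 2 * y ^ 2 / 3) / Nf y ^ 3 := by field_simp
    rw [e1, e2, e3, hs2, hc, hw2]
    have e4 : 1 / Nf y = Nf y ^ 2 / Nf y ^ 3 := by field_simp
    rw [e4, hN2]
    field_simp
    ring
  have c1 : (ch J x y).mu = wf x * J.fYY z / 3 := rfl
  have c2 : (ch J x y).nu = cc * (wf x ^ 2 * J.fXY z / √3 + cc * wf x * x * y * J.fYY z / 3) := rfl
  have c3 : (ch J x y).ka = wf x ^ 3 * J.fXX z + 2 * wf x ^ 2 * (cc * x * y / √3) * J.fXY z +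
      wf x / 3 * (cc * x * y) ^ 2 * J.fYY z := rfl
  obtain ⟨a1, a2, a3⟩ := H1
  obtain ⟨b1, b2, b3⟩ := H2
  have n1 : wf x * (lJ.fYY z - J.fYY z) / 3 = 1 / (3 * Nf y ^ 3) - (ch J x y).mu := by
    rw [c1, ← m1]; ring
  have n2 : cc * (wf x ^ 2 * (lJ.fXY z - J.fXY z) / √3 +
      cc * wf x * x * y * (lJ.fYY z - J.fYY z) / 3) = -(ch J x y).nu := by
    have : cc * (wf x ^ 2 * (lJ.fXY z - J.fXY z) / √3 +
      cc * wf x * x * y * (lJ.fYY z - J.fYY z) / 3) =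
      cc * (wf x ^ 2 * lJ.fXY z / √3 + cc * wf x * x * y * lJ.fYY z / 3) -
      cc * (wf x ^ 2 * J.fXY z / √3 + cc * wf x * x * y * J.fYY z / 3) := by ring
    rw [this, m2, ← c2, zero_sub]
  have n3 : wf x ^ 3 * (lJ.fXX z - J.fXX z) + 2 * wf x ^ 2 * (cc * x * y / √3) *
      (lJ.fXY z - J.fXY z) + wf x / 3 * (cc * x * y) ^ 2 * (lJ.fYY z - J.fYY z) =
      1 / Nf y - (ch J x y).ka := by
    rw [c3, ← m3]; ring
  rw [n1] at b1
  rw [n3] at b2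
  rw [n1, n2, n3, neg_sq] at b3
  rw [← c1] at a1
  rw [← c3] at a2
  rw [← c1, ← c2, ← c3] at a3
  exact ⟨a1, a2, a3, by linarith, by linarith, b3⟩

variable {J : Jet} {b : ℝ}

theorem V_mu (h : SqHyp J b) (x y : ℝ) : (AC J x y).mu ≤ 0 := by
  obtain ⟨h1, -⟩ := kh_sq h x y
  have e : (AC J x y).mu = 0 - (ch J x y).mu := rfl
  rw [e]; linarith

/-- Hessian of `J` -/
theorem V_MH (h : SqHyp J b) (x y : ℝ) : 0 ≤ s3 - (AC J x y).ka ∧
    (-2 * (AC J x y).nu) ^ 2 ≤ -2 * (AC J x y).mu * (s3 - (AC J x y).ka) := by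
  obtain ⟨h1, h2, h3, -⟩ := kh_sq h x y
  have e1 : (AC J x y).mu = 0 - (ch J x y).mu := rfl
  have e2 : (AC J x y).nu = 0 - (ch J x y).nu := rfl
  have e3 : (AC J x y).ka = s3 - (ch J x y).ka := rfl
  rw [e1, e2, e3]
  constructor
  · linarith
  · nlinarith

/-- Hessian of `l - J` -/
theorem V_ML (h : SqHyp J b) (x y : ℝ) : 0 ≤ 2 * (AC J x y).mu + 2 / (3 * Nf y ^ 3) ∧
    0 ≤ (AC J x y).ka + (1 / Nf y - s3) ∧
    (2 * (AC J x y).nu) ^ 2 ≤ (2 * (AC J x y).mu + 2 / (3 * Nf y ^ 3)) * ((AC J x y).ka + (1 / Nf y - s3)) := by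
  obtain ⟨-, -, -, h4, h5, h6⟩ := kh_sq h x y
  have e1 : (AC J x y).mu = 0 - (ch J x y).mu := rfl
  have e2 : (AC J x y).nu = 0 - (ch J x y).nu := rfl
  have e3 : (AC J x y).ka = s3 - (ch J x y).ka := rfl
  have e4 : 2 / (3 * Nf y ^ 3) = 2 * (1 / (3 * Nf y ^ 3)) := by ring
  rw [e1, e2, e3, e4]
  refine ⟨by linarith, by linarith, ?_⟩
  have e5 : (2 * (0 - (ch J x y).nu)) ^ 2 = 2 * (2 * (ch J x y).nu ^ 2) := by ring
  have e6 : (2 * (0 - (ch J x y).mu) + 2 * (1 / (3 * Nf y ^ 3))) * (s3 - (ch J x y).ka + (1 / Nf y - s3)) =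
    2 * ((1 / (3 * Nf y ^ 3) - (ch J x y).mu) * (1 / Nf y - (ch J x y).ka)) := by ring
  rw [e5, e6]
  linarith

/-! loads -/

private theorem VC2_cc0 : 0 < cc := by unfold cc; positivity

theorem V_l0 (h : SqHyp J b) (x y : ℝ) (hx : 0 ≤ x) (hx1 : x ≤ 1) (hy : 0 ≤ y) (hc : wf x * y / √3 ≤ cc) :
    0 ≤ (FdC J).a x ∧ 0 ≤ (FdC J).b x ∧ 0 ≤ (FdC J).c x y ∧ 0 ≤ (FdC J).d x y := by
  have h0 := VC2_cc0
  have hw := VC2_w0 x
  have hX : |cc * x| ≤ cc := by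
    rw [abs_of_nonneg (by positivity)]
    nlinarith
  have hY : |wf x * y / √3| ≤ cc := by
    rw [abs_of_nonneg (by positivity)]
    exact hc
  have hcc : |cc| = cc := abs_of_pos h0
  have hcn : |(-cc)| = cc := by rw [abs_neg, hcc]
  have a1 := h.armY (cc * x) cc hX (le_of_eq hcc.symm)
  have a2 := h.armY (cc * x) (-cc) hX (le_of_eq hcn.symm)
  have a3 := h.armX cc (wf x * y / √3) (le_of_eq hcc.symm) hY
  have a4 := h.armX (-cc) (wf x * y / √3) (le_of_eq hcn.symm) hY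
  rw [hcc] at a1 a3
  rw [hcn] at a2 a4
  refine ⟨div_nonneg ?_ hw.le, div_nonneg ?_ hw.le, div_nonneg ?_ hw.le, div_nonneg ?_ hw.le⟩
  · unfold etp; linarith
  · unfold etm; linarith
  · unfold zep; linarith
  · unfold zem; linarith

theorem V_la (b' : ℝ) (x : ℝ) (hx : 0 ≤ x) (h : etp J (cc * x) ≤ b' * (cc + |cc * x|)) :
    (FdC J).a x ≤ b' * cc * (1 + x) / wf x := by
  have h0 := VC2_cc0
  have hw := VC2_w0 x
  rw [abs_of_nonneg (by positivity)] at h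
  have e : (FdC J).a x = etp J (cc * x) / wf x := rfl
  rw [e]
  refine div_le_div_of_nonneg_right ?_ hw.le
  linarith

theorem V_lb (b' : ℝ) (x : ℝ) (hx : 0 ≤ x) (h : etm J (cc * x) ≤ b' * (cc + |cc * x|)) :
    (FdC J).b x ≤ b' * cc * (1 + x) / wf x := by
  have h0 := VC2_cc0
  have hw := VC2_w0 x
  rw [abs_of_nonneg (by positivity)] at h
  have e : (FdC J).b x = etm J (cc * x) / wf x := rfl
  rw [e]
  refine div_le_div_of_nonneg_right ?_ hw.le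
  linarith

theorem V_lc (b' : ℝ) (x y : ℝ) (hy : 0 ≤ y) (h : zep J (wf x * y / √3) ≤ b' * (cc + |wf x * y / √3|)) :
    (FdC J).c x y ≤ b' * (cc / wf x + y / √3) := by
  have hw := VC2_w0 x
  rw [abs_of_nonneg (by positivity)] at h
  have e : (FdC J).c x y = zep J (wf x * y / √3) / wf x := rfl
  have e2 : b' * (cc / wf x + y / √3) = b' * (cc + wf x * y / √3) / wf x := by
    field_simp
  rw [e, e2]
  exact div_le_div_of_nonneg_right h hw.le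

theorem V_ld (b' : ℝ) (x y : ℝ) (hy : 0 ≤ y) (h : zem J (wf x * y / √3) ≤ b' * (cc + |wf x * y / √3|)) :
    (FdC J).d x y ≤ b' * (cc / wf x + y / √3) := by
  have hw := VC2_w0 x
  rw [abs_of_nonneg (by positivity)] at h
  have e : (FdC J).d x y = zem J (wf x * y / √3) / wf x := rfl
  have e2 : b' * (cc / wf x + y / √3) = b' * (cc + wf x * y / √3) / wf x := by
    field_simp
  rw [e, e2]
  exact div_le_div_of_nonneg_right h hw.le

end Pool.Agent.MCA
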