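import Pool.Agent.MCA.VCO2
import Pool.Agent.MSQ.CvXY
/-!
VCO, third part: the form `br`.
-/
set_option autoImplicit false

open MeasureTheory Set Pool.Agent.MSQ Pool.Agent.MTR Pool.Agent.MGF

namespace Pool.Agent.MCA

private theorem VC3_one {f g k : ℝ → ℝ} (h1 : ∀ x, HasDerivAt f (g x) x)
    (h2 : ∀ x, HasDerivAt g (k x) x) (h3 : ∀ x, 0 ≤ k x) :
    (∀ x y, f x + g x * (y - x) ≤ f y) ∧ (Monotone g) ∧ (ConvexOn ℝ Set.univ f) := by
  have hm : Monotone g := monotone_of_deriv_nonneg (fun x => (h2 x).differentiableAt)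
    (fun x => by rw [(h2 x).deriv]; exact h3 x)
  have hd : deriv f = g := funext fun x => (h1 x).deriv
  have hc : ConvexOn ℝ Set.univ f :=
    Monotone.convexOn_univ_of_deriv (fun x => (h1 x).differentiableAt) (by rw [hd]; exact hm)
  refine ⟨fun x y => ?_, hm, hc⟩
  rcases lt_trichotomy x y with h | h | h
  · have h4 := hc.le_slope_of_hasDerivAt (Set.mem_univ x) (Set.mem_univ y) h (h1 x)
    rw [slope_def_field, le_div_iff₀ (by linarith)] at h4
    linarith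
  · rw [h]
    linarith
  · have h4 := hc.slope_le_of_hasDerivAt (Set.mem_univ y) (Set.mem_univ x) h (h1 x)
    rw [slope_def_field, div_le_iff₀ (by linarith)] at h4
    linarith

private theorem VC3_x {G GX GY : ℝ × ℝ → ℝ} (h : D1 G GX GY) (Y x : ℝ) :
    HasDerivAt (fun t => G (t, Y)) (GX (x, Y)) x := by
  have h1 : HasDerivAt (fun t : ℝ => (t, Y)) ((1 : ℝ), (0 : ℝ)) x :=
    (hasDerivAt_id' x).prodMk (hasDerivAt_const x Y)
  have h2 := (h (x, Y)).comp_hasDerivAt x h1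
  refine h2.congr_deriv ?_
  simp

private theorem VC3_y {G GX GY : ℝ × ℝ → ℝ} (h : D1 G GX GY) (X y : ℝ) :
    HasDerivAt (fun t => G (X, t)) (GY (X, y)) y := by
  have h1 : HasDerivAt (fun t : ℝ => (X, t)) ((0 : ℝ), (1 : ℝ)) y :=
    (hasDerivAt_const y X).prodMk (hasDerivAt_id' y)
  have h2 := (h (X, y)).comp_hasDerivAt y h1
  refine h2.congr_deriv ?_
  simp

theorem cvX_sq {J : Jet} {δ : ℝ} (h : SqHyp J δ) (Y : ℝ) :
    (∀ X X' : ℝ, J.f (X, Y) + J.fX (X, Y) * (X' - X) ≤ J.f (X', Y)) ∧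
    (Monotone fun X : ℝ => J.fX (X, Y)) ∧
    (∀ X X' : ℝ, lf (X, Y) - J.f (X, Y) + (lJ.fX (X, Y) - J.fX (X, Y)) * (X' - X) ≤
      lf (X', Y) - J.f (X', Y)) ∧
    (Monotone fun X : ℝ => lJ.fX (X, Y) - J.fX (X, Y)) ∧
    (ConvexOn ℝ Set.univ fun X : ℝ => J.f (X, Y)) ∧
    (ConvexOn ℝ Set.univ fun X : ℝ => lf (X, Y) - J.f (X, Y)) := by
  obtain ⟨h1, h2, h3⟩ := VC3_one (VC3_x h.good.d Y) (VC3_x h.good.dX Y)
    (fun x => h.hXX (x, Y))
  obtain ⟨k1, k2, k3⟩ := VC3_one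
    (fun x => (VC3_x good_lJ.d Y x).fun_sub (VC3_x h.good.d Y x))
    (fun x => (VC3_x good_lJ.dX Y x).fun_sub (VC3_x h.good.dX Y x))
    (fun x => sub_nonneg.2 (h.lXX (x, Y)))
  exact ⟨h1, h2, k1, k2, h3, k3⟩
theorem cvY_sq {J : Jet} {δ : ℝ} (h : SqHyp J δ) (X : ℝ) :
    (∀ Y Y' : ℝ, J.f (X, Y) + J.fY (X, Y) * (Y' - Y) ≤ J.f (X, Y')) ∧
    (Monotone fun Y : ℝ => J.fY (X, Y)) ∧
    (∀ Y Y' : ℝ, lf (X, Y) - J.f (X, Y) + (lJ.fY (X, Y) - J.fY (X, Y)) * (Y' - Y) ≤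
      lf (X, Y') - J.f (X, Y')) ∧
    (Monotone fun Y : ℝ => lJ.fY (X, Y) - J.fY (X, Y)) ∧
    (ConvexOn ℝ Set.univ fun Y : ℝ => J.f (X, Y)) ∧
    (ConvexOn ℝ Set.univ fun Y : ℝ => lf (X, Y) - J.f (X, Y)) := by
  obtain ⟨h1, h2, h3⟩ := VC3_one (VC3_y h.good.d X) (VC3_y h.good.dY X)
    (fun x => h.hYY (X, x))
  obtain ⟨k1, k2, k3⟩ := VC3_one
    (fun x => (VC3_y good_lJ.d X x).fun_sub (VC3_y h.good.d X x))
    (fun x => (VC3_y good_lJ.dY X x).fun_sub (VC3_y h.good.dY X x))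
    (fun x => sub_nonneg.2 (h.lYY (X, x)))
  exact ⟨h1, h2, k1, k2, h3, k3⟩

noncomputable section

/-- `w` times the constant of form `br` -/
def kbr (x y b : ℝ) : ℝ :=
  s3 * (1 - wf x) - mf x * Nf y + x ^ 2 / (2 * Nf y) + wf x * √(1 + mf x * y ^ 2 / 3) +
    (wf x + mf x * y) * (√3 - 1 - cc) / 2 + b * cc * mf x * y

variable {J : Jet} {b : ℝ}

private theorem VC3_cc2 : cc ^ 2 = 1 / 2 := by
  unfold cc
  rw [div_pow, Real.sq_sqrt (by norm_num), one_pow]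
private theorem VC3_cc0 : 0 < cc := by unfold cc; positivity
private theorem VC3_s2 : (√3 : ℝ) ^ 2 = 3 := Real.sq_sqrt (by norm_num)
private theorem VC3_s0 : (0 : ℝ) < √3 := Real.sqrt_pos.mpr (by norm_num)
private theorem VC3_m0 (x : ℝ) : 0 < mf x := by unfold mf; positivity
private theorem VC3_w0 (x : ℝ) : 0 < wf x := Real.sqrt_pos.mpr (VC3_m0 x)
private theorem VC3_w2 (x : ℝ) : wf x ^ 2 = 1 + x ^ 2 / 2 := by
  unfold wf
  rw [Real.sq_sqrt (VC3_m0 x).le, mf]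

/-- `lf (0,Y) ≥ √3/2 + |Y|/2` -/
theorem lf0_ge (Y : ℝ) : √3 / 2 + Y / 2 ≤ lf (0, Y) := by
  have h3 := VC3_s2
  have h0 := VC3_s0
  unfold lf
  apply Real.le_sqrt_of_sq_le
  simp only
  nlinarith [sq_nonneg (√3 * Y - 1)]

theorem lf0_s3 (Y : ℝ) (hY : Y ^ 2 = 1 / 3) : lf (0, Y) = 2 / √3 := by
  have h3 := VC3_s2
  have h0 := VC3_s0
  unfold lf
  simp only
  rw [hY, Real.sqrt_eq_iff_mul_self_eq_of_pos (by positivity)]
  field_simp
  rw [h3]
  norm_num

/-- lower bound for `J (0,Y)` -/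
theorem J0_ge (h : SqHyp J b) (hc : 1 / 2 ≤ J.f (0, 0)) (Y : ℝ) (hY : 0 ≤ Y) (hY1 : Y ≤ cc) :
    √3 / 2 - cc / 2 - (√3 - 1 - cc) / 2 * (1 + √3 * Y) - √3 * Y * (b * cc) ≤ J.f (0, Y) := by
  have h3 := VC3_s2
  have h0 := VC3_s0
  have c0 := VC3_cc0
  have c2 := VC3_cc2
  have b0 := h.b0
  set r : ℝ := 1 / √3 with hr
  have hr0 : 0 < r := by rw [hr]; positivity
  have hrs : √3 * r = 1 := by rw [hr]; field_simp
  have hr2 : r ^ 2 = 1 / 3 := by rw [hr, div_pow, h3, one_pow]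
  have hrs3 : √3 = 3 * r := by
    have : √3 * (√3 * r) = √3 := by rw [hrs, mul_one]
    rw [← mul_assoc, ← pow_two, h3] at this
    linarith
  have hrc : r ≤ cc := by
    nlinarith
  have hcv := cvY_sq h 0
  obtain ⟨-, -, -, -, hconv, -⟩ := hcv
  -- the sliver functions
  have hmonoP : ∀ t u : ℝ, t ≤ u →
      lf (0, u) - J.f (0, u) - u / 2 ≤ lf (0, t) - J.f (0, t) - t / 2 := by
    have : Antitone fun t : ℝ => lf (0, t) - J.f (0, t) - t / 2 := by
      refine antitone_of_deriv_nonpos (fun t => ?_) (fun t => ?_)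
      · exact (((VC3_y good_lJ.d 0 t).fun_sub (VC3_y h.good.d 0 t)).fun_sub
          ((hasDerivAt_id' t).div_const 2)).differentiableAt
      · have e := (((VC3_y good_lJ.d 0 t).fun_sub (VC3_y h.good.d 0 t)).fun_sub
          ((hasDerivAt_id' t).div_const 2)).deriv
        have e2 : deriv (fun t : ℝ => lf (0, t) - J.f (0, t) - t / 2) t =
          lJ.fY (0, t) - J.fY (0, t) - 1 / 2 := e
        rw [e2]
        have := (abs_le.1 (h.slY (0, t))).2
        linarith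
    intro t u htu
    exact this htu
  have hmonoM : ∀ t u : ℝ, t ≤ u →
      lf (0, t) - J.f (0, t) + t / 2 ≤ lf (0, u) - J.f (0, u) + u / 2 := by
    have : Monotone fun t : ℝ => lf (0, t) - J.f (0, t) + t / 2 := by
      refine monotone_of_deriv_nonneg (fun t => ?_) (fun t => ?_)
      · exact (((VC3_y good_lJ.d 0 t).fun_sub (VC3_y h.good.d 0 t)).fun_add
          ((hasDerivAt_id' t).div_const 2)).differentiableAt
      · have e := (((VC3_y good_lJ.d 0 t).fun_sub (VC3_y h.good.d 0 t)).fun_add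
          ((hasDerivAt_id' t).div_const 2)).deriv
        have e2 : deriv (fun t : ℝ => lf (0, t) - J.f (0, t) + t / 2) t =
          lJ.fY (0, t) - J.fY (0, t) + 1 / 2 := e
        rw [e2]
        have := (abs_le.1 (h.slY (0, t))).1
        linarith
    intro t u htu
    exact this htu
  -- value at `-r`
  have hm : J.f (0, -r) ≤ √3 / 2 - cc / 2 + b * cc := by
    have e1 := hmonoM (-cc) (-r) (by linarith)
    have e2 := lf0_s3 (-r) (by rw [neg_sq, hr2])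
    have e3 := h.ldY 0 (-cc) (by rw [abs_zero]; exact c0.le) (by rw [abs_neg, abs_of_pos c0])
    rw [abs_zero, add_zero] at e3
    rw [e2] at e1
    have e4 : 2 / √3 = 2 * r := by rw [hr]; ring
    rw [e4] at e1
    rw [hrs3]
    linarith
  have hcase : ∀ Z : ℝ, 0 ≤ Z → Z ≤ r →
      √3 / 2 - cc / 2 - (√3 - 1 - cc) / 2 * (1 + √3 * Z) - √3 * Z * (b * cc) ≤ J.f (0, Z) := by
    intro Z hZ hZ1
    have hpos : 0 < Z + r := by linarith
    have hcx := hconv.2 (Set.mem_univ (-r)) (Set.mem_univ Z) (show (0 : ℝ) ≤ Z / (Z + r) by positivity)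
      (show (0 : ℝ) ≤ r / (Z + r) by positivity) (by field_simp)
    have e1 : Z / (Z + r) * (-r) + r / (Z + r) * Z = 0 := by field_simp; ring
    simp only [smul_eq_mul] at hcx
    rw [e1] at hcx
    have e2 : J.f (0, 0) * (Z + r) ≤ Z * J.f (0, -r) + r * J.f (0, Z) := by
      have e3 := mul_le_mul_of_nonneg_right hcx hpos.le
      have e4 : (Z / (Z + r) * J.f (0, -r) + r / (Z + r) * J.f (0, Z)) * (Z + r) =
        Z * J.f (0, -r) + r * J.f (0, Z) := by field_simp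
      rwa [e4] at e3
    have e5 : 1 / 2 * (Z + r) ≤ J.f (0, 0) * (Z + r) := mul_le_mul_of_nonneg_right hc hpos.le
    have e6 : Z * J.f (0, -r) ≤ Z * (√3 / 2 - cc / 2 + b * cc) := mul_le_mul_of_nonneg_left hm hZ
    have e7 : r * (√3 / 2 - cc / 2 - (√3 - 1 - cc) / 2 * (1 + √3 * Z) - √3 * Z * (b * cc)) ≤
        r * J.f (0, Z) := by
      have e8 : r * (√3 / 2 - cc / 2 - (√3 - 1 - cc) / 2 * (1 + √3 * Z) - √3 * Z * (b * cc)) =
        r * (√3 / 2 - cc / 2) - (√3 - 1 - cc) / 2 * (r + (√3 * r) * Z) - (√3 * r) * Z * (b * cc) := by ring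
      rw [e8, hrs]
      nlinarith
    exact le_of_mul_le_mul_left e7 hr0
  rcases le_or_gt Y r with hYr | hYr
  · exact hcase Y hY hYr
  · have e1 := hcase r hr0.le le_rfl
    have e2 := hmonoP r Y hYr.le
    have e3 := lf0_ge Y
    have e4 := lf0_s3 r hr2
    rw [e4] at e2
    have e5 : 2 / √3 = 2 * r := by rw [hr]; ring
    rw [e5] at e2
    have e6 : √3 * r = 1 := hrs
    have e7 : (√3 * r) * (b * cc) = b * cc := by rw [hrs, one_mul]
    rw [e7, hrs] at e1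
    have hd : 0 ≤ √3 - 1 - cc := by
      have : (1 + cc) ≤ √3 := by
        apply Real.le_sqrt_of_sq_le
        nlinarith
      linarith
    have e8 : 1 ≤ √3 * Y := by
      rw [← hrs]
      exact mul_le_mul_of_nonneg_left hYr.le h0.le
    have e9 : (√3 - 1 - cc) / 2 * 2 ≤ (√3 - 1 - cc) / 2 * (1 + √3 * Y) :=
      mul_le_mul_of_nonneg_left (by linarith) (by linarith)
    have e10 : 1 * (b * cc) ≤ √3 * Y * (b * cc) := mul_le_mul_of_nonneg_right e8 (by positivity)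
    linarith

theorem V_br (h : SqHyp J b) (hc : 1 / 2 ≤ J.f (0, 0)) (x y : ℝ) (hx : 0 ≤ x) (hx1 : x ≤ 1) (hy : 0 ≤ y)
    (hy1 : y ≤ 1) : 0 ≤ kbr x y b - (AC J x y).u + x * (AC J x y).p - x ^ 2 * y / 2 * (AC J x y).q := by
  have h3 := VC3_s2
  have h0 := VC3_s0
  have c0 := VC3_cc0
  have c2 := VC3_cc2
  have hw := VC3_w0 x
  have hw2 := VC3_w2 x
  have b0 := h.b0
  have hm : mf x = wf x ^ 2 := by rw [hw2, mf]
  set X := cc * x with hX
  set Y := wf x * y / √3 with hYd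
  have hY0 : 0 ≤ Y := by rw [hYd]; positivity
  have hYc : Y ≤ cc := by
    rw [hYd, div_le_iff₀ h0]
    have e1 : wf x ≤ cc * √3 := by
      apply le_of_sq_le_sq _ (by positivity)
      rw [hw2, mul_pow, c2, h3]
      nlinarith
    nlinarith
  have key := J0_ge h hc Y hY0 hYc
  have tan := (cvX_sq h Y).2.2.1 X 0
  have e1 : (AC J x y).u - x * (AC J x y).p + x ^ 2 * y / 2 * (AC J x y).q =
      s3 - cc * wf x / 2 - wf x * (J.f (X, Y) - X * J.fX (X, Y)) := by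
    have f1 : (AC J x y).u = (starC x y).u - (ch J x y).u := rfl
    have f2 : (AC J x y).q = (starC x y).q - (ch J x y).q := rfl
    have f3 : (AC J x y).p = (starC x y).p - (ch J x y).p := rfl
    have g1 := ch_rr J x y
    have g2 := star_rr x y
    rw [f1, f2, f3]
    linarith
  have hl : lf (X, Y) = wf x * Nf y := lf_chart x y
  have hN : 0 < Nf y := Real.sqrt_pos.mpr (by positivity)
  have hN2 : Nf y ^ 2 = 1 + y ^ 2 / 3 := Real.sq_sqrt (by positivity)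
  have e2 : lJ.fX (X, Y) = X / (wf x * Nf y) := by
    have : lJ.fX (X, Y) = X / lf (X, Y) := rfl
    rw [this, hl]
  have e3 : lf (0, Y) = √(1 + mf x * y ^ 2 / 3) := by
    unfold lf
    congr 1
    simp only
    rw [hYd, div_pow, h3, hm]
    ring
  rw [hl, e2, e3] at tan
  have hY3 : √3 * Y = wf x * y := by rw [hYd]; field_simp
  rw [hY3] at key
  have t1 := mul_le_mul_of_nonneg_left tan hw.le
  have t2 := mul_le_mul_of_nonneg_left key hw.le
  have e4 : wf x * (wf x * Nf y - J.f (X, Y) + (X / (wf x * Nf y) - J.fX (X, Y)) * (0 - X)) =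
      wf x ^ 2 * Nf y - cc ^ 2 * x ^ 2 / Nf y - wf x * (J.f (X, Y) - X * J.fX (X, Y)) := by
    rw [hX]
    field_simp
    ring
  rw [e4, hw2, c2] at t1
  have e5 : (1 + x ^ 2 / 2) * Nf y - 1 / 2 * x ^ 2 / Nf y = mf x * Nf y - x ^ 2 / (2 * Nf y) := by
    unfold mf
    field_simp
  rw [e5] at t1
  have e6 : s3 = √3 / 2 := rfl
  have e7 : kbr x y b = s3 * (1 - wf x) - mf x * Nf y + x ^ 2 / (2 * Nf y) + wf x * √(1 + mf x * y ^ 2 / 3) +
    (wf x + mf x * y) * (√3 - 1 - cc) / 2 + b * cc * mf x * y := rfl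
  have e8 : wf x * (√3 / 2 - cc / 2 - (√3 - 1 - cc) / 2 * (1 + wf x * y) - wf x * y * (b * cc)) =
      wf x * (√3 / 2) - cc * wf x / 2 - (wf x + wf x ^ 2 * y) * (√3 - 1 - cc) / 2 - b * cc * wf x ^ 2 * y := by
    ring
  rw [e8, ← hm] at t2
  rw [e7]
  have e9 : s3 * (1 - wf x) = s3 - wf x * (√3 / 2) := by rw [e6]; ring
  rw [e9]
  linarith

end

end Pool.Agent.MCA
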