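import Pool.Agent.MCA.VCO3
/-!
VCO, fourth part: the forms `B`.
-/
set_option autoImplicit false

open MeasureTheory Set Pool.Agent.MSQ Pool.Agent.MTR Pool.Agent.MGF

namespace Pool.Agent.MCA

noncomputable section

/-- `w` times the constant of form `B`; `X* = cc ξ` -/
def kB (x y ξ : ℝ) : ℝ :=
  wf x * √(1 + ξ ^ 2 / 2 + mf x * y ^ 2 / 3) - (ξ / 2 + 1) * cc * wf x - mf x * Nf y + s3 * mf x +
    x * (ξ - x) / 2 * (s3 - 1 / Nf y)
def kBm (x y ξ : ℝ) : ℝ :=
  wf x * √(1 + ξ ^ 2 / 2 + mf x * y ^ 2 / 3) - (ξ / 2 + 1) * cc * wf x - mf x * Nf y + s3 * mf x -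
    x * (ξ + x) / 2 * (s3 - 1 / Nf y)

variable {J : Jet} {b : ℝ}

private theorem VC4_cc2 : cc ^ 2 = 1 / 2 := by
  unfold cc
  rw [div_pow, Real.sq_sqrt (by norm_num), one_pow]
private theorem VC4_cc0 : 0 < cc := by unfold cc; positivity
private theorem VC4_s2 : (√3 : ℝ) ^ 2 = 3 := Real.sq_sqrt (by norm_num)
private theorem VC4_s0 : (0 : ℝ) < √3 := Real.sqrt_pos.mpr (by norm_num)
private theorem VC4_m0 (x : ℝ) : 0 < mf x := by unfold mf; positivity
private theorem VC4_w0 (x : ℝ) : 0 < wf x := Real.sqrt_pos.mpr (VC4_m0 x)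
private theorem VC4_w2 (x : ℝ) : wf x ^ 2 = 1 + x ^ 2 / 2 := by
  unfold wf
  rw [Real.sq_sqrt (VC4_m0 x).le, mf]

/-- the tangent of `l - J` at `X`, evaluated at `cc η`, in states -/
theorem tanX_state (h : SqHyp J b) (x y η B : ℝ) (hB : B ≤ J.f (cc * η, wf x * y / √3)) :
    0 ≤ wf x * √(1 + η ^ 2 / 2 + mf x * y ^ 2 / 3) - cc * wf x / 2 - wf x * B - mf x * Nf y + s3 * mf x +
      x * (η - x) / 2 * (s3 - 1 / Nf y) - (1 + x * η / 2) * (AC J x y).u - (η - x) * (AC J x y).p +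
      (η - x) * (x * y / 2) * (AC J x y).q := by
  have h3 := VC4_s2
  have h0 := VC4_s0
  have c0 := VC4_cc0
  have c2 := VC4_cc2
  have hw := VC4_w0 x
  have hw2 := VC4_w2 x
  have hm : mf x = wf x ^ 2 := by rw [hw2, mf]
  have tan := (cvX_sq h (wf x * y / √3)).2.2.1 (cc * x) (cc * η)
  have hl : lf (cc * x, wf x * y / √3) = wf x * Nf y := lf_chart x y
  have hN : 0 < Nf y := Real.sqrt_pos.mpr (by positivity)
  have e2 : lJ.fX (cc * x, wf x * y / √3) = cc * x / (wf x * Nf y) := by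
    have : lJ.fX (cc * x, wf x * y / √3) = cc * x / lf (cc * x, wf x * y / √3) := rfl
    rw [this, hl]
  have e3 : lf (cc * η, wf x * y / √3) = √(1 + η ^ 2 / 2 + mf x * y ^ 2 / 3) := by
    unfold lf
    congr 1
    simp only
    rw [div_pow, h3, hm, mul_pow, c2]
    ring
  rw [hl, e2, e3] at tan
  have f1 : (AC J x y).u = (starC x y).u - (ch J x y).u := rfl
  have f2 : (AC J x y).q = (starC x y).q - (ch J x y).q := rfl
  have f3 : (AC J x y).p = (starC x y).p - (ch J x y).p := rfl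
  -- the states of `J`
  have g1 : (1 + x * η / 2) * (ch J x y).u + (η - x) * (ch J x y).p - (η - x) * (x * y / 2) * (ch J x y).q =
      wf x * (J.f (cc * x, wf x * y / √3) + J.fX (cc * x, wf x * y / √3) * (cc * η - cc * x)) := by
    simp only [ch]
    generalize J.f (cc * x, wf x * y / √3) = a0
    generalize J.fX (cc * x, wf x * y / √3) = a1
    generalize J.fY (cc * x, wf x * y / √3) = a2
    have k1 : (η - x) * (cc * (wf x * a1 + cc * x * y * a2 / √3 - cc * x * a0 / wf x)) =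
        (η - x) * cc * wf x * a1 + cc ^ 2 * ((η - x) * x * y * (a2 / √3)) -
          cc ^ 2 * ((η - x) * x * (a0 / wf x)) := by ring
    have k2 : wf x * a0 = wf x ^ 2 * (a0 / wf x) := by field_simp
    rw [k1, c2, mul_add, k2, hw2]
    ring
  -- the states of the reference function
  have g2 : (1 + x * η / 2) * (starC x y).u + (η - x) * (starC x y).p - (η - x) * (x * y / 2) * (starC x y).q =
      s3 * mf x - cc * wf x / 2 + x * (η - x) / 2 * s3 := by
    simp only [starC]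
    have k1 : cc * wf x / 2 = wf x ^ 2 * (cc / (2 * wf x)) := by field_simp
    have k2 : cc * x / (4 * wf x) = x / 2 * (cc / (2 * wf x)) := by field_simp; norm_num
    rw [k1, k2, hw2, mf]
    ring
  have t1 := mul_le_mul_of_nonneg_left tan hw.le
  have t2 := mul_le_mul_of_nonneg_left hB hw.le
  have e4 : wf x * (wf x * Nf y - J.f (cc * x, wf x * y / √3) +
      (cc * x / (wf x * Nf y) - J.fX (cc * x, wf x * y / √3)) * (cc * η - cc * x)) =
      wf x ^ 2 * Nf y + cc ^ 2 * (x * (η - x) * (1 / Nf y)) -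
      wf x * (J.f (cc * x, wf x * y / √3) + J.fX (cc * x, wf x * y / √3) * (cc * η - cc * x)) := by
    field_simp
    ring
  rw [e4, c2, ← hm] at t1
  rw [f1, f2, f3]
  have e5 : wf x * √(1 + η ^ 2 / 2 + mf x * y ^ 2 / 3) - cc * wf x / 2 - wf x * B - mf x * Nf y + s3 * mf x +
      x * (η - x) / 2 * (s3 - 1 / Nf y) - (1 + x * η / 2) * ((starC x y).u - (ch J x y).u) -
      (η - x) * ((starC x y).p - (ch J x y).p) + (η - x) * (x * y / 2) * ((starC x y).q - (ch J x y).q) =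
      wf x * √(1 + η ^ 2 / 2 + mf x * y ^ 2 / 3) - cc * wf x / 2 - wf x * B - mf x * Nf y + s3 * mf x +
      x * (η - x) / 2 * (s3 - 1 / Nf y) -
      ((1 + x * η / 2) * (starC x y).u + (η - x) * (starC x y).p - (η - x) * (x * y / 2) * (starC x y).q) +
      ((1 + x * η / 2) * (ch J x y).u + (η - x) * (ch J x y).p - (η - x) * (x * y / 2) * (ch J x y).q) := by
    ring
  rw [e5, g1, g2]
  linarith

/-- Lipschitz bound in `X` -/
private theorem VC4_lip (h : SqHyp J b) (Y : ℝ) (X X' : ℝ) (hX : X ≤ X') :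
    J.f (X', Y) - J.f (X, Y) ≤ (X' - X) / 2 ∧ J.f (X, Y) - J.f (X', Y) ≤ (X' - X) / 2 := by
  have hD : ∀ t : ℝ, HasDerivAt (fun s => J.f (s, Y)) (J.fX (t, Y)) t := by
    intro t
    have h1 : HasDerivAt (fun t : ℝ => (t, Y)) ((1 : ℝ), (0 : ℝ)) t :=
      (hasDerivAt_id' t).prodMk (hasDerivAt_const t Y)
    have h2 := (h.good.d (t, Y)).comp_hasDerivAt t h1
    refine h2.congr_deriv ?_
    simp
  constructor
  · have hm : Antitone fun t : ℝ => J.f (t, Y) - t / 2 := by
      refine antitone_of_deriv_nonpos (fun t => ((hD t).fun_sub ((hasDerivAt_id' t).div_const 2)).differentiableAt)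
        (fun t => ?_)
      have e := ((hD t).fun_sub ((hasDerivAt_id' t).div_const 2)).deriv
      rw [e]
      have := (abs_le.1 (h.slX (t, Y))).2
      linarith
    have := hm hX
    simp only at this
    linarith
  · have hm : Monotone fun t : ℝ => J.f (t, Y) + t / 2 := by
      refine monotone_of_deriv_nonneg (fun t => ((hD t).fun_add ((hasDerivAt_id' t).div_const 2)).differentiableAt)
        (fun t => ?_)
      have e := ((hD t).fun_add ((hasDerivAt_id' t).div_const 2)).deriv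
      rw [e]
      have := (abs_le.1 (h.slX (t, Y))).1
      linarith
    have := hm hX
    simp only at this
    linarith

theorem V_Bp (h : SqHyp J b) (x y ξ : ℝ) (hx : 0 ≤ x) (hx1 : x ≤ 1) (hy : 0 ≤ y) (hy1 : y ≤ 1) (h0 : -1 ≤ ξ)
    (h1 : ξ ≤ 1) : 0 ≤ kB x y ξ - (1 + x * ξ / 2) * (AC J x y).u - (ξ - x) * (AC J x y).p +
      (ξ - x) * (x * y / 2) * (AC J x y).q + mf x * (FdC J).c x y := by
  have c0 := VC4_cc0
  have hw := VC4_w0 x
  have hm : mf x = wf x ^ 2 := by rw [VC4_w2, mf]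
  have hl := (VC4_lip h (wf x * y / √3) (cc * ξ) cc (by nlinarith)).1
  have key := tanX_state h x y ξ (J.f (cc, wf x * y / √3) - (cc - cc * ξ) / 2) (by linarith)
  have e : mf x * (FdC J).c x y = wf x * (cc - J.f (cc, wf x * y / √3)) := by
    have : (FdC J).c x y = (cc - J.f (cc, wf x * y / √3)) / wf x := rfl
    rw [this, hm]
    field_simp
  rw [e]
  unfold kB
  linarith

theorem V_Bm (h : SqHyp J b) (x y ξ : ℝ) (hx : 0 ≤ x) (hx1 : x ≤ 1) (hy : 0 ≤ y) (hy1 : y ≤ 1) (h0 : -1 ≤ ξ)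
    (h1 : ξ ≤ 1) : 0 ≤ kBm x y ξ - (1 - x * ξ / 2) * (AC J x y).u + (ξ + x) * (AC J x y).p -
      (ξ + x) * (x * y / 2) * (AC J x y).q + mf x * (FdC J).d x y := by
  have c0 := VC4_cc0
  have hw := VC4_w0 x
  have hm : mf x = wf x ^ 2 := by rw [VC4_w2, mf]
  have hl := (VC4_lip h (wf x * y / √3) (-cc) (cc * -ξ) (by nlinarith)).2
  have key := tanX_state h x y (-ξ) (J.f (-cc, wf x * y / √3) - (cc - cc * ξ) / 2) (by linarith)
  have e : mf x * (FdC J).d x y = wf x * (cc - J.f (-cc, wf x * y / √3)) := by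
    have : (FdC J).d x y = (cc - J.f (-cc, wf x * y / √3)) / wf x := rfl
    rw [this, hm]
    field_simp
  rw [neg_sq] at key
  rw [e]
  unfold kBm
  linarith

end

end Pool.Agent.MCA
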