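import Pool.Agent.MCA.VCO4
/-!
VCO, fifth part: the forms `a`.
-/
set_option autoImplicit false

open MeasureTheory Set Pool.Agent.MSQ Pool.Agent.MTR Pool.Agent.MGF

namespace Pool.Agent.MCA

variable {J : Jet} {b : ℝ}

private theorem VC5_cc2 : cc ^ 2 = 1 / 2 := by
  unfold cc
  rw [div_pow, Real.sq_sqrt (by norm_num), one_pow]
private theorem VC5_cc0 : 0 < cc := by unfold cc; positivity
private theorem VC5_s2 : (√3 : ℝ) ^ 2 = 3 := Real.sq_sqrt (by norm_num)
private theorem VC5_s0 : (0 : ℝ) < √3 := Real.sqrt_pos.mpr (by norm_num)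
private theorem VC5_m0 (x : ℝ) : 0 < mf x := by unfold mf; positivity
private theorem VC5_w0 (x : ℝ) : 0 < wf x := Real.sqrt_pos.mpr (VC5_m0 x)
private theorem VC5_w2 (x : ℝ) : wf x ^ 2 = 1 + x ^ 2 / 2 := by
  unfold wf
  rw [Real.sq_sqrt (VC5_m0 x).le, mf]

private theorem VC5_gc (x : ℝ) (hx : 0 ≤ x) (hx1 : x ≤ 1) : wf x / √3 ≤ cc := by
  have h3 := VC5_s2
  have h0 := VC5_s0
  have c0 := VC5_cc0
  have c2 := VC5_cc2
  rw [div_le_iff₀ h0]
  apply le_of_sq_le_sq _ (by positivity)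
  rw [VC5_w2, mul_pow, c2, h3]
  nlinarith

/-- monotonicity of `l - J` minus the slope `± 1/2` in `Y` -/
private theorem VC5_lip (h : SqHyp J b) (X : ℝ) (Y Y' : ℝ) (hY : Y ≤ Y') :
    (lf (X, Y') - J.f (X, Y')) - (lf (X, Y) - J.f (X, Y)) ≤ (Y' - Y) / 2 ∧
    (lf (X, Y) - J.f (X, Y)) - (lf (X, Y') - J.f (X, Y')) ≤ (Y' - Y) / 2 := by
  have hD0 : ∀ {G GX GY : ℝ × ℝ → ℝ}, D1 G GX GY → ∀ t : ℝ, HasDerivAt (fun s => G (X, s)) (GY (X, t)) t := by
    intro G GX GY hG t
    have h1 : HasDerivAt (fun t : ℝ => (X, t)) ((0 : ℝ), (1 : ℝ)) t :=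
      (hasDerivAt_const t X).prodMk (hasDerivAt_id' t)
    have h2 := (hG (X, t)).comp_hasDerivAt t h1
    refine h2.congr_deriv ?_
    simp
  have hD : ∀ t : ℝ, HasDerivAt (fun s => lf (X, s) - J.f (X, s)) (lJ.fY (X, t) - J.fY (X, t)) t :=
    fun t => (hD0 good_lJ.d t).fun_sub (hD0 h.good.d t)
  constructor
  · have hm : Antitone fun t : ℝ => lf (X, t) - J.f (X, t) - t / 2 := by
      refine antitone_of_deriv_nonpos (fun t => ((hD t).fun_sub ((hasDerivAt_id' t).div_const 2)).differentiableAt)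
        (fun t => ?_)
      have e := ((hD t).fun_sub ((hasDerivAt_id' t).div_const 2)).deriv
      rw [e]
      have := (abs_le.1 (h.slY (X, t))).2
      linarith
    have := hm hY
    simp only at this
    linarith
  · have hm : Monotone fun t : ℝ => lf (X, t) - J.f (X, t) + t / 2 := by
      refine monotone_of_deriv_nonneg (fun t => ((hD t).fun_add ((hasDerivAt_id' t).div_const 2)).differentiableAt)
        (fun t => ?_)
      have e := ((hD t).fun_add ((hasDerivAt_id' t).div_const 2)).deriv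
      rw [e]
      have := (abs_le.1 (h.slY (X, t))).1
      linarith
    have := hm hY
    simp only at this
    linarith

private theorem VC5_lfg (x σ : ℝ) (hσ : σ ^ 2 = 1) : lf (cc * x, σ * (wf x / √3)) = 2 * (wf x / √3) := by
  have h3 := VC5_s2
  have h0 := VC5_s0
  have c2 := VC5_cc2
  have hw := VC5_w0 x
  have hw2 := VC5_w2 x
  unfold lf
  simp only
  rw [Real.sqrt_eq_iff_mul_self_eq_of_pos (by positivity), mul_pow, mul_pow, hσ, c2, div_pow, h3, hw2]
  have e : 2 * (wf x / √3) * (2 * (wf x / √3)) = 4 * wf x ^ 2 / √3 ^ 2 := by ring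
  rw [e, h3, hw2]
  ring

private theorem VC5_s3g (x : ℝ) : s3 * wf x = 3 / 2 * (wf x / √3) := by
  have h3 := VC5_s2
  have h0 := VC5_s0
  unfold s3
  field_simp
  rw [h3]
  ring

private theorem VC5_state (x y η : ℝ) : wf x * ((AC J x y).u + (η - y) * (AC J x y).q) =
    s3 * wf x - cc / 2 - (J.f (cc * x, wf x * y / √3) +
      J.fY (cc * x, wf x * y / √3) * (η * (wf x / √3) - wf x * y / √3)) := by
  have hw := VC5_w0 x
  have h0 := VC5_s0
  have f1 : (AC J x y).u = (s3 - cc / (2 * wf x)) - J.f (cc * x, wf x * y / √3) / wf x := rfl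
  have f2 : (AC J x y).q = 0 - J.fY (cc * x, wf x * y / √3) / √3 := rfl
  rw [f1, f2]
  field_simp
  ring

theorem V_ap (h : SqHyp J b) (x y : ℝ) (hx : 0 ≤ x) (hx1 : x ≤ 1) (hy : 0 ≤ y) (hy1 : y ≤ 1) :
    0 ≤ (AC J x y).u + (1 - y) * (AC J x y).q + (FdC J).a x := by
  have hw := VC5_w0 x
  have h0 := VC5_s0
  have hg := VC5_gc x hx hx1
  have t1 := (cvY_sq h (cc * x)).1 (wf x * y / √3) (1 * (wf x / √3))
  have t2 := (VC5_lip h (cc * x) (1 * (wf x / √3)) cc (by linarith)).1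
  have e1 := VC5_lfg x 1 (by norm_num)
  have e2 := VC5_s3g x
  have e3 := VC5_state (J := J) x y 1
  rw [e1] at t2
  have e4 : (FdC J).a x = etp J (cc * x) / wf x := rfl
  have e5 : etp J (cc * x) = cc - (lf (cc * x, cc) - J.f (cc * x, cc)) := rfl
  have e6 : wf x * ((AC J x y).u + (1 - y) * (AC J x y).q + (FdC J).a x) =
      wf x * ((AC J x y).u + (1 - y) * (AC J x y).q) + etp J (cc * x) := by
    rw [e4]; field_simp
  have e7 : 0 ≤ wf x * ((AC J x y).u + (1 - y) * (AC J x y).q + (FdC J).a x) := by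
    rw [e6, e3, e2, e5]
    linarith
  exact nonneg_of_mul_nonneg_right e7 hw

theorem V_am (h : SqHyp J b) (x y : ℝ) (hx : 0 ≤ x) (hx1 : x ≤ 1) (hy : 0 ≤ y) (hy1 : y ≤ 1) :
    0 ≤ (AC J x y).u - (1 + y) * (AC J x y).q + (FdC J).b x := by
  have hw := VC5_w0 x
  have h0 := VC5_s0
  have hg := VC5_gc x hx hx1
  have t1 := (cvY_sq h (cc * x)).1 (wf x * y / √3) (-1 * (wf x / √3))
  have t2 := (VC5_lip h (cc * x) (-cc) (-1 * (wf x / √3)) (by linarith)).2
  have e1 := VC5_lfg x (-1) (by norm_num)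
  have e2 := VC5_s3g x
  have e3 := VC5_state (J := J) x y (-1)
  rw [e1] at t2
  have e4 : (FdC J).b x = etm J (cc * x) / wf x := rfl
  have e5 : etm J (cc * x) = cc - (lf (cc * x, -cc) - J.f (cc * x, -cc)) := rfl
  have e6 : wf x * ((AC J x y).u - (1 + y) * (AC J x y).q + (FdC J).b x) =
      wf x * ((AC J x y).u + (-1 - y) * (AC J x y).q) + etm J (cc * x) := by
    rw [e4]; field_simp; ring
  have e7 : 0 ≤ wf x * ((AC J x y).u - (1 + y) * (AC J x y).q + (FdC J).b x) := by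
    rw [e6, e3, e2, e5]
    linarith
  exact nonneg_of_mul_nonneg_right e7 hw

end Pool.Agent.MCA
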